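import Mathlib

/-!
# Asymptotic expansions: definitions

`IsAE s A B C`: `√n s(n) ~ ∑ (A_i log n + B_i + (-1)^n C_i) / n^i` to all orders.
-/

set_option autoImplicit false

open Filter Asymptotics

namespace Pool.Agent.Helper99.TC

/-- `√n * s n` has the asymptotic expansion `∑ (A_i log n + B_i + (-1)^n C_i) / n^i` -/
def IsAE (s : ℕ → ℝ) (A B C : ℕ → ℝ) : Prop :=
  ∀ N : ℕ, (fun n : ℕ => √(n : ℝ) * s n -
    ∑ i ∈ Finset.range N, (A i * Real.log n + B i + (-1) ^ n * C i) / (n : ℝ) ^ i)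
    =O[atTop] (fun n : ℕ => Real.log n / (n : ℝ) ^ N)

/-- coefficient of `ε^m` in `(1 - ε)^(-(k + 1/2))` -/
def cc (k m : ℕ) : ℚ := ∏ q ∈ Finset.range m, ((k : ℚ) + 1 / 2 + q) / (q + 1)

/-- transformation of the coefficients under `n ↦ n - j` -/
noncomputable def Sh (j : ℕ) (A : ℕ → ℝ) (i : ℕ) : ℝ :=
  ∑ k ∈ Finset.range (i + 1), A k * (cc k (i - k) : ℝ) * (j : ℝ) ^ (i - k)

/-- division by `n` -/
def dv (A : ℕ → ℝ) (i : ℕ) : ℝ := if i = 0 then 0 else A (i - 1)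

/-- the operator `∑_{j<J} (∑_{d<D} q j d n^(-d)) s(n - j)` -/
noncomputable def Lop (J D : ℕ) (q : ℕ → ℕ → ℚ) (s : ℕ → ℝ) (n : ℕ) : ℝ :=
  ∑ j ∈ Finset.range J, (∑ d ∈ Finset.range D, (q j d : ℝ) / (n : ℝ) ^ d) * s (n - j)

/-- the symbol of `Lop` (`e = 1`: on `A` and `B`; `e = -1`: on `C`) -/
noncomputable def symb (J D : ℕ) (q : ℕ → ℕ → ℚ) (e : ℝ) (A : ℕ → ℝ) (i : ℕ) : ℝ :=
  ∑ j ∈ Finset.range J, ∑ d ∈ Finset.range D,
    if d ≤ i then e ^ j * (q j d : ℝ) * Sh j A (i - d) else 0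

end Pool.Agent.Helper99.TC
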