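import Pool.Agent.Helper99.TC.AE

/-!
# TC-40: basic calculus of asymptotic expansions

`of_pos`: for `N = 0` use `N = 1`. `div`: `√n s(n)/n`, expansion at order N from the one of `s` at order `N - 1` (for `N = 0` use order 0). `unique`: subtract; `∑_{i<N} (A_i log n + B_i + (-1)^n C_i)/n^i = O(log n / n^N)` for all `N` implies that all coefficients are 0: by induction on `i` (multiply by `n^i`, take `N = i + 1`):
`A log n + B + (-1)^n C → 0` implies `A = 0` (divide by log n), then `B + C = 0 = B - C` (even and odd `n`).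
-/

set_option autoImplicit false

open Filter Asymptotics

namespace Pool.Agent.Helper99.TC

private theorem AEBasic_term (a b c : ℝ) (i : ℕ) :
    (fun n : ℕ => (a * Real.log n + b + (-1) ^ n * c) / (n : ℝ) ^ i)
      =O[atTop] (fun n : ℕ => Real.log n / (n : ℝ) ^ i) := by
  apply IsBigO.of_bound (|a| + |b| + |c|)
  filter_upwards [eventually_ge_atTop 3] with n hn
  have hlog : 1 ≤ Real.log n := by
    rw [Real.le_log_iff_exp_le (by positivity)]
    have h1 : (3 : ℝ) ≤ n := by exact_mod_cast hn
    exact (Real.exp_one_lt_d9.le.trans (by norm_num)).trans h1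
  have hnum : |a * Real.log n + b + (-1) ^ n * c| ≤ (|a| + |b| + |c|) * Real.log n := by
    have h1 : |a * Real.log n + b + (-1) ^ n * c| ≤ |a * Real.log n| + |b| + |(-1) ^ n * c| :=
      (abs_add_le _ _).trans (by gcongr; exact abs_add_le _ _)
    have h2 : |a * Real.log n| = |a| * Real.log n := by
      rw [abs_mul, abs_of_nonneg (show 0 ≤ Real.log n by linarith)]
    have h3 : |(-1) ^ n * c| = |c| := by
      rw [abs_mul, abs_pow, abs_neg, abs_one, one_pow, one_mul]
    rw [h2, h3] at h1
    have h4 : |b| ≤ |b| * Real.log n := le_mul_of_one_le_right (abs_nonneg _) hlog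
    have h5 : |c| ≤ |c| * Real.log n := le_mul_of_one_le_right (abs_nonneg _) hlog
    linarith
  rw [norm_div, norm_div, Real.norm_eq_abs, Real.norm_eq_abs (Real.log n),
    abs_of_nonneg (show 0 ≤ Real.log n by linarith), ← mul_div_assoc]
  gcongr

private theorem AEBasic_mono {M N : ℕ} (h : M ≤ N) :
    (fun n : ℕ => Real.log n / (n : ℝ) ^ N) =O[atTop] (fun n : ℕ => Real.log n / (n : ℝ) ^ M) := by
  apply IsBigO.of_bound 1
  filter_upwards [eventually_ge_atTop 1] with n hn
  have h1 : (1 : ℝ) ≤ n := by exact_mod_cast hn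
  have h2 : 0 ≤ Real.log n := Real.log_nonneg h1
  rw [one_mul, Real.norm_eq_abs, Real.norm_eq_abs, abs_of_nonneg (by positivity),
    abs_of_nonneg (by positivity)]
  apply div_le_div_of_nonneg_left h2 (by positivity)
  exact pow_le_pow_right₀ h1 h

theorem IsAE.of_pos {s A B C : ℕ → ℝ}
    (h : ∀ N : ℕ, 1 ≤ N → (fun n : ℕ => √(n : ℝ) * s n -
      ∑ i ∈ Finset.range N, (A i * Real.log n + B i + (-1) ^ n * C i) / (n : ℝ) ^ i)
      =O[atTop] (fun n : ℕ => Real.log n / (n : ℝ) ^ N)) : IsAE s A B C := by
  intro N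
  rcases Nat.eq_zero_or_pos N with rfl | hN
  · have h1 := h 1 le_rfl
    have h2 := (h1.trans (AEBasic_mono (Nat.zero_le 1))).add (AEBasic_term (A 0) (B 0) (C 0) 0)
    refine h2.congr_left ?_
    intro n
    simp
  · exact h N hN

theorem IsAE.congr' {s s' A B C : ℕ → ℝ} (h : IsAE s A B C) (hs : ∀ᶠ n in atTop, s n = s' n) :
    IsAE s' A B C := by
  intro N
  refine (h N).congr' ?_ (EventuallyEq.refl _ _)
  filter_upwards [hs] with n hn
  rw [hn]

theorem IsAE.add {s s' A B C A' B' C' : ℕ → ℝ} (h : IsAE s A B C) (h' : IsAE s' A' B' C') :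
    IsAE (fun n => s n + s' n) (fun i => A i + A' i) (fun i => B i + B' i)
      (fun i => C i + C' i) := by
  intro N
  refine ((h N).add (h' N)).congr_left ?_
  intro n
  have h1 : ∑ i ∈ Finset.range N, ((A i + A' i) * Real.log n + (B i + B' i) +
      (-1) ^ n * (C i + C' i)) / (n : ℝ) ^ i =
      ∑ i ∈ Finset.range N, (A i * Real.log n + B i + (-1) ^ n * C i) / (n : ℝ) ^ i +
      ∑ i ∈ Finset.range N, (A' i * Real.log n + B' i + (-1) ^ n * C' i) / (n : ℝ) ^ i := by
    rw [← Finset.sum_add_distrib]
    apply Finset.sum_congr rfl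
    intro i _
    ring
  rw [h1]
  ring

theorem IsAE.smul {s A B C : ℕ → ℝ} (h : IsAE s A B C) (c : ℝ) :
    IsAE (fun n => c * s n) (fun i => c * A i) (fun i => c * B i) (fun i => c * C i) := by
  intro N
  refine ((h N).const_mul_left c).congr_left ?_
  intro n
  have h1 : ∑ i ∈ Finset.range N, (c * A i * Real.log n + c * B i +
      (-1) ^ n * (c * C i)) / (n : ℝ) ^ i =
      c * ∑ i ∈ Finset.range N, (A i * Real.log n + B i + (-1) ^ n * C i) / (n : ℝ) ^ i := by
    rw [Finset.mul_sum]
    apply Finset.sum_congr rfl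
    intro i _
    ring
  rw [h1]
  ring

theorem IsAE.zero : IsAE (fun _ => 0) (fun _ => 0) (fun _ => 0) (fun _ => 0) := by
  intro N
  refine (isBigO_zero _ _).congr_left ?_
  intro n
  simp

theorem IsAE.sum {ι : Type*} (t : Finset ι) {s A B C : ι → ℕ → ℝ}
    (h : ∀ k ∈ t, IsAE (s k) (A k) (B k) (C k)) :
    IsAE (fun n => ∑ k ∈ t, s k n) (fun i => ∑ k ∈ t, A k i) (fun i => ∑ k ∈ t, B k i)
      (fun i => ∑ k ∈ t, C k i) := by
  classical
  induction t using Finset.induction_on with
  | empty => simpa using IsAE.zero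
  | insert k t hk ih =>
    have h1 := (h k (Finset.mem_insert_self k t)).add
      (ih (fun j hj => h j (Finset.mem_insert_of_mem hj)))
    simpa only [Finset.sum_insert hk] using h1

theorem IsAE.div {s A B C : ℕ → ℝ} (h : IsAE s A B C) :
    IsAE (fun n => s n / n) (dv A) (dv B) (dv C) := by
  apply IsAE.of_pos
  intro N hN
  obtain ⟨M, rfl⟩ : ∃ M, N = M + 1 := ⟨N - 1, by omega⟩
  have h1 := (h M).mul (isBigO_refl (fun n : ℕ => ((n : ℝ))⁻¹) atTop)
  refine h1.congr' (Eventually.of_forall fun n => ?_) (Eventually.of_forall fun n => ?_)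
  · show (√(n : ℝ) * s n - ∑ i ∈ Finset.range M, (A i * Real.log n + B i + (-1) ^ n * C i) /
      (n : ℝ) ^ i) * (n : ℝ)⁻¹ = √(n : ℝ) * (s n / n) - ∑ i ∈ Finset.range (M + 1),
      (dv A i * Real.log n + dv B i + (-1) ^ n * dv C i) / (n : ℝ) ^ i
    rw [Finset.sum_range_succ', sub_mul, Finset.sum_mul]
    have h2 : ∀ i ∈ Finset.range M, (A i * Real.log n + B i + (-1) ^ n * C i) / (n : ℝ) ^ i *
        (n : ℝ)⁻¹ = (dv A (i + 1) * Real.log n + dv B (i + 1) + (-1) ^ n * dv C (i + 1)) /
        (n : ℝ) ^ (i + 1) := by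
      intro i _
      unfold dv
      simp only [Nat.succ_ne_zero, if_false, Nat.add_sub_cancel]
      rw [pow_succ, ← div_eq_mul_inv, div_div]
    rw [Finset.sum_congr rfl h2]
    have h3 : (dv A 0 * Real.log n + dv B 0 + (-1) ^ n * dv C 0) / (n : ℝ) ^ 0 = 0 := by
      simp [dv]
    rw [h3, add_zero, div_eq_mul_inv, mul_assoc]
  · show Real.log n / (n : ℝ) ^ M * (n : ℝ)⁻¹ = Real.log n / (n : ℝ) ^ (M + 1)
    rw [pow_succ, ← div_eq_mul_inv, div_div]

private theorem AEBasic_zero {a b c : ℕ → ℝ} (h : IsAE (fun _ => 0) a b c) (i : ℕ) :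
    a i = 0 ∧ b i = 0 ∧ c i = 0 := by
  induction i using Nat.strong_induction_on with
  | _ i ih =>
    have h1 := h (i + 1)
    -- multiply by n^i
    have h2 := (h1.mul (isBigO_refl (fun n : ℕ => ((n : ℝ)) ^ i) atTop)).neg_left
    have h3 : (fun n : ℕ => a i * Real.log n + b i + (-1) ^ n * c i) =O[atTop]
        (fun n : ℕ => Real.log n / (n : ℝ)) := by
      refine h2.congr' ?_ ?_
      · filter_upwards [eventually_ge_atTop 1] with n hn
        have hn0 : (n : ℝ) ≠ 0 := by
          have : 0 < n := hn
          positivity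
        rw [Finset.sum_range_succ]
        have h4 : ∑ k ∈ Finset.range i, (a k * Real.log n + b k + (-1) ^ n * c k) / (n : ℝ) ^ k =
            0 := by
          apply Finset.sum_eq_zero
          intro k hk
          obtain ⟨h5, h6, h7⟩ := ih k (Finset.mem_range.1 hk)
          rw [h5, h6, h7]
          simp
        rw [h4, mul_zero, zero_add, zero_sub, neg_mul, neg_neg,
          div_mul_cancel₀ _ (pow_ne_zero _ hn0)]
      · filter_upwards [eventually_ge_atTop 1] with n hn
        have hn0 : (n : ℝ) ≠ 0 := by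
          have : 0 < n := hn
          positivity
        rw [pow_succ]
        field_simp
    have h4 : Tendsto (fun n : ℕ => a i * Real.log n + b i + (-1) ^ n * c i) atTop (nhds 0) := by
      refine h3.trans_tendsto ?_
      have h5 := (Real.isLittleO_log_id_atTop.tendsto_div_nhds_zero).comp
        (tendsto_natCast_atTop_atTop (R := ℝ))
      exact h5
    have t2 : Tendsto (fun m : ℕ => 2 * m) atTop atTop :=
      tendsto_id.const_mul_atTop' (by norm_num)
    have t4 : Tendsto (fun m : ℕ => 2 * (2 * m)) atTop atTop := t2.comp t2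
    have t3 : Tendsto (fun m : ℕ => 2 * m + 1) atTop atTop := (tendsto_add_atTop_nat 1).comp t2
    have e2 := h4.comp t2
    have e4 := h4.comp t4
    have e3 := h4.comp t3
    have ha : a i = 0 := by
      have h5 : Tendsto (fun m : ℕ => a i * Real.log 2) atTop (nhds (0 - 0)) := by
        refine (e4.sub e2).congr' ?_
        filter_upwards [eventually_ge_atTop 1] with m hm
        have hm0 : (m : ℝ) ≠ 0 := by
          have : 0 < m := hm
          positivity
        simp only [Function.comp_apply]
        rw [Even.neg_one_pow (even_two_mul _), Even.neg_one_pow (even_two_mul _)]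
        push_cast
        rw [Real.log_mul (by norm_num : (2 : ℝ) ≠ 0) (by positivity)]
        ring
      have h6 := tendsto_nhds_unique h5 tendsto_const_nhds
      have h7 : Real.log 2 ≠ 0 := (Real.log_pos (by norm_num)).ne'
      rw [sub_zero] at h6
      rcases mul_eq_zero.1 h6.symm with h8 | h8
      · exact h8
      · exact absurd h8 h7
    have hbc : b i + c i = 0 := by
      have h5 : Tendsto (fun m : ℕ => b i + c i) atTop (nhds 0) := by
        refine e2.congr ?_
        intro m
        simp only [Function.comp_apply]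
        rw [Even.neg_one_pow (even_two_mul _), ha]
        ring
      exact (tendsto_nhds_unique h5 tendsto_const_nhds).symm
    have hbc' : b i - c i = 0 := by
      have h5 : Tendsto (fun m : ℕ => b i - c i) atTop (nhds 0) := by
        refine e3.congr ?_
        intro m
        simp only [Function.comp_apply]
        rw [Odd.neg_one_pow ⟨m, rfl⟩, ha]
        ring
      exact (tendsto_nhds_unique h5 tendsto_const_nhds).symm
    exact ⟨ha, by linarith, by linarith⟩

theorem IsAE.unique {s A B C A' B' C' : ℕ → ℝ} (h : IsAE s A B C) (h' : IsAE s A' B' C') :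
    A = A' ∧ B = B' ∧ C = C' := by
  have h1 := h.add (h'.smul (-1))
  have h2 : IsAE (fun _ => 0) (fun i => A i + -1 * A' i) (fun i => B i + -1 * B' i)
      (fun i => C i + -1 * C' i) := by
    refine h1.congr' (Eventually.of_forall fun n => ?_)
    show s n + -1 * s n = 0
    ring
  refine ⟨funext fun i => ?_, funext fun i => ?_, funext fun i => ?_⟩
  · have h3 := (AEBasic_zero h2 i).1
    linarith
  · have h3 := (AEBasic_zero h2 i).2.1
    linarith
  · have h3 := (AEBasic_zero h2 i).2.2
    linarith

/-- the leading term -/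
theorem IsAE.lead {s A B C : ℕ → ℝ} (h : IsAE s A B C) :
    Tendsto (fun n : ℕ => √(n : ℝ) * s n / Real.log n) atTop (nhds (A 0)) := by
  have hlog : Tendsto (fun n : ℕ => Real.log (n : ℝ)) atTop atTop :=
    Real.tendsto_log_atTop.comp tendsto_natCast_atTop_atTop
  have h1 : (fun n : ℕ => √(n : ℝ) * s n - A 0 * Real.log n) =o[atTop]
      (fun n : ℕ => Real.log (n : ℝ)) := by
    have h2 : (fun n : ℕ => Real.log n / (n : ℝ) ^ 1) =o[atTop]
        (fun n : ℕ => Real.log (n : ℝ)) := by
      have h3 : (fun n : ℕ => ((n : ℝ) ^ 1)⁻¹) =o[atTop] (fun _ : ℕ => (1 : ℝ)) := by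
        rw [isLittleO_one_iff]
        simp only [pow_one]
        exact tendsto_inv_atTop_zero.comp tendsto_natCast_atTop_atTop
      have h4 := (isBigO_refl (fun n : ℕ => Real.log (n : ℝ)) atTop).mul_isLittleO h3
      refine h4.congr (fun n => ?_) (fun n => ?_)
      · rw [div_eq_mul_inv]
      · rw [mul_one]
    have h5 : (fun n : ℕ => B 0 + (-1) ^ n * C 0) =o[atTop] (fun n : ℕ => Real.log (n : ℝ)) := by
      have h6 : (fun n : ℕ => B 0 + (-1) ^ n * C 0) =O[atTop] (fun _ : ℕ => (1 : ℝ)) := by
        apply IsBigO.of_bound (|B 0| + |C 0|)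
        refine Eventually.of_forall fun n => ?_
        rw [norm_one, mul_one, Real.norm_eq_abs]
        refine (abs_add_le _ _).trans ?_
        rw [abs_mul, abs_pow, abs_neg, abs_one, one_pow, one_mul]
      refine h6.trans_isLittleO ?_
      rw [isLittleO_const_left]
      right
      exact tendsto_norm_atTop_atTop.comp hlog
    have h7 := ((h 1).trans_isLittleO h2).add h5
    refine h7.congr_left ?_
    intro n
    simp only [Finset.sum_range_one, pow_zero, div_one]
    ring
  have h2 := h1.tendsto_div_nhds_zero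
  have h3 := h2.add_const (A 0)
  rw [zero_add] at h3
  refine h3.congr' ?_
  filter_upwards [hlog.eventually_gt_atTop 0] with n hn
  field_simp
  ring

end Pool.Agent.Helper99.TC
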