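import Pool.Agent.Helper99.TC.AEBasic

/-!
# TC-41: expansions under `n ↦ n - j`

Fix `N`. `√n s(n - j) = √(n/(n-j)) * √(n-j) s(n-j)`, and by hypothesis `√(n-j) s(n-j) = ∑_{k<N} (A_k log(n-j) + B_k + (-1)^(n-j) C_k) (n-j)^(-k) + O(log n / n^N)`. With `ε = 1/n`: `√(n/(n-j)) (n-j)^(-k) = ε^k (1 - jε)^(-(k+1/2)) = ∑_{m<M} cc k m j^m ε^(k+m) + O(ε^(k+M))` (Taylor/binomial series of
`(1 - x)^(-(k+1/2))` at 0; a convenient way: `(1 - x)^(-a)` is analytic near 0 (`Real.one_add_rpow...`, or prove the bound for the remainder by an ODE or by Taylor's theorem), or avoid real powers: prove first for `a = 1/2` that the partial sums `p_M` of the series satisfy `p_M(x)^2 (1 - x) = 1 + O(x^M)`, hence `p_M(x) = (1-x)^(-1/2) + O(x^M)`,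
and get `a = k + 1/2` by multiplying with the partial sums of the geometric series, using `cc (k+1) m = ∑_{q ≤ m} cc k q`), and `log(n - j) = log n + log(1 - jε)`, `log(1 - jε)` has an expansion in powers of `ε` (`- ∑ (jε)^m/m`). Collect the coefficients: the log-part is `Sh j A`, the alternating part `(-1)^j Sh j C`, the rest gives some `B'` (with `B' 0 = B 0` since `log(1 - jε) = O(ε)`), and if `A = 0` it is `Sh j B`.
(For `j = 0` everything is trivial.)
-/

set_option autoImplicit false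

open Filter Asymptotics

namespace Pool.Agent.Helper99.TC

/-- expansions in powers of 1/n -/
private def PE (f : ℕ → ℝ) (a : ℕ → ℝ) : Prop :=
  ∀ N : ℕ, (fun n : ℕ => f n - ∑ i ∈ Finset.range N, a i * ((n : ℝ)⁻¹) ^ i)
    =O[atTop] (fun n : ℕ => ((n : ℝ)⁻¹) ^ N)

private theorem inv_pow_bdd (k : ℕ) :
    (fun n : ℕ => ((n : ℝ)⁻¹) ^ k) =O[atTop] (fun _ : ℕ => (1 : ℝ)) := by
  refine IsBigO.of_bound 1 ?_
  filter_upwards [eventually_ge_atTop 1] with n hn
  have hn' : (1 : ℝ) ≤ n := by exact_mod_cast hn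
  have h1 : (n : ℝ)⁻¹ ≤ 1 := inv_le_one_of_one_le₀ hn'
  have h0 : 0 ≤ (n : ℝ)⁻¹ := by positivity
  rw [norm_pow, Real.norm_of_nonneg h0]
  simpa using pow_le_one₀ h0 h1

private theorem PE.bdd {f a : ℕ → ℝ} (h : PE f a) : f =O[atTop] (fun _ : ℕ => (1 : ℝ)) := by
  have := h 0
  simpa using this

private theorem PE.mul {f g a b : ℕ → ℝ} (hf : PE f a) (hg : PE g b) :
    PE (fun n => f n * g n) (fun i => ∑ k ∈ Finset.range (i + 1), a k * b (i - k)) := by
  intro N
  have key : ∀ n : ℕ, f n * g n - ∑ i ∈ Finset.range N,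
      (∑ k ∈ Finset.range (i + 1), a k * b (i - k)) * ((n : ℝ)⁻¹) ^ i =
      (f n - ∑ i ∈ Finset.range N, a i * ((n : ℝ)⁻¹) ^ i) * g n +
        ∑ k ∈ Finset.range N, a k * ((n : ℝ)⁻¹) ^ k *
          (g n - ∑ l ∈ Finset.range (N - k), b l * ((n : ℝ)⁻¹) ^ l) := by
    intro n
    set x : ℝ := (n : ℝ)⁻¹
    have h1 : ∑ i ∈ Finset.range N, (∑ k ∈ Finset.range (i + 1), a k * b (i - k)) * x ^ i =
        ∑ k ∈ Finset.range N, ∑ l ∈ Finset.range (N - k), (a k * x ^ k) * (b l * x ^ l) := by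
      rw [← Finset.sum_range_diag_flip N (fun k l => (a k * x ^ k) * (b l * x ^ l))]
      refine Finset.sum_congr rfl (fun i _ => ?_)
      rw [Finset.sum_mul]
      refine Finset.sum_congr rfl (fun k hk => ?_)
      have hk' : k ≤ i := Nat.lt_succ_iff.1 (Finset.mem_range.1 hk)
      have h2 : x ^ i = x ^ k * x ^ (i - k) := by rw [← pow_add]; congr 1; omega
      rw [h2]
      ring
    rw [h1, sub_mul, Finset.sum_mul]
    simp only [mul_sub, Finset.mul_sum, Finset.sum_sub_distrib]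
    ring
  simp only [key]
  refine IsBigO.add ?_ ?_
  · have := (hf N).mul hg.bdd
    simpa using this
  · refine IsBigO.fun_sum (fun k hk => ?_)
    have hk' : k < N := Finset.mem_range.1 hk
    have h1 := (hg (N - k))
    have h2 : (fun n : ℕ => a k * ((n : ℝ)⁻¹) ^ k) =O[atTop] (fun n : ℕ => ((n : ℝ)⁻¹) ^ k) :=
      (isBigO_refl (fun n : ℕ => ((n : ℝ)⁻¹) ^ k) atTop).const_mul_left _
    refine (h2.mul h1).congr_right (fun n => ?_)
    rw [← pow_add]
    congr 1
    omega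

private theorem asc_cc (k m : ℕ) : (ascPochhammer ℝ m).eval ((k : ℝ) + 1 / 2) =
    m.factorial * ((cc k m : ℚ) : ℝ) := by
  induction m with
  | zero => simp [cc]
  | succ m ih =>
    rw [ascPochhammer_succ_eval, ih]
    have h1 : cc k (m + 1) = cc k m * (((k : ℚ) + 1 / 2 + m) / (m + 1)) := by
      rw [cc, cc, Finset.prod_range_succ]
    have h2 : ((m : ℝ) + 1) ≠ 0 := by positivity
    rw [h1, Nat.factorial_succ]
    push_cast
    field_simp

private theorem choose_cc (k m : ℕ) : Ring.choose ((k : ℝ) + 1 / 2 + m - 1) m = ((cc k m : ℚ) : ℝ) := by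
  have h1 := Ring.factorial_nsmul_multichoose_eq_ascPochhammer ((k : ℝ) + 1 / 2) m
  rw [Polynomial.ascPochhammer_smeval_eq_eval, asc_cc, nsmul_eq_mul] at h1
  rw [← Ring.multichoose_eq]
  exact mul_left_cancel₀ (by exact_mod_cast Nat.factorial_ne_zero m) h1

private theorem tendsto_jx (j : ℕ) : Tendsto (fun n : ℕ => (j : ℝ) * (n : ℝ)⁻¹) atTop (nhds 0) := by
  have h1 : Tendsto (fun n : ℕ => (n : ℝ)⁻¹) atTop (nhds 0) := tendsto_inv_atTop_nhds_zero_nat
  simpa using h1.const_mul (j : ℝ)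

private theorem jx_pow (j N : ℕ) : (fun n : ℕ => ‖(j : ℝ) * (n : ℝ)⁻¹‖ ^ N) =O[atTop]
    (fun n : ℕ => ((n : ℝ)⁻¹) ^ N) := by
  refine IsBigO.of_bound ((j : ℝ) ^ N) (Filter.Eventually.of_forall fun n => ?_)
  rw [norm_pow, norm_norm, norm_mul, mul_pow, norm_pow, Real.norm_natCast]

private theorem PE_f (j k : ℕ) : PE (fun n => 1 / (1 - (j : ℝ) * (n : ℝ)⁻¹) ^ ((k : ℝ) + 1 / 2))
    (fun m => ((cc k m : ℚ) : ℝ) * (j : ℝ) ^ m) := by
  intro N
  have h1 := ((Real.one_div_one_sub_rpow_hasFPowerSeriesOnBall_zero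
    ((k : ℝ) + 1 / 2)).hasFPowerSeriesAt).isBigO_sub_partialSum_pow N
  have h2 := (h1.comp_tendsto (tendsto_jx j)).trans (jx_pow j N)
  refine h2.congr_left (fun n => ?_)
  simp only [Function.comp_apply, zero_add, FormalMultilinearSeries.partialSum,
    FormalMultilinearSeries.ofScalars_apply_eq, smul_eq_mul]
  congr 1
  refine Finset.sum_congr rfl (fun i _ => ?_)
  rw [choose_cc, mul_pow]
  ring

private theorem PE_log (j : ℕ) : PE (fun n => Real.log (1 - (j : ℝ) * (n : ℝ)⁻¹))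
    (fun m => (if m = 0 then 0 else - 1 / (m : ℝ)) * (j : ℝ) ^ m) := by
  intro N
  cases N with
  | zero =>
    have h1 : Tendsto (fun n : ℕ => Real.log (1 - (j : ℝ) * (n : ℝ)⁻¹)) atTop
        (nhds (Real.log (1 - 0))) := by
      refine (Real.continuousAt_log (by norm_num)).tendsto.comp ?_
      exact tendsto_const_nhds.sub (tendsto_jx j)
    simpa using h1.isBigO_one ℝ
  | succ M =>
    refine IsBigO.of_bound (2 * (j : ℝ) ^ (M + 1)) ?_
    have h0 : ∀ᶠ n : ℕ in atTop, (j : ℝ) * (n : ℝ)⁻¹ < 1 / 2 :=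
      (tendsto_jx j).eventually (gt_mem_nhds (by norm_num))
    filter_upwards [h0] with n hn
    set x : ℝ := (n : ℝ)⁻¹ with hx
    have hx0 : 0 ≤ x := by positivity
    have hy0 : 0 ≤ (j : ℝ) * x := by positivity
    have h1 := Real.abs_log_sub_add_sum_range_le (x := (j : ℝ) * x)
      (by rw [abs_of_nonneg hy0]; linarith) M
    have h2 : ∑ i ∈ Finset.range (M + 1), (if i = 0 then (0 : ℝ) else - 1 / (i : ℝ)) * (j : ℝ) ^ i *
        x ^ i = - ∑ i ∈ Finset.range M, ((j : ℝ) * x) ^ (i + 1) / (i + 1) := by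
      rw [Finset.sum_range_succ', ← Finset.sum_neg_distrib]
      simp only [if_true, zero_mul, add_zero]
      refine Finset.sum_congr rfl (fun i _ => ?_)
      rw [if_neg (Nat.succ_ne_zero i), mul_pow]
      push_cast
      ring
    rw [h2, Real.norm_eq_abs, sub_neg_eq_add, add_comm, Real.norm_eq_abs, abs_of_nonneg (pow_nonneg hx0 _)]
    refine h1.trans ?_
    rw [abs_of_nonneg hy0, div_le_iff₀ (by linarith), mul_pow]
    have h3 : 0 ≤ (j : ℝ) ^ (M + 1) * x ^ (M + 1) := by positivity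
    nlinarith

private theorem tri (N : ℕ) (G : ℕ → ℕ → ℝ) (x : ℝ) :
    ∑ k ∈ Finset.range N, x ^ k * ∑ m ∈ Finset.range (N - k), G k m * x ^ m =
      ∑ i ∈ Finset.range N, (∑ k ∈ Finset.range (i + 1), G k (i - k)) * x ^ i := by
  have h := Finset.sum_range_diag_flip N (fun k m => x ^ k * (G k m * x ^ m))
  simp only [Finset.mul_sum]
  rw [← h]
  refine Finset.sum_congr rfl (fun i _ => ?_)
  rw [Finset.sum_mul]
  refine Finset.sum_congr rfl (fun k hk => ?_)
  have hk' : k ≤ i := Nat.lt_succ_iff.1 (Finset.mem_range.1 hk)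
  have h2 : x ^ i = x ^ k * x ^ (i - k) := by rw [← pow_add]; congr 1; omega
  rw [h2]
  ring

/-- coefficients of the logarithm -/
private noncomputable def el (j m : ℕ) : ℝ := (if m = 0 then 0 else - 1 / (m : ℝ)) * (j : ℝ) ^ m

/-- coefficients of the product -/
private noncomputable def EE (j k m : ℕ) : ℝ :=
  ∑ q ∈ Finset.range (m + 1), (((cc k q : ℚ) : ℝ) * (j : ℝ) ^ q) * el j (m - q)

private theorem EE_zero (j k : ℕ) : EE j k 0 = 0 := by
  simp [EE, el]

/-- the binomial factor -/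
private noncomputable def ff (j k n : ℕ) : ℝ :=
  1 / (1 - (j : ℝ) * (n : ℝ)⁻¹) ^ ((k : ℝ) + 1 / 2)

/-- the logarithm -/
private noncomputable def LL (j n : ℕ) : ℝ := Real.log (1 - (j : ℝ) * (n : ℝ)⁻¹)

private theorem basic_facts (j n : ℕ) (hn : j < n) :
    √(n : ℝ) = ff j 0 n * √((n - j : ℕ) : ℝ) ∧
    (∀ k : ℕ, ff j 0 n / ((n - j : ℕ) : ℝ) ^ k = ((n : ℝ)⁻¹) ^ k * ff j k n) ∧
    Real.log ((n - j : ℕ) : ℝ) = Real.log n + LL j n := by
  have hn0 : (0 : ℝ) < n := by
    have : 0 < n := by omega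
    exact_mod_cast this
  have hcast : ((n - j : ℕ) : ℝ) = (n : ℝ) - j := by
    rw [Nat.cast_sub hn.le]
  have hjn : (j : ℝ) < n := by exact_mod_cast hn
  set y : ℝ := 1 - (j : ℝ) * (n : ℝ)⁻¹ with hy
  have hy1 : (n : ℝ) * y = (n : ℝ) - j := by
    rw [hy]
    field_simp
  have hy0 : 0 < y := by
    have h1 : 0 < (n : ℝ) * y := by rw [hy1]; linarith
    exact (mul_pos_iff_of_pos_left hn0).1 h1
  have hf : ∀ k : ℕ, ff j k n = 1 / (y ^ k * √y) := by
    intro k
    rw [ff, Real.rpow_add hy0, Real.rpow_natCast, Real.sqrt_eq_rpow]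
  have hsy : 0 < √y := Real.sqrt_pos.2 hy0
  refine ⟨?_, ?_, ?_⟩
  · rw [hf, hcast, ← hy1, Real.sqrt_mul hn0.le, pow_zero, one_mul]
    field_simp
  · intro k
    rw [hf, hf, hcast, ← hy1, mul_pow, pow_zero, one_mul, inv_pow]
    field_simp
  · rw [hcast, ← hy1, Real.log_mul hn0.ne' hy0.ne']
    rfl

private theorem log_bdd (j N : ℕ) :
    (fun n : ℕ => Real.log ((n - j : ℕ) : ℝ) / ((n - j : ℕ) : ℝ) ^ N) =O[atTop]
      (fun n : ℕ => Real.log n / (n : ℝ) ^ N) := by
  refine IsBigO.of_bound ((2 : ℝ) ^ N) ?_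
  filter_upwards [eventually_ge_atTop (2 * j + 2)] with n hn
  have hcast : ((n - j : ℕ) : ℝ) = (n : ℝ) - j := by
    rw [Nat.cast_sub (by omega)]
  have hn' : (2 * (j : ℝ) + 2) ≤ n := by exact_mod_cast hn
  have hj : (0 : ℝ) ≤ j := by positivity
  have h1 : (1 : ℝ) ≤ (n : ℝ) - j := by linarith
  have h2 : (n : ℝ) / 2 ≤ (n : ℝ) - j := by linarith
  have hlog1 : 0 ≤ Real.log ((n : ℝ) - j) := Real.log_nonneg h1
  have hlog2 : Real.log ((n : ℝ) - j) ≤ Real.log n := Real.log_le_log (by linarith) (by linarith)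
  have hp0 : 0 < (n : ℝ) ^ N := by
    have : (0 : ℝ) < n := by linarith
    positivity
  have hp1 : ((n : ℝ) / 2) ^ N ≤ ((n : ℝ) - j) ^ N :=
    pow_le_pow_left₀ (by linarith) h2 N
  have hp2 : 0 < ((n : ℝ) - j) ^ N := by positivity
  have hp3 : 0 < ((n : ℝ) / 2) ^ N := by
    have : (0 : ℝ) < n := by linarith
    positivity
  rw [hcast, Real.norm_of_nonneg (div_nonneg hlog1 hp2.le),
    Real.norm_of_nonneg (div_nonneg (hlog1.trans hlog2) hp0.le)]
  calc Real.log ((n : ℝ) - j) / ((n : ℝ) - j) ^ N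
      ≤ Real.log n / ((n : ℝ) / 2) ^ N := by
        apply div_le_div₀ (hlog1.trans hlog2) hlog2 hp3 hp1
    _ = 2 ^ N * (Real.log n / (n : ℝ) ^ N) := by
        rw [div_pow]
        field_simp

private theorem one_log : (fun _ : ℕ => (1 : ℝ)) =O[atTop] (fun n : ℕ => Real.log n) := by
  refine IsBigO.of_bound 1 ?_
  filter_upwards [eventually_ge_atTop 3] with n hn
  have hn' : (3 : ℝ) ≤ n := by exact_mod_cast hn
  have h1 : 1 ≤ Real.log n := by
    rw [Real.le_log_iff_exp_le (by linarith)]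
    exact Real.exp_one_lt_three.le.trans hn'
  rw [norm_one, Real.norm_of_nonneg (by linarith), one_mul]
  exact h1

private theorem u_log (a b c : ℝ) (e : ℕ → ℝ) (he : ∀ n, |e n| ≤ 1) :
    (fun n : ℕ => a * Real.log n + b + e n * c) =O[atTop] (fun n : ℕ => Real.log n) := by
  have h1 : (fun n : ℕ => a * Real.log n) =O[atTop] (fun n : ℕ => Real.log n) :=
    (isBigO_refl (fun n : ℕ => Real.log n) atTop).const_mul_left a
  have h2 : (fun _ : ℕ => b) =O[atTop] (fun n : ℕ => Real.log n) :=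
    (isBigO_const_const b one_ne_zero atTop).trans one_log
  have h3 : (fun n : ℕ => e n * c) =O[atTop] (fun n : ℕ => Real.log n) := by
    refine IsBigO.trans ?_ one_log
    refine IsBigO.of_bound |c| (Filter.Eventually.of_forall fun n => ?_)
    rw [norm_one, mul_one, Real.norm_eq_abs, abs_mul]
    exact mul_le_of_le_one_left (abs_nonneg c) (he n)
  exact (h1.add h2).add h3

private theorem shift_gen {s A B C : ℕ → ℝ} (h : IsAE s A B C) (j : ℕ) :
    IsAE (fun n => s (n - j)) (Sh j A)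
      (fun i => Sh j B i + ∑ k ∈ Finset.range (i + 1), A k * EE j k (i - k))
      (fun i => (-1) ^ j * Sh j C i) := by
  intro N
  have hmain : ∀ᶠ n : ℕ in atTop,
      ff j 0 n * (√((n - j : ℕ) : ℝ) * s (n - j) -
        ∑ i ∈ Finset.range N, (A i * Real.log ((n - j : ℕ) : ℝ) + B i + (-1) ^ (n - j) * C i) /
          ((n - j : ℕ) : ℝ) ^ i) +
      (∑ k ∈ Finset.range N, (A k * Real.log n + B k + ((-1) ^ n * (-1) ^ j) * C k) *
        (((n : ℝ)⁻¹) ^ k * (ff j k n - ∑ m ∈ Finset.range (N - k),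
          (((cc k m : ℚ) : ℝ) * (j : ℝ) ^ m) * ((n : ℝ)⁻¹) ^ m)) +
      ∑ k ∈ Finset.range N, A k * (((n : ℝ)⁻¹) ^ k * (ff j k n * LL j n -
        ∑ m ∈ Finset.range (N - k), EE j k m * ((n : ℝ)⁻¹) ^ m))) =
      √(n : ℝ) * s (n - j) - ∑ i ∈ Finset.range N, (Sh j A i * Real.log n +
        (Sh j B i + ∑ k ∈ Finset.range (i + 1), A k * EE j k (i - k)) +
          (-1) ^ n * ((-1) ^ j * Sh j C i)) / (n : ℝ) ^ i := by
    filter_upwards [eventually_gt_atTop j] with n hn
    obtain ⟨f1, f2, f3⟩ := basic_facts j n hn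
    have f4 : (-1 : ℝ) ^ (n - j) = (-1) ^ n * (-1) ^ j := by
      have h1 : (-1 : ℝ) ^ n = (-1) ^ (n - j) * (-1) ^ j := by
        rw [← pow_add]; congr 1; omega
      rw [h1, mul_assoc, ← mul_pow]
      norm_num
    set x : ℝ := (n : ℝ)⁻¹ with hx
    set e : ℝ := (-1) ^ n * (-1) ^ j with he
    -- the sum over the shifted powers
    have g1 : ff j 0 n * ∑ i ∈ Finset.range N,
        (A i * Real.log ((n - j : ℕ) : ℝ) + B i + (-1) ^ (n - j) * C i) /
          ((n - j : ℕ) : ℝ) ^ i =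
        ∑ k ∈ Finset.range N, (A k * Real.log n + B k + e * C k) * (x ^ k * ff j k n) +
          ∑ k ∈ Finset.range N, A k * (x ^ k * (ff j k n * LL j n)) := by
      rw [Finset.mul_sum, ← Finset.sum_add_distrib]
      refine Finset.sum_congr rfl (fun k _ => ?_)
      have := f2 k
      rw [f3, f4]
      calc ff j 0 n * ((A k * (Real.log n + LL j n) + B k + e * C k) / ((n - j : ℕ) : ℝ) ^ k)
          = (A k * (Real.log n + LL j n) + B k + e * C k) *
              (ff j 0 n / ((n - j : ℕ) : ℝ) ^ k) := by ring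
        _ = _ := by rw [this]; ring
    have g2 : ∑ k ∈ Finset.range N, (A k * Real.log n + B k + e * C k) * (x ^ k *
        ∑ m ∈ Finset.range (N - k), (((cc k m : ℚ) : ℝ) * (j : ℝ) ^ m) * x ^ m) =
        ∑ i ∈ Finset.range N, (Sh j A i * Real.log n + Sh j B i + e * Sh j C i) * x ^ i := by
      have t := tri N (fun k m => (A k * Real.log n + B k + e * C k) *
        (((cc k m : ℚ) : ℝ) * (j : ℝ) ^ m)) x
      have t1 : ∑ k ∈ Finset.range N, (A k * Real.log n + B k + e * C k) * (x ^ k *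
          ∑ m ∈ Finset.range (N - k), (((cc k m : ℚ) : ℝ) * (j : ℝ) ^ m) * x ^ m) =
          ∑ k ∈ Finset.range N, x ^ k * ∑ m ∈ Finset.range (N - k),
            ((A k * Real.log n + B k + e * C k) * (((cc k m : ℚ) : ℝ) * (j : ℝ) ^ m)) * x ^ m := by
        refine Finset.sum_congr rfl (fun k _ => ?_)
        rw [mul_left_comm, Finset.mul_sum]
        congr 1
        refine Finset.sum_congr rfl (fun m _ => ?_)
        ring
      rw [t1, t]
      refine Finset.sum_congr rfl (fun i _ => ?_)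
      congr 1
      simp only [Sh, Finset.sum_mul, Finset.mul_sum, ← Finset.sum_add_distrib]
      refine Finset.sum_congr rfl (fun k _ => ?_)
      ring
    have g3 : ∑ k ∈ Finset.range N, A k * (x ^ k *
        ∑ m ∈ Finset.range (N - k), EE j k m * x ^ m) =
        ∑ i ∈ Finset.range N, (∑ k ∈ Finset.range (i + 1), A k * EE j k (i - k)) * x ^ i := by
      have t := tri N (fun k m => A k * EE j k m) x
      rw [← t]
      refine Finset.sum_congr rfl (fun k _ => ?_)
      rw [mul_left_comm, Finset.mul_sum]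
      congr 1
      refine Finset.sum_congr rfl (fun m _ => ?_)
      ring
    have g4 : ∑ i ∈ Finset.range N, (Sh j A i * Real.log n +
        (Sh j B i + ∑ k ∈ Finset.range (i + 1), A k * EE j k (i - k)) +
          (-1) ^ n * ((-1) ^ j * Sh j C i)) / (n : ℝ) ^ i =
        ∑ i ∈ Finset.range N, (Sh j A i * Real.log n + Sh j B i + e * Sh j C i) * x ^ i +
        ∑ i ∈ Finset.range N, (∑ k ∈ Finset.range (i + 1), A k * EE j k (i - k)) * x ^ i := by
      rw [← Finset.sum_add_distrib]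
      refine Finset.sum_congr rfl (fun i _ => ?_)
      rw [hx, inv_pow, he, div_eq_mul_inv]
      ring
    rw [g4, ← g2, ← g3, mul_sub, g1, ← mul_assoc, ← f1]
    simp only [mul_sub, Finset.sum_sub_distrib]
    ring
  refine IsBigO.congr' ?_ hmain (EventuallyEq.refl _ _)
  have hx : ∀ n : ℕ, Real.log n / (n : ℝ) ^ N = Real.log n * ((n : ℝ)⁻¹) ^ N := by
    intro n
    rw [inv_pow, div_eq_mul_inv]
  refine IsBigO.add ?_ (IsBigO.add ?_ ?_)
  · have h1 := (h N).comp_tendsto (tendsto_sub_atTop_nat j)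
    have h2 := h1.trans (log_bdd j N)
    have h3 := (PE_f j 0).bdd.mul h2
    refine (h3.congr_left fun n => ?_).congr_right fun n => ?_
    · simp only [Function.comp_apply, ff]
    · rw [one_mul]
  · refine IsBigO.fun_sum (fun k hk => ?_)
    have hk' : k < N := Finset.mem_range.1 hk
    have h1 := u_log (A k) (B k) (C k) (fun n => (-1) ^ n * (-1) ^ j) (fun n => by
      rw [abs_mul, abs_pow, abs_pow]
      simp)
    have h2 := (isBigO_refl (fun n : ℕ => ((n : ℝ)⁻¹) ^ k) atTop).mul ((PE_f j k) (N - k))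
    refine (h1.mul h2).congr_right (fun n => ?_)
    rw [hx, ← pow_add]
    congr 2
    omega
  · refine IsBigO.fun_sum (fun k hk => ?_)
    have hk' : k < N := Finset.mem_range.1 hk
    have h2 := (isBigO_refl (fun n : ℕ => ((n : ℝ)⁻¹) ^ k) atTop).mul
      (((PE_f j k).mul (PE_log j)) (N - k))
    have h3 := h2.const_mul_left (A k)
    have h4 := one_log.mul (isBigO_refl (fun n : ℕ => ((n : ℝ)⁻¹) ^ N) atTop)
    refine (h3.trans (h4.congr_left (fun n => ?_))).congr_right (fun n => ?_)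
    · rw [one_mul, ← pow_add]
      congr 1
      omega
    · rw [hx]

theorem IsAE.shift {s A B C : ℕ → ℝ} (h : IsAE s A B C) (j : ℕ) :
    ∃ B' : ℕ → ℝ, B' 0 = B 0 ∧
      IsAE (fun n => s (n - j)) (Sh j A) B' (fun i => (-1) ^ j * Sh j C i) := by
  refine ⟨_, ?_, shift_gen h j⟩
  simp [Sh, EE_zero, cc]

theorem IsAE.shift0 {s B C : ℕ → ℝ} (h : IsAE s (fun _ => 0) B C) (j : ℕ) :
    IsAE (fun n => s (n - j)) (fun _ => 0) (Sh j B) (fun i => (-1) ^ j * Sh j C i) := by
  have h1 := shift_gen h j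
  have h2 : Sh j (fun _ => 0) = fun _ => 0 := by
    funext i
    simp [Sh]
  rw [h2] at h1
  simpa using h1

end Pool.Agent.Helper99.TC
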