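import Pool.Agent.Helper99.TC.AEShift

/-!
# TC-42: difference operators and rationality

`lop`: from `shift`, `div` (d times), `smul`, `sum`.

`symb_expand`: `symb J D q e A i` is a linear combination of `A 0, ..., A i` with coefficients `∑_j ∑_{d ≤ i - k} e^j q j d cc k (i - d - k) j^(i-d-k)`.

`rat_log` (double zero): suppose `∑_j q j 0 = 0`, `∑_j j q j 0 = 0`, `∑_j q j 1 = 0`. Then in `symb ... 1 A (i + 2)` the coefficients of `A (i+2)` (`∑ q j 0`) and of `A (i+1)` (`∑_j (q j 0 * cc (i+1) 1 * j + q j 1)`) vanish and the coefficient of `A i` is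
`χ i = ∑_j (q j 0 * cc i 2 * j^2 + q j 1 * cc i 1 * j + q j 2)`; if `symb ... 1 A = 0` and `χ i ≠ 0` for `i ≥ 1` then by strong induction `A i` is a rational multiple of `A 0`.

`rat_diag`: if `symb ... e A i` is `R i` for all `i` with `R i ∈ K` (K the rational multiples of a real number κ) and `∑_j e^j q j 0 ≠ 0` (`e = ±1`) then `A i ∈ K` for all `i`.

`rat_first`: suppose `∑_j q j 0 = 0`; then in `symb ... 1 A (i+1)` the coefficient of `A (i+1)` vanishes and the one of `A i` is `∑_j (q j 0 * cc i 1 * j + q j 1)`; if these are nonzero for all `i`, and `symb ... 1 A (i + 1)` is a rational multiple of κ for all i, then so is `A i`.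
-/

set_option autoImplicit false

open Filter Asymptotics

namespace Pool.Agent.Helper99.TC

theorem AES_congr {s s' A A' B B' C C' : ℕ → ℝ} (h : IsAE s A B C) (hs : s = s') (hA : A = A')
    (hB : B = B') (hC : C = C') : IsAE s' A' B' C' := by
  subst hs; subst hA; subst hB; subst hC
  exact h

theorem AES_dv (d : ℕ) (A : ℕ → ℝ) :
    dv (fun i => if d ≤ i then A (i - d) else 0) =
      fun i => if d + 1 ≤ i then A (i - (d + 1)) else 0 := by
  funext i
  unfold dv
  rcases i with _ | k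
  · simp
  · simp only [Nat.add_sub_cancel, Nat.add_le_add_iff_right, Nat.add_sub_add_right]
    simp

theorem AES_div {s A B C : ℕ → ℝ} (h : IsAE s A B C) (d : ℕ) :
    IsAE (fun n => s n / (n : ℝ) ^ d) (fun i => if d ≤ i then A (i - d) else 0)
      (fun i => if d ≤ i then B (i - d) else 0) (fun i => if d ≤ i then C (i - d) else 0) := by
  induction d with
  | zero =>
    refine AES_congr h ?_ ?_ ?_ ?_
    all_goals funext n; simp
  | succ d ih =>
    refine AES_congr ih.div ?_ (AES_dv d A) (AES_dv d B) (AES_dv d C)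
    funext n
    rw [div_div, pow_succ]

/-- the rational coefficients of the symbol -/
def AES_sc (J D : ℕ) (q : ℕ → ℕ → ℚ) (e : ℚ) (i k : ℕ) : ℚ :=
  ∑ j ∈ Finset.range J, ∑ d ∈ Finset.range D,
    if d + k ≤ i then e ^ j * q j d * cc k (i - d - k) * (j : ℚ) ^ (i - d - k) else 0

theorem AES_expand (J D : ℕ) (q : ℕ → ℕ → ℚ) (e : ℚ) (A : ℕ → ℝ) (i : ℕ) :
    symb J D q (e : ℝ) A i =
      ∑ k ∈ Finset.range (i + 1), ((AES_sc J D q e i k : ℚ) : ℝ) * A k := by
  have h1 : ∀ j d : ℕ, (if d ≤ i then (e : ℝ) ^ j * (q j d : ℝ) * Sh j A (i - d) else 0) =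
      ∑ k ∈ Finset.range (i + 1), (if d + k ≤ i then (e : ℝ) ^ j * (q j d : ℝ) *
        (cc k (i - d - k) : ℝ) * (j : ℝ) ^ (i - d - k) else 0) * A k := by
    intro j d
    by_cases hd : d ≤ i
    · rw [if_pos hd]
      unfold Sh
      rw [Finset.mul_sum]
      have hf : Finset.range (i - d + 1) = (Finset.range (i + 1)).filter (fun k => d + k ≤ i) := by
        ext k
        rw [Finset.mem_filter, Finset.mem_range, Finset.mem_range]
        omega
      rw [hf, Finset.sum_filter]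
      apply Finset.sum_congr rfl
      intro k _
      by_cases hk : d + k ≤ i
      · rw [if_pos hk, if_pos hk]; ring
      · rw [if_neg hk, if_neg hk, zero_mul]
    · rw [if_neg hd]
      symm
      apply Finset.sum_eq_zero
      intro k _
      rw [if_neg (by omega), zero_mul]
  unfold symb
  have h2 : ∀ j ∈ Finset.range J, (∑ d ∈ Finset.range D,
      if d ≤ i then (e : ℝ) ^ j * (q j d : ℝ) * Sh j A (i - d) else 0) =
      ∑ k ∈ Finset.range (i + 1), (∑ d ∈ Finset.range D, (if d + k ≤ i then (e : ℝ) ^ j *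
        (q j d : ℝ) * (cc k (i - d - k) : ℝ) * (j : ℝ) ^ (i - d - k) else 0)) * A k := by
    intro j _
    rw [Finset.sum_congr rfl (fun d _ => h1 j d), Finset.sum_comm]
    apply Finset.sum_congr rfl
    intro k _
    rw [Finset.sum_mul]
  rw [Finset.sum_congr rfl h2, Finset.sum_comm]
  apply Finset.sum_congr rfl
  intro k _
  rw [← Finset.sum_mul]
  congr 1
  unfold AES_sc
  rw [Rat.cast_sum]
  apply Finset.sum_congr rfl
  intro j _
  rw [Rat.cast_sum]
  apply Finset.sum_congr rfl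
  intro d _
  split_ifs
  · push_cast
    ring
  · rw [Rat.cast_zero]

theorem AES_top (J D : ℕ) (q : ℕ → ℕ → ℚ) (e : ℚ) (i r : ℕ) (hr : r + 1 ≤ D) :
    AES_sc J D q e (i + r) i = ∑ j ∈ Finset.range J, ∑ d ∈ Finset.range (r + 1),
      e ^ j * q j d * cc i (r - d) * (j : ℚ) ^ (r - d) := by
  unfold AES_sc
  apply Finset.sum_congr rfl
  intro j _
  have hf : Finset.range (r + 1) = (Finset.range D).filter (fun d => d + i ≤ i + r) := by
    ext d
    rw [Finset.mem_filter, Finset.mem_range, Finset.mem_range]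
    omega
  rw [hf, Finset.sum_filter]
  apply Finset.sum_congr rfl
  intro d _
  by_cases hd : d + i ≤ i + r
  · rw [if_pos hd, if_pos hd]
    have : i + r - d - i = r - d := by omega
    rw [this]
  · rw [if_neg hd, if_neg hd]

theorem AES_cc0 (k : ℕ) : cc k 0 = 1 := by
  unfold cc; simp

theorem AES_top0 (J D : ℕ) (q : ℕ → ℕ → ℚ) (e : ℚ) (i : ℕ) (hD : 1 ≤ D) :
    AES_sc J D q e i i = ∑ j ∈ Finset.range J, e ^ j * q j 0 := by
  have h := AES_top J D q e i 0 hD
  rw [add_zero] at h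
  rw [h]
  apply Finset.sum_congr rfl
  intro j _
  simp [AES_cc0]

theorem AES_top1 (J D : ℕ) (q : ℕ → ℕ → ℚ) (i : ℕ) (hD : 2 ≤ D) :
    AES_sc J D q 1 (i + 1) i =
      ∑ j ∈ Finset.range J, (q j 0 * cc i 1 * j + q j 1) := by
  rw [AES_top J D q 1 i 1 hD]
  apply Finset.sum_congr rfl
  intro j _
  simp [Finset.sum_range_succ, AES_cc0]

theorem AES_top2 (J D : ℕ) (q : ℕ → ℕ → ℚ) (i : ℕ) (hD : 3 ≤ D) :
    AES_sc J D q 1 (i + 2) i =
      ∑ j ∈ Finset.range J, (q j 0 * cc i 2 * (j : ℚ) ^ 2 + q j 1 * cc i 1 * j + q j 2) := by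
  rw [AES_top J D q 1 i 2 hD]
  apply Finset.sum_congr rfl
  intro j _
  simp [Finset.sum_range_succ, AES_cc0]

theorem AES_sum {ι : Type*} (t : Finset ι) (f : ι → ℝ) (κ : ℝ)
    (h : ∀ k ∈ t, ∃ ρ : ℚ, f k = ρ * κ) : ∃ ρ : ℚ, ∑ k ∈ t, f k = ρ * κ := by
  refine Finset.sum_induction f (fun x => ∃ ρ : ℚ, x = ρ * κ) ?_ ?_ h
  · rintro a b ⟨x, rfl⟩ ⟨y, rfl⟩
    exact ⟨x + y, by push_cast; ring⟩
  · exact ⟨0, by simp⟩

theorem AES_solve (κ : ℝ) (A : ℕ → ℝ) (i : ℕ) (c : ℕ → ℚ) (χ : ℚ) (hχ : χ ≠ 0)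
    (ih : ∀ k < i, ∃ ρ : ℚ, A k = ρ * κ)
    (h : ∃ ρ : ℚ, ∑ k ∈ Finset.range i, (c k : ℝ) * A k + (χ : ℝ) * A i = ρ * κ) :
    ∃ ρ : ℚ, A i = ρ * κ := by
  obtain ⟨ρ0, h⟩ := h
  obtain ⟨ρ1, h1⟩ := AES_sum (Finset.range i) (fun k => (c k : ℝ) * A k) κ (by
    intro k hk
    obtain ⟨ρ, hρ⟩ := ih k (Finset.mem_range.1 hk)
    exact ⟨c k * ρ, by push_cast; rw [hρ]; ring⟩)
  rw [h1] at h
  have hχ' : (χ : ℝ) ≠ 0 := by exact_mod_cast hχ
  refine ⟨(ρ0 - ρ1) / χ, ?_⟩
  push_cast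
  rw [div_mul_eq_mul_div, eq_div_iff hχ']
  linarith

theorem IsAE.lop {s A B C : ℕ → ℝ} (h : IsAE s A B C) (J D : ℕ) (hD : 1 ≤ D)
    (q : ℕ → ℕ → ℚ) : ∃ B' : ℕ → ℝ, B' 0 = (∑ j ∈ Finset.range J, (q j 0 : ℝ)) * B 0 ∧ IsAE (Lop J D q s) (symb J D q 1 A) B' (symb J D q (-1) C) := by
  choose B' hB' using fun j : ℕ => h.shift j
  have hj : ∀ j ∈ Finset.range J, IsAE
      (fun n => ∑ d ∈ Finset.range D, (q j d : ℝ) * (s (n - j) / (n : ℝ) ^ d))
      (fun i => ∑ d ∈ Finset.range D, (q j d : ℝ) * (if d ≤ i then Sh j A (i - d) else 0))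
      (fun i => ∑ d ∈ Finset.range D, (q j d : ℝ) * (if d ≤ i then B' j (i - d) else 0))
      (fun i => ∑ d ∈ Finset.range D, (q j d : ℝ) *
        (if d ≤ i then (-1) ^ j * Sh j C (i - d) else 0)) := by
    intro j _
    exact IsAE.sum (Finset.range D) (fun d _ => (AES_div (hB' j).2 d).smul (q j d : ℝ))
  have hs := IsAE.sum (Finset.range J) hj
  refine ⟨fun i => ∑ j ∈ Finset.range J, ∑ d ∈ Finset.range D, (q j d : ℝ) *
    (if d ≤ i then B' j (i - d) else 0), ?_, ?_⟩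
  · simp only [Nat.le_zero, Nat.zero_sub]
    rw [Finset.sum_mul]
    apply Finset.sum_congr rfl
    intro j _
    rw [Finset.sum_eq_single 0]
    · rw [if_pos rfl, (hB' j).1]
    · intro d _ hd
      rw [if_neg hd, mul_zero]
    · intro h0
      exact absurd (Finset.mem_range.2 hD) h0
  · refine AES_congr hs ?_ ?_ rfl ?_
    · funext n
      unfold Lop
      apply Finset.sum_congr rfl
      intro j _
      rw [Finset.sum_mul]
      apply Finset.sum_congr rfl
      intro d _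
      ring
    · funext i
      unfold symb
      apply Finset.sum_congr rfl
      intro j _
      apply Finset.sum_congr rfl
      intro d _
      split_ifs
      · rw [one_pow, one_mul]
      · rw [mul_zero]
    · funext i
      unfold symb
      apply Finset.sum_congr rfl
      intro j _
      apply Finset.sum_congr rfl
      intro d _
      split_ifs
      · ring
      · rw [mul_zero]

theorem IsAE.lop0 {s B C : ℕ → ℝ} (h : IsAE s (fun _ => 0) B C) (J D : ℕ) (q : ℕ → ℕ → ℚ) :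
    IsAE (Lop J D q s) (fun _ => 0) (symb J D q 1 B) (symb J D q (-1) C) := by
  have hj : ∀ j ∈ Finset.range J, IsAE
      (fun n => ∑ d ∈ Finset.range D, (q j d : ℝ) * (s (n - j) / (n : ℝ) ^ d))
      (fun i => ∑ d ∈ Finset.range D, (q j d : ℝ) * (if d ≤ i then (0 : ℝ) else 0))
      (fun i => ∑ d ∈ Finset.range D, (q j d : ℝ) * (if d ≤ i then Sh j B (i - d) else 0))
      (fun i => ∑ d ∈ Finset.range D, (q j d : ℝ) *
        (if d ≤ i then (-1) ^ j * Sh j C (i - d) else 0)) := by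
    intro j _
    exact IsAE.sum (Finset.range D) (fun d _ => (AES_div (h.shift0 j) d).smul (q j d : ℝ))
  have hs := IsAE.sum (Finset.range J) hj
  refine AES_congr hs ?_ ?_ ?_ ?_
  · funext n
    unfold Lop
    apply Finset.sum_congr rfl
    intro j _
    rw [Finset.sum_mul]
    apply Finset.sum_congr rfl
    intro d _
    ring
  · funext i
    simp
  · funext i
    unfold symb
    apply Finset.sum_congr rfl
    intro j _
    apply Finset.sum_congr rfl
    intro d _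
    split_ifs
    · rw [one_pow, one_mul]
    · rw [mul_zero]
  · funext i
    unfold symb
    apply Finset.sum_congr rfl
    intro j _
    apply Finset.sum_congr rfl
    intro d _
    split_ifs
    · ring
    · rw [mul_zero]

theorem rat_log (J D : ℕ) (hD : 3 ≤ D) (q : ℕ → ℕ → ℚ)
    (h0 : ∑ j ∈ Finset.range J, q j 0 = 0) (h1 : ∑ j ∈ Finset.range J, (j : ℚ) * q j 0 = 0)
    (h2 : ∑ j ∈ Finset.range J, q j 1 = 0)
    (hχ : ∀ i : ℕ, 1 ≤ i → ∑ j ∈ Finset.range J,
      (q j 0 * cc i 2 * (j : ℚ) ^ 2 + q j 1 * cc i 1 * j + q j 2) ≠ 0)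
    (A : ℕ → ℝ) (hA : ∀ i, symb J D q 1 A i = 0) (i : ℕ) : ∃ ρ : ℚ, A i = ρ * A 0 := by
  induction i using Nat.strong_induction_on with
  | _ i ih =>
  rcases Nat.eq_zero_or_pos i with hi | hi
  · subst hi
    exact ⟨1, by simp⟩
  · have he := AES_expand J D q 1 A (i + 2)
    rw [Rat.cast_one, hA, Finset.sum_range_succ, Finset.sum_range_succ, Finset.sum_range_succ] at he
    have c2 : AES_sc J D q 1 (i + 2) (i + 2) = 0 := by
      rw [AES_top0 J D q 1 (i + 2) (by omega)]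
      simpa using h0
    have c1 : AES_sc J D q 1 (i + 2) (i + 1) = 0 := by
      rw [AES_top1 J D q (i + 1) (by omega), Finset.sum_add_distrib, h2, add_zero]
      have : ∀ j ∈ Finset.range J, q j 0 * cc (i + 1) 1 * (j : ℚ) =
          cc (i + 1) 1 * ((j : ℚ) * q j 0) := by
        intro j _; ring
      rw [Finset.sum_congr rfl this, ← Finset.mul_sum, h1, mul_zero]
    rw [c2, c1, AES_top2 J D q i hD] at he
    refine AES_solve (A 0) A i (fun k => AES_sc J D q 1 (i + 2) k) _ (hχ i hi) ih ⟨0, ?_⟩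
    rw [Rat.cast_zero] at he
    rw [Rat.cast_zero]
    linarith

theorem rat_diag (J D : ℕ) (hD : 1 ≤ D) (q : ℕ → ℕ → ℚ) (e : ℚ)
    (he : ∑ j ∈ Finset.range J, e ^ j * q j 0 ≠ 0) (κ : ℝ) (A : ℕ → ℝ)
    (hA : ∀ i, ∃ ρ : ℚ, symb J D q e A i = ρ * κ) (i : ℕ) : ∃ ρ : ℚ, A i = ρ * κ := by
  induction i using Nat.strong_induction_on with
  | _ i ih =>
  have hx := AES_expand J D q e A i
  rw [Finset.sum_range_succ, AES_top0 J D q e i hD] at hx
  refine AES_solve κ A i (fun k => AES_sc J D q e i k) _ he ih ?_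
  obtain ⟨ρ, hρ⟩ := hA i
  exact ⟨ρ, by rw [← hρ, hx]⟩

theorem rat_first (J D : ℕ) (hD : 2 ≤ D) (q : ℕ → ℕ → ℚ)
    (h0 : ∑ j ∈ Finset.range J, q j 0 = 0)
    (hχ : ∀ i : ℕ, ∑ j ∈ Finset.range J, (q j 0 * cc i 1 * j + q j 1) ≠ 0) (κ : ℝ) (A : ℕ → ℝ)
    (hA : ∀ i, ∃ ρ : ℚ, symb J D q 1 A (i + 1) = ρ * κ) (i : ℕ) : ∃ ρ : ℚ, A i = ρ * κ := by
  induction i using Nat.strong_induction_on with
  | _ i ih =>
  have hx := AES_expand J D q 1 A (i + 1)
  have c1 : AES_sc J D q 1 (i + 1) (i + 1) = 0 := by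
    rw [AES_top0 J D q 1 (i + 1) (by omega)]
    simpa using h0
  rw [Rat.cast_one, Finset.sum_range_succ, Finset.sum_range_succ, c1, AES_top1 J D q i hD,
    Rat.cast_zero, zero_mul, add_zero] at hx
  refine AES_solve κ A i (fun k => AES_sc J D q 1 (i + 1) k) _ (hχ i) ih ?_
  obtain ⟨ρ, hρ⟩ := hA i
  exact ⟨ρ, by rw [← hρ, hx]⟩

/-- the recursively defined formal solution -/
def AES_E (J D : ℕ) (q : ℕ → ℕ → ℚ) : ℕ → ℚ
  | 0 => 0
  | 1 => 1
  | (n + 2) => -(∑ k : Fin (n + 2), AES_sc J D q 1 (n + 3) k.1 * AES_E J D q k.1) /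
      AES_sc J D q 1 (n + 3) (n + 2)
termination_by n => n
decreasing_by exact k.isLt

/-- formal solutions with leading exponent `n^(-3/2)` -/
theorem formal_sol (J D : ℕ) (hD : 2 ≤ D) (q : ℕ → ℕ → ℚ)
    (h0 : ∑ j ∈ Finset.range J, q j 0 = 0)
    (hχ1 : ∑ j ∈ Finset.range J, (q j 0 * cc 1 1 * j + q j 1) = 0)
    (hχ : ∀ i : ℕ, 2 ≤ i → ∑ j ∈ Finset.range J, (q j 0 * cc i 1 * j + q j 1) ≠ 0) :
    ∃ E : ℕ → ℚ, E 0 = 0 ∧ E 1 = 1 ∧ ∀ i, symb J D q 1 (fun k => (E k : ℝ)) i = 0 := by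
  refine ⟨AES_E J D q, by rw [AES_E], by rw [AES_E], ?_⟩
  have c0 : ∀ i : ℕ, AES_sc J D q 1 i i = 0 := by
    intro i
    rw [AES_top0 J D q 1 i (by omega)]
    simpa using h0
  intro i
  have hx := AES_expand J D q 1 (fun k => (AES_E J D q k : ℝ)) i
  rw [Rat.cast_one] at hx
  rw [hx]
  have hq : ∑ k ∈ Finset.range (i + 1), AES_sc J D q 1 i k * AES_E J D q k = 0 := by
    rw [Finset.sum_range_succ, c0, zero_mul, add_zero]
    rcases i with _ | _ | _ | n
    · simp
    · rw [Finset.sum_range_one, AES_E, mul_zero]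
    · rw [Finset.sum_range_succ, Finset.sum_range_one, AES_E, mul_zero, zero_add,
        AES_top1 J D q 1 hD, hχ1, zero_mul]
    · rw [Finset.sum_range_succ]
      have hne : AES_sc J D q 1 (n + 1 + 1 + 1) (n + 1 + 1) ≠ 0 := by
        rw [AES_top1 J D q (n + 1 + 1) hD]
        exact hχ (n + 1 + 1) (by omega)
      have hE : AES_E J D q (n + 1 + 1) =
          -(∑ k : Fin (n + 2), AES_sc J D q 1 (n + 3) k.1 * AES_E J D q k.1) /
            AES_sc J D q 1 (n + 3) (n + 2) := by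
        rw [AES_E]
      have hF : ∑ k : Fin (n + 2), AES_sc J D q 1 (n + 3) k.1 * AES_E J D q k.1 =
          ∑ k ∈ Finset.range (n + 2), AES_sc J D q 1 (n + 3) k * AES_E J D q k :=
        (Finset.sum_range (fun k => AES_sc J D q 1 (n + 3) k * AES_E J D q k)).symm
      rw [hE, hF, mul_div_cancel₀ _ hne, add_neg_cancel]
  exact_mod_cast hq

end Pool.Agent.Helper99.TC
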