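import Mathlib

/-!
# TC-48: an Abelian theorem and a comparison series

`abel_ratio`: if `u n ≥ 0`, `∑ u n y^n` converges for `0 ≤ y < 1` and tends to infinity as `y → 1-`, and `s n = κ u n + o(u n)`, then `(∑ s n y^n)/(∑ u n y^n) → κ`. Standard: given ε, `|s n - κ u n| ≤ ε u n` for `n ≥ n0`, the first `n0` terms are bounded.

`uc n`: the coefficients of `U(y) = (1-y)^(-1/2) log(1/(1-y))`: `uc n = ∑_{k=1}^{n} (1/k) binom(2(n-k), n-k)/4^(n-k)` (Cauchy product of `(1-y)^(-1/2) = ∑ binom(2n,n)(y/4)^n` and `∑ y^k/k`).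

`uc_asymp`: `uc n √n / log n → 1/√π`. Proof: with `C m = centralBinom m/4^m`, `C m √m → 1/√π`, and `C m ≤ 1/√(m+1)`-type bounds (`C m ≤ K/√(m+1)`). Split the sum: `k ≤ δ n`: `C (n-k) √n` is within `1/√π (1 ± cδ) + o(1)`, `∑_{k ≤ δn} 1/k = log n + O(1)`; `k > δ n`: `∑_{k>δn} (1/k) C(n-k) ≤ (1/(δ n)) ∑_{m ≤ n} C m ≤ (K'/(δ n)) √n = O(1/√n)`, negligible against `log n/√n`.

`uc_deriv`: the series with coefficients `n uc n` is `y U'(y) = y ((1/2)(1-y)^(-3/2) log(1/(1-y)) + (1-y)^(-3/2))`.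
-/

set_option autoImplicit false

open Filter Asymptotics

namespace Pool.Agent.Helper99.TC

theorem abel_ratio (s u : ℕ → ℝ) (κ : ℝ) (hu : ∀ n, 0 ≤ u n)
    (hs : ∀ y : ℝ, 0 ≤ y → y < 1 → Summable (fun n => u n * y ^ n))
    (hdiv : Tendsto (fun y : ℝ => ∑' n, u n * y ^ n) (nhdsWithin 1 (Set.Iio 1)) atTop)
    (h : (fun n => s n - κ * u n) =o[atTop] u) :
    Tendsto (fun y : ℝ => (∑' n, s n * y ^ n) / ∑' n, u n * y ^ n) (nhdsWithin 1 (Set.Iio 1))
      (nhds κ) := by
  -- notation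
  have hy01 : ∀ᶠ y : ℝ in nhdsWithin 1 (Set.Iio 1), 0 < y ∧ y < 1 := by
    have h1 : ∀ᶠ y : ℝ in nhdsWithin 1 (Set.Iio 1), y ∈ Set.Iio (1 : ℝ) :=
      eventually_mem_nhdsWithin
    have h2 : ∀ᶠ y : ℝ in nhdsWithin 1 (Set.Iio 1), y ∈ Set.Ioi (0 : ℝ) :=
      nhdsWithin_le_nhds (Ioi_mem_nhds (by norm_num))
    filter_upwards [h1, h2] with y hy1 hy2
    exact ⟨hy2, hy1⟩
  have hrs : ∀ y : ℝ, 0 ≤ y → y < 1 → Summable (fun n => (s n - κ * u n) * y ^ n) := by
    intro y hy0 hy1
    refine summable_of_isBigO_nat (hs y hy0 hy1) ?_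
    exact h.isBigO.mul (isBigO_refl _ _)
  -- the remainder is small
  have hsmall : (fun y : ℝ => ∑' n, (s n - κ * u n) * y ^ n)
      =o[nhdsWithin 1 (Set.Iio 1)] (fun y : ℝ => ∑' n, u n * y ^ n) := by
    rw [isLittleO_iff]
    intro c hc
    have hc2 : 0 < c / 2 := by positivity
    have h1 := (isLittleO_iff.mp h) hc2
    rw [eventually_atTop] at h1
    obtain ⟨N, hN⟩ := h1
    set K : ℝ := ∑ n ∈ Finset.range N, |s n - κ * u n| with hK
    filter_upwards [hy01, hdiv.eventually_ge_atTop (2 * K / c)] with y hy hyU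
    obtain ⟨hy0, hy1⟩ := hy
    have hUs := hs y hy0.le hy1
    have hU0 : 0 ≤ ∑' n, u n * y ^ n := tsum_nonneg fun n => mul_nonneg (hu n) (by positivity)
    set f : ℕ → ℝ := fun n => if n < N then |s n - κ * u n| else 0 with hf
    have hfs : HasSum f K := by
      have this : HasSum f (∑ n ∈ Finset.range N, f n) := hasSum_sum_of_ne_finset_zero (by
        intro n hn
        rw [Finset.mem_range] at hn
        simp [hf, hn])
      have h2 : ∑ n ∈ Finset.range N, f n = K := by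
        rw [hK]
        refine Finset.sum_congr rfl fun n hn => ?_
        rw [Finset.mem_range] at hn
        simp [hf, hn]
      rwa [h2] at this
    have hb : ∀ n, ‖(s n - κ * u n) * y ^ n‖ ≤ f n + c / 2 * (u n * y ^ n) := by
      intro n
      have hyn : 0 ≤ y ^ n := by positivity
      have hyn1 : y ^ n ≤ 1 := pow_le_one₀ hy0.le hy1.le
      rw [norm_mul, Real.norm_eq_abs, Real.norm_eq_abs, abs_of_nonneg hyn]
      have hun : 0 ≤ c / 2 * (u n * y ^ n) := mul_nonneg hc2.le (mul_nonneg (hu n) hyn)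
      by_cases hn : n < N
      · simp only [hf, hn, if_true]
        have : |s n - κ * u n| * y ^ n ≤ |s n - κ * u n| * 1 :=
          mul_le_mul_of_nonneg_left hyn1 (abs_nonneg _)
        linarith
      · simp only [hf, hn, if_false]
        have h3 := hN n (by omega)
        rw [Real.norm_eq_abs, Real.norm_eq_abs, abs_of_nonneg (hu n)] at h3
        have : |s n - κ * u n| * y ^ n ≤ c / 2 * u n * y ^ n :=
          mul_le_mul_of_nonneg_right h3 hyn
        linarith
    have hsum2 : HasSum (fun n => f n + c / 2 * (u n * y ^ n))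
        (K + c / 2 * ∑' n, u n * y ^ n) := hfs.add (hUs.hasSum.mul_left _)
    have h4 : ‖∑' n, (s n - κ * u n) * y ^ n‖ ≤ K + c / 2 * ∑' n, u n * y ^ n :=
      tsum_of_norm_bounded hsum2 hb
    rw [Real.norm_eq_abs (∑' n, u n * y ^ n), abs_of_nonneg hU0]
    have h5 : K ≤ c / 2 * ∑' n, u n * y ^ n := by
      rw [div_le_iff₀ hc] at hyU
      linarith
    linarith
  have hlim := hsmall.tendsto_div_nhds_zero
  have hlim2 := hlim.add_const κ
  rw [zero_add] at hlim2
  refine hlim2.congr' ?_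
  filter_upwards [hy01, hdiv.eventually_gt_atTop 0] with y hy hU
  obtain ⟨hy0, hy1⟩ := hy
  have hUs := hs y hy0.le hy1
  have hr := hrs y hy0.le hy1
  have e1 : ∑' n, s n * y ^ n = (∑' n, (s n - κ * u n) * y ^ n) + κ * ∑' n, u n * y ^ n := by
    rw [← tsum_mul_left, ← hr.tsum_add (hUs.mul_left κ)]
    refine tsum_congr fun n => ?_
    ring
  rw [e1, add_div, mul_div_assoc, div_self hU.ne', mul_one]

/-- coefficients of `(1-y)^(-1/2) log(1/(1-y))` -/
noncomputable def uc (n : ℕ) : ℝ :=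
  ∑ k ∈ Finset.Icc 1 n, (1 / (k : ℝ)) * ((Nat.centralBinom (n - k) : ℝ) / 4 ^ (n - k))

theorem uc_nonneg (n : ℕ) : 0 ≤ uc n := by
  unfold uc
  positivity

/-- normalised central binomial coefficients -/
private noncomputable def CC (n : ℕ) : ℝ := (Nat.centralBinom n : ℝ) / 4 ^ n

private theorem CC_zero : CC 0 = 1 := by simp [CC]

private theorem CC_pos (n : ℕ) : 0 < CC n := by
  have := Nat.centralBinom_pos n
  unfold CC
  positivity

private theorem CC_le (n : ℕ) : CC n ≤ 1 := by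
  unfold CC
  rw [div_le_one (by positivity)]
  exact_mod_cast Nat.centralBinom_le_four_pow n

private theorem CC_succ (n : ℕ) : ((n : ℝ) + 1) * CC (n + 1) = ((n : ℝ) + 1 / 2) * CC n := by
  have h : ((n : ℝ) + 1) * (Nat.centralBinom (n + 1) : ℝ)
      = 2 * (2 * n + 1) * (Nat.centralBinom n : ℝ) := by
    exact_mod_cast Nat.succ_mul_centralBinom_succ n
  unfold CC
  rw [← mul_div_assoc, h, pow_succ]
  field_simp
  ring

private theorem CC_reflect (n : ℕ) :
    2 * ∑ k ∈ Finset.range (n + 1), (k : ℝ) * CC k * CC (n - k)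
      = n * ∑ k ∈ Finset.range (n + 1), CC k * CC (n - k) := by
  have h1 : ∑ k ∈ Finset.range (n + 1), (k : ℝ) * CC k * CC (n - k)
      = ∑ k ∈ Finset.range (n + 1), ((n : ℝ) - k) * CC (n - k) * CC k := by
    rw [← Finset.sum_range_reflect]
    refine Finset.sum_congr rfl fun k hk => ?_
    rw [Finset.mem_range] at hk
    have e1 : n + 1 - 1 - k = n - k := by omega
    have e2 : n - (n - k) = k := by omega
    rw [e1, e2, Nat.cast_sub (by omega)]
  have h2 : 2 * ∑ k ∈ Finset.range (n + 1), (k : ℝ) * CC k * CC (n - k)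
      = ∑ k ∈ Finset.range (n + 1), (k : ℝ) * CC k * CC (n - k)
        + ∑ k ∈ Finset.range (n + 1), ((n : ℝ) - k) * CC (n - k) * CC k := by
    rw [← h1]
    ring
  rw [h2, ← Finset.sum_add_distrib, Finset.mul_sum]
  refine Finset.sum_congr rfl fun k _ => ?_
  ring

private theorem CC_conv (n : ℕ) : ∑ k ∈ Finset.range (n + 1), CC k * CC (n - k) = 1 := by
  induction n with
  | zero => simp [CC_zero]
  | succ n ih =>
    have h1 := CC_reflect (n + 1)
    have h2 := CC_reflect n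
    rw [ih, mul_one] at h2
    have h3 : ∑ k ∈ Finset.range (n + 1 + 1), (k : ℝ) * CC k * CC (n + 1 - k)
        = ∑ k ∈ Finset.range (n + 1), (k : ℝ) * CC k * CC (n - k)
          + 1 / 2 * ∑ k ∈ Finset.range (n + 1), CC k * CC (n - k) := by
      rw [Finset.sum_range_succ', Finset.mul_sum, ← Finset.sum_add_distrib]
      simp only [Nat.cast_zero, zero_mul, add_zero]
      refine Finset.sum_congr rfl fun k _ => ?_
      have e1 : n + 1 - (k + 1) = n - k := by omega
      rw [e1]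
      push_cast
      rw [CC_succ]
      ring
    rw [h3, ih] at h1
    have hn : ((n + 1 : ℕ) : ℝ) ≠ 0 := by positivity
    have h4 : ((n + 1 : ℕ) : ℝ) * ∑ k ∈ Finset.range (n + 1 + 1), CC k * CC (n + 1 - k)
        = ((n + 1 : ℕ) : ℝ) * 1 := by
      rw [← h1]
      push_cast
      linarith
    exact mul_left_cancel₀ hn h4

private theorem CC_norm_summable (y : ℝ) (h0 : 0 ≤ y) (h1 : y < 1) :
    Summable (fun n => ‖CC n * y ^ n‖) := by
  refine Summable.of_nonneg_of_le (fun n => norm_nonneg _) (fun n => ?_)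
    (summable_geometric_of_lt_one h0 h1)
  rw [Real.norm_eq_abs, abs_of_nonneg (mul_nonneg (CC_pos n).le (by positivity))]
  have : CC n * y ^ n ≤ 1 * y ^ n := mul_le_mul_of_nonneg_right (CC_le n) (by positivity)
  linarith

private theorem CC_hasSum (y : ℝ) (h0 : 0 ≤ y) (h1 : y < 1) :
    HasSum (fun n => CC n * y ^ n) ((√(1 - y))⁻¹) := by
  have hs := CC_norm_summable y h0 h1
  have h2 := hasSum_sum_range_mul_of_summable_norm hs hs
  have h3 : (fun n => ∑ k ∈ Finset.range (n + 1), CC k * y ^ k * (CC (n - k) * y ^ (n - k)))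
      = fun n => y ^ n := by
    funext n
    have : ∑ k ∈ Finset.range (n + 1), CC k * y ^ k * (CC (n - k) * y ^ (n - k))
        = ∑ k ∈ Finset.range (n + 1), (CC k * CC (n - k)) * y ^ n := by
      refine Finset.sum_congr rfl fun k hk => ?_
      rw [Finset.mem_range] at hk
      have e : y ^ n = y ^ k * y ^ (n - k) := by rw [← pow_add]; congr 1; omega
      rw [e]
      ring
    rw [this, ← Finset.sum_mul, CC_conv, one_mul]
  rw [h3] at h2
  have h4 := h2.unique (hasSum_geometric_of_lt_one h0 h1)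
  have h5 : 0 ≤ ∑' n, CC n * y ^ n := tsum_nonneg fun n =>
    mul_nonneg (CC_pos n).le (by positivity)
  have h6 : ∑' n, CC n * y ^ n = (√(1 - y))⁻¹ := by
    rw [← Real.sqrt_inv, ← h4, Real.sqrt_mul_self h5]
  rw [← h6]
  exact hs.of_norm.hasSum

private theorem nCC_summable (y : ℝ) (h0 : 0 ≤ y) (h1 : y < 1) :
    Summable (fun n : ℕ => ‖(n : ℝ) * CC n * y ^ n‖) := by
  have hg : Summable (fun n : ℕ => (n : ℝ) ^ 1 * y ^ n) :=
    summable_pow_mul_geometric_of_norm_lt_one 1 (by rwa [Real.norm_eq_abs, abs_of_nonneg h0])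
  refine Summable.of_nonneg_of_le (fun n => norm_nonneg _) (fun n => ?_) hg
  rw [Real.norm_eq_abs, abs_of_nonneg (mul_nonneg (mul_nonneg (Nat.cast_nonneg n)
    (CC_pos n).le) (by positivity)), pow_one]
  refine mul_le_mul_of_nonneg_right ?_ (by positivity)
  have := mul_le_mul_of_nonneg_left (CC_le n) (Nat.cast_nonneg (α := ℝ) n)
  linarith

private theorem nCC_hasSum (y : ℝ) (h0 : 0 ≤ y) (h1 : y < 1) :
    HasSum (fun n : ℕ => (n : ℝ) * CC n * y ^ n) (y * (1 / 2 * ((√(1 - y)) ^ 3)⁻¹)) := by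
  have hs : Summable (fun n : ℕ => (n : ℝ) * CC n * y ^ n) := (nCC_summable y h0 h1).of_norm
  have hb : 0 < 1 - y := by linarith
  have hsq : √(1 - y) ^ 2 = 1 - y := Real.sq_sqrt hb.le
  have hpos : 0 < √(1 - y) := Real.sqrt_pos.mpr hb
  have hg := CC_hasSum y h0 h1
  set G := ∑' n : ℕ, (n : ℝ) * CC n * y ^ n with hG
  have e1 : G = ∑' n : ℕ, ((n + 1 : ℕ) : ℝ) * CC (n + 1) * y ^ (n + 1) := by
    rw [hG, hs.tsum_eq_zero_add]
    simp
  have e2 : ∀ n : ℕ, ((n + 1 : ℕ) : ℝ) * CC (n + 1) * y ^ (n + 1)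
      = y * ((n : ℝ) * CC n * y ^ n) + y / 2 * (CC n * y ^ n) := by
    intro n
    push_cast
    rw [CC_succ, pow_succ]
    ring
  have e3 : G = y * G + y / 2 * (√(1 - y))⁻¹ := by
    conv_lhs => rw [e1]
    rw [tsum_congr e2]
    exact ((hs.hasSum.mul_left y).add (hg.mul_left (y / 2))).tsum_eq
  have e4 : G = y * (1 / 2 * ((√(1 - y)) ^ 3)⁻¹) := by
    have e5 : (1 - y) * G = y / 2 * (√(1 - y))⁻¹ := by linarith
    have e6 : G = (1 - y)⁻¹ * (y / 2 * (√(1 - y))⁻¹) := by
      rw [← e5, inv_mul_cancel_left₀ hb.ne']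
    rw [e6, ← hsq]
    rw [Real.sqrt_sq hpos.le] 
    field_simp
  rw [← e4]
  exact hs.hasSum

private theorem uc_eq (n : ℕ) :
    uc n = ∑ k ∈ Finset.range (n + 1), (1 / (k : ℝ)) * CC (n - k) := by
  rw [Finset.sum_range_succ']
  simp only [Nat.cast_zero, div_zero, zero_mul, add_zero]
  unfold uc
  refine Finset.sum_nbij' (fun k => k - 1) (fun k => k + 1) ?_ ?_ ?_ ?_ ?_
  · intro k hk
    rw [Finset.mem_Icc] at hk
    rw [Finset.mem_range]
    omega
  · intro k hk
    rw [Finset.mem_range] at hk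
    rw [Finset.mem_Icc]
    omega
  · intro k hk
    rw [Finset.mem_Icc] at hk
    show k - 1 + 1 = k
    omega
  · intro k _
    show k + 1 - 1 = k
    omega
  · intro k hk
    rw [Finset.mem_Icc] at hk
    have e : k - 1 + 1 = k := by omega
    simp only [e]
    rfl

private theorem log_hasSum (y : ℝ) (h0 : 0 ≤ y) (h1 : y < 1) :
    HasSum (fun n : ℕ => 1 / (n : ℝ) * y ^ n) (Real.log (1 / (1 - y))) := by
  have h2 := Real.hasSum_pow_div_log_of_abs_lt_one (x := y) (by rwa [abs_of_nonneg h0])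
  have h3 : Real.log (1 / (1 - y)) = -Real.log (1 - y) := by
    rw [one_div, Real.log_inv]
  rw [h3]
  rw [← hasSum_nat_add_iff' 1]
  simp only [Finset.range_one, Finset.sum_singleton, Nat.cast_zero, div_zero, zero_mul, sub_zero]
  refine h2.congr_fun ?_ |> id
  intro n
  push_cast
  ring

private theorem log_norm_summable (y : ℝ) (h0 : 0 ≤ y) (h1 : y < 1) :
    Summable (fun n : ℕ => ‖1 / (n : ℝ) * y ^ n‖) := by
  refine (log_hasSum y h0 h1).summable.congr fun n => ?_
  rw [Real.norm_eq_abs, abs_of_nonneg (by positivity)]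

theorem uc_hasSum (y : ℝ) (h0 : 0 ≤ y) (h1 : y < 1) :
    HasSum (fun n => uc n * y ^ n) ((√(1 - y))⁻¹ * Real.log (1 / (1 - y))) := by
  have h2 := hasSum_sum_range_mul_of_summable_norm (log_norm_summable y h0 h1)
    (CC_norm_summable y h0 h1)
  rw [(log_hasSum y h0 h1).tsum_eq, (CC_hasSum y h0 h1).tsum_eq] at h2
  have e1 : (fun n => uc n * y ^ n) = fun n => ∑ k ∈ Finset.range (n + 1),
      1 / (k : ℝ) * y ^ k * (CC (n - k) * y ^ (n - k)) := by
    funext n
    rw [uc_eq, Finset.sum_mul]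
    refine Finset.sum_congr rfl fun k hk => ?_
    rw [Finset.mem_range] at hk
    have e : y ^ n = y ^ k * y ^ (n - k) := by rw [← pow_add]; congr 1; omega
    rw [e]
    ring
  rw [e1, mul_comm]
  exact h2

private theorem one_hasSum (y : ℝ) (h0 : 0 ≤ y) (h1 : y < 1) :
    HasSum (fun n : ℕ => (if n = 0 then (0 : ℝ) else 1) * y ^ n) (y * (1 - y)⁻¹) := by
  have h2 := (hasSum_geometric_of_lt_one h0 h1).mul_left y
  have h3 : HasSum (fun n : ℕ => (if n + 1 = 0 then (0 : ℝ) else 1) * y ^ (n + 1))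
      (y * (1 - y)⁻¹) := by
    have e : (fun n : ℕ => (if n + 1 = 0 then (0 : ℝ) else 1) * y ^ (n + 1))
        = fun n => y * y ^ n := by
      funext n
      rw [if_neg (Nat.succ_ne_zero n), pow_succ]
      ring
    rw [e]
    exact h2
  have h4 := (hasSum_nat_add_iff (f := fun n : ℕ => (if n = 0 then (0 : ℝ) else 1) * y ^ n) 1).mp h3
  simpa using h4

private theorem one_norm_summable (y : ℝ) (h0 : 0 ≤ y) (h1 : y < 1) :
    Summable (fun n : ℕ => ‖(if n = 0 then (0 : ℝ) else 1) * y ^ n‖) := by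
  refine (one_hasSum y h0 h1).summable.congr fun n => ?_
  rw [Real.norm_eq_abs, abs_of_nonneg]
  split_ifs <;> positivity

private theorem n_uc (n : ℕ) : (n : ℝ) * uc n =
    ∑ k ∈ Finset.range (n + 1), (if k = 0 then (0 : ℝ) else 1) * CC (n - k)
      + ∑ k ∈ Finset.range (n + 1), (1 / (k : ℝ)) * (((n - k : ℕ) : ℝ) * CC (n - k)) := by
  rw [uc_eq, Finset.mul_sum, ← Finset.sum_add_distrib]
  refine Finset.sum_congr rfl fun k hk => ?_
  rw [Finset.mem_range] at hk
  rw [Nat.cast_sub (by omega)]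
  by_cases hk0 : k = 0
  · subst hk0
    simp
  · have : (k : ℝ) ≠ 0 := by exact_mod_cast hk0
    rw [if_neg hk0]
    field_simp
    ring

theorem uc_deriv (y : ℝ) (h0 : 0 ≤ y) (h1 : y < 1) :
    HasSum (fun n : ℕ => (n : ℝ) * uc n * y ^ n)
      (y * ((1 / 2) * ((√(1 - y)) ^ 3)⁻¹ * Real.log (1 / (1 - y)) + ((√(1 - y)) ^ 3)⁻¹)) := by
  have h2 := hasSum_sum_range_mul_of_summable_norm (one_norm_summable y h0 h1)
    (CC_norm_summable y h0 h1)
  rw [(one_hasSum y h0 h1).tsum_eq, (CC_hasSum y h0 h1).tsum_eq] at h2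
  have h3 := hasSum_sum_range_mul_of_summable_norm (log_norm_summable y h0 h1)
    (nCC_summable y h0 h1)
  rw [(log_hasSum y h0 h1).tsum_eq, (nCC_hasSum y h0 h1).tsum_eq] at h3
  have h4 := h2.add h3
  have hb : 0 < 1 - y := by linarith
  have hsq : √(1 - y) ^ 2 = 1 - y := Real.sq_sqrt hb.le
  have hpos : 0 < √(1 - y) := Real.sqrt_pos.mpr hb
  have e1 : (fun n : ℕ => (n : ℝ) * uc n * y ^ n) = fun n =>
      ∑ k ∈ Finset.range (n + 1), (if k = 0 then (0 : ℝ) else 1) * y ^ k
        * (CC (n - k) * y ^ (n - k))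
      + ∑ k ∈ Finset.range (n + 1), 1 / (k : ℝ) * y ^ k
        * (((n - k : ℕ) : ℝ) * CC (n - k) * y ^ (n - k)) := by
    funext n
    rw [n_uc, add_mul, Finset.sum_mul, Finset.sum_mul]
    congr 1
    · refine Finset.sum_congr rfl fun k hk => ?_
      rw [Finset.mem_range] at hk
      have e : y ^ n = y ^ k * y ^ (n - k) := by rw [← pow_add]; congr 1; omega
      rw [e]
      ring
    · refine Finset.sum_congr rfl fun k hk => ?_
      rw [Finset.mem_range] at hk
      have e : y ^ n = y ^ k * y ^ (n - k) := by rw [← pow_add]; congr 1; omega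
      rw [e]
      ring
  have e5 : (1 - y)⁻¹ * (√(1 - y))⁻¹ = ((√(1 - y)) ^ 3)⁻¹ := by
    rw [← mul_inv]
    congr 1
    nth_rewrite 1 [← hsq]
    ring
  have e6 : y * ((1 / 2) * ((√(1 - y)) ^ 3)⁻¹ * Real.log (1 / (1 - y)) + ((√(1 - y)) ^ 3)⁻¹)
      = y * (1 - y)⁻¹ * (√(1 - y))⁻¹
        + Real.log (1 / (1 - y)) * (y * (1 / 2 * ((√(1 - y)) ^ 3)⁻¹)) := by
    rw [mul_assoc y, e5]
    ring
  rw [e1, e6]
  exact h4

private theorem uc_rec (n : ℕ) :
    ((n : ℝ) + 1) * uc (n + 1) = ((n : ℝ) + 1 / 2) * uc n + CC n := by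
  have h1 := n_uc n
  have h2 := n_uc (n + 1)
  have e1 : ∑ k ∈ Finset.range (n + 1 + 1), (if k = 0 then (0 : ℝ) else 1) * CC (n + 1 - k)
      = ∑ k ∈ Finset.range (n + 1), CC (n - k) := by
    rw [Finset.sum_range_succ']
    simp only [if_true, zero_mul, add_zero]
    refine Finset.sum_congr rfl fun k _ => ?_
    have e : n + 1 - (k + 1) = n - k := by omega
    rw [e]
    simp
  have e2 : ∑ k ∈ Finset.range (n + 1), (if k = 0 then (0 : ℝ) else 1) * CC (n - k)
      = ∑ k ∈ Finset.range (n + 1), CC (n - k) - CC n := by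
    rw [Finset.sum_range_succ', Finset.sum_range_succ' (fun k => CC (n - k))]
    simp
  have e3 : ∑ k ∈ Finset.range (n + 1 + 1), (1 / (k : ℝ)) * (((n + 1 - k : ℕ) : ℝ) * CC (n + 1 - k))
      = ∑ k ∈ Finset.range (n + 1), (1 / (k : ℝ)) * (((n - k : ℕ) : ℝ) * CC (n - k))
        + 1 / 2 * uc n := by
    rw [Finset.sum_range_succ, uc_eq, Finset.mul_sum, ← Finset.sum_add_distrib]
    simp only [Nat.sub_self, Nat.cast_zero, zero_mul, mul_zero, add_zero]
    refine Finset.sum_congr rfl fun k hk => ?_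
    rw [Finset.mem_range] at hk
    have e : n + 1 - k = n - k + 1 := by omega
    rw [e]
    push_cast
    rw [CC_succ]
    ring
  rw [e1, e3] at h2
  rw [e2] at h1
  push_cast at h2
  linarith

private theorem uc_closed (n : ℕ) :
    uc n = CC n * (2 * (harmonic (2 * n) : ℝ) - (harmonic n : ℝ)) := by
  induction n with
  | zero => simp [uc]
  | succ n ih =>
    have h1 := uc_rec n
    have h2 := CC_succ n
    have hn : (n : ℝ) + 1 ≠ 0 := by positivity
    have e1 : (harmonic (2 * (n + 1)) : ℝ) = (harmonic (2 * n) : ℝ) + 1 / (2 * n + 1)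
        + 1 / (2 * n + 2) := by
      have : 2 * (n + 1) = 2 * n + 1 + 1 := by ring
      rw [this, harmonic_succ, harmonic_succ]
      push_cast
      rw [one_div, one_div]
      ring_nf
    have e2 : (harmonic (n + 1) : ℝ) = (harmonic n : ℝ) + 1 / (n + 1) := by
      rw [harmonic_succ]
      push_cast
      rw [one_div]
    apply mul_left_cancel₀ hn
    rw [h1, ih, e1, e2]
    have h5 : ((n : ℝ) + 1) * (CC (n + 1) * (2 * ((harmonic (2 * n) : ℝ) + 1 / (2 * n + 1)
        + 1 / (2 * n + 2)) - ((harmonic n : ℝ) + 1 / (n + 1))))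
        = ((n : ℝ) + 1 / 2) * CC n * (2 * ((harmonic (2 * n) : ℝ) + 1 / (2 * n + 1)
        + 1 / (2 * n + 2)) - ((harmonic n : ℝ) + 1 / (n + 1))) := by
      rw [← h2]
      ring
    rw [h5]
    field_simp
    ring

private theorem CC_wallis (n : ℕ) : Real.Wallis.W n * (CC n) ^ 2 * (2 * n + 1) = 1 := by
  induction n with
  | zero => simp [Real.Wallis.W, CC_zero]
  | succ n ih =>
    have h2 := CC_succ n
    have hn : (n : ℝ) + 1 ≠ 0 := by positivity
    have h3 : CC (n + 1) = (n + 1 / 2) * CC n / (n + 1) := by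
      rw [← h2]
      field_simp
    rw [Real.Wallis.W_succ, h3]
    push_cast
    have h4 : (Real.Wallis.W n * ((2 * n + 2) / (2 * n + 1) * ((2 * n + 2) / (2 * n + 3)))
        * ((n + 1 / 2) * CC n / (n + 1)) ^ 2 * (2 * (n + 1) + 1) : ℝ)
        = Real.Wallis.W n * (CC n) ^ 2 * (2 * n + 1) := by
      field_simp
      ring
    rw [h4, ih]

private theorem CC_lim : Tendsto (fun n : ℕ => CC n * √(n : ℝ)) atTop
    (nhds (1 / √Real.pi)) := by
  have h1 : Tendsto (fun n : ℕ => (CC n) ^ 2 * n) atTop (nhds (1 / Real.pi)) := by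
    have h2 : Tendsto (fun n : ℕ => ((n : ℝ) / (2 * n + 1)) / Real.Wallis.W n) atTop
        (nhds ((1 / 2) / (Real.pi / 2))) := by
      refine Tendsto.div ?_ Real.Wallis.tendsto_W_nhds_pi_div_two (by positivity)
      exact Stirling.tendsto_self_div_two_mul_self_add_one
    have e : (1 / 2 : ℝ) / (Real.pi / 2) = 1 / Real.pi := by
      have := Real.pi_pos
      field_simp
    rw [e] at h2
    refine h2.congr fun n => ?_
    have h3 := CC_wallis n
    have h4 := Real.Wallis.W_pos n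
    have h5 : (0 : ℝ) < 2 * n + 1 := by positivity
    have h6 : (CC n) ^ 2 = (Real.Wallis.W n * (2 * n + 1))⁻¹ := by
      refine eq_inv_of_mul_eq_one_left ?_
      linarith
    rw [h6, div_div, div_eq_mul_inv, mul_comm, mul_comm (2 * (n : ℝ) + 1)]
  have h2 := (Real.continuous_sqrt.tendsto _).comp h1
  have e : √(1 / Real.pi) = 1 / √Real.pi := by
    rw [Real.sqrt_div zero_le_one, Real.sqrt_one]
  rw [e] at h2
  refine h2.congr fun n => ?_
  show √((CC n) ^ 2 * n) = _
  rw [Real.sqrt_mul (sq_nonneg _), Real.sqrt_sq (CC_pos n).le]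

theorem uc_asymp : Tendsto (fun n : ℕ => uc n * √(n : ℝ) / Real.log n) atTop
    (nhds (1 / √Real.pi)) := by
  have hlog : Tendsto (fun n : ℕ => Real.log n) atTop atTop :=
    Real.tendsto_log_atTop.comp tendsto_natCast_atTop_atTop
  have h1 := Real.tendsto_harmonic_sub_log
  have h2 : Tendsto (fun n : ℕ => (harmonic (2 * n) : ℝ) - Real.log ((2 * n : ℕ) : ℝ)) atTop
      (nhds Real.eulerMascheroniConstant) := by
    have h3 : Tendsto (fun n : ℕ => 2 * n) atTop atTop :=
      tendsto_id.const_mul_atTop' (by norm_num)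
    exact h1.comp h3
  have h4 : Tendsto (fun n : ℕ => (2 * (harmonic (2 * n) : ℝ) - (harmonic n : ℝ)) - Real.log n)
      atTop (nhds (2 * (Real.eulerMascheroniConstant + Real.log 2)
        - Real.eulerMascheroniConstant)) := by
    refine (((h2.add_const (Real.log 2)).const_mul 2).sub h1).congr' ?_
    filter_upwards [eventually_gt_atTop 0] with n hn
    have hn' : (n : ℝ) ≠ 0 := by
      have : n ≠ 0 := by omega
      exact_mod_cast this
    have e : Real.log ((2 * n : ℕ) : ℝ) = Real.log 2 + Real.log n := by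
      push_cast
      rw [Real.log_mul (by norm_num) hn']
    rw [e]
    ring
  have h5 : Tendsto (fun n : ℕ => (2 * (harmonic (2 * n) : ℝ) - (harmonic n : ℝ)) / Real.log n)
      atTop (nhds 1) := by
    have h6 := (h4.div_atTop hlog).add_const 1
    rw [zero_add] at h6
    refine h6.congr' ?_
    filter_upwards [hlog.eventually_gt_atTop 0] with n hn
    field_simp
    ring
  have h7 := CC_lim.mul h5
  rw [mul_one] at h7
  refine h7.congr fun n => ?_
  rw [uc_closed]
  ring

end Pool.Agent.Helper99.TC
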