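import Pool.Agent.Helper99.TC.ThGs

/-!
# TC-21: α and β

`pairS (d : ℕ) = al ^ d`: both families satisfy `f 0 = 1`, `f d = X (f (d-1) + 2 f d + f (d+1))` for `d ≥ 1`. First show `pairS` satisfies it (definition of `pairN`); then
`pairS (d + 1) = al * pairS d` for all `d ≥ 0`: put `e d = pairS (d + 1) - al * pairS d` (`d : ℕ`), `e 0 = 0`, `e d = X (e (d-1) + 2 e d + e (d+1))` for `d ≥ 1`; use `family_zero`. The rest is algebra:
`al = X (1 + al)^2`, `be = 1 - 2 X (1 + al)`, `be ^ 2 = 1 - 4 X (1 + al) + 4 X * (X (1 + al)^2) = 1 - 4 X`.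
-/

set_option autoImplicit false

open PowerSeries

namespace Pool.Agent.Helper99.TC

theorem pairS_zero : pairS 0 = 1 := by
  ext n
  rcases n with _ | n
  · simp [pairS, pairN]
  · simp [pairS, pairN, PowerSeries.coeff_one]

theorem pairS_rec (d : ℤ) (hd : 0 < d) :
    pairS d = X * (pairS (d - 1) + 2 * pairS d + pairS (d + 1)) := by
  ext n
  rcases n with _ | n
  · have h1 : d ≠ 0 := by omega
    simp [pairS, pairN, h1]
  · rw [PowerSeries.coeff_succ_X_mul]
    have h2 : (2 : ℚ⟦X⟧) = PowerSeries.C (2 : ℚ) :=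
      (map_ofNat (PowerSeries.C (R := ℚ)) 2).symm
    rw [map_add, map_add, h2, PowerSeries.coeff_C_mul]
    simp only [pairS, PowerSeries.coeff_mk, pairN, hd, if_true]
    push_cast
    ring

theorem pairS_nat (d : ℕ) : pairS d = al ^ d := by
  have key : ∀ i : ℕ, pairS ((i : ℤ) + 1) - al * pairS (i : ℤ) = 0 := by
    refine family_zero (fun i : ℕ => pairS ((i : ℤ) + 1) - al * pairS (i : ℤ)) ?_
    intro N hN i
    rcases i with _ | i
    · have h0 : pairS (((0 : ℕ) : ℤ) + 1) - al * pairS ((0 : ℕ) : ℤ) = 0 := by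
        rw [Nat.cast_zero, pairS_zero, zero_add]
        simp [al]
      show X ^ (N + 1) ∣ pairS (((0 : ℕ) : ℤ) + 1) - al * pairS ((0 : ℕ) : ℤ)
      rw [h0]
      exact dvd_zero _
    · have e1 : pairS (((i + 1 : ℕ) : ℤ) + 1)
          = X * (pairS ((i + 1 : ℕ) : ℤ) + 2 * pairS (((i + 1 : ℕ) : ℤ) + 1)
            + pairS (((i + 2 : ℕ) : ℤ) + 1)) := by
        have h := pairS_rec (((i + 1 : ℕ) : ℤ) + 1) (by positivity)
        have ha : (((i + 1 : ℕ) : ℤ) + 1 - 1) = ((i + 1 : ℕ) : ℤ) := by ring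
        have hb : (((i + 1 : ℕ) : ℤ) + 1 + 1) = ((i + 2 : ℕ) : ℤ) + 1 := by push_cast; ring
        rw [ha, hb] at h
        exact h
      have e2 : pairS ((i + 1 : ℕ) : ℤ)
          = X * (pairS (i : ℤ) + 2 * pairS ((i + 1 : ℕ) : ℤ) + pairS (((i + 1 : ℕ) : ℤ) + 1)) := by
        have h := pairS_rec ((i + 1 : ℕ) : ℤ) (by positivity)
        have ha : (((i + 1 : ℕ) : ℤ) - 1) = (i : ℤ) := by push_cast; ring
        rw [ha] at h
        exact h
      have h0 := hN i
      have h1 := hN (i + 1)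
      have h2 := hN (i + 2)
      have hi0 : pairS ((i : ℤ) + 1) = pairS ((i + 1 : ℕ) : ℤ) := by push_cast; rfl
      have hi1 : pairS (((i + 1 : ℕ) : ℤ) + 1) = pairS ((i + 2 : ℕ) : ℤ) := by
        have hq : ((i + 1 : ℕ) : ℤ) + 1 = ((i + 2 : ℕ) : ℤ) := by push_cast; ring
        rw [hq]
      have h3 : X ^ N ∣ (pairS ((i : ℤ) + 1) - al * pairS (i : ℤ))
          + 2 * (pairS (((i + 1 : ℕ) : ℤ) + 1) - al * pairS ((i + 1 : ℕ) : ℤ))
          + (pairS (((i + 2 : ℕ) : ℤ) + 1) - al * pairS ((i + 2 : ℕ) : ℤ)) :=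
        dvd_add (dvd_add h0 (Dvd.dvd.mul_left h1 2)) h2
      have h4 : pairS (((i + 1 : ℕ) : ℤ) + 1) - al * pairS ((i + 1 : ℕ) : ℤ)
          = X * ((pairS ((i : ℤ) + 1) - al * pairS (i : ℤ))
          + 2 * (pairS (((i + 1 : ℕ) : ℤ) + 1) - al * pairS ((i + 1 : ℕ) : ℤ))
          + (pairS (((i + 2 : ℕ) : ℤ) + 1) - al * pairS ((i + 2 : ℕ) : ℤ))) := by
        rw [← hi1, hi0]
        linear_combination e1 - al * e2
      show X ^ (N + 1) ∣ pairS (((i + 1 : ℕ) : ℤ) + 1) - al * pairS ((i + 1 : ℕ) : ℤ)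
      rw [h4, pow_succ']
      exact mul_dvd_mul_left X h3
  induction d with
  | zero => rw [Nat.cast_zero, pairS_zero, pow_zero]
  | succ d ih =>
    have h := key d
    rw [ih] at h
    have h' : pairS ((d + 1 : ℕ) : ℤ) = al * al ^ d := by
      rw [← sub_eq_zero]
      push_cast
      exact h
    rw [h', pow_succ]
    ring

theorem al_eq : al = X * (1 + al) ^ 2 := by
  have h := pairS_rec 1 (by norm_num)
  have h2 : pairS (1 + 1) = al ^ 2 := by
    have := pairS_nat 2
    exact_mod_cast this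
  have h0 : pairS (1 - 1) = 1 := by
    rw [sub_self]
    exact pairS_zero
  rw [h2, h0] at h
  have h1 : pairS 1 = al := rfl
  rw [h1] at h
  linear_combination h

theorem X_dvd_al : X ∣ al := by
  rw [al_eq]
  exact dvd_mul_right _ _

theorem al_ne_zero : al ≠ 0 := by
  intro h
  have h1 := al_eq
  rw [h] at h1
  simp at h1
  exact PowerSeries.X_ne_zero h1.symm

theorem one_sub_al_ne : 1 - al ≠ 0 := by
  intro h
  have h1 : PowerSeries.constantCoeff al = 0 := PowerSeries.X_dvd_iff.mp X_dvd_al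
  have h2 := congrArg PowerSeries.constantCoeff h
  rw [map_sub, h1] at h2
  simp at h2

theorem one_add_al_ne : 1 + al ≠ 0 := by
  intro h
  have h1 : PowerSeries.constantCoeff al = 0 := PowerSeries.X_dvd_iff.mp X_dvd_al
  have h2 := congrArg PowerSeries.constantCoeff h
  rw [map_add, h1] at h2
  simp at h2

theorem be_sq : be ^ 2 = 1 - 4 * X := by
  have h := al_eq
  unfold be
  linear_combination (-4 * X) * h

theorem be_ne_zero : be ≠ 0 := by
  intro h
  have h1 := be_sq
  rw [h] at h1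
  have h2 := congrArg PowerSeries.constantCoeff h1
  simp at h2

theorem be_mul : be * (1 + al) = 1 - al := by
  have h := al_eq
  unfold be
  linear_combination (2 : ℚ⟦X⟧) * h

theorem al_quad : X * al ^ 2 + X = (1 - 2 * X) * al := by
  have h := al_eq
  linear_combination -h

theorem two_X_al : 2 * X * al = 1 - 2 * X - be := by
  unfold be
  ring

theorem al_mul_be : al * (be + 1 - 2 * X) = 2 * X := by
  have h := al_quad
  unfold be
  linear_combination (-2 : ℚ⟦X⟧) * h

theorem th_be : (1 - 4 * X) * th be = - 2 * X * be := by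
  have h1 : th (be ^ 2) = 2 * be * th be := by
    rw [th_pow]
    norm_num
  have h2 : th (be ^ 2) = - 4 * X := by
    rw [be_sq, th_sub, th_one, th_mul, th_ofNat, th_X]
    ring
  have h3 : (2 : ℚ⟦X⟧) * (be * th be + 2 * X) = 0 := by
    linear_combination h2 - h1
  have h4 : be * th be + 2 * X = 0 := by
    rcases mul_eq_zero.mp h3 with h | h
    · exfalso
      have h' := congrArg PowerSeries.constantCoeff h
      rw [map_ofNat, map_zero] at h'
      norm_num at h'
    · exact h
  have h5 : be * ((1 - 4 * X) * th be + 2 * X * be) = 0 := by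
    have h6 := be_sq
    linear_combination (1 - 4 * X) * h4 + (2 * X) * h6
  rcases mul_eq_zero.mp h5 with h | h
  · exact absurd h be_ne_zero
  · linear_combination h

end Pool.Agent.Helper99.TC
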