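import Mathlib

/-!
# Closed self-avoiding lattice walks as periodic functions

Coordinates: `X k` is the x-coordinate and `h k` is x + y (the level) of the k-th vertex, as functions on ℤ of period `m`.
Steps up in level are U (X fixed) and R (X + 1); steps down in level are D (X fixed) and L (X - 1).
-/

set_option autoImplicit false

namespace Pool.Agent.Helper99.TC

/-- closed self-avoiding walk of period `m` in the coordinates `X = x`, `h = x + y` -/
structure CW (m : ℕ) (X h : ℤ → ℤ) : Prop where
  mpos : 0 < m
  perX : ∀ k, X (k + m) = X k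
  perh : ∀ k, h (k + m) = h k
  step : ∀ k, (h (k + 1) = h k + 1 ∧ (X (k + 1) = X k ∨ X (k + 1) = X k + 1)) ∨
    (h (k + 1) = h k - 1 ∧ (X (k + 1) = X k ∨ X (k + 1) = X k - 1))
  inj : ∀ j k, X j = X k → h j = h k → (m : ℤ) ∣ j - k

/-- the corner at `k` is normal: at a local maximum of the level the walk goes U then L, at a local minimum D then R -/
def NC (X h : ℤ → ℤ) (k : ℤ) : Prop :=
  (h (k - 1) = h k - 1 → h (k + 1) = h k - 1 → X (k - 1) = X k ∧ X (k + 1) = X k - 1) ∧
  (h (k - 1) = h k + 1 → h (k + 1) = h k + 1 → X (k - 1) = X k ∧ X (k + 1) = X k + 1)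

/-- the `l` steps from time `i` on go up -/
def Ups (h : ℤ → ℤ) (i : ℤ) (l : ℕ) : Prop := ∀ q : ℕ, q < l → h (i + q + 1) = h (i + q) + 1

/-- the `l` steps from time `i` on go down -/
def Downs (h : ℤ → ℤ) (i : ℤ) (l : ℕ) : Prop := ∀ q : ℕ, q < l → h (i + q + 1) = h (i + q) - 1

theorem CW.neg {m : ℕ} {X h : ℤ → ℤ} (H : CW m X h) : CW m (fun k => -X k) (fun k => -h k) where
  mpos := H.mpos
  perX k := by simp only [H.perX]
  perh k := by simp only [H.perh]
  step k := by
    rcases H.step k with ⟨h1, h2 | h2⟩ | ⟨h1, h2 | h2⟩
    · right; constructor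
      · omega
      · left; omega
    · right; constructor
      · omega
      · right; omega
    · left; constructor
      · omega
      · left; omega
    · left; constructor
      · omega
      · right; omega
  inj j k h1 h2 := H.inj j k (by simpa using h1) (by simpa using h2)

theorem NC.neg {X h : ℤ → ℤ} {k : ℤ} (c : NC X h k) : NC (fun k => -X k) (fun k => -h k) k := by
  constructor
  · intro h1 h2
    obtain ⟨h3, h4⟩ := c.2 (by simp only at h1; omega) (by simp only at h2; omega)
    constructor
    · simp only; omega
    · simp only; omega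
  · intro h1 h2
    obtain ⟨h3, h4⟩ := c.1 (by simp only at h1; omega) (by simp only at h2; omega)
    constructor
    · simp only; omega
    · simp only; omega

end Pool.Agent.Helper99.TC
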