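import Pool.Agent.Helper99.TC.Defs
import Pool.Agent.Helper99.TC.Geo

/-!
# Words, blocks, walkers: definitions
-/

set_option autoImplicit false

namespace Pool.Agent.Helper99.TC

/-- a bit as an integer -/
def bit (b : Bool) : ℤ := if b then 1 else 0

/-- the number of `true` -/
def cnt (u : List Bool) : ℤ := (u.map bit).sum

/-- the north-east path with the steps `u` (true = R, false = U) -/
def ne (u : List Bool) : List Step := u.map (fun b => if b then Step.R else Step.U)

/-- the north-east path with the steps `u`, run through backwards (from its upper to its lower end) -/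
def sw (u : List Bool) : List Step := u.reverse.map (fun b => if b then Step.L else Step.D)

/-- x-coordinate of the k-th vertex, extended periodically -/
def Xw (w : List Step) (k : ℤ) : ℤ := (pos w (k % w.length).toNat).1

/-- level (x + y) of the k-th vertex, extended periodically -/
def lev (w : List Step) (k : ℤ) : ℤ :=
  (pos w (k % w.length).toNat).1 + (pos w (k % w.length).toNat).2

/-- two walkers at distance `d` (left walker `u`, right walker `v`) which meet exactly when the lists end -/
def Pair : ℤ → List Bool → List Bool → Prop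
  | d, [], [] => d = 0
  | d, a :: u, b :: v => 0 < d ∧ Pair (d - bit a + bit b) u v
  | _, _, _ => False

/-- four walkers with distances `d1, d2, d3`: the two left ones meet when `u1`, `u2` end, the two right ones when `u3`, `u4` end, the middle ones
do not meet as long as all four walk -/
def Quad : ℤ → ℤ → ℤ → List Bool → List Bool → List Bool → List Bool → Prop
  | d1, d2, d3, a :: u1, b :: u2, c :: u3, e :: u4 => 0 < d1 ∧ 0 < d2 ∧ 0 < d3 ∧
      Quad (d1 - bit a + bit b) (d2 - bit b + bit c) (d3 - bit c + bit e) u1 u2 u3 u4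
  | d1, _, d3, [], [], u3, u4 => d1 = 0 ∧ Pair d3 u3 u4
  | d1, _, d3, a :: u1, b :: u2, [], [] => d3 = 0 ∧ Pair d1 (a :: u1) (b :: u2)
  | _, _, _, _, _, _, _ => False

/-- number of pairs with given distance and length, by recursion -/
def pairN : ℕ → ℤ → ℕ
  | 0, d => if d = 0 then 1 else 0
  | n + 1, d => if 0 < d then pairN n (d - 1) + 2 * pairN n d + pairN n (d + 1) else 0

/-- number of quadruples with given distances and total length (of `u1` and `u3`), by recursion -/
def quadN : ℕ → ℤ → ℤ → ℤ → ℕ
  | 0, d1, _, d3 => if d1 = 0 ∧ d3 = 0 then 1 else 0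
  | 1, d1, _, d3 => if d1 = 0 then pairN 1 d3 else if d3 = 0 then pairN 1 d1 else 0
  | n + 2, d1, d2, d3 => if d1 = 0 then pairN (n + 2) d3 else if d3 = 0 then pairN (n + 2) d1 else
      if 0 < d1 ∧ 0 < d2 ∧ 0 < d3 then
        ∑ a : Bool, ∑ b : Bool, ∑ c : Bool, ∑ e : Bool,
          quadN n (d1 - bit a + bit b) (d2 - bit b + bit c) (d3 - bit c + bit e)
      else 0

/-- the number of three-choice polygons of perimeter `2 n` which begin with U and end with L (see `LUCard.lean`) -/
def luN (n : ℕ) : ℕ :=
  ∑ i ∈ Finset.Icc 1 n, ∑ j ∈ Finset.Icc 1 n, ∑ l ∈ Finset.range (n - 1),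
    pairN l ((i : ℤ) + j) * ∑ a : Bool, ∑ b : Bool, quadN (n - 2 - l) (i - bit a) 1 (j + bit b - 1)

/-- the word of a three-choice polygon beginning with U and ending with L, from its data -/
def luWord (r1 r2 : List Bool) (p q : Bool) (u1 u2 u3 u4 : List Bool) : List Step :=
  ne (false :: u2) ++ sw (r2.reverse ++ p :: u1) ++ ne (r1.reverse ++ q :: u4) ++ sw (true :: u3)

/-- the data of a three-choice polygon beginning with U and ending with L -/
def LUData (i j : ℕ) (r1 r2 : List Bool) (p q : Bool) (u1 u2 u3 u4 : List Bool) : Prop :=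
  1 ≤ i ∧ 1 ≤ j ∧ Pair ((i : ℤ) + j) r1 r2 ∧ Quad (i - bit p) 1 (j + bit q - 1) u1 u2 u3 u4

end Pool.Agent.Helper99.TC
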