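import Mathlib
import Pool.Agent.Helper99.TC.Words

/-!
# Power series: definitions

`th` is the operator x d/dx, `al` the series of α = ∑ Catalan(n) x^n (n ≥ 1), `be` = √(1 - 4x), `bz` binomial coefficients with an integer lower index,
`g t s = ∑_m x^m binom(t + 2 m, s + m)`, `gs a f = ∑_j a^j f_j` for a series `a` without constant term.
-/

set_option autoImplicit false

open PowerSeries

namespace Pool.Agent.Helper99.TC

/-- x d/dx -/
noncomputable def th (f : ℚ⟦X⟧) : ℚ⟦X⟧ := PowerSeries.mk fun n => (n : ℚ) * coeff n f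

/-- the generating function of pairs at distance `d` -/
noncomputable def pairS (d : ℤ) : ℚ⟦X⟧ := PowerSeries.mk fun n => (pairN n d : ℚ)

/-- the generating function of quadruples -/
noncomputable def quadS (d1 d2 d3 : ℤ) : ℚ⟦X⟧ := PowerSeries.mk fun n => (quadN n d1 d2 d3 : ℚ)

/-- α -/
noncomputable def al : ℚ⟦X⟧ := pairS 1

/-- √(1 - 4 x) -/
noncomputable def be : ℚ⟦X⟧ := 1 - 2 * X - 2 * X * al

/-- binomial coefficient with integer lower index -/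
def bz (t : ℕ) (s : ℤ) : ℚ := if 0 ≤ s then (t.choose s.toNat : ℚ) else 0

/-- the same as a constant power series -/
noncomputable def cb (t : ℕ) (s : ℤ) : ℚ⟦X⟧ := PowerSeries.C (bz t s)

/-- ∑_m x^m binom(t + 2 m, s + m) -/
noncomputable def g (t : ℕ) (s : ℤ) : ℚ⟦X⟧ := PowerSeries.mk fun m => bz (t + 2 * m) (s + m)

/-- ∑_j a^j f_j, for `X ∣ a` -/
noncomputable def gs (a : ℚ⟦X⟧) (f : ℕ → ℚ⟦X⟧) : ℚ⟦X⟧ :=
  PowerSeries.mk fun n => coeff n (∑ j ∈ Finset.range (n + 1), a ^ j * f j)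

/-- `g + x d/dx g` -/
noncomputable def G (t : ℕ) (s : ℤ) : ℚ⟦X⟧ := g t s + th (g t s)

/-- the row vector (g, g₁, b, b₁) at (t, s) -/
noncomputable def rho (t : ℕ) (s : ℤ) : Fin 4 → ℚ⟦X⟧ :=
  ![g t s, g t (s - 1), cb t s, cb t (s - 1)]

/-- the row vector (G, G₁, g, g₁) at (t, s) -/
noncomputable def Gam (t : ℕ) (s : ℤ) : Fin 4 → ℚ⟦X⟧ :=
  ![G t s, G t (s - 1), g t s, g t (s - 1)]

/-- the 4 × 4 determinant with the rows `rho t (s - y l)` -/
noncomputable def Dt (t : ℕ) (s : ℤ) (y : Fin 4 → ℤ) : ℚ⟦X⟧ :=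
  Matrix.det (Matrix.of fun l : Fin 4 => rho t (s - y l))

/-- the generating function `H y = ∑_t x^(2t) ∑_s Dt t s y` -/
noncomputable def H (y : Fin 4 → ℤ) : ℚ⟦X⟧ := gs (X ^ 2) (fun t => ∑ᶠ s : ℤ, Dt t s y)

/-- the Gram determinant -/
noncomputable def detN (t : ℕ) (s : ℤ) : ℚ⟦X⟧ :=
  Matrix.det (Matrix.of ![Gam t s, Gam t (s - 1), rho t s, rho t (s - 1)])

/-- ∑_t x^(2t) ∑_s detN t s -/
noncomputable def Dser : ℚ⟦X⟧ :=
  gs (X ^ 2) (fun t => ∑ s ∈ Finset.Icc (0 : ℤ) (t + 2), detN t s)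

/-- generating function of the numbers `luN` -/
noncomputable def Nser : ℚ⟦X⟧ := PowerSeries.mk fun n => (luN n : ℚ)

/-- generating function of three-choice polygons (perimeter at least 4) -/
noncomputable def Tser : ℚ⟦X⟧ := PowerSeries.mk fun n => if 2 ≤ n then (tc n : ℚ) else 0

/-- I = ∑_t x^(2t) ∑_s binom(t,s)^3 g(t,s) -/
noncomputable def Iser : ℚ⟦X⟧ :=
  gs (X ^ 2) (fun t => ∑ s ∈ Finset.Icc (0 : ℤ) t, g t s * cb t s ^ 3)

/-- the sum of the fourth powers of the binomial coefficients -/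
def fr4 (t : ℕ) : ℕ := ∑ s ∈ Finset.range (t + 1), t.choose s ^ 4

/-- F = ∑_t x^(2t) ∑_s binom(t,s)^4 -/
noncomputable def Fser : ℚ⟦X⟧ := gs (X ^ 2) (fun t => (fr4 t : ℚ⟦X⟧))

/-- V = (1 - 4x) θT + 4x T -/
noncomputable def Vser : ℚ⟦X⟧ := (1 - 4 * X) * th Tser + 4 * X * Tser

end Pool.Agent.Helper99.TC
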