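import Pool.Agent.Helper99.TC.Cross

/-!
# TC-5: a combinatorial lemma on meanders

Arcs: `q`-th arc joins `z q` and `z (q+1)`, `0 ≤ q < r`, `r` odd, `z r = z 0` (the root). Even arcs (above) go to the left, odd arcs (below) go to the right.
Arcs of the same parity do not interleave, except that nothing is asked for the pair (first arc, last arc), which share the root.
Claim: `r ≥ 5` is impossible.

Proof. Put `z 0 = ρ`. Step 1: every arc contains `ρ` in its closed interval. Suppose not, and take an arc `q` with `ρ ∉ [min, max]` and `max - min` minimal. Then `0 < q < r - 1`.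
The neighbouring arcs `q - 1` and `q + 1` have the same parity as each other, and they are not the pair (0, r - 1) because `r ≥ 5`. Let `lo < hi` be the ends of arc `q`. If `q` is odd: `lo = z q`, `hi = z (q+1)`;
arc `q + 1` goes from `hi` to `z (q+2) < hi`, arc `q - 1` goes from `z (q-1) > lo` to `lo`. Not interleaved, and the four points are distinct, so `lo < z (q+2)` or `z (q-1) < hi`; in each case a neighbouring arc lies strictly
inside `[lo, hi]`, is shorter, and does not contain `ρ`: contradiction (if `z (q+2) = ρ` or `z (q - 1) = ρ` then `ρ` would lie in `[lo, hi]`). If `q` is even: the same with left and right exchanged.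
Step 2: so `z q < ρ` for odd `q < r` and `z q > ρ` for even `0 < q < r`. Let `2 j + 2` (`2 j + 2 ≤ r - 1`) be the even index with the largest `z`. The odd arcs all contain `ρ` and do not interleave, so they are nested, and arc `2 j + 1` is the outermost:
`z (2 j + 1)` is the smallest of the `z q`. Then arcs `2 j` and `2 j + 2` interleave: arc `2 j` joins `z (2 j)` (which is `≥ ρ` and `< z (2 j + 2)`) and the minimum `z (2 j + 1)`; arc `2 j + 2` joins the maximum `z (2 j + 2)` and `z (2 j + 3)`,
which is `≤ ρ` and larger than `z (2 j + 1)`. One has `z (2 j + 3) < z (2 j)`: `z (2 j + 3) ≤ ρ ≤ z (2 j)`, and both equal to `ρ` only if `2 j + 3 = r` and `2 j = 0`, impossible for `r ≥ 5`. So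
`z (2j+1) < z (2j+3) < z (2j) < z (2j+2)`: interleaved, and it is not the pair (0, r - 1) as `r ≥ 5`: contradiction. (Checked by brute force for r = 5, 7, 9.)
-/

set_option autoImplicit false

namespace Pool.Agent.Helper99.TC

theorem meander (r : ℕ) (hr : Odd r) (h5 : 5 ≤ r) (z : ℕ → ℤ) (hz : z r = z 0)
    (hinj : ∀ p q : ℕ, p < q → q < r → z p ≠ z q)
    (hup : ∀ q : ℕ, q < r → Even q → z (q + 1) < z q)
    (hdn : ∀ q : ℕ, q < r → Odd q → z q < z (q + 1))
    (hcr : ∀ p q : ℕ, p < q → q < r → (Even p ↔ Even q) → ¬ (p = 0 ∧ q = r - 1) →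
      ¬ Inter (z p) (z (p + 1)) (z q) (z (q + 1))) : False := by
  have hne : ∀ a b : ℕ, a < b → b ≤ r → ¬ (a = 0 ∧ b = r) → z a ≠ z b := by
    intro a b hab hb hex
    rcases Nat.lt_or_ge b r with h | h
    · exact hinj a b hab h
    · have hbr : b = r := by omega
      have ha : 0 < a := by omega
      have h1 := hinj 0 a ha (by omega)
      rw [hbr, hz]
      exact fun h2 => h1 h2.symm
  have step1 : ∀ n : ℕ, ∀ q < r, (z (q + 1) - z q).natAbs = n →
      min (z q) (z (q + 1)) ≤ z 0 ∧ z 0 ≤ max (z q) (z (q + 1)) := by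
    intro n
    induction n using Nat.strong_induction_on with
    | _ n ih =>
      intro q hq hn
      by_contra hcon
      have hq0 : q ≠ 0 := by
        rintro rfl
        apply hcon
        omega
      have hqr : q + 1 ≠ r := by
        intro h
        apply hcon
        rw [h, hz]
        omega
      obtain ⟨p, rfl⟩ : ∃ p, q = p + 1 := ⟨q - 1, by omega⟩
      have ihp : (z (p + 1) - z p).natAbs < n →
          min (z p) (z (p + 1)) ≤ z 0 ∧ z 0 ≤ max (z p) (z (p + 1)) :=
        fun h => ih _ h p (by omega) rfl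
      have ihq : (z (p + 3) - z (p + 2)).natAbs < n →
          min (z (p + 2)) (z (p + 3)) ≤ z 0 ∧ z 0 ≤ max (z (p + 2)) (z (p + 3)) :=
        fun h => ih _ h (p + 2) (by omega) rfl
      have hc := hcr p (p + 2) (by omega) (by omega)
        (by constructor <;> intro h <;> revert h <;> simp [Nat.even_add]) (by omega)
      have n1 := hne p (p + 2) (by omega) (by omega) (by omega)
      have n2 := hne (p + 1) (p + 3) (by omega) (by omega) (by omega)
      unfold Inter at hc
      rcases Nat.even_or_odd p with hp | hp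
      · have h1 := hup p (by omega) hp
        have h2 := hdn (p + 1) (by omega) hp.add_one
        have h3 := hup (p + 2) (by omega) (by simpa [Nat.even_add] using hp)
        have e1 : p + 1 + 1 = p + 2 := rfl
        have e2 : p + 2 + 1 = p + 3 := rfl
        rw [e1] at h2 hn hcon
        rw [e2] at h3 hc
        omega
      · have h1 := hdn p (by omega) hp
        have h2 := hup (p + 1) (by omega) hp.add_one
        have h3 := hdn (p + 2) (by omega) (by
          rw [Nat.odd_add]
          simpa using hp)
        have e1 : p + 1 + 1 = p + 2 := rfl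
        have e2 : p + 2 + 1 = p + 3 := rfl
        rw [e1] at h2 hn hcon
        rw [e2] at h3 hc
        omega
  have hodd : ∀ q < r, Odd q → z q < z 0 := by
    intro q hq ho
    have h1 := step1 _ q hq rfl
    have h2 := hdn q hq ho
    have h3 : 0 < q := ho.pos
    have h4 := hne 0 q h3 hq.le (by omega)
    omega
  have hev : ∀ q < r, Even q → 0 < q → z 0 < z q := by
    intro q hq ho h3
    have h1 := step1 _ q hq rfl
    have h2 := hup q hq ho
    have h4 := hne 0 q h3 hq.le (by omega)
    omega
  -- the even index with the largest z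
  obtain ⟨M, hM, hmax⟩ := Finset.exists_max_image
    ((Finset.range r).filter (fun q => Even q ∧ 0 < q)) z
    ⟨2, by rw [Finset.mem_filter, Finset.mem_range]; exact ⟨by omega, even_two, by norm_num⟩⟩
  rw [Finset.mem_filter, Finset.mem_range] at hM
  obtain ⟨hMr, hMe, hM0⟩ := hM
  have hmax' : ∀ q < r, Even q → 0 < q → z q ≤ z M := by
    intro q hq he h0
    exact hmax q (by rw [Finset.mem_filter, Finset.mem_range]; exact ⟨hq, he, h0⟩)
  obtain ⟨k, hk⟩ := hMe
  obtain ⟨j, rfl⟩ : ∃ j, M = 2 * j + 2 := ⟨k - 1, by omega⟩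
  obtain ⟨c, hc⟩ := hr
  have hmin : ∀ q < r, Odd q → q ≠ 2 * j + 1 → z (2 * j + 1) < z q := by
    intro q hq ho hqj
    obtain ⟨i, rfl⟩ := ho
    have h1 := hodd (2 * i + 1) hq ⟨i, rfl⟩
    have h2 := hodd (2 * j + 1) (by omega) ⟨j, rfl⟩
    have h3 := hev (2 * i + 2) (by omega) ⟨i + 1, by omega⟩ (by omega)
    have h4 := hmax' (2 * i + 2) (by omega) ⟨i + 1, by omega⟩ (by omega)
    have e1 : 2 * i + 1 + 1 = 2 * i + 2 := rfl
    have e2 : 2 * j + 1 + 1 = 2 * j + 2 := rfl
    rcases Nat.lt_or_gt_of_ne hqj with h5 | h5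
    · have h6 := hcr (2 * i + 1) (2 * j + 1) h5 (by omega)
        (by constructor <;> intro h <;> revert h <;> simp [Nat.even_add]) (by omega)
      have h7 := hne (2 * i + 1) (2 * j + 1) h5 (by omega) (by omega)
      have h8 := hne (2 * i + 2) (2 * j + 2) (by omega) (by omega) (by omega)
      rw [e1, e2] at h6
      unfold Inter at h6
      omega
    · have h6 := hcr (2 * j + 1) (2 * i + 1) h5 (by omega)
        (by constructor <;> intro h <;> revert h <;> simp [Nat.even_add]) (by omega)
      have h7 := hne (2 * j + 1) (2 * i + 1) h5 (by omega) (by omega)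
      have h8 := hne (2 * j + 2) (2 * i + 2) (by omega) (by omega) (by omega)
      rw [e1, e2] at h6
      unfold Inter at h6
      omega
  have hfin := hcr (2 * j) (2 * j + 2) (by omega) (by omega)
    (by constructor <;> intro h <;> revert h <;> simp [Nat.even_add]) (by omega)
  have g1 := hodd (2 * j + 1) (by omega) ⟨j, rfl⟩
  have g2 := hev (2 * j + 2) (by omega) ⟨j + 1, by omega⟩ (by omega)
  have e1 : 2 * j + 2 + 1 = 2 * j + 3 := rfl
  rw [e1] at hfin
  have g3 : z (2 * j + 1) < z (2 * j + 3) ∧ z (2 * j + 3) ≤ z 0 ∧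
      (2 * j + 3 ≠ r → z (2 * j + 3) < z 0) := by
    rcases Nat.lt_or_ge (2 * j + 3) r with h | h
    · have h1 := hmin (2 * j + 3) h ⟨j + 1, by omega⟩ (by omega)
      have h2 := hodd (2 * j + 3) h ⟨j + 1, by omega⟩
      exact ⟨h1, h2.le, fun _ => h2⟩
    · have h1 : 2 * j + 3 = r := by omega
      rw [h1, hz]
      exact ⟨g1, le_refl _, fun h2 => absurd rfl h2⟩
  have g4 : z 0 ≤ z (2 * j) ∧ z (2 * j) < z (2 * j + 2) ∧ (2 * j ≠ 0 → z 0 < z (2 * j)) := by
    rcases Nat.eq_zero_or_pos j with h | h
    · subst h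
      exact ⟨le_refl _, g2, fun h2 => absurd rfl h2⟩
    · have h1 := hev (2 * j) (by omega) ⟨j, by omega⟩ (by omega)
      have h2 := hmax' (2 * j) (by omega) ⟨j, by omega⟩ (by omega)
      have h3 := hne (2 * j) (2 * j + 2) (by omega) (by omega) (by omega)
      exact ⟨h1.le, lt_of_le_of_ne h2 h3, fun _ => h1⟩
  obtain ⟨g5, g6, g7⟩ := g3
  obtain ⟨g8, g9, g10⟩ := g4
  have g11 : z (2 * j + 3) < z (2 * j) := by
    rcases eq_or_ne (2 * j + 3) r with h | h
    · exact lt_of_le_of_lt g6 (g10 (by omega))
    · exact lt_of_lt_of_le (g7 h) g8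
  apply hfin
  unfold Inter
  omega

end Pool.Agent.Helper99.TC
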