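import Pool.Agent.Helper99.TC.Decomp
import Pool.Agent.Helper99.TC.Meander

/-!
# TC-7: the shape of a closed walk with one anomalous corner (L then U) at the root

It consists of a peak of height `a`, a valley of depth `l` and a peak of height `d` relative to the level of the root.

Proof. `decomp` gives `r` odd and heights. Put `z q = X (tau l q)`; `z r = X m = X 0`. For a peak with a normal top `X (start) > X (end)`: the up strand is to the right of the down strand just below the top (equal to `X top` and `X top - 1`) and they are disjoint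
(their times differ by less than `m`, except that for `r = 1` both ends are the root), so the order is kept down to the base; for valleys `X (start) < X (end)`. `r = 1` would give `m = 2 l 0` and `X m < X 0` (for `l 0 = 1` directly from the corner; in general the order
at level one above the base is strict by disjointness and it gives `≤` at the base; then use `X m = X 0` together with `x1 : X (-1) = X 0 + 1`, `x2 : X 1 = X 0`, i.e. at level one the up strand is at `X 0` and the down strand at `X 0 + 1`, the wrong order). `r ≥ 5` is impossible by `meander`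
(its crossing hypothesis from `cross_up`, `cross_down`: the times of two different arcs of the same parity are disjoint, also mod `m` unless it is the first and the last arc). So `r = 3`.
-/

set_option autoImplicit false

namespace Pool.Agent.Helper99.TC

/-- below a normal top the down strand is strictly to the left of the up strand -/
private theorem peak_order {m : ℕ} {X h : ℤ → ℤ} (H : CW m X h) (i : ℤ) (a : ℕ)
    (u : Ups h i a) (d : Downs h (i + a) a) (hc : NC X h (i + a)) :
    ∀ n : ℕ, 1 ≤ n → n ≤ a → 2 * n < m →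
      X (i + a + n) < X (i + a - n) ∧ h (i + a + n) = h (i + a) - n ∧
        h (i + a - n) = h (i + a) - n := by
  intro n hn
  induction n, hn using Nat.le_induction with
  | base =>
    intro h1 h2
    have e1 := u (a - 1) (by omega)
    have e2 := d 0 (by omega)
    have r1 : i + ((a - 1 : ℕ) : ℤ) + 1 = i + a := by push_cast [Nat.cast_sub h1]; ring
    have r2 : i + ((a - 1 : ℕ) : ℤ) = i + a - 1 := by push_cast [Nat.cast_sub h1]; ring
    have r3 : i + (a : ℤ) + ((0 : ℕ) : ℤ) + 1 = i + a + 1 := by push_cast; ring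
    have r4 : i + (a : ℤ) + ((0 : ℕ) : ℤ) = i + a := by push_cast; ring
    rw [r1, r2] at e1
    rw [r3, r4] at e2
    obtain ⟨g1, g2⟩ := hc.1 (by omega) (by omega)
    push_cast
    refine ⟨by omega, by omega, by omega⟩
  | succ n hn ih =>
    intro h1 h2
    obtain ⟨i1, i2, i3⟩ := ih (by omega) (by omega)
    have e1 := u (a - (n + 1)) (by omega)
    have e2 := d n (by omega)
    have r1 : i + ((a - (n + 1) : ℕ) : ℤ) + 1 = i + a - n := by
      push_cast [Nat.cast_sub h1]; ring
    have r2 : i + ((a - (n + 1) : ℕ) : ℤ) = i + a - ((n + 1 : ℕ) : ℤ) := by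
      push_cast [Nat.cast_sub h1]; ring
    rw [r1, r2] at e1
    have r3 : i + (a : ℤ) + ((n + 1 : ℕ) : ℤ) = i + a + n + 1 := by push_cast; ring
    have s1 := H.step (i + a - ((n + 1 : ℕ) : ℤ))
    have s2 := H.step (i + a + n)
    have r4 : i + (a : ℤ) - ((n + 1 : ℕ) : ℤ) + 1 = i + a - n := by push_cast; ring
    rw [r4] at s1
    rw [r3]
    have k1 : h (i + a + n + 1) = h (i + a) - ((n + 1 : ℕ) : ℤ) := by
      push_cast; omega
    have k2 : h (i + a - ((n + 1 : ℕ) : ℤ)) = h (i + a) - ((n + 1 : ℕ) : ℤ) := by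
      push_cast at e1 ⊢; omega
    refine ⟨?_, k1, k2⟩
    have hne : X (i + a + n + 1) ≠ X (i + a - ((n + 1 : ℕ) : ℤ)) := by
      intro he
      have hdv := H.inj _ _ he (by rw [k1, k2])
      have hle := Int.le_of_dvd (by push_cast; omega) hdv
      push_cast at hle
      omega
    have s1' : X (i + a - n) = X (i + a - ((n + 1 : ℕ) : ℤ)) ∨
        X (i + a - n) = X (i + a - ((n + 1 : ℕ) : ℤ)) + 1 := by
      rcases s1 with ⟨_, s⟩ | ⟨s, _⟩
      · exact s
      · exfalso; omega
    have s2' : X (i + a + n + 1) = X (i + a + n) ∨ X (i + a + n + 1) = X (i + a + n) - 1 := by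
      rcases s2 with ⟨s, _⟩ | ⟨_, s⟩
      · exfalso; omega
      · exact s
    rcases s1' with s1' | s1' <;> rcases s2' with s2' | s2' <;> omega

private theorem peak_lt {m : ℕ} {X h : ℤ → ℤ} (H : CW m X h) (i : ℤ) (a : ℕ) (ha : 1 ≤ a)
    (u : Ups h i a) (d : Downs h (i + a) a) (hc : NC X h (i + a)) (hm : 2 * a < m) :
    X (i + 2 * a) < X i := by
  have := (peak_order H i a u d hc a ha le_rfl hm).1
  have r1 : i + (a : ℤ) + a = i + 2 * a := by ring
  have r2 : i + (a : ℤ) - a = i := by ring
  rwa [r1, r2] at this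

private theorem valley_lt {m : ℕ} {X h : ℤ → ℤ} (H : CW m X h) (i : ℤ) (a : ℕ) (ha : 1 ≤ a)
    (d : Downs h i a) (u : Ups h (i + a) a) (hc : NC X h (i + a)) (hm : 2 * a < m) :
    X i < X (i + 2 * a) := by
  have := peak_lt H.neg i a ha (fun q hq => by have := d q hq; simp only; omega)
    (fun q hq => by have := u q hq; simp only; omega) hc.neg hm
  omega

private theorem tau_succ (l : ℕ → ℕ) (q : ℕ) : tau l (q + 1) = tau l q + 2 * l q := by
  unfold tau
  rw [Finset.sum_range_succ]
  ring

private theorem tau_zero (l : ℕ → ℕ) : tau l 0 = 0 := by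
  unfold tau
  simp

private theorem tau_mono (l : ℕ → ℕ) {p q : ℕ} (hpq : p ≤ q) : tau l p ≤ tau l q := by
  induction q, hpq using Nat.le_induction with
  | base => exact le_rfl
  | succ q _ ih => rw [tau_succ]; omega

private theorem tau_lt (l : ℕ → ℕ) {r p q : ℕ} (hl : ∀ q < r, 1 ≤ l q) (hpq : p < q)
    (hq : q ≤ r) : tau l p < tau l q := by
  have h1 : tau l (p + 1) ≤ tau l q := tau_mono l hpq
  have h2 := hl p (by omega)
  rw [tau_succ] at h1
  omega

private theorem not_dvd_aux {m : ℕ} {k : ℤ} (h0 : 0 < k) (h1 : k < m) : ¬ (m : ℤ) ∣ k := by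
  intro hd
  have := Int.le_of_dvd h0 hd
  omega

private theorem not_dvd_aux' {m : ℕ} {k : ℤ} (h0 : k < 0) (h1 : -(m : ℤ) < k) :
    ¬ (m : ℤ) ∣ k := by
  intro hd
  have := Int.le_of_dvd (by omega) ((dvd_neg (a := (m : ℤ)) (b := k)).2 hd)
  omega

private theorem ups_append {h : ℤ → ℤ} {i : ℤ} {a b : ℕ} (h1 : Ups h i a)
    (h2 : Ups h (i + a) b) : Ups h i (a + b) := by
  intro q hq
  by_cases hqa : q < a
  · exact h1 q hqa
  · have := h2 (q - a) (by omega)
    have r : i + (a : ℤ) + ((q - a : ℕ) : ℤ) = i + q := by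
      push_cast [Nat.cast_sub (not_lt.1 hqa)]; ring
    rwa [r] at this

private theorem downs_append {h : ℤ → ℤ} {i : ℤ} {a b : ℕ} (h1 : Downs h i a)
    (h2 : Downs h (i + a) b) : Downs h i (a + b) := by
  intro q hq
  by_cases hqa : q < a
  · exact h1 q hqa
  · have := h2 (q - a) (by omega)
    have r : i + (a : ℤ) + ((q - a : ℕ) : ℤ) = i + q := by
      push_cast [Nat.cast_sub (not_lt.1 hqa)]; ring
    rwa [r] at this

theorem anom_struct {m : ℕ} {X h : ℤ → ℤ} (H : CW m X h) (c : ∀ k : ℤ, ¬ (m : ℤ) ∣ k → NC X h k)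
    (h1 : h (-1) = h 0 + 1) (x1 : X (-1) = X 0 + 1) (h2 : h 1 = h 0 + 1) (x2 : X 1 = X 0) :
    ∃ a l d : ℕ, 1 ≤ a ∧ 1 ≤ l ∧ 1 ≤ d ∧ m = 2 * a + 2 * l + 2 * d ∧ Ups h 0 a ∧
      Downs h a (a + l) ∧ Ups h (2 * a + l) (l + d) ∧ Downs h (2 * a + 2 * l + d) d := by
  obtain ⟨r, l, hodd, hm, hl, hh, hev, hod⟩ := decomp H c h1 h2
  -- the corner in the middle of an excursion is normal
  have hmid : ∀ q < r, NC X h ((tau l q : ℤ) + l q) := by
    intro q hq
    apply c
    have k1 := hl q hq
    have k2 : tau l (q + 1) ≤ tau l r := tau_mono l hq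
    rw [tau_succ] at k2
    apply not_dvd_aux
    · omega
    · omega
  by_cases hr1 : r = 1
  · exfalso
    subst hr1
    have k0 := hl 0 (by omega)
    have km : m = 2 * l 0 := by rw [hm, tau_succ, tau_zero]; ring
    obtain ⟨e1, e2⟩ := hev 0 (by omega) (by simp)
    have e3 := hmid 0 (by omega)
    rw [tau_zero] at e1 e2 e3
    have p1 : X (-1) = X (2 * (l 0 : ℤ) - 1) := by
      have k1 := H.perX (-1)
      have k2 : (-1 : ℤ) + (m : ℤ) = 2 * (l 0 : ℤ) - 1 := by omega
      rw [k2] at k1
      exact k1.symm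
    rcases Nat.lt_or_ge 1 (l 0) with k1 | k1
    · have := (peak_order H _ _ e1 e2 e3 (l 0 - 1) (by omega) (by omega) (by omega)).1
      have r1 : ((0 : ℕ) : ℤ) + (l 0 : ℤ) + ((l 0 - 1 : ℕ) : ℤ) = 2 * (l 0 : ℤ) - 1 := by
        push_cast [Nat.cast_sub k0]; ring
      have r2 : ((0 : ℕ) : ℤ) + (l 0 : ℤ) - ((l 0 - 1 : ℕ) : ℤ) = 1 := by
        push_cast [Nat.cast_sub k0]; ring
      rw [r1, r2] at this
      omega
    · have k2 : l 0 = 1 := by omega
      rw [k2] at p1
      norm_num at p1
      omega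
  by_cases hr3 : r = 3
  · subst hr3
    have t1 : tau l 1 = 2 * l 0 := by rw [tau_succ, tau_zero]; ring
    have t2 : tau l 2 = 2 * l 0 + 2 * l 1 := by rw [tau_succ, t1]
    have t3 : tau l 3 = 2 * l 0 + 2 * l 1 + 2 * l 2 := by rw [tau_succ, t2]
    obtain ⟨a1, a2⟩ := hev 0 (by omega) (by simp)
    obtain ⟨b1, b2⟩ := hod 1 (by omega) (by simp)
    obtain ⟨c1, c2⟩ := hev 2 (by omega) (by simp)
    rw [tau_zero] at a1 a2
    rw [t1] at b1 b2
    rw [t2] at c1 c2
    refine ⟨l 0, l 1, l 2, hl 0 (by omega), hl 1 (by omega), hl 2 (by omega), by rw [hm, t3],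
      by simpa using a1, ?_, ?_, ?_⟩
    · apply downs_append
      · simpa using a2
      · have r1 : (l 0 : ℤ) + (l 0 : ℤ) = ((2 * l 0 : ℕ) : ℤ) := by push_cast; ring
        rw [r1]
        exact b1
    · apply ups_append
      · have r1 : (2 : ℤ) * (l 0 : ℤ) + (l 1 : ℤ) = ((2 * l 0 : ℕ) : ℤ) + l 1 := by
          push_cast; ring
        rw [r1]
        exact b2
      · have r1 : (2 : ℤ) * (l 0 : ℤ) + (l 1 : ℤ) + (l 1 : ℤ)
            = ((2 * l 0 + 2 * l 1 : ℕ) : ℤ) := by push_cast; ring
        rw [r1]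
        exact c1
    · have r1 : (2 : ℤ) * (l 0 : ℤ) + 2 * (l 1 : ℤ) + (l 2 : ℤ)
            = ((2 * l 0 + 2 * l 1 : ℕ) : ℤ) + l 2 := by push_cast; ring
      rw [r1]
      exact c2
  exfalso
  have h5 : 5 ≤ r := by
    obtain ⟨k, hk⟩ := hodd
    omega
  have hlt : ∀ q < r, 2 * l q < m := by
    intro q hq
    have k1 := hl q hq
    have k2 : tau l (q + 1) ≤ tau l r := tau_mono l hq
    rw [tau_succ] at k2
    rcases Nat.eq_zero_or_pos q with k3 | k3
    · subst k3
      have k4 : tau l (0 + 1) < tau l r := tau_lt l hl (by omega) le_rfl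
      rw [tau_succ, tau_zero] at k4
      omega
    · have k4 : tau l 0 < tau l q := tau_lt l hl k3 hq.le
      omega
  have hend : ∀ q : ℕ, ((tau l (q + 1) : ℕ) : ℤ) = (tau l q : ℤ) + 2 * (l q : ℤ) := by
    intro q
    rw [tau_succ]
    push_cast
    ring
  refine meander r hodd h5 (fun q => X (tau l q)) ?_ ?_ ?_ ?_ ?_
  · have k1 := H.perX 0
    simp only [tau_zero]
    rw [← hm]
    rw [zero_add] at k1
    simpa using k1
  · intro p q hpq hq he
    have k1 := H.inj _ _ he (by rw [hh p (by omega), hh q hq])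
    have k2 := tau_lt l hl hpq hq.le
    have k3 := tau_lt l hl hq le_rfl
    refine not_dvd_aux' ?_ ?_ k1
    · omega
    · omega
  · intro q hq hqe
    obtain ⟨e1, e2⟩ := hev q hq hqe
    have := peak_lt H _ _ (hl q hq) e1 e2 (hmid q hq) (hlt q hq)
    rw [hend]
    exact this
  · intro q hq hqo
    obtain ⟨e1, e2⟩ := hod q hq hqo
    have := valley_lt H _ _ (hl q hq) e1 e2 (hmid q hq) (hlt q hq)
    rw [hend]
    exact this
  · intro p q hpq hq hpar hnot
    have hp1 : p + 1 < q := by
      rcases Nat.lt_or_ge (p + 1) q with k | k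
      · exact k
      · exfalso
        have k2 : q = p + 1 := by omega
        subst k2
        rw [Nat.even_add_one] at hpar
        tauto
    have hd : ∀ u v : ℕ, u ≤ 2 * l p → v ≤ 2 * l q →
        ¬ (m : ℤ) ∣ ((tau l p : ℤ) + u) - ((tau l q : ℤ) + v) := by
      intro u v hu hv
      have k1 : tau l (p + 1) < tau l q := tau_lt l hl hp1 hq.le
      rw [tau_succ] at k1
      have k2 : tau l (q + 1) ≤ tau l r := tau_mono l hq
      have k3 : tau l 0 ≤ tau l p := tau_mono l (Nat.zero_le _)
      have k4 : tau l (q + 1) < tau l r ∨ tau l 0 < tau l p := by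
        by_cases hp0 : p = 0
        · left
          exact tau_lt l hl (by omega) le_rfl
        · right
          exact tau_lt l hl (by omega) (by omega)
      rw [tau_succ] at k2 k4
      rw [tau_zero] at k3 k4
      apply not_dvd_aux'
      · omega
      · omega
    have hlev : h (tau l p : ℤ) = h (tau l q : ℤ) := by
      rw [hh p (by omega), hh q hq]
    rw [hend, hend]
    by_cases hpe : Even p
    · obtain ⟨e1, e2⟩ := hev p (by omega) hpe
      obtain ⟨f1, f2⟩ := hev q hq (hpar.1 hpe)
      exact cross_up H _ _ _ _ hlev e1 e2 f1 f2 hd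
    · have hpo : Odd p := Nat.not_even_iff_odd.1 hpe
      have hqo : Odd q := Nat.not_even_iff_odd.1 (fun k => hpe (hpar.2 k))
      obtain ⟨e1, e2⟩ := hod p (by omega) hpo
      obtain ⟨f1, f2⟩ := hod q hq hqo
      exact cross_down H _ _ _ _ hlev e1 e2 f1 f2 hd

end Pool.Agent.Helper99.TC
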