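import Pool.Agent.Helper99.TC.RecExp
import Pool.Agent.Helper99.TC.AlBe

/-!
# TC-47: the coefficients of β = √(1 - 4x)

From `th_be` (or `be_sq`): `n b_n = 4 (n - 1) b_(n-1) - 2 b_(n-1)` for the coefficients `b_n` of `be`, i.e. for `y n = b_n/4^n`: `y n = (1 - 3/(2n)) y (n-1)`, `D = 2`, `q 0 = (1, 0)`, `q 1 = (-1, 3/2)`, `q 2 = 0`, `P2 = 0`, `∑_j (q j 0 cc i 1 j + q j 1) = 1 - i`. Use `formal_sol` and `rec_exp`.
-/

set_option autoImplicit false

open Filter Asymptotics PowerSeries

namespace Pool.Agent.Helper99.TC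

private theorem be_coeff_rec (n : ℕ) :
    ((n : ℚ) + 1) * coeff (n + 1) be = (4 * n - 2) * coeff n be := by
  have h := congrArg (coeff (n + 1)) th_be
  have e1 : (1 - 4 * X) * th be = th be - X * ((4 : ℚ) • th be) := by
    rw [smul_eq_C_mul]
    have : (4 : ℚ⟦X⟧) = PowerSeries.C (4 : ℚ) := (map_ofNat (PowerSeries.C (R := ℚ)) 4).symm
    rw [this]
    ring
  have e2 : -2 * X * be = X * ((-2 : ℚ) • be) := by
    rw [smul_eq_C_mul]
    have : (-2 : ℚ⟦X⟧) = PowerSeries.C (-2 : ℚ) := by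
      rw [map_neg, map_ofNat]
    rw [this]
    ring
  rw [e1, e2, map_sub, coeff_succ_X_mul, coeff_succ_X_mul, map_smul, map_smul] at h
  simp only [th, coeff_mk, smul_eq_mul] at h
  push_cast at h
  linear_combination h

private def qb (j d : ℕ) : ℚ :=
  if j = 0 then (if d = 0 then 1 else 0)
  else if j = 1 then (if d = 0 then -1 else if d = 1 then 3 / 2 else 0) else 0

private theorem cc_one (i : ℕ) : cc i 1 = i + 1 / 2 := by
  simp [cc]

theorem be_exp : ∃ B : ℕ → ℝ,
    IsAE (fun n => ((coeff n be : ℚ) : ℝ) / 4 ^ n) (fun _ => 0) B (fun _ => 0) := by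
  obtain ⟨E, hE0, hE1, hE⟩ := formal_sol 3 2 le_rfl qb
    (by simp [Finset.sum_range_succ, qb])
    (by simp [Finset.sum_range_succ, qb, cc_one]; norm_num)
    (by
      intro i hi
      have h2 : (2 : ℚ) ≤ i := by exact_mod_cast hi
      simp only [Finset.sum_range_succ, qb, cc_one, Finset.sum_range_zero]
      norm_num
      intro h
      linarith)
  obtain ⟨c, hc, _⟩ := rec_exp 2 le_rfl qb 0 (by norm_num)
    (fun n => ((coeff n be : ℚ) : ℝ) / 4 ^ n) (fun n => 1 - 3 / 2 / (n : ℝ)) (fun _ => 0)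
    (by
      have h : Tendsto (fun n : ℕ => (3 / 2 : ℝ) / (n : ℝ)) atTop (nhds 0) :=
        tendsto_const_div_atTop_nhds_zero_nat (3 / 2)
      have h2 := (tendsto_const_nhds (x := (1 : ℝ)) (f := (atTop : Filter ℕ))).sub h
      simpa using h2)
    tendsto_const_nhds
    (by
      intro s
      filter_upwards with n
      simp only [Lop, Finset.sum_range_succ, qb, Finset.sum_range_zero]
      norm_num
      ring)
    (by
      filter_upwards [eventually_ge_atTop 1] with n hn
      obtain ⟨k, rfl⟩ : ∃ k, n = k + 1 := ⟨n - 1, by omega⟩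
      have h := be_coeff_rec k
      have h' : ((k : ℝ) + 1) * ((coeff (k + 1) be : ℚ) : ℝ)
          = (4 * k - 2) * ((coeff k be : ℚ) : ℝ) := by exact_mod_cast h
      have hk : ((k : ℝ) + 1) ≠ 0 := by positivity
      have hb : ((coeff (k + 1) be : ℚ) : ℝ)
          = (4 * k - 2) / ((k : ℝ) + 1) * ((coeff k be : ℚ) : ℝ) := by
        rw [div_mul_eq_mul_div, eq_div_iff hk, ← h']
        ring
      have h4 : (4 : ℝ) ^ k ≠ 0 := by positivity
      simp only [Nat.add_sub_cancel]
      push_cast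
      rw [pow_succ, hb]
      generalize ((coeff k be : ℚ) : ℝ) = b
      generalize (4 : ℝ) ^ k = w at h4
      field_simp
      ring)
    (fun i => (E i : ℝ)) (by simp [hE0]) (by simp [hE1]) hE
  exact ⟨fun i => c * (E i : ℝ), hc⟩

end Pool.Agent.Helper99.TC
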