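import Pool.Agent.Helper99.TC.WordCW

/-!
# TC-9: blocks of a word and their positions
-/

set_option autoImplicit false

namespace Pool.Agent.Helper99.TC

theorem ne_length (u : List Bool) : (ne u).length = u.length := by simp [ne]

theorem sw_length (u : List Bool) : (sw u).length = u.length := by simp [sw]

theorem pos_append_left (v w : List Step) (k : ℕ) (hk : k ≤ v.length) :
    pos (v ++ w) k = pos v k := by
  unfold pos
  rw [List.take_append_of_le_length hk]

theorem pos_append_right (v w : List Step) (k : ℕ) :
    pos (v ++ w) (v.length + k) = pos v v.length + pos w k := by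
  unfold pos
  rw [List.take_append, List.map_append, List.sum_append, List.take_of_length_le (by omega),
    List.take_length, Nat.add_sub_cancel_left]

private theorem sum_ne (u : List Bool) :
    ((ne u).map Step.vec).sum = (cnt u, (u.length : ℤ) - cnt u) := by
  induction u with
  | nil => rfl
  | cons b u ih =>
    have h1 : ne (b :: u) = (if b then Step.R else Step.U) :: ne u := rfl
    have h2 : cnt (b :: u) = bit b + cnt u := by simp [cnt]
    rw [h1, List.map_cons, List.sum_cons, ih, h2]
    cases b <;> simp [Step.vec, bit] <;> ring

private theorem sum_down (u : List Bool) :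
    ((u.map (fun b => if b then Step.L else Step.D)).map Step.vec).sum =
      (-cnt u, cnt u - (u.length : ℤ)) := by
  induction u with
  | nil => rfl
  | cons b u ih =>
    have h2 : cnt (b :: u) = bit b + cnt u := by simp [cnt]
    rw [List.map_cons, List.map_cons, List.sum_cons, ih, h2]
    cases b
    · ext
      · simp [Step.vec, bit]
      · simp [Step.vec, bit]; ring
    · ext
      · simp [Step.vec, bit]; ring
      · simp [Step.vec, bit]; ring

private theorem cnt_append (u v : List Bool) : cnt (u ++ v) = cnt u + cnt v := by
  simp [cnt]

private theorem cnt_reverse (u : List Bool) : cnt u.reverse = cnt u := by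
  induction u with
  | nil => rfl
  | cons b u ih =>
    rw [List.reverse_cons, cnt_append, ih]
    simp [cnt, add_comm]

theorem pos_ne (u : List Bool) (k : ℕ) (hk : k ≤ u.length) :
    pos (ne u) k = (cnt (u.take k), k - cnt (u.take k)) := by
  have h1 : (ne u).take k = ne (u.take k) := by simp [ne, List.map_take]
  unfold pos
  rw [h1, sum_ne, List.length_take, min_eq_left hk]

theorem pos_sw (u : List Bool) (k : ℕ) (hk : k ≤ u.length) :
    pos (sw u) k = (cnt (u.take (u.length - k)) - cnt u,
      cnt u - cnt (u.take (u.length - k)) - k) := by
  have h1 : (sw u).take k =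
      (u.drop (u.length - k)).reverse.map (fun b => if b then Step.L else Step.D) := by
    rw [sw, ← List.map_take, List.take_reverse]
  have h2 : cnt u = cnt (u.take (u.length - k)) + cnt (u.drop (u.length - k)) := by
    rw [← cnt_append, List.take_append_drop]
  unfold pos
  rw [h1, sum_down, cnt_reverse, List.length_reverse, List.length_drop]
  have h3 : u.length - (u.length - k) = k := by omega
  rw [h3]
  ext
  · simp only; omega
  · simp only; omega

private theorem lev_eq {w : List Step} (hc : pos w w.length = 0) (k : ℕ) (hk : k ≤ w.length) :
    lev w k = (pos w k).1 + (pos w k).2 := by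
  unfold lev
  rcases Nat.lt_or_ge k w.length with h | h
  · have h1 : ((k : ℤ) % (w.length : ℤ)).toNat = k := by
      rw [Int.emod_eq_of_lt (by omega) (by omega)]
      omega
    rw [h1]
  · have h1 : k = w.length := by omega
    subst h1
    have h2 : ((w.length : ℤ) % (w.length : ℤ)).toNat = 0 := by simp
    rw [h2, hc]
    rfl

private theorem lev_step {w : List Step} (hc : pos w w.length = 0) (k : ℕ) (hk : k < w.length) :
    lev w (k + 1) = lev w k + (w[k]).vec.1 + (w[k]).vec.2 := by
  have h1 := lev_eq hc k (by omega)
  have h2 := lev_eq hc (k + 1) (by omega)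
  rw [pos_succ w k hk] at h2
  push_cast at h2
  rw [h2, h1]
  simp only [Prod.fst_add, Prod.snd_add]
  ring

/-- `l` up steps form the block of a north-east path -/
theorem ups_block {w : List Step} (hc : pos w w.length = 0) (i l : ℕ) (hl : i + l ≤ w.length)
    (hu : Ups (lev w) i l) : ∃ u : List Bool, u.length = l ∧ (w.drop i).take l = ne u := by
  refine ⟨((w.drop i).take l).map (fun s => decide (s = Step.R)), ?_, ?_⟩
  · rw [List.length_map, List.length_take, List.length_drop]
    omega
  · rw [ne, List.map_map]
    symm
    conv_rhs => rw [← List.map_id ((w.drop i).take l)]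
    refine List.map_congr_left fun s hs => ?_
    obtain ⟨q, hq, rfl⟩ := List.getElem_of_mem hs
    have hq' : q < l ∧ i + q < w.length := by
      rw [List.length_take, List.length_drop] at hq
      omega
    have h1 := hu q hq'.1
    have h2 := lev_step hc (i + q) hq'.2
    push_cast at h2
    rw [List.getElem_take, List.getElem_drop]
    generalize w[i + q] = s at h2
    rw [h1] at h2
    cases s <;> simp [Step.vec] at h2 ⊢ <;> omega

/-- `l` down steps form the block of a north-east path run through backwards -/
theorem downs_block {w : List Step} (hc : pos w w.length = 0) (i l : ℕ) (hl : i + l ≤ w.length)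
    (hu : Downs (lev w) i l) : ∃ u : List Bool, u.length = l ∧ (w.drop i).take l = sw u := by
  refine ⟨(((w.drop i).take l).map (fun s => decide (s = Step.L))).reverse, ?_, ?_⟩
  · rw [List.length_reverse, List.length_map, List.length_take, List.length_drop]
    omega
  · rw [sw, List.reverse_reverse, List.map_map]
    symm
    conv_rhs => rw [← List.map_id ((w.drop i).take l)]
    refine List.map_congr_left fun s hs => ?_
    obtain ⟨q, hq, rfl⟩ := List.getElem_of_mem hs
    have hq' : q < l ∧ i + q < w.length := by
      rw [List.length_take, List.length_drop] at hq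
      omega
    have h1 := hu q hq'.1
    have h2 := lev_step hc (i + q) hq'.2
    push_cast at h2
    rw [List.getElem_take, List.getElem_drop]
    generalize w[i + q] = s at h2
    rw [h1] at h2
    cases s <;> simp [Step.vec] at h2 ⊢ <;> omega

end Pool.Agent.Helper99.TC
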