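import Pool.Agent.Helper99.TC.Alg

/-!
# Coefficient lists of the linear relations
-/

set_option autoImplicit false

open PowerSeries

namespace Pool.Agent.Helper99.TC

/-- the polynomial with the coefficient list `l`, as a power series -/
noncomputable def pl (l : List ℤ) : ℚ⟦X⟧ := l.foldr (fun a p => (a : ℚ⟦X⟧) + X * p) 0

/-- V: coefficient of th (th Vser) -/
def vA2 : List ℤ :=
  [40, -400, 240, 9600, -54120, 254220, -1061700, 2879460, -5871000, 12024320, -15397760]

/-- V: coefficient of th Vser -/
def vA1 : List ℤ :=
  [0, -200, 3480, -23040, 126840, -732540, 3314700, -9955980, 22284240, -49271040, 61591040]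

/-- V: coefficient of Vser -/
def vA0 : List ℤ :=
  [-40, 240, 1560, -21000, 71400, 92640, -1765440, 6608640, -17579400, 48025600, -57741600]

/-- V: coefficient of th (th Fser) -/
def vB2 : List ℤ :=
  [-6, -22, 838, -5054, 14158, 3335, -238515, 920109, -2350758, 6987762, -6806360, -4746568,
    -16123072, -40887808, -34012160, 147818496]

/-- V: coefficient of th Fser -/
def vB1 : List ℤ :=
  [-2, -12, 162, -2026, 7446, 59540, -518472, 1853868, -5698752, 14869904, -15795192, 7300104,
    -40280000, -91158912, -136048640, 591273984]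

/-- V: coefficient of Fser -/
def vB0 : List ℤ :=
  [0, 0, -64, -256, -3912, 80848, -407168, 1322392, -4213880, 9785272, -10014368, 11651168,
    -45119008, -39351584, -127545600, 554319360]

/-- V: coefficient of be -/
def vC : List ℤ :=
  [0, 0, -600, 2160, -3360, 58200, -345000, 780000, -2547360, 5846160, -5199600]

/-- V: polynomial term -/
def vD : List ℤ :=
  [0, 0, -240, 4800, -34800, 114000, -232080, 570480, -502320, -1935600, 3613200, -9424320,
    26026560, -46193280]

/-- G: coefficient of th Vser -/
def gV1 : List ℤ :=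
  [60, -480, 3660, -18960, 22080, 42240]

/-- G: coefficient of Vser -/
def gV0 : List ℤ :=
  [60, -540, -2760, 20640, 7200, -105600]

/-- G: coefficient of Iser -/
def gI : List ℤ :=
  [0, 160, -1120, -2880, 37600, -126400, 444240, -1482080, 2199680]

/-- G: coefficient of th (th Fser) -/
def gF2 : List ℤ :=
  [12, -141, -24, 2019, 3936, -9636, -77184, 155904, -443904, 943104, -270336]

/-- G: coefficient of th Fser -/
def gF1 : List ℤ :=
  [3, -99, -168, 3540, -2904, 948, -86304, 231840, -964608, 2628096, -1081344]

/-- G: coefficient of Fser -/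
def gF0 : List ℤ :=
  [0, -120, 352, 4224, -23532, 74116, -323616, 977760, -1645184, 1820160, -1013760]

/-- G: coefficient of be -/
def gC : List ℤ :=
  [0, -40, -820, 2900, -4460, 7660, 5560]

/-- G: polynomial term -/
def gD : List ℤ :=
  [0, 0, -360, 3960, -17040, 67440, -247680, 336000, 84480]

/-- R3: coefficient of th (th Iser) -/
def iI2 : List ℤ :=
  [-40, 280, -600, 1600, -4480]

/-- R3: coefficient of th Iser -/
def iI1 : List ℤ :=
  [0, 280, -1200, 4800, -17920]

/-- R3: coefficient of Iser -/
def iI0 : List ℤ :=
  [0, 120, -600, 3600, -16800]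

/-- R3: coefficient of th (th Fser) -/
def iF2 : List ℤ :=
  [21, -106, 312, -1344, 1792]

/-- R3: coefficient of th Fser -/
def iF1 : List ℤ :=
  [0, -92, 668, -3712, 7168]

/-- R3: coefficient of Fser -/
def iF0 : List ℤ :=
  [0, -40, 352, -2544, 6720]

/-- R1: coefficient of th Iser -/
def pI1 : List ℤ :=
  [-40, 280, -2400, 12440, -19160, 45600, -131200, -197120]

/-- R1: coefficient of Iser -/
def pI0 : List ℤ :=
  [0, 120, -1200, 9600, -15480, 12000, -156480, -295680]

/-- R1: coefficient of th (th Fser) -/
def pF2 : List ℤ :=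
  [0, -72, 360, 576, -4320, 8064, -23040, 18432]

/-- R1: coefficient of th Fser -/
def pF1 : List ℤ :=
  [21, -142, 1590, -4110, 2852, -29184, -45888, 129536]

/-- R1: coefficient of Fser -/
def pF0 : List ℤ :=
  [0, -40, 776, -2776, 3196, -11216, -24512, 152832]

/-- R1: coefficient of be -/
def pC : List ℤ :=
  [0, 0, -900, 1800, 1260]

/-- R1: polynomial term -/
def pD : List ℤ :=
  [0, 0, 1080, -4320, -3240, 4320]

end Pool.Agent.Helper99.TC
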