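import Pool.Agent.Helper99.TC.Alg

/-!
# TC-20: the operators `th` and `gs`

`th` is a derivation. `gs a f = ∑_j a^j f_j` (for `X ∣ a`): the key fact is `gs_dvd`: `X ^ N ∣ gs a f - ∑_{j<N} a^j f_j`; everything else follows by comparing modulo `X ^ N` for all `N`
(`PowerSeries.X_pow_dvd_iff`).
-/

set_option autoImplicit false

open PowerSeries

namespace Pool.Agent.Helper99.TC

private theorem th_eq (f : ℚ⟦X⟧) : th f = X * derivative ℚ f := by
  ext n
  cases n with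
  | zero => simp [th]
  | succ n =>
    rw [coeff_succ_X_mul, th, coeff_mk, coeff_derivative]
    push_cast
    ring

theorem th_add (f k : ℚ⟦X⟧) : th (f + k) = th f + th k := by
  rw [th_eq, th_eq, th_eq, map_add]
  ring

theorem th_sub (f k : ℚ⟦X⟧) : th (f - k) = th f - th k := by
  rw [th_eq, th_eq, th_eq, map_sub]
  ring

theorem th_mul (f k : ℚ⟦X⟧) : th (f * k) = th f * k + f * th k := by
  rw [th_eq, th_eq, th_eq, Derivation.leibniz]
  simp only [smul_eq_mul]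
  ring

theorem th_natCast (n : ℕ) : th (n : ℚ⟦X⟧) = 0 := by
  rw [th_eq, Derivation.map_natCast, mul_zero]

theorem th_intCast (n : ℤ) : th (n : ℚ⟦X⟧) = 0 := by
  rw [th_eq, Derivation.map_intCast, mul_zero]

theorem th_one : th 1 = 0 := by
  simpa using th_natCast 1

theorem th_zero : th 0 = 0 := by
  simpa using th_natCast 0

theorem th_ofNat (n : ℕ) [n.AtLeastTwo] : th (ofNat(n) : ℚ⟦X⟧) = 0 :=
  th_natCast n

theorem th_C (a : ℚ) : th (PowerSeries.C a) = 0 := by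
  ext n
  rw [th, coeff_mk, coeff_C, map_zero]
  split_ifs with h
  · rw [h]; simp
  · simp

theorem th_X : th X = X := by
  ext n
  rw [th, coeff_mk, coeff_X]
  split_ifs with h
  · rw [h]; simp
  · simp

theorem th_pow (f : ℚ⟦X⟧) (n : ℕ) : th (f ^ n) = n * f ^ (n - 1) * th f := by
  rw [th_eq, th_eq, Derivation.leibniz_pow]
  simp only [smul_eq_mul, nsmul_eq_mul]
  ring

theorem th_sum {ι : Type*} (s : Finset ι) (f : ι → ℚ⟦X⟧) :
    th (∑ i ∈ s, f i) = ∑ i ∈ s, th (f i) := by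
  rw [th_eq, map_sum, Finset.mul_sum]
  exact Finset.sum_congr rfl fun i _ => (th_eq (f i)).symm

/-- a series divisible by all powers of `X` is zero -/
theorem eq_zero_of_dvd (f : ℚ⟦X⟧) (h : ∀ N : ℕ, X ^ N ∣ f) : f = 0 := by
  ext n
  rw [map_zero]
  exact X_pow_dvd_iff.mp (h (n + 1)) n (Nat.lt_succ_self n)

/-- a family with `f i ∈ X * span` of the family is zero -/
theorem family_zero {ι : Type*} (f : ι → ℚ⟦X⟧)
    (h : ∀ N : ℕ, (∀ i, X ^ N ∣ f i) → ∀ i, X ^ (N + 1) ∣ f i) (i : ι) : f i = 0 := by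
  apply eq_zero_of_dvd
  intro N
  have key : ∀ N : ℕ, ∀ i, X ^ N ∣ f i := by
    intro N
    induction N with
    | zero => intro i; rw [pow_zero]; exact one_dvd _
    | succ N ih => exact h N ih
  exact key N i

theorem gs_dvd (a : ℚ⟦X⟧) (ha : X ∣ a) (f : ℕ → ℚ⟦X⟧) (N : ℕ) :
    X ^ N ∣ gs a f - ∑ j ∈ Finset.range N, a ^ j * f j := by
  rw [X_pow_dvd_iff]
  intro m hm
  rw [map_sub, gs, coeff_mk, sub_eq_zero]
  obtain ⟨K, rfl⟩ : ∃ K, N = (m + 1) + K := ⟨N - (m + 1), by omega⟩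
  rw [Finset.sum_range_add _ (m + 1) K, map_add]
  have hz : coeff m (∑ x ∈ Finset.range K, a ^ (m + 1 + x) * f (m + 1 + x)) = 0 := by
    have hd : X ^ (m + 1) ∣ ∑ x ∈ Finset.range K,
        a ^ (m + 1 + x) * f (m + 1 + x) := by
      apply Finset.dvd_sum
      intro x _
      apply Dvd.dvd.mul_right
      exact (pow_dvd_pow_of_dvd ha (m + 1)).trans (pow_dvd_pow a (Nat.le_add_right _ _))
    exact X_pow_dvd_iff.mp hd m (Nat.lt_succ_self m)
  rw [hz, add_zero]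

theorem gs_unique (a : ℚ⟦X⟧) (ha : X ∣ a) (f : ℕ → ℚ⟦X⟧) (k : ℚ⟦X⟧)
    (h : ∀ N : ℕ, X ^ N ∣ k - ∑ j ∈ Finset.range N, a ^ j * f j) : gs a f = k := by
  rw [← sub_eq_zero]
  apply eq_zero_of_dvd
  intro N
  have h1 := gs_dvd a ha f N
  have h2 := dvd_sub h1 (h N)
  have e : gs a f - ∑ j ∈ Finset.range N, a ^ j * f j -
      (k - ∑ j ∈ Finset.range N, a ^ j * f j) = gs a f - k := by ring
  rwa [e] at h2

theorem gs_add (a : ℚ⟦X⟧) (f k : ℕ → ℚ⟦X⟧) : gs a (fun j => f j + k j) = gs a f + gs a k := by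
  ext n
  rw [map_add, gs, gs, gs, coeff_mk, coeff_mk, coeff_mk, ← map_add, ← Finset.sum_add_distrib]
  simp only [mul_add]

theorem gs_sub (a : ℚ⟦X⟧) (f k : ℕ → ℚ⟦X⟧) : gs a (fun j => f j - k j) = gs a f - gs a k := by
  ext n
  rw [map_sub, gs, gs, gs, coeff_mk, coeff_mk, coeff_mk, ← map_sub, ← Finset.sum_sub_distrib]
  simp only [mul_sub]

theorem gs_mul_left (a : ℚ⟦X⟧) (ha : X ∣ a) (c : ℚ⟦X⟧) (f : ℕ → ℚ⟦X⟧) :
    gs a (fun j => c * f j) = c * gs a f := by
  apply gs_unique a ha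
  intro N
  have e : c * gs a f - ∑ j ∈ Finset.range N, a ^ j * (c * f j) =
      c * (gs a f - ∑ j ∈ Finset.range N, a ^ j * f j) := by
    rw [mul_sub, Finset.mul_sum]
    congr 1
    exact Finset.sum_congr rfl fun j _ => by ring
  rw [e]
  exact (gs_dvd a ha f N).mul_left c

theorem gs_mul_right (a : ℚ⟦X⟧) (ha : X ∣ a) (c : ℚ⟦X⟧) (f : ℕ → ℚ⟦X⟧) :
    gs a (fun j => f j * c) = gs a f * c := by
  rw [mul_comm (gs a f) c, ← gs_mul_left a ha]
  simp only [mul_comm]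

theorem gs_sum {ι : Type*} (s : Finset ι) (a : ℚ⟦X⟧) (f : ι → ℕ → ℚ⟦X⟧) :
    gs a (fun j => ∑ i ∈ s, f i j) = ∑ i ∈ s, gs a (f i) := by
  ext n
  rw [map_sum]
  simp only [gs, coeff_mk, Finset.mul_sum]
  rw [Finset.sum_comm, map_sum]

theorem gs_succ (a : ℚ⟦X⟧) (ha : X ∣ a) (f : ℕ → ℚ⟦X⟧) :
    gs a f = f 0 + a * gs a (fun j => f (j + 1)) := by
  apply gs_unique a ha
  intro N
  cases N with
  | zero => rw [pow_zero]; exact one_dvd _
  | succ M =>
    have e : f 0 + a * gs a (fun j => f (j + 1)) - ∑ j ∈ Finset.range (M + 1), a ^ j * f j =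
        a * (gs a (fun j => f (j + 1)) - ∑ j ∈ Finset.range M, a ^ j * f (j + 1)) := by
      rw [Finset.sum_range_succ', mul_sub, Finset.mul_sum]
      have : ∑ j ∈ Finset.range M, a ^ (j + 1) * f (j + 1) =
          ∑ j ∈ Finset.range M, a * (a ^ j * f (j + 1)) :=
        Finset.sum_congr rfl fun j _ => by ring
      rw [this]
      ring
    rw [e, pow_succ, mul_comm]
    exact mul_dvd_mul ha (gs_dvd a ha _ M)

theorem gs_comm (a b : ℚ⟦X⟧) (ha : X ∣ a) (hb : X ∣ b) (f : ℕ → ℕ → ℚ⟦X⟧) :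
    gs a (fun i => gs b (fun j => f i j)) = gs b (fun j => gs a (fun i => f i j)) := by
  apply gs_unique a ha
  intro N
  have h1 := gs_dvd b hb (fun j => gs a (fun i => f i j)) N
  have h2 : X ^ N ∣ ∑ j ∈ Finset.range N, b ^ j * gs a (fun i => f i j) -
      ∑ j ∈ Finset.range N, b ^ j * ∑ i ∈ Finset.range N, a ^ i * f i j := by
    rw [← Finset.sum_sub_distrib]
    apply Finset.dvd_sum
    intro j _
    rw [← mul_sub]
    exact (gs_dvd a ha (fun i => f i j) N).mul_left _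
  have h3 : X ^ N ∣ ∑ i ∈ Finset.range N, a ^ i * gs b (fun j => f i j) -
      ∑ i ∈ Finset.range N, a ^ i * ∑ j ∈ Finset.range N, b ^ j * f i j := by
    rw [← Finset.sum_sub_distrib]
    apply Finset.dvd_sum
    intro i _
    rw [← mul_sub]
    exact (gs_dvd b hb (fun j => f i j) N).mul_left _
  have h4 : ∑ j ∈ Finset.range N, b ^ j * ∑ i ∈ Finset.range N, a ^ i * f i j =
      ∑ i ∈ Finset.range N, a ^ i * ∑ j ∈ Finset.range N, b ^ j * f i j := by
    simp only [Finset.mul_sum]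
    rw [Finset.sum_comm]
    exact Finset.sum_congr rfl fun i _ => Finset.sum_congr rfl fun j _ => by ring
  rw [h4] at h2
  have h5 := dvd_sub (dvd_add h1 h2) h3
  have e : gs b (fun j => gs a (fun i => f i j)) -
        ∑ j ∈ Finset.range N, b ^ j * gs a (fun i => f i j) +
      (∑ j ∈ Finset.range N, b ^ j * gs a (fun i => f i j) -
        ∑ i ∈ Finset.range N, a ^ i * ∑ j ∈ Finset.range N, b ^ j * f i j) -
      (∑ i ∈ Finset.range N, a ^ i * gs b (fun j => f i j) -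
        ∑ i ∈ Finset.range N, a ^ i * ∑ j ∈ Finset.range N, b ^ j * f i j) =
      gs b (fun j => gs a (fun i => f i j)) -
        ∑ i ∈ Finset.range N, a ^ i * gs b (fun j => f i j) := by ring
  rwa [e] at h5

/-- geometric series -/
theorem gs_geom (a b : ℚ⟦X⟧) (ha : X ∣ a) : gs a (fun j => b ^ j) * (1 - a * b) = 1 := by
  have h := gs_succ a ha (fun j => b ^ j)
  have h2 : gs a (fun j => b ^ (j + 1)) = b * gs a (fun j => b ^ j) := by
    rw [← gs_mul_left a ha]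
    simp only [pow_succ, mul_comm]
  simp only [pow_zero] at h
  rw [h2] at h
  linear_combination h

theorem th_gs (f : ℕ → ℚ⟦X⟧) :
    th (gs (X ^ 2) f) = gs (X ^ 2) (fun t => 2 * (t : ℚ⟦X⟧) * f t + th (f t)) := by
  ext n
  have h1 : coeff n (th (gs (X ^ 2) f)) =
      coeff n (th (∑ j ∈ Finset.range (n + 1), (X ^ 2 : ℚ⟦X⟧) ^ j * f j)) := by
    rw [th, th, coeff_mk, coeff_mk, gs, coeff_mk]
  rw [h1, th_sum, gs, coeff_mk]
  congr 1
  apply Finset.sum_congr rfl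
  intro j _
  rw [th_mul, ← pow_mul, th_pow, th_X]
  cases j with
  | zero => simp
  | succ j =>
    have e : (X : ℚ⟦X⟧) ^ (2 * (j + 1)) = X ^ (2 * (j + 1) - 1) * X := by
      rw [← pow_succ]
      congr 1
    rw [e]
    push_cast
    ring

theorem gs_telescope (f : ℕ → ℚ⟦X⟧) :
    gs (X ^ 2) (fun t => X ^ 2 * f (t + 1) - f t) = - f 0 := by
  have hX : (X : ℚ⟦X⟧) ∣ X ^ 2 := dvd_pow_self X two_ne_zero
  rw [gs_sub, gs_mul_left _ hX, gs_succ (X ^ 2) hX f]
  ring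

end Pool.Agent.Helper99.TC
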