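import Mathlib
import Pool.Agent.Helper99.TC.ThGs

/-!
# TC-46: recurrence of the sums of fourth powers of binomial coefficients (Franel)

`(n+2)^3 f(n+2) = 2 (2n+3)(3n²+9n+7) f(n+1) + 4 (n+1)(4n+5)(4n+3) f(n)`. Proof by creative telescoping.
-/

set_option autoImplicit false

open PowerSeries

namespace Pool.Agent.Helper99.TC

/-- the polynomial of the certificate -/
private def P4 (n k : ℚ) : ℚ :=
  (-1080 - 5380 * n - 11330 * n ^ 2 - 13075 * n ^ 3 - 8930 * n ^ 4 - 3610 * n ^ 5 - 800 * n ^ 6 -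
    75 * n ^ 7) +
  (2256 + 9776 * n + 17412 * n ^ 2 + 16312 * n ^ 3 + 8476 * n ^ 4 + 2316 * n ^ 5 +
    260 * n ^ 6) * k +
  (-1980 - 7302 * n - 10620 * n ^ 2 - 7612 * n ^ 3 - 2688 * n ^ 4 - 374 * n ^ 5) * k ^ 2 +
  (900 + 2744 * n + 3088 * n ^ 2 + 1520 * n ^ 3 + 276 * n ^ 4) * k ^ 3 +
  (-210 - 508 * n - 402 * n ^ 2 - 104 * n ^ 3) * k ^ 4 +
  (20 + 36 * n + 16 * n ^ 2) * k ^ 5

private theorem P4_eq (n k : ℚ) :
    (n + 2) ^ 3 * ((n + 1) * (n + 2)) ^ 4 -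
      2 * (2 * n + 3) * (3 * n ^ 2 + 9 * n + 7) * ((n + 1) * (n + 2 - k)) ^ 4 -
      4 * (n + 1) * (4 * n + 5) * (4 * n + 3) * ((n + 1 - k) * (n + 2 - k)) ^ 4 =
    (n + 2 - k) ^ 4 * P4 n (k + 1) - k ^ 4 * P4 n k := by
  unfold P4
  ring

private theorem fr4_ext (n m : ℕ) (h : n + 1 ≤ m) :
    (fr4 n : ℚ) = ∑ k ∈ Finset.range m, (n.choose k : ℚ) ^ 4 := by
  obtain ⟨j, rfl⟩ := Nat.exists_eq_add_of_le h
  unfold fr4
  push_cast
  rw [Finset.sum_range_add _ (n + 1) j]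
  have h0 : ∑ x ∈ Finset.range j, (n.choose (n + 1 + x) : ℚ) ^ 4 = 0 := by
    apply Finset.sum_eq_zero
    intro x _
    rw [Nat.choose_eq_zero_of_lt (by omega)]
    simp
  rw [h0, add_zero]

theorem fr4_rec (n : ℕ) : ((n : ℚ) + 2) ^ 3 * (fr4 (n + 2) : ℚ) =
    2 * (2 * n + 3) * (3 * n ^ 2 + 9 * n + 7) * (fr4 (n + 1) : ℚ) +
      4 * (n + 1) * (4 * n + 5) * (4 * n + 3) * (fr4 n : ℚ) := by
  rw [fr4_ext n (n + 3) (by omega), fr4_ext (n + 1) (n + 3) (by omega),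
    fr4_ext (n + 2) (n + 3) (by omega)]
  have t1 : ((n : ℚ) + 1) ≠ 0 := by positivity
  have t2 : ((n : ℚ) + 2) ≠ 0 := by positivity
  have hG := Finset.sum_range_sub (fun k : ℕ => (k : ℚ) ^ 4 * P4 n k *
    (((n + 2).choose k : ℚ) / ((n + 1) * (n + 2))) ^ 4) (n + 3)
  have hz : ((n + 2).choose (n + 3) : ℚ) = 0 := by
    rw [Nat.choose_eq_zero_of_lt (by omega)]; simp
  simp only [hz] at hG
  have hR : ∀ k ∈ Finset.range (n + 3), ((n : ℚ) + 2) ^ 3 * ((n + 2).choose k : ℚ) ^ 4 -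
      2 * (2 * n + 3) * (3 * n ^ 2 + 9 * n + 7) * ((n + 1).choose k : ℚ) ^ 4 -
      4 * (n + 1) * (4 * n + 5) * (4 * n + 3) * (n.choose k : ℚ) ^ 4 =
      ((k + 1 : ℕ) : ℚ) ^ 4 * P4 n ((k + 1 : ℕ) : ℚ) *
      (((n + 2).choose (k + 1) : ℚ) / ((n + 1) * (n + 2))) ^ 4 -
      (k : ℚ) ^ 4 * P4 n k * (((n + 2).choose k : ℚ) / ((n + 1) * (n + 2))) ^ 4 := by
    intro k hk
    have hk' : k ≤ n + 2 := by have := Finset.mem_range.mp hk; omega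
    set κ : ℚ := ((n + 2).choose k : ℚ) / ((n + 1) * (n + 2)) with hκ
    have e2 : ((n + 2).choose k : ℚ) = (n + 1) * (n + 2) * κ := by
      rw [hκ]; field_simp
    have s2 : ((n + 2).choose k : ℚ) * ((n : ℚ) + 2 - k) = (n + 2) * ((n + 1).choose k : ℚ) := by
      rcases Nat.lt_or_ge (n + 1) k with h | h
      · have : k = n + 2 := by omega
        subst this
        rw [Nat.choose_eq_zero_of_lt (by omega : n + 1 < n + 2)]
        push_cast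
        ring
      · have h1 := Nat.choose_mul_succ_eq (n + 1) k
        have h2 : (((n + 1).choose k : ℕ) : ℚ) * (n + 1 + 1) =
            ((n + 1 + 1).choose k : ℚ) * ((n : ℚ) + 1 + 1 - k) := by
          have h3 : ((n + 1 + 1 - k : ℕ) : ℚ) = (n : ℚ) + 1 + 1 - k := by
            rw [Nat.cast_sub (by omega)]; push_cast; ring
          rw [← h3]
          exact_mod_cast h1
        have e : n + 1 + 1 = n + 2 := rfl
        rw [e] at h2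
        linear_combination -h2
    have s1 : ((n + 1).choose k : ℚ) * ((n : ℚ) + 1 - k) = (n + 1) * (n.choose k : ℚ) := by
      rcases Nat.lt_or_ge (n + 1) k with h | h
      · rw [Nat.choose_eq_zero_of_lt h, Nat.choose_eq_zero_of_lt (by omega : n < k)]
        push_cast
        ring
      · have h1 := Nat.choose_mul_succ_eq n k
        have h2 : ((n.choose k : ℕ) : ℚ) * (n + 1) =
            ((n + 1).choose k : ℚ) * ((n : ℚ) + 1 - k) := by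
          have h3 : ((n + 1 - k : ℕ) : ℚ) = (n : ℚ) + 1 - k := by
            rw [Nat.cast_sub (by omega)]; push_cast; ring
          rw [← h3]
          exact_mod_cast h1
        linear_combination -h2
    have e1 : ((n + 1).choose k : ℚ) = (n + 1) * (n + 2 - k) * κ := by
      apply mul_left_cancel₀ t2
      rw [← s2, e2]
      ring
    have e0 : (n.choose k : ℚ) = (n + 1 - k) * (n + 2 - k) * κ := by
      apply mul_left_cancel₀ t1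
      rw [← s1, e1]
      ring
    have s3 : ((k : ℚ) + 1) * (((n + 2).choose (k + 1) : ℚ) / ((n + 1) * (n + 2))) =
        (n + 2 - k) * κ := by
      have h1 := Nat.choose_succ_right_eq (n + 2) k
      have h2 : (((n + 2).choose (k + 1) : ℕ) : ℚ) * (k + 1) =
          ((n + 2).choose k : ℚ) * ((n : ℚ) + 2 - k) := by
        have h3 : ((n + 2 - k : ℕ) : ℚ) = (n : ℚ) + 2 - k := by
          rw [Nat.cast_sub hk']; push_cast; ring
        rw [← h3]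
        exact_mod_cast h1
      rw [hκ, ← mul_div_assoc, ← mul_div_assoc]
      congr 1
      linear_combination h2
    have hP := P4_eq n k
    have e4 : (((k + 1 : ℕ) : ℚ)) ^ 4 * P4 n ((k + 1 : ℕ) : ℚ) *
      (((n + 2).choose (k + 1) : ℚ) / ((n + 1) * (n + 2))) ^ 4 =
        (((k : ℚ) + 1) * (((n + 2).choose (k + 1) : ℚ) / ((n + 1) * (n + 2)))) ^ 4 *
          P4 n ((k : ℚ) + 1) := by
      push_cast
      ring
    rw [e4, s3, e2, e1, e0]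
    linear_combination κ ^ 4 * hP
  have hS := Finset.sum_congr rfl hR
  rw [hG] at hS
  rw [Finset.sum_sub_distrib, Finset.sum_sub_distrib, ← Finset.mul_sum, ← Finset.mul_sum,
    ← Finset.mul_sum] at hS
  push_cast at hS
  linear_combination hS

/-- the differential equation of `Fser` (`th` = x d/dx) -/
theorem Fser_ode : (1 - 16 * X ^ 2) * (1 + 4 * X ^ 2) * th (th (th Fser)) =
    (36 * X ^ 2 + 384 * X ^ 4) * th (th Fser) + (40 * X ^ 2 + 752 * X ^ 4) * th Fser +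
      (16 * X ^ 2 + 480 * X ^ 4) * Fser := by
  have hX : (X : ℚ⟦X⟧) ∣ X ^ 2 := dvd_pow_self X two_ne_zero
  have h1 : th Fser = gs (X ^ 2) (fun t => 2 * (t : ℚ⟦X⟧) * (fr4 t : ℚ⟦X⟧)) := by
    unfold Fser
    rw [th_gs]
    congr 1
    funext t
    rw [th_natCast, add_zero]
  have hn : ∀ (t c m : ℕ), th ((c : ℚ⟦X⟧) * (t : ℚ⟦X⟧) ^ m * (fr4 t : ℚ⟦X⟧)) = 0 := by
    intro t c m
    have : (c : ℚ⟦X⟧) * (t : ℚ⟦X⟧) ^ m * (fr4 t : ℚ⟦X⟧) = ((c * t ^ m * fr4 t : ℕ) : ℚ⟦X⟧) := by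
      push_cast; rfl
    rw [this, th_natCast]
  have h2 : th (th Fser) = gs (X ^ 2) (fun t => 4 * (t : ℚ⟦X⟧) ^ 2 * (fr4 t : ℚ⟦X⟧)) := by
    rw [h1, th_gs]
    congr 1
    funext t
    have := hn t 2 1
    push_cast at this
    rw [pow_one] at this
    rw [this]
    ring
  have h3 : th (th (th Fser)) = gs (X ^ 2) (fun t => 8 * (t : ℚ⟦X⟧) ^ 3 * (fr4 t : ℚ⟦X⟧)) := by
    rw [h2, th_gs]
    congr 1
    funext t
    have := hn t 4 2
    push_cast at this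
    rw [this]
    ring
  have hrec : ∀ t : ℕ, ((t : ℚ⟦X⟧) + 2) ^ 3 * (fr4 (t + 2) : ℚ⟦X⟧) =
      2 * (2 * (t : ℚ⟦X⟧) + 3) * (3 * (t : ℚ⟦X⟧) ^ 2 + 9 * t + 7) * (fr4 (t + 1) : ℚ⟦X⟧) +
      4 * ((t : ℚ⟦X⟧) + 1) * (4 * t + 5) * (4 * t + 3) * (fr4 t : ℚ⟦X⟧) := by
    intro t
    have h := fr4_rec t
    have h' : ((t + 2) ^ 3 * fr4 (t + 2) : ℕ) =
      2 * (2 * t + 3) * (3 * t ^ 2 + 9 * t + 7) * fr4 (t + 1) +
      4 * (t + 1) * (4 * t + 5) * (4 * t + 3) * fr4 t := by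
      exact_mod_cast h
    have h2 := congrArg (fun n : ℕ => (n : ℚ⟦X⟧)) h'
    push_cast at h2
    exact h2
  -- the three sums
  have eA : gs (X ^ 2) (fun t => 8 * (t : ℚ⟦X⟧) ^ 3 * (fr4 t : ℚ⟦X⟧)) =
      16 * X ^ 2 + X ^ 4 * gs (X ^ 2) (fun t => 8 * ((t : ℚ⟦X⟧) + 2) ^ 3 *
        (fr4 (t + 2) : ℚ⟦X⟧)) := by
    rw [gs_succ _ hX, gs_succ _ hX (fun j => 8 * (((j + 1 : ℕ) : ℚ⟦X⟧)) ^ 3 *
      (fr4 (j + 1) : ℚ⟦X⟧))]
    have f1 : fr4 1 = 2 := by decide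
    have e : (fun j : ℕ => 8 * (((j + 1 + 1 : ℕ) : ℚ⟦X⟧)) ^ 3 * (fr4 (j + 1 + 1) : ℚ⟦X⟧)) =
        (fun t : ℕ => 8 * ((t : ℚ⟦X⟧) + 2) ^ 3 * (fr4 (t + 2) : ℚ⟦X⟧)) := by
      funext t
      push_cast
      ring
    rw [e]
    simp only [Nat.cast_zero, zero_add, f1]
    push_cast
    ring
  have eB : gs (X ^ 2) (fun t => 8 * (12 * (t : ℚ⟦X⟧) ^ 3 + 18 * t ^ 2 + 10 * t + 2) *
      (fr4 t : ℚ⟦X⟧)) = 16 + X ^ 2 * gs (X ^ 2) (fun t => 8 * (2 * (2 * (t : ℚ⟦X⟧) + 3) *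
        (3 * (t : ℚ⟦X⟧) ^ 2 + 9 * t + 7)) * (fr4 (t + 1) : ℚ⟦X⟧)) := by
    rw [gs_succ _ hX]
    have f0 : fr4 0 = 1 := by decide
    have e : (fun j : ℕ => 8 * (12 * (((j + 1 : ℕ) : ℚ⟦X⟧)) ^ 3 + 18 * ((j + 1 : ℕ) : ℚ⟦X⟧) ^ 2 +
        10 * ((j + 1 : ℕ) : ℚ⟦X⟧) + 2) * (fr4 (j + 1) : ℚ⟦X⟧)) =
        (fun t : ℕ => 8 * (2 * (2 * (t : ℚ⟦X⟧) + 3) *
        (3 * (t : ℚ⟦X⟧) ^ 2 + 9 * t + 7)) * (fr4 (t + 1) : ℚ⟦X⟧)) := by
      funext t
      push_cast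
      ring
    rw [e]
    simp only [Nat.cast_zero, f0]
    push_cast
    ring
  have eABC : gs (X ^ 2) (fun t => 8 * ((t : ℚ⟦X⟧) + 2) ^ 3 * (fr4 (t + 2) : ℚ⟦X⟧)) =
      gs (X ^ 2) (fun t => 8 * (2 * (2 * (t : ℚ⟦X⟧) + 3) *
        (3 * (t : ℚ⟦X⟧) ^ 2 + 9 * t + 7)) * (fr4 (t + 1) : ℚ⟦X⟧)) +
      gs (X ^ 2) (fun t => 8 * (4 * ((t : ℚ⟦X⟧) + 1) * (4 * t + 5) * (4 * t + 3)) *
        (fr4 t : ℚ⟦X⟧)) := by
    rw [← gs_add]
    congr 1
    funext t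
    linear_combination 8 * hrec t
  have hB' : gs (X ^ 2) (fun t => 8 * (12 * (t : ℚ⟦X⟧) ^ 3 + 18 * t ^ 2 + 10 * t + 2) *
      (fr4 t : ℚ⟦X⟧)) = 12 * th (th (th Fser)) + 36 * th (th Fser) + 40 * th Fser +
        16 * Fser := by
    rw [h3, h2, h1, Fser, ← gs_mul_left _ hX, ← gs_mul_left _ hX, ← gs_mul_left _ hX,
      ← gs_mul_left _ hX, ← gs_add, ← gs_add, ← gs_add]
    congr 1
    funext t
    ring
  have hC' : gs (X ^ 2) (fun t => 8 * (4 * ((t : ℚ⟦X⟧) + 1) * (4 * t + 5) * (4 * t + 3)) *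
        (fr4 t : ℚ⟦X⟧)) = 64 * th (th (th Fser)) + 384 * th (th Fser) + 752 * th Fser +
        480 * Fser := by
    rw [h3, h2, h1, Fser, ← gs_mul_left _ hX, ← gs_mul_left _ hX, ← gs_mul_left _ hX,
      ← gs_mul_left _ hX, ← gs_add, ← gs_add, ← gs_add]
    congr 1
    funext t
    ring
  rw [← h3] at eA
  rw [hB'] at eB
  rw [hC'] at eABC
  linear_combination eA + X ^ 4 * eABC - X ^ 2 * eB

end Pool.Agent.Helper99.TC
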