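import Pool.Agent.Helper99.TC.GRel
import Pool.Agent.Helper99.TC.F4Rec
import Pool.Agent.Helper99.TC.Coefs

/-!
# Basic relations for the certificates
-/

set_option autoImplicit false

open PowerSeries

namespace Pool.Agent.Helper99.TC

theorem X_mul_gm (t : ℕ) (s : ℤ) : X * g t (s + 1) =
    (1 - 2 * X) * g t s - X * g t (s - 1) - cb t s := by
  have h := g_rec t s
  linear_combination -h

theorem X_mul_g2 (t : ℕ) (s : ℤ) : X * g t (s - 2) =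
    (1 - 2 * X) * g t (s - 1) - X * g t s - cb t (s - 1) := by
  have h := g_rec t (s - 1)
  have e1 : s - 1 - 1 = s - 2 := by ring
  rw [e1, sub_add_cancel] at h
  linear_combination -h

theorem B_th_g0 (t : ℕ) (s : ℤ) : (1 - 4 * X) * th (g t s) =
    (X * ((t : ℚ⟦X⟧) + 2) - (s : ℚ⟦X⟧) + 2 * X * (s : ℚ⟦X⟧)) * g t s +
      X * (2 * (s : ℚ⟦X⟧) - (t : ℚ⟦X⟧)) * g t (s - 1) + (s : ℚ⟦X⟧) * cb t s := by
  have h := g_th t s
  have h2 := X_mul_gm t s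
  linear_combination h - (s : ℚ⟦X⟧) * h2

theorem B_th_g1 (t : ℕ) (s : ℤ) : (1 - 4 * X) * th (g t (s - 1)) =
    X * ((t : ℚ⟦X⟧) - 2 * (s : ℚ⟦X⟧) + 2) * g t s +
      (X * ((t : ℚ⟦X⟧) + 2) - ((t : ℚ⟦X⟧) - (s : ℚ⟦X⟧) + 1) * (1 - 2 * X)) * g t (s - 1) +
      ((t : ℚ⟦X⟧) - (s : ℚ⟦X⟧) + 1) * cb t (s - 1) := by
  have h := g_th t (s - 1)
  have h2 := X_mul_g2 t s
  have e1 : s - 1 - 1 = s - 2 := by ring
  rw [e1, sub_add_cancel] at h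
  push_cast at h
  linear_combination h - ((t : ℚ⟦X⟧) - (s : ℚ⟦X⟧) + 1) * h2

theorem B_th_g2 (t : ℕ) (s : ℤ) : (1 - 4 * X) * th (g t (s - 2)) =
    X * ((t : ℚ⟦X⟧) - 2 * (s : ℚ⟦X⟧) + 4) * g t (s - 1) +
      (X * ((t : ℚ⟦X⟧) + 2) - ((t : ℚ⟦X⟧) - (s : ℚ⟦X⟧) + 2) * (1 - 2 * X)) * g t (s - 2) +
      ((t : ℚ⟦X⟧) - (s : ℚ⟦X⟧) + 2) * cb t (s - 2) := by
  have h := B_th_g1 t (s - 1)
  have e1 : s - 1 - 1 = s - 2 := by ring
  rw [e1] at h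
  push_cast at h
  linear_combination h

theorem th_lin (a : ℚ⟦X⟧) (f : ℚ⟦X⟧) (h : (1 - 4 * X) * f = a) :
    (1 - 4 * X) * th f = th a + 4 * X * f := by
  have h2 := congrArg th h
  rw [th_mul, th_sub, th_mul, th_one, th_ofNat, th_X] at h2
  linear_combination h2

theorem B_th_th_g0 (t : ℕ) (s : ℤ) : (1 - 4 * X) * th (th (g t s)) =
    (X * ((t : ℚ⟦X⟧) + 2) + 2 * X * (s : ℚ⟦X⟧)) * g t s +
      X * (2 * (s : ℚ⟦X⟧) - (t : ℚ⟦X⟧)) * g t (s - 1) +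
      (X * ((t : ℚ⟦X⟧) + 2) - (s : ℚ⟦X⟧) + 2 * X * (s : ℚ⟦X⟧) + 4 * X) * th (g t s) +
      X * (2 * (s : ℚ⟦X⟧) - (t : ℚ⟦X⟧)) * th (g t (s - 1)) := by
  have h := th_lin _ _ (B_th_g0 t s)
  rw [h]
  simp only [th_add, th_sub, th_mul, th_X, th_natCast, th_intCast, th_ofNat, th_cb]
  ring

theorem th_gcb (t : ℕ) (s : ℤ) (n : ℕ) :
    th (g t s * cb t s ^ n) = th (g t s) * cb t s ^ n := by
  rw [th_mul, th_pow, th_cb]
  ring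

theorem cb_neg (t : ℕ) (s : ℤ) (hs : s < 0) : cb t s = 0 := by
  unfold cb
  rw [bz_neg t s hs, map_zero]

theorem cb_big (t : ℕ) (s : ℤ) (hs : (t : ℤ) < s) : cb t s = 0 := by
  unfold cb
  rw [bz_big t s hs, map_zero]

theorem cb_param (t : ℕ) (s : ℤ) : ∃ κ : ℚ⟦X⟧,
    cb t s = ((t : ℚ⟦X⟧) + 1 - (s : ℚ⟦X⟧)) * ((t : ℚ⟦X⟧) + 2 - (s : ℚ⟦X⟧)) * κ ∧
    cb t (s - 1) = (s : ℚ⟦X⟧) * ((t : ℚ⟦X⟧) + 2 - (s : ℚ⟦X⟧)) * κ ∧
    cb t (s - 2) = (s : ℚ⟦X⟧) * ((s : ℚ⟦X⟧) - 1) * κ := by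
  obtain ⟨κ, h0, h1, h2⟩ := bz_param t s
  have ct : (t : ℚ⟦X⟧) = PowerSeries.C (t : ℚ) :=
    (map_natCast (PowerSeries.C : ℚ →+* ℚ⟦X⟧) t).symm
  have cs : (s : ℚ⟦X⟧) = PowerSeries.C (s : ℚ) :=
    (map_intCast (PowerSeries.C : ℚ →+* ℚ⟦X⟧) s).symm
  have c2 : (2 : ℚ⟦X⟧) = PowerSeries.C (2 : ℚ) :=
    (map_ofNat (PowerSeries.C : ℚ →+* ℚ⟦X⟧) 2).symm
  have c1 : (1 : ℚ⟦X⟧) = PowerSeries.C (1 : ℚ) := (map_one (PowerSeries.C : ℚ →+* ℚ⟦X⟧)).symm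
  refine ⟨PowerSeries.C κ, ?_, ?_, ?_⟩
  · unfold cb
    rw [h0, ct, cs, c2, c1, ← map_add, ← map_add, ← map_sub, ← map_sub, ← map_mul, ← map_mul]
  · unfold cb
    rw [h1, ct, cs, c2, ← map_add, ← map_sub, ← map_mul, ← map_mul]
  · unfold cb
    rw [h2, cs, c1, ← map_sub, ← map_mul, ← map_mul]

theorem sum_Icc_range (n : ℕ) (f : ℤ → ℚ⟦X⟧) :
    ∑ s ∈ Finset.Icc (0 : ℤ) n, f s = ∑ k ∈ Finset.range (n + 1), f (k : ℤ) := by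
  have e : Finset.Icc (0 : ℤ) n = (Finset.range (n + 1)).image (fun k : ℕ => (k : ℤ)) := by
    ext z
    simp only [Finset.mem_Icc, Finset.mem_image, Finset.mem_range]
    constructor
    · rintro ⟨h1, h2⟩
      exact ⟨z.toNat, by omega, by omega⟩
    · rintro ⟨k, h1, rfl⟩
      omega
  rw [e, Finset.sum_image (fun a _ b _ h => by exact_mod_cast h)]

theorem sum_Icc_tele (n : ℕ) (f : ℤ → ℚ⟦X⟧) :
    ∑ s ∈ Finset.Icc (0 : ℤ) n, (f (s + 1) - f s) = f ((n : ℤ) + 1) - f 0 := by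
  rw [sum_Icc_range]
  have h := Finset.sum_range_sub (fun k : ℕ => f (k : ℤ)) (n + 1)
  push_cast at h
  exact h

theorem sum_Icc_ext (n k : ℕ) (f : ℤ → ℚ⟦X⟧) (h : ∀ s : ℤ, (n : ℤ) < s → f s = 0) :
    ∑ s ∈ Finset.Icc (0 : ℤ) ((n + k : ℕ) : ℤ), f s = ∑ s ∈ Finset.Icc (0 : ℤ) n, f s := by
  symm
  apply Finset.sum_subset
  · intro s hs
    rw [Finset.mem_Icc] at hs ⊢
    push_cast
    omega
  · intro s hs hn
    rw [Finset.mem_Icc] at hs hn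
    apply h
    omega

/-- the sum of the fourth powers -/
theorem sum_cb4 (t : ℕ) : ∑ s ∈ Finset.Icc (0 : ℤ) t, cb t s ^ 4 = (fr4 t : ℚ⟦X⟧) := by
  have e : Finset.Icc (0 : ℤ) t = (Finset.range (t + 1)).image (fun k : ℕ => (k : ℤ)) := by
    ext z
    simp only [Finset.mem_Icc, Finset.mem_image, Finset.mem_range]
    constructor
    · rintro ⟨h1, h2⟩
      exact ⟨z.toNat, by omega, by omega⟩
    · rintro ⟨k, h1, rfl⟩
      omega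
  rw [e, Finset.sum_image (fun a _ b _ h => by exact_mod_cast h)]
  unfold fr4
  push_cast
  apply Finset.sum_congr rfl
  intro k _
  unfold cb
  rw [GRel_bz_nat, map_natCast]

/-- I = gs of the sums -/
theorem th_Iser : th Iser = gs (X ^ 2) (fun t => ∑ s ∈ Finset.Icc (0 : ℤ) t,
    (2 * (t : ℚ⟦X⟧) * g t s + th (g t s)) * cb t s ^ 3) := by
  unfold Iser
  rw [th_gs]
  congr 1
  funext t
  rw [th_sum, Finset.mul_sum, ← Finset.sum_add_distrib]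
  apply Finset.sum_congr rfl
  intro s _
  rw [th_gcb]
  ring

theorem th_th_Iser : th (th Iser) = gs (X ^ 2) (fun t => ∑ s ∈ Finset.Icc (0 : ℤ) t,
    (4 * (t : ℚ⟦X⟧) ^ 2 * g t s + 4 * t * th (g t s) + th (th (g t s))) * cb t s ^ 3) := by
  rw [th_Iser, th_gs]
  congr 1
  funext t
  rw [th_sum, Finset.mul_sum, ← Finset.sum_add_distrib]
  apply Finset.sum_congr rfl
  intro s _
  rw [th_mul, th_pow, th_cb, th_add, th_mul, th_mul, th_natCast, th_ofNat]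
  ring

theorem Fser_eq : Fser = gs (X ^ 2) (fun t => ∑ s ∈ Finset.Icc (0 : ℤ) t, cb t s ^ 4) := by
  unfold Fser
  simp only [sum_cb4]

theorem th_Fser : th Fser = gs (X ^ 2) (fun t => ∑ s ∈ Finset.Icc (0 : ℤ) t,
    2 * (t : ℚ⟦X⟧) * cb t s ^ 4) := by
  rw [Fser_eq, th_gs]
  congr 1
  funext t
  rw [th_sum, Finset.mul_sum, ← Finset.sum_add_distrib]
  apply Finset.sum_congr rfl
  intro s _
  rw [th_pow, th_cb]
  ring

theorem th_th_Fser : th (th Fser) = gs (X ^ 2) (fun t => ∑ s ∈ Finset.Icc (0 : ℤ) t,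
    4 * (t : ℚ⟦X⟧) ^ 2 * cb t s ^ 4) := by
  rw [th_Fser, th_gs]
  congr 1
  funext t
  rw [th_sum, Finset.mul_sum, ← Finset.sum_add_distrib]
  apply Finset.sum_congr rfl
  intro s _
  rw [th_mul, th_pow, th_cb, th_mul, th_natCast, th_ofNat]
  ring

end Pool.Agent.Helper99.TC
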