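import Pool.Agent.Helper99.TC.Geo

/-!
# TC-4: two disjoint peaks over the same level do not cross

`Inter a b c d`: the pairs {a, b} and {c, d} are strictly interleaved.

Proof of `cross_up`. Strands of the first peak: `X (i + q)` and `X (i + 2 a - q)`, of the second: `X (j + q)`, `X (j + 2 b - q)`, at level `h i + q`,
`0 ≤ q ≤ min a b`. Going up one level each changes by 0 or 1; a strand of the first and a strand of the second are distinct at the same level by
`CW.inj` and `hd`, so the order between them is kept. At `q = min a b` the two strands of one of the peaks meet, while at `q = 0`, hence at all `q`, a strand of the other one is strictly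
between them (by interleaving): contradiction. `cross_down` by `CW.neg`.
-/

set_option autoImplicit false

namespace Pool.Agent.Helper99.TC

/-- the pairs {a, b} and {c, d} are strictly interleaved -/
def Inter (a b c d : ℤ) : Prop :=
  (min a b < min c d ∧ min c d < max a b ∧ max a b < max c d) ∨
  (min c d < min a b ∧ min a b < max c d ∧ max c d < max a b)

private theorem ups_level {h : ℤ → ℤ} {i : ℤ} {l : ℕ} (u : Ups h i l) :
    ∀ q : ℕ, q ≤ l → h (i + q) = h i + q := by
  intro q
  induction q with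
  | zero => intro _; simp
  | succ q ih =>
    intro hq
    have h1 := ih (by omega)
    have h2 := u q (by omega)
    have h3 : i + ((q + 1 : ℕ) : ℤ) = i + q + 1 := by push_cast; ring
    rw [h3, h2, h1]; push_cast; ring

private theorem downs_level {h : ℤ → ℤ} {i : ℤ} {l : ℕ} (u : Downs h i l) :
    ∀ q : ℕ, q ≤ l → h (i + q) = h i - q := by
  intro q
  induction q with
  | zero => intro _; simp
  | succ q ih =>
    intro hq
    have h1 := ih (by omega)
    have h2 := u q (by omega)
    have h3 : i + ((q + 1 : ℕ) : ℤ) = i + q + 1 := by push_cast; ring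
    rw [h3, h2, h1]; push_cast; ring

/-- levels and steps of the two strands of a peak -/
private theorem peak {m : ℕ} {X h : ℤ → ℤ} (H : CW m X h) (i : ℤ) (a : ℕ)
    (u : Ups h i a) (d : Downs h (i + a) a) :
    (∀ q : ℕ, q ≤ a → h (i + q) = h i + q ∧ h (i + 2 * a - q) = h i + q) ∧
    (∀ q : ℕ, q < a →
      (X (i + (q + 1 : ℕ)) = X (i + q) ∨ X (i + (q + 1 : ℕ)) = X (i + q) + 1) ∧
      (X (i + 2 * a - (q + 1 : ℕ)) = X (i + 2 * a - q) ∨
        X (i + 2 * a - (q + 1 : ℕ)) = X (i + 2 * a - q) + 1)) := by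
  have lev : ∀ q : ℕ, q ≤ a → h (i + q) = h i + q ∧ h (i + 2 * a - q) = h i + q := by
    intro q hq
    refine ⟨ups_level u q hq, ?_⟩
    have h1 := downs_level d (a - q) (by omega)
    have h2 := ups_level u a le_rfl
    have h3 : i + (a : ℤ) + ((a - q : ℕ) : ℤ) = i + 2 * a - q := by
      push_cast [Nat.cast_sub hq]; ring
    rw [h3, h2] at h1
    rw [h1]; push_cast [Nat.cast_sub hq]; ring
  refine ⟨lev, ?_⟩
  intro q hq
  have l1 := lev q hq.le
  have l2 := lev (q + 1) hq
  constructor
  · have e : i + ((q + 1 : ℕ) : ℤ) = i + q + 1 := by push_cast; ring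
    rw [e] at l2 ⊢
    rcases H.step (i + q) with ⟨h1, h2⟩ | ⟨h1, h2⟩
    · exact h2
    · exfalso
      have := l1.1
      have := l2.1
      push_cast at *
      omega
  · have e : i + 2 * (a : ℤ) - ((q + 1 : ℕ) : ℤ) + 1 = i + 2 * a - q := by push_cast; ring
    rcases H.step (i + 2 * (a : ℤ) - ((q + 1 : ℕ) : ℤ)) with ⟨h1, h2⟩ | ⟨h1, h2⟩
    · exfalso
      rw [e] at h1
      have := l1.2
      have := l2.2
      push_cast at *
      omega
    · rw [e] at h2
      rcases h2 with h2 | h2
      · left; omega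
      · right; omega

/-- the order of two strands is kept -/
private theorem keep {f g : ℕ → ℤ} {r : ℕ}
    (hf : ∀ q, q < r → f (q + 1) = f q ∨ f (q + 1) = f q + 1)
    (hg : ∀ q, q < r → g (q + 1) = g q ∨ g (q + 1) = g q + 1)
    (hne : ∀ q, q ≤ r → f q ≠ g q) (h0 : f 0 < g 0) : ∀ q, q ≤ r → f q < g q := by
  intro q
  induction q with
  | zero => intro _; exact h0
  | succ q ih =>
    intro hq
    have h1 := ih (by omega)
    have h2 := hf q (by omega)
    have h3 := hg q (by omega)
    have h4 := hne (q + 1) hq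
    rcases h2 with h2 | h2 <;> rcases h3 with h3 | h3 <;> omega

theorem cross_up {m : ℕ} {X h : ℤ → ℤ} (H : CW m X h) (i j : ℤ) (a b : ℕ) (hlev : h i = h j)
    (u1 : Ups h i a) (d1 : Downs h (i + a) a) (u2 : Ups h j b) (d2 : Downs h (j + b) b)
    (hd : ∀ p q : ℕ, p ≤ 2 * a → q ≤ 2 * b → ¬ (m : ℤ) ∣ (i + p) - (j + q)) :
    ¬ Inter (X i) (X (i + 2 * a)) (X j) (X (j + 2 * b)) := by
  obtain ⟨la, sa⟩ := peak H i a u1 d1
  obtain ⟨lb, sb⟩ := peak H j b u2 d2
  -- the four strands
  have n11 : ∀ q : ℕ, q ≤ min a b → X (i + q) ≠ X (j + q) := by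
    intro q hq e
    refine hd q q (by omega) (by omega) (H.inj _ _ e ?_)
    rw [(la q (by omega)).1, (lb q (by omega)).1, hlev]
  have n12 : ∀ q : ℕ, q ≤ min a b → X (i + q) ≠ X (j + 2 * b - q) := by
    intro q hq e
    have hc : ((2 * b - q : ℕ) : ℤ) = 2 * b - q := by
      push_cast [Nat.cast_sub (show q ≤ 2 * b by omega)]; ring
    have e2 : j + ((2 * b - q : ℕ) : ℤ) = j + 2 * b - q := by rw [hc]; ring
    refine hd q (2 * b - q) (by omega) (by omega) (H.inj _ _ (by rw [e2]; exact e) ?_)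
    rw [e2, (la q (by omega)).1, (lb q (by omega)).2, hlev]
  have n21 : ∀ q : ℕ, q ≤ min a b → X (i + 2 * a - q) ≠ X (j + q) := by
    intro q hq e
    have hc : ((2 * a - q : ℕ) : ℤ) = 2 * a - q := by
      push_cast [Nat.cast_sub (show q ≤ 2 * a by omega)]; ring
    have e2 : i + ((2 * a - q : ℕ) : ℤ) = i + 2 * a - q := by rw [hc]; ring
    refine hd (2 * a - q) q (by omega) (by omega) (H.inj _ _ (by rw [e2]; exact e) ?_)
    rw [e2, (la q (by omega)).2, (lb q (by omega)).1, hlev]
  have n22 : ∀ q : ℕ, q ≤ min a b → X (i + 2 * a - q) ≠ X (j + 2 * b - q) := by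
    intro q hq e
    have hc : ((2 * a - q : ℕ) : ℤ) = 2 * a - q := by
      push_cast [Nat.cast_sub (show q ≤ 2 * a by omega)]; ring
    have e2 : i + ((2 * a - q : ℕ) : ℤ) = i + 2 * a - q := by rw [hc]; ring
    have hc' : ((2 * b - q : ℕ) : ℤ) = 2 * b - q := by
      push_cast [Nat.cast_sub (show q ≤ 2 * b by omega)]; ring
    have e3 : j + ((2 * b - q : ℕ) : ℤ) = j + 2 * b - q := by rw [hc']; ring
    refine hd (2 * a - q) (2 * b - q) (by omega) (by omega)
      (H.inj _ _ (by rw [e2, e3]; exact e) ?_)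
    rw [e2, e3, (la q (by omega)).2, (lb q (by omega)).2, hlev]
  have sA1 : ∀ q, q < min a b → X (i + (q + 1 : ℕ)) = X (i + q) ∨ X (i + (q + 1 : ℕ)) = X (i + q) + 1 :=
    fun q hq => (sa q (by omega)).1
  have sA2 : ∀ q, q < min a b → X (i + 2 * a - (q + 1 : ℕ)) = X (i + 2 * a - q) ∨
      X (i + 2 * a - (q + 1 : ℕ)) = X (i + 2 * a - q) + 1 := fun q hq => (sa q (by omega)).2
  have sB1 : ∀ q, q < min a b → X (j + (q + 1 : ℕ)) = X (j + q) ∨ X (j + (q + 1 : ℕ)) = X (j + q) + 1 :=
    fun q hq => (sb q (by omega)).1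
  have sB2 : ∀ q, q < min a b → X (j + 2 * b - (q + 1 : ℕ)) = X (j + 2 * b - q) ∨
      X (j + 2 * b - (q + 1 : ℕ)) = X (j + 2 * b - q) + 1 := fun q hq => (sb q (by omega)).2
  have k11 := fun h0 => keep (f := fun q : ℕ => X (i + q)) (g := fun q : ℕ => X (j + q)) sA1 sB1 n11 h0 _ le_rfl
  have k11' := fun h0 => keep (f := fun q : ℕ => X (j + q)) (g := fun q : ℕ => X (i + q)) sB1 sA1
    (fun q hq => (n11 q hq).symm) h0 _ le_rfl
  have k12 := fun h0 => keep (f := fun q : ℕ => X (i + q)) (g := fun q : ℕ => X (j + 2 * b - q)) sA1 sB2 n12 h0 _ le_rfl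
  have k12' := fun h0 => keep (f := fun q : ℕ => X (j + 2 * b - q)) (g := fun q : ℕ => X (i + q)) sB2 sA1
    (fun q hq => (n12 q hq).symm) h0 _ le_rfl
  have k21 := fun h0 => keep (f := fun q : ℕ => X (i + 2 * a - q)) (g := fun q : ℕ => X (j + q)) sA2 sB1 n21 h0 _ le_rfl
  have k21' := fun h0 => keep (f := fun q : ℕ => X (j + q)) (g := fun q : ℕ => X (i + 2 * a - q)) sB1 sA2
    (fun q hq => (n21 q hq).symm) h0 _ le_rfl
  have k22 := fun h0 => keep (f := fun q : ℕ => X (i + 2 * a - q)) (g := fun q : ℕ => X (j + 2 * b - q)) sA2 sB2 n22 h0 _ le_rfl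
  have k22' := fun h0 => keep (f := fun q : ℕ => X (j + 2 * b - q)) (g := fun q : ℕ => X (i + 2 * a - q)) sB2 sA2
    (fun q hq => (n22 q hq).symm) h0 _ le_rfl
  simp only [Nat.cast_zero, add_zero, sub_zero] at k11 k11' k12 k12' k21 k21' k22 k22'
  intro hI
  unfold Inter at hI
  have hm : X (i + (min a b : ℕ)) = X (i + 2 * a - (min a b : ℕ)) ∨
      X (j + (min a b : ℕ)) = X (j + 2 * b - (min a b : ℕ)) := by
    rcases le_total a b with h1 | h1
    · left
      rw [min_eq_left h1]
      congr 1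
      ring
    · right
      rw [min_eq_right h1]
      congr 1
      ring
  generalize X (i + (min a b : ℕ)) = A1 at *
  generalize X (i + 2 * a - (min a b : ℕ)) = A2 at *
  generalize X (j + (min a b : ℕ)) = B1 at *
  generalize X (j + 2 * b - (min a b : ℕ)) = B2 at *
  generalize X (i + 2 * a) = a2 at *
  generalize X (j + 2 * b) = b2 at *
  generalize X i = a1 at *
  generalize X j = b1 at *
  clear sA1 sA2 sB1 sB2 n11 n12 n21 n22 la lb sa sb hd u1 u2 d1 d2
  rcases lt_trichotomy a1 b1 with c11 | c11 | c11 <;>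
  rcases lt_trichotomy a1 b2 with c12 | c12 | c12 <;>
  rcases lt_trichotomy a2 b1 with c21 | c21 | c21 <;>
  rcases lt_trichotomy a2 b2 with c22 | c22 | c22 <;>
  omega

theorem cross_down {m : ℕ} {X h : ℤ → ℤ} (H : CW m X h) (i j : ℤ) (a b : ℕ) (hlev : h i = h j)
    (d1 : Downs h i a) (u1 : Ups h (i + a) a) (d2 : Downs h j b) (u2 : Ups h (j + b) b)
    (hd : ∀ p q : ℕ, p ≤ 2 * a → q ≤ 2 * b → ¬ (m : ℤ) ∣ (i + p) - (j + q)) :
    ¬ Inter (X i) (X (i + 2 * a)) (X j) (X (j + 2 * b)) := by
  have := cross_up H.neg i j a b (by simp only [hlev])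
    (fun q hq => by have := d1 q hq; simp only; omega)
    (fun q hq => by have := u1 q hq; simp only; omega)
    (fun q hq => by have := d2 q hq; simp only; omega)
    (fun q hq => by have := u2 q hq; simp only; omega) hd
  intro hI
  apply this
  unfold Inter at *
  rcases hI with hI | hI
  · right; omega
  · left; omega

end Pool.Agent.Helper99.TC
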