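import Pool.Agent.Helper99.TC.Excursion

/-!
# TC-6: decomposition at the level of the root

A closed walk all of whose corners are normal except possibly at the multiples of `m`, with `h (-1) = h 0 + 1`, `h 1 = h 0 + 1`. It is a sequence of `r` excursions
(alternately peaks and valleys, beginning and ending with a peak) of heights `l 0, ..., l (r-1)`; `tau l q = 2 (l 0 + ... + l (q - 1))` is the time at which the q-th begins.

Proof. Times `k` in `[0, m]` with `h k = h 0`; between two consecutive ones use `excursion_up` or `excursion_down` (the walk stays strictly on one side because it moves by one level). The first and the last are peaks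
(`h 1 = h 0 + 1`, `h (m - 1) = h (-1) = h 0 + 1`). Two consecutive peaks are impossible by `no_touch_up`, two consecutive valleys by `no_touch_down` (their corners are at times in `(0, m)`). So peaks and valleys alternate and `r` is odd.
Suggested formal proof: prove by strong induction on `m - t` (or build greedily) the statement for the part of the walk from a time `t ∈ [0, m)` with `h t = h 0` on: there are `r ≥ 1` and `l` with `t + 2 ∑ l = m` and the alternating shape, beginning
with a peak or a valley according to the first step; when you prepend an excursion use the no-touch lemma for the alternation.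
-/

set_option autoImplicit false

namespace Pool.Agent.Helper99.TC

/-- start time of the `q`-th excursion -/
def tau (l : ℕ → ℕ) (q : ℕ) : ℕ := 2 * ∑ j ∈ Finset.range q, l j

private theorem dc_next {m : ℕ} {X h : ℤ → ℤ} (H : CW m X h) (t : ℕ) (ht : t < m) :
    ∃ j : ℕ, t < j ∧ j ≤ m ∧ h j = h 0 ∧ ∀ k : ℤ, (t : ℤ) < k → k < j → h k ≠ h 0 := by
  classical
  have hm : h (m : ℤ) = h 0 := by
    have := H.perh 0
    rwa [zero_add] at this
  have hex : ∃ n : ℕ, t < n ∧ h (n : ℤ) = h 0 := ⟨m, ht, hm⟩
  refine ⟨Nat.find hex, (Nat.find_spec hex).1, Nat.find_min' hex ⟨ht, hm⟩,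
    (Nat.find_spec hex).2, ?_⟩
  intro k hk1 hk2 hk3
  obtain ⟨n, rfl⟩ : ∃ n : ℕ, k = n := ⟨k.toNat, by omega⟩
  exact Nat.find_min hex (m := n) (by exact_mod_cast hk2) ⟨by exact_mod_cast hk1, hk3⟩

private theorem dc_up {m : ℕ} {X h : ℤ → ℤ} (H : CW m X h) (t j : ℤ) (v : ℤ) (h0 : h t = v)
    (hs : h (t + 1) = h t + 1) (hne : ∀ k : ℤ, t < k → k < j → h k ≠ v) :
    ∀ n : ℕ, t + 1 + n < j → v < h (t + 1 + n) := by
  intro n
  induction n with
  | zero =>
    intro _
    have e : t + 1 + ((0 : ℕ) : ℤ) = t + 1 := by simp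
    rw [e, hs, h0]
    omega
  | succ n ih =>
    intro hn
    have h1 := ih (by push_cast at hn; omega)
    have h2 := hne (t + 1 + ((n + 1 : ℕ) : ℤ)) (by push_cast; omega) hn
    have e : t + 1 + (n : ℤ) + 1 = t + 1 + ((n + 1 : ℕ) : ℤ) := by push_cast; ring
    have h3 := H.step (t + 1 + n)
    rw [e] at h3
    omega

private theorem dc_down {m : ℕ} {X h : ℤ → ℤ} (H : CW m X h) (t j : ℤ) (v : ℤ) (h0 : h t = v)
    (hs : h (t + 1) = h t - 1) (hne : ∀ k : ℤ, t < k → k < j → h k ≠ v) :
    ∀ n : ℕ, t + 1 + n < j → h (t + 1 + n) < v := by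
  intro n
  induction n with
  | zero =>
    intro _
    have e : t + 1 + ((0 : ℕ) : ℤ) = t + 1 := by simp
    rw [e, hs, h0]
    omega
  | succ n ih =>
    intro hn
    have h1 := ih (by push_cast at hn; omega)
    have h2 := hne (t + 1 + ((n + 1 : ℕ) : ℤ)) (by push_cast; omega) hn
    have e : t + 1 + (n : ℤ) + 1 = t + 1 + ((n + 1 : ℕ) : ℤ) := by push_cast; ring
    have h3 := H.step (t + 1 + n)
    rw [e] at h3
    omega

private theorem dc_nd {m k : ℕ} (h0 : 0 < k) (hk : k < m) : ¬ (m : ℤ) ∣ (k : ℤ) := by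
  intro hd
  have := Int.le_of_dvd (by exact_mod_cast h0) hd
  omega

/-- an excursion starting at time `t`: a peak if `p` is even, a valley if `p` is odd -/
private def Ex (h : ℤ → ℤ) (p : ℕ) (t : ℤ) (l : ℕ) : Prop :=
  (Even p → Ups h t l ∧ Downs h (t + l) l) ∧ (Odd p → Downs h t l ∧ Ups h (t + l) l)

private theorem dc_first {m : ℕ} {X h : ℤ → ℤ} (H : CW m X h)
    (c : ∀ k : ℤ, ¬ (m : ℤ) ∣ k → NC X h k) (t : ℕ) (ht : t < m) (h0 : h t = h 0) (p : ℕ)
    (hp0 : Even p → h ((t : ℤ) + 1) = h t + 1) (hp1 : Odd p → h ((t : ℤ) + 1) = h t - 1) :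
    ∃ l : ℕ, 1 ≤ l ∧ t + 2 * l ≤ m ∧ h ((t + 2 * l : ℕ) : ℤ) = h 0 ∧ Ex h p t l := by
  obtain ⟨j, hj1, hj2, hj3, hj4⟩ := dc_next H t ht
  have hc : ∀ k : ℤ, (t : ℤ) < k → k < j → NC X h k := by
    intro k hk1 hk2
    obtain ⟨n, rfl⟩ : ∃ n : ℕ, k = n := ⟨k.toNat, by omega⟩
    exact c _ (dc_nd (by omega) (by omega))
  rcases Nat.even_or_odd p with he | ho
  · have hin : ∀ k : ℤ, (t : ℤ) < k → k < j → h t < h k := by
      intro k hk1 hk2
      obtain ⟨n, rfl⟩ : ∃ n : ℕ, k = (t : ℤ) + 1 + n := ⟨(k - t - 1).toNat, by omega⟩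
      rw [h0]
      exact dc_up H t j (h 0) h0 (hp0 he) hj4 n hk2
    obtain ⟨l, hl1, hl2, hl3, hl4⟩ := excursion_up H t j (by exact_mod_cast hj1)
      (by omega) (by rw [h0, hj3]) hin hc
    have e : j = t + 2 * l := by omega
    refine ⟨l, hl1, by omega, by rw [← e]; exact hj3, fun _ => ⟨hl3, hl4⟩, fun ho => ?_⟩
    exact absurd he (Nat.not_even_iff_odd.mpr ho)
  · have hin : ∀ k : ℤ, (t : ℤ) < k → k < j → h k < h t := by
      intro k hk1 hk2
      obtain ⟨n, rfl⟩ : ∃ n : ℕ, k = (t : ℤ) + 1 + n := ⟨(k - t - 1).toNat, by omega⟩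
      rw [h0]
      exact dc_down H t j (h 0) h0 (hp1 ho) hj4 n hk2
    obtain ⟨l, hl1, hl2, hl3, hl4⟩ := excursion_down H t j (by exact_mod_cast hj1)
      (by omega) (by rw [h0, hj3]) hin hc
    have e : j = t + 2 * l := by omega
    refine ⟨l, hl1, by omega, by rw [← e]; exact hj3, fun he => ?_, fun _ => ⟨hl3, hl4⟩⟩
    exact absurd he (Nat.not_even_iff_odd.mpr ho)

private theorem tau_cons (a : ℕ) (l : ℕ → ℕ) (q : ℕ) :
    tau (fun n => Nat.casesOn n a l) (q + 1) = 2 * a + tau l q := by
  unfold tau
  rw [Finset.sum_range_succ']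
  change 2 * (∑ k ∈ Finset.range q, l k + a) = 2 * a + 2 * ∑ k ∈ Finset.range q, l k
  ring

private theorem dc_main {m : ℕ} {X h : ℤ → ℤ} (H : CW m X h)
    (c : ∀ k : ℤ, ¬ (m : ℤ) ∣ k → NC X h k) (h1 : h (-1) = h 0 + 1) :
    ∀ d t : ℕ, m - t = d → t < m → h t = h 0 → ∀ p : ℕ,
      (Even p → h ((t : ℤ) + 1) = h t + 1) → (Odd p → h ((t : ℤ) + 1) = h t - 1) →
      ∃ (r : ℕ) (l : ℕ → ℕ), 1 ≤ r ∧ Odd (r + p) ∧ m = t + tau l r ∧ (∀ q < r, 1 ≤ l q) ∧
        (∀ q < r, h ((t : ℤ) + tau l q) = h 0) ∧
        (∀ q < r, Ex h (q + p) ((t : ℤ) + tau l q) (l q)) := by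
  intro d
  induction d using Nat.strong_induction_on with
  | _ d ih =>
    intro t hd ht h0 p hp0 hp1
    obtain ⟨a, ha1, ha2, ha3, ha4⟩ := dc_first H c t ht h0 p hp0 hp1
    rcases Nat.lt_or_ge (t + 2 * a) m with hlt | hge
    · -- the next excursion
      have hstep : (h (((t + 2 * a : ℕ) : ℤ) + 1) = h ((t + 2 * a : ℕ) : ℤ) + 1 ∨
          h (((t + 2 * a : ℕ) : ℤ) + 1) = h ((t + 2 * a : ℕ) : ℤ) - 1) := by
        rcases H.step ((t + 2 * a : ℕ) : ℤ) with ⟨h1, _⟩ | ⟨h1, _⟩
        · exact Or.inl h1
        · exact Or.inr h1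
      have hnt : (Even p → h (((t + 2 * a : ℕ) : ℤ) + 1) = h ((t + 2 * a : ℕ) : ℤ) - 1) ∧
          (Odd p → h (((t + 2 * a : ℕ) : ℤ) + 1) = h ((t + 2 * a : ℕ) : ℤ) + 1) := by
        constructor
        · intro he
          rcases hstep with hs | hs
          · exfalso
            obtain ⟨b, hb1, hb2, hb3, hb4⟩ := dc_first H c (t + 2 * a) hlt ha3 p
              (fun _ => hs) (fun ho => absurd he (Nat.not_even_iff_odd.mpr ho))
            obtain ⟨u1, d1⟩ := ha4.1 he
            obtain ⟨u2, d2⟩ := hb4.1 he
            have e1 : ((t + 2 * a : ℕ) : ℤ) = (t : ℤ) + 2 * a := by push_cast; ring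
            rw [e1] at u2 d2
            refine no_touch_up H t a b ha1 hb1 (by omega) u1 d1 u2 d2 (c _ ?_) (c _ ?_) (c _ ?_)
            · have := dc_nd (m := m) (k := t + a) (by omega) (by omega)
              push_cast at this
              exact this
            · have := dc_nd (m := m) (k := t + 2 * a) (by omega) (by omega)
              push_cast at this
              exact this
            · have := dc_nd (m := m) (k := t + 2 * a + b) (by omega) (by omega)
              push_cast at this
              exact this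
          · exact hs
        · intro ho
          rcases hstep with hs | hs
          · exact hs
          · exfalso
            obtain ⟨b, hb1, hb2, hb3, hb4⟩ := dc_first H c (t + 2 * a) hlt ha3 p
              (fun he => absurd he (Nat.not_even_iff_odd.mpr ho)) (fun _ => hs)
            obtain ⟨u1, d1⟩ := ha4.2 ho
            obtain ⟨u2, d2⟩ := hb4.2 ho
            have e1 : ((t + 2 * a : ℕ) : ℤ) = (t : ℤ) + 2 * a := by push_cast; ring
            rw [e1] at u2 d2
            refine no_touch_down H t a b ha1 hb1 (by omega) u1 d1 u2 d2 (c _ ?_) (c _ ?_) (c _ ?_)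
            · have := dc_nd (m := m) (k := t + a) (by omega) (by omega)
              push_cast at this
              exact this
            · have := dc_nd (m := m) (k := t + 2 * a) (by omega) (by omega)
              push_cast at this
              exact this
            · have := dc_nd (m := m) (k := t + 2 * a + b) (by omega) (by omega)
              push_cast at this
              exact this
      obtain ⟨r, l, hr, hodd, hm, hl, hz, hE⟩ := ih (m - (t + 2 * a)) (by omega) (t + 2 * a) rfl
        hlt ha3 (p + 1)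
        (fun he => hnt.2 (by
          rcases Nat.even_or_odd p with h2 | h2
          · exact absurd he (by simpa [Nat.even_add_one] using h2)
          · exact h2))
        (fun ho => hnt.1 (by
          rcases Nat.even_or_odd p with h2 | h2
          · exact h2
          · exact absurd ho (Nat.not_odd_iff_even.mpr h2.add_one)))
      refine ⟨r + 1, fun n => Nat.casesOn n a l, by omega, ?_, ?_, ?_, ?_, ?_⟩
      · have e : r + 1 + p = r + (p + 1) := by ring
        rw [e]
        exact hodd
      · rw [tau_cons]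
        omega
      · intro q hq
        rcases q with _ | q
        · exact ha1
        · exact hl q (by omega)
      · intro q hq
        rcases q with _ | q
        · simpa [tau] using h0
        · rw [tau_cons]
          have := hz q (by omega)
          have e : (t : ℤ) + ((2 * a + tau l q : ℕ) : ℤ) = ((t + 2 * a : ℕ) : ℤ) + (tau l q : ℤ) := by
            push_cast; ring
          rw [e]
          exact this
      · intro q hq
        rcases q with _ | q
        · have e : (t : ℤ) + ((tau (fun n => Nat.casesOn n a l) 0 : ℕ) : ℤ) = t := by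
            simp [tau]
          rw [e, Nat.zero_add]
          exact ha4
        · rw [tau_cons]
          have := hE q (by omega)
          have e : (t : ℤ) + ((2 * a + tau l q : ℕ) : ℤ) = ((t + 2 * a : ℕ) : ℤ) + (tau l q : ℤ) := by
            push_cast; ring
          have e2 : q + 1 + p = q + (p + 1) := by ring
          rw [e, e2]
          exact this
    · -- the last excursion
      have hm : m = t + 2 * a := by omega
      have hlast : Even p := by
        rcases Nat.even_or_odd p with h2 | h2
        · exact h2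
        · exfalso
          obtain ⟨_, u⟩ := ha4.2 h2
          have h3 := u (a - 1) (by omega)
          have e1 : (t : ℤ) + (a : ℤ) + ((a - 1 : ℕ) : ℤ) + 1 = (m : ℤ) := by omega
          have e2 : (t : ℤ) + (a : ℤ) + ((a - 1 : ℕ) : ℤ) = -1 + (m : ℤ) := by omega
          rw [e1, e2, H.perh] at h3
          have h4 := H.perh 0
          rw [zero_add] at h4
          omega
      refine ⟨1, fun _ => a, le_rfl, ?_, ?_, ?_, ?_, ?_⟩
      · rw [add_comm]
        exact hlast.add_one
      · simpa [tau] using hm
      · intro q _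
        exact ha1
      · intro q hq
        have : q = 0 := by omega
        subst this
        simpa [tau] using h0
      · intro q hq
        have : q = 0 := by omega
        subst this
        have e : (t : ℤ) + ((tau (fun _ => a) 0 : ℕ) : ℤ) = t := by simp [tau]
        rw [e, Nat.zero_add]
        exact ha4

theorem decomp {m : ℕ} {X h : ℤ → ℤ} (H : CW m X h) (c : ∀ k : ℤ, ¬ (m : ℤ) ∣ k → NC X h k)
    (h1 : h (-1) = h 0 + 1) (h2 : h 1 = h 0 + 1) :
    ∃ (r : ℕ) (l : ℕ → ℕ), Odd r ∧ m = tau l r ∧ (∀ q < r, 1 ≤ l q) ∧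
      (∀ q < r, h (tau l q) = h 0) ∧
      (∀ q < r, Even q → Ups h (tau l q) (l q) ∧ Downs h (tau l q + l q) (l q)) ∧
      (∀ q < r, Odd q → Downs h (tau l q) (l q) ∧ Ups h (tau l q + l q) (l q)) := by
  obtain ⟨r, l, hr, hodd, hm, hl, hz, hE⟩ := dc_main H c h1 m 0 (by omega) H.mpos rfl 0
    (fun _ => by simpa using h2) (fun ho => absurd ho (by decide))
  have e : ∀ n : ℕ, ((0 : ℕ) : ℤ) + (n : ℤ) = n := fun n => by simp
  refine ⟨r, l, by simpa using hodd, by omega, hl, ?_, ?_, ?_⟩
  · intro q hq
    have := hz q hq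
    rwa [e] at this
  · intro q hq he
    have := (hE q hq).1 (by simpa using he)
    rwa [e] at this
  · intro q hq he
    have := (hE q hq).2 (by simpa using he)
    rwa [e] at this

end Pool.Agent.Helper99.TC
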