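import Mathlib

/-!
# Three-choice polygons: definitions (problem MP_42dc3d_co)

The definitions follow the problem file: steps U, D, L, R; after U or D anything except the reverse step;
after L only L or D; after R only R or U; a three-choice polygon is a three-choice walk which ends at the origin
and visits no vertex twice apart from this return.
-/

set_option autoImplicit false

namespace Pool.Agent.Helper99.TC

/-- the four unit steps -/
inductive Step
  | U | D | L | R
  deriving DecidableEq

/-- the displacement of a step -/
def Step.vec : Step → ℤ × ℤ
  | .U => (0, 1)
  | .D => (0, -1)
  | .L => (-1, 0)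
  | .R => (1, 0)

/-- `Step.Next s s'`: the step `s'` may follow the step `s` -/
def Step.Next : Step → Step → Prop
  | .U, s => s ≠ Step.D
  | .D, s => s ≠ Step.U
  | .L, s => s = Step.L ∨ s = Step.D
  | .R, s => s = Step.R ∨ s = Step.U

/-- the vertex of the walk `w` after `k` steps -/
def pos (w : List Step) (k : ℕ) : ℤ × ℤ := ((w.take k).map Step.vec).sum

/-- three-choice polygons, counted as walks from the origin -/
structure IsTCP (w : List Step) : Prop where
  chain : w.IsChain Step.Next
  closed : pos w w.length = 0
  inj : ∀ i j : ℕ, i < w.length → j < w.length → pos w i = pos w j → i = j

/-- the number of three-choice polygons of perimeter `2 * n` -/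
noncomputable def tc (n : ℕ) : ℕ := Nat.card {w : List Step // w.length = 2 * n ∧ IsTCP w}

end Pool.Agent.Helper99.TC
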