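import Pool.Agent.Helper99.TC.Zigzag

/-!
# TC-3: excursions with normal corners

`excursion_up`: an excursion above the level of its end points, all of whose inner corners are normal, is one up run followed by
one down run. Proof: let `l1` be the length of the first (up) run. If the walk then goes down to the end we are done (`j = i + 2 l1` by levels).
Otherwise there are maximal runs (p, l) with `i < p` and `p + l < j`; take one of minimal length `l`, say an up run (the other case is the same with
`zigzag_down`). Claim: the `l` steps before `p` are down steps. If not, let `q - 1 → q` be the last up step before `p`, `p - l < q < p`: if `q > i` the steps from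
`q` to `p` form a maximal run inside, of length `< l`, contradiction; and `q ≤ i` would mean that the steps from i to p are all down steps, but the first step is an up step.
When the run being looked at is a down run, the run before it may be the first run of the excursion (from `i` to `i + l1`); its length `l1` is larger than
the length of the second run (which ends at a level above `h i`, because of `hin`) and the second run is inside, so `l1 > l` too; the same at the other end. So the zigzag lemma applies with `l`
(`2 l < m`: the excursion has at least four runs of length `≥ l`, the first longer than `l`, so `4 l < j - i ≤ m`). Contradiction.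

`excursion_down` by `CW.neg`, `NC.neg`.

`no_touch_up`: two consecutive peaks (heights `a`, `b`) over the same level with a normal corner between them are impossible: if `a ≤ b` use `zigzag_down` for the
middle run `Downs h (i + a) a`, else `zigzag_up` for the middle run `Ups h (i + 2 a) b`.
-/

set_option autoImplicit false

namespace Pool.Agent.Helper99.TC

private theorem ex_step {m : ℕ} {X h : ℤ → ℤ} (H : CW m X h) (k : ℤ) :
    h (k + 1) = h k + 1 ∨ h (k + 1) = h k - 1 := by
  rcases H.step k with ⟨h1, _⟩ | ⟨h1, _⟩
  · exact Or.inl h1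
  · exact Or.inr h1

private theorem ex_lvlU {h : ℤ → ℤ} {i : ℤ} {l : ℕ} (u : Ups h i l) :
    ∀ q : ℕ, q ≤ l → h (i + q) = h i + q := by
  intro q
  induction q with
  | zero => intro _; simp
  | succ q ih =>
    intro hq
    have h1 := ih (by omega)
    have h2 := u q (by omega)
    have e2 : i + (q : ℤ) + 1 = i + ((q + 1 : ℕ) : ℤ) := by push_cast; ring
    rw [e2, h1] at h2
    push_cast at h2 ⊢
    omega

private theorem ex_lvlD {h : ℤ → ℤ} {j : ℤ} {l : ℕ} (d : Downs h j l) :
    ∀ q : ℕ, q ≤ l → h (j + q) = h j - q := by
  intro q
  induction q with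
  | zero => intro _; simp
  | succ q ih =>
    intro hq
    have h1 := ih (by omega)
    have h2 := d q (by omega)
    have e2 : j + (q : ℤ) + 1 = j + ((q + 1 : ℕ) : ℤ) := by push_cast; ring
    rw [e2, h1] at h2
    push_cast at h2 ⊢
    omega

private theorem ex_upsR {h : ℤ → ℤ} {i : ℤ} {l : ℕ} (u : Ups h i l)
    (e : h (i + l + 1) = h (i + l) + 1) : Ups h i (l + 1) := by
  intro q hq
  rcases Nat.lt_or_ge q l with h1 | h1
  · exact u q h1
  · have : q = l := by omega
    subst this
    exact e

private theorem ex_downsR {h : ℤ → ℤ} {i : ℤ} {l : ℕ} (u : Downs h i l)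
    (e : h (i + l + 1) = h (i + l) - 1) : Downs h i (l + 1) := by
  intro q hq
  rcases Nat.lt_or_ge q l with h1 | h1
  · exact u q h1
  · have : q = l := by omega
    subst this
    exact e

private theorem ex_upsL {h : ℤ → ℤ} {i : ℤ} {l : ℕ} (u : Ups h i l)
    (e : h i = h (i - 1) + 1) : Ups h (i - 1) (l + 1) := by
  intro q hq
  rcases q with _ | q
  · have e1 : i - 1 + ((0 : ℕ) : ℤ) + 1 = i := by push_cast; ring
    have e2 : i - 1 + ((0 : ℕ) : ℤ) = i - 1 := by push_cast; ring
    rw [e1, e2]
    exact e
  · have e2 : i - 1 + ((q + 1 : ℕ) : ℤ) = i + q := by push_cast; ring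
    rw [e2]
    exact u q (by omega)

private theorem ex_downsL {h : ℤ → ℤ} {i : ℤ} {l : ℕ} (u : Downs h i l)
    (e : h i = h (i - 1) - 1) : Downs h (i - 1) (l + 1) := by
  intro q hq
  rcases q with _ | q
  · have e1 : i - 1 + ((0 : ℕ) : ℤ) + 1 = i := by push_cast; ring
    have e2 : i - 1 + ((0 : ℕ) : ℤ) = i - 1 := by push_cast; ring
    rw [e1, e2]
    exact e
  · have e2 : i - 1 + ((q + 1 : ℕ) : ℤ) = i + q := by push_cast; ring
    rw [e2]
    exact u q (by omega)

/-- `(p, l)` is a maximal up run or a maximal down run -/
private def ExRun (h : ℤ → ℤ) (p : ℤ) (l : ℕ) : Prop :=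
  (Ups h p l ∧ h (p - 1) = h p + 1 ∧ h (p + l + 1) = h (p + l) - 1) ∨
  (Downs h p l ∧ h (p - 1) = h p - 1 ∧ h (p + l + 1) = h (p + l) + 1)

/-- an inner maximal run -/
private def ExIn (h : ℤ → ℤ) (i j : ℤ) (l : ℕ) : Prop :=
  1 ≤ l ∧ ∃ p : ℤ, i < p ∧ p + l < j ∧ ExRun h p l

private theorem ex_noRun {m : ℕ} {X h : ℤ → ℤ} (H : CW m X h) (i j : ℤ)
    (hm : j - i ≤ m) (hi : h i = h j) (hin : ∀ k, i < k → k < j → h i < h k)
    (c : ∀ k, i < k → k < j → NC X h k) (l : ℕ) (hmin : ∀ r : ℕ, r < l → ¬ ExIn h i j r)
    (hl : ExIn h i j l) : False := by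
  obtain ⟨hl1, p, hp1, hp2, hrun⟩ := hl
  have ne : ∀ k : ℤ, h i < h k → k ≠ i ∧ k ≠ j := by
    intro k hk
    constructor
    · rintro rfl
      omega
    · rintro rfl
      omega
  rcases hrun with ⟨u, hb, he⟩ | ⟨d, hb, he⟩
  · have lu := ex_lvlU u
    have hpi : h i < h p := hin p hp1 (by omega)
    have A : ∀ r : ℕ, r ≤ l → Downs h (p - r) r ∧ i ≤ p - r := by
      intro r
      induction r with
      | zero =>
        intro _
        refine ⟨fun q hq => absurd hq (by omega), ?_⟩
        push_cast
        omega
      | succ r ih =>
        intro hr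
        obtain ⟨d1, hir⟩ := ih (by omega)
        have e0 : p - (r : ℤ) + (r : ℤ) = p := by ring
        have l1 := ex_lvlD d1 r le_rfl
        rw [e0] at l1
        have hn := ne (p - r) (by omega)
        have hir2 : i < p - r := by
          rcases lt_or_eq_of_le hir with h1 | h1
          · exact h1
          · exact absurd h1.symm hn.1
        have es : p - (r : ℤ) - 1 + 1 = p - r := by ring
        have hstep := ex_step H (p - r - 1)
        rw [es] at hstep
        have hdown : h (p - r) = h (p - r - 1) - 1 := by
          rcases hstep with h1 | h1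
          · exfalso
            rcases Nat.eq_zero_or_pos r with h0 | h0
            · subst h0
              have e3 : p - ((0 : ℕ) : ℤ) = p := by push_cast; ring
              rw [e3] at h1
              omega
            · refine hmin r (by omega) ⟨h0, p - r, hir2, by omega, Or.inr ⟨d1, by omega, ?_⟩⟩
              rw [e0]
              have := u 0 (by omega)
              have e4 : p + ((0 : ℕ) : ℤ) = p := by push_cast; ring
              rw [e4] at this
              exact this
          · exact h1
        have d2 := ex_downsL d1 hdown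
        have e5 : p - ((r + 1 : ℕ) : ℤ) = p - r - 1 := by push_cast; ring
        rw [e5]
        exact ⟨d2, by omega⟩
    have lul := lu l le_rfl
    have B : ∀ r : ℕ, r ≤ l → Downs h (p + l) r ∧ p + l + r ≤ j := by
      intro r
      induction r with
      | zero =>
        intro _
        refine ⟨fun q hq => absurd hq (by omega), ?_⟩
        push_cast
        omega
      | succ r ih =>
        intro hr
        obtain ⟨d1, hir⟩ := ih (by omega)
        have l1 := ex_lvlD d1 r le_rfl
        have hn := ne (p + l + r) (by omega)
        have hir2 : p + l + r < j := by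
          rcases lt_or_eq_of_le hir with h1 | h1
          · exact h1
          · exact absurd h1 hn.2
        have hdown : h (p + l + r + 1) = h (p + l + r) - 1 := by
          rcases ex_step H (p + l + r) with h1 | h1
          · exfalso
            rcases Nat.eq_zero_or_pos r with h0 | h0
            · subst h0
              have e3 : p + l + ((0 : ℕ) : ℤ) = p + l := by push_cast; ring
              rw [e3] at h1
              omega
            · refine hmin r (by omega) ⟨h0, p + l, by omega, hir2, Or.inr ⟨d1, ?_, h1⟩⟩
              have := lu (l - 1) (by omega)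
              have e4 : p + ((l - 1 : ℕ) : ℤ) = p + l - 1 := by omega
              rw [e4] at this
              omega
          · exact h1
        have d2 := ex_downsR d1 hdown
        refine ⟨d2, ?_⟩
        push_cast
        omega
    obtain ⟨dA, hA⟩ := A l le_rfl
    obtain ⟨dB, hB⟩ := B l le_rfl
    have e0 : p - (l : ℤ) + (l : ℤ) = p := by ring
    have l1 := ex_lvlD dA l le_rfl
    rw [e0] at l1
    have hn := ne (p - l) (by omega)
    have hA2 : i < p - l := by
      rcases lt_or_eq_of_le hA with h1 | h1
      · exact h1
      · exact absurd h1.symm hn.1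
    exact zigzag_up H p l hl1 (by omega) dA u dB (c p hp1 (by omega)) (c (p + l) (by omega) hp2)
  · have ld := ex_lvlD d
    have ldl := ld l le_rfl
    have hpi : h i < h (p + l) := hin (p + l) (by omega) hp2
    have A : ∀ r : ℕ, r ≤ l → Ups h (p - r) r ∧ i ≤ p - r := by
      intro r
      induction r with
      | zero =>
        intro _
        refine ⟨fun q hq => absurd hq (by omega), ?_⟩
        push_cast
        omega
      | succ r ih =>
        intro hr
        obtain ⟨d1, hir⟩ := ih (by omega)
        have e0 : p - (r : ℤ) + (r : ℤ) = p := by ring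
        have l1 := ex_lvlU d1 r le_rfl
        rw [e0] at l1
        have hn := ne (p - r) (by omega)
        have hir2 : i < p - r := by
          rcases lt_or_eq_of_le hir with h1 | h1
          · exact h1
          · exact absurd h1.symm hn.1
        have es : p - (r : ℤ) - 1 + 1 = p - r := by ring
        have hstep := ex_step H (p - r - 1)
        rw [es] at hstep
        have hdown : h (p - r) = h (p - r - 1) + 1 := by
          rcases hstep with h1 | h1
          · exact h1
          · exfalso
            rcases Nat.eq_zero_or_pos r with h0 | h0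
            · subst h0
              have e3 : p - ((0 : ℕ) : ℤ) = p := by push_cast; ring
              rw [e3] at h1
              omega
            · refine hmin r (by omega) ⟨h0, p - r, hir2, by omega, Or.inl ⟨d1, by omega, ?_⟩⟩
              rw [e0]
              have := d 0 (by omega)
              have e4 : p + ((0 : ℕ) : ℤ) = p := by push_cast; ring
              rw [e4] at this
              exact this
        have d2 := ex_upsL d1 hdown
        have e5 : p - ((r + 1 : ℕ) : ℤ) = p - r - 1 := by push_cast; ring
        rw [e5]
        exact ⟨d2, by omega⟩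
    have B : ∀ r : ℕ, r ≤ l → Ups h (p + l) r ∧ p + l + r ≤ j := by
      intro r
      induction r with
      | zero =>
        intro _
        refine ⟨fun q hq => absurd hq (by omega), ?_⟩
        push_cast
        omega
      | succ r ih =>
        intro hr
        obtain ⟨d1, hir⟩ := ih (by omega)
        have l1 := ex_lvlU d1 r le_rfl
        have hn := ne (p + l + r) (by omega)
        have hir2 : p + l + r < j := by
          rcases lt_or_eq_of_le hir with h1 | h1
          · exact h1
          · exact absurd h1 hn.2
        have hdown : h (p + l + r + 1) = h (p + l + r) + 1 := by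
          rcases ex_step H (p + l + r) with h1 | h1
          · exact h1
          · exfalso
            rcases Nat.eq_zero_or_pos r with h0 | h0
            · subst h0
              have e3 : p + l + ((0 : ℕ) : ℤ) = p + l := by push_cast; ring
              rw [e3] at h1
              omega
            · refine hmin r (by omega) ⟨h0, p + l, by omega, hir2, Or.inl ⟨d1, ?_, h1⟩⟩
              have := ld (l - 1) (by omega)
              have e4 : p + ((l - 1 : ℕ) : ℤ) = p + l - 1 := by omega
              rw [e4] at this
              omega
        have d2 := ex_upsR d1 hdown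
        refine ⟨d2, ?_⟩
        push_cast
        omega
    obtain ⟨dA, hA⟩ := A l le_rfl
    obtain ⟨dB, hB⟩ := B l le_rfl
    have e0 : p - (l : ℤ) + (l : ℤ) = p := by ring
    have l1 := ex_lvlU dA l le_rfl
    rw [e0] at l1
    have l2 := ex_lvlU dB l le_rfl
    have hn := ne (p - l) (by omega)
    have hA2 : i < p - l := by
      rcases lt_or_eq_of_le hA with h1 | h1
      · exact h1
      · exact absurd h1.symm hn.1
    exact zigzag_down H p l hl1 (by omega) dA d dB (c p hp1 (by omega)) (c (p + l) (by omega) hp2)

private theorem ex_flipU {h : ℤ → ℤ} {j : ℤ} {l : ℕ} (u : Ups h j l) :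
    Downs (fun k => -h k) j l := by
  intro q hq
  have := u q hq
  simp only
  omega

private theorem ex_flipD {h : ℤ → ℤ} {j : ℤ} {l : ℕ} (u : Downs h j l) :
    Ups (fun k => -h k) j l := by
  intro q hq
  have := u q hq
  simp only
  omega

private theorem ex_unflipU {h : ℤ → ℤ} {j : ℤ} {l : ℕ} (u : Ups (fun k => -h k) j l) :
    Downs h j l := by
  intro q hq
  have := u q hq
  simp only at this
  omega

private theorem ex_unflipD {h : ℤ → ℤ} {j : ℤ} {l : ℕ} (u : Downs (fun k => -h k) j l) :
    Ups h j l := by
  intro q hq
  have := u q hq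
  simp only at this
  omega

theorem excursion_up {m : ℕ} {X h : ℤ → ℤ} (H : CW m X h) (i j : ℤ) (hij : i < j)
    (hm : j - i ≤ m) (hi : h i = h j) (hin : ∀ k, i < k → k < j → h i < h k)
    (c : ∀ k, i < k → k < j → NC X h k) :
    ∃ l : ℕ, 1 ≤ l ∧ j = i + 2 * l ∧ Ups h i l ∧ Downs h (i + l) l := by
  have noRun : ∀ l : ℕ, ¬ ExIn h i j l := by
    intro l
    induction l using Nat.strong_induction_on with
    | _ l ih => exact fun hl => ex_noRun H i j hm hi hin c l ih hl
  -- the first down step
  have hex : ∃ r : ℕ, h (i + r + 1) = h (i + r) - 1 := by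
    by_contra hno
    have hall : ∀ l : ℕ, Ups h i l := by
      intro l q _
      rcases ex_step H (i + q) with h1 | h1
      · exact h1
      · exact absurd ⟨q, h1⟩ hno
    have h1 := ex_lvlU (hall (j - i).toNat) (j - i).toNat le_rfl
    have e : i + (((j - i).toNat : ℕ) : ℤ) = j := by omega
    rw [e] at h1
    omega
  classical
  obtain ⟨l, hl, hlmin⟩ : ∃ l : ℕ, h (i + l + 1) = h (i + l) - 1 ∧
      ∀ r : ℕ, r < l → ¬ h (i + r + 1) = h (i + r) - 1 :=
    ⟨Nat.find hex, Nat.find_spec hex, fun r hr => Nat.find_min hex hr⟩
  have u : Ups h i l := by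
    intro q hq
    rcases ex_step H (i + q) with h1 | h1
    · exact h1
    · exact absurd h1 (hlmin q hq)
  have lu := ex_lvlU u
  have lul := lu l le_rfl
  have hij1 : i + 1 < j := by
    rcases lt_or_eq_of_le (show i + 1 ≤ j by omega) with h1 | h1
    · exact h1
    · rcases ex_step H i with h2 | h2
      · rw [h1] at h2
        omega
      · rw [h1] at h2
        omega
  have hl1 : 1 ≤ l := by
    rcases Nat.eq_zero_or_pos l with h0 | h0
    · exfalso
      subst h0
      have e3 : i + ((0 : ℕ) : ℤ) = i := by push_cast; ring
      rw [e3] at hl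
      have := hin (i + 1) (by omega) hij1
      omega
    · exact h0
  have hlj : i + l < j := by
    by_contra hcon
    have h1 := lu (j - i).toNat (by omega)
    have e : i + (((j - i).toNat : ℕ) : ℤ) = j := by omega
    rw [e] at h1
    omega
  have B : ∀ r : ℕ, r ≤ l → Downs h (i + l) r ∧ i + l + r ≤ j := by
    intro r
    induction r with
    | zero =>
      intro _
      refine ⟨fun q hq => absurd hq (by omega), ?_⟩
      push_cast
      omega
    | succ r ih =>
      intro hr
      obtain ⟨d1, hir⟩ := ih (by omega)
      have l1 := ex_lvlD d1 r le_rfl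
      have hir2 : i + l + r < j := by
        rcases lt_or_eq_of_le hir with h1 | h1
        · exact h1
        · rw [h1] at l1
          omega
      have hdown : h (i + l + r + 1) = h (i + l + r) - 1 := by
        rcases ex_step H (i + l + r) with h1 | h1
        · exfalso
          rcases Nat.eq_zero_or_pos r with h0 | h0
          · subst h0
            have e3 : i + l + ((0 : ℕ) : ℤ) = i + l := by push_cast; ring
            rw [e3] at h1
            omega
          · refine noRun r ⟨h0, i + l, by omega, hir2, Or.inr ⟨d1, ?_, h1⟩⟩
            have := lu (l - 1) (by omega)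
            have e4 : i + ((l - 1 : ℕ) : ℤ) = i + l - 1 := by omega
            rw [e4] at this
            omega
        · exact h1
      have d2 := ex_downsR d1 hdown
      refine ⟨d2, ?_⟩
      push_cast
      omega
  obtain ⟨dB, hB⟩ := B l le_rfl
  have l2 := ex_lvlD dB l le_rfl
  refine ⟨l, hl1, ?_, u, dB⟩
  rcases lt_or_eq_of_le hB with h1 | h1
  · exfalso
    have := hin (i + l + l) (by omega) h1
    omega
  · omega

theorem excursion_down {m : ℕ} {X h : ℤ → ℤ} (H : CW m X h) (i j : ℤ) (hij : i < j)
    (hm : j - i ≤ m) (hi : h i = h j) (hin : ∀ k, i < k → k < j → h k < h i)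
    (c : ∀ k, i < k → k < j → NC X h k) :
    ∃ l : ℕ, 1 ≤ l ∧ j = i + 2 * l ∧ Downs h i l ∧ Ups h (i + l) l := by
  obtain ⟨l, h1, h2, h3, h4⟩ := excursion_up H.neg i j hij hm (congrArg Neg.neg hi)
    (fun k h1 h2 => neg_lt_neg (hin k h1 h2)) (fun k h1 h2 => (c k h1 h2).neg)
  exact ⟨l, h1, h2, ex_unflipU h3, ex_unflipD h4⟩

theorem no_touch_up {m : ℕ} {X h : ℤ → ℤ} (H : CW m X h) (i : ℤ) (a b : ℕ) (ha : 1 ≤ a)
    (hb : 1 ≤ b) (hm : 2 * a + 2 * b ≤ m) (u1 : Ups h i a) (d1 : Downs h (i + a) a)
    (u2 : Ups h (i + 2 * a) b) (d2 : Downs h (i + 2 * a + b) b) (c1 : NC X h (i + a))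
    (c2 : NC X h (i + 2 * a)) (c3 : NC X h (i + 2 * a + b)) : False := by
  rcases Nat.lt_or_ge b a with hab | hab
  · refine zigzag_up H (i + 2 * a) b hb (by omega) ?_ u2 d2 c2 c3
    intro q hq
    have h1 := d1 (a - b + q) (by omega)
    have e : i + (a : ℤ) + ((a - b + q : ℕ) : ℤ) = i + 2 * a - b + q := by omega
    rw [e] at h1
    exact h1
  · have e1 : i + (a : ℤ) - a = i := by ring
    have e2 : i + (a : ℤ) + a = i + 2 * a := by ring
    refine zigzag_down H (i + a) a ha (by omega) ?_ d1 ?_ c1 ?_
    · rw [e1]
      exact u1
    · rw [e2]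
      intro q hq
      exact u2 q (by omega)
    · rw [e2]
      exact c2

theorem no_touch_down {m : ℕ} {X h : ℤ → ℤ} (H : CW m X h) (i : ℤ) (a b : ℕ) (ha : 1 ≤ a)
    (hb : 1 ≤ b) (hm : 2 * a + 2 * b ≤ m) (d1 : Downs h i a) (u1 : Ups h (i + a) a)
    (d2 : Downs h (i + 2 * a) b) (u2 : Ups h (i + 2 * a + b) b) (c1 : NC X h (i + a))
    (c2 : NC X h (i + 2 * a)) (c3 : NC X h (i + 2 * a + b)) : False := by
  exact no_touch_up H.neg i a b ha hb hm (ex_flipD d1) (ex_flipU u1) (ex_flipD d2) (ex_flipU u2)
    c1.neg c2.neg c3.neg

end Pool.Agent.Helper99.TC
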