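import Mathlib

/-!
# TC-44: sums of powers of binomial coefficients

`∑_s binom(n, s)^p ~ (2/π)^(p/2) √(π/(2p)) 2^(pn) n^(-(p-1)/2)`.

Proof. For `n = 2m`: `binom(2m, m ± k) = binom(2m, m) r_k`, `r_k = ∏_{j=1}^k (m - j + 1)/(m + j)` (0 for k > m). Each factor is `1 - (2j-1)/(m+j)`, so `r_k ≤ exp(-∑ (2j-1)/(m+k)) = exp(-k²/(m+k)) ≤ exp(-k²/(2m))` for `k ≤ m`, and for `k = ⌊√m x⌋`, `x ≥ 0` fixed, `r_k → exp(-x²)` (lower bound: `1 - u ≥ exp(-u/(1-u))`, i.e.
`r_k ≥ exp(-k²/(m - k + 1))`). So `∑_s (binom(2m,s)/binom(2m,m))^p = 2 ∑_{k ≥ 0} r_k^p - 1` and `m^(-1/2) ∑_{k≥0} r_k^p = ∫_0^∞ r_(⌊√m x⌋)^p dx → ∫_0^∞ exp(-p x²) dx = √(π/p)/2` by dominated convergence (`r_(⌊√m x⌋) ≤ exp(-(√m x - 1)²/(2m))`, and `(√m x - 1)² ≥ m x²/2 - 1`, so it is `≤ e exp(-x²/4)`).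
And `binom(2m, m) ~ 4^m/√(π m)` (Wallis/Stirling: `Stirling.tendsto_stirlingSeq_sqrt_pi`, or `Real.Wallis`). For `n = 2m + 1`: `binom(2m+1, m - k) = binom(2m+1, m+1+k) = binom(2m+1, m) r'_k`, `r'_k = ∏_{j=1}^k (m-j+1)/(m+1+j)`, each factor is `1 - 2j/(m+1+j)`; the same estimates with `k(k+1)`; `binom(2m+1, m) = binom(2m+2, m+1)/2`.
-/

set_option autoImplicit false

open Filter

namespace Pool.Agent.Helper99.TC

private theorem cb_sq (m : ℕ) :
    (((Nat.centralBinom m : ℕ) : ℝ) / 4 ^ m) ^ 2 * (2 * m + 1) = (Real.Wallis.W m)⁻¹ := by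
  rw [Real.Wallis.W_eq_factorial_ratio]
  have h : ((Nat.centralBinom m : ℕ) : ℝ) * (m.factorial : ℝ) ^ 2 = ((2 * m).factorial : ℝ) := by
    have := Nat.choose_mul_factorial_mul_factorial (n := 2 * m) (k := m) (by omega)
    rw [show 2 * m - m = m by omega] at this
    rw [Nat.centralBinom_eq_two_mul_choose, ← this]
    push_cast
    ring
  have h1 : (m.factorial : ℝ) ≠ 0 := by positivity
  have h2 : ((2 * m).factorial : ℝ) ≠ 0 := by positivity
  rw [← h]
  have h3 : ((Nat.centralBinom m : ℕ) : ℝ) ≠ 0 := by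
    have := Nat.centralBinom_ne_zero m
    exact_mod_cast this
  have h4 : (2 : ℝ) ^ (4 * m) = (4 ^ m) ^ 2 := by
    rw [← pow_mul, show (4 : ℝ) = 2 ^ 2 by norm_num, ← pow_mul]
    congr 1
    ring
  rw [h4]
  field_simp

private theorem cb_limit : Tendsto (fun m : ℕ => ((Nat.centralBinom m : ℕ) : ℝ) / 4 ^ m *
    √(2 * (m : ℝ) + 1)) atTop (nhds √(2 / Real.pi)) := by
  have h := Real.Wallis.tendsto_W_nhds_pi_div_two
  have h2 : Tendsto (fun m : ℕ => √((Real.Wallis.W m)⁻¹)) atTop (nhds √((Real.pi / 2)⁻¹)) :=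
    (Real.continuous_sqrt.tendsto _).comp (h.inv₀ (by positivity))
  rw [inv_div] at h2
  refine h2.congr ?_
  intro m
  rw [← cb_sq, Real.sqrt_mul (by positivity), Real.sqrt_sq (by positivity)]

/-- the middle binomial coefficient, both parities -/
private theorem mid_eq (n : ℕ) (hn : 1 ≤ n) : ((n.choose (n - n / 2) : ℕ) : ℝ) / 2 ^ n =
    ((Nat.centralBinom (n - n / 2) : ℕ) : ℝ) / 4 ^ (n - n / 2) := by
  rcases Nat.even_or_odd' n with ⟨m, rfl | rfl⟩
  · rw [show 2 * m - 2 * m / 2 = m by omega, Nat.centralBinom_eq_two_mul_choose, pow_mul]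
    norm_num
  · rw [show 2 * m + 1 - (2 * m + 1) / 2 = m + 1 by omega]
    have h : Nat.centralBinom (m + 1) = 2 * (2 * m + 1).choose (m + 1) := by
      rw [Nat.centralBinom_eq_two_mul_choose, show 2 * (m + 1) = (2 * m + 1) + 1 by ring,
        Nat.choose_succ_succ]
      have : (2 * m + 1).choose m = (2 * m + 1).choose (m + 1) := by
        rw [← Nat.choose_symm_half]
      rw [this]; ring
    rw [h]
    have h4 : (4 : ℝ) ^ (m + 1) = 2 * 2 ^ (2 * m + 1) := by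
      rw [show (4 : ℝ) = 2 ^ 2 by norm_num, ← pow_mul]
      ring
    rw [h4]
    push_cast
    field_simp

private theorem half_limit : Tendsto (fun n : ℕ => ((n / 2 : ℕ) : ℝ) / n) atTop (nhds (1 / 2)) := by
  have h := tendsto_nat_floor_mul_div_atTop (R := ℝ) (a := (1 / 2 : ℝ)) (by norm_num)
  have h2 := h.comp tendsto_natCast_atTop_atTop
  refine h2.congr ?_
  intro n
  simp only [Function.comp]
  congr 2
  rw [one_div, inv_mul_eq_div]
  exact_mod_cast Nat.floor_div_natCast (n : ℝ) 2 |>.trans (by simp)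

private theorem half_limit' :
    Tendsto (fun n : ℕ => ((n - n / 2 : ℕ) : ℝ) / n) atTop (nhds (1 / 2)) := by
  have h : Tendsto (fun n : ℕ => 1 - ((n / 2 : ℕ) : ℝ) / n) atTop (nhds (1 - 1 / 2)) :=
    tendsto_const_nhds.sub half_limit
  rw [show (1 : ℝ) - 1 / 2 = 1 / 2 by norm_num] at h
  refine h.congr' ?_
  filter_upwards [eventually_ge_atTop 1] with n hn
  have hn' : (n : ℝ) ≠ 0 := by positivity
  rw [Nat.cast_sub (Nat.div_le_self n 2)]
  field_simp

private theorem mid_limit : Tendsto (fun n : ℕ => ((n.choose (n - n / 2) : ℕ) : ℝ) / 2 ^ n * √(n : ℝ))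
    atTop (nhds √(2 / Real.pi)) := by
  have hm : Tendsto (fun n : ℕ => n - n / 2) atTop atTop := by
    refine tendsto_atTop_mono (f := fun n : ℕ => n / 2) (fun n => by
      show n / 2 ≤ n - n / 2
      omega) ?_
    exact Nat.tendsto_div_const_atTop (by norm_num)
  have h1 := cb_limit.comp hm
  have h2 : Tendsto (fun n : ℕ => √(1 / (2 * (((n - n / 2 : ℕ) : ℝ) / n) + 1 / n))) atTop
      (nhds √(1 / (2 * (1 / 2) + 0))) := by
    refine (Real.continuous_sqrt.tendsto _).comp ?_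
    refine Tendsto.div tendsto_const_nhds ?_ (by norm_num)
    exact (half_limit'.const_mul 2).add tendsto_one_div_atTop_nhds_zero_nat
  rw [show (1 : ℝ) / (2 * (1 / 2) + 0) = 1 by norm_num, Real.sqrt_one] at h2
  have h3 := h1.mul h2
  rw [mul_one] at h3
  refine h3.congr' ?_
  filter_upwards [eventually_ge_atTop 1] with n hn
  have hn' : (0 : ℝ) < n := by exact_mod_cast hn
  simp only [Function.comp]
  rw [mid_eq n hn, mul_assoc, ← Real.sqrt_mul (by positivity)]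
  congr 2
  field_simp

private noncomputable def rr (n k : ℕ) : ℝ :=
  ((n.choose (n - n / 2 + k) : ℕ) : ℝ) / ((n.choose (n - n / 2) : ℕ) : ℝ)

private theorem mid_pos (n : ℕ) : (0 : ℝ) < ((n.choose (n - n / 2) : ℕ) : ℝ) := by
  have : 0 < n.choose (n - n / 2) := Nat.choose_pos (Nat.sub_le _ _)
  exact_mod_cast this

private theorem rr_zero (n : ℕ) : rr n 0 = 1 := by
  unfold rr
  rw [add_zero, div_self (mid_pos n).ne']

private theorem rr_nonneg (n k : ℕ) : 0 ≤ rr n k := by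
  unfold rr; positivity

private theorem rr_big (n k : ℕ) (h : n / 2 < k) : rr n k = 0 := by
  unfold rr
  rw [Nat.choose_eq_zero_of_lt (by omega)]
  simp

private theorem rr_succ (n k : ℕ) :
    rr n (k + 1) = rr n k * (((n / 2 - k : ℕ) : ℝ) / (((n - n / 2 : ℕ) : ℝ) + k + 1)) := by
  unfold rr
  have h := Nat.choose_succ_right_eq n (n - n / 2 + k)
  have h' : ((n.choose (n - n / 2 + (k + 1)) : ℕ) : ℝ) * (((n - n / 2 : ℕ) : ℝ) + k + 1) =
      ((n.choose (n - n / 2 + k) : ℕ) : ℝ) * ((n / 2 - k : ℕ) : ℝ) := by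
    rw [show n - (n - n / 2 + k) = n / 2 - k by omega] at h
    rw [← add_assoc]
    exact_mod_cast h
  have hp : (0 : ℝ) < ((n - n / 2 : ℕ) : ℝ) + k + 1 := by positivity
  have hm := (mid_pos n).ne'
  rw [div_mul_div_comm, ← h']
  field_simp

private theorem rr_upper (n K : ℕ) (hK : 1 ≤ K) : ∀ k : ℕ, k ≤ K →
    rr n k ≤ Real.exp (-((k : ℝ) ^ 2 / (((n - n / 2 : ℕ) : ℝ) + K))) := by
  intro k
  induction k with
  | zero =>
    intro _
    rw [rr_zero]
    simp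
  | succ k ih =>
    intro hk
    have ih' := ih (by omega)
    rw [rr_succ]
    have hK' : (0 : ℝ) < ((n - n / 2 : ℕ) : ℝ) + K := by
      have : (1 : ℝ) ≤ K := by exact_mod_cast hK
      have : (0 : ℝ) ≤ ((n - n / 2 : ℕ) : ℝ) := by positivity
      linarith
    have hk1 : (0 : ℝ) < ((n - n / 2 : ℕ) : ℝ) + k + 1 := by positivity
    have key : ((n / 2 - k : ℕ) : ℝ) / (((n - n / 2 : ℕ) : ℝ) + k + 1) ≤
        Real.exp (-((2 * (k : ℝ) + 1) / (((n - n / 2 : ℕ) : ℝ) + K))) := by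
      by_cases hkm : k ≤ n / 2
      · have h1 : -((2 * (k : ℝ) + 1) / (((n - n / 2 : ℕ) : ℝ) + K)) + 1 ≤
            Real.exp (-((2 * (k : ℝ) + 1) / (((n - n / 2 : ℕ) : ℝ) + K))) := Real.add_one_le_exp _
        refine le_trans ?_ h1
        have hc : ((n / 2 - k : ℕ) : ℝ) ≤ ((n - n / 2 : ℕ) : ℝ) - k := by
          have : (n / 2 - k) + k ≤ n - n / 2 := by omega
          have h' : ((n / 2 - k : ℕ) : ℝ) + k ≤ ((n - n / 2 : ℕ) : ℝ) := by exact_mod_cast this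
          linarith
        have h2 : (2 * (k : ℝ) + 1) / (((n - n / 2 : ℕ) : ℝ) + K) ≤
            (2 * (k : ℝ) + 1) / (((n - n / 2 : ℕ) : ℝ) + k + 1) := by
          apply div_le_div_of_nonneg_left (by positivity) hk1
          have : (k : ℝ) + 1 ≤ K := by exact_mod_cast hk
          linarith
        have h3 : ((n / 2 - k : ℕ) : ℝ) / (((n - n / 2 : ℕ) : ℝ) + k + 1) ≤
            1 - (2 * (k : ℝ) + 1) / (((n - n / 2 : ℕ) : ℝ) + k + 1) := by
          rw [div_le_iff₀ hk1, sub_mul, div_mul_cancel₀ _ hk1.ne']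
          linarith
        linarith
      · have : n / 2 - k = 0 := by omega
        rw [this]
        simp only [Nat.cast_zero, zero_div]
        exact (Real.exp_pos _).le
    calc rr n k * (((n / 2 - k : ℕ) : ℝ) / (((n - n / 2 : ℕ) : ℝ) + k + 1))
        ≤ Real.exp (-((k : ℝ) ^ 2 / (((n - n / 2 : ℕ) : ℝ) + K))) *
          Real.exp (-((2 * (k : ℝ) + 1) / (((n - n / 2 : ℕ) : ℝ) + K))) :=
          mul_le_mul ih' key (by positivity) (Real.exp_nonneg _)
      _ = _ := by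
          rw [← Real.exp_add]
          congr 1
          push_cast
          field_simp
          ring


private theorem rr_lower (n K : ℕ) (hK : K ≤ n / 2) : ∀ k : ℕ, k ≤ K →
    Real.exp (-((k : ℝ) * (k + 1) / ((n / 2 + 1 - K : ℕ) : ℝ))) ≤ rr n k := by
  intro k
  induction k with
  | zero =>
    intro _
    rw [rr_zero]
    simp
  | succ k ih =>
    intro hk
    have ih' := ih (by omega)
    rw [rr_succ]
    have hc0 : (0 : ℝ) < ((n / 2 - k : ℕ) : ℝ) := by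
      have : 0 < n / 2 - k := by omega
      exact_mod_cast this
    have hd0 : (0 : ℝ) < ((n / 2 + 1 - K : ℕ) : ℝ) := by
      have : 0 < n / 2 + 1 - K := by omega
      exact_mod_cast this
    have hk1 : (0 : ℝ) < ((n - n / 2 : ℕ) : ℝ) + k + 1 := by positivity
    have key : Real.exp (-(2 * ((k : ℝ) + 1) / ((n / 2 + 1 - K : ℕ) : ℝ))) ≤
        ((n / 2 - k : ℕ) : ℝ) / (((n - n / 2 : ℕ) : ℝ) + k + 1) := by
      have h1 : 2 * ((k : ℝ) + 1) / ((n / 2 + 1 - K : ℕ) : ℝ) + 1 ≤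
          Real.exp (2 * ((k : ℝ) + 1) / ((n / 2 + 1 - K : ℕ) : ℝ)) := Real.add_one_le_exp _
      have h2 : (((n - n / 2 : ℕ) : ℝ) + k + 1) / ((n / 2 - k : ℕ) : ℝ) ≤
          2 * ((k : ℝ) + 1) / ((n / 2 + 1 - K : ℕ) : ℝ) + 1 := by
        have h3 : 2 * ((k : ℝ) + 1) / ((n / 2 - k : ℕ) : ℝ) ≤
            2 * ((k : ℝ) + 1) / ((n / 2 + 1 - K : ℕ) : ℝ) := by
          apply div_le_div_of_nonneg_left (by positivity) hd0
          have : n / 2 + 1 - K ≤ n / 2 - k := by omega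
          exact_mod_cast this
        have h4 : (((n - n / 2 : ℕ) : ℝ) + k + 1) / ((n / 2 - k : ℕ) : ℝ) ≤
            2 * ((k : ℝ) + 1) / ((n / 2 - k : ℕ) : ℝ) + 1 := by
          rw [div_add_one hc0.ne']
          apply div_le_div_of_nonneg_right _ hc0.le
          have : (n - n / 2) + k + 1 ≤ 2 * (k + 1) + (n / 2 - k) := by omega
          exact_mod_cast this
        linarith
      rw [Real.exp_neg, inv_le_comm₀ (Real.exp_pos _) (by positivity), inv_div]
      exact h2.trans h1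
    calc Real.exp (-(((k + 1 : ℕ) : ℝ) * (((k + 1 : ℕ) : ℝ) + 1) / ((n / 2 + 1 - K : ℕ) : ℝ)))
        = Real.exp (-((k : ℝ) * (k + 1) / ((n / 2 + 1 - K : ℕ) : ℝ))) *
          Real.exp (-(2 * ((k : ℝ) + 1) / ((n / 2 + 1 - K : ℕ) : ℝ))) := by
          rw [← Real.exp_add]
          congr 1
          push_cast
          field_simp
          ring
      _ ≤ _ := mul_le_mul ih' key (Real.exp_nonneg _) (rr_nonneg _ _)

private theorem rr_upper' (n k : ℕ) (hn : 1 ≤ n) :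
    rr n k ≤ Real.exp (-((k : ℝ) ^ 2 / (2 * n))) := by
  by_cases hk : k ≤ n / 2
  · rcases Nat.eq_zero_or_pos k with h0 | h0
    · subst h0; rw [rr_zero]; simp
    · refine (rr_upper n k h0 k le_rfl).trans ?_
      apply Real.exp_le_exp.mpr
      apply neg_le_neg
      apply div_le_div_of_nonneg_left (by positivity)
      · have : (1 : ℝ) ≤ k := by exact_mod_cast h0
        have : (0 : ℝ) ≤ ((n - n / 2 : ℕ) : ℝ) := by positivity
        linarith
      · have : (n - n / 2) + k ≤ 2 * n := by omega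
        exact_mod_cast this
  · rw [rr_big n k (by omega)]
    exact (Real.exp_pos _).le


private theorem sqrt_atTop : Tendsto (fun n : ℕ => √(n : ℝ)) atTop atTop :=
  Real.tendsto_sqrt_atTop.comp tendsto_natCast_atTop_atTop

private theorem inv_sqrt_lim : Tendsto (fun n : ℕ => 1 / √(n : ℝ)) atTop (nhds 0) := by
  have := (tendsto_inv_atTop_zero (𝕜 := ℝ)).comp sqrt_atTop
  refine this.congr ?_
  intro n
  simp [Function.comp]

private theorem floor_lim (x : ℝ) (hx : 0 ≤ x) :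
    Tendsto (fun n : ℕ => (⌊x * √(n : ℝ)⌋₊ : ℝ) / √(n : ℝ)) atTop (nhds x) :=
  (tendsto_nat_floor_mul_div_atTop hx).comp sqrt_atTop

private theorem floor_lim2 (x : ℝ) (hx : 0 ≤ x) :
    Tendsto (fun n : ℕ => (⌊x * √(n : ℝ)⌋₊ : ℝ) / (n : ℝ)) atTop (nhds 0) := by
  have h := (floor_lim x hx).mul inv_sqrt_lim
  rw [mul_zero] at h
  refine h.congr ?_
  intro n
  rw [div_mul_div_comm, mul_one, Real.mul_self_sqrt (by positivity)]

private theorem rr_lim (x : ℝ) (hx : 0 ≤ x) :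
    Tendsto (fun n : ℕ => rr n ⌊x * √(n : ℝ)⌋₊) atTop (nhds (Real.exp (-(2 * x ^ 2)))) := by
  have hA := floor_lim x hx
  have hB := floor_lim2 x hx
  have hU : Tendsto (fun n : ℕ => Real.exp (-(((⌊x * √(n : ℝ)⌋₊ : ℝ) / √(n : ℝ)) ^ 2 /
      (((n - n / 2 : ℕ) : ℝ) / n + (⌊x * √(n : ℝ)⌋₊ : ℝ) / (n : ℝ))))) atTop
      (nhds (Real.exp (-(x ^ 2 / (1 / 2 + 0))))) :=
    (Real.continuous_exp.tendsto _).comp
      (((hA.pow 2).div (half_limit'.add hB) (by norm_num)).neg)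
  have hL : Tendsto (fun n : ℕ => Real.exp (-((((⌊x * √(n : ℝ)⌋₊ : ℝ) / √(n : ℝ)) *
      ((⌊x * √(n : ℝ)⌋₊ : ℝ) / √(n : ℝ) + 1 / √(n : ℝ))) /
      (((n / 2 : ℕ) : ℝ) / n + 1 / (n : ℝ) - (⌊x * √(n : ℝ)⌋₊ : ℝ) / (n : ℝ))))) atTop
      (nhds (Real.exp (-((x * (x + 0)) / (1 / 2 + 0 - 0))))) :=
    (Real.continuous_exp.tendsto _).comp
      (((hA.mul (hA.add inv_sqrt_lim)).div ((half_limit.add
        tendsto_one_div_atTop_nhds_zero_nat).sub hB) (by norm_num)).neg)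
  rw [show x ^ 2 / (1 / 2 + 0) = 2 * x ^ 2 by ring] at hU
  rw [show (x * (x + 0)) / (1 / 2 + 0 - 0) = 2 * x ^ 2 by ring] at hL
  have hle : ∀ᶠ n : ℕ in atTop, ⌊x * √(n : ℝ)⌋₊ ≤ n / 2 := by
    have h0 : (0 : ℝ) < 1 / 2 := by norm_num
    have h := hB.eventually_lt half_limit h0
    filter_upwards [h, eventually_ge_atTop 1] with n hn h1
    have hn' : (0 : ℝ) < n := by exact_mod_cast h1
    have h2 := (div_lt_div_iff_of_pos_right hn').mp hn
    exact_mod_cast h2.le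
  refine tendsto_of_tendsto_of_tendsto_of_le_of_le' hL hU ?_ ?_
  · filter_upwards [hle, eventually_ge_atTop 1] with n hk h1
    have hn' : (0 : ℝ) < n := by exact_mod_cast h1
    have hs : (0 : ℝ) < √(n : ℝ) := Real.sqrt_pos.mpr hn'
    refine le_trans (le_of_eq ?_) (rr_lower n _ hk _ le_rfl)
    congr 2
    rw [show n / 2 + 1 - ⌊x * √(n : ℝ)⌋₊ = n / 2 - ⌊x * √(n : ℝ)⌋₊ + 1 by omega]
    push_cast [Nat.cast_sub hk]
    have hd : (0 : ℝ) < ((n / 2 : ℕ) : ℝ) - (⌊x * √(n : ℝ)⌋₊ : ℝ) + 1 := by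
      have : (⌊x * √(n : ℝ)⌋₊ : ℝ) ≤ ((n / 2 : ℕ) : ℝ) := by exact_mod_cast hk
      linarith
    have e1 : ((n / 2 : ℕ) : ℝ) / n + 1 / (n : ℝ) - (⌊x * √(n : ℝ)⌋₊ : ℝ) / (n : ℝ) =
        (((n / 2 : ℕ) : ℝ) - (⌊x * √(n : ℝ)⌋₊ : ℝ) + 1) / (n : ℝ) := by ring
    have e2 : ((⌊x * √(n : ℝ)⌋₊ : ℝ) / √(n : ℝ)) *
      ((⌊x * √(n : ℝ)⌋₊ : ℝ) / √(n : ℝ) + 1 / √(n : ℝ)) =
      ((⌊x * √(n : ℝ)⌋₊ : ℝ) * ((⌊x * √(n : ℝ)⌋₊ : ℝ) + 1)) / (n : ℝ) := by
      rw [← add_div, div_mul_div_comm, Real.mul_self_sqrt hn'.le]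
    rw [e1, e2, div_div_div_cancel_right₀ hn'.ne']
  · filter_upwards [eventually_ge_atTop 1] with n h1
    have hn' : (0 : ℝ) < n := by exact_mod_cast h1
    have hs : (0 : ℝ) < √(n : ℝ) := Real.sqrt_pos.mpr hn'
    have hm : (0 : ℝ) < ((n - n / 2 : ℕ) : ℝ) := by
      have : 0 < n - n / 2 := by omega
      exact_mod_cast this
    have hu : rr n ⌊x * √(n : ℝ)⌋₊ ≤ Real.exp (-((⌊x * √(n : ℝ)⌋₊ : ℝ) ^ 2 /
        (((n - n / 2 : ℕ) : ℝ) + (⌊x * √(n : ℝ)⌋₊ : ℝ)))) := by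
      rcases Nat.eq_zero_or_pos ⌊x * √(n : ℝ)⌋₊ with h0 | h0
      · rw [h0, rr_zero]; simp
      · exact rr_upper n _ h0 _ le_rfl
    refine hu.trans (le_of_eq ?_)
    congr 2
    have hd : (0 : ℝ) < ((n - n / 2 : ℕ) : ℝ) + (⌊x * √(n : ℝ)⌋₊ : ℝ) := by positivity
    rw [div_pow, Real.sq_sqrt hn'.le, ← add_div, div_div_div_cancel_right₀ hn'.ne']

private theorem floor_bound (n : ℕ) (hn : 1 ≤ n) (x : ℝ) (hx : 0 ≤ x) :
    rr n ⌊x * √(n : ℝ)⌋₊ ≤ Real.exp (1 / 2) * Real.exp (-(1 / 4) * x ^ 2) := by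
  refine (rr_upper' n _ hn).trans ?_
  rw [← Real.exp_add]
  apply Real.exp_le_exp.mpr
  have hn' : (1 : ℝ) ≤ n := by exact_mod_cast hn
  have hu0 : 0 ≤ x * √(n : ℝ) := by positivity
  have hu2 : (x * √(n : ℝ)) ^ 2 = x ^ 2 * n := by
    rw [mul_pow, Real.sq_sqrt (by positivity)]
  have hf : x * √(n : ℝ) - 1 < (⌊x * √(n : ℝ)⌋₊ : ℝ) := by
    have := Nat.lt_floor_add_one (x * √(n : ℝ))
    linarith
  have hf0 : (0 : ℝ) ≤ (⌊x * √(n : ℝ)⌋₊ : ℝ) := by positivity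
  have hmain : x ^ 2 * n / 2 - 1 ≤ (⌊x * √(n : ℝ)⌋₊ : ℝ) ^ 2 := by
    rw [← hu2]
    by_cases h1 : 1 ≤ x * √(n : ℝ)
    · nlinarith [sq_nonneg (x * √(n : ℝ) - 2)]
    · nlinarith
  have h3 : (x ^ 2 * n / 2 - 1) / (2 * n) ≤ (⌊x * √(n : ℝ)⌋₊ : ℝ) ^ 2 / (2 * n) :=
    div_le_div_of_nonneg_right hmain (by positivity)
  have h4 : (x ^ 2 * n / 2 - 1) / (2 * n) = x ^ 2 / 4 - 1 / (2 * n) := by
    field_simp
    ring
  have h5 : (1 : ℝ) / (2 * n) ≤ 1 / 2 := by
    apply div_le_div_of_nonneg_left (by norm_num) (by norm_num)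
    linarith
  linarith

/-- the integral of a step function -/
private theorem step_integral (f : ℕ → ℝ) (N : ℕ) (hf : ∀ k, N ≤ k → f k = 0) :
    ∫ y in Set.Ioi (0 : ℝ), f ⌊y⌋₊ = ∑ k ∈ Finset.range N, f k := by
  rw [← MeasureTheory.integral_Ici_eq_integral_Ioi]
  have h : Set.EqOn (fun y : ℝ => f ⌊y⌋₊) (fun y : ℝ => ∑ k ∈ Finset.range N,
      (Set.Ico (k : ℝ) (k + 1)).indicator (fun _ => f k) y) (Set.Ici 0) := by
    intro y hy
    have hy' : (0 : ℝ) ≤ y := hy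
    simp only
    have hmem : ∀ k : ℕ, y ∈ Set.Ico (k : ℝ) (k + 1) ↔ k = ⌊y⌋₊ := by
      intro k
      constructor
      · intro h
        exact ((Nat.floor_eq_iff hy').mpr h).symm
      · intro h
        subst h
        exact ⟨Nat.floor_le hy', Nat.lt_floor_add_one y⟩
    simp only [Set.indicator_apply, hmem]
    rw [Finset.sum_ite_eq']
    split_ifs with h
    · rfl
    · exact hf _ (by simpa using h)
  rw [MeasureTheory.setIntegral_congr_fun measurableSet_Ici h]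
  rw [MeasureTheory.integral_finsetSum]
  · apply Finset.sum_congr rfl
    intro k _
    rw [MeasureTheory.setIntegral_indicator measurableSet_Ico]
    have : Set.Ici (0 : ℝ) ∩ Set.Ico (k : ℝ) (k + 1) = Set.Ico (k : ℝ) (k + 1) := by
      apply Set.inter_eq_right.mpr
      intro y hy
      have : (0 : ℝ) ≤ k := by positivity
      exact this.trans hy.1
    rw [this, MeasureTheory.setIntegral_const]
    simp
  · intro k _
    refine MeasureTheory.Integrable.restrict ?_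
    rw [MeasureTheory.integrable_indicator_iff measurableSet_Ico]
    refine MeasureTheory.integrableOn_const ?_ ?_
    · simp
    · simp



private theorem riemann_lim (p : ℕ) (hp : 1 ≤ p) :
    Tendsto (fun n : ℕ => (∑ k ∈ Finset.range (n / 2 + 1), rr n k ^ p) / √(n : ℝ)) atTop
      (nhds (√(Real.pi / (2 * p)) / 2)) := by
  have hp0 : (0 : ℝ) < 2 * p := by
    have : (1 : ℝ) ≤ p := by exact_mod_cast hp
    linarith
  rw [← integral_gaussian_Ioi (2 * (p : ℝ))]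
  have h : Tendsto (fun n : ℕ => ∫ x in Set.Ioi (0 : ℝ), rr (n + 1) ⌊x * √((n + 1 : ℕ) : ℝ)⌋₊ ^ p)
      atTop (nhds (∫ x in Set.Ioi (0 : ℝ), Real.exp (-(2 * (p : ℝ)) * x ^ 2))) := by
    refine MeasureTheory.tendsto_integral_of_dominated_convergence
      (fun x : ℝ => (Real.exp (1 / 2)) ^ p * Real.exp (-(1 / 4) * x ^ 2)) ?_ ?_ ?_ ?_
    · intro n
      apply Measurable.aestronglyMeasurable
      have : Measurable (fun x : ℝ => x * √((n + 1 : ℕ) : ℝ)) := by fun_prop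
      have h2 : Measurable (fun k : ℕ => rr (n + 1) k ^ p) := measurable_from_nat
      exact h2.comp (Nat.measurable_floor.comp this)
    · refine MeasureTheory.Integrable.const_mul ?_ _
      exact (integrable_exp_neg_mul_sq (by norm_num : (0 : ℝ) < 1 / 4)).restrict
    · intro n
      filter_upwards [MeasureTheory.ae_restrict_mem measurableSet_Ioi] with x hx
      have hx' : (0 : ℝ) ≤ x := le_of_lt hx
      have hb := floor_bound (n + 1) (by omega) x hx'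
      rw [Real.norm_of_nonneg (pow_nonneg (rr_nonneg _ _) _)]
      refine (pow_le_pow_left₀ (rr_nonneg _ _) hb p).trans ?_
      rw [mul_pow]
      apply mul_le_mul_of_nonneg_left _ (by positivity)
      have h1 : Real.exp (-(1 / 4) * x ^ 2) ≤ 1 := by
        rw [Real.exp_le_one_iff]
        nlinarith [sq_nonneg x]
      exact pow_le_of_le_one (Real.exp_nonneg _) h1 (by omega)
    · filter_upwards [MeasureTheory.ae_restrict_mem measurableSet_Ioi] with x hx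
      have hx' : (0 : ℝ) ≤ x := le_of_lt hx
      have h1 := ((rr_lim x hx').pow p).comp (tendsto_add_atTop_nat 1)
      rw [← Real.exp_nat_mul] at h1
      have e : (p : ℝ) * -(2 * x ^ 2) = -(2 * (p : ℝ)) * x ^ 2 := by ring
      rw [e] at h1
      exact h1
  rw [← tendsto_add_atTop_iff_nat 1]
  refine h.congr ?_
  intro n
  have hs : (0 : ℝ) < √((n + 1 : ℕ) : ℝ) := Real.sqrt_pos.mpr (by positivity)
  rw [MeasureTheory.integral_comp_mul_right_Ioi (fun y => rr (n + 1) ⌊y⌋₊ ^ p) 0 hs, zero_mul,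
    step_integral (fun k => rr (n + 1) k ^ p) ((n + 1) / 2 + 1), smul_eq_mul, inv_mul_eq_div]
  intro k hk
  rw [rr_big _ _ (by omega), zero_pow (by omega)]

private theorem sum_split (p n : ℕ) :
    ∃ δ : ℝ, 0 ≤ δ ∧ δ ≤ 1 ∧ (∑ s ∈ Finset.range (n + 1), ((n.choose s : ℕ) : ℝ) ^ p) =
      ((n.choose (n - n / 2) : ℕ) : ℝ) ^ p *
        (2 * (∑ k ∈ Finset.range (n / 2 + 1), rr n k ^ p) - δ) := by
  have hm := (mid_pos n).ne'
  have hS : ((n.choose (n - n / 2) : ℕ) : ℝ) ^ p * (∑ k ∈ Finset.range (n / 2 + 1), rr n k ^ p) =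
      ∑ k ∈ Finset.range (n / 2 + 1), ((n.choose (n - n / 2 + k) : ℕ) : ℝ) ^ p := by
    rw [Finset.mul_sum]
    apply Finset.sum_congr rfl
    intro k _
    rw [← mul_pow]
    congr 1
    unfold rr
    field_simp
  have h1 : (∑ s ∈ Finset.range (n + 1), ((n.choose s : ℕ) : ℝ) ^ p) =
      (∑ j ∈ Finset.range (n - n / 2), ((n.choose (n / 2 + 1 + j) : ℕ) : ℝ) ^ p) +
      ∑ k ∈ Finset.range (n / 2 + 1), ((n.choose (n - n / 2 + k) : ℕ) : ℝ) ^ p := by
    have e : n + 1 = (n - n / 2) + (n / 2 + 1) := by omega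
    conv_lhs => rw [e]
    rw [Finset.sum_range_add]
    congr 1
    rw [← Finset.sum_range_reflect]
    apply Finset.sum_congr rfl
    intro j hj
    rw [Finset.mem_range] at hj
    congr 2
    rw [← Nat.choose_symm (by omega : n - n / 2 - 1 - j ≤ n)]
    congr 1
    omega
  rw [h1, ← hS]
  rcases Nat.even_or_odd' n with ⟨m, h | h⟩
  · refine ⟨1, zero_le_one, le_rfl, ?_⟩
    have h2 : (∑ j ∈ Finset.range (n - n / 2), ((n.choose (n / 2 + 1 + j) : ℕ) : ℝ) ^ p) =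
        (∑ k ∈ Finset.range (n / 2 + 1), ((n.choose (n - n / 2 + k) : ℕ) : ℝ) ^ p) -
        ((n.choose (n - n / 2) : ℕ) : ℝ) ^ p := by
      rw [Finset.sum_range_succ' _ (n / 2), add_zero, add_sub_cancel_right]
      rw [show n - n / 2 = n / 2 by omega]
      apply Finset.sum_congr rfl
      intro j _
      congr 3
      omega
    rw [h2, ← hS]
    ring
  · refine ⟨0, le_rfl, zero_le_one, ?_⟩
    have h2 : (∑ j ∈ Finset.range (n - n / 2), ((n.choose (n / 2 + 1 + j) : ℕ) : ℝ) ^ p) =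
        ∑ k ∈ Finset.range (n / 2 + 1), ((n.choose (n - n / 2 + k) : ℕ) : ℝ) ^ p := by
      rw [show n - n / 2 = n / 2 + 1 by omega]
    rw [h2, ← hS]
    ring

theorem binom_pow_limit (p : ℕ) (hp : 1 ≤ p) :
    Tendsto (fun n : ℕ => (∑ s ∈ Finset.range (n + 1), ((n.choose s : ℕ) : ℝ) ^ p) / 2 ^ (p * n) *
      (√(n : ℝ)) ^ (p - 1)) atTop (nhds ((√(2 / Real.pi)) ^ p * √(Real.pi / (2 * p)))) := by
  choose δ hδ0 hδ1 hδ using sum_split p
  have hδl : Tendsto (fun n : ℕ => δ n * (1 / √(n : ℝ))) atTop (nhds 0) := by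
    refine squeeze_zero (fun n => mul_nonneg (hδ0 n) (by positivity)) (fun n => ?_) inv_sqrt_lim
    exact mul_le_of_le_one_left (by positivity) (hδ1 n)
  have h := (mid_limit.pow p).mul (((riemann_lim p hp).const_mul 2).sub hδl)
  rw [show 2 * (√(Real.pi / (2 * p)) / 2) - 0 = √(Real.pi / (2 * p)) by ring] at h
  refine h.congr' ?_
  filter_upwards [eventually_ge_atTop 1] with n hn
  have hn' : (0 : ℝ) < n := by exact_mod_cast hn
  have hs : (0 : ℝ) < √(n : ℝ) := Real.sqrt_pos.mpr hn'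
  rw [hδ n, pow_mul' 2 p n]
  obtain ⟨q, rfl⟩ : ∃ q, p = q + 1 := ⟨p - 1, by omega⟩
  rw [Nat.add_sub_cancel, mul_pow, div_pow]
  field_simp
  ring

end Pool.Agent.Helper99.TC
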