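import Pool.Agent.Helper99.TC.RecExp
import Pool.Agent.Helper99.TC.Laplace
import Pool.Agent.Helper99.TC.F4Rec
import Pool.Agent.Helper99.TC.Alg

/-!
# TC-45: the expansion of the sums of fourth powers of binomial coefficients

`fr4_exp`: `y n = fr4 n / 16^n` satisfies `y n = p1 n y (n-1) + p2 n y (n-2)` (`fr4_rec`), `p1 n = 2 (2n-1)(3n²-3n+1)/(16 n³)`, `p2 n = 4 (n-1)(4n-3)(4n-5)/(256 n³)`, i.e. `D = 4` and `q 0 = (1, 0, 0, 0)`, `q 1 = (-3/4, 9/8, -5/8, 1/8)`, `q 2 = (-1/4, 3/4, -47/64, 15/64)`, `P2 = 1/4`.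
Use `formal_sol` (`∑_j (q j 0 * cc i 1 * j + q j 1) = (5/4)(1 - i)`, `cc i 1 = i + 1/2`) and `rec_exp`; the constant is `√2/π^(3/2)` by `binom_pow_limit 4` (`(2/π)^2 √(π/8) = √2 / (π √π)`).

`Fcoef_exp`: `φ n = coeff n Fser / 4^n` is `fr4 (n/2)/16^(n/2)` for even `n` and 0 for odd `n`. From the expansion of `fr4 m/16^m` with `m = n/2`: `√n φ n = (1 + (-1)^n)/2 * √2 * √m (fr4 m/16^m) = ∑ (1 + (-1)^n) (√2/2) c E_i 2^i / n^i`, so `B_i = C_i = (√2/2) c E_i 2^i = E_i 2^i/(π √π)`, with `E_i` rational.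

`Fcoef_le`: `coeff n Fser ≤ K 4^n / (n √n)`, from the limit.
-/

set_option autoImplicit false

open Filter Asymptotics PowerSeries

namespace Pool.Agent.Helper99.TC

private theorem fr4_limit : Tendsto (fun n : ℕ => (n : ℝ) * √(n : ℝ) * ((fr4 n : ℝ) / 16 ^ n)) atTop
    (nhds (√2 / (Real.pi * √Real.pi))) := by
  have h := binom_pow_limit 4 (by norm_num)
  have hpi := Real.pi_pos
  have e : (√(2 / Real.pi)) ^ 4 * √(Real.pi / (2 * ((4 : ℕ) : ℝ))) =
      √2 / (Real.pi * √Real.pi) := by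
    obtain ⟨r, hr⟩ : ∃ r, r = √(2 : ℝ) := ⟨_, rfl⟩
    obtain ⟨t, ht⟩ : ∃ t, t = √Real.pi := ⟨_, rfl⟩
    have hr0 : 0 < r := hr ▸ Real.sqrt_pos.2 (by norm_num)
    have ht0 : 0 < t := ht ▸ Real.sqrt_pos.2 hpi
    have hr2 : r ^ 2 = 2 := by rw [hr]; exact Real.sq_sqrt (by norm_num)
    have ht2 : t ^ 2 = Real.pi := by rw [ht]; exact Real.sq_sqrt hpi.le
    have h1 : √(Real.pi / (2 * ((4 : ℕ) : ℝ))) = t / (2 * r) := by
      have : Real.pi / (2 * ((4 : ℕ) : ℝ)) = (t / (2 * r)) ^ 2 := by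
        rw [div_pow, mul_pow, ht2, hr2]
        norm_num
      rw [this, Real.sqrt_sq (by positivity)]
    have h2 : (√(2 / Real.pi)) ^ 4 = (2 / Real.pi) ^ 2 := by
      rw [show (√(2 / Real.pi)) ^ 4 = ((√(2 / Real.pi)) ^ 2) ^ 2 by ring,
        Real.sq_sqrt (by positivity)]
    rw [h1, h2, ← hr, ← ht, ← ht2]
    have : (2 / t ^ 2) ^ 2 * (t / (2 * r)) = 2 / (t ^ 3 * r) := by
      field_simp
    rw [this, ← hr2]
    field_simp
  rw [e] at h
  refine h.congr (fun n => ?_)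
  have h0 : ((fr4 n : ℕ) : ℝ) = ∑ s ∈ Finset.range (n + 1), ((n.choose s : ℕ) : ℝ) ^ 4 := by
    rw [fr4]
    push_cast
    rfl
  have h1 : (√(n : ℝ)) ^ (4 - 1) = (n : ℝ) * √(n : ℝ) := by
    have h3 : √(n : ℝ) * √(n : ℝ) = n := Real.mul_self_sqrt (Nat.cast_nonneg n)
    show (√(n : ℝ)) ^ 3 = (n : ℝ) * √(n : ℝ)
    calc (√(n : ℝ)) ^ 3 = (√(n : ℝ) * √(n : ℝ)) * √(n : ℝ) := by ring
      _ = _ := by rw [h3]
  have h2 : (2 : ℝ) ^ (4 * n) = 16 ^ n := by
    rw [pow_mul]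
    norm_num
  rw [h0, h1, h2]
  ring

private def qF (j d : ℕ) : ℚ :=
  if j = 0 then (if d = 0 then 1 else 0)
  else if j = 1 then
    (if d = 0 then -(3 / 4) else if d = 1 then 9 / 8 else if d = 2 then -(5 / 8) else 1 / 8)
  else (if d = 0 then -(1 / 4) else if d = 1 then 3 / 4 else if d = 2 then -(47 / 64) else 15 / 64)

private theorem fr4_recR (n : ℕ) (hn : 2 ≤ n) : (fr4 n : ℝ) / 16 ^ n =
    (3 / 4 - 9 / 8 / (n : ℝ) + 5 / 8 / (n : ℝ) ^ 2 - 1 / 8 / (n : ℝ) ^ 3) *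
      ((fr4 (n - 1) : ℝ) / 16 ^ (n - 1)) +
    (1 / 4 - 3 / 4 / (n : ℝ) + 47 / 64 / (n : ℝ) ^ 2 - 15 / 64 / (n : ℝ) ^ 3) *
      ((fr4 (n - 2) : ℝ) / 16 ^ (n - 2)) := by
  obtain ⟨k, rfl⟩ := Nat.exists_eq_add_of_le' hn
  have e1 : k + 2 - 1 = k + 1 := by omega
  have e2 : k + 2 - 2 = k := by omega
  rw [e1, e2]
  have h := congrArg (fun x : ℚ => (x : ℝ)) (fr4_rec k)
  push_cast at h
  have hk : ((k : ℝ) + 2) ≠ 0 := by positivity
  have h16 : (16 : ℝ) ^ k ≠ 0 := by positivity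
  push_cast
  rw [pow_add, pow_add]
  field_simp
  linear_combination 2048 * h

theorem fr4_exp : ∃ E : ℕ → ℚ, IsAE (fun n => (fr4 n : ℝ) / 16 ^ n) (fun _ => 0)
    (fun i => √2 / (Real.pi * √Real.pi) * E i) (fun _ => 0) := by
  have hc : ∀ i : ℕ, cc i 1 = (i : ℚ) + 1 / 2 := by
    intro i
    simp [cc]
  obtain ⟨E, hE0, hE1, hE⟩ := formal_sol 3 4 (by norm_num) qF
    (by simp [Finset.sum_range_succ, qF]; norm_num)
    (by simp [Finset.sum_range_succ, qF, hc]; norm_num)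
    (by
      intro i hi
      have hi' : (2 : ℚ) ≤ i := by exact_mod_cast hi
      simp [Finset.sum_range_succ, qF, hc]
      intro h0
      linarith)
  obtain ⟨c, hc1, hc2⟩ := rec_exp 4 (by norm_num) qF (1 / 4) (by norm_num [abs_lt])
    (fun n => (fr4 n : ℝ) / 16 ^ n)
    (fun n => 3 / 4 - 9 / 8 / (n : ℝ) + 5 / 8 / (n : ℝ) ^ 2 - 1 / 8 / (n : ℝ) ^ 3)
    (fun n => 1 / 4 - 3 / 4 / (n : ℝ) + 47 / 64 / (n : ℝ) ^ 2 - 15 / 64 / (n : ℝ) ^ 3)
    (by
      have t1 : Tendsto (fun n : ℕ => 9 / 8 / (n : ℝ)) atTop (nhds 0) :=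
        tendsto_const_div_atTop_nhds_zero_nat _
      have t2 : Tendsto (fun n : ℕ => 5 / 8 / (n : ℝ) ^ 2) atTop (nhds 0) :=
        tendsto_const_div_pow _ 2 (by norm_num)
      have t3 : Tendsto (fun n : ℕ => 1 / 8 / (n : ℝ) ^ 3) atTop (nhds 0) :=
        tendsto_const_div_pow _ 3 (by norm_num)
      have := ((tendsto_const_nhds (x := (3 / 4 : ℝ))).sub t1).add t2 |>.sub t3
      convert this using 2
      norm_num)
    (by
      have t1 : Tendsto (fun n : ℕ => 3 / 4 / (n : ℝ)) atTop (nhds 0) :=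
        tendsto_const_div_atTop_nhds_zero_nat _
      have t2 : Tendsto (fun n : ℕ => 47 / 64 / (n : ℝ) ^ 2) atTop (nhds 0) :=
        tendsto_const_div_pow _ 2 (by norm_num)
      have t3 : Tendsto (fun n : ℕ => 15 / 64 / (n : ℝ) ^ 3) atTop (nhds 0) :=
        tendsto_const_div_pow _ 3 (by norm_num)
      have := ((tendsto_const_nhds (x := (1 / 4 : ℝ))).sub t1).add t2 |>.sub t3
      convert this using 2
      norm_num)
    (by
      intro s
      filter_upwards with n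
      simp [Lop, Finset.sum_range_succ, qF]
      ring)
    (by
      filter_upwards [eventually_ge_atTop 2] with n hn
      exact fr4_recR n hn)
    (fun k => (E k : ℝ)) (by simp [hE0]) (by simp [hE1]) hE
  have hcc : c = √2 / (Real.pi * √Real.pi) := tendsto_nhds_unique hc2 fr4_limit
  rw [hcc] at hc1
  exact ⟨E, hc1⟩

theorem Fcoef (n : ℕ) : coeff n Fser = if Even n then (fr4 (n / 2) : ℚ) else 0 := by
  have hco : ∀ j : ℕ, coeff n ((X ^ 2) ^ j * (fr4 j : ℚ⟦X⟧)) =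
      if n = 2 * j then (fr4 j : ℚ) else 0 := by
    intro j
    rw [← pow_mul, mul_comm, show (fr4 j : ℚ⟦X⟧) = C (fr4 j : ℚ) by simp, coeff_C_mul,
      coeff_X_pow]
    split_ifs <;> simp
  rw [Fser, gs, coeff_mk, map_sum]
  simp_rw [hco]
  split_ifs with he
  · obtain ⟨m, rfl⟩ := he
    rw [Finset.sum_eq_single m]
    · rw [if_pos (by ring), show (m + m) / 2 = m by omega]
    · intro j _ hj
      rw [if_neg (by omega)]
    · intro hm
      exact absurd (Finset.mem_range.2 (by omega)) hm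
  · refine Finset.sum_eq_zero fun j _ => ?_
    rw [if_neg]
    rintro rfl
    exact he (even_two_mul j)

private theorem Fcoef_even (m : ℕ) : ((coeff (m + m) Fser : ℚ) : ℝ) / 4 ^ (m + m) =
    (fr4 m : ℝ) / 16 ^ m := by
  rw [Fcoef, if_pos ⟨m, rfl⟩, show (m + m) / 2 = m by omega]
  have h : (4 : ℝ) ^ (m + m) = 16 ^ m := by
    rw [← two_mul, pow_mul]
    norm_num
  rw [h]
  push_cast
  rfl

private theorem Fcoef_odd {n : ℕ} (hn : ¬ Even n) : ((coeff n Fser : ℚ) : ℝ) / 4 ^ n = 0 := by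
  rw [Fcoef, if_neg hn]
  simp

private theorem sqrt_dbl (m : ℕ) : √((m + m : ℕ) : ℝ) = √2 * √(m : ℝ) := by
  rw [← Real.sqrt_mul (by norm_num)]
  congr 1
  push_cast
  ring

theorem Fcoef_exp : ∃ B : ℕ → ℝ, ∃ E : ℕ → ℚ,
    IsAE (fun n => ((coeff n Fser : ℚ) : ℝ) / 4 ^ n) (fun _ => 0) B
      (fun i => E i * (1 / (Real.pi * √Real.pi))) := by
  obtain ⟨E, hE⟩ := fr4_exp
  refine ⟨fun i => 2 ^ i * (E i : ℝ) * (1 / (Real.pi * √Real.pi)), fun i => 2 ^ i * E i, ?_⟩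
  intro N
  obtain ⟨K, hK⟩ := (hE N).bound
  have ht : Tendsto (fun n : ℕ => n / 2) atTop atTop := by
    refine tendsto_atTop.2 fun b => ?_
    filter_upwards [eventually_ge_atTop (2 * b)] with n hn
    omega
  refine IsBigO.of_bound (√2 * |K| * 2 ^ N) ?_
  filter_upwards [ht.eventually hK, eventually_ge_atTop 2] with n hn h2
  by_cases he : Even n
  · obtain ⟨m, rfl⟩ := he
    have hm1 : 1 ≤ m := by omega
    have hm0 : (0 : ℝ) < m := by exact_mod_cast hm1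
    rw [show (m + m) / 2 = m by omega] at hn
    have hev : ((-1 : ℝ)) ^ (m + m) = 1 := Even.neg_one_pow ⟨m, rfl⟩
    have hsq2 : √(2 : ℝ) * √2 = 2 := Real.mul_self_sqrt (by norm_num)
    have hpi := Real.pi_pos
    have hspi : 0 < √Real.pi := Real.sqrt_pos.2 hpi
    have key : √((m + m : ℕ) : ℝ) * (((coeff (m + m) Fser : ℚ) : ℝ) / 4 ^ (m + m)) -
        ∑ i ∈ Finset.range N, (0 * Real.log ((m + m : ℕ) : ℝ) +
          2 ^ i * (E i : ℝ) * (1 / (Real.pi * √Real.pi)) +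
          (-1) ^ (m + m) * (((2 ^ i * E i : ℚ) : ℝ) * (1 / (Real.pi * √Real.pi)))) /
            ((m + m : ℕ) : ℝ) ^ i =
        √2 * (√(m : ℝ) * ((fr4 m : ℝ) / 16 ^ m) -
          ∑ i ∈ Finset.range N, (0 * Real.log (m : ℝ) +
            √2 / (Real.pi * √Real.pi) * (E i : ℝ) + (-1) ^ m * 0) / (m : ℝ) ^ i) := by
      rw [Fcoef_even, sqrt_dbl, hev, mul_sub, Finset.mul_sum, mul_assoc]
      congr 1
      refine Finset.sum_congr rfl fun i _ => ?_
      have h2m : ((m + m : ℕ) : ℝ) ^ i = 2 ^ i * (m : ℝ) ^ i := by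
        rw [← mul_pow]
        congr 1
        push_cast
        ring
      rw [h2m]
      push_cast
      have hmi : (m : ℝ) ^ i ≠ 0 := by positivity
      have h2i : (2 : ℝ) ^ i ≠ 0 := by positivity
      simp only [zero_mul, mul_zero, zero_add, add_zero, one_mul]
      field_simp
      linear_combination (-(E i : ℝ)) * hsq2
    rw [key, norm_mul]
    have hs2 : ‖(√2 : ℝ)‖ = √2 := by
      rw [Real.norm_eq_abs, abs_of_nonneg (Real.sqrt_nonneg 2)]
    rw [hs2]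
    have hlog : ‖Real.log (m : ℝ) / (m : ℝ) ^ N‖ ≤
        2 ^ N * ‖Real.log ((m + m : ℕ) : ℝ) / ((m + m : ℕ) : ℝ) ^ N‖ := by
      have h2m : ((m + m : ℕ) : ℝ) ^ N = 2 ^ N * (m : ℝ) ^ N := by
        rw [← mul_pow]
        congr 1
        push_cast
        ring
      have hl0 : 0 ≤ Real.log (m : ℝ) := Real.log_nonneg (by exact_mod_cast hm1)
      have hl1 : Real.log (m : ℝ) ≤ Real.log ((m + m : ℕ) : ℝ) := by
        apply Real.log_le_log hm0
        push_cast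
        linarith
      have hmN : 0 < (m : ℝ) ^ N := by positivity
      rw [Real.norm_eq_abs, Real.norm_eq_abs, abs_of_nonneg (by positivity),
        abs_of_nonneg (by positivity), h2m]
      have : 2 ^ N * (Real.log ((m + m : ℕ) : ℝ) / (2 ^ N * (m : ℝ) ^ N)) =
          Real.log ((m + m : ℕ) : ℝ) / (m : ℝ) ^ N := by
        field_simp
      rw [this]
      gcongr
    calc √2 * ‖_‖ ≤ √2 * (K * ‖Real.log (m : ℝ) / (m : ℝ) ^ N‖) := by
          exact mul_le_mul_of_nonneg_left hn (Real.sqrt_nonneg 2)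
      _ ≤ √2 * (|K| * (2 ^ N * ‖Real.log ((m + m : ℕ) : ℝ) / ((m + m : ℕ) : ℝ) ^ N‖)) := by
          refine mul_le_mul_of_nonneg_left ?_ (Real.sqrt_nonneg 2)
          exact mul_le_mul (le_abs_self K) hlog (norm_nonneg _) (abs_nonneg K)
      _ = _ := by ring
  · have hod : ((-1 : ℝ)) ^ n = -1 := Odd.neg_one_pow (Nat.not_even_iff_odd.1 he)
    have key : √(n : ℝ) * (((coeff n Fser : ℚ) : ℝ) / 4 ^ n) -
        ∑ i ∈ Finset.range N, (0 * Real.log (n : ℝ) +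
          2 ^ i * (E i : ℝ) * (1 / (Real.pi * √Real.pi)) +
          (-1) ^ n * (((2 ^ i * E i : ℚ) : ℝ) * (1 / (Real.pi * √Real.pi)))) /
            (n : ℝ) ^ i = 0 := by
      rw [Fcoef_odd he, hod, mul_zero, zero_sub, neg_eq_zero]
      refine Finset.sum_eq_zero fun i _ => ?_
      push_cast
      ring
    rw [key, norm_zero]
    positivity

theorem Fcoef_le : ∃ K : ℝ, 0 < K ∧ ∀ n : ℕ, 1 ≤ n →
    ((coeff n Fser : ℚ) : ℝ) / 4 ^ n ≤ K / (n * √(n : ℝ)) := by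
  obtain ⟨B, hB⟩ := fr4_limit.bddAbove_range
  refine ⟨3 * (|B| + 1), by positivity, ?_⟩
  intro n hn
  have hn0 : (0 : ℝ) < n := by exact_mod_cast hn
  by_cases he : Even n
  · obtain ⟨m, rfl⟩ := he
    have hm1 : 1 ≤ m := by omega
    have hm0 : (0 : ℝ) < m := by exact_mod_cast hm1
    rw [Fcoef_even, sqrt_dbl]
    have h1 : (m : ℝ) * √(m : ℝ) * ((fr4 m : ℝ) / 16 ^ m) ≤ B := hB ⟨m, rfl⟩
    have hsm : 0 < √(m : ℝ) := Real.sqrt_pos.2 hm0
    have hs2 : √(2 : ℝ) ≤ 3 / 2 := by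
      rw [show (3 / 2 : ℝ) = √((3 / 2) ^ 2) by rw [Real.sqrt_sq (by norm_num)]]
      exact Real.sqrt_le_sqrt (by norm_num)
    have hs20 : 0 < √(2 : ℝ) := Real.sqrt_pos.2 (by norm_num)
    rw [le_div_iff₀ (by positivity)]
    push_cast
    have hB1 : B ≤ |B| + 1 := by linarith [le_abs_self B]
    have hB0 : 0 ≤ |B| + 1 := by positivity
    calc (fr4 m : ℝ) / 16 ^ m * (((m : ℝ) + m) * (√2 * √(m : ℝ)))
        = 2 * √2 * ((m : ℝ) * √(m : ℝ) * ((fr4 m : ℝ) / 16 ^ m)) := by ring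
      _ ≤ 2 * √2 * (|B| + 1) := by
          apply mul_le_mul_of_nonneg_left (h1.trans hB1)
          positivity
      _ ≤ 3 * (|B| + 1) := by
          apply mul_le_mul_of_nonneg_right _ hB0
          linarith
  · rw [Fcoef_odd he]
    positivity

end Pool.Agent.Helper99.TC
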