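import Pool.Agent.Helper99.TC.ThGs

/-!
# TC-22: relations of `bz`, `cb`, `g`, `G`

Coefficient by coefficient. With `B = bz (t + 2m)`: `g_succ` is Pascal's rule; `g_rec`: `binom(t+2m, s+m) = binom(t+2m-2, s+m-2) + 2 binom(t+2m-2, s+m-1) + binom(t+2m-2, s+m)`. `g_th`: coefficient of `X^m`: with `n = t + 2m - 2`, `k = s + m - 1`, write
`binom(t+2m, s+m)` by Pascal twice; what remains is `(n - k + 1) binom(n, k-1) + (k + 1) binom(n, k+1) = n binom(n, k)`, from `(k+1) binom(n,k+1) = (n-k) binom(n,k)` (`bz_step`) twice. `G_rec` follows from `g_rec` by `th`.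
`bz_param`: `κ = bz (t + 2) s / ((t + 1) (t + 2))`.
-/

set_option autoImplicit false

open PowerSeries

namespace Pool.Agent.Helper99.TC

theorem GRel_bz_nat (t k : ℕ) : bz t (k : ℤ) = (t.choose k : ℚ) := by
  unfold bz
  rw [if_pos (by positivity), Int.toNat_natCast]

theorem GRel_bz_neg (t : ℕ) (s : ℤ) (hs : s < 0) : bz t s = 0 := by
  unfold bz
  rw [if_neg (by omega)]

theorem bz_succ (t : ℕ) (s : ℤ) : bz (t + 1) s = bz t s + bz t (s - 1) := by
  rcases lt_trichotomy s 0 with h | h | h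
  · rw [GRel_bz_neg _ s h, GRel_bz_neg _ s h, GRel_bz_neg _ (s - 1) (by omega), add_zero]
  · subst h
    have e : (0 : ℤ) = ((0 : ℕ) : ℤ) := rfl
    rw [GRel_bz_neg t (0 - 1) (by omega), e, GRel_bz_nat, GRel_bz_nat]
    simp
  · obtain ⟨k, rfl⟩ : ∃ k : ℕ, s = ((k + 1 : ℕ) : ℤ) := ⟨(s - 1).toNat, by omega⟩
    have e : ((k + 1 : ℕ) : ℤ) - 1 = (k : ℤ) := by push_cast; ring
    rw [e, GRel_bz_nat, GRel_bz_nat, GRel_bz_nat, Nat.choose_succ_succ]
    push_cast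
    ring

theorem bz_step (t : ℕ) (s : ℤ) : ((s : ℚ) + 1) * bz t (s + 1) = ((t : ℚ) - s) * bz t s := by
  rcases lt_or_ge s 0 with h | h
  · rw [GRel_bz_neg t s h, mul_zero]
    rcases eq_or_ne s (-1) with h1 | h1
    · subst h1
      push_cast
      ring
    · rw [GRel_bz_neg t (s + 1) (by omega), mul_zero]
  · obtain ⟨k, rfl⟩ : ∃ k : ℕ, s = (k : ℤ) := ⟨s.toNat, by omega⟩
    have e : (k : ℤ) + 1 = ((k + 1 : ℕ) : ℤ) := by push_cast; ring
    rw [e, GRel_bz_nat, GRel_bz_nat]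
    rcases le_or_gt k t with hk | hk
    · have h1 := Nat.choose_succ_right_eq t k
      have h2 : ((t.choose (k + 1) : ℕ) : ℚ) * (k + 1) = (t.choose k : ℚ) * ((t : ℚ) - k) := by
        rw [← Nat.cast_sub hk]
        exact_mod_cast h1
      push_cast
      linarith
    · rw [Nat.choose_eq_zero_of_lt hk, Nat.choose_eq_zero_of_lt (by omega : t < k + 1)]
      simp

theorem bz_neg (t : ℕ) (s : ℤ) (hs : s < 0) : bz t s = 0 := by
  exact GRel_bz_neg t s hs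

theorem bz_big (t : ℕ) (s : ℤ) (hs : (t : ℤ) < s) : bz t s = 0 := by
  obtain ⟨k, rfl⟩ : ∃ k : ℕ, s = (k : ℤ) := ⟨s.toNat, by omega⟩
  rw [GRel_bz_nat, Nat.choose_eq_zero_of_lt (by omega)]
  simp

theorem GRel_A (t : ℕ) (s : ℤ) : ((t : ℚ) + 1 - s) * bz (t + 1) s = ((t : ℚ) + 1) * bz t s := by
  have h1 := bz_succ t s
  have h2 := bz_step t (s - 1)
  rw [sub_add_cancel] at h2
  push_cast at h2
  rw [h1]
  linear_combination (-1 : ℚ) * h2

theorem GRel_B (t : ℕ) (s : ℤ) : (s : ℚ) * bz (t + 1) s = ((t : ℚ) + 1) * bz t (s - 1) := by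
  have h1 := bz_succ t s
  have h2 := bz_step t (s - 1)
  rw [sub_add_cancel] at h2
  push_cast at h2
  rw [h1]
  linear_combination h2

theorem bz_param (t : ℕ) (s : ℤ) : ∃ κ : ℚ, bz t s = (t + 1 - s) * (t + 2 - s) * κ ∧
    bz t (s - 1) = s * (t + 2 - s) * κ ∧ bz t (s - 2) = s * (s - 1) * κ := by
  have hA := GRel_A (t + 1) s
  have hB := GRel_B (t + 1) s
  have hA1 := GRel_A t s
  have hB1 := GRel_B t s
  have hB2 := GRel_B t (s - 1)
  push_cast at hA hB hA1 hB1 hB2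
  have e2 : s - 1 - 1 = s - 2 := by ring
  rw [e2] at hB2
  have t1 : ((t : ℚ) + 1) ≠ 0 := by positivity
  have t2 : ((t : ℚ) + 2) ≠ 0 := by positivity
  refine ⟨bz (t + 1 + 1) s / (((t : ℚ) + 1) * (t + 2)), ?_, ?_, ?_⟩
  · rw [← mul_div_assoc, eq_div_iff (mul_ne_zero t1 t2)]
    linear_combination (-((t : ℚ) + 1 - s)) * hA + (-((t : ℚ) + 2)) * hA1
  · rw [← mul_div_assoc, eq_div_iff (mul_ne_zero t1 t2)]
    linear_combination (-(s : ℚ)) * hA + (-((t : ℚ) + 2)) * hB1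
  · rw [← mul_div_assoc, eq_div_iff (mul_ne_zero t1 t2)]
    linear_combination (-((s : ℚ) - 1)) * hB + (-((t : ℚ) + 2)) * hB2

theorem bz_symm (t : ℕ) (s : ℤ) : bz t (t - s) = bz t s := by
  rcases lt_or_ge s 0 with h | h
  · rw [GRel_bz_neg t s h, bz_big t _ (by omega)]
  · rcases lt_or_ge (t : ℤ) s with h1 | h1
    · rw [GRel_bz_neg t _ (by omega), bz_big t s h1]
    · obtain ⟨k, rfl⟩ : ∃ k : ℕ, s = (k : ℤ) := ⟨s.toNat, by omega⟩
      have hk : k ≤ t := by omega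
      rw [← Nat.cast_sub hk, GRel_bz_nat, GRel_bz_nat, Nat.choose_symm hk]

theorem cb_succ (t : ℕ) (s : ℤ) : cb (t + 1) s = cb t s + cb t (s - 1) := by
  unfold cb
  rw [bz_succ, map_add]

theorem th_cb (t : ℕ) (s : ℤ) : th (cb t s) = 0 := by
  exact th_C _

theorem g_succ (t : ℕ) (s : ℤ) : g (t + 1) s = g t s + g t (s - 1) := by
  ext m
  rw [map_add]
  unfold g
  rw [coeff_mk, coeff_mk, coeff_mk]
  have e1 : t + 1 + 2 * m = t + 2 * m + 1 := by ring
  have e2 : s - 1 + (m : ℤ) = s + m - 1 := by ring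
  rw [e1, e2, bz_succ]

theorem g_rec (t : ℕ) (s : ℤ) :
    g t s = cb t s + X * (2 * g t s + g t (s - 1) + g t (s + 1)) := by
  ext m
  rw [two_mul, map_add]
  rcases m with _ | m
  · rw [coeff_zero_X_mul, add_zero]
    unfold g cb
    rw [coeff_mk, coeff_zero_C]
    simp
  · rw [coeff_succ_X_mul, map_add, map_add, map_add]
    unfold g cb
    rw [coeff_mk, coeff_mk, coeff_mk, coeff_mk, coeff_succ_C]
    have e1 : t + 2 * (m + 1) = t + 2 * m + 1 + 1 := by ring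
    have e2 : s + ((m + 1 : ℕ) : ℤ) = s + m + 1 := by push_cast; ring
    have e3 : s - 1 + (m : ℤ) = s + m - 1 := by ring
    have e4 : s + 1 + (m : ℤ) = s + m + 1 := by ring
    rw [e1, e2, e3, e4, bz_succ, bz_succ, bz_succ, add_sub_cancel_right]
    ring

theorem g_th (t : ℕ) (s : ℤ) : (1 - 4 * X) * th (g t s) =
    X * (((t : ℚ⟦X⟧) + 2) * g t s - ((t : ℚ⟦X⟧) - (s : ℚ⟦X⟧)) * g t (s - 1) -
      (s : ℚ⟦X⟧) * g t (s + 1)) := by
  have c4 : (4 : ℚ⟦X⟧) = PowerSeries.C (4 : ℚ) := (map_ofNat (PowerSeries.C : ℚ →+* ℚ⟦X⟧) 4).symm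
  have c2 : (2 : ℚ⟦X⟧) = PowerSeries.C (2 : ℚ) := (map_ofNat (PowerSeries.C : ℚ →+* ℚ⟦X⟧) 2).symm
  have ct : (t : ℚ⟦X⟧) = PowerSeries.C (t : ℚ) := (map_natCast (PowerSeries.C : ℚ →+* ℚ⟦X⟧) t).symm
  have cs : (s : ℚ⟦X⟧) = PowerSeries.C (s : ℚ) := (map_intCast (PowerSeries.C : ℚ →+* ℚ⟦X⟧) s).symm
  have hl : (1 - 4 * X) * th (g t s) = th (g t s) - X * (PowerSeries.C (4 : ℚ) * th (g t s)) := by
    rw [← c4]; ring
  have hr : X * (((t : ℚ⟦X⟧) + 2) * g t s - ((t : ℚ⟦X⟧) - (s : ℚ⟦X⟧)) * g t (s - 1) -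
      (s : ℚ⟦X⟧) * g t (s + 1)) = X * (PowerSeries.C ((t : ℚ) + 2) * g t s -
        PowerSeries.C ((t : ℚ) - s) * g t (s - 1) - PowerSeries.C (s : ℚ) * g t (s + 1)) := by
    rw [map_add, map_sub, ← c2, ← ct, ← cs]
  rw [hl, hr]
  ext m
  rw [map_sub]
  rcases m with _ | m
  · rw [coeff_zero_X_mul, coeff_zero_X_mul]
    unfold th
    rw [coeff_mk]
    simp
  · rw [coeff_succ_X_mul, coeff_succ_X_mul, map_sub, map_sub, coeff_C_mul, coeff_C_mul,
      coeff_C_mul, coeff_C_mul]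
    unfold th g
    rw [coeff_mk, coeff_mk, coeff_mk, coeff_mk, coeff_mk, coeff_mk]
    have e1 : t + 2 * (m + 1) = t + 2 * m + 1 + 1 := by ring
    have e2 : s + ((m + 1 : ℕ) : ℤ) = s + m + 1 := by push_cast; ring
    have e3 : s - 1 + (m : ℤ) = s + m - 1 := by ring
    have e4 : s + 1 + (m : ℤ) = s + m + 1 := by ring
    rw [e1, e2, e3, e4, bz_succ (t + 2 * m + 1), add_sub_cancel_right, bz_succ (t + 2 * m),
      bz_succ (t + 2 * m), add_sub_cancel_right]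
    have h1 := bz_step (t + 2 * m) (s + m)
    have h2 := bz_step (t + 2 * m) (s + m - 1)
    rw [sub_add_cancel] at h2
    push_cast at h1 h2 ⊢
    linear_combination h1 - h2

theorem G_succ (t : ℕ) (s : ℤ) : G (t + 1) s = G t s + G t (s - 1) := by
  unfold G
  rw [g_succ, th_add]
  ring

theorem G_rec (t : ℕ) (s : ℤ) :
    G t s = g t s + X * (2 * G t s + G t (s - 1) + G t (s + 1)) := by
  have h := g_rec t s
  have h1 : th (g t s) = X * (2 * g t s + g t (s - 1) + g t (s + 1)) +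
      X * (2 * th (g t s) + th (g t (s - 1)) + th (g t (s + 1))) := by
    conv_lhs => rw [h]
    rw [th_add, th_cb, th_mul, th_X, th_add, th_add, th_mul, th_ofNat]
    ring
  unfold G
  linear_combination h1

theorem rho_succ (t : ℕ) (s : ℤ) : rho (t + 1) s = rho t s + rho t (s - 1) := by
  funext i
  fin_cases i
  · simp [rho, g_succ]
  · simp [rho, g_succ]
  · simp [rho, cb_succ]
  · simp [rho, cb_succ]

end Pool.Agent.Helper99.TC
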