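import Pool.Agent.Helper99.TC.Laplace
import Pool.Agent.Helper99.TC.Abel
import Pool.Agent.Helper99.TC.GRel

/-!
# TC-49: asymptotics of `Iser` at x = 1/4

Write `y = 4x`, `Fr t = ∑_s binom(t,s)^3`. `Icoef`: `coeff n Iser = ∑_{2t + m = n} ∑_s binom(t,s)^3 binom(t+2m, s+m)`; all terms are nonnegative, so for `0 ≤ y < 1` in `[0, ∞]` or as real sums: `∑_n I_n (y/4)^n = ∑_t (y/4)^(2t) ∑_s binom(t,s)^3 ∑_m (y/4)^m binom(t+2m, s+m)`.

Upper bound: `binom(t+2m, s+m) = ∑_j binom(t,j) binom(2m, m+s-j) ≤ 2^t binom(2m,m)`, so `I ≤ (1-y)^(-1/2) Φ(y)`, `Φ(y) = ∑_t Fr t 2^t (y/4)^(2t) = ∑_t (Fr t/8^t) y^(2t)` (`∑ binom(2m,m)(y/4)^m = (1-y)^(-1/2)`).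

`Φ(y)/log(1/(1-y)) → 2/(√3 π)`: by `binom_pow_limit 3`, `(Fr t/8^t) t → (2/π)^(3/2) √(π/6) = 2/(√3 π)`, and `∑_{t≥1} y^(2t)/t = log(1/(1-y²))`, `log(1/(1-y²))/log(1/(1-y)) → 1`; use the argument of `abel_ratio` with the variable `y²`.

Lower bound: `binom(2m, m+k) ≥ binom(2m,m) (1 - k²/(m+1))` for all integers `k` (product of the factors `1 - (2j-1)/(m+j)`, Weierstrass inequality; trivial when `k² ≥ m + 1`). Hence `∑_s binom(t,s)^3 binom(t+2m,s+m) ≥ binom(2m,m) (2^t Fr t - (1/(m+1)) ∑_s ∑_j binom(t,s)^3 binom(t,j) (s-j)²)`. And `(s-j)² ≤ 2 (s-t/2)² + 2 (j-t/2)²`, `∑_j binom(t,j)(j-t/2)² = 2^t t/4`,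
`∑_s binom(t,s)^3 (s-t/2)² ≤ (max binom)² 2^t t/4 ≤ K t Fr t` (because `Fr t ≥ c 8^t/t` and `max binom ≤ K 2^t/√t`). So the sum is `≥ binom(2m,m) 2^t Fr t (1 - K t/(m+1))`. For `ε > 0` keep only the terms with `m + 1 ≥ K t/ε` (the others are ≥ 0): `I ≥ (1-ε) ∑_t (Fr t/8^t) y^(2t) ((1-y)^(-1/2) - ∑_{m < K t/ε} binom(2m,m)/4^m)`, the inner sum is `≤ K' √(t/ε)`, and
`∑_t (Fr t/8^t) √t y^(2t) ≤ K'' ∑ t^(-1/2) y^(2t) ≤ K''' (1-y)^(-1/2)`. So `I √(1-y) ≥ (1-ε) Φ(y) - K_ε`, and divide by `log(1/(1-y)) → ∞`.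
-/

set_option autoImplicit false

open Filter Asymptotics PowerSeries

namespace Pool.Agent.Helper99.TC

private theorem ia_sum_Icc (t : ℕ) (f : ℤ → ℚ) :
    ∑ s ∈ Finset.Icc (0 : ℤ) t, f s = ∑ s ∈ Finset.range (t + 1), f (s : ℤ) := by
  refine Finset.sum_nbij' (fun s => s.toNat) (fun s => (s : ℤ)) ?_ ?_ ?_ ?_ ?_
  · intro s hs
    rw [Finset.mem_Icc] at hs
    rw [Finset.mem_range]
    omega
  · intro s hs
    rw [Finset.mem_range] at hs
    rw [Finset.mem_Icc]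
    omega
  · intro s hs
    rw [Finset.mem_Icc] at hs
    show ((s.toNat : ℕ) : ℤ) = s
    omega
  · intro s _
    show ((s : ℤ)).toNat = s
    omega
  · intro s hs
    rw [Finset.mem_Icc] at hs
    show f s = f ((s.toNat : ℕ) : ℤ)
    congr 1
    omega

theorem Icoef (n : ℕ) : coeff n Iser = ∑ t ∈ Finset.range (n / 2 + 1),
    ∑ s ∈ Finset.range (t + 1), ((t.choose s : ℕ) : ℚ) ^ 3 *
      (((t + 2 * (n - 2 * t)).choose (s + (n - 2 * t)) : ℕ) : ℚ) := by
  have h0 : ∀ t m : ℕ, coeff m (∑ s ∈ Finset.Icc (0 : ℤ) t, g t s * cb t s ^ 3)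
      = ∑ s ∈ Finset.range (t + 1), ((t.choose s : ℕ) : ℚ) ^ 3 *
        (((t + 2 * m).choose (s + m) : ℕ) : ℚ) := by
    intro t m
    rw [map_sum, ia_sum_Icc]
    refine Finset.sum_congr rfl fun s _ => ?_
    unfold cb g
    rw [← map_pow, mul_comm, coeff_C_mul, coeff_mk, GRel_bz_nat]
    congr 1
  unfold Iser gs
  rw [coeff_mk, map_sum]
  have h1 : ∀ t : ℕ, coeff n ((X ^ 2) ^ t * ∑ s ∈ Finset.Icc (0 : ℤ) t, g t s * cb t s ^ 3)
      = if 2 * t ≤ n then ∑ s ∈ Finset.range (t + 1), ((t.choose s : ℕ) : ℚ) ^ 3 *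
      (((t + 2 * (n - 2 * t)).choose (s + (n - 2 * t)) : ℕ) : ℚ) else 0 := by
    intro t
    rw [← pow_mul, coeff_X_pow_mul']
    by_cases h : 2 * t ≤ n
    · rw [if_pos h, if_pos h, h0]
    · rw [if_neg h, if_neg h]
  rw [Finset.sum_congr rfl fun t _ => h1 t, ← Finset.sum_filter]
  refine Finset.sum_congr ?_ fun _ _ => rfl
  ext t
  rw [Finset.mem_filter, Finset.mem_range, Finset.mem_range]
  omega

/-! ### the combinatorial inequality -/

private noncomputable def ww (t m : ℕ) : ℝ :=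
  ∑ s ∈ Finset.range (t + 1), ((t.choose s : ℕ) : ℝ) ^ 3 *
        (((t + 2 * m).choose (s + m) : ℕ) : ℝ)

private noncomputable def Fr3 (t : ℕ) : ℝ := ∑ s ∈ Finset.range (t + 1), ((t.choose s : ℕ) : ℝ) ^ 3

private theorem ww_nonneg (t m : ℕ) : 0 ≤ ww t m := by
  unfold ww; positivity

private theorem Fr3_nonneg (t : ℕ) : 0 ≤ Fr3 t := by
  unfold Fr3; positivity

private theorem vand (t m s : ℕ) : (((t + 2 * m).choose (s + m) : ℕ) : ℝ) =
    ∑ i ∈ Finset.range (s + m + 1), ((t.choose i : ℕ) : ℝ) * (((2 * m).choose (s + m - i) : ℕ) : ℝ) := by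
  rw [Nat.add_choose_eq, Finset.Nat.sum_antidiagonal_eq_sum_range_succ_mk]
  push_cast
  rfl

private theorem sum_choose_le (t N : ℕ) :
    ∑ i ∈ Finset.range N, ((t.choose i : ℕ) : ℝ) ≤ 2 ^ t := by
  have h : ∑ i ∈ Finset.range (t + 1), ((t.choose i : ℕ) : ℝ) = 2 ^ t := by
    exact_mod_cast Nat.sum_range_choose t
  rw [← h]
  rcases le_total N (t + 1) with hN | hN
  · exact Finset.sum_le_sum_of_subset_of_nonneg (Finset.range_mono hN) fun _ _ _ => by positivity
  · rw [← Finset.sum_range_add_sum_Ico _ hN]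
    have : ∑ i ∈ Finset.Ico (t + 1) N, ((t.choose i : ℕ) : ℝ) = 0 := by
      refine Finset.sum_eq_zero fun i hi => ?_
      rw [Finset.mem_Ico] at hi
      rw [Nat.choose_eq_zero_of_lt (by omega)]
      simp
    rw [this, add_zero]

private theorem ww_upper (t m : ℕ) : ww t m ≤ 2 ^ t * Fr3 t * ((Nat.centralBinom m : ℕ) : ℝ) := by
  unfold ww Fr3
  rw [Finset.mul_sum, Finset.sum_mul]
  refine Finset.sum_le_sum fun s _ => ?_
  have h1 : (((t + 2 * m).choose (s + m) : ℕ) : ℝ) ≤ 2 ^ t * ((Nat.centralBinom m : ℕ) : ℝ) := by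
    rw [vand]
    refine le_trans (Finset.sum_le_sum (g := fun i => ((t.choose i : ℕ) : ℝ) *
      ((Nat.centralBinom m : ℕ) : ℝ)) fun i _ => ?_) ?_
    · refine mul_le_mul_of_nonneg_left ?_ (by positivity)
      exact_mod_cast Nat.choose_le_centralBinom _ _
    · rw [← Finset.sum_mul]
      exact mul_le_mul_of_nonneg_right (sum_choose_le _ _) (by positivity)
  calc _ ≤ ((t.choose s : ℕ) : ℝ) ^ 3 * (2 ^ t * ((Nat.centralBinom m : ℕ) : ℝ)) :=
        mul_le_mul_of_nonneg_left h1 (by positivity)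
    _ = _ := by ring

private theorem cb_lower (m k : ℕ) : ((m : ℝ) + 1 - (k : ℝ) ^ 2) * ((Nat.centralBinom m : ℕ) : ℝ) ≤
    ((m : ℝ) + 1) * (((2 * m).choose (m + k) : ℕ) : ℝ) := by
  induction k with
  | zero =>
    rw [Nat.centralBinom_eq_two_mul_choose]
    simp
  | succ k ih =>
    rcases le_or_gt ((m : ℝ) + 1) (((k + 1 : ℕ) : ℝ) ^ 2) with h | h
    · have h1 : ((m : ℝ) + 1 - ((k + 1 : ℕ) : ℝ) ^ 2) * ((Nat.centralBinom m : ℕ) : ℝ) ≤ 0 :=
        mul_nonpos_of_nonpos_of_nonneg (by linarith) (by positivity)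
      refine h1.trans (by positivity)
    · have hkm : k < m := by
        have : ((k + 1 : ℕ) : ℝ) ≤ ((k + 1 : ℕ) : ℝ) ^ 2 := by
          have h2 : (1 : ℝ) ≤ ((k + 1 : ℕ) : ℝ) := by push_cast; linarith [(Nat.cast_nonneg k : (0 : ℝ) ≤ k)]
          nlinarith
        have h3 : ((k + 1 : ℕ) : ℝ) < ((m + 1 : ℕ) : ℝ) := by push_cast at *; linarith
        have := Nat.cast_lt.mp h3
        omega
      have hrec : (((2 * m).choose (m + (k + 1)) : ℕ) : ℝ) * ((m : ℝ) + k + 1) =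
          (((2 * m).choose (m + k) : ℕ) : ℝ) * ((m : ℝ) - k) := by
        have h4 := Nat.choose_succ_right_eq (2 * m) (m + k)
        rw [show 2 * m - (m + k) = m - k by omega] at h4
        rw [← Nat.cast_sub hkm.le, ← add_assoc m k 1]
        exact_mod_cast h4
      have hpos : (0 : ℝ) < (m : ℝ) + k + 1 := by positivity
      have hmk : (0 : ℝ) ≤ (m : ℝ) - k := by
        have : (k : ℝ) ≤ m := by exact_mod_cast hkm.le
        linarith
      have hc : (0 : ℝ) ≤ ((Nat.centralBinom m : ℕ) : ℝ) := by positivity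
      have h5 := mul_le_mul_of_nonneg_left ih hmk
      have h6 : ((m : ℝ) + 1 - ((k + 1 : ℕ) : ℝ) ^ 2) * ((m : ℝ) + k + 1) ≤
          ((m : ℝ) - k) * ((m : ℝ) + 1 - (k : ℝ) ^ 2) := by
        push_cast
        have : (0 : ℝ) ≤ (k : ℝ) * (k + 1) * (2 * k + 1) := by positivity
        nlinarith
      have h7 := mul_le_mul_of_nonneg_right h6 hc
      have h8 : (((m : ℝ) + 1 - ((k + 1 : ℕ) : ℝ) ^ 2) * ((Nat.centralBinom m : ℕ) : ℝ)) *
          ((m : ℝ) + k + 1) ≤ (((m : ℝ) + 1) * (((2 * m).choose (m + (k + 1)) : ℕ) : ℝ)) *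
          ((m : ℝ) + k + 1) := by
        have e : (((m : ℝ) + 1) * (((2 * m).choose (m + (k + 1)) : ℕ) : ℝ)) * ((m : ℝ) + k + 1)
          = ((m : ℝ) - k) * (((m : ℝ) + 1) * (((2 * m).choose (m + k) : ℕ) : ℝ)) := by
          rw [mul_assoc, hrec]; ring
        rw [e]
        nlinarith
      exact le_of_mul_le_mul_right h8 hpos

private theorem cb_lower' (m s i : ℕ) (hi : i ≤ s + m) :
    ((m : ℝ) + 1 - ((s : ℝ) - i) ^ 2) * ((Nat.centralBinom m : ℕ) : ℝ) ≤
    ((m : ℝ) + 1) * (((2 * m).choose (s + m - i) : ℕ) : ℝ) := by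
  rcases le_total i s with h | h
  · have h1 := cb_lower m (s - i)
    rw [Nat.cast_sub h, show m + (s - i) = s + m - i by omega] at h1
    exact h1
  · have h1 := cb_lower m (i - s)
    rw [Nat.cast_sub h] at h1
    have h2 : (2 * m).choose (m + (i - s)) = (2 * m).choose (s + m - i) := by
      rw [← Nat.choose_symm (by omega : m + (i - s) ≤ 2 * m)]
      congr 1
      omega
    rw [h2] at h1
    calc _ = ((m : ℝ) + 1 - ((i : ℝ) - s) ^ 2) * ((Nat.centralBinom m : ℕ) : ℝ) := by ring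
      _ ≤ _ := h1

private theorem vand_lower (t m s : ℕ) :
    ∑ i ∈ Finset.range (t + 1), ((t.choose i : ℕ) : ℝ) *
      (((m : ℝ) + 1 - ((s : ℝ) - i) ^ 2) * ((Nat.centralBinom m : ℕ) : ℝ)) ≤
    ((m : ℝ) + 1) * (((t + 2 * m).choose (s + m) : ℕ) : ℝ) := by
  rw [vand, Finset.mul_sum]
  set f : ℕ → ℝ := fun i => ((t.choose i : ℕ) : ℝ) *
      (((m : ℝ) + 1 - ((s : ℝ) - i) ^ 2) * ((Nat.centralBinom m : ℕ) : ℝ)) with hf
  have h1 : ∑ i ∈ Finset.range (t + 1), f i ≤ ∑ i ∈ Finset.range (s + m + 1), f i := by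
    rcases le_total (t + 1) (s + m + 1) with h | h
    · rw [← Finset.sum_range_add_sum_Ico _ h]
      have : ∑ i ∈ Finset.Ico (t + 1) (s + m + 1), f i = 0 := by
        refine Finset.sum_eq_zero fun i hi => ?_
        rw [Finset.mem_Ico] at hi
        rw [hf]
        simp only
        rw [Nat.choose_eq_zero_of_lt (by omega)]
        simp
      rw [this, add_zero]
    · rw [← Finset.sum_range_add_sum_Ico _ h]
      have : ∑ i ∈ Finset.Ico (s + m + 1) (t + 1), f i ≤ 0 := by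
        refine Finset.sum_nonpos fun i hi => ?_
        rw [Finset.mem_Ico] at hi
        rw [hf]
        simp only
        refine mul_nonpos_of_nonneg_of_nonpos (by positivity) ?_
        refine mul_nonpos_of_nonpos_of_nonneg ?_ (by positivity)
        have h2 : (s : ℝ) + m + 1 ≤ i := by exact_mod_cast hi.1
        have h3 : (0 : ℝ) ≤ m := by positivity
        nlinarith
      linarith
  refine h1.trans (Finset.sum_le_sum fun i hi => ?_)
  rw [Finset.mem_range] at hi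
  have h2 := mul_le_mul_of_nonneg_left (cb_lower' m s i (by omega))
    (show (0 : ℝ) ≤ ((t.choose i : ℕ) : ℝ) by positivity)
  rw [hf]
  simp only
  linarith

private theorem choose_mono_half (t : ℕ) (a b : ℕ) (hab : a ≤ b) (hb : 2 * b ≤ t) :
    t.choose a ≤ t.choose b := by
  induction b, hab using Nat.le_induction with
  | base => exact le_rfl
  | succ b hab ih =>
    refine (ih (by omega)).trans ?_
    exact Nat.choose_le_succ_of_lt_half_left (by omega)

private theorem choose_anti (t s u : ℕ) (hs : s ≤ t) (hu : u ≤ t)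
    (h : (2 * (s : ℝ) - t) ^ 2 ≤ (2 * (u : ℝ) - t) ^ 2) : t.choose u ≤ t.choose s := by
  have e : ∀ v : ℕ, v ≤ t → t.choose v = t.choose (min v (t - v)) ∧
      (2 * (v : ℝ) - t) ^ 2 = ((t : ℝ) - 2 * ((min v (t - v) : ℕ) : ℝ)) ^ 2 := by
    intro v hv
    rcases le_total v (t - v) with h1 | h1
    · rw [min_eq_left h1]
      exact ⟨rfl, by ring⟩
    · rw [min_eq_right h1]
      refine ⟨(Nat.choose_symm hv).symm, ?_⟩
      rw [Nat.cast_sub hv]
      ring
  rw [(e s hs).2, (e u hu).2] at h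
  rw [(e s hs).1, (e u hu).1]
  have h1 : (0 : ℝ) ≤ (t : ℝ) - 2 * ((min s (t - s) : ℕ) : ℝ) := by
    have : 2 * min s (t - s) ≤ t := by omega
    have : (2 : ℝ) * ((min s (t - s) : ℕ) : ℝ) ≤ t := by exact_mod_cast this
    linarith
  have h2 : (0 : ℝ) ≤ (t : ℝ) - 2 * ((min u (t - u) : ℕ) : ℝ) := by
    have : 2 * min u (t - u) ≤ t := by omega
    have : (2 : ℝ) * ((min u (t - u) : ℕ) : ℝ) ≤ t := by exact_mod_cast this
    linarith
  have h3 := (pow_le_pow_iff_left₀ h1 h2 two_ne_zero).mp h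
  have h4 : ((min u (t - u) : ℕ) : ℝ) ≤ ((min s (t - s) : ℕ) : ℝ) := by linarith
  exact choose_mono_half t _ _ (by exact_mod_cast h4) (by omega)

private theorem var_sum (t : ℕ) : ∑ s ∈ Finset.range (t + 1), ((t.choose s : ℕ) : ℝ) *
    (2 * (s : ℝ) - t) ^ 2 = (t : ℝ) * 2 ^ t := by
  induction t with
  | zero => simp
  | succ t ih =>
    have h := Finset.sum_choose_succ_mul (R := ℝ) (fun i _ => (2 * (i : ℝ) - ((t + 1 : ℕ) : ℝ)) ^ 2) t
    rw [show t + 1 + 1 = t + 2 from rfl, h, ← Finset.sum_add_distrib]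
    have h2 : ∀ i ∈ Finset.range (t + 1), (((t.choose i : ℕ) : ℝ) * (2 * (i : ℝ) - ((t + 1 : ℕ) : ℝ)) ^ 2
        + ((t.choose i : ℕ) : ℝ) * (2 * ((i + 1 : ℕ) : ℝ) - ((t + 1 : ℕ) : ℝ)) ^ 2)
        = 2 * (((t.choose i : ℕ) : ℝ) * (2 * (i : ℝ) - t) ^ 2) + 2 * ((t.choose i : ℕ) : ℝ) := by
      intro i _
      push_cast
      ring
    rw [Finset.sum_congr rfl h2, Finset.sum_add_distrib, ← Finset.mul_sum, ← Finset.mul_sum, ih]
    have h3 : ∑ i ∈ Finset.range (t + 1), ((t.choose i : ℕ) : ℝ) = 2 ^ t := by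
      exact_mod_cast Nat.sum_range_choose t
    rw [h3]
    push_cast
    ring

private theorem cheb (t : ℕ) : ∑ s ∈ Finset.range (t + 1), ((t.choose s : ℕ) : ℝ) ^ 3 *
    (2 * (s : ℝ) - t) ^ 2 ≤ t * Fr3 t := by
  set b : ℕ → ℝ := fun s => ((t.choose s : ℕ) : ℝ) with hb
  set c : ℕ → ℝ := fun s => (2 * (s : ℝ) - t) ^ 2 with hc
  have h0 : ∑ s ∈ Finset.range (t + 1), ∑ u ∈ Finset.range (t + 1),
      b s * b u * ((b s ^ 2 - b u ^ 2) * (c s - c u)) ≤ 0 := by
    refine Finset.sum_nonpos fun s hs => Finset.sum_nonpos fun u hu => ?_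
    rw [Finset.mem_range] at hs hu
    refine mul_nonpos_of_nonneg_of_nonpos (by positivity) ?_
    have key : ∀ s u : ℕ, s ≤ t → u ≤ t → c s ≤ c u → b u ^ 2 ≤ b s ^ 2 := by
      intro s u hs hu h
      have h1 := choose_anti t s u hs hu h
      have h2 : b u ≤ b s := by
        rw [hb]
        simp only
        exact_mod_cast h1
      have h3 : 0 ≤ b u := by positivity
      exact pow_le_pow_left₀ h3 h2 2
    rcases le_total (c s) (c u) with h | h
    · exact mul_nonpos_of_nonneg_of_nonpos (by linarith [key s u (by omega) (by omega) h]) (by linarith)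
    · exact mul_nonpos_of_nonpos_of_nonneg (by linarith [key u s (by omega) (by omega) h]) (by linarith)
  have h1 : ∑ s ∈ Finset.range (t + 1), ∑ u ∈ Finset.range (t + 1),
      b s * b u * ((b s ^ 2 - b u ^ 2) * (c s - c u))
      = 2 * ((∑ s ∈ Finset.range (t + 1), b s) * (∑ s ∈ Finset.range (t + 1), b s ^ 3 * c s)
        - (∑ s ∈ Finset.range (t + 1), b s ^ 3) * (∑ s ∈ Finset.range (t + 1), b s * c s)) := by
    have e : ∀ s u : ℕ, b s * b u * ((b s ^ 2 - b u ^ 2) * (c s - c u))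
        = (b s ^ 3 * c s) * b u + b s * (b u ^ 3 * c u) - b s ^ 3 * (b u * c u)
          - (b s * c s) * b u ^ 3 := by
      intro s u; ring
    simp only [e, Finset.sum_sub_distrib, Finset.sum_add_distrib, ← Finset.mul_sum,
      ← Finset.sum_mul]
    ring
  have h2 : ∑ s ∈ Finset.range (t + 1), b s = 2 ^ t := by
    have : ∑ s ∈ Finset.range (t + 1), ((t.choose s : ℕ) : ℝ) = 2 ^ t := by
      exact_mod_cast Nat.sum_range_choose t
    exact this
  have h3 : ∑ s ∈ Finset.range (t + 1), b s * c s = (t : ℝ) * 2 ^ t := var_sum t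
  rw [h1, h2, h3] at h0
  have h4 : (0 : ℝ) < 2 ^ t := by positivity
  have h5 : (2 : ℝ) ^ t * (∑ s ∈ Finset.range (t + 1), b s ^ 3 * c s) ≤ 2 ^ t * (t * Fr3 t) := by
    unfold Fr3
    rw [hb] at h0 ⊢
    simp only at h0 ⊢
    nlinarith
  exact le_of_mul_le_mul_left h5 h4

private theorem ww_lower (t m : ℕ) : 2 ^ t * Fr3 t * ((Nat.centralBinom m : ℕ) : ℝ) *
    ((m : ℝ) + 1 - t) ≤ ((m : ℝ) + 1) * ww t m := by
  set C : ℝ := ((Nat.centralBinom m : ℕ) : ℝ) with hC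
  have hC0 : 0 ≤ C := by positivity
  have h1 : ∑ s ∈ Finset.range (t + 1), ((t.choose s : ℕ) : ℝ) ^ 3 *
      (∑ i ∈ Finset.range (t + 1), ((t.choose i : ℕ) : ℝ) *
      (((m : ℝ) + 1 - ((s : ℝ) - i) ^ 2) * C)) ≤ ((m : ℝ) + 1) * ww t m := by
    unfold ww
    rw [Finset.mul_sum]
    refine Finset.sum_le_sum fun s _ => ?_
    have h2 := mul_le_mul_of_nonneg_left (vand_lower t m s)
      (show (0 : ℝ) ≤ ((t.choose s : ℕ) : ℝ) ^ 3 by positivity)
    rw [← hC] at h2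
    linarith
  refine le_trans ?_ h1
  -- lower bound of the double sum
  have h3 : ∀ s i : ℕ, ((m : ℝ) + 1 - (2 * (s : ℝ) - t) ^ 2 / 2 - (2 * (i : ℝ) - t) ^ 2 / 2) * C ≤
      ((m : ℝ) + 1 - ((s : ℝ) - i) ^ 2) * C := by
    intro s i
    refine mul_le_mul_of_nonneg_right ?_ hC0
    nlinarith [sq_nonneg ((2 * (s : ℝ) - t) + (2 * (i : ℝ) - t))]
  have h4 : ∑ s ∈ Finset.range (t + 1), ((t.choose s : ℕ) : ℝ) ^ 3 *
      (∑ i ∈ Finset.range (t + 1), ((t.choose i : ℕ) : ℝ) *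
      (((m : ℝ) + 1 - (2 * (s : ℝ) - t) ^ 2 / 2 - (2 * (i : ℝ) - t) ^ 2 / 2) * C)) ≤
      ∑ s ∈ Finset.range (t + 1), ((t.choose s : ℕ) : ℝ) ^ 3 *
      (∑ i ∈ Finset.range (t + 1), ((t.choose i : ℕ) : ℝ) *
      (((m : ℝ) + 1 - ((s : ℝ) - i) ^ 2) * C)) := by
    refine Finset.sum_le_sum fun s _ => mul_le_mul_of_nonneg_left ?_ (by positivity)
    refine Finset.sum_le_sum fun i _ => mul_le_mul_of_nonneg_left (h3 s i) (by positivity)
  refine le_trans ?_ h4
  have h2 : ∑ i ∈ Finset.range (t + 1), ((t.choose i : ℕ) : ℝ) = 2 ^ t := by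
    exact_mod_cast Nat.sum_range_choose t
  have h5 : ∀ s : ℕ, ∑ i ∈ Finset.range (t + 1), ((t.choose i : ℕ) : ℝ) *
      (((m : ℝ) + 1 - (2 * (s : ℝ) - t) ^ 2 / 2 - (2 * (i : ℝ) - t) ^ 2 / 2) * C)
      = (((m : ℝ) + 1 - (2 * (s : ℝ) - t) ^ 2 / 2) * 2 ^ t - t * 2 ^ t / 2) * C := by
    intro s
    have e : ∀ i ∈ Finset.range (t + 1), ((t.choose i : ℕ) : ℝ) *
      (((m : ℝ) + 1 - (2 * (s : ℝ) - t) ^ 2 / 2 - (2 * (i : ℝ) - t) ^ 2 / 2) * C)
      = (((m : ℝ) + 1 - (2 * (s : ℝ) - t) ^ 2 / 2) * C) * ((t.choose i : ℕ) : ℝ)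
        - (C / 2) * (((t.choose i : ℕ) : ℝ) * (2 * (i : ℝ) - t) ^ 2) := by
      intro i _; ring
    rw [Finset.sum_congr rfl e, Finset.sum_sub_distrib, ← Finset.mul_sum, ← Finset.mul_sum, h2,
      var_sum]
    ring
  rw [Finset.sum_congr rfl fun s _ => by rw [h5 s]]
  have e2 : ∀ s ∈ Finset.range (t + 1), ((t.choose s : ℕ) : ℝ) ^ 3 *
      ((((m : ℝ) + 1 - (2 * (s : ℝ) - t) ^ 2 / 2) * 2 ^ t - t * 2 ^ t / 2) * C)
      = (((m : ℝ) + 1 - t / 2) * 2 ^ t * C) * ((t.choose s : ℕ) : ℝ) ^ 3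
        - (2 ^ t * C / 2) * (((t.choose s : ℕ) : ℝ) ^ 3 * (2 * (s : ℝ) - t) ^ 2) := by
    intro s _; ring
  rw [Finset.sum_congr rfl e2, Finset.sum_sub_distrib, ← Finset.mul_sum, ← Finset.mul_sum]
  have h6 := mul_le_mul_of_nonneg_left (cheb t) (show (0 : ℝ) ≤ 2 ^ t * C / 2 by positivity)
  have h7 : ∑ s ∈ Finset.range (t + 1), ((t.choose s : ℕ) : ℝ) ^ 3 = Fr3 t := rfl
  rw [h7]
  linarith

/-! ### normalised quantities -/

private noncomputable def ff (t : ℕ) : ℝ := Fr3 t / 8 ^ t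

private noncomputable def cc (n : ℕ) : ℝ := (Nat.centralBinom n : ℝ) / 4 ^ n

private theorem ff_nonneg (t : ℕ) : 0 ≤ ff t := div_nonneg (Fr3_nonneg t) (by positivity)

private theorem ff_le_one (t : ℕ) : ff t ≤ 1 := by
  unfold ff
  rw [div_le_one (by positivity)]
  unfold Fr3
  have h2 : ∑ i ∈ Finset.range (t + 1), ((t.choose i : ℕ) : ℝ) = 2 ^ t := by
    exact_mod_cast Nat.sum_range_choose t
  have h3 : ∀ s ∈ Finset.range (t + 1), ((t.choose s : ℕ) : ℝ) ^ 3 ≤ (2 ^ t) ^ 2 * ((t.choose s : ℕ) : ℝ) := by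
    intro s hs
    have h4 : ((t.choose s : ℕ) : ℝ) ≤ 2 ^ t := by
      rw [← h2]
      exact Finset.single_le_sum (f := fun i => ((t.choose i : ℕ) : ℝ)) (fun _ _ => by positivity) hs
    have h5 : (0 : ℝ) ≤ ((t.choose s : ℕ) : ℝ) := by positivity
    have h6 := pow_le_pow_left₀ h5 h4 2
    calc ((t.choose s : ℕ) : ℝ) ^ 3 = ((t.choose s : ℕ) : ℝ) ^ 2 * ((t.choose s : ℕ) : ℝ) := by ring
      _ ≤ _ := mul_le_mul_of_nonneg_right h6 h5
  refine (Finset.sum_le_sum h3).trans ?_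
  rw [← Finset.mul_sum, h2]
  have : (8 : ℝ) ^ t = (2 ^ t) ^ 2 * 2 ^ t := by
    rw [← pow_mul, ← pow_add, show t * 2 + t = 3 * t by ring, pow_mul]
    norm_num
  rw [this]

private theorem cc_zero : cc 0 = 1 := by simp [cc]

private theorem cc_pos (n : ℕ) : 0 < cc n := by
  have := Nat.centralBinom_pos n
  unfold cc
  positivity

private theorem cc_le (n : ℕ) : cc n ≤ 1 := by
  unfold cc
  rw [div_le_one (by positivity)]
  exact_mod_cast Nat.centralBinom_le_four_pow n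

private theorem cc_succ (n : ℕ) : ((n : ℝ) + 1) * cc (n + 1) = ((n : ℝ) + 1 / 2) * cc n := by
  have h : ((n : ℝ) + 1) * (Nat.centralBinom (n + 1) : ℝ)
      = 2 * (2 * n + 1) * (Nat.centralBinom n : ℝ) := by
    exact_mod_cast Nat.succ_mul_centralBinom_succ n
  unfold cc
  rw [← mul_div_assoc, h, pow_succ]
  field_simp
  ring

private theorem cc_reflect (n : ℕ) :
    2 * ∑ k ∈ Finset.range (n + 1), (k : ℝ) * cc k * cc (n - k)
      = n * ∑ k ∈ Finset.range (n + 1), cc k * cc (n - k) := by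
  have h1 : ∑ k ∈ Finset.range (n + 1), (k : ℝ) * cc k * cc (n - k)
      = ∑ k ∈ Finset.range (n + 1), ((n : ℝ) - k) * cc (n - k) * cc k := by
    rw [← Finset.sum_range_reflect]
    refine Finset.sum_congr rfl fun k hk => ?_
    rw [Finset.mem_range] at hk
    have e1 : n + 1 - 1 - k = n - k := by omega
    have e2 : n - (n - k) = k := by omega
    rw [e1, e2, Nat.cast_sub (by omega)]
  have h2 : 2 * ∑ k ∈ Finset.range (n + 1), (k : ℝ) * cc k * cc (n - k)
      = ∑ k ∈ Finset.range (n + 1), (k : ℝ) * cc k * cc (n - k)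
        + ∑ k ∈ Finset.range (n + 1), ((n : ℝ) - k) * cc (n - k) * cc k := by
    rw [← h1]
    ring
  rw [h2, ← Finset.sum_add_distrib, Finset.mul_sum]
  refine Finset.sum_congr rfl fun k _ => ?_
  ring

private theorem cc_conv (n : ℕ) : ∑ k ∈ Finset.range (n + 1), cc k * cc (n - k) = 1 := by
  induction n with
  | zero => simp [cc_zero]
  | succ n ih =>
    have h1 := cc_reflect (n + 1)
    have h2 := cc_reflect n
    rw [ih, mul_one] at h2
    have h3 : ∑ k ∈ Finset.range (n + 1 + 1), (k : ℝ) * cc k * cc (n + 1 - k)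
        = ∑ k ∈ Finset.range (n + 1), (k : ℝ) * cc k * cc (n - k)
          + 1 / 2 * ∑ k ∈ Finset.range (n + 1), cc k * cc (n - k) := by
      rw [Finset.sum_range_succ', Finset.mul_sum, ← Finset.sum_add_distrib]
      simp only [Nat.cast_zero, zero_mul, add_zero]
      refine Finset.sum_congr rfl fun k _ => ?_
      have e1 : n + 1 - (k + 1) = n - k := by omega
      rw [e1]
      push_cast
      rw [cc_succ]
      ring
    rw [h3, ih] at h1
    have hn : ((n + 1 : ℕ) : ℝ) ≠ 0 := by positivity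
    have h4 : ((n + 1 : ℕ) : ℝ) * ∑ k ∈ Finset.range (n + 1 + 1), cc k * cc (n + 1 - k)
        = ((n + 1 : ℕ) : ℝ) * 1 := by
      rw [← h1]
      push_cast
      linarith
    exact mul_left_cancel₀ hn h4

private theorem cc_norm_summable (y : ℝ) (h0 : 0 ≤ y) (h1 : y < 1) :
    Summable (fun n => ‖cc n * y ^ n‖) := by
  refine Summable.of_nonneg_of_le (fun n => norm_nonneg _) (fun n => ?_)
    (summable_geometric_of_lt_one h0 h1)
  rw [Real.norm_eq_abs, abs_of_nonneg (mul_nonneg (cc_pos n).le (by positivity))]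
  have : cc n * y ^ n ≤ 1 * y ^ n := mul_le_mul_of_nonneg_right (cc_le n) (by positivity)
  linarith

private theorem cc_hasSum (y : ℝ) (h0 : 0 ≤ y) (h1 : y < 1) :
    HasSum (fun n => cc n * y ^ n) ((√(1 - y))⁻¹) := by
  have hs := cc_norm_summable y h0 h1
  have h2 := hasSum_sum_range_mul_of_summable_norm hs hs
  have h3 : (fun n => ∑ k ∈ Finset.range (n + 1), cc k * y ^ k * (cc (n - k) * y ^ (n - k)))
      = fun n => y ^ n := by
    funext n
    have : ∑ k ∈ Finset.range (n + 1), cc k * y ^ k * (cc (n - k) * y ^ (n - k))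
        = ∑ k ∈ Finset.range (n + 1), (cc k * cc (n - k)) * y ^ n := by
      refine Finset.sum_congr rfl fun k hk => ?_
      rw [Finset.mem_range] at hk
      have e : y ^ n = y ^ k * y ^ (n - k) := by rw [← pow_add]; congr 1; omega
      rw [e]
      ring
    rw [this, ← Finset.sum_mul, cc_conv, one_mul]
  rw [h3] at h2
  have h4 := h2.unique (hasSum_geometric_of_lt_one h0 h1)
  have h5 : 0 ≤ ∑' n, cc n * y ^ n := tsum_nonneg fun n =>
    mul_nonneg (cc_pos n).le (by positivity)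
  have h6 : ∑' n, cc n * y ^ n = (√(1 - y))⁻¹ := by
    rw [← Real.sqrt_inv, ← h4, Real.sqrt_mul_self h5]
  rw [← h6]
  exact hs.of_norm.hasSum

private theorem ia_log_hasSum (y : ℝ) (h0 : 0 ≤ y) (h1 : y < 1) :
    HasSum (fun n : ℕ => 1 / (n : ℝ) * y ^ n) (Real.log (1 / (1 - y))) := by
  have h2 := Real.hasSum_pow_div_log_of_abs_lt_one (x := y) (by rwa [abs_of_nonneg h0])
  have h3 : Real.log (1 / (1 - y)) = -Real.log (1 - y) := by
    rw [one_div, Real.log_inv]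
  rw [h3]
  rw [← hasSum_nat_add_iff' 1]
  simp only [Finset.range_one, Finset.sum_singleton, Nat.cast_zero, div_zero, zero_mul, sub_zero]
  refine h2.congr_fun ?_ |> id
  intro n
  push_cast
  ring

/-! ### bounds for the central binomial coefficients -/

private theorem cc_sq_lower (n : ℕ) (hn : 1 ≤ n) : 1 / 4 ≤ (n : ℝ) * cc n ^ 2 := by
  induction n, hn using Nat.le_induction with
  | base =>
    have : cc 1 = 1 / 2 := by
      unfold cc
      norm_num [Nat.centralBinom]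
    rw [this]
    norm_num
  | succ n hn ih =>
    have h := cc_succ n
    have hp : (0 : ℝ) < (n : ℝ) + 1 := by positivity
    have h1 : cc (n + 1) = ((n : ℝ) + 1 / 2) / ((n : ℝ) + 1) * cc n := by
      rw [div_mul_eq_mul_div, eq_div_iff hp.ne', ← h]; ring
    have h2 : ((n + 1 : ℕ) : ℝ) * cc (n + 1) ^ 2 = (((n : ℝ) + 1 / 2) ^ 2 / ((n : ℝ) + 1)) * cc n ^ 2 := by
      rw [h1]
      push_cast
      field_simp
    rw [h2]
    refine ih.trans (mul_le_mul_of_nonneg_right ?_ (sq_nonneg _))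
    rw [le_div_iff₀ hp]
    nlinarith

private theorem cc_sq_upper (n : ℕ) : ((n : ℝ) + 1) * cc n ^ 2 ≤ 1 := by
  induction n with
  | zero => simp [cc_zero]
  | succ n ih =>
    have h := cc_succ n
    have hp : (0 : ℝ) < (n : ℝ) + 1 := by positivity
    have h1 : cc (n + 1) = ((n : ℝ) + 1 / 2) / ((n : ℝ) + 1) * cc n := by
      rw [div_mul_eq_mul_div, eq_div_iff hp.ne', ← h]; ring
    have h2 : (((n + 1 : ℕ) : ℝ) + 1) * cc (n + 1) ^ 2 =
        (((n : ℝ) + 2) * ((n : ℝ) + 1 / 2) ^ 2 / ((n : ℝ) + 1) ^ 2) * cc n ^ 2 := by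
      rw [h1]
      push_cast
      field_simp
      ring
    rw [h2]
    refine le_trans (mul_le_mul_of_nonneg_right ?_ (sq_nonneg _)) ih
    rw [div_le_iff₀ (by positivity)]
    have : (0 : ℝ) ≤ n := by positivity
    nlinarith

private theorem cc_lower (n : ℕ) (hn : 1 ≤ n) : 1 ≤ 2 * √(n : ℝ) * cc n := by
  have h := cc_sq_lower n hn
  have h1 : (1 : ℝ) ≤ (2 * √(n : ℝ) * cc n) ^ 2 := by
    have : (2 * √(n : ℝ) * cc n) ^ 2 = 4 * ((√(n : ℝ)) ^ 2 * cc n ^ 2) := by ring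
    rw [this, Real.sq_sqrt (by positivity)]
    linarith
  have h2 : 0 ≤ 2 * √(n : ℝ) * cc n := by
    have := (cc_pos n).le
    positivity
  nlinarith

private theorem cc_upper (n : ℕ) : √((n : ℝ) + 1) * cc n ≤ 1 := by
  have h := cc_sq_upper n
  have h1 : (√((n : ℝ) + 1) * cc n) ^ 2 ≤ 1 := by
    rw [mul_pow, Real.sq_sqrt (by positivity)]
    exact h
  have h2 : 0 ≤ √((n : ℝ) + 1) * cc n := by
    have := (cc_pos n).le
    positivity
  nlinarith

private theorem cc_sum (M : ℕ) : ∑ m ∈ Finset.range M, cc m ≤ 2 * √(M : ℝ) := by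
  induction M with
  | zero => simp
  | succ M ih =>
    rw [Finset.sum_range_succ]
    have h := cc_upper M
    have ha : 0 ≤ √(M : ℝ) := Real.sqrt_nonneg _
    have hb : 0 < √((M : ℝ) + 1) := Real.sqrt_pos.mpr (by positivity)
    have ha2 : √(M : ℝ) ^ 2 = M := Real.sq_sqrt (by positivity)
    have hb2 : √((M : ℝ) + 1) ^ 2 = (M : ℝ) + 1 := Real.sq_sqrt (by positivity)
    have hab : √(M : ℝ) ≤ √((M : ℝ) + 1) := Real.sqrt_le_sqrt (by linarith)
    push_cast
    have h1 : cc M ≤ 2 * √((M : ℝ) + 1) - 2 * √(M : ℝ) := by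
      have h2 : √((M : ℝ) + 1) * cc M ≤ √((M : ℝ) + 1) * (2 * √((M : ℝ) + 1) - 2 * √(M : ℝ)) := by
        refine h.trans ?_
        nlinarith [sq_nonneg (√((M : ℝ) + 1) - √(M : ℝ))]
      exact le_of_mul_le_mul_left h2 hb
    linarith

/-! ### the double series -/

private noncomputable def AA (y : ℝ) (p : ℕ × ℕ) : ℝ := (ff p.1 * (y ^ 2) ^ p.1) * (cc p.2 * y ^ p.2)

private noncomputable def FF (y : ℝ) (p : ℕ × ℕ) : ℝ := ww p.1 p.2 * (y / 4) ^ (2 * p.1 + p.2)

private theorem AA_eq (y : ℝ) (p : ℕ × ℕ) : AA y p =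
    (2 ^ p.1 * Fr3 p.1 * ((Nat.centralBinom p.2 : ℕ) : ℝ)) * (y / 4) ^ (2 * p.1 + p.2) := by
  unfold AA ff cc
  have h : (4 : ℝ) ^ (2 * p.1) = 2 ^ p.1 * 8 ^ p.1 := by
    rw [pow_mul, ← mul_pow]
    norm_num
  rw [div_pow, pow_add, pow_add, h, pow_mul]
  field_simp

private theorem AA_nonneg (y : ℝ) (h0 : 0 ≤ y) (p : ℕ × ℕ) : 0 ≤ AA y p := by
  unfold AA
  have h1 := ff_nonneg p.1
  have h2 := (cc_pos p.2).le
  positivity

private theorem FF_nonneg (y : ℝ) (h0 : 0 ≤ y) (p : ℕ × ℕ) : 0 ≤ FF y p := by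
  unfold FF
  have h1 := ww_nonneg p.1 p.2
  positivity

private theorem FF_le (y : ℝ) (h0 : 0 ≤ y) (p : ℕ × ℕ) : FF y p ≤ AA y p := by
  rw [AA_eq]
  exact mul_le_mul_of_nonneg_right (ww_upper _ _) (by positivity)

private theorem ff_summable (y : ℝ) (h0 : 0 ≤ y) (h1 : y < 1) :
    Summable (fun t => ff t * (y ^ 2) ^ t) := by
  have h2 : y ^ 2 < 1 := by nlinarith
  refine Summable.of_nonneg_of_le (fun n => mul_nonneg (ff_nonneg n) (by positivity)) (fun n => ?_)
    (summable_geometric_of_lt_one (by positivity) h2)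
  have : ff n * (y ^ 2) ^ n ≤ 1 * (y ^ 2) ^ n := mul_le_mul_of_nonneg_right (ff_le_one n) (by positivity)
  linarith

private theorem AA_hasSum (y : ℝ) (h0 : 0 ≤ y) (h1 : y < 1) :
    HasSum (AA y) ((∑' t, ff t * (y ^ 2) ^ t) * (√(1 - y))⁻¹) := by
  have hf : Summable (fun t => ‖ff t * (y ^ 2) ^ t‖) := by
    refine (ff_summable y h0 h1).congr fun t => ?_
    rw [Real.norm_eq_abs, abs_of_nonneg (mul_nonneg (ff_nonneg t) (by positivity))]
  have hc := cc_norm_summable y h0 h1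
  have h2 := tsum_mul_tsum_of_summable_norm hf hc
  have h3 := summable_mul_of_summable_norm hf hc
  rw [(cc_hasSum y h0 h1).tsum_eq] at h2
  rw [h2]
  exact h3.hasSum

private theorem FF_summable (y : ℝ) (h0 : 0 ≤ y) (h1 : y < 1) : Summable (FF y) :=
  Summable.of_nonneg_of_le (FF_nonneg y h0) (FF_le y h0) (AA_hasSum y h0 h1).summable

private theorem fiber_sum (y : ℝ) (n : ℕ) :
    ∑' b : ((fun p : ℕ × ℕ => 2 * p.1 + p.2) ⁻¹' {n}), FF y b =
      ((coeff n Iser : ℚ) : ℝ) * (y / 4) ^ n := by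
  have hset : ((fun p : ℕ × ℕ => 2 * p.1 + p.2) ⁻¹' {n}) =
      ((Finset.image (fun t : ℕ => (t, n - 2 * t)) (Finset.range (n / 2 + 1)) : Finset (ℕ × ℕ)) :
        Set (ℕ × ℕ)) := by
    ext ⟨a, b⟩
    simp only [Set.mem_preimage, Set.mem_singleton_iff, Finset.coe_image, Set.mem_image,
      Finset.mem_coe, Finset.mem_range, Prod.mk.injEq]
    constructor
    · intro h
      exact ⟨a, by omega, rfl, by omega⟩
    · rintro ⟨t, ht, rfl, rfl⟩
      omega
  rw [hset, Finset.tsum_subtype', Finset.sum_image (by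
    intro a _ b _ h
    exact (Prod.mk.inj h).1), Icoef]
  push_cast
  rw [Finset.sum_mul]
  refine Finset.sum_congr rfl fun t ht => ?_
  rw [Finset.mem_range] at ht
  unfold FF ww
  simp only
  rw [show 2 * t + (n - 2 * t) = n by omega]

private theorem I_hasSum (y : ℝ) (h0 : 0 ≤ y) (h1 : y < 1) :
    HasSum (fun n => ((coeff n Iser : ℚ) : ℝ) * (y / 4) ^ n) (∑' p, FF y p) := by
  have h := (FF_summable y h0 h1).hasSum.tsum_fiberwise (fun p : ℕ × ℕ => 2 * p.1 + p.2)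
  simp only [fiber_sum] at h
  exact h

theorem I_summable (y : ℝ) (h0 : 0 ≤ y) (h1 : y < 1) :
    Summable (fun n => ((coeff n Iser : ℚ) : ℝ) * (y / 4) ^ n) := (I_hasSum y h0 h1).summable

/-! ### the asymptotics of `Φ` -/

private theorem ff_lim : Tendsto (fun t : ℕ => ff t * (t : ℝ)) atTop (nhds (2 / (√3 * Real.pi))) := by
  have h := binom_pow_limit 3 (by norm_num)
  have e : (√(2 / Real.pi)) ^ 3 * √(Real.pi / (2 * ((3 : ℕ) : ℝ))) = 2 / (√3 * Real.pi) := by
    have hp := Real.pi_pos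
    have h1 : (√(2 / Real.pi)) ^ 3 = (2 / Real.pi) * √(2 / Real.pi) := by
      rw [pow_succ, Real.sq_sqrt (by positivity)]
    rw [h1, mul_assoc, ← Real.sqrt_mul (by positivity)]
    have h2 : 2 / Real.pi * (Real.pi / (2 * ((3 : ℕ) : ℝ))) = 1 / 3 := by
      push_cast
      field_simp
    rw [h2, Real.sqrt_div zero_le_one, Real.sqrt_one]
    field_simp
  rw [e] at h
  refine h.congr fun t => ?_
  unfold ff Fr3
  rw [show (3 - 1 : ℕ) = 2 by norm_num, Real.sq_sqrt (by positivity), pow_mul]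
  norm_num

private theorem ff_bound : ∃ K : ℝ, 0 ≤ K ∧ ∀ t : ℕ, ff t * (t : ℝ) ≤ K := by
  obtain ⟨K, hK⟩ := ff_lim.bddAbove_range
  have h : ∀ t : ℕ, ff t * (t : ℝ) ≤ K := fun t => hK ⟨t, rfl⟩
  refine ⟨K, ?_, h⟩
  have := h 0
  simpa using this

private theorem L_atTop : Tendsto (fun y : ℝ => Real.log (1 / (1 - y))) (nhdsWithin 1 (Set.Iio 1))
    atTop := by
  refine Real.tendsto_log_atTop.comp ?_
  have h1 : Tendsto (fun y : ℝ => 1 - y) (nhdsWithin 1 (Set.Iio 1)) (nhdsWithin 0 (Set.Ioi 0)) := by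
    refine tendsto_nhdsWithin_iff.mpr ⟨?_, ?_⟩
    · have : Tendsto (fun y : ℝ => 1 - y) (nhds 1) (nhds (1 - 1)) :=
        (continuous_const.sub continuous_id).tendsto 1
      rw [sub_self] at this
      exact this.mono_left nhdsWithin_le_nhds
    · filter_upwards [eventually_mem_nhdsWithin] with y hy
      rw [Set.mem_Iio] at hy
      rw [Set.mem_Ioi]
      linarith
  have h2 := tendsto_inv_nhdsGT_zero.comp h1
  refine h2.congr fun y => ?_
  simp [one_div]

private theorem hy01 : ∀ᶠ y : ℝ in nhdsWithin 1 (Set.Iio 1), 0 < y ∧ y < 1 := by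
  have h1 : ∀ᶠ y : ℝ in nhdsWithin 1 (Set.Iio 1), y ∈ Set.Iio (1 : ℝ) :=
    eventually_mem_nhdsWithin
  have h2 : ∀ᶠ y : ℝ in nhdsWithin 1 (Set.Iio 1), y ∈ Set.Ioi (0 : ℝ) :=
    nhdsWithin_le_nhds (Ioi_mem_nhds (by norm_num))
  filter_upwards [h1, h2] with y hy1 hy2
  exact ⟨hy2, hy1⟩

private theorem Phi_lim1 : Tendsto (fun z : ℝ => (∑' t, ff t * z ^ t) / Real.log (1 / (1 - z)))
    (nhdsWithin 1 (Set.Iio 1)) (nhds (2 / (√3 * Real.pi))) := by
  set κ : ℝ := 2 / (√3 * Real.pi) with hκ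
  have h := abel_ratio ff (fun n => 1 / (n : ℝ)) κ (fun n => by positivity)
    (fun y h0 h1 => (ia_log_hasSum y h0 h1).summable) ?_ ?_
  · refine h.congr' ?_
    filter_upwards [hy01] with y hy
    rw [(ia_log_hasSum y hy.1.le hy.2).tsum_eq]
  · refine L_atTop.congr' ?_
    filter_upwards [hy01] with y hy
    rw [(ia_log_hasSum y hy.1.le hy.2).tsum_eq]
  · rw [isLittleO_iff]
    intro c hc
    have h1 := ff_lim.sub_const κ
    rw [sub_self] at h1
    have h2 := (Metric.tendsto_nhds.mp h1 c hc)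
    filter_upwards [h2, eventually_gt_atTop 0] with n hn hn0
    have hn' : (0 : ℝ) < n := by exact_mod_cast hn0
    rw [dist_zero_right, Real.norm_eq_abs] at hn
    rw [Real.norm_eq_abs, Real.norm_eq_abs, abs_of_pos (show (0 : ℝ) < 1 / (n : ℝ) by positivity)]
    have e : ff n - κ * (1 / (n : ℝ)) = (ff n * n - κ) * (1 / (n : ℝ)) := by
      field_simp
    rw [e, abs_mul, abs_of_pos (show (0 : ℝ) < 1 / (n : ℝ) by positivity)]
    exact mul_le_mul_of_nonneg_right hn.le (by positivity)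

private theorem sq_lim : Tendsto (fun y : ℝ => y ^ 2) (nhdsWithin 1 (Set.Iio 1))
    (nhdsWithin 1 (Set.Iio 1)) := by
  refine tendsto_nhdsWithin_iff.mpr ⟨?_, ?_⟩
  · have : Tendsto (fun y : ℝ => y ^ 2) (nhds 1) (nhds (1 ^ 2)) := (continuous_pow 2).tendsto 1
    rw [one_pow] at this
    exact this.mono_left nhdsWithin_le_nhds
  · filter_upwards [hy01] with y hy
    rw [Set.mem_Iio]
    nlinarith [hy.1, hy.2]

private theorem Phi_lim : Tendsto (fun y : ℝ => (∑' t, ff t * (y ^ 2) ^ t) / Real.log (1 / (1 - y)))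
    (nhdsWithin 1 (Set.Iio 1)) (nhds (2 / (√3 * Real.pi))) := by
  have h1 := Phi_lim1.comp sq_lim
  have h2 : Tendsto (fun y : ℝ => 1 - Real.log (1 + y) / Real.log (1 / (1 - y)))
      (nhdsWithin 1 (Set.Iio 1)) (nhds (1 - 0)) := by
    refine tendsto_const_nhds.sub ?_
    have h3 : Tendsto (fun y : ℝ => Real.log (1 + y)) (nhdsWithin 1 (Set.Iio 1))
        (nhds (Real.log (1 + 1))) := by
      have : ContinuousAt (fun y : ℝ => Real.log (1 + y)) 1 := by
        refine ContinuousAt.log (by fun_prop) (by norm_num)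
      exact this.tendsto.mono_left nhdsWithin_le_nhds
    exact h3.div_atTop L_atTop
  rw [sub_zero] at h2
  have h4 := h1.mul h2
  rw [mul_one] at h4
  refine h4.congr' ?_
  filter_upwards [hy01, L_atTop.eventually_gt_atTop 0, (L_atTop.comp sq_lim).eventually_gt_atTop 0]
    with y hy hL hL2
  simp only [Function.comp] at hL2 ⊢
  have e : Real.log (1 / (1 - y ^ 2)) = Real.log (1 / (1 - y)) - Real.log (1 + y) := by
    have h5 : (1 : ℝ) - y ^ 2 = (1 - y) * (1 + y) := by ring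
    have h6 : (0 : ℝ) < 1 - y := by linarith [hy.2]
    have h7 : (0 : ℝ) < 1 + y := by linarith [hy.1]
    rw [h5, one_div, one_div, Real.log_inv, Real.log_inv, Real.log_mul h6.ne' h7.ne']
    ring
  rw [e] at hL2 ⊢
  field_simp

/-! ### the lower bound -/

private theorem FF_lower (q : ℕ) (hq : 1 ≤ q) (y : ℝ) (h0 : 0 ≤ y) (p : ℕ × ℕ) :
    (1 - 1 / (q : ℝ)) * AA y p - (if p.2 < q * p.1 then AA y p else 0) ≤ FF y p := by
  have hq' : (0 : ℝ) < q := by exact_mod_cast hq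
  have hA := AA_nonneg y h0 p
  by_cases h : p.2 < q * p.1
  · rw [if_pos h]
    have h1 : 0 ≤ 1 / (q : ℝ) * AA y p := by positivity
    have := FF_nonneg y h0 p
    linarith
  · rw [if_neg h, sub_zero]
    obtain ⟨t, m⟩ := p
    simp only at h hA ⊢
    rw [AA_eq]
    unfold FF
    simp only
    rw [← mul_assoc]
    refine mul_le_mul_of_nonneg_right ?_ (by positivity)
    have h1 := ww_lower t m
    have h2 : (q : ℝ) * t ≤ m := by
      rw [not_lt] at h
      exact_mod_cast h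
    have hm : (0 : ℝ) < (m : ℝ) + 1 := by positivity
    set D : ℝ := 2 ^ t * Fr3 t * ((Nat.centralBinom m : ℕ) : ℝ) with hD
    have hD0 : 0 ≤ D := by
      have := Fr3_nonneg t
      positivity
    have h3 : ((m : ℝ) + 1) * ((1 - 1 / (q : ℝ)) * D) ≤ ((m : ℝ) + 1) * ww t m := by
      refine le_trans ?_ h1
      have h4 : ((m : ℝ) + 1) * (1 - 1 / (q : ℝ)) ≤ (m : ℝ) + 1 - t := by
        have h5 : (t : ℝ) ≤ ((m : ℝ) + 1) * (1 / (q : ℝ)) := by
          rw [mul_one_div, le_div_iff₀ hq']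
          linarith
        linarith
      have := mul_le_mul_of_nonneg_left h4 hD0
      linarith
    exact le_of_mul_le_mul_left h3 hm

private theorem BB_bound (K : ℝ) (hK0 : 0 ≤ K) (hK : ∀ t : ℕ, ff t * (t : ℝ) ≤ K) (q : ℕ)
    (y : ℝ) (h0 : 0 ≤ y) (h1 : y < 1) :
    ∑' p : ℕ × ℕ, (if p.2 < q * p.1 then AA y p else 0) ≤ 4 * K * √(q : ℝ) * (√(1 - y))⁻¹ := by
  have hsum : Summable (fun p : ℕ × ℕ => if p.2 < q * p.1 then AA y p else 0) := by
    refine Summable.of_nonneg_of_le (fun p => ?_) (fun p => ?_) (AA_hasSum y h0 h1).summable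
    · split_ifs
      · exact AA_nonneg y h0 p
      · exact le_rfl
    · split_ifs
      · exact le_rfl
      · exact AA_nonneg y h0 p
  have hy2 : y ^ 2 < 1 := by nlinarith
  have hg := cc_hasSum (y ^ 2) (by positivity) hy2
  rw [hsum.tsum_prod]
  have hin : ∀ t : ℕ, ∑' m : ℕ, (if m < q * t then AA y (t, m) else 0) ≤
      4 * K * √(q : ℝ) * (cc t * (y ^ 2) ^ t) := by
    intro t
    rw [tsum_eq_sum (s := Finset.range (q * t)) (by
      intro m hm
      rw [Finset.mem_range] at hm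
      rw [if_neg hm])]
    have h2 : ∀ m ∈ Finset.range (q * t), (if m < q * t then AA y (t, m) else 0) ≤
        (ff t * (y ^ 2) ^ t) * cc m := by
      intro m hm
      rw [Finset.mem_range] at hm
      rw [if_pos hm]
      unfold AA
      simp only
      refine mul_le_mul_of_nonneg_left ?_ (mul_nonneg (ff_nonneg t) (by positivity))
      exact mul_le_of_le_one_right (cc_pos m).le (pow_le_one₀ h0 h1.le)
    refine (Finset.sum_le_sum h2).trans ?_
    rw [← Finset.mul_sum]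
    have h3 : (ff t * (y ^ 2) ^ t) * ∑ m ∈ Finset.range (q * t), cc m ≤
        (ff t * (y ^ 2) ^ t) * (2 * √((q * t : ℕ) : ℝ)) :=
      mul_le_mul_of_nonneg_left (cc_sum _) (mul_nonneg (ff_nonneg t) (by positivity))
    refine h3.trans ?_
    have h4 : ff t * (2 * √((q * t : ℕ) : ℝ)) ≤ 4 * K * √(q : ℝ) * cc t := by
      rcases Nat.eq_zero_or_pos t with ht | ht
      · subst ht
        have := (cc_pos 0).le
        have h5 : 0 ≤ 4 * K * √(q : ℝ) * cc 0 := by positivity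
        simpa using h5
      · have ht' : (0 : ℝ) < t := by exact_mod_cast ht
        have hs : 0 < √(t : ℝ) := Real.sqrt_pos.mpr ht'
        have hst : √(t : ℝ) * √(t : ℝ) = t := Real.mul_self_sqrt ht'.le
        have h6 := cc_lower t ht
        have h7 := hK t
        push_cast
        rw [Real.sqrt_mul (by positivity)]
        have h8 : ff t * √(t : ℝ) ≤ 2 * K * cc t := by
          have h9 : (ff t * √(t : ℝ)) * √(t : ℝ) ≤ (2 * K * cc t) * √(t : ℝ) := by
            calc (ff t * √(t : ℝ)) * √(t : ℝ) = ff t * t := by rw [mul_assoc, hst]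
              _ ≤ K := h7
              _ = K * 1 := (mul_one K).symm
              _ ≤ K * (2 * √(t : ℝ) * cc t) := mul_le_mul_of_nonneg_left h6 hK0
              _ = _ := by ring
          exact le_of_mul_le_mul_right h9 hs
        have h10 := mul_le_mul_of_nonneg_left h8 (show (0 : ℝ) ≤ 2 * √(q : ℝ) by positivity)
        linarith
    have h11 := mul_le_mul_of_nonneg_right h4 (show (0 : ℝ) ≤ (y ^ 2) ^ t by positivity)
    linarith
  have h5 : ∑' t : ℕ, ∑' m : ℕ, (if m < q * t then AA y (t, m) else 0) ≤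
      ∑' t : ℕ, 4 * K * √(q : ℝ) * (cc t * (y ^ 2) ^ t) :=
    Summable.tsum_le_tsum hin hsum.prod (hg.summable.mul_left _)
  refine h5.trans ?_
  rw [tsum_mul_left, hg.tsum_eq]
  refine mul_le_mul_of_nonneg_left ?_ (by positivity)
  have h6 : 0 < √(1 - y) := Real.sqrt_pos.mpr (by linarith)
  refine inv_anti₀ h6 (Real.sqrt_le_sqrt ?_)
  nlinarith

theorem I_asymp : Tendsto (fun y : ℝ => (∑' n, ((coeff n Iser : ℚ) : ℝ) * (y / 4) ^ n) *
    √(1 - y) / Real.log (1 / (1 - y))) (nhdsWithin 1 (Set.Iio 1))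
    (nhds (2 / (√3 * Real.pi))) := by
  set κ : ℝ := 2 / (√3 * Real.pi) with hκ
  have hκ0 : 0 < κ := by
    have := Real.pi_pos
    rw [hκ]
    positivity
  obtain ⟨K, hK0, hK⟩ := ff_bound
  rw [tendsto_order]
  constructor
  · intro a ha
    obtain ⟨q, hq1, hq2⟩ : ∃ q : ℕ, 1 ≤ q ∧ a < (1 - 1 / (q : ℝ)) * κ := by
      have h1 : Tendsto (fun q : ℕ => (1 - 1 / (q : ℝ)) * κ) atTop (nhds ((1 - 0) * κ)) :=
        (tendsto_const_nhds.sub tendsto_one_div_atTop_nhds_zero_nat).mul_const κ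
      rw [sub_zero, one_mul] at h1
      obtain ⟨q, hq⟩ := ((h1.eventually_const_lt ha).and (eventually_ge_atTop 1)).exists
      exact ⟨q, hq.2, hq.1⟩
    have h2 : Tendsto (fun y : ℝ => (1 - 1 / (q : ℝ)) * ((∑' t, ff t * (y ^ 2) ^ t) /
        Real.log (1 / (1 - y))) - 4 * K * √(q : ℝ) / Real.log (1 / (1 - y)))
        (nhdsWithin 1 (Set.Iio 1)) (nhds ((1 - 1 / (q : ℝ)) * κ - 0)) :=
      (Phi_lim.const_mul _).sub (tendsto_const_nhds.div_atTop L_atTop)
    rw [sub_zero] at h2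
    filter_upwards [h2.eventually_const_lt hq2, hy01, L_atTop.eventually_gt_atTop 0] with y hy1 hy hL
    refine hy1.trans_le ?_
    rw [← mul_div_assoc, ← sub_div]
    refine div_le_div_of_nonneg_right ?_ hL.le
    rw [(I_hasSum y hy.1.le hy.2).tsum_eq]
    have hs : 0 < √(1 - y) := Real.sqrt_pos.mpr (by linarith [hy.2])
    have hA := AA_hasSum y hy.1.le hy.2
    have hBs : Summable (fun p : ℕ × ℕ => if p.2 < q * p.1 then AA y p else 0) := by
      refine Summable.of_nonneg_of_le (fun p => ?_) (fun p => ?_) hA.summable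
      · split_ifs
        · exact AA_nonneg y hy.1.le p
        · exact le_rfl
      · split_ifs
        · exact le_rfl
        · exact AA_nonneg y hy.1.le p
    have h3 : ∑' p : ℕ × ℕ, ((1 - 1 / (q : ℝ)) * AA y p - (if p.2 < q * p.1 then AA y p else 0)) ≤
        ∑' p, FF y p :=
      Summable.tsum_le_tsum (FF_lower q hq1 y hy.1.le)
        ((hA.summable.mul_left _).sub hBs) (FF_summable y hy.1.le hy.2)
    rw [Summable.tsum_sub (hA.summable.mul_left _) hBs, tsum_mul_left, hA.tsum_eq] at h3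
    have h4 := BB_bound K hK0 hK q y hy.1.le hy.2
    have h5 : (1 - 1 / (q : ℝ)) * ((∑' t, ff t * (y ^ 2) ^ t) * (√(1 - y))⁻¹) -
        4 * K * √(q : ℝ) * (√(1 - y))⁻¹ ≤ ∑' p, FF y p := by linarith
    have h6 := mul_le_mul_of_nonneg_right h5 hs.le
    refine le_trans (le_of_eq ?_) h6
    field_simp
  · intro a ha
    filter_upwards [Phi_lim.eventually_lt_const ha, hy01, L_atTop.eventually_gt_atTop 0]
      with y hy1 hy hL
    refine lt_of_le_of_lt ?_ hy1
    refine div_le_div_of_nonneg_right ?_ hL.le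
    rw [(I_hasSum y hy.1.le hy.2).tsum_eq]
    have hs : 0 < √(1 - y) := Real.sqrt_pos.mpr (by linarith [hy.2])
    have hA := AA_hasSum y hy.1.le hy.2
    have h3 : ∑' p, FF y p ≤ ∑' p, AA y p :=
      Summable.tsum_le_tsum (FF_le y hy.1.le) (FF_summable y hy.1.le hy.2) hA.summable
    rw [hA.tsum_eq] at h3
    have h6 := mul_le_mul_of_nonneg_right h3 hs.le
    refine h6.trans (le_of_eq ?_)
    field_simp

end Pool.Agent.Helper99.TC
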