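import Pool.Agent.Helper99.TC.Rels
import Pool.Agent.Helper99.TC.IAsym
import Pool.Agent.Helper99.TC.FExp

/-!
# TC-51: the constant

Suppose `coeff n Vser / 4^n = κ uc n + o(uc n)`. Then `κ = 27/(32 √3 π)`.

Proof. Evaluate `G_rel` at `x = y/4`, `0 < y < 1` (all series converge absolutely; evaluation of products with polynomials; `be` evaluates to `√(1-y)`: its coefficients are those of `(1 - 2X - 2X al)`; or only use that `∑ |coeff n be| /4^n` converges, so that the value is bounded: `coeff n be` is `≤ 0` for `n ≥ 1` and the partial sums of `coeff n be / 4^n` are bounded, see `be_exp` or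
`n b_n = (4n - 6) b_(n-1)`).
Let `Λ = log(1/(1-y))`, `β = √(1-y)`. As `y → 1-`: `V(y)/(β⁻¹ Λ) → κ` (`abel_ratio` with `uc_hasSum`), `(θV)(y)/(β⁻³ Λ) → κ/2` (`abel_ratio` for the sequences `n v_n/4^n` and `n uc n`, `uc_deriv`), `I(y) β/Λ → 2/(√3 π)` (`I_asymp`); `F` bounded, `θF = O(β⁻¹)`, `θ²F = O(β⁻³)` by `Fcoef_le` (compare `n^(-1/2)` with the coefficients `centralBinom n/4^n` of `(1-y)^(-1/2)`,
and `n^(1/2)` with those of the derivative). The polynomials, divided by powers of `1 - 4X = 1 - y`: `gV1 = (1-4X)² (60 + 1740 X² + 2640 X³)...` has a double zero at 1/4 with `gV1/(1-4X)² → 270`, `gV0/(1-4X) → -675/8`, `gI/(1-4X) → -10935/512`, `gF2` double zero, `gF1`, `gF0`, `gD` simple zero at 1/4, `gC` no zero. Dividing the relation by `β Λ` and letting `y → 1`: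
`270 κ/2 - (675/8) κ - (10935/512) (2/(√3 π)) = 0`, i.e. `(405/8) κ = (10935/512)(2/(√3 π))`, `κ = 27/(32 √3 π)`. (The exact cofactors of `gV1` etc. are to be computed by polynomial division.)
-/

set_option autoImplicit false

open PowerSeries Filter Asymptotics

namespace Pool.Agent.Helper99.TC

/-- normalised coefficients -/
private noncomputable def nrm (f : ℚ⟦X⟧) (n : ℕ) : ℝ := ((coeff n f : ℚ) : ℝ) / 4 ^ n

/-- `f` has the value `v` at `y / 4` -/
private def HS (f : ℚ⟦X⟧) (y v : ℝ) : Prop := HasSum (fun n => nrm f n * y ^ n) v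

/-- evaluation of `pl l` -/
private noncomputable def plr (l : List ℤ) (x : ℝ) : ℝ :=
  l.foldr (fun (a : ℤ) (p : ℝ) => (a : ℝ) + x * p) 0

private theorem HS.add' {f k : ℚ⟦X⟧} {y v w : ℝ} (hf : HS f y v) (hk : HS k y w) :
    HS (f + k) y (v + w) := by
  refine (HasSum.add hf hk).congr_fun fun n => ?_
  simp only [nrm, map_add, Rat.cast_add]
  ring

private theorem HS.int_mul {f : ℚ⟦X⟧} {y v : ℝ} (a : ℤ) (hf : HS f y v) :
    HS ((a : ℚ⟦X⟧) * f) y (a * v) := by
  refine (HasSum.mul_left (a : ℝ) hf).congr_fun fun n => ?_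
  have : (a : ℚ⟦X⟧) = C (a : ℚ) := (map_intCast (C (R := ℚ)) a).symm
  rw [this]
  simp only [nrm, coeff_C_mul, Rat.cast_mul, Rat.cast_intCast]
  ring

private theorem HS.X_mul {f : ℚ⟦X⟧} {y v : ℝ} (hf : HS f y v) : HS (X * f) y (y / 4 * v) := by
  unfold HS at *
  rw [← hasSum_nat_add_iff' 1]
  have h0 : y / 4 * v - ∑ i ∈ Finset.range 1, nrm (X * f) i * y ^ i = y / 4 * v := by
    simp [nrm, coeff_zero_X_mul]
  rw [h0]
  refine (HasSum.mul_left (y / 4) hf).congr_fun fun n => ?_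
  simp only [nrm, coeff_succ_X_mul, pow_succ]
  field_simp

private theorem HS_zero (y : ℝ) : HS 0 y 0 := by
  refine hasSum_zero.congr_fun fun n => ?_
  simp [nrm]

private theorem HS_one (y : ℝ) : HS 1 y 1 := by
  unfold HS
  have : HasSum (fun n : ℕ => nrm 1 n * y ^ n) (nrm 1 0 * y ^ 0) := by
    refine hasSum_single 0 ?_
    intro n hn
    simp [nrm, coeff_one, hn]
  simpa [nrm] using this

private theorem HS.pl_mul {f : ℚ⟦X⟧} {y v : ℝ} (l : List ℤ) (hf : HS f y v) :
    HS (pl l * f) y (plr l (y / 4) * v) := by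
  induction l with
  | nil =>
    have e1 : pl [] * f = 0 := by simp [pl]
    have e2 : plr [] (y / 4) * v = 0 := by simp [plr]
    rw [e1, e2]
    exact HS_zero y
  | cons a l ih =>
    have e1 : pl (a :: l) * f = (a : ℚ⟦X⟧) * f + X * (pl l * f) := by
      show ((a : ℚ⟦X⟧) + X * pl l) * f = _
      ring
    have e2 : plr (a :: l) (y / 4) * v = (a : ℝ) * v + y / 4 * (plr l (y / 4) * v) := by
      show ((a : ℝ) + y / 4 * plr l (y / 4)) * v = _
      ring
    rw [e1, e2]
    exact (hf.int_mul a).add' ih.X_mul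

private theorem HS.mul' {f k : ℚ⟦X⟧} {y v w : ℝ} (hf : HS f y v) (hk : HS k y w) :
    HS (f * k) y (v * w) := by
  have sf : Summable fun n => ‖nrm f n * y ^ n‖ := hf.summable.norm
  have sk : Summable fun n => ‖nrm k n * y ^ n‖ := hk.summable.norm
  have h1 := tsum_mul_tsum_eq_tsum_sum_antidiagonal_of_summable_norm sf sk
  have h2 := (summable_norm_sum_mul_antidiagonal_of_summable_norm sf sk).of_norm
  have h3 := h2.hasSum
  rw [← h1, hf.tsum_eq, hk.tsum_eq] at h3
  refine h3.congr_fun fun n => ?_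
  simp only [nrm, coeff_mul, Rat.cast_sum, Rat.cast_mul]
  rw [Finset.sum_div, Finset.sum_mul]
  refine Finset.sum_congr rfl fun p hp => ?_
  have hp' : p.1 + p.2 = n := Finset.HasAntidiagonal.mem_antidiagonal.mp hp
  rw [← hp', pow_add, pow_add]
  field_simp

private theorem HS.unique' {f : ℚ⟦X⟧} {y v w : ℝ} (hf : HS f y v) (hk : HS f y w) : v = w :=
  HasSum.unique hf hk

private theorem G_eval {y v v1 i f f1 f2 b : ℝ} (hV : HS Vser y v) (hV1 : HS (th Vser) y v1)
    (hI : HS Iser y i) (hF : HS Fser y f) (hF1 : HS (th Fser) y f1)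
    (hF2 : HS (th (th Fser)) y f2) (hb : HS be y b) :
    plr gV1 (y / 4) * v1 + plr gV0 (y / 4) * v + plr gI (y / 4) * i + plr gF2 (y / 4) * f2 +
      plr gF1 (y / 4) * f1 + plr gF0 (y / 4) * f + plr gC (y / 4) * b + plr gD (y / 4) = 0 := by
  have h := (((((((hV1.pl_mul gV1).add' (hV.pl_mul gV0)).add' (hI.pl_mul gI)).add'
    (hF2.pl_mul gF2)).add' (hF1.pl_mul gF1)).add' (hF.pl_mul gF0)).add'
    (hb.pl_mul gC)).add' ((HS_one y).pl_mul gD)
  rw [mul_one, mul_one, G_rel] at h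
  exact h.unique' (HS_zero y)

/-- coefficients of `be` -/
private theorem be_bound (n : ℕ) : |nrm be n| ≤ |nrm be 0| := by
  induction n with
  | zero => exact le_refl _
  | succ n ih =>
    refine le_trans ?_ ih
    have h := congrArg (coeff (n + 1)) th_be
    have e1 : (1 - 4 * X) * th be = th be - X * (C (4 : ℚ) * th be) := by
      have : (4 : ℚ⟦X⟧) = C (4 : ℚ) := (map_ofNat (C (R := ℚ)) 4).symm
      rw [← this]; ring
    have e2 : (-2 : ℚ⟦X⟧) * X * be = X * (C (-2 : ℚ) * be) := by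
      have : (-2 : ℚ⟦X⟧) = C (-2 : ℚ) := by
        rw [map_neg]; congr 1
      rw [← this]; ring
    rw [e1, e2, map_sub, coeff_succ_X_mul, coeff_succ_X_mul, coeff_C_mul, coeff_C_mul] at h
    simp only [th, coeff_mk] at h
    have hr : ((n : ℝ) + 1) * ((coeff (n + 1) be : ℚ) : ℝ) =
        (4 * n - 2) * ((coeff n be : ℚ) : ℝ) := by
      have := congrArg (fun q : ℚ => (q : ℝ)) h
      push_cast at this
      linarith
    have hn : (0 : ℝ) ≤ n := Nat.cast_nonneg n
    have h4 : (0 : ℝ) < 4 ^ n := by positivity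
    have hr2 : nrm be (n + 1) = (4 * n - 2) / (4 * (n + 1)) * nrm be n := by
      have hn1 : (n : ℝ) + 1 ≠ 0 := by positivity
      have : ((coeff (n + 1) be : ℚ) : ℝ) = (4 * n - 2) * ((coeff n be : ℚ) : ℝ) / (n + 1) := by
        field_simp
        linarith
      simp only [nrm, this, pow_succ]
      field_simp
    rw [hr2, abs_mul]
    have hc : |((4 : ℝ) * n - 2) / (4 * (n + 1))| ≤ 1 := by
      rw [abs_le]
      constructor
      · rw [le_div_iff₀ (by positivity)]; linarith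
      · rw [div_le_one (by positivity)]; linarith
    calc |((4 : ℝ) * n - 2) / (4 * (n + 1))| * |nrm be n| ≤ 1 * |nrm be n| :=
          mul_le_mul_of_nonneg_right hc (abs_nonneg _)
      _ = _ := one_mul _

private theorem be_HS (y : ℝ) (h0 : 0 ≤ y) (h1 : y < 1) : ∃ b, HS be y b ∧ |b| = √(1 - y) := by
  have hs : Summable (fun n => nrm be n * y ^ n) := by
    have hg : Summable (fun n : ℕ => |nrm be 0| * y ^ n) :=
      (summable_geometric_of_lt_one h0 h1).mul_left _
    refine Summable.of_norm_bounded hg ?_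
    intro n
    rw [Real.norm_eq_abs, abs_mul, abs_of_nonneg (pow_nonneg h0 n)]
    exact mul_le_mul_of_nonneg_right (be_bound n) (pow_nonneg h0 n)
  refine ⟨_, hs.hasSum, ?_⟩
  set b := ∑' n, nrm be n * y ^ n with hb
  have hbs : HS be y b := hs.hasSum
  have h2 := hbs.mul' hbs
  have e : be * be = pl [1, -4] * 1 := by
    have := be_sq
    rw [pow_two] at this
    rw [this]
    simp [pl]
    ring
  rw [e] at h2
  have h3 := h2.unique' ((HS_one y).pl_mul [1, -4])
  have h4 : plr [1, -4] (y / 4) * 1 = 1 - y := by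
    simp [plr]
    ring
  rw [h4] at h3
  rw [← h3, ← pow_two, Real.sqrt_sq_eq_abs]

private theorem nrm_th (f : ℚ⟦X⟧) (n : ℕ) : nrm (th f) n = n * nrm f n := by
  simp only [nrm, th, coeff_mk, Rat.cast_mul, Rat.cast_natCast]
  ring

private theorem plr_cont (l : List ℤ) : Continuous (plr l) := by
  induction l with
  | nil =>
    have : plr [] = fun _ => (0 : ℝ) := by funext x; simp [plr]
    rw [this]; exact continuous_const
  | cons a l ih =>
    have : plr (a :: l) = fun x => (a : ℝ) + x * plr l x := by funext x; rfl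
    rw [this]
    exact continuous_const.add (continuous_id.mul ih)

private theorem plr_tendsto (l : List ℤ) : Tendsto (fun y : ℝ => plr l (y / 4))
    (nhdsWithin 1 (Set.Iio 1)) (nhds (plr l (1 / 4))) := by
  have h : Continuous fun y : ℝ => plr l (y / 4) := (plr_cont l).comp (continuous_id.div_const 4)
  exact (h.tendsto 1).mono_left nhdsWithin_le_nhds

/-- `log (1/(1-y))` -/
private noncomputable def La (y : ℝ) : ℝ := Real.log (1 / (1 - y))

private noncomputable def UU (y : ℝ) : ℝ := (√(1 - y))⁻¹ * La y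

private noncomputable def DD (y : ℝ) : ℝ :=
  y * ((1 / 2) * ((√(1 - y)) ^ 3)⁻¹ * La y + ((√(1 - y)) ^ 3)⁻¹)

private theorem near : ∀ᶠ y : ℝ in nhdsWithin 1 (Set.Iio 1), 1 / 2 < y ∧ y < 1 := by
  have h1 : ∀ᶠ y : ℝ in nhdsWithin 1 (Set.Iio 1), y < 1 := self_mem_nhdsWithin
  have h2 : ∀ᶠ y : ℝ in nhdsWithin 1 (Set.Iio 1), 1 / 2 < y :=
    nhdsWithin_le_nhds (Ioi_mem_nhds (by norm_num))
  filter_upwards [h1, h2] with y a b using ⟨b, a⟩

private theorem one_sub_tendsto : Tendsto (fun y : ℝ => 1 - y) (nhdsWithin 1 (Set.Iio 1))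
    (nhdsWithin 0 (Set.Ioi 0)) := by
  refine tendsto_nhdsWithin_iff.mpr ⟨?_, ?_⟩
  · have : Tendsto (fun y : ℝ => 1 - y) (nhds 1) (nhds (1 - 1)) :=
      (continuous_const.sub continuous_id).tendsto 1
    rw [sub_self] at this
    exact this.mono_left nhdsWithin_le_nhds
  · filter_upwards [near] with y hy
    exact sub_pos.mpr hy.2

private theorem La_tendsto : Tendsto La (nhdsWithin 1 (Set.Iio 1)) atTop := by
  have h2 : Tendsto (fun y : ℝ => 1 / (1 - y)) (nhdsWithin 1 (Set.Iio 1)) atTop := by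
    have := tendsto_inv_nhdsGT_zero.comp one_sub_tendsto
    refine this.congr fun y => ?_
    simp [Function.comp]
  exact Real.tendsto_log_atTop.comp h2

private theorem be_pos {y : ℝ} (h : y < 1) : 0 < √(1 - y) := Real.sqrt_pos.mpr (sub_pos.mpr h)

private theorem be_le {y : ℝ} (h : 0 ≤ y) : √(1 - y) ≤ 1 := by
  exact Real.sqrt_le_one.mpr (by linarith)

private theorem La_pos {y : ℝ} (h0 : 0 < y) (h : y < 1) : 0 < La y := by
  refine Real.log_pos ?_
  rw [lt_div_iff₀ (by linarith)]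
  linarith

private theorem UU_tendsto : Tendsto UU (nhdsWithin 1 (Set.Iio 1)) atTop := by
  refine tendsto_atTop_mono' _ ?_ La_tendsto
  filter_upwards [near] with y hy
  have h1 : 1 ≤ (√(1 - y))⁻¹ :=
    (one_le_inv₀ (be_pos hy.2)).mpr (be_le (by linarith [hy.1]))
  have h2 := La_pos (y := y) (by linarith [hy.1]) hy.2
  calc La y = 1 * La y := (one_mul _).symm
    _ ≤ UU y := mul_le_mul_of_nonneg_right h1 h2.le

private theorem DD_tendsto : Tendsto DD (nhdsWithin 1 (Set.Iio 1)) atTop := by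
  have h4 : Tendsto (fun y => La y * (1 / 4)) (nhdsWithin 1 (Set.Iio 1)) atTop :=
    La_tendsto.atTop_mul_const (by norm_num)
  refine tendsto_atTop_mono' _ ?_ h4
  filter_upwards [near] with y hy
  have hb := be_pos hy.2
  have h1 : 1 ≤ ((√(1 - y)) ^ 3)⁻¹ :=
    (one_le_inv₀ (pow_pos hb 3)).mpr (pow_le_one₀ hb.le (be_le (by linarith [hy.1])))
  have h2 := La_pos (y := y) (by linarith [hy.1]) hy.2
  have h3 : (1 / 2) * La y ≤ (1 / 2) * ((√(1 - y)) ^ 3)⁻¹ * La y + ((√(1 - y)) ^ 3)⁻¹ := by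
    nlinarith [mul_le_mul_of_nonneg_right h1 h2.le]
  calc La y * (1 / 4) = 1 / 2 * ((1 / 2) * La y) := by ring
    _ ≤ y * ((1 / 2) * ((√(1 - y)) ^ 3)⁻¹ * La y + ((√(1 - y)) ^ 3)⁻¹) :=
      mul_le_mul hy.1.le h3 (by positivity) (by linarith [hy.1])

/-- the value of a series -/
private noncomputable def Sv (f : ℚ⟦X⟧) (y : ℝ) : ℝ := ∑' n, nrm f n * y ^ n

private theorem rat_gen (u : ℕ → ℝ) (W : ℝ → ℝ) (hu : ∀ n, 0 ≤ u n)
    (hW : ∀ y : ℝ, 0 ≤ y → y < 1 → HasSum (fun n => u n * y ^ n) (W y))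
    (hdiv : Tendsto W (nhdsWithin 1 (Set.Iio 1)) atTop) (f : ℚ⟦X⟧) (κ : ℝ)
    (h : (fun n => nrm f n - κ * u n) =o[atTop] u) :
    (∀ y : ℝ, 0 ≤ y → y < 1 → HS f y (Sv f y)) ∧
      Tendsto (fun y => Sv f y / W y) (nhdsWithin 1 (Set.Iio 1)) (nhds κ) := by
  constructor
  · intro y h0 h1
    have hO : (fun n => nrm f n) =O[atTop] u := by
      have h2 : (fun n => (nrm f n - κ * u n) + κ * u n) =O[atTop] u :=
        h.isBigO.add ((isBigO_refl u atTop).const_mul_left κ)
      refine h2.congr_left fun n => ?_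
      ring
    have hO2 : (fun n => nrm f n * y ^ n) =O[atTop] (fun n => u n * y ^ n) :=
      hO.mul (isBigO_refl _ _)
    have hs : Summable (fun n => nrm f n * y ^ n) :=
      summable_of_isBigO_nat (hW y h0 h1).summable hO2
    exact hs.hasSum
  · have ha := abel_ratio (nrm f) u κ hu (fun y h0 h1 => (hW y h0 h1).summable) ?_ h
    · refine ha.congr' ?_
      filter_upwards [near] with y hy
      rw [(hW y (by linarith [hy.1]) hy.2).tsum_eq]
      rfl
    · refine hdiv.congr' ?_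
      filter_upwards [near] with y hy
      rw [(hW y (by linarith [hy.1]) hy.2).tsum_eq]

private theorem inv_sqrt_uc : (fun n : ℕ => (√(n : ℝ))⁻¹) =o[atTop] uc := by
  have hB : (fun n : ℕ => (√(n : ℝ))⁻¹) =o[atTop] (fun n : ℕ => Real.log n * (√(n : ℝ))⁻¹) := by
    have h1 : (fun _ : ℕ => (1 : ℝ)) =o[atTop] (fun n : ℕ => Real.log n) := by
      refine isLittleO_const_left.mpr (Or.inr ?_)
      exact tendsto_norm_atTop_atTop.comp (Real.tendsto_log_atTop.comp tendsto_natCast_atTop_atTop)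
    have h2 := h1.mul_isBigO (isBigO_refl (fun n : ℕ => (√(n : ℝ))⁻¹) atTop)
    refine h2.congr_left fun n => ?_
    ring
  refine hB.trans_isBigO ?_
  have hpi : 0 < 1 / √Real.pi := by positivity
  have hev := uc_asymp.eventually (lt_mem_nhds (half_lt_self hpi))
  refine IsBigO.of_bound (1 / (1 / √Real.pi / 2)) ?_
  filter_upwards [hev, eventually_ge_atTop 2] with n hn h2
  have hn2 : (2 : ℝ) ≤ n := by exact_mod_cast h2
  have hl : 0 < Real.log n := Real.log_pos (by linarith)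
  have hsq : 0 < √(n : ℝ) := Real.sqrt_pos.mpr (by linarith)
  rw [Real.norm_of_nonneg (by positivity), Real.norm_of_nonneg (uc_nonneg n)]
  rw [lt_div_iff₀ hl] at hn
  rw [one_div_mul_eq_div, le_div_iff₀ (by positivity), mul_comm]
  have : uc n = (uc n * √(n : ℝ)) * (√(n : ℝ))⁻¹ := by field_simp
  rw [this, ← mul_assoc]
  exact mul_le_mul_of_nonneg_right hn.le (by positivity)

private theorem nF_nonneg (n : ℕ) : 0 ≤ nrm Fser n := by
  have : (0 : ℚ) ≤ coeff n Fser := by
    rw [Fcoef]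
    split_ifs
    · exact Nat.cast_nonneg _
    · exact le_refl _
  have h2 : (0 : ℝ) ≤ ((coeff n Fser : ℚ) : ℝ) := by exact_mod_cast this
  exact div_nonneg h2 (by positivity)

private theorem nF1 : (fun n : ℕ => (n : ℝ) * nrm Fser n) =o[atTop] uc := by
  refine IsBigO.trans_isLittleO ?_ inv_sqrt_uc
  obtain ⟨K, hK, h⟩ := Fcoef_le
  refine IsBigO.of_bound K ?_
  filter_upwards [eventually_ge_atTop 1] with n hn
  have hn1 : (1 : ℝ) ≤ n := by exact_mod_cast hn
  have hsq : 0 < √(n : ℝ) := Real.sqrt_pos.mpr (by linarith)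
  have hnn := nF_nonneg n
  rw [Real.norm_of_nonneg (by positivity), Real.norm_of_nonneg (by positivity)]
  calc (n : ℝ) * nrm Fser n ≤ n * (K / (n * √(n : ℝ))) :=
        mul_le_mul_of_nonneg_left (h n hn) (by positivity)
    _ = K * (√(n : ℝ))⁻¹ := by field_simp

private theorem nF0 : (fun n : ℕ => nrm Fser n) =o[atTop] uc := by
  refine IsBigO.trans_isLittleO ?_ nF1
  refine IsBigO.of_bound 1 ?_
  filter_upwards [eventually_ge_atTop 1] with n hn
  have hn1 : (1 : ℝ) ≤ n := by exact_mod_cast hn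
  have hnn := nF_nonneg n
  rw [Real.norm_of_nonneg hnn, Real.norm_of_nonneg (by positivity)]
  nlinarith

private theorem nF2 : (fun n : ℕ => (n : ℝ) * ((n : ℝ) * nrm Fser n)) =o[atTop]
    (fun n : ℕ => (n : ℝ) * uc n) :=
  (isBigO_refl (fun n : ℕ => (n : ℝ)) atTop).mul_isLittleO nF1

private def qV1 : List ℤ := [60, 0, 2700, 2640]
private def qV0 : List ℤ := [60, -300, -3960, 4800, 26400]
private def qI : List ℤ := [0, 160, -480, -4800, 18400, -52800, 233040, -549920]
private def qF2 : List ℤ := [12, -45, -576, -1869, -1800, 5868, -1440, 50496, -16896]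
private def qF1 : List ℤ := [3, -87, -516, 1476, 3000, 12948, -34512, 93792, -589440, 270336]
private def qF0 : List ℤ := [0, -120, -128, 3712, -8684, 39380, -166096, 313376, -391680, 253440]
private def qD : List ℤ := [0, 0, -360, 2520, -6960, 39600, -89280, -21120]

private theorem fV1 (x : ℝ) : plr gV1 x = (1 - 4 * x) ^ 2 * plr qV1 x := by
  simp only [plr, gV1, qV1, List.foldr]; push_cast; ring

private theorem fV0 (x : ℝ) : plr gV0 x = (1 - 4 * x) * plr qV0 x := by
  simp only [plr, gV0, qV0, List.foldr]; push_cast; ring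

private theorem fI (x : ℝ) : plr gI x = (1 - 4 * x) * plr qI x := by
  simp only [plr, gI, qI, List.foldr]; push_cast; ring

private theorem fF2 (x : ℝ) : plr gF2 x = (1 - 4 * x) ^ 2 * plr qF2 x := by
  simp only [plr, gF2, qF2, List.foldr]; push_cast; ring

private theorem fF1 (x : ℝ) : plr gF1 x = (1 - 4 * x) * plr qF1 x := by
  simp only [plr, gF1, qF1, List.foldr]; push_cast; ring

private theorem fF0 (x : ℝ) : plr gF0 x = (1 - 4 * x) * plr qF0 x := by
  simp only [plr, gF0, qF0, List.foldr]; push_cast; ring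

private theorem fD (x : ℝ) : plr gD x = (1 - 4 * x) * plr qD x := by
  simp only [plr, gD, qD, List.foldr]; push_cast; ring

private theorem alg_step (β L D q1 q0 qi q2 qf1 qf0 c qd t1 t0 ti t2 s1 s0 b : ℝ) (hβ : β ≠ 0)
    (hL : L ≠ 0) (hD : D ≠ 0)
    (h : (β ^ 2) ^ 2 * q1 * t1 + β ^ 2 * q0 * t0 + β ^ 2 * qi * ti + (β ^ 2) ^ 2 * q2 * t2 +
      β ^ 2 * qf1 * s1 + β ^ 2 * qf0 * s0 + c * b + β ^ 2 * qd = 0) :
    q1 * (β ^ 2 * D / (β⁻¹ * L)) * (t1 / D) + q0 * (t0 / (β⁻¹ * L)) + qi * (ti * β / L) +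
      q2 * (β ^ 2 * D / (β⁻¹ * L)) * (t2 / D) + qf1 * (s1 / (β⁻¹ * L)) +
      qf0 * (s0 / (β⁻¹ * L)) + c * (b / (β * L)) + qd * (β / L) = 0 := by
  have e : q1 * (β ^ 2 * D / (β⁻¹ * L)) * (t1 / D) + q0 * (t0 / (β⁻¹ * L)) + qi * (ti * β / L) +
      q2 * (β ^ 2 * D / (β⁻¹ * L)) * (t2 / D) + qf1 * (s1 / (β⁻¹ * L)) +
      qf0 * (s0 / (β⁻¹ * L)) + c * (b / (β * L)) + qd * (β / L) =
      ((β ^ 2) ^ 2 * q1 * t1 + β ^ 2 * q0 * t0 + β ^ 2 * qi * ti + (β ^ 2) ^ 2 * q2 * t2 +
      β ^ 2 * qf1 * s1 + β ^ 2 * qf0 * s0 + c * b + β ^ 2 * qd) / (β * L) := by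
    field_simp
  rw [e, h, zero_div]

theorem kappa_val (κ : ℝ)
    (h : (fun n : ℕ => ((coeff n Vser : ℚ) : ℝ) / 4 ^ n - κ * uc n) =o[atTop] uc) :
    κ = 27 / (32 * √3 * Real.pi) := by
  have hβ0 : Tendsto (fun y : ℝ => √(1 - y)) (nhdsWithin 1 (Set.Iio 1)) (nhds 0) := by
    have h1 : Tendsto (fun y : ℝ => 1 - y) (nhdsWithin 1 (Set.Iio 1)) (nhds 0) :=
      one_sub_tendsto.mono_right nhdsWithin_le_nhds
    have h2 := (Real.continuous_sqrt.tendsto 0).comp h1
    rw [Real.sqrt_zero] at h2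
    exact h2
  have hLi : Tendsto (fun y : ℝ => (La y)⁻¹) (nhdsWithin 1 (Set.Iio 1)) (nhds 0) :=
    tendsto_inv_atTop_zero.comp La_tendsto
  have hUs : ∀ y : ℝ, 0 ≤ y → y < 1 → HasSum (fun n => uc n * y ^ n) (UU y) :=
    fun y h0 h1 => uc_hasSum y h0 h1
  have hDs : ∀ y : ℝ, 0 ≤ y → y < 1 →
      HasSum (fun n => (fun n : ℕ => (n : ℝ) * uc n) n * y ^ n) (DD y) :=
    fun y h0 h1 => uc_deriv y h0 h1
  have hDn : ∀ n : ℕ, 0 ≤ (fun n : ℕ => (n : ℝ) * uc n) n :=
    fun n => mul_nonneg (Nat.cast_nonneg n) (uc_nonneg n)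
  obtain ⟨sV, rV⟩ := rat_gen uc UU uc_nonneg hUs UU_tendsto Vser κ h
  obtain ⟨sV1, rV1⟩ := rat_gen (fun n : ℕ => (n : ℝ) * uc n) DD hDn hDs DD_tendsto (th Vser) κ (by
    have h2 := (isBigO_refl (fun n : ℕ => (n : ℝ)) atTop).mul_isLittleO h
    refine h2.congr_left fun n => ?_
    rw [nrm_th]
    simp only [nrm]
    ring)
  obtain ⟨sF, rF⟩ := rat_gen uc UU uc_nonneg hUs UU_tendsto Fser 0 (by
    refine nF0.congr_left fun n => ?_
    ring)
  obtain ⟨sF1, rF1⟩ := rat_gen uc UU uc_nonneg hUs UU_tendsto (th Fser) 0 (by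
    refine nF1.congr_left fun n => ?_
    rw [nrm_th]; ring)
  obtain ⟨sF2, rF2⟩ := rat_gen (fun n : ℕ => (n : ℝ) * uc n) DD hDn hDs DD_tendsto
    (th (th Fser)) 0 (by
    refine nF2.congr_left fun n => ?_
    rw [nrm_th, nrm_th]; ring)
  have sI : ∀ y : ℝ, 0 ≤ y → y < 1 → HS Iser y (Sv Iser y) := by
    intro y h0 h1
    have hs := I_summable y h0 h1
    have : Summable (fun n => nrm Iser n * y ^ n) := by
      refine hs.congr fun n => ?_
      simp only [nrm, div_pow]
      ring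
    exact this.hasSum
  have rI : Tendsto (fun y : ℝ => Sv Iser y * √(1 - y) / La y) (nhdsWithin 1 (Set.Iio 1))
      (nhds (2 / (√3 * Real.pi))) := by
    refine I_asymp.congr fun y => ?_
    have : (∑' n, ((coeff n Iser : ℚ) : ℝ) * (y / 4) ^ n) = Sv Iser y := by
      refine tsum_congr fun n => ?_
      simp only [nrm, div_pow]
      ring
    rw [this]
    rfl
  have sb : ∀ y : ℝ, 0 ≤ y → y < 1 → HS be y (Sv be y) ∧ |Sv be y| = √(1 - y) := by
    intro y h0 h1
    obtain ⟨b, hb, hb2⟩ := be_HS y h0 h1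
    have : Sv be y = b := HasSum.tsum_eq hb
    rw [this]
    exact ⟨hb, hb2⟩
  have rDU : Tendsto (fun y : ℝ => (√(1 - y)) ^ 2 * DD y / ((√(1 - y))⁻¹ * La y))
      (nhdsWithin 1 (Set.Iio 1)) (nhds (1 / 2)) := by
    have h1 : Tendsto (fun y : ℝ => y * (1 / 2 + (La y)⁻¹)) (nhdsWithin 1 (Set.Iio 1))
        (nhds (1 * (1 / 2 + 0))) :=
      (tendsto_id.mono_left nhdsWithin_le_nhds).mul (tendsto_const_nhds.add hLi)
    rw [show (1 : ℝ) * (1 / 2 + 0) = 1 / 2 by norm_num] at h1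
    refine h1.congr' ?_
    filter_upwards [near] with y hy
    have hb := (be_pos hy.2).ne'
    have hL := (La_pos (y := y) (by linarith [hy.1]) hy.2).ne'
    rw [DD]
    generalize √(1 - y) = β at hb
    generalize La y = L at hL
    field_simp
  have rb : Tendsto (fun y : ℝ => Sv be y / (√(1 - y) * La y)) (nhdsWithin 1 (Set.Iio 1))
      (nhds 0) := by
    refine squeeze_zero_norm' ?_ hLi
    filter_upwards [near] with y hy
    have hb := be_pos hy.2
    have hL := La_pos (y := y) (by linarith [hy.1]) hy.2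
    rw [norm_div, Real.norm_eq_abs, (sb y (by linarith [hy.1]) hy.2).2,
      Real.norm_of_nonneg (by positivity)]
    refine le_of_eq ?_
    field_simp
  have rd : Tendsto (fun y : ℝ => √(1 - y) / La y) (nhdsWithin 1 (Set.Iio 1)) (nhds 0) := by
    have := hβ0.mul hLi
    rw [mul_zero] at this
    refine this.congr fun y => ?_
    rw [div_eq_mul_inv]
  have T := (((((((((plr_tendsto qV1).mul rDU).mul rV1).add ((plr_tendsto qV0).mul rV)).add
    ((plr_tendsto qI).mul rI)).add (((plr_tendsto qF2).mul rDU).mul rF2)).add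
    ((plr_tendsto qF1).mul rF1)).add ((plr_tendsto qF0).mul rF)).add
    ((plr_tendsto gC).mul rb)).add ((plr_tendsto qD).mul rd)
  have T0 : Tendsto (fun _ : ℝ => (0 : ℝ)) (nhdsWithin (1 : ℝ) (Set.Iio 1)) (nhds 0) :=
    tendsto_const_nhds
  have T1 := T.congr' (f₂ := fun _ => (0 : ℝ)) (by
    filter_upwards [near] with y hy
    have h0 : (0 : ℝ) ≤ y := by linarith [hy.1]
    have hb := be_pos hy.2
    have hL := La_pos (y := y) (by linarith [hy.1]) hy.2
    have hD : 0 < DD y := by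
      have : 0 < y := by linarith [hy.1]
      rw [DD]; positivity
    have hG := G_eval (sV y h0 hy.2) (sV1 y h0 hy.2) (sI y h0 hy.2) (sF y h0 hy.2)
      (sF1 y h0 hy.2) (sF2 y h0 hy.2) (sb y h0 hy.2).1
    have e4 : 1 - 4 * (y / 4) = (√(1 - y)) ^ 2 := by
      rw [Real.sq_sqrt (by linarith [hy.2])]; ring
    rw [fV1, fV0, fI, fF2, fF1, fF0, fD, e4] at hG
    exact alg_step (√(1 - y)) (La y) (DD y) _ _ _ _ _ _ _ _ _ _ _ _ _ _ _ hb.ne' hL.ne' hD.ne'
      hG)
  have key := tendsto_nhds_unique T1 T0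
  have v1 : plr qV1 (1 / 4) = 270 := by
    simp only [plr, qV1, List.foldr]; norm_num
  have v0 : plr qV0 (1 / 4) = -675 / 8 := by
    simp only [plr, qV0, List.foldr]; norm_num
  have vI : plr qI (1 / 4) = -10935 / 512 := by
    simp only [plr, qI, List.foldr]; norm_num
  rw [v1, v0, vI] at key
  have h3 : (√3 : ℝ) ≠ 0 := by positivity
  have hpi : Real.pi ≠ 0 := Real.pi_ne_zero
  field_simp at key ⊢
  linarith

end Pool.Agent.Helper99.TC
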