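import Pool.Agent.Helper99.TC.RecForm
import Pool.Agent.Helper99.TC.Kappa
import Pool.Agent.Helper99.TC.BetaExp

/-!
# TC-52: the theorem

Let `r n = tc (n+2)/4^n` and suppose it has an expansion of type (*), i.e. `IsAE r a b C` with `C i = 0` for `i < 7`, `C (7+i) = c i` (`IsAE.of_pos`). Put `w n = coeff n Vser/4^n`.

1. `w n / n` has an expansion by `V_of_r` and `IsAE.lop`, with coefficients `symb 4 2 q0 1 a`, `symb 4 2 q0 (-1) C`. The 0-th coefficients vanish (`∑_j q0 j 0 = 0` for the log part and the rest; for the alternating part `C 0 = 0` because of the shift by 7). So `w` itself has an expansion `IsAE w A' B' C'` with `dv A' = symb ... a`, `dv C' = symb ... C`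
(multiply by `n`: use the expansion of `w n / n` at order `N + 1`; the 0-th coefficient of its middle part vanishes too, by the extra clause of `IsAE.lop`).
2. `V_rec`, `IsAE.lop` for `w`, `Fcoef_exp`, `be_exp`: by uniqueness `symb 11 3 (qq vA2 vA1 vA0) 1 A' = 0` (F and β have no log part) and `symb 11 3 (qq vA2 vA1 vA0) (-1) C' = - symb 16 3 (qq vB2 vB1 vB0) (-1) (E_i/(π√π))`, rational multiples of `1/(π √π)`.
3. `rat_log`: `A' i` is a rational multiple of `A' 0`. The sums: `∑ q j 0 = 0`, `∑ j q j 0 = 0`, `∑ q j 1 = 0`, and `∑ (q j 0 cc i 2 j² + q j 1 cc i 1 j + q j 2) = -295245/8192 i²`. `rat_diag` with `e = -1` (`∑ (-1)^j q j 0 = -2129425/2048`): `C' i` is a rational multiple of `1/(π√π)`.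
4. `rat_first` for `symb 4 2 q0 1 a (i+1) = A' i` (`χ i = (3/2 - i)/16`), `κ := A' 0`: `a i` is a rational multiple of `A' 0`; `rat_diag` with `e = -1` (`∑ (-1)^j q0 j 0 = 1/8`): `C i`, so `c i` is a rational multiple of `1/(π √π)`.
5. `A' 0 = lim √n w n / log n` (`IsAE.lead`), so with `uc_asymp` `w n = κ uc n + o(uc n)`, `κ = √π A' 0`; by `kappa_val` `A' 0 = 27/(32 √3 π √π)`; so `√3 π √π a i` is rational.
-/

set_option autoImplicit false

open Filter Asymptotics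

namespace Pool.Agent.Helper99.TC

/-- multiplication by `n` -/
private theorem ae_mulN {s A B C : ℕ → ℝ} (h : IsAE s A B C) (hA : A 0 = 0) (hB : B 0 = 0)
    (hC : C 0 = 0) : IsAE (fun n => (n : ℝ) * s n) (fun i => A (i + 1)) (fun i => B (i + 1))
      (fun i => C (i + 1)) := by
  intro N
  have h1 := (isBigO_refl (fun n : ℕ => (n : ℝ)) atTop).mul (h (N + 1))
  refine h1.congr' ?_ ?_
  · filter_upwards [eventually_gt_atTop 0] with n hn
    have hn0 : (n : ℝ) ≠ 0 := by positivity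
    rw [Finset.sum_range_succ', hA, hB, hC]
    simp only [zero_mul, mul_zero, add_zero, zero_div]
    rw [mul_sub, Finset.mul_sum]
    congr 1
    · ring
    · refine Finset.sum_congr rfl fun i _ => ?_
      field_simp
      ring
  · filter_upwards [eventually_gt_atTop 0] with n hn
    have hn0 : (n : ℝ) ≠ 0 := by positivity
    field_simp
    ring

/-- the symbol of a rational multiple of κ -/
private theorem symb_rat (J D : ℕ) (q : ℕ → ℕ → ℚ) (e : ℚ) (κ : ℝ) (E : ℕ → ℚ) (i : ℕ) :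
    ∃ ρ : ℚ, symb J D q e (fun i => E i * κ) i = ρ * κ := by
  refine ⟨∑ j ∈ Finset.range J, ∑ d ∈ Finset.range D,
    if d ≤ i then e ^ j * q j d * (∑ k ∈ Finset.range (i - d + 1), E k * cc k (i - d - k) *
      (j : ℚ) ^ (i - d - k)) else 0, ?_⟩
  unfold symb Sh
  push_cast
  rw [Finset.sum_mul]
  refine Finset.sum_congr rfl fun j _ => ?_
  rw [Finset.sum_mul]
  refine Finset.sum_congr rfl fun d _ => ?_
  split_ifs
  · push_cast
    rw [mul_assoc, mul_assoc, Finset.sum_mul, Finset.mul_sum, Finset.mul_sum, Finset.mul_sum]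
    refine Finset.sum_congr rfl fun k _ => ?_
    ring
  · simp

private theorem symb_zero (J D : ℕ) (q : ℕ → ℕ → ℚ) (e : ℝ) :
    symb J D q e (fun _ => 0) = fun _ => 0 := by
  funext i
  unfold symb Sh
  refine Finset.sum_eq_zero fun j _ => Finset.sum_eq_zero fun d _ => ?_
  split_ifs
  · simp
  · rfl

private theorem symb_at_zero (J D : ℕ) (hD : 1 ≤ D) (q : ℕ → ℕ → ℚ) (e : ℝ) (A : ℕ → ℝ) :
    symb J D q e A 0 = (∑ j ∈ Finset.range J, e ^ j * (q j 0 : ℝ)) * A 0 := by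
  unfold symb
  rw [Finset.sum_mul]
  refine Finset.sum_congr rfl fun j _ => ?_
  rw [Finset.sum_eq_single 0]
  · simp [Sh, cc]
  · intro d _ hd
    rw [if_neg (by omega)]
  · intro h
    exact absurd (Finset.mem_range.2 (by omega)) h

/-- the operator of `V_of_r` -/
private def q0 (j d : ℕ) : ℚ :=
  if j = 2 ∧ d = 0 then 1 / 16 else if j = 3 ∧ d = 0 then -1 / 16
      else if j = 3 ∧ d = 1 then 1 / 8 else 0

private theorem cc_one (k : ℕ) : cc k 1 = k + 1 / 2 := by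
  simp [cc]

private theorem cc_two (k : ℕ) : cc k 2 = ((k : ℚ) + 1 / 2) * (k + 3 / 2) / 2 := by
  simp [cc, Finset.prod_range_succ]
  ring

private theorem q0_sum : ∑ j ∈ Finset.range 4, q0 j 0 = 0 := by decide +kernel

private theorem q0_diag : ∑ j ∈ Finset.range 4, (-1 : ℚ) ^ j * q0 j 0 ≠ 0 := by decide +kernel

private theorem q0_chi (i : ℕ) :
    ∑ j ∈ Finset.range 4, (q0 j 0 * cc i 1 * j + q0 j 1) ≠ 0 := by
  rw [cc_one]
  simp [q0, Finset.sum_range_succ]
  intro h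
  have h2 : (3 : ℚ) = ((2 * i : ℕ) : ℚ) := by
    push_cast
    linarith
  have h3 : 3 = 2 * i := by exact_mod_cast h2
  omega

private theorem qV_h0 : ∑ j ∈ Finset.range 11, qq vA2 vA1 vA0 j 0 = 0 := by decide +kernel

private theorem qV_h1 : ∑ j ∈ Finset.range 11, (j : ℚ) * qq vA2 vA1 vA0 j 0 = 0 := by
  decide +kernel

private theorem qV_h2 : ∑ j ∈ Finset.range 11, qq vA2 vA1 vA0 j 1 = 0 := by decide +kernel

private theorem qV_s1 : ∑ j ∈ Finset.range 11, qq vA2 vA1 vA0 j 0 * (j : ℚ) ^ 2 =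
    -295245 / 4096 := by decide +kernel

private theorem qV_s2 : ∑ j ∈ Finset.range 11, qq vA2 vA1 vA0 j 1 * (j : ℚ) =
    295245 / 4096 := by decide +kernel

private theorem qV_s3 : ∑ j ∈ Finset.range 11, qq vA2 vA1 vA0 j 2 =
    -295245 / 32768 := by decide +kernel

private theorem qV_diag : ∑ j ∈ Finset.range 11, (-1 : ℚ) ^ j * qq vA2 vA1 vA0 j 0 ≠ 0 := by
  decide +kernel

private theorem qV_chi (i : ℕ) (hi : 1 ≤ i) : ∑ j ∈ Finset.range 11,
      (qq vA2 vA1 vA0 j 0 * cc i 2 * (j : ℚ) ^ 2 + qq vA2 vA1 vA0 j 1 * cc i 1 * j +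
        qq vA2 vA1 vA0 j 2) ≠ 0 := by
  have h : ∑ j ∈ Finset.range 11,
      (qq vA2 vA1 vA0 j 0 * cc i 2 * (j : ℚ) ^ 2 + qq vA2 vA1 vA0 j 1 * cc i 1 * j +
        qq vA2 vA1 vA0 j 2) = cc i 2 * (∑ j ∈ Finset.range 11,
        qq vA2 vA1 vA0 j 0 * (j : ℚ) ^ 2) + cc i 1 * (∑ j ∈ Finset.range 11,
        qq vA2 vA1 vA0 j 1 * (j : ℚ)) + ∑ j ∈ Finset.range 11, qq vA2 vA1 vA0 j 2 := by
    rw [Finset.mul_sum, Finset.mul_sum, ← Finset.sum_add_distrib, ← Finset.sum_add_distrib]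
    refine Finset.sum_congr rfl fun j _ => ?_
    ring
  rw [h, qV_s1, qV_s2, qV_s3, cc_one, cc_two]
  have hi0 : (i : ℚ) ≠ 0 := by
    have : i ≠ 0 := by omega
    exact_mod_cast this
  have h2 : ((i : ℚ) + 1 / 2) * (i + 3 / 2) / 2 * (-295245 / 4096) +
      (i + 1 / 2) * (295245 / 4096) + -295245 / 32768 = (-295245 / 8192) * (i : ℚ) ^ 2 := by
    ring
  rw [h2]
  exact mul_ne_zero (by norm_num) (pow_ne_zero 2 hi0)

theorem tc_amplitudes (a b c : ℕ → ℝ)
    (h : ∀ N : ℕ, 1 ≤ N → (fun n : ℕ => √(n : ℝ) * ((tc (n + 2) : ℝ) / 4 ^ n) -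
      (∑ i ∈ Finset.range N, (a i * Real.log n + b i) / (n : ℝ) ^ i +
        (-1) ^ n * ∑ i ∈ Finset.range (N - 7), c i / (n : ℝ) ^ (7 + i)))
      =O[atTop] (fun n : ℕ => Real.log n / (n : ℝ) ^ N)) (i : ℕ) :
    (∃ ρ : ℚ, √3 * (Real.pi * √Real.pi) * a i = ρ) ∧
      (∃ ρ : ℚ, (Real.pi * √Real.pi) * c i = ρ) := by
  set C : ℕ → ℝ := fun i => if i < 7 then 0 else c (i - 7) with hCdef
  have hC0 : C 0 = 0 := by simp [hCdef]
  have hCsum : ∀ (N n : ℕ), ∑ i ∈ Finset.range N, C i / (n : ℝ) ^ i =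
      ∑ i ∈ Finset.range (N - 7), c i / (n : ℝ) ^ (7 + i) := by
    intro N n
    rcases le_or_gt N 7 with hN | hN
    · rw [Nat.sub_eq_zero_of_le hN, Finset.range_zero, Finset.sum_empty]
      refine Finset.sum_eq_zero fun i hi => ?_
      have : i < 7 := lt_of_lt_of_le (Finset.mem_range.1 hi) hN
      simp [hCdef, this]
    · obtain ⟨M, rfl⟩ : ∃ M, N = 7 + M := ⟨N - 7, by omega⟩
      rw [Finset.sum_range_add, Nat.add_sub_cancel_left, Finset.sum_eq_zero, zero_add]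
      · refine Finset.sum_congr rfl fun i _ => ?_
        simp [hCdef]
      · intro i hi
        have : i < 7 := Finset.mem_range.1 hi
        simp [hCdef, this]
  have hr : IsAE (fun n => (tc (n + 2) : ℝ) / 4 ^ n) a b C := by
    apply IsAE.of_pos
    intro N hN
    refine (h N hN).congr_left ?_
    intro n
    rw [← hCsum N n, Finset.mul_sum, ← Finset.sum_add_distrib]
    congr 1
    refine Finset.sum_congr rfl fun i _ => ?_
    ring
  -- step 1
  obtain ⟨B1, hB10, hB1⟩ := hr.lop 4 2 (by norm_num) q0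
  have hB10' : B1 0 = 0 := by
    rw [hB10]
    have := q0_sum
    have h2 : (∑ j ∈ Finset.range 4, (q0 j 0 : ℝ)) = ((∑ j ∈ Finset.range 4, q0 j 0 : ℚ) : ℝ) := by
      push_cast
      rfl
    rw [h2, q0_sum]
    simp
  have hA10 : symb 4 2 q0 1 a 0 = 0 := by
    rw [symb_at_zero 4 2 (by norm_num)]
    have h2 : (∑ j ∈ Finset.range 4, (1 : ℝ) ^ j * (q0 j 0 : ℝ)) =
        ((∑ j ∈ Finset.range 4, q0 j 0 : ℚ) : ℝ) := by
      push_cast
      simp
    rw [h2, q0_sum]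
    simp
  have hC10 : symb 4 2 q0 (-1) C 0 = 0 := by
    rw [symb_at_zero 4 2 (by norm_num), hC0, mul_zero]
  have hw : IsAE (fun n => ((PowerSeries.coeff n Vser : ℚ) : ℝ) / 4 ^ n)
      (fun i => symb 4 2 q0 1 a (i + 1)) (fun i => B1 (i + 1))
      (fun i => symb 4 2 q0 (-1) C (i + 1)) := by
    refine (ae_mulN hB1 hA10 hB10' hC10).congr' ?_
    filter_upwards [V_of_r, eventually_gt_atTop 0] with n hn hn0
    have hn1 : (n : ℝ) ≠ 0 := by positivity
    have h3 : Lop 4 2 q0 (fun n => (tc (n + 2) : ℝ) / 4 ^ n) n =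
        ((PowerSeries.coeff n Vser : ℚ) : ℝ) / 4 ^ n / n := hn.symm
    rw [h3]
    field_simp
  set A' : ℕ → ℝ := fun i => symb 4 2 q0 1 a (i + 1) with hA'
  set C' : ℕ → ℝ := fun i => symb 4 2 q0 (-1) C (i + 1) with hC'
  -- step 2
  obtain ⟨B2, -, hB2⟩ := hw.lop 11 3 (by norm_num) (qq vA2 vA1 vA0)
  obtain ⟨BF, E, hF⟩ := Fcoef_exp
  obtain ⟨Bb, hb⟩ := be_exp
  have hF2 := hF.lop0 16 3 (qq vB2 vB1 vB0)
  have hb2 := hb.lop0 11 3 (qq [] [] vC)
  have hsum := (hB2.add hF2).add hb2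
  have hz : IsAE (fun _ => 0)
      (fun i => symb 11 3 (qq vA2 vA1 vA0) 1 A' i + 0 + 0)
      (fun i => B2 i + symb 16 3 (qq vB2 vB1 vB0) 1 BF i + symb 11 3 (qq [] [] vC) 1 Bb i)
      (fun i => symb 11 3 (qq vA2 vA1 vA0) (-1) C' i +
        symb 16 3 (qq vB2 vB1 vB0) (-1) (fun i => (E i : ℝ) * (1 / (Real.pi * √Real.pi))) i +
        symb 11 3 (qq [] [] vC) (-1) (fun _ => 0) i) :=
    hsum.congr' V_rec
  obtain ⟨u1, -, u3⟩ := hz.unique IsAE.zero
  have hlog : ∀ i, symb 11 3 (qq vA2 vA1 vA0) 1 A' i = 0 := by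
    intro i
    have := congrFun u1 i
    simpa using this
  set κ : ℝ := 1 / (Real.pi * √Real.pi) with hκ
  have halt : ∀ i, ∃ ρ : ℚ, symb 11 3 (qq vA2 vA1 vA0) ((-1 : ℚ) : ℝ) C' i = ρ * κ := by
    intro i
    obtain ⟨ρ, hρ⟩ := symb_rat 16 3 (qq vB2 vB1 vB0) (-1) κ E i
    refine ⟨-ρ, ?_⟩
    have h1 := congrFun u3 i
    simp only [symb_zero, add_zero] at h1
    push_cast at hρ ⊢
    rw [hρ] at h1
    linarith
  -- step 3
  have hA'r := rat_log 11 3 (by norm_num) (qq vA2 vA1 vA0) qV_h0 qV_h1 qV_h2 qV_chi A' hlog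
  have hC'r := rat_diag 11 3 (by norm_num) (qq vA2 vA1 vA0) (-1) qV_diag κ C' halt
  -- step 4
  obtain ⟨ρa, hρa⟩ := rat_first 4 2 (by norm_num) q0 q0_sum q0_chi (A' 0) a hA'r i
  have hCr : ∀ i, ∃ ρ : ℚ, symb 4 2 q0 ((-1 : ℚ) : ℝ) C i = ρ * κ := by
    intro i
    rcases i with _ | i
    · refine ⟨0, ?_⟩
      push_cast
      rw [hC10]
      simp
    · obtain ⟨ρ, hρ⟩ := hC'r i
      refine ⟨ρ, ?_⟩
      push_cast
      exact hρ
  obtain ⟨ρc, hρc⟩ := rat_diag 4 2 (by norm_num) q0 (-1) q0_diag κ C hCr (i + 7)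
  have hcC : C (i + 7) = c i := by simp [hCdef]
  -- step 5
  have hpi : 0 < Real.pi := Real.pi_pos
  have hspi : 0 < √Real.pi := Real.sqrt_pos.2 hpi
  have hs3 : 0 < √(3 : ℝ) := Real.sqrt_pos.2 (by norm_num)
  have hlead := hw.lead
  have hκval := kappa_val (√Real.pi * A' 0) (by
    have hu := uc_asymp
    -- `uc n √n / log n → 1/√π ≠ 0`
    have hne : ∀ᶠ n : ℕ in atTop, uc n ≠ 0 := by
      have : ∀ᶠ n : ℕ in atTop, 0 < uc n * √(n : ℝ) / Real.log n :=
        hu.eventually (eventually_gt_nhds (by positivity))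
      filter_upwards [this] with n hn hn0
      rw [hn0] at hn
      simp at hn
    rw [isLittleO_iff_tendsto' (hne.mono fun n hn h0 => absurd h0 hn)]
    have hq : Tendsto (fun n : ℕ => (√(n : ℝ) * (((PowerSeries.coeff n Vser : ℚ) : ℝ) / 4 ^ n) / Real.log n) /
        (uc n * √(n : ℝ) / Real.log n) - √Real.pi * A' 0) atTop
        (nhds (A' 0 / (1 / √Real.pi) - √Real.pi * A' 0)) :=
      (hlead.div hu (by positivity)).sub_const _
    have h0 : A' 0 / (1 / √Real.pi) - √Real.pi * A' 0 = 0 := by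
      field_simp
      ring
    rw [h0] at hq
    refine hq.congr' ?_
    filter_upwards [hne, eventually_gt_atTop 1] with n hn hn1
    have hlog0 : Real.log n ≠ 0 := by
      have : (1 : ℝ) < n := by exact_mod_cast hn1
      exact (Real.log_pos this).ne'
    have hsn : √(n : ℝ) ≠ 0 := by positivity
    field_simp)
  have hA0 : A' 0 = 27 / (32 * √3 * Real.pi) / √Real.pi := by
    rw [← hκval]
    field_simp
  refine ⟨⟨ρa * (27 / 32), ?_⟩, ⟨ρc, ?_⟩⟩
  · rw [hρa, hA0]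
    push_cast
    field_simp
  · rw [← hcC, hρc, hκ]
    field_simp

end Pool.Agent.Helper99.TC
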