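import Pool.Agent.Helper99.TC.GRel
import Pool.Agent.Helper99.TC.AlBe

/-!
# TC-23: `g` outside of [0, t]; sums of rows

`g_zero`: the families `be * g 0 s` and `al ^ |s|` both satisfy `f s = be * [s = 0] + X (2 f s + f (s-1) + f (s+1))` (for the second use `al_quad` and the definition of `be`), use `family_zero` for the difference. `g_left`, `g_right`: induction on `t` with `g_succ`, base `g_zero` (cancel `be`).

`rowsum_left`: put `A s = al * gs al (fun i => rho t (s + (i+1)) c)`. By `gs_succ`, `A (s - 1) = al * (rho t s c + A s)`. The right hand side `R s` (divided by 2) satisfies the same relation: `R (s-1) = al (2 rho t s c + R s)`: use `G_rec` at `s - 1` (for the components 0, 1) or `g_rec` at `s - 1` (components 2, 3) to eliminate the term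
with index `s - 2`, and `two_X_al`, `al_mul_be`. So the difference `E s` satisfies `E (s - 1) = al * E s` for all `s`, hence `X ^ N ∣ E s` for all `N`, `E = 0`. Similarly `rowsum_right`: `A s = al * gs al (fun i => rho t (s - (i+1)) c)` satisfies `A s = al (rho t (s-1) c + A (s - 1))`.
-/

set_option autoImplicit false

open PowerSeries

namespace Pool.Agent.Helper99.TC

private theorem cb_zero_zero : cb 0 0 = 1 := by
  simp [cb, bz]

private theorem cb_zero_of_ne (s : ℤ) (hs : s ≠ 0) : cb 0 s = 0 := by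
  rcases lt_or_gt_of_ne hs with h | h
  · simp [cb, bz_neg 0 s h]
  · have h' : ((0 : ℕ) : ℤ) < s := by simpa using h
    simp [cb, bz_big 0 s h']

private theorem al_pow_rec (s : ℤ) : al ^ s.natAbs = be * cb 0 s +
    X * (2 * al ^ s.natAbs + al ^ (s - 1).natAbs + al ^ (s + 1).natAbs) := by
  rcases lt_trichotomy s 0 with h | h | h
  · obtain ⟨n, rfl⟩ : ∃ n : ℕ, s = -((n : ℤ) + 1) := ⟨(-s - 1).toNat, by omega⟩
    have e1 : (-((n : ℤ) + 1)).natAbs = n + 1 := by omega
    have e2 : (-((n : ℤ) + 1) - 1).natAbs = n + 2 := by omega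
    have e3 : (-((n : ℤ) + 1) + 1).natAbs = n := by omega
    rw [e1, e2, e3, cb_zero_of_ne _ (by omega)]
    have h2 := al_eq
    linear_combination al ^ n * h2
  · subst h
    have e1 : (0 : ℤ).natAbs = 0 := rfl
    have e2 : ((0 : ℤ) - 1).natAbs = 1 := rfl
    have e3 : ((0 : ℤ) + 1).natAbs = 1 := rfl
    rw [e1, e2, e3, cb_zero_zero, be]
    ring
  · obtain ⟨n, rfl⟩ : ∃ n : ℕ, s = (n : ℤ) + 1 := ⟨(s - 1).toNat, by omega⟩
    have e1 : ((n : ℤ) + 1).natAbs = n + 1 := by omega
    have e2 : ((n : ℤ) + 1 - 1).natAbs = n := by omega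
    have e3 : ((n : ℤ) + 1 + 1).natAbs = n + 2 := by omega
    rw [e1, e2, e3, cb_zero_of_ne _ (by omega)]
    have h2 := al_eq
    linear_combination al ^ n * h2

private theorem Gam_rec (t : ℕ) (s : ℤ) (c : Fin 4) :
    Gam t s c = rho t s c + X * (2 * Gam t s c + Gam t (s - 1) c + Gam t (s + 1) c) := by
  have h0 := G_rec t s
  have h1 := G_rec t (s - 1)
  have h2 := g_rec t s
  have h3 := g_rec t (s - 1)
  have e : s - 1 + 1 = s + 1 - 1 := by ring
  rw [e] at h1 h3
  fin_cases c
  · simpa [Gam, rho] using h0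
  · simpa [Gam, rho] using h1
  · simpa [Gam, rho] using h2
  · simpa [Gam, rho] using h3

private theorem zero_of_left (E : ℤ → ℚ⟦X⟧) (h : ∀ s, E (s - 1) = al * E s) (s : ℤ) : E s = 0 := by
  refine family_zero E (fun N hN i => ?_) s
  have h1 := h (i + 1)
  rw [add_sub_cancel_right] at h1
  rw [h1, pow_succ']
  exact mul_dvd_mul X_dvd_al (hN _)

private theorem zero_of_right (E : ℤ → ℚ⟦X⟧) (h : ∀ s, E s = al * E (s - 1)) (s : ℤ) : E s = 0 := by
  refine family_zero E (fun N hN i => ?_) s
  rw [h i, pow_succ']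
  exact mul_dvd_mul X_dvd_al (hN _)

theorem g_zero (s : ℤ) : be * g 0 s = al ^ s.natAbs := by
  have key : (fun s : ℤ => be * g 0 s - al ^ s.natAbs) s = 0 := by
    refine family_zero (fun s : ℤ => be * g 0 s - al ^ s.natAbs) (fun N hN i => ?_) s
    have h1 := g_rec 0 i
    have h2 := al_pow_rec i
    have h3 : be * g 0 i - al ^ i.natAbs =
        X * (2 * (be * g 0 i - al ^ i.natAbs) + (be * g 0 (i - 1) - al ^ (i - 1).natAbs) +
          (be * g 0 (i + 1) - al ^ (i + 1).natAbs)) := by
      linear_combination be * h1 - h2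
    show X ^ (N + 1) ∣ be * g 0 i - al ^ i.natAbs
    rw [h3, pow_succ']
    refine mul_dvd_mul_left X (dvd_add (dvd_add (Dvd.dvd.mul_left (hN i) 2) (hN (i - 1))) (hN (i + 1)))
  exact sub_eq_zero.mp key

theorem g_left (t : ℕ) (s : ℤ) (hs : s ≤ 0) : g t (s - 1) = al * g t s := by
  induction t generalizing s with
  | zero =>
    apply mul_left_cancel₀ be_ne_zero
    have h1 := g_zero (s - 1)
    have h2 := g_zero s
    have e : (s - 1).natAbs = s.natAbs + 1 := by omega
    rw [e] at h1
    linear_combination h1 - al * h2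
  | succ t ih =>
    have h1 := g_succ t (s - 1)
    have h2 := g_succ t s
    have h3 := ih s hs
    have h4 := ih (s - 1) (by omega)
    linear_combination h1 - al * h2 + h3 + h4

theorem g_right (t : ℕ) (s : ℤ) (hs : (t : ℤ) ≤ s) : g t (s + 1) = al * g t s := by
  induction t generalizing s with
  | zero =>
    apply mul_left_cancel₀ be_ne_zero
    have h1 := g_zero (s + 1)
    have h2 := g_zero s
    have e : (s + 1).natAbs = s.natAbs + 1 := by
      simp at hs
      omega
    rw [e] at h1
    linear_combination h1 - al * h2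
  | succ t ih =>
    have h1 := g_succ t (s + 1)
    have h2 := g_succ t s
    have h3 := ih s (by push_cast at hs; omega)
    have h4 := ih (s - 1) (by push_cast at hs; omega)
    rw [sub_add_cancel] at h4
    rw [add_sub_cancel_right] at h1
    linear_combination h1 - al * h2 + h3 + h4

theorem rowsum_left (t : ℕ) (s : ℤ) (c : Fin 4) :
    2 * (al * gs al (fun i => rho t (s + (i + 1)) c)) =
      (be + 1 - 2 * X) * Gam t s c - 2 * X * Gam t (s - 1) c - 2 * rho t s c := by
  have key := zero_of_left (fun s : ℤ => 2 * (al * gs al (fun i => rho t (s + (i + 1)) c)) -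
      ((be + 1 - 2 * X) * Gam t s c - 2 * X * Gam t (s - 1) c - 2 * rho t s c)) ?_ s
  · exact sub_eq_zero.mp key
  · intro s
    have h1 : gs al (fun i : ℕ => rho t (s - 1 + (i + 1)) c) =
        rho t s c + al * gs al (fun i : ℕ => rho t (s + (i + 1)) c) := by
      rw [gs_succ al X_dvd_al]
      have e0 : s - 1 + (((0 : ℕ) : ℤ) + 1) = s := by simp
      have e1 : ∀ i : ℕ, s - 1 + (((i + 1 : ℕ) : ℤ) + 1) = s + ((i : ℤ) + 1) := by
        intro i
        push_cast
        ring
      simp only [e0, e1]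
    have h2 := Gam_rec t (s - 1) c
    rw [sub_add_cancel] at h2
    have h3 := two_X_al
    have h4 := al_mul_be
    show 2 * (al * gs al (fun i : ℕ => rho t (s - 1 + (i + 1)) c)) -
      ((be + 1 - 2 * X) * Gam t (s - 1) c - 2 * X * Gam t (s - 1 - 1) c - 2 * rho t (s - 1) c) =
      al * (2 * (al * gs al (fun i : ℕ => rho t (s + (i + 1)) c)) -
      ((be + 1 - 2 * X) * Gam t s c - 2 * X * Gam t (s - 1) c - 2 * rho t s c))
    rw [h1]
    linear_combination (-2) * h2 - Gam t (s - 1) c * h3 + Gam t s c * h4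

theorem rowsum_right (t : ℕ) (s : ℤ) (c : Fin 4) :
    2 * (al * gs al (fun i => rho t (s - (i + 1)) c)) =
      (be - 1 + 2 * X) * Gam t s c + 2 * X * Gam t (s - 1) c := by
  have key := zero_of_right (fun s : ℤ => 2 * (al * gs al (fun i => rho t (s - (i + 1)) c)) -
      ((be - 1 + 2 * X) * Gam t s c + 2 * X * Gam t (s - 1) c)) ?_ s
  · exact sub_eq_zero.mp key
  · intro s
    have h1 : gs al (fun i : ℕ => rho t (s - (i + 1)) c) =
        rho t (s - 1) c + al * gs al (fun i : ℕ => rho t (s - 1 - (i + 1)) c) := by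
      rw [gs_succ al X_dvd_al]
      have e0 : s - (((0 : ℕ) : ℤ) + 1) = s - 1 := by simp
      have e1 : ∀ i : ℕ, s - (((i + 1 : ℕ) : ℤ) + 1) = s - 1 - ((i : ℤ) + 1) := by
        intro i
        push_cast
        ring
      simp only [e0, e1]
    have h2 := Gam_rec t (s - 1) c
    rw [sub_add_cancel] at h2
    have h3 := two_X_al
    have h4 := al_mul_be
    show 2 * (al * gs al (fun i : ℕ => rho t (s - (i + 1)) c)) -
      ((be - 1 + 2 * X) * Gam t s c + 2 * X * Gam t (s - 1) c) =
      al * (2 * (al * gs al (fun i : ℕ => rho t (s - 1 - (i + 1)) c)) -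
      ((be - 1 + 2 * X) * Gam t (s - 1) c + 2 * X * Gam t (s - 1 - 1) c))
    rw [h1]
    linear_combination (-2) * al * h2 + Gam t (s - 1) c * h4 - Gam t s c * h3

end Pool.Agent.Helper99.TC
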