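import Pool.Agent.Helper99.TC.GExp

/-!
# TC-24: the four-walker function `H`

* `Dt t s y = 0` unless `s - y l ∈ [0, t + 1]` for some `l` (the last two columns vanish): finite support in `s`.
* `Dt_succ`: `∑ Dt t s (y + δ) = Dt (t+1) s y` over `δ ∈ {0,1}^4`: `rho (t+1) (s - y l) = rho t (s - y l) + rho t (s - y l - 1)` (`rho_succ`) and the determinant is multilinear in the rows.
* `H_eq_zero`: two equal rows. `H_shift`: shift the summation variable `s`.
* `W_rec`: by `gs_succ`, `H y = ∑ᶠ s, Dt 0 s y + X^2 ∑_δ H (y + δ)`. For `y 0 < y 1 < y 2 < y 3`: `Dt 0 s y`: the last two columns are `[s = y l]`, `[s - 1 = y l]`; a nonzero term needs `y l = s`, `y k = s - 1`, neighbours. If `{k, l} = {0, 1}` or `{2, 3}` the 2 × 2 minor of the other two rows in the columns `g`, `g₁`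
vanishes because both rows lie on the same side of `s` and `g 0 (σ - 1) / g 0 σ` is the same (`g_zero`: `be * g 0 σ = al ^ |σ|`). If `y 2 = y 1 + 1 = s`: with `n = y 3 - y 0` (natural, at least 3), `be^2 * Dt 0 s y = al ^ (n - 1) * (1 - al^2)` (rows 0 and 3: `be * g 0 (s - y 0) = al^(s - y 0)`, `be * g 0 (s - 1 - y 0) = al^(s - 1 - y 0)`,
`be * g 0 (s - y 3) = al^(y 3 - s)`, `be * g 0 (s - 1 - y 3) = al^(y 3 - s + 1)`; Laplace expansion: the columns 2, 3 of the rows 1, 2 have determinant -1). As `1 - al^2 = be (1 + al)^2` (`be_mul`): `be * Dt 0 s y = al^(n-1) (1 + al)^2`, and `X^2 be * (this sum) = X^2 al^(n-1) (1+al)^2 = X^2 ∑_{a, e} al^(n - a + e)`, which is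
exactly the contribution of the terms with `y 1 + 1 = y 2 + 0` of `Wt` on the right hand side (`H` vanishes there).
-/

set_option autoImplicit false

open PowerSeries

namespace Pool.Agent.Helper99.TC

/-- `x² β H`, corrected on the diagonal `y 1 = y 2` -/
noncomputable def Wt (y0 y1 y2 y3 : ℤ) : ℚ⟦X⟧ :=
  if y1 = y2 then al ^ (y3 - y0).toNat else X ^ 2 * be * H ![y0, y1, y2, y3]

theorem Dt_support (t : ℕ) (y : Fin 4 → ℤ) : (Function.support fun s => Dt t s y).Finite := by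
  refine Set.Finite.subset (Set.finite_iUnion (fun l : Fin 4 => Set.finite_Icc (y l) (y l + t + 1))) ?_
  intro s hs
  by_contra hno
  apply hs
  have h0 : ∀ l : Fin 4, s < y l ∨ y l + t + 1 < s := by
    intro l
    by_contra h1
    push Not at h1
    exact hno (Set.mem_iUnion.2 ⟨l, h1⟩)
  show Dt t s y = 0
  unfold Dt
  apply Matrix.det_eq_zero_of_column_eq_zero 2
  intro l
  show cb t (s - y l) = 0
  unfold cb
  rcases h0 l with h | h
  · rw [bz_neg t _ (by omega), map_zero]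
  · rw [bz_big t _ (by omega), map_zero]

/-- the determinant with four given rows -/
private noncomputable def D4 (a b c d : Fin 4 → ℚ⟦X⟧) : ℚ⟦X⟧ :=
  Matrix.det (Matrix.of ![a, b, c, d])

private theorem D4_eq (a b c d : Fin 4 → ℚ⟦X⟧) : D4 a b c d =
    a 0 * (b 1 * (c 2 * d 3 - c 3 * d 2) - b 2 * (c 1 * d 3 - c 3 * d 1) +
      b 3 * (c 1 * d 2 - c 2 * d 1)) -
    a 1 * (b 0 * (c 2 * d 3 - c 3 * d 2) - b 2 * (c 0 * d 3 - c 3 * d 0) +
      b 3 * (c 0 * d 2 - c 2 * d 0)) +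
    a 2 * (b 0 * (c 1 * d 3 - c 3 * d 1) - b 1 * (c 0 * d 3 - c 3 * d 0) +
      b 3 * (c 0 * d 1 - c 1 * d 0)) -
    a 3 * (b 0 * (c 1 * d 2 - c 2 * d 1) - b 1 * (c 0 * d 2 - c 2 * d 0) +
      b 2 * (c 0 * d 1 - c 1 * d 0)) := by
  unfold D4
  simp [Matrix.det_succ_row_zero, Fin.sum_univ_succ, Fin.succAbove, Matrix.submatrix]
  ring

private theorem Dt_eq_D4 (t : ℕ) (s y0 y1 y2 y3 : ℤ) : Dt t s ![y0, y1, y2, y3] =
    D4 (rho t (s - y0)) (rho t (s - y1)) (rho t (s - y2)) (rho t (s - y3)) := by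
  unfold Dt D4
  congr 1
  ext i j
  fin_cases i <;> rfl

theorem Dt_succ (t : ℕ) (s : ℤ) (y0 y1 y2 y3 : ℤ) :
    Dt (t + 1) s ![y0, y1, y2, y3] = ∑ a : Bool, ∑ b : Bool, ∑ c : Bool, ∑ e : Bool,
      Dt t s ![y0 + bit a, y1 + bit b, y2 + bit c, y3 + bit e] := by
  have hrow : ∀ y : ℤ, ∀ i, rho (t + 1) (s - y) i = rho t (s - y) i + rho t (s - (y + 1)) i := by
    intro y i
    have h1 : s - (y + 1) = s - y - 1 := by ring
    rw [rho_succ, Pi.add_apply, h1]
  simp only [Dt_eq_D4, Fintype.sum_bool, bit, if_true, Bool.false_eq_true, if_false, add_zero]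
  simp only [D4_eq, hrow]
  ring

theorem H_eq_zero (y : Fin 4 → ℤ) (k l : Fin 4) (hkl : k ≠ l) (h : y k = y l) : H y = 0 := by
  have h1 : ∀ t s, Dt t s y = 0 := by
    intro t s
    unfold Dt
    apply Matrix.det_zero_of_row_eq hkl
    show rho t (s - y k) = rho t (s - y l)
    rw [h]
  unfold H
  simp only [h1, finsum_zero]
  unfold gs
  ext n
  simp

theorem H_shift (y0 y1 y2 y3 c : ℤ) :
    H ![y0 + c, y1 + c, y2 + c, y3 + c] = H ![y0, y1, y2, y3] := by
  unfold H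
  congr 1
  funext t
  rw [← finsum_comp_equiv (Equiv.addRight c)]
  refine finsum_congr fun s => ?_
  rw [Dt_eq_D4, Dt_eq_D4]
  simp only [Equiv.coe_addRight]
  congr 2 <;> ring

private theorem cb_zero (s : ℤ) : cb 0 s = if s = 0 then 1 else 0 := by
  unfold cb
  by_cases h : s = 0
  · subst h
    simp [bz]
  · rw [if_neg h]
    rcases lt_or_gt_of_ne h with h1 | h1
    · rw [bz_neg 0 s h1, map_zero]
    · rw [bz_big 0 s (by simpa using h1), map_zero]

private theorem rho_0 (t : ℕ) (s : ℤ) : rho t s 0 = g t s := rfl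

private theorem rho_1 (t : ℕ) (s : ℤ) : rho t s 1 = g t (s - 1) := rfl

private theorem rho_2 (t : ℕ) (s : ℤ) : rho t s 2 = cb t s := rfl

private theorem rho_3 (t : ℕ) (s : ℤ) : rho t s 3 = cb t (s - 1) := rfl

private theorem cb_zero_zero : cb 0 0 = 1 := by
  rw [cb_zero, if_pos rfl]

private theorem cb_zero_ne {s : ℤ} (h : s ≠ 0) : cb 0 s = 0 := by
  rw [cb_zero, if_neg h]

private theorem g_right' {s : ℤ} (hs : 1 ≤ s) : g 0 s = al * g 0 (s - 1) := by
  have h := g_right 0 (s - 1) (by push_cast; omega)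
  rw [sub_add_cancel] at h
  exact h

private theorem Dt_zero_of {s y0 y1 y2 y3 : ℤ} (h0 : y0 < y1) (h1 : y1 < y2) (h2 : y2 < y3)
    (h : ¬ (y1 = s - 1 ∧ y2 = s)) : Dt 0 s ![y0, y1, y2, y3] = 0 := by
  by_cases hc : ∀ l : Fin 4, s - ![y0, y1, y2, y3] l ≠ 0
  · unfold Dt
    apply Matrix.det_eq_zero_of_column_eq_zero 2
    intro l
    exact cb_zero_ne (hc l)
  by_cases hd : ∀ l : Fin 4, s - ![y0, y1, y2, y3] l - 1 ≠ 0
  · unfold Dt
    apply Matrix.det_eq_zero_of_column_eq_zero 3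
    intro l
    exact cb_zero_ne (hd l)
  push Not at hc hd
  obtain ⟨l, hl⟩ := hc
  obtain ⟨k, hk⟩ := hd
  have key : (y0 = s - 1 ∧ y1 = s) ∨ (y2 = s - 1 ∧ y3 = s) := by
    have e0 : ![y0, y1, y2, y3] 0 = y0 := rfl
    have e1 : ![y0, y1, y2, y3] 1 = y1 := rfl
    have e2 : ![y0, y1, y2, y3] 2 = y2 := rfl
    have e3 : ![y0, y1, y2, y3] 3 = y3 := rfl
    have hl' : s = y0 ∨ s = y1 ∨ s = y2 ∨ s = y3 := by
      fin_cases l
      · left; rw [← e0]; simpa [sub_eq_zero] using hl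
      · right; left; rw [← e1]; simpa [sub_eq_zero] using hl
      · right; right; left; rw [← e2]; simpa [sub_eq_zero] using hl
      · right; right; right; rw [← e3]; simpa [sub_eq_zero] using hl
    have hk' : s - 1 = y0 ∨ s - 1 = y1 ∨ s - 1 = y2 ∨ s - 1 = y3 := by
      fin_cases k
      · left
        have : s - y0 - 1 = 0 := hk
        omega
      · right; left
        have : s - y1 - 1 = 0 := hk
        omega
      · right; right; left
        have : s - y2 - 1 = 0 := hk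
        omega
      · right; right; right
        have : s - y3 - 1 = 0 := hk
        omega
    omega
  rw [Dt_eq_D4, D4_eq]
  simp only [rho_0, rho_1, rho_2, rho_3]
  rcases key with ⟨k0, k1⟩ | ⟨k0, k1⟩
  · rw [cb_zero_ne (s := s - y0) (by omega), cb_zero_ne (s := s - y1 - 1) (by omega),
      cb_zero_ne (s := s - y2) (by omega), cb_zero_ne (s := s - y2 - 1) (by omega),
      cb_zero_ne (s := s - y3) (by omega), cb_zero_ne (s := s - y3 - 1) (by omega),
      g_left 0 (s - y2) (by omega), g_left 0 (s - y3) (by omega)]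
    ring
  · rw [cb_zero_ne (s := s - y0) (by omega), cb_zero_ne (s := s - y0 - 1) (by omega),
      cb_zero_ne (s := s - y1) (by omega), cb_zero_ne (s := s - y1 - 1) (by omega),
      cb_zero_ne (s := s - y2) (by omega), cb_zero_ne (s := s - y3 - 1) (by omega),
      g_right' (s := s - y0) (by omega), g_right' (s := s - y1) (by omega)]
    ring

private theorem Dt_zero_mid {y0 y1 y2 y3 : ℤ} (h0 : y0 < y1) (h1 : y2 = y1 + 1) (h2 : y2 < y3) :
    be * Dt 0 y2 ![y0, y1, y2, y3] = al ^ (y3 - y0 - 1).toNat * (1 + al) ^ 2 := by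
  have e1 : Dt 0 y2 ![y0, y1, y2, y3] =
      (1 - al ^ 2) * (g 0 (y2 - y0 - 1) * g 0 (y2 - y3)) := by
    rw [Dt_eq_D4, D4_eq]
    simp only [rho_0, rho_1, rho_2, rho_3]
    have a1 : y2 - y1 - 1 = 0 := by omega
    have a2 : y2 - y2 = 0 := by omega
    rw [cb_zero_ne (s := y2 - y0) (by omega), cb_zero_ne (s := y2 - y0 - 1) (by omega),
      cb_zero_ne (s := y2 - y1) (by omega), cb_zero_ne (s := y2 - y2 - 1) (by omega),
      cb_zero_ne (s := y2 - y3) (by omega), cb_zero_ne (s := y2 - y3 - 1) (by omega),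
      g_right' (s := y2 - y0) (by omega), g_left 0 (y2 - y3) (by omega), a1, a2, cb_zero_zero]
    ring
  have e2 : be * g 0 (y2 - y0 - 1) = al ^ (y2 - y0 - 1).natAbs := g_zero _
  have e3 : be * g 0 (y2 - y3) = al ^ (y2 - y3).natAbs := g_zero _
  have e4 : (y3 - y0 - 1).toNat = (y2 - y0 - 1).natAbs + (y2 - y3).natAbs := by omega
  have e5 : be * (be * Dt 0 y2 ![y0, y1, y2, y3]) =
      be * (al ^ (y3 - y0 - 1).toNat * (1 + al) ^ 2) := by
    rw [e1, e4, pow_add, ← e2, ← e3]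
    have e6 := be_mul
    linear_combination (-(be * g 0 (y2 - y0 - 1) * (be * g 0 (y2 - y3)) * (1 + al))) * e6
  exact mul_left_cancel₀ be_ne_zero e5

private theorem H_succ (y0 y1 y2 y3 : ℤ) : H ![y0, y1, y2, y3] =
    (∑ᶠ s : ℤ, Dt 0 s ![y0, y1, y2, y3]) + X ^ 2 * ∑ a : Bool, ∑ b : Bool, ∑ c : Bool,
      ∑ e : Bool, H ![y0 + bit a, y1 + bit b, y2 + bit c, y3 + bit e] := by
  have h1 : H ![y0, y1, y2, y3] = (∑ᶠ s : ℤ, Dt 0 s ![y0, y1, y2, y3]) +
      X ^ 2 * gs (X ^ 2) (fun t => ∑ᶠ s : ℤ, Dt (t + 1) s ![y0, y1, y2, y3]) :=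
    gs_succ (X ^ 2) (dvd_pow_self X two_ne_zero) _
  rw [h1]
  congr 2
  have h2 : (fun t => ∑ᶠ s : ℤ, Dt (t + 1) s ![y0, y1, y2, y3]) =
      fun t => ∑ a : Bool, ∑ b : Bool, ∑ c : Bool, ∑ e : Bool,
        ∑ᶠ s : ℤ, Dt t s ![y0 + bit a, y1 + bit b, y2 + bit c, y3 + bit e] := by
    funext t
    have h3 : ∀ δ : Bool × Bool × Bool × Bool, (Function.support fun s =>
        Dt t s ![y0 + bit δ.1, y1 + bit δ.2.1, y2 + bit δ.2.2.1, y3 + bit δ.2.2.2]).Finite :=
      fun δ => Dt_support t _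
    have h4 := finsum_sum_comm (Finset.univ : Finset (Bool × Bool × Bool × Bool))
      (fun s δ => Dt t s ![y0 + bit δ.1, y1 + bit δ.2.1, y2 + bit δ.2.2.1, y3 + bit δ.2.2.2])
      (fun δ _ => h3 δ)
    simp only [Fintype.sum_prod_type] at h4
    rw [← h4]
    refine finsum_congr fun s => ?_
    exact Dt_succ t s y0 y1 y2 y3
  rw [h2]
  simp only [gs_sum]
  rfl

theorem W_rec (y0 y1 y2 y3 : ℤ) (h0 : y0 < y1) (h1 : y1 < y2) (h2 : y2 < y3) :
    X ^ 2 * be * H ![y0, y1, y2, y3] = X ^ 2 * ∑ a : Bool, ∑ b : Bool, ∑ c : Bool, ∑ e : Bool,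
      Wt (y0 + bit a) (y1 + bit b) (y2 + bit c) (y3 + bit e) := by
  rw [H_succ]
  by_cases h : y2 = y1 + 1
  · have e1 : (∑ᶠ s : ℤ, Dt 0 s ![y0, y1, y2, y3]) = Dt 0 y2 ![y0, y1, y2, y3] := by
      refine finsum_eq_single _ _ fun s hs => ?_
      exact Dt_zero_of h0 h1 h2 (fun h3 => hs h3.2.symm)
    rw [e1]
    have e2 := Dt_zero_mid h0 h h2
    have e3 : ∀ a e : ℤ, H ![a, y1 + 1, y2, e] = 0 := fun a e =>
      H_eq_zero _ 1 2 (by decide) (by show y1 + 1 = y2; exact h.symm)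
    have n1 : ∀ u v : ℤ, Wt u y1 (y2 + 1) v = X ^ 2 * be * H ![u, y1, y2 + 1, v] := by
      intro u v
      rw [Wt, if_neg (by omega)]
    have n2 : ∀ u v : ℤ, Wt u y1 y2 v = X ^ 2 * be * H ![u, y1, y2, v] := by
      intro u v
      rw [Wt, if_neg (by omega)]
    have n3 : ∀ u v : ℤ, Wt u (y1 + 1) (y2 + 1) v =
        X ^ 2 * be * H ![u, y1 + 1, y2 + 1, v] := by
      intro u v
      rw [Wt, if_neg (by omega)]
    have n4 : ∀ u v : ℤ, Wt u (y1 + 1) y2 v = al ^ (v - u).toNat := by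
      intro u v
      rw [Wt, if_pos (by omega)]
    obtain ⟨n, hn⟩ : ∃ n : ℕ, y3 = y0 + 1 + n := ⟨(y3 - y0 - 1).toNat, by omega⟩
    have p0 : (y3 - y0 - 1).toNat = n := by omega
    have p1 : (y3 - y0).toNat = n + 1 := by omega
    have p2 : (y3 + 1 - (y0 + 1)).toNat = n + 1 := by omega
    have p3 : (y3 + 1 - y0).toNat = n + 2 := by omega
    have p4 : (y3 - (y0 + 1)).toNat = n := by omega
    simp only [Fintype.sum_bool, bit, if_true, Bool.false_eq_true, if_false, add_zero, n1, n2,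
      n3, n4, e3, p1, p2, p3, p4]
    rw [p0] at e2
    linear_combination X ^ 2 * e2
  · have e1 : (∑ᶠ s : ℤ, Dt 0 s ![y0, y1, y2, y3]) = 0 := by
      refine finsum_eq_zero_of_forall_eq_zero fun s => ?_
      exact Dt_zero_of h0 h1 h2 (fun h3 => h (by omega))
    rw [e1]
    have n1 : ∀ a b c e : Bool, Wt (y0 + bit a) (y1 + bit b) (y2 + bit c) (y3 + bit e) =
        X ^ 2 * be * H ![y0 + bit a, y1 + bit b, y2 + bit c, y3 + bit e] := by
      intro a b c e
      rw [Wt, if_neg]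
      cases b <;> cases c <;> simp only [bit, if_true, Bool.false_eq_true, if_false] <;> omega
    simp only [n1, Fintype.sum_bool]
    ring

end Pool.Agent.Helper99.TC
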