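import Pool.Agent.Helper99.TC.Words

/-!
# TC-10: the inductive predicates `Pair` and `Quad` in terms of the distances at all times

Proof: induction on the lists, generalising the distances. For `Quad`: as long as none of the outer pairs has met all four lists are nonempty (a distance which is positive changes by -1, 0 or 1, so it does not jump over 0);
when the left pair has met (`u1 = u2 = []`, `d1 = 0`) what remains is `Pair d3 u3 u4`, and in the right hand side the conditions on `d2` are void since `min = 0`; the same on the right.
-/

set_option autoImplicit false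

namespace Pool.Agent.Helper99.TC

private theorem cnt_nil : cnt [] = 0 := by simp [cnt]

private theorem cnt_cons (a : Bool) (u : List Bool) : cnt (a :: u) = bit a + cnt u := by
  simp [cnt]

private theorem forall_lt_succ (n : ℕ) (P : ℕ → Prop) :
    (∀ k < n + 1, P k) ↔ P 0 ∧ ∀ k < n, P (k + 1) := by
  constructor
  · intro h
    exact ⟨h 0 (by omega), fun k hk => h (k + 1) (by omega)⟩
  · rintro ⟨h0, h⟩ k hk
    cases k with
    | zero => exact h0
    | succ k => exact h k (by omega)

theorem pair_iff (d : ℤ) (u v : List Bool) : Pair d u v ↔ u.length = v.length ∧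
    (∀ k < u.length, 0 < d - cnt (u.take k) + cnt (v.take k)) ∧ d - cnt u + cnt v = 0 := by
  induction u generalizing d v with
  | nil =>
    cases v with
    | nil => simp [Pair, cnt_nil]
    | cons b v => simp [Pair]
  | cons a u ih =>
    cases v with
    | nil => simp [Pair]
    | cons b v =>
      have e1 : Pair d (a :: u) (b :: v) ↔ 0 < d ∧ Pair (d - bit a + bit b) u v := by
        simp [Pair]
      rw [e1, ih, List.length_cons, List.length_cons, forall_lt_succ]
      simp only [List.take_succ_cons, List.take_zero, cnt_cons, cnt_nil]
      constructor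
      · rintro ⟨h0, h1, h2, h3⟩
        refine ⟨by omega, ⟨by omega, fun k hk => ?_⟩, by omega⟩
        have := h2 k hk
        omega
      · rintro ⟨h1, ⟨h0, h2⟩, h3⟩
        refine ⟨by omega, by omega, fun k hk => ?_, by omega⟩
        have := h2 k hk
        omega

theorem quad_iff (d1 d2 d3 : ℤ) (u1 u2 u3 u4 : List Bool) : Quad d1 d2 d3 u1 u2 u3 u4 ↔
    u1.length = u2.length ∧ u3.length = u4.length ∧
    (∀ k < u1.length, 0 < d1 - cnt (u1.take k) + cnt (u2.take k)) ∧ d1 - cnt u1 + cnt u2 = 0 ∧
    (∀ k < u3.length, 0 < d3 - cnt (u3.take k) + cnt (u4.take k)) ∧ d3 - cnt u3 + cnt u4 = 0 ∧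
    (∀ k < min u1.length u3.length, 0 < d2 - cnt (u2.take k) + cnt (u3.take k)) := by
  induction u1 generalizing d1 d2 d3 u2 u3 u4 with
  | nil =>
    cases u2 with
    | nil =>
      have e1 : Quad d1 d2 d3 [] [] u3 u4 ↔ d1 = 0 ∧ Pair d3 u3 u4 := by simp [Quad]
      rw [e1, pair_iff]
      simp only [List.length_nil, Nat.zero_min, cnt_nil, true_and, Nat.not_lt_zero,
        IsEmpty.forall_iff, implies_true, and_true]
      constructor
      · rintro ⟨h0, h1, h2, h3⟩
        exact ⟨h1, by omega, h2, h3⟩
      · rintro ⟨h1, h0, h2, h3⟩
        exact ⟨by omega, h1, h2, h3⟩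
    | cons b u2 => simp [Quad]
  | cons a u1 ih =>
    cases u2 with
    | nil => simp [Quad]
    | cons b u2 =>
      cases u3 with
      | nil =>
        cases u4 with
        | nil =>
          have e1 : Quad d1 d2 d3 (a :: u1) (b :: u2) [] [] ↔
              d3 = 0 ∧ Pair d1 (a :: u1) (b :: u2) := by simp [Quad]
          rw [e1, pair_iff]
          simp only [List.length_nil, Nat.min_zero, cnt_nil, true_and, Nat.not_lt_zero,
            IsEmpty.forall_iff, implies_true, and_true]
          constructor
          · rintro ⟨h0, h1, h2, h3⟩
            exact ⟨h1, h2, h3, by omega⟩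
          · rintro ⟨h1, h2, h3, h0⟩
            exact ⟨by omega, h1, h2, h3⟩
        | cons e u4 => simp [Quad]
      | cons c u3 =>
        cases u4 with
        | nil => simp [Quad]
        | cons e u4 =>
          have e1 : Quad d1 d2 d3 (a :: u1) (b :: u2) (c :: u3) (e :: u4) ↔
              0 < d1 ∧ 0 < d2 ∧ 0 < d3 ∧
              Quad (d1 - bit a + bit b) (d2 - bit b + bit c) (d3 - bit c + bit e) u1 u2 u3 u4 := by
            simp [Quad]
          have e2 : min (u1.length + 1) (u3.length + 1) = min u1.length u3.length + 1 := by omega
          rw [e1, ih]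
          simp only [List.length_cons]
          rw [e2, forall_lt_succ, forall_lt_succ, forall_lt_succ]
          simp only [List.take_succ_cons, List.take_zero, cnt_cons, cnt_nil]
          constructor
          · rintro ⟨h1, h2, h3, h4, h5, h6, h7, h8, h9, h10⟩
            refine ⟨by omega, by omega, ⟨by omega, fun k hk => ?_⟩, by omega,
              ⟨by omega, fun k hk => ?_⟩, by omega, ⟨by omega, fun k hk => ?_⟩⟩
            · have := h6 k hk
              omega
            · have := h8 k hk
              omega
            · have := h10 k hk
              omega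
          · rintro ⟨h4, h5, ⟨h1, h6⟩, h7, ⟨h3, h8⟩, h9, ⟨h2, h10⟩⟩
            refine ⟨by omega, by omega, by omega, by omega, by omega, fun k hk => ?_, by omega,
              fun k hk => ?_, by omega, fun k hk => ?_⟩
            · have := h6 k hk
              omega
            · have := h8 k hk
              omega
            · have := h10 k hk
              omega

end Pool.Agent.Helper99.TC
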