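import Pool.Agent.Helper99.TC.Blocks
import Pool.Agent.Helper99.TC.PQIff

/-!
# TC-13: `LUData` gives a three-choice polygon

Proof. With `pair_iff`, `quad_iff` translate into strands (see TC-12): A = false :: u2 from the root (0, 0), D = true :: u3 from the root, B = r2.reverse ++ p :: u1 and C = r1.reverse ++ q :: u4 from a common vertex at level `-l`, `l = |r1| = |r2| ≥ 1` (as `i + j ≥ 2` the pair does not end at once).
At every level: B < A < D < C where they exist, except for the common end points (A = D at level 0, A = B at the top of these two, C = D at their top, B = C at level `-l`). Between the levels 0 and 1: B moves from `-i` to `-i + bit p`, C from `j` to `j + bit q`.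
Closedness: sum of the displacements (`pos_append_right`, `pos_ne`, `pos_sw`). Injectivity: two equal vertices are at the same level; go through the pairs of blocks. Chain condition: inside blocks all steps are in {U, R} or in {L, D}; at the top of A and B: A ends with U and B ends with R (their distance just before is 1 and becomes 0;
if `u2 = []` then A = [false] and the first clause is the same), so U is followed by L; at the bottom: B begins with U, C begins with R, so D is followed by R; at the top of C and D: C ends with U, D ends with R (as a path upwards), so U is followed by L.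
The middle condition of `quad_iff` covers the levels up to `min`; at the level where the lower of the two pairs has met, the inner strand has made a step U (a) or R (d), so A < D still holds there.
-/

set_option autoImplicit false

namespace Pool.Agent.Helper99.TC

private theorem cnt_nil' : cnt [] = 0 := by simp [cnt]

private theorem cnt_cons' (a : Bool) (u : List Bool) : cnt (a :: u) = bit a + cnt u := by
  simp [cnt]

private theorem cnt_append' (u v : List Bool) : cnt (u ++ v) = cnt u + cnt v := by
  simp [cnt]

private theorem cnt_reverse' (u : List Bool) : cnt u.reverse = cnt u := by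
  induction u with
  | nil => rfl
  | cons b u ih =>
    rw [List.reverse_cons, cnt_append', ih, cnt_cons', cnt_cons', cnt_nil']
    ring

private theorem bit_bd (b : Bool) : 0 ≤ bit b ∧ bit b ≤ 1 := by
  cases b <;> simp [bit]

private theorem cnt_take_succ_bd (u : List Bool) (k : ℕ) :
    cnt (u.take k) ≤ cnt (u.take (k + 1)) ∧ cnt (u.take (k + 1)) ≤ cnt (u.take k) + 1 := by
  induction u generalizing k with
  | nil => simp [cnt_nil']
  | cons b u ih =>
    cases k with
    | zero =>
      have := bit_bd b
      simp only [List.take_succ_cons, List.take_zero, cnt_cons', cnt_nil']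
      omega
    | succ k =>
      have := ih k
      simp only [List.take_succ_cons, cnt_cons']
      omega

private theorem cnt_take_reverse (r : List Bool) (k : ℕ) :
    cnt (r.reverse.take k) = cnt r - cnt (r.take (r.length - k)) := by
  have h1 : cnt r = cnt (r.take (r.length - k)) + cnt (r.drop (r.length - k)) := by
    rw [← cnt_append', List.take_append_drop]
  rw [List.take_reverse, cnt_reverse', h1]
  ring

private theorem pair_last (d : ℤ) (a b : Bool) (u v : List Bool) (h : Pair d (a :: u) (b :: v)) :
    (a :: u).getLast? = some true ∧ (b :: v).getLast? = some false := by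
  induction u generalizing d a b v with
  | nil =>
    cases v with
    | nil =>
      simp only [Pair] at h
      obtain ⟨h1, h2⟩ := h
      cases a <;> cases b <;> simp [bit] at h2 ⊢ <;> omega
    | cons b' v => simp [Pair] at h
  | cons a' u ih =>
    cases v with
    | nil => simp [Pair] at h
    | cons b' v =>
      have h1 : Pair (d - bit a + bit b) (a' :: u) (b' :: v) := by
        unfold Pair at h
        exact h.2
      have := ih _ _ _ _ h1
      rw [List.getLast?_cons_cons, List.getLast?_cons_cons]
      exact this

private theorem chain_ne (u : List Bool) : (ne u).IsChain Step.Next := by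
  induction u with
  | nil => simp [ne]
  | cons a u ih =>
    cases u with
    | nil => simp [ne]
    | cons b u =>
      have h1 : ne (a :: b :: u) = (if a then Step.R else Step.U) ::
        (if b then Step.R else Step.U) :: ne u := rfl
      have h2 : ne (b :: u) = (if b then Step.R else Step.U) :: ne u := rfl
      rw [h1, List.isChain_cons_cons, ← h2]
      refine ⟨?_, ih⟩
      cases a <;> cases b <;> simp [Step.Next]

private theorem chain_dn (u : List Bool) :
    (u.map (fun b => if b then Step.L else Step.D)).IsChain Step.Next := by
  induction u with
  | nil => simp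
  | cons a u ih =>
    cases u with
    | nil => simp
    | cons b u =>
      rw [List.map_cons] at ih
      rw [List.map_cons, List.map_cons, List.isChain_cons_cons]
      refine ⟨?_, ih⟩
      cases a <;> cases b <;> simp [Step.Next]

private theorem chain_sw (u : List Bool) : (sw u).IsChain Step.Next := chain_dn _

private theorem ne_getLast (u : List Bool) (b : Bool) (h : u.getLast? = some b) :
    (ne u).getLast? = some (if b then Step.R else Step.U) := by
  unfold ne
  rw [List.getLast?_map, h]
  rfl

private theorem ne_head (u : List Bool) (b : Bool) (h : u.head? = some b) :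
    (ne u).head? = some (if b then Step.R else Step.U) := by
  unfold ne
  rw [List.head?_map, h]
  rfl

private theorem sw_getLast (u : List Bool) (b : Bool) (h : u.head? = some b) :
    (sw u).getLast? = some (if b then Step.L else Step.D) := by
  unfold sw
  rw [List.getLast?_map, List.getLast?_reverse, h]
  rfl

private theorem sw_head (u : List Bool) (b : Bool) (h : u.getLast? = some b) :
    (sw u).head? = some (if b then Step.L else Step.D) := by
  unfold sw
  rw [List.head?_map, List.head?_reverse, h]
  rfl

private theorem chain_append {v w : List Step} {s t : Step} (hv : v.IsChain Step.Next)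
    (hw : w.IsChain Step.Next) (h1 : v.getLast? = some s) (h2 : w.head? = some t)
    (h : Step.Next s t) : (v ++ w).IsChain Step.Next := by
  rw [List.isChain_append]
  refine ⟨hv, hw, ?_⟩
  intro x hx y hy
  rw [h1] at hx
  rw [h2] at hy
  simp only [Option.mem_def, Option.some.injEq] at hx hy
  rw [← hx, ← hy]
  exact h

private theorem getLast_append {α : Type} (v w : List α) (b : α) (h : w.getLast? = some b) :
    (v ++ w).getLast? = some b := by
  rw [List.getLast?_append, h]
  rfl

private theorem head_append {α : Type} (v w : List α) (b : α) (h : v.head? = some b) :
    (v ++ w).head? = some b := by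
  rw [List.head?_append, h]
  rfl

/-- positions along the word, in terms of the strands -/
private theorem pos_word (A B C D : List Bool) (s : ℕ)
    (hs : s < (ne A ++ sw B ++ ne C ++ sw D).length) :
    (∃ k, k < A.length ∧ s = k ∧
      pos (ne A ++ sw B ++ ne C ++ sw D) s = (cnt (A.take k), (k : ℤ) - cnt (A.take k))) ∨
    (∃ k, 0 < k ∧ k ≤ B.length ∧ s + k = A.length + B.length ∧
      pos (ne A ++ sw B ++ ne C ++ sw D) s = (cnt A - cnt B + cnt (B.take k),
        ((A.length : ℤ) - B.length + k) - (cnt A - cnt B + cnt (B.take k)))) ∨
    (∃ k, k < C.length ∧ s = A.length + B.length + k ∧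
      pos (ne A ++ sw B ++ ne C ++ sw D) s = (cnt A - cnt B + cnt (C.take k),
        ((A.length : ℤ) - B.length + k) - (cnt A - cnt B + cnt (C.take k)))) ∨
    (∃ k, 0 < k ∧ k ≤ D.length ∧ s + k = A.length + B.length + C.length + D.length ∧
      pos (ne A ++ sw B ++ ne C ++ sw D) s = (cnt A - cnt B + cnt C - cnt D + cnt (D.take k),
        ((A.length : ℤ) - B.length + C.length - D.length + k) -
          (cnt A - cnt B + cnt C - cnt D + cnt (D.take k)))) := by
  have lA := ne_length A
  have lB := sw_length B
  have lC := ne_length C
  have lD := sw_length D
  have hs' : s < A.length + B.length + C.length + D.length := by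
    rw [List.length_append, List.length_append, List.length_append, lA, lB, lC, lD] at hs
    exact hs
  have pA : pos (ne A) A.length = (cnt A, (A.length : ℤ) - cnt A) := by
    rw [pos_ne A A.length le_rfl, List.take_length]
  have pB : pos (sw B) B.length = (- cnt B, cnt B - (B.length : ℤ)) := by
    rw [pos_sw B B.length le_rfl, Nat.sub_self, List.take_zero, cnt_nil']
    ext <;> simp
  have pC : pos (ne C) C.length = (cnt C, (C.length : ℤ) - cnt C) := by
    rw [pos_ne C C.length le_rfl, List.take_length]
  have pAB : pos (ne A ++ sw B) (A.length + B.length) =
      (cnt A - cnt B, ((A.length : ℤ) - B.length) - (cnt A - cnt B)) := by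
    have h := pos_append_right (ne A) (sw B) B.length
    rw [lA, pA, pB] at h
    rw [h]
    ext
    · simp only [Prod.fst_add]; ring
    · simp only [Prod.snd_add]; ring
  have pABC : pos (ne A ++ sw B ++ ne C) (A.length + B.length + C.length) =
      (cnt A - cnt B + cnt C,
        ((A.length : ℤ) - B.length + C.length) - (cnt A - cnt B + cnt C)) := by
    have h := pos_append_right (ne A ++ sw B) (ne C) C.length
    rw [List.length_append, lA, lB, pAB, pC] at h
    rw [h]
    ext
    · simp only [Prod.fst_add]
    · simp only [Prod.snd_add]; ring
  rcases Nat.lt_or_ge s A.length with h1 | h1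
  · left
    refine ⟨s, h1, rfl, ?_⟩
    rw [pos_append_left _ _ _ (by simp only [List.length_append, lA, lB, lC]; omega),
      pos_append_left _ _ _ (by simp only [List.length_append, lA, lB]; omega),
      pos_append_left _ _ _ (by simp only [lA]; omega), pos_ne A s (by omega)]
  · right
    rcases Nat.lt_or_ge s (A.length + B.length) with h2 | h2
    · left
      refine ⟨A.length + B.length - s, by omega, by omega, by omega, ?_⟩
      rw [pos_append_left _ _ _ (by simp only [List.length_append, lA, lB, lC]; omega),
        pos_append_left _ _ _ (by simp only [List.length_append, lA, lB]; omega)]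
      have h := pos_append_right (ne A) (sw B) (s - A.length)
      have e1 : (ne A).length + (s - A.length) = s := by rw [lA]; omega
      have e2 : B.length - (s - A.length) = A.length + B.length - s := by omega
      have e3 : ((s - A.length : ℕ) : ℤ) = (s : ℤ) - A.length := by omega
      have e4 : ((A.length + B.length - s : ℕ) : ℤ) = (A.length : ℤ) + B.length - s := by omega
      rw [e1, lA, pA, pos_sw B _ (by omega), e2, e3] at h
      rw [h, e4]
      ext
      · simp only [Prod.fst_add]; ring
      · simp only [Prod.snd_add]; ring
    · right
      rcases Nat.lt_or_ge s (A.length + B.length + C.length) with h3 | h3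
      · left
        refine ⟨s - (A.length + B.length), by omega, by omega, ?_⟩
        rw [pos_append_left _ _ _ (by simp only [List.length_append, lA, lB, lC]; omega)]
        have h := pos_append_right (ne A ++ sw B) (ne C) (s - (A.length + B.length))
        have e1 : (ne A ++ sw B).length + (s - (A.length + B.length)) = s := by
          rw [List.length_append, lA, lB]; omega
        rw [e1, List.length_append, lA, lB, pAB, pos_ne C _ (by omega)] at h
        rw [h]
        ext
        · simp only [Prod.fst_add]
        · simp only [Prod.snd_add]; ring
      · right
        refine ⟨A.length + B.length + C.length + D.length - s, by omega, by omega, by omega, ?_⟩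
        have h := pos_append_right (ne A ++ sw B ++ ne C) (sw D)
          (s - (A.length + B.length + C.length))
        have e1 : (ne A ++ sw B ++ ne C).length + (s - (A.length + B.length + C.length)) = s := by
          rw [List.length_append, List.length_append, lA, lB, lC]; omega
        have e2 : D.length - (s - (A.length + B.length + C.length)) =
          A.length + B.length + C.length + D.length - s := by omega
        have e3 : ((s - (A.length + B.length + C.length) : ℕ) : ℤ) =
          (s : ℤ) - (A.length + B.length + C.length) := by omega
        have e4 : ((A.length + B.length + C.length + D.length - s : ℕ) : ℤ) =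
          (A.length : ℤ) + B.length + C.length + D.length - s := by omega
        rw [e1, List.length_append, List.length_append, lA, lB, lC, pABC,
          pos_sw D _ (by omega), e2, e3] at h
        rw [h, e4]
        ext
        · simp only [Prod.fst_add]; ring
        · simp only [Prod.snd_add]; ring

/-- the end of the word -/
private theorem pos_end (A B C D : List Bool) :
    pos (ne A ++ sw B ++ ne C ++ sw D) (ne A ++ sw B ++ ne C ++ sw D).length =
      (cnt A - cnt B + cnt C - cnt D,
        ((A.length : ℤ) - B.length + C.length - D.length) -
          (cnt A - cnt B + cnt C - cnt D)) := by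
  have lA := ne_length A
  have lB := sw_length B
  have lC := ne_length C
  have lD := sw_length D
  have pA : pos (ne A) (ne A).length = (cnt A, (A.length : ℤ) - cnt A) := by
    rw [lA, pos_ne A A.length le_rfl, List.take_length]
  have pB : pos (sw B) (sw B).length = (- cnt B, cnt B - (B.length : ℤ)) := by
    rw [lB, pos_sw B B.length le_rfl, Nat.sub_self, List.take_zero, cnt_nil']
    ext <;> simp
  have pC : pos (ne C) (ne C).length = (cnt C, (C.length : ℤ) - cnt C) := by
    rw [lC, pos_ne C C.length le_rfl, List.take_length]
  have pD : pos (sw D) (sw D).length = (- cnt D, cnt D - (D.length : ℤ)) := by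
    rw [lD, pos_sw D D.length le_rfl, Nat.sub_self, List.take_zero, cnt_nil']
    ext <;> simp
  rw [List.length_append (as := ne A ++ sw B ++ ne C), pos_append_right,
    List.length_append (as := ne A ++ sw B), pos_append_right,
    List.length_append (as := ne A), pos_append_right, pA, pB, pC, pD]
  ext
  · simp only [Prod.fst_add]; ring
  · simp only [Prod.snd_add]; ring

private theorem cnt_take_rev_append (r u : List Bool) (k : ℕ) :
    cnt ((r.reverse ++ u).take (r.length + k)) = cnt r + cnt (u.take k) := by
  have h : r.length = r.reverse.length := by simp
  rw [List.take_append, cnt_append', List.take_of_length_le (by rw [← h]; omega), cnt_reverse',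
    ← h, Nat.add_sub_cancel_left]

private theorem cnt_take_rev_append' (r u : List Bool) (k : ℕ) (hk : k ≤ r.length) :
    cnt ((r.reverse ++ u).take k) = cnt r - cnt (r.take (r.length - k)) := by
  rw [List.take_append_of_le_length (by simpa using hk), cnt_take_reverse r k]

theorem lu_backward {i j : ℕ} {r1 r2 : List Bool} {p q : Bool} {u1 u2 u3 u4 : List Bool}
    (H : LUData i j r1 r2 p q u1 u2 u3 u4) :
    IsTCP (luWord r1 r2 p q u1 u2 u3 u4) ∧
    (luWord r1 r2 p q u1 u2 u3 u4).length = 2 * (r1.length + 2 + u1.length + u3.length) ∧
    (luWord r1 r2 p q u1 u2 u3 u4).head? = some Step.U ∧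
    (luWord r1 r2 p q u1 u2 u3 u4).getLast? = some Step.L := by
  obtain ⟨hi, hj, h3, h4⟩ := H
  have h3' := (pair_iff _ _ _).1 h3
  have h4' := (quad_iff _ _ _ _ _ _ _).1 h4
  obtain ⟨l12, p3, e3⟩ := h3'
  obtain ⟨l1, l3, q1, f1, q3, f3, q2⟩ := h4'
  have P1 : Pair (i : ℤ) (p :: u1) (false :: u2) := by
    rw [pair_iff]
    refine ⟨by simp [l1], ?_, ?_⟩
    · intro k hk
      cases k with
      | zero => simp only [List.take_zero, cnt_nil']; omega
      | succ k =>
        simp only [List.length_cons] at hk
        have := q1 k (by omega)
        simp only [List.take_succ_cons, cnt_cons']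
        have hb : bit false = 0 := rfl
        rw [hb]
        omega
    · rw [cnt_cons', cnt_cons']
      have hb : bit false = 0 := rfl
      rw [hb]
      omega
  have P2 : Pair (j : ℤ) (true :: u3) (q :: u4) := by
    rw [pair_iff]
    have hb : bit true = 1 := rfl
    refine ⟨by simp [l3], ?_, ?_⟩
    · intro k hk
      cases k with
      | zero => simp only [List.take_zero, cnt_nil']; omega
      | succ k =>
        simp only [List.length_cons] at hk
        have := q3 k (by omega)
        simp only [List.take_succ_cons, cnt_cons']
        rw [hb]
        omega
    · rw [cnt_cons', cnt_cons', hb]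
      omega
  -- the order of the strands A and D
  have AD : ∀ k, 1 ≤ k → k ≤ u2.length + 1 → k ≤ u3.length + 1 →
      cnt ((false :: u2).take k) < cnt ((true :: u3).take k) := by
    intro k hk hk2 hk3
    obtain ⟨k, rfl⟩ : ∃ k', k = k' + 1 := ⟨k - 1, by omega⟩
    have hb : bit true = 1 := rfl
    have hb' : bit false = 0 := rfl
    rw [List.take_succ_cons, List.take_succ_cons, cnt_cons', cnt_cons', hb, hb']
    by_cases hlt : k < min u1.length u3.length
    · have := q2 k hlt
      omega
    · cases k with
      | zero => simp only [List.take_zero, cnt_nil']; omega
      | succ k =>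
        have h5 := q2 k (by omega)
        have b1 := cnt_take_succ_bd u1 k
        have b2 := cnt_take_succ_bd u2 k
        have b3 := cnt_take_succ_bd u3 k
        have b4 := cnt_take_succ_bd u4 k
        rcases Nat.lt_or_ge (k + 1) u2.length with h6 | h6
        · -- then `k + 1 = |u3|`
          have h7 : k + 1 = u3.length := by omega
          have h8 := q3 k (by omega)
          have h9 : u3.take (k + 1) = u3 := List.take_of_length_le (by omega)
          have h10 : u4.take (k + 1) = u4 := List.take_of_length_le (by omega)
          rw [h9] at b3 ⊢
          rw [h10] at b4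
          omega
        · have h8 := q1 k (by omega)
          have h9 : u1.take (k + 1) = u1 := List.take_of_length_le (by omega)
          have h10 : u2.take (k + 1) = u2 := List.take_of_length_le (by omega)
          rw [h10] at b2 ⊢
          rw [h9] at b1
          omega
  -- abbreviations
  have HA : (false :: u2).length = u2.length + 1 := rfl
  have HB : (r2.reverse ++ p :: u1).length = r2.length + (u1.length + 1) := by simp
  have HC : (r1.reverse ++ q :: u4).length = r1.length + (u4.length + 1) := by simp
  have HD : (true :: u3).length = u3.length + 1 := rfl
  have cB : cnt (r2.reverse ++ p :: u1) = cnt r2 + cnt (p :: u1) := by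
    rw [cnt_append', cnt_reverse']
  have cC : cnt (r1.reverse ++ q :: u4) = cnt r1 + cnt (q :: u4) := by
    rw [cnt_append', cnt_reverse']
  obtain ⟨-, A1, A2⟩ := (pair_iff _ _ _).1 P1
  obtain ⟨-, D1, D2⟩ := (pair_iff _ _ _).1 P2
  have r1ne : r1 ≠ [] := by
    rintro rfl
    have : r2 = [] := by
      cases r2 with
      | nil => rfl
      | cons b r2 => simp at l12
    subst this
    simp only [cnt_nil'] at e3
    omega
  obtain ⟨s1, s1', hs1⟩ : ∃ s s', r1 = s :: s' := by
    cases r1 with
    | nil => exact absurd rfl r1ne
    | cons s s' => exact ⟨s, s', rfl⟩
  obtain ⟨s2, s2', hs2⟩ : ∃ s s', r2 = s :: s' := by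
    cases r2 with
    | nil => rw [hs1] at l12; simp at l12
    | cons s s' => exact ⟨s, s', rfl⟩
  have L3 : r1.getLast? = some true ∧ r2.getLast? = some false := by
    rw [hs1, hs2] at h3 ⊢
    exact pair_last _ _ _ _ _ h3
  have L1 := pair_last _ _ _ _ _ P1
  have L2 := pair_last _ _ _ _ _ P2
  -- the four facts on the strands
  have fAB : ∀ k, k < u2.length + 1 →
      cnt (false :: u2) - cnt (r2.reverse ++ p :: u1) +
        cnt ((r2.reverse ++ p :: u1).take (r2.length + k)) < cnt ((false :: u2).take k) := by
    intro k hk
    have := A1 k (by simp only [List.length_cons]; omega)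
    rw [cnt_take_rev_append, cB]
    omega
  have fCD : ∀ k, k < u3.length + 1 →
      cnt ((true :: u3).take k) < cnt (false :: u2) - cnt (r2.reverse ++ p :: u1) +
        cnt ((r1.reverse ++ q :: u4).take (r1.length + k)) := by
    intro k hk
    have := D1 k (by simp only [List.length_cons]; omega)
    rw [cnt_take_rev_append, cB]
    omega
  have fBC : ∀ k, 0 < k → k ≤ r1.length →
      cnt ((r2.reverse ++ p :: u1).take k) < cnt ((r1.reverse ++ q :: u4).take k) := by
    intro k hk hk2
    have := p3 (r1.length - k) (by omega)
    rw [cnt_take_rev_append' _ _ _ hk2, cnt_take_rev_append' _ _ _ (by omega), ← l12]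
    omega
  have fz : cnt (false :: u2) - cnt (r2.reverse ++ p :: u1) + cnt (r1.reverse ++ q :: u4) -
      cnt (true :: u3) = 0 := by
    rw [cB, cC]
    omega
  have fTop : cnt (false :: u2) - cnt (r2.reverse ++ p :: u1) +
        cnt ((r2.reverse ++ p :: u1).take (r2.length + (u1.length + 1))) = cnt (false :: u2) := by
    rw [cnt_take_rev_append, cB, List.take_of_length_le (by simp)]
    ring
  have tA : (false :: u2).take (u2.length + 1) = false :: u2 :=
    List.take_of_length_le (by simp)
  refine ⟨⟨?_, ?_, ?_⟩, ?_, ?_, ?_⟩
  · -- chain
    unfold luWord
    have hBh : (r2.reverse ++ p :: u1).head? = some false := by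
      apply head_append
      rw [List.head?_reverse]
      exact L3.2
    have hBl : (r2.reverse ++ p :: u1).getLast? = some true := getLast_append _ _ _ L1.1
    have hCh : (r1.reverse ++ q :: u4).head? = some true := by
      apply head_append
      rw [List.head?_reverse]
      exact L3.1
    have hCl : (r1.reverse ++ q :: u4).getLast? = some false := getLast_append _ _ _ L2.2
    have c1 : (ne (false :: u2) ++ sw (r2.reverse ++ p :: u1)).IsChain Step.Next := by
      refine chain_append (chain_ne _) (chain_sw _) (ne_getLast _ _ L1.2) (sw_head _ _ hBl) ?_
      simp [Step.Next]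
    have c2 : (ne (false :: u2) ++ sw (r2.reverse ++ p :: u1) ++
        ne (r1.reverse ++ q :: u4)).IsChain Step.Next := by
      refine chain_append c1 (chain_ne _) (getLast_append _ _ _ (sw_getLast _ _ hBh))
        (ne_head _ _ hCh) ?_
      simp [Step.Next]
    refine chain_append c2 (chain_sw _) (getLast_append _ _ _ (ne_getLast _ _ hCl))
      (sw_head _ _ L2.1) ?_
    simp [Step.Next]
  · -- closed
    unfold luWord
    rw [pos_end, fz, HA, HB, HC, HD]
    ext
    · simp
    · simp only [Prod.snd_zero]
      push_cast
      omega
  · -- injective
    have key : ∀ s t : ℕ, s < t → t < (luWord r1 r2 p q u1 u2 u3 u4).length →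
        pos (luWord r1 r2 p q u1 u2 u3 u4) s ≠ pos (luWord r1 r2 p q u1 u2 u3 u4) t := by
      intro s t hst ht heq
      have hs : s < (luWord r1 r2 p q u1 u2 u3 u4).length := by omega
      unfold luWord at hs ht heq
      have cs := pos_word _ _ _ _ s hs
      have ct := pos_word _ _ _ _ t ht
      rw [fz, HA, HB, HC, HD] at cs ct
      rcases cs with ⟨k, hk, hsk, hps⟩ | ⟨k, hk0, hk, hsk, hps⟩ | ⟨k, hk, hsk, hps⟩ |
          ⟨k, hk0, hk, hsk, hps⟩ <;>
      rcases ct with ⟨k', hk', htk, hpt⟩ | ⟨k', hk0', hk', htk, hpt⟩ | ⟨k', hk', htk, hpt⟩ |
          ⟨k', hk0', hk', htk, hpt⟩ <;>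
      rw [hps, hpt, Prod.mk.injEq] at heq <;> obtain ⟨hx, hy⟩ := heq <;> push_cast at hy
      -- A A
      · omega
      -- A B
      · obtain rfl : k' = r2.length + k := by omega
        have := fAB k (by omega)
        omega
      -- A C
      · obtain rfl : k' = r1.length + k := by omega
        have := fCD k (by omega)
        rcases Nat.eq_zero_or_pos k with h0 | h0
        · subst h0
          simp only [List.take_zero, cnt_nil'] at this hx
          omega
        · have := AD k h0 (by omega) (by omega)
          omega
      -- A D
      · obtain rfl : k' = k := by omega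
        have := AD k' (by omega) (by omega) (by omega)
        omega
      -- B A
      · omega
      -- B B
      · omega
      -- B C
      · obtain rfl : k' = k := by omega
        rcases Nat.lt_or_ge r1.length k' with h0 | h0
        · obtain ⟨m, rfl⟩ : ∃ m, k' = r1.length + m := ⟨k' - r1.length, by omega⟩
          have h5 := fCD m (by omega)
          have h6 := AD m (by omega) (by omega) (by omega)
          rcases Nat.lt_or_ge m (u2.length + 1) with h7 | h7
          · have h8 := fAB m h7
            rw [← l12] at h8
            omega
          · obtain rfl : m = u1.length + 1 := by omega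
            rw [← l12] at fTop
            rw [l1, tA] at h6
            rw [l1] at h5 fTop hx
            omega
        · have := fBC k' (by omega) h0
          omega
      -- B D
      · obtain rfl : k = r2.length + k' := by omega
        have h6 := AD k' (by omega) (by omega) (by omega)
        rcases Nat.lt_or_ge k' (u2.length + 1) with h7 | h7
        · have h8 := fAB k' h7
          omega
        · obtain rfl : k' = u1.length + 1 := by omega
          rw [l1, tA] at h6
          rw [l1] at fTop hx
          omega
      -- C A
      · omega
      -- C B
      · omega
      -- C C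
      · omega
      -- C D
      · obtain rfl : k = r1.length + k' := by omega
        have := fCD k' (by omega)
        omega
      -- D A
      · omega
      -- D B
      · omega
      -- D C
      · omega
      -- D D
      · omega
    intro s t hs ht heq
    rcases Nat.lt_trichotomy s t with h | h | h
    · exact absurd heq (key s t h ht)
    · exact h
    · exact absurd heq.symm (key t s h hs)
  · -- length
    unfold luWord
    rw [List.length_append, List.length_append, List.length_append, ne_length, sw_length,
      ne_length, sw_length, HA, HB, HC, HD]
    omega
  · rfl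
  · unfold luWord
    apply getLast_append
    exact sw_getLast _ true rfl

end Pool.Agent.Helper99.TC
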