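import Pool.Agent.Helper99.TC.Blocks
import Pool.Agent.Helper99.TC.PQIff

/-!
# TC-14: the data are determined by the word

Proof. The four blocks of `luWord` are nonempty, the first and third consist of steps in {U, R}, the second and fourth of steps in {L, D}; so the blocks are determined by the word (`takeWhile`), and `ne`, `sw` are injective. The list
`r2.reverse ++ p :: u1` is split by `|u1| = |u2|` (`quad_iff`), `r1.reverse ++ q :: u4` by `|u4| = |u3|`. The numbers `i`, `j` are determined by `i - bit p - cnt u1 + cnt u2 = 0`, `j + bit q - 1 - cnt u3 + cnt u4 = 0` (`quad_iff`).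
-/

set_option autoImplicit false

namespace Pool.Agent.Helper99.TC

private def upP : Step → Bool
  | .U => true
  | .R => true
  | _ => false

private theorem luinj_ne_all (u : List Bool) : ∀ x ∈ ne u, upP x = true := by
  intro x hx
  rw [ne, List.mem_map] at hx
  obtain ⟨b, _, rfl⟩ := hx
  cases b <;> rfl

private theorem luinj_sw_all (u : List Bool) : ∀ x ∈ sw u, (!upP x) = true := by
  intro x hx
  rw [sw, List.mem_map] at hx
  obtain ⟨b, _, rfl⟩ := hx
  cases b <;> rfl

private theorem luinj_tw {α : Type} (P : α → Bool) (A B A' B' : List α) (hA : ∀ x ∈ A, P x = true)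
    (hA' : ∀ x ∈ A', P x = true) (hB : ∀ x ∈ B.head?, P x = false) (hB' : ∀ x ∈ B'.head?, P x = false)
    (h : A ++ B = A' ++ B') : A = A' ∧ B = B' := by
  have key : ∀ (A B : List α), (∀ x ∈ A, P x = true) → (∀ x ∈ B.head?, P x = false) →
      (A ++ B).takeWhile P = A := by
    intro A B hA hB
    rw [List.takeWhile_append_of_pos hA]
    cases B with
    | nil => simp
    | cons b B =>
      have : P b = false := hB b (by simp)
      simp [this]
  have h1 : A = A' := by
    rw [← key A B hA hB, h, key A' B' hA' hB']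
  refine ⟨h1, ?_⟩
  rw [h1] at h
  exact List.append_cancel_left h

private theorem luinj_ne_inj {u v : List Bool} (h : ne u = ne v) : u = v := by
  refine List.map_injective_iff.2 ?_ h
  intro a b hab
  cases a <;> cases b <;> simp_all

private theorem luinj_sw_inj {u v : List Bool} (h : sw u = sw v) : u = v := by
  apply List.reverse_injective
  refine List.map_injective_iff.2 ?_ h
  intro a b hab
  cases a <;> cases b <;> simp_all

private theorem luinj_head_ne {u : List Bool} (hu : u ≠ []) (w : List Step) :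
    ∀ x ∈ (ne u ++ w).head?, (!upP x) = false := by
  intro x hx
  have h1 : ne u ≠ [] := by
    intro h
    apply hu
    have := congrArg List.length h
    rw [ne_length] at this
    exact List.length_eq_zero_iff.1 this
  obtain ⟨a, l, hl⟩ := List.exists_cons_of_ne_nil h1
  rw [hl] at hx
  have : a = x := by simpa using hx
  have h2 := luinj_ne_all u x (by rw [hl, this]; exact List.mem_cons_self)
  rw [h2]
  rfl

private theorem luinj_head_sw {u : List Bool} (hu : u ≠ []) (w : List Step) :
    ∀ x ∈ (sw u ++ w).head?, upP x = false := by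
  intro x hx
  have h1 : sw u ≠ [] := by
    intro h
    apply hu
    have := congrArg List.length h
    rw [sw_length] at this
    exact List.length_eq_zero_iff.1 this
  obtain ⟨a, l, hl⟩ := List.exists_cons_of_ne_nil h1
  rw [hl] at hx
  have : a = x := by simpa using hx
  have h2 := luinj_sw_all u x (by rw [hl, this]; exact List.mem_cons_self)
  simpa using h2

theorem lu_inj {i j i' j' : ℕ} {r1 r2 r1' r2' : List Bool} {p q p' q' : Bool}
    {u1 u2 u3 u4 u1' u2' u3' u4' : List Bool}
    (H : LUData i j r1 r2 p q u1 u2 u3 u4) (H' : LUData i' j' r1' r2' p' q' u1' u2' u3' u4')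
    (h : luWord r1 r2 p q u1 u2 u3 u4 = luWord r1' r2' p' q' u1' u2' u3' u4') :
    i = i' ∧ j = j' ∧ r1 = r1' ∧ r2 = r2' ∧ p = p' ∧ q = q' ∧
      u1 = u1' ∧ u2 = u2' ∧ u3 = u3' ∧ u4 = u4' := by
  unfold luWord at h
  rw [List.append_assoc, List.append_assoc, List.append_assoc, List.append_assoc] at h
  obtain ⟨h1, h⟩ := luinj_tw upP _ _ _ _ (luinj_ne_all _) (luinj_ne_all _)
    (luinj_head_sw (by simp) _) (luinj_head_sw (by simp) _) h
  obtain ⟨h2, h⟩ := luinj_tw (fun x => !upP x) _ _ _ _ (luinj_sw_all _) (luinj_sw_all _)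
    (luinj_head_ne (by simp) _) (luinj_head_ne (by simp) _) h
  have e1 : ∀ u : List Bool, sw u = sw u ++ [] := fun u => (List.append_nil _).symm
  obtain ⟨h3, h4⟩ := luinj_tw upP _ _ _ _ (luinj_ne_all _) (luinj_ne_all _)
    (by rw [e1]; exact luinj_head_sw (by simp) _) (by rw [e1]; exact luinj_head_sw (by simp) _) h
  have k1 := List.cons.inj (luinj_ne_inj h1)
  have k2 := luinj_sw_inj h2
  have k3 := luinj_ne_inj h3
  have k4 := List.cons.inj (luinj_sw_inj h4)
  obtain ⟨_, _, _, Q⟩ := H
  obtain ⟨_, _, _, Q'⟩ := H'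
  rw [quad_iff] at Q Q'
  obtain ⟨l1, l2, _, m1, _, m2, _⟩ := Q
  obtain ⟨l1', l2', _, m1', _, m2', _⟩ := Q'
  have a1 := List.append_inj' k2 (by simp [l1, l1', k1.2])
  have a2 := List.append_inj' k3 (by simp [← l2, ← l2', k4.2])
  have b1 : r2 = r2' := List.reverse_injective a1.1
  have b2 : r1 = r1' := List.reverse_injective a2.1
  have c1 := List.cons.inj a1.2
  have c2 := List.cons.inj a2.2
  rw [c1.1, c1.2, k1.2] at m1
  rw [c2.1, c2.2, k4.2] at m2
  exact ⟨by omega, by omega, b2, b1, c1.1, c2.1, c1.2, k1.2, k4.2, c2.2⟩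

end Pool.Agent.Helper99.TC
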