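import Pool.Agent.Helper99.TC.Words

/-!
# TC-11: the number of pairs and quadruples

Proof: induction on `n` (for `Quad` two steps at a time) by the first bits. For `quad_card`: if `d1 = 0` only the clause with `u1 = u2 = []` is possible and the set is in bijection with that of `Pair d3`;
if `d1 ≠ 0`, `d3 = 0` only the clause `u3 = u4 = []`; if both are nonzero all four lists are nonempty, all distances must be positive, and the first bits can be chosen freely.
For negative distances both sides are 0.
-/

set_option autoImplicit false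

namespace Pool.Agent.Helper99.TC

private abbrev PS (n : ℕ) (d : ℤ) : Type :=
  {p : List Bool × List Bool // Pair d p.1 p.2 ∧ p.1.length = n}

private abbrev QS (n : ℕ) (d1 d2 d3 : ℤ) : Type :=
  {p : List Bool × List Bool × List Bool × List Bool //
      Quad d1 d2 d3 p.1 p.2.1 p.2.2.1 p.2.2.2 ∧ p.1.length + p.2.2.1.length = n}

private theorem pair_nil_left (d : ℤ) (v : List Bool) : Pair d [] v ↔ d = 0 ∧ v = [] := by
  cases v with
  | nil => simp [Pair]
  | cons b v => simp [Pair]

private theorem pair_cons (d : ℤ) (a b : Bool) (u v : List Bool) :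
    Pair d (a :: u) (b :: v) ↔ 0 < d ∧ Pair (d - bit a + bit b) u v := by
  simp [Pair]

private theorem pair_cons_nil (d : ℤ) (a : Bool) (u : List Bool) :
    ¬ Pair d (a :: u) [] := by
  simp [Pair]

private theorem pair_aux (n : ℕ) : ∀ d : ℤ, Finite (PS n d) ∧ Nat.card (PS n d) = pairN n d := by
  induction n with
  | zero =>
    intro d
    by_cases hd : d = 0
    · have hu : ∀ x : PS 0 d, x = ⟨([], []), by simp [Pair, hd]⟩ := by
        rintro ⟨⟨u, v⟩, h1, h2⟩
        have hu : u = [] := List.length_eq_zero_iff.mp h2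
        subst hu
        have h1' := (pair_nil_left d v).mp h1
        apply Subtype.ext
        simp [h1'.2]
      have : Unique (PS 0 d) := ⟨⟨⟨([], []), by simp [Pair, hd]⟩⟩, hu⟩
      refine ⟨inferInstance, ?_⟩
      rw [Nat.card_unique]
      simp [pairN, hd]
    · have : IsEmpty (PS 0 d) := by
        constructor
        rintro ⟨⟨u, v⟩, h1, h2⟩
        have hu : u = [] := List.length_eq_zero_iff.mp h2
        subst hu
        exact hd ((pair_nil_left d v).mp h1).1
      refine ⟨inferInstance, ?_⟩
      rw [Nat.card_of_isEmpty]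
      simp [pairN, hd]
  | succ n ih =>
    intro d
    by_cases hd : 0 < d
    · let f : (Σ ab : Bool × Bool, PS n (d - bit ab.1 + bit ab.2)) → PS (n + 1) d :=
        fun x => ⟨(x.1.1 :: x.2.1.1, x.1.2 :: x.2.1.2),
          (pair_cons d _ _ _ _).mpr ⟨hd, x.2.2.1⟩, by simp [x.2.2.2]⟩
      have hf : Function.Bijective f := by
        constructor
        · rintro ⟨⟨a, b⟩, ⟨⟨u, v⟩, h⟩⟩ ⟨⟨a', b'⟩, ⟨⟨u', v'⟩, h'⟩⟩ heq
          have h0 := congrArg Subtype.val heq
          simp only [f, Prod.mk.injEq, List.cons.injEq] at h0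
          obtain ⟨⟨ha, hu⟩, hb, hv⟩ := h0
          subst ha; subst hu; subst hb; subst hv
          rfl
        · rintro ⟨⟨u, v⟩, h1, h2⟩
          cases u with
          | nil => simp at h2
          | cons a u =>
            cases v with
            | nil => exact absurd h1 (pair_cons_nil d a u)
            | cons b v =>
              have h1' := (pair_cons d a b u v).mp h1
              refine ⟨⟨(a, b), ⟨(u, v), h1'.2, by simpa using h2⟩⟩, rfl⟩
      have : ∀ ab : Bool × Bool, Finite (PS n (d - bit ab.1 + bit ab.2)) :=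
        fun ab => (ih _).1
      have : Finite (Σ ab : Bool × Bool, PS n (d - bit ab.1 + bit ab.2)) := inferInstance
      refine ⟨Finite.of_equiv _ (Equiv.ofBijective f hf), ?_⟩
      rw [← Nat.card_congr (Equiv.ofBijective f hf), Nat.card_sigma]
      rw [Finset.sum_congr rfl (fun ab _ => (ih _).2)]
      rw [Fintype.sum_prod_type]
      simp [bit, pairN, hd]
      ring
    · have : IsEmpty (PS (n + 1) d) := by
        constructor
        rintro ⟨⟨u, v⟩, h1, h2⟩
        cases u with
        | nil => simp at h2
        | cons a u =>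
          cases v with
          | nil => exact pair_cons_nil d a u h1
          | cons b v => exact hd ((pair_cons d a b u v).mp h1).1
      refine ⟨inferInstance, ?_⟩
      rw [Nat.card_of_isEmpty]
      simp [pairN, hd]

private theorem quad_nil (d1 d2 d3 : ℤ) (u2 u3 u4 : List Bool) :
    Quad d1 d2 d3 [] u2 u3 u4 ↔ u2 = [] ∧ d1 = 0 ∧ Pair d3 u3 u4 := by
  cases u2 with
  | nil => simp [Quad]
  | cons b u2 => simp [Quad]

private theorem quad_cons_nil (d1 d2 d3 : ℤ) (a : Bool) (u1 u3 u4 : List Bool) :
    ¬ Quad d1 d2 d3 (a :: u1) [] u3 u4 := by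
  simp [Quad]

private theorem quad_mid (d1 d2 d3 : ℤ) (a b : Bool) (u1 u2 u4 : List Bool) :
    Quad d1 d2 d3 (a :: u1) (b :: u2) [] u4 ↔ u4 = [] ∧ d3 = 0 ∧ Pair d1 (a :: u1) (b :: u2) := by
  cases u4 with
  | nil => simp [Quad]
  | cons e u4 => simp [Quad]

private theorem quad_last (d1 d2 d3 : ℤ) (a b c : Bool) (u1 u2 u3 : List Bool) :
    ¬ Quad d1 d2 d3 (a :: u1) (b :: u2) (c :: u3) [] := by
  simp [Quad]

private theorem quad_all (d1 d2 d3 : ℤ) (a b c e : Bool) (u1 u2 u3 u4 : List Bool) :
    Quad d1 d2 d3 (a :: u1) (b :: u2) (c :: u3) (e :: u4) ↔ 0 < d1 ∧ 0 < d2 ∧ 0 < d3 ∧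
      Quad (d1 - bit a + bit b) (d2 - bit b + bit c) (d3 - bit c + bit e) u1 u2 u3 u4 := by
  simp [Quad]

/-- the case `d1 = 0` -/
private theorem quad_case1 (n : ℕ) (d2 d3 : ℤ) :
    Finite (QS n 0 d2 d3) ∧ Nat.card (QS n 0 d2 d3) = pairN n d3 := by
  let f : PS n d3 → QS n 0 d2 d3 := fun x => ⟨([], [], x.1.1, x.1.2),
    (quad_nil _ _ _ _ _ _).mpr ⟨rfl, rfl, x.2.1⟩, by simp [x.2.2]⟩
  have hf : Function.Bijective f := by
    constructor
    · rintro ⟨⟨u, v⟩, h⟩ ⟨⟨u', v'⟩, h'⟩ heq
      have h0 := congrArg Subtype.val heq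
      simp only [f, Prod.mk.injEq, true_and] at h0
      obtain ⟨hu, hv⟩ := h0
      subst hu; subst hv
      rfl
    · rintro ⟨⟨u1, u2, u3, u4⟩, h1, h2⟩
      cases u1 with
      | nil =>
        obtain ⟨hu2, -, hP⟩ := (quad_nil _ _ _ _ _ _).mp h1
        subst hu2
        exact ⟨⟨(u3, u4), hP, by simpa using h2⟩, rfl⟩
      | cons a u1 =>
        exfalso
        cases u2 with
        | nil => exact quad_cons_nil _ _ _ _ _ _ _ h1
        | cons b u2 =>
          cases u3 with
          | nil =>
            have := ((quad_mid _ _ _ _ _ _ _ _).mp h1).2.2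
            have := ((pair_cons _ _ _ _ _).mp this).1
            omega
          | cons c u3 =>
            cases u4 with
            | nil => exact quad_last _ _ _ _ _ _ _ _ _ h1
            | cons e u4 =>
              have := ((quad_all _ _ _ _ _ _ _ _ _ _ _).mp h1).1
              omega
  have : Finite (PS n d3) := (pair_aux n d3).1
  exact ⟨Finite.of_equiv _ (Equiv.ofBijective f hf), by
    rw [← Nat.card_congr (Equiv.ofBijective f hf)]; exact (pair_aux n d3).2⟩

/-- the case `d1 ≠ 0`, `d3 = 0`, positive length -/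
private theorem quad_case2 (n : ℕ) (d1 d2 : ℤ) (h0 : d1 ≠ 0) :
    Finite (QS (n + 1) d1 d2 0) ∧ Nat.card (QS (n + 1) d1 d2 0) = pairN (n + 1) d1 := by
  have key : ∀ u v : List Bool, Pair d1 u v → u.length = n + 1 → Quad d1 d2 0 u v [] [] := by
    intro u v hP hl
    cases u with
    | nil => simp at hl
    | cons a u =>
      cases v with
      | nil => exact absurd hP (pair_cons_nil _ _ _)
      | cons b v => exact (quad_mid _ _ _ _ _ _ _ _).mpr ⟨rfl, rfl, hP⟩
  let f : PS (n + 1) d1 → QS (n + 1) d1 d2 0 := fun x => ⟨(x.1.1, x.1.2, [], []),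
    key _ _ x.2.1 x.2.2, by simp [x.2.2]⟩
  have hf : Function.Bijective f := by
    constructor
    · rintro ⟨⟨u, v⟩, h⟩ ⟨⟨u', v'⟩, h'⟩ heq
      have h0 := congrArg Subtype.val heq
      simp only [f, Prod.mk.injEq, and_true] at h0
      obtain ⟨hu, hv⟩ := h0
      subst hu; subst hv
      rfl
    · rintro ⟨⟨u1, u2, u3, u4⟩, h1, h2⟩
      cases u1 with
      | nil => exact absurd ((quad_nil _ _ _ _ _ _).mp h1).2.1 h0
      | cons a u1 =>
        cases u2 with
        | nil => exact absurd h1 (quad_cons_nil _ _ _ _ _ _ _)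
        | cons b u2 =>
          cases u3 with
          | nil =>
            obtain ⟨hu4, -, hP⟩ := (quad_mid _ _ _ _ _ _ _ _).mp h1
            subst hu4
            exact ⟨⟨(a :: u1, b :: u2), hP, by simpa using h2⟩, rfl⟩
          | cons c u3 =>
            exfalso
            cases u4 with
            | nil => exact quad_last _ _ _ _ _ _ _ _ _ h1
            | cons e u4 =>
              have := ((quad_all _ _ _ _ _ _ _ _ _ _ _).mp h1).2.2.1
              omega
  have : Finite (PS (n + 1) d1) := (pair_aux (n + 1) d1).1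
  exact ⟨Finite.of_equiv _ (Equiv.ofBijective f hf), by
    rw [← Nat.card_congr (Equiv.ofBijective f hf)]; exact (pair_aux (n + 1) d1).2⟩

private theorem quad_aux (n : ℕ) : ∀ d1 d2 d3 : ℤ,
    Finite (QS n d1 d2 d3) ∧ Nat.card (QS n d1 d2 d3) = quadN n d1 d2 d3 := by
  induction n using Nat.twoStepInduction with
  | zero =>
    intro d1 d2 d3
    by_cases hd : d1 = 0 ∧ d3 = 0
    · obtain ⟨h1, h3⟩ := hd
      subst h1; subst h3
      have h := quad_case1 0 d2 0
      refine ⟨h.1, ?_⟩
      rw [h.2]
      simp [pairN, quadN]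
    · have : IsEmpty (QS 0 d1 d2 d3) := by
        constructor
        rintro ⟨⟨u1, u2, u3, u4⟩, h1, h2⟩
        have hu1 : u1 = [] := by
          apply List.length_eq_zero_iff.mp
          have : u1.length + u3.length = 0 := h2
          omega
        have hu3 : u3 = [] := by
          apply List.length_eq_zero_iff.mp
          have : u1.length + u3.length = 0 := h2
          omega
        subst hu1; subst hu3
        obtain ⟨-, hd1, hP⟩ := (quad_nil _ _ _ _ _ _).mp h1
        exact hd ⟨hd1, ((pair_nil_left _ _).mp hP).1⟩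
      refine ⟨inferInstance, ?_⟩
      rw [Nat.card_of_isEmpty]
      simp [quadN, hd]
  | one =>
    intro d1 d2 d3
    by_cases h1 : d1 = 0
    · subst h1
      have h := quad_case1 1 d2 d3
      refine ⟨h.1, ?_⟩
      rw [h.2]
      simp [quadN]
    · by_cases h3 : d3 = 0
      · subst h3
        have h := quad_case2 0 d1 d2 h1
        refine ⟨h.1, ?_⟩
        rw [h.2]
        simp [quadN, h1]
      · have : IsEmpty (QS 1 d1 d2 d3) := by
          constructor
          rintro ⟨⟨u1, u2, u3, u4⟩, hq, hl⟩
          have hl' : u1.length + u3.length = 1 := hl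
          cases u1 with
          | nil => exact h1 ((quad_nil _ _ _ _ _ _).mp hq).2.1
          | cons a u1 =>
            cases u2 with
            | nil => exact quad_cons_nil _ _ _ _ _ _ _ hq
            | cons b u2 =>
              cases u3 with
              | nil => exact h3 ((quad_mid _ _ _ _ _ _ _ _).mp hq).2.1
              | cons c u3 =>
                simp only [List.length_cons] at hl'
                omega
        refine ⟨inferInstance, ?_⟩
        rw [Nat.card_of_isEmpty]
        simp [quadN, h1, h3]
  | more n ih _ =>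
    intro d1 d2 d3
    by_cases h1 : d1 = 0
    · subst h1
      have h := quad_case1 (n + 2) d2 d3
      refine ⟨h.1, ?_⟩
      rw [h.2]
      simp [quadN]
    · by_cases h3 : d3 = 0
      · subst h3
        have h := quad_case2 (n + 1) d1 d2 h1
        refine ⟨h.1, ?_⟩
        rw [h.2]
        simp [quadN, h1]
      · by_cases hp : 0 < d1 ∧ 0 < d2 ∧ 0 < d3
        · let f : (Σ x : Bool × Bool × Bool × Bool,
              QS n (d1 - bit x.1 + bit x.2.1) (d2 - bit x.2.1 + bit x.2.2.1)
                (d3 - bit x.2.2.1 + bit x.2.2.2)) → QS (n + 2) d1 d2 d3 :=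
            fun x => ⟨(x.1.1 :: x.2.1.1, x.1.2.1 :: x.2.1.2.1, x.1.2.2.1 :: x.2.1.2.2.1,
              x.1.2.2.2 :: x.2.1.2.2.2),
              (quad_all _ _ _ _ _ _ _ _ _ _ _).mpr ⟨hp.1, hp.2.1, hp.2.2, x.2.2.1⟩, by
                have := x.2.2.2
                simp only [List.length_cons]
                omega⟩
          have hf : Function.Bijective f := by
            constructor
            · rintro ⟨⟨a, b, c, e⟩, ⟨⟨u1, u2, u3, u4⟩, h⟩⟩ ⟨⟨a', b', c', e'⟩, ⟨⟨v1, v2, v3, v4⟩, h'⟩⟩ heq
              have h0 := congrArg Subtype.val heq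
              simp only [f, Prod.mk.injEq, List.cons.injEq] at h0
              obtain ⟨⟨ha, hu1⟩, ⟨hb, hu2⟩, ⟨hc, hu3⟩, he, hu4⟩ := h0
              subst ha; subst hu1; subst hb; subst hu2; subst hc; subst hu3; subst he; subst hu4
              rfl
            · rintro ⟨⟨u1, u2, u3, u4⟩, hq, hl⟩
              have hl' : u1.length + u3.length = n + 2 := hl
              cases u1 with
              | nil => exact absurd ((quad_nil _ _ _ _ _ _).mp hq).2.1 h1
              | cons a u1 =>
                cases u2 with
                | nil => exact absurd hq (quad_cons_nil _ _ _ _ _ _ _)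
                | cons b u2 =>
                  cases u3 with
                  | nil => exact absurd ((quad_mid _ _ _ _ _ _ _ _).mp hq).2.1 h3
                  | cons c u3 =>
                    cases u4 with
                    | nil => exact absurd hq (quad_last _ _ _ _ _ _ _ _ _)
                    | cons e u4 =>
                      have hq' := ((quad_all _ _ _ _ _ _ _ _ _ _ _).mp hq).2.2.2
                      refine ⟨⟨(a, b, c, e), ⟨(u1, u2, u3, u4), hq', ?_⟩⟩, rfl⟩
                      simp only [List.length_cons] at hl' ⊢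
                      omega
          have : ∀ x : Bool × Bool × Bool × Bool,
              Finite (QS n (d1 - bit x.1 + bit x.2.1) (d2 - bit x.2.1 + bit x.2.2.1)
                (d3 - bit x.2.2.1 + bit x.2.2.2)) := fun x => (ih _ _ _).1
          have : Finite (Σ x : Bool × Bool × Bool × Bool,
              QS n (d1 - bit x.1 + bit x.2.1) (d2 - bit x.2.1 + bit x.2.2.1)
                (d3 - bit x.2.2.1 + bit x.2.2.2)) := inferInstance
          refine ⟨Finite.of_equiv _ (Equiv.ofBijective f hf), ?_⟩
          rw [← Nat.card_congr (Equiv.ofBijective f hf), Nat.card_sigma]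
          rw [Finset.sum_congr rfl (fun x _ => (ih _ _ _).2)]
          rw [Fintype.sum_prod_type]
          simp only [Fintype.sum_prod_type]
          simp only [quadN, if_neg h1, if_neg h3, if_pos hp]
        · have : IsEmpty (QS (n + 2) d1 d2 d3) := by
            constructor
            rintro ⟨⟨u1, u2, u3, u4⟩, hq, hl⟩
            cases u1 with
            | nil => exact h1 ((quad_nil _ _ _ _ _ _).mp hq).2.1
            | cons a u1 =>
              cases u2 with
              | nil => exact quad_cons_nil _ _ _ _ _ _ _ hq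
              | cons b u2 =>
                cases u3 with
                | nil => exact h3 ((quad_mid _ _ _ _ _ _ _ _).mp hq).2.1
                | cons c u3 =>
                  cases u4 with
                  | nil => exact quad_last _ _ _ _ _ _ _ _ _ hq
                  | cons e u4 =>
                    have h := (quad_all _ _ _ _ _ _ _ _ _ _ _).mp hq
                    exact hp ⟨h.1, h.2.1, h.2.2.1⟩
          refine ⟨inferInstance, ?_⟩
          rw [Nat.card_of_isEmpty]
          simp only [quadN, if_neg h1, if_neg h3, if_neg hp]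

theorem pair_finite (n : ℕ) (d : ℤ) :
    Finite {p : List Bool × List Bool // Pair d p.1 p.2 ∧ p.1.length = n} :=
  (pair_aux n d).1

theorem pair_card (n : ℕ) (d : ℤ) :
    Nat.card {p : List Bool × List Bool // Pair d p.1 p.2 ∧ p.1.length = n} = pairN n d :=
  (pair_aux n d).2

theorem quad_finite (n : ℕ) (d1 d2 d3 : ℤ) :
    Finite {p : List Bool × List Bool × List Bool × List Bool //
      Quad d1 d2 d3 p.1 p.2.1 p.2.2.1 p.2.2.2 ∧ p.1.length + p.2.2.1.length = n} :=
  (quad_aux n d1 d2 d3).1

theorem quad_card (n : ℕ) (d1 d2 d3 : ℤ) :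
    Nat.card {p : List Bool × List Bool × List Bool × List Bool //
      Quad d1 d2 d3 p.1 p.2.1 p.2.2.1 p.2.2.2 ∧ p.1.length + p.2.2.1.length = n} =
      quadN n d1 d2 d3 :=
  (quad_aux n d1 d2 d3).2

end Pool.Agent.Helper99.TC
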