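import Pool.Agent.Helper99.TC.LUForward
import Pool.Agent.Helper99.TC.LUBackward
import Pool.Agent.Helper99.TC.LUInj
import Pool.Agent.Helper99.TC.PQCard

/-!
# TC-15: the number of three-choice polygons which begin with U and end with L

Proof. By TC-12, 13, 14 the set is in bijection with the data of total size `n`. Count the data by `i, j`, `l = |r1|`, the bits `p, q`, with `pair_card` and `quad_card`. Bounds: `Pair (i + j) r1 r2` implies `i + j ≤ |r1| = l ≤ n - 2` (the distance drops by at most 1 per step),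
so `i, j ≤ n` and `l < n - 1`. For `n ≤ 1` both sides are 0.
-/

set_option autoImplicit false

namespace Pool.Agent.Helper99.TC

private lemma pair_le {d : ℤ} {u v : List Bool} (h : Pair d u v) : d ≤ u.length := by
  induction u generalizing d v with
  | nil =>
    cases v with
    | nil => simp only [Pair] at h; simp [h]
    | cons b v => simp [Pair] at h
  | cons a u ih =>
    cases v with
    | nil => simp [Pair] at h
    | cons b v =>
      simp only [Pair] at h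
      have := ih h.2
      have ha : bit a ≤ 1 := by cases a <;> simp [bit]
      have hb : 0 ≤ bit b := by cases b <;> simp [bit]
      push_cast [List.length_cons]
      omega

/-- the index set of the sum `luN` -/
private abbrev Idx (n : ℕ) : Type :=
  (Finset.Icc 1 n) × (Finset.Icc 1 n) × (Finset.range (n - 1)) × Bool × Bool

/-- the walkers for a given index -/
private abbrev Wk (n : ℕ) (x : Idx n) : Type :=
  {p : List Bool × List Bool // Pair (((x.1 : ℕ) : ℤ) + ((x.2.1 : ℕ) : ℤ)) p.1 p.2 ∧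
    p.1.length = (x.2.2.1 : ℕ)} ×
  {p : List Bool × List Bool × List Bool × List Bool //
      Quad (((x.1 : ℕ) : ℤ) - bit x.2.2.2.1) 1 (((x.2.1 : ℕ) : ℤ) + bit x.2.2.2.2 - 1)
        p.1 p.2.1 p.2.2.1 p.2.2.2 ∧ p.1.length + p.2.2.1.length = n - 2 - (x.2.2.1 : ℕ)}

theorem lu_card (n : ℕ) : Nat.card {w : List Step // w.length = 2 * n ∧ IsTCP w ∧
    w.head? = some Step.U ∧ w.getLast? = some Step.L} = luN n := by
  classical
  have hdata : ∀ s : (Σ x : Idx n, Wk n x), LUData (s.1.1 : ℕ) (s.1.2.1 : ℕ) s.2.1.1.1 s.2.1.1.2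
      s.1.2.2.2.1 s.1.2.2.2.2 s.2.2.1.1 s.2.2.1.2.1 s.2.2.1.2.2.1 s.2.2.1.2.2.2 := by
    rintro ⟨⟨⟨i, hi⟩, ⟨j, hj⟩, ⟨l, hl⟩, p, q⟩, ⟨⟨r1, r2⟩, hr, hrl⟩, ⟨⟨u1, u2, u3, u4⟩, hu, hul⟩⟩
    rw [Finset.mem_Icc] at hi hj
    exact ⟨hi.1, hj.1, hr, hu⟩
  let f : (Σ x : Idx n, Wk n x) → {w : List Step // w.length = 2 * n ∧ IsTCP w ∧
      w.head? = some Step.U ∧ w.getLast? = some Step.L} := fun s =>
    ⟨luWord s.2.1.1.1 s.2.1.1.2 s.1.2.2.2.1 s.1.2.2.2.2 s.2.2.1.1 s.2.2.1.2.1 s.2.2.1.2.2.1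
      s.2.2.1.2.2.2, by
      obtain ⟨h1, h2, h3, h4⟩ := lu_backward (hdata s)
      refine ⟨?_, h1, h3, h4⟩
      rw [h2]
      obtain ⟨⟨⟨i, hi⟩, ⟨j, hj⟩, ⟨l, hl⟩, p, q⟩, ⟨⟨r1, r2⟩, hr, hrl⟩,
        ⟨⟨u1, u2, u3, u4⟩, hu, hul⟩⟩ := s
      simp only at hrl hul ⊢
      rw [Finset.mem_range] at hl
      omega⟩
  have hf : Function.Bijective f := by
    constructor
    · intro s s' h
      have h0 := hdata s
      have h0' := hdata s'
      have hw := congrArg Subtype.val h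
      obtain ⟨⟨⟨i, hi⟩, ⟨j, hj⟩, ⟨l, hl⟩, p, q⟩, ⟨⟨r1, r2⟩, hr, hrl⟩,
        ⟨⟨u1, u2, u3, u4⟩, hu, hul⟩⟩ := s
      obtain ⟨⟨⟨i', hi'⟩, ⟨j', hj'⟩, ⟨l', hl'⟩, p', q'⟩, ⟨⟨r1', r2'⟩, hr', hrl'⟩,
        ⟨⟨u1', u2', u3', u4'⟩, hu', hul'⟩⟩ := s'
      simp only [f] at h0 h0' hw
      obtain ⟨rfl, rfl, rfl, rfl, rfl, rfl, rfl, rfl, rfl, rfl⟩ := lu_inj h0 h0' hw
      simp only at hrl hrl'
      obtain rfl : l = l' := by rw [← hrl, ← hrl']
      rfl
    · rintro ⟨w, hl, hw, hU, hL⟩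
      obtain ⟨i, j, r1, r2, p, q, u1, u2, u3, u4, hd, hn, rfl⟩ := lu_forward n w hl hw hU hL
      have hle := pair_le hd.2.2.1
      have h1 := hd.1
      have h2 := hd.2.1
      refine ⟨⟨⟨⟨i, ?_⟩, ⟨j, ?_⟩, ⟨r1.length, ?_⟩, p, q⟩, ⟨⟨r1, r2⟩, hd.2.2.1, rfl⟩,
        ⟨⟨u1, u2, u3, u4⟩, hd.2.2.2, ?_⟩⟩, rfl⟩
      · rw [Finset.mem_Icc]; omega
      · rw [Finset.mem_Icc]; omega
      · rw [Finset.mem_range]; omega
      · simp only; omega
  rw [← Nat.card_eq_of_bijective f hf]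
  have hfin : ∀ x : Idx n, Finite (Wk n x) := by
    intro x
    have := pair_finite (x.2.2.1 : ℕ) (((x.1 : ℕ) : ℤ) + ((x.2.1 : ℕ) : ℤ))
    have := quad_finite (n - 2 - (x.2.2.1 : ℕ)) (((x.1 : ℕ) : ℤ) - bit x.2.2.2.1) 1
      (((x.2.1 : ℕ) : ℤ) + bit x.2.2.2.2 - 1)
    infer_instance
  have := hfin
  rw [Nat.card_sigma]
  have hcard : ∀ x : Idx n, Nat.card (Wk n x) =
      pairN (x.2.2.1 : ℕ) (((x.1 : ℕ) : ℤ) + ((x.2.1 : ℕ) : ℤ)) *
      quadN (n - 2 - (x.2.2.1 : ℕ)) (((x.1 : ℕ) : ℤ) - bit x.2.2.2.1) 1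
      (((x.2.1 : ℕ) : ℤ) + bit x.2.2.2.2 - 1) := by
    intro x
    rw [Nat.card_prod, pair_card, quad_card]
  simp only [hcard]
  unfold luN
  simp only [Fintype.sum_prod_type]
  rw [← Finset.sum_coe_sort (Finset.Icc 1 n)]
  refine Finset.sum_congr rfl fun i _ => ?_
  rw [← Finset.sum_coe_sort (Finset.Icc 1 n)]
  refine Finset.sum_congr rfl fun j _ => ?_
  rw [← Finset.sum_coe_sort (Finset.range (n - 1))]
  refine Finset.sum_congr rfl fun l _ => ?_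
  simp only [Finset.mul_sum]

end Pool.Agent.Helper99.TC
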