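import Pool.Agent.Helper99.TC.Blocks
import Pool.Agent.Helper99.TC.PQIff
import Pool.Agent.Helper99.TC.Anom

/-!
# TC-12: a three-choice polygon which begins with U and ends with L comes from `LUData`

Proof. Let `m = w.length = 2 n` (`m > 2` because a word U L is not closed). `cw_of_tcp`, `nc_of_not_dvd`, `root_LU`, `anom_struct` give `a, l, d ≥ 1` with `m = 2a + 2l + 2d`, up on `[0, a)`, down on `[a, 2a+l)`, up on `[2a+l, 2a+2l+d)`, down on `[2a+2l+d, m)`.
By `ups_block`, `downs_block` the word is `ne A ++ sw B ++ ne C ++ sw D` with `|A| = a`, `|B| = a + l`, `|C| = l + d`, `|D| = d`. The first letter is U: `A = false :: u2`; the last is L: `D = true :: u3`. Put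
`B = r2.reverse ++ p :: u1` with `|r2| = l`, `|u1| = a - 1` and `C = r1.reverse ++ q :: u4` with `|r1| = l`, `|u4| = d - 1`.
In coordinates (X, level), with the root at (0, 0): strand A at level k is `cnt (A.take k)`, `0 ≤ k ≤ a`; strand D at level k is `cnt (D.take k)`, `0 ≤ k ≤ d`; strand B at level k (`-l ≤ k ≤ a`) is `x0 + cnt (B.take (k + l))` and strand C (`-l ≤ k ≤ d`) is
`x0 + cnt (C.take (k + l))` with the same `x0` (the bottom vertex). Two strands are at different places at every common level (`IsTCP.inj`, `pos_ne`, `pos_sw`) except at their common end points. From level to level a strand moves by 0 or 1, so the order of two strands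
cannot change. B < A just below level `a` (normal corner U, L), hence on `[0, a - 1]`; in particular B is at `-i < 0` at level 0. D < C just below level `d`, hence on `[0, d - 1]`, and C is at `j > 0` at level 0. A < D at level 1 (0 and 1), hence on all levels `[1, min a d]`.
B < C on the levels `(-l, 0]` by the order at level 0 (`-i < j`). Now `pair_iff` and `quad_iff` give `Pair (i + j) r1 r2` (going down from level 0, `r1` = bits of C, `r2` = bits of B) and `Quad (i - bit p) 1 (j + bit q - 1) u1 u2 u3 u4` (going up from level 1: B at `-i + bit p`, A at 0, D at 1, C at `j + bit q`).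
-/

set_option autoImplicit false

namespace Pool.Agent.Helper99.TC

private theorem lf_cnt_nil : cnt [] = 0 := rfl

private theorem lf_cnt_cons (b : Bool) (u : List Bool) : cnt (b :: u) = bit b + cnt u := by
  simp [cnt]

private theorem lf_cnt_append (u v : List Bool) : cnt (u ++ v) = cnt u + cnt v := by
  simp [cnt]

private theorem lf_bit (b : Bool) : 0 ≤ bit b ∧ bit b ≤ 1 := by
  cases b <;> simp [bit]

private theorem lf_cnt_reverse (u : List Bool) : cnt u.reverse = cnt u := by
  induction u with
  | nil => rfl
  | cons b u ih =>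
    rw [List.reverse_cons, lf_cnt_append, ih, lf_cnt_cons, lf_cnt_cons, lf_cnt_nil]
    ring

private theorem lf_take_succ (u : List Bool) (k : ℕ) :
    cnt (u.take k) ≤ cnt (u.take (k + 1)) ∧ cnt (u.take (k + 1)) ≤ cnt (u.take k) + 1 := by
  induction u generalizing k with
  | nil => simp [cnt]
  | cons b u ih =>
    cases k with
    | zero =>
      have hb := lf_bit b
      simp only [List.take_zero, List.take_succ_cons, lf_cnt_cons, lf_cnt_nil, zero_add]
      omega
    | succ k =>
      have h1 := ih k
      simp only [List.take_succ_cons, lf_cnt_cons]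
      omega

/-- order of two strands, going down -/
private theorem lf_down (f g : ℕ → ℤ) (hf : ∀ k, f k ≤ f (k + 1) ∧ f (k + 1) ≤ f k + 1)
    (hg : ∀ k, g k ≤ g (k + 1) ∧ g (k + 1) ≤ g k + 1) (lo hi : ℕ)
    (hne : ∀ k, lo ≤ k → k ≤ hi → f k ≠ g k) (h0 : f hi < g hi) :
    ∀ k, lo ≤ k → k ≤ hi → f k < g k := by
  intro k hk1 hk2
  obtain ⟨t, rfl⟩ := Nat.exists_eq_add_of_le hk2
  clear hk2
  induction t generalizing k with
  | zero => simpa using h0
  | succ t ih =>
    have h1 := ih (k + 1) (by omega) (by
        intro q hq1 hq2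
        exact hne q hq1 (by omega)) (by
        have : k + 1 + t = k + (t + 1) := by omega
        rw [this]; exact h0)
    have h2 := hf k
    have h3 := hg k
    have h4 := hne k hk1 (by omega)
    omega

/-- order of two strands, going up -/
private theorem lf_up (f g : ℕ → ℤ) (hf : ∀ k, f k ≤ f (k + 1) ∧ f (k + 1) ≤ f k + 1)
    (hg : ∀ k, g k ≤ g (k + 1) ∧ g (k + 1) ≤ g k + 1) (lo hi : ℕ)
    (hne : ∀ k, lo ≤ k → k ≤ hi → f k ≠ g k) (h0 : f lo < g lo) :
    ∀ k, lo ≤ k → k ≤ hi → f k < g k := by
  intro k hk1 hk2
  obtain ⟨t, rfl⟩ := Nat.exists_eq_add_of_le hk1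
  clear hk1
  induction t with
  | zero => simpa using h0
  | succ t ih =>
    have h1 := ih (by omega)
    have h2 := hf (lo + t)
    have h3 := hg (lo + t)
    have h4 := hne (lo + (t + 1)) (by omega) hk2
    have h5 : lo + (t + 1) = lo + t + 1 := by omega
    rw [h5] at h4 ⊢
    omega

private theorem lf_X {w : List Step} (hc : pos w w.length = 0) (k : ℕ)
    (hk : k ≤ w.length) :
    Xw w (k : ℤ) = (pos w k).1 ∧ lev w (k : ℤ) = (pos w k).1 + (pos w k).2 := by
  rcases Nat.lt_or_ge k w.length with h | h
  · have h1 : ((k : ℤ) % (w.length : ℤ)).toNat = k := by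
      rw [← Int.natCast_mod, Int.toNat_natCast, Nat.mod_eq_of_lt h]
    unfold Xw lev
    rw [h1]
    exact ⟨rfl, rfl⟩
  · have h2 : k = w.length := by omega
    have h1 : ((k : ℤ) % (w.length : ℤ)).toNat = 0 := by
      rw [h2, Int.emod_self, Int.toNat_zero]
    unfold Xw lev
    rw [h1, pos_zero, h2, hc]
    exact ⟨rfl, rfl⟩

/-- the positions of a word of four blocks -/
private theorem lf_pos (A B C D : List Bool) (w : List Step)
    (hw : w = ne A ++ (sw B ++ (ne C ++ sw D))) :
    (∀ k, k ≤ A.length → pos w k = (cnt (A.take k), k - cnt (A.take k))) ∧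
    (∀ k, k ≤ B.length → pos w (A.length + (B.length - k)) =
      (cnt A - cnt B + cnt (B.take k), (A.length : ℤ) - B.length + k -
        (cnt A - cnt B + cnt (B.take k)))) ∧
    (∀ k, k ≤ C.length → pos w (A.length + B.length + k) =
      (cnt A - cnt B + cnt (C.take k), (A.length : ℤ) - B.length + k -
        (cnt A - cnt B + cnt (C.take k)))) ∧
    (∀ k, k ≤ D.length → pos w (A.length + B.length + C.length + (D.length - k)) =
      (cnt A - cnt B + cnt C - cnt D + cnt (D.take k),
        (A.length : ℤ) - B.length + C.length - D.length + k -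
        (cnt A - cnt B + cnt C - cnt D + cnt (D.take k)))) := by
  have hA : pos (ne A) A.length = (cnt A, A.length - cnt A) := by
    rw [pos_ne A A.length le_rfl, List.take_length]
  have hB : pos (sw B) B.length = (- cnt B, cnt B - B.length) := by
    rw [pos_sw B B.length le_rfl]
    simp [lf_cnt_nil]
  have hC : pos (ne C) C.length = (cnt C, C.length - cnt C) := by
    rw [pos_ne C C.length le_rfl, List.take_length]
  have lA := ne_length A
  have lB := sw_length B
  have lC := ne_length C
  have e1 : ∀ k, pos w (A.length + k) = (cnt A, A.length - cnt A) +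
      pos (sw B ++ (ne C ++ sw D)) k := by
    intro k
    have := pos_append_right (ne A) (sw B ++ (ne C ++ sw D)) k
    rw [lA, hA] at this
    rw [hw, this]
  have e2 : ∀ k, pos (sw B ++ (ne C ++ sw D)) (B.length + k) = (- cnt B, cnt B - B.length) +
      pos (ne C ++ sw D) k := by
    intro k
    have := pos_append_right (sw B) (ne C ++ sw D) k
    rw [lB, hB] at this
    rw [this]
  have e3 : ∀ k, pos (ne C ++ sw D) (C.length + k) = (cnt C, C.length - cnt C) +
      pos (sw D) k := by
    intro k
    have := pos_append_right (ne C) (sw D) k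
    rw [lC, hC] at this
    rw [this]
  refine ⟨?_, ?_, ?_, ?_⟩
  · intro k hk
    rw [hw, pos_append_left _ _ k (by rw [lA]; exact hk), pos_ne A k hk]
  · intro k hk
    rw [e1, pos_append_left _ _ _ (by rw [lB]; omega), pos_sw B _ (by omega)]
    have h1 : B.length - (B.length - k) = k := by omega
    rw [h1]
    ext
    · simp only [Prod.fst_add]; ring
    · simp only [Prod.snd_add]
      push_cast [Nat.cast_sub hk]
      ring
  · intro k hk
    have h1 : A.length + B.length + k = A.length + (B.length + k) := by omega
    rw [h1, e1, e2, pos_append_left _ _ _ (by rw [lC]; omega), pos_ne C _ (by omega)]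
    ext
    · simp only [Prod.fst_add]; ring
    · simp only [Prod.snd_add]
      ring
  · intro k hk
    have h1 : A.length + B.length + C.length + (D.length - k) =
      A.length + (B.length + (C.length + (D.length - k))) := by omega
    rw [h1, e1, e2, e3, pos_sw D _ (by omega)]
    have h2 : D.length - (D.length - k) = k := by omega
    rw [h2]
    ext
    · simp only [Prod.fst_add]; ring
    · simp only [Prod.snd_add]
      push_cast [Nat.cast_sub hk]
      ring

private theorem lf_split (B : List Bool) (l m : ℕ) (h : B.length = l + m + 1) :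
    ∃ (r : List Bool) (p : Bool) (u : List Bool), B = r.reverse ++ p :: u ∧
      r.length = l ∧ u.length = m := by
  have h1 : l < B.length := by omega
  refine ⟨(B.take l).reverse, B[l], B.drop (l + 1), ?_, ?_, ?_⟩
  · rw [List.reverse_reverse, ← List.drop_eq_getElem_cons h1, List.take_append_drop]
  · rw [List.length_reverse, List.length_take]
    omega
  · rw [List.length_drop]
    omega

private theorem lf_low (r : List Bool) (p : Bool) (u : List Bool) (k : ℕ)
    (hk : k ≤ r.length) :
    cnt ((r.reverse ++ p :: u).take (r.length - k)) = cnt r - cnt (r.take k) := by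
  rw [List.take_append_of_le_length (by rw [List.length_reverse]; omega)]
  have h1 : r.reverse.take (r.length - k) = (r.drop k).reverse := by
    rw [List.take_reverse]
    congr 2
    omega
  rw [h1, lf_cnt_reverse]
  have h2 : cnt r = cnt (r.take k) + cnt (r.drop k) := by
    rw [← lf_cnt_append, List.take_append_drop]
  omega

private theorem lf_high (r : List Bool) (p : Bool) (u : List Bool) (k : ℕ) :
    cnt ((r.reverse ++ p :: u).take (k + 1 + r.length)) = cnt r + bit p + cnt (u.take k) := by
  have h1 : k + 1 + r.length = r.reverse.length + (k + 1) := by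
    rw [List.length_reverse]
    omega
  rw [h1, List.take_length_add_append, lf_cnt_append, lf_cnt_reverse, List.take_succ_cons,
    lf_cnt_cons]
  ring

theorem lu_forward (n : ℕ) (w : List Step) (hl : w.length = 2 * n) (hw : IsTCP w)
    (hU : w.head? = some Step.U) (hL : w.getLast? = some Step.L) :
    ∃ (i j : ℕ) (r1 r2 : List Bool) (p q : Bool) (u1 u2 u3 u4 : List Bool),
      LUData i j r1 r2 p q u1 u2 u3 u4 ∧ r1.length + 2 + u1.length + u3.length = n ∧
      w = luWord r1 r2 p q u1 u2 u3 u4 := by
  have hc := hw.closed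
  -- the length is more than 2
  have hlen : 2 < w.length := by
    by_contra hcon
    have h1 : n = 0 ∨ n = 1 := by omega
    rcases h1 with rfl | rfl
    · have h2 : w = [] := List.length_eq_zero_iff.mp (by omega)
      rw [h2] at hU
      simp at hU
    · obtain ⟨s, t, rfl⟩ := List.length_eq_two.mp (show w.length = 2 by omega)
      simp only [List.head?_cons, Option.some.injEq] at hU
      simp only [List.getLast?_cons_cons, List.getLast?_singleton, Option.some.injEq] at hL
      subst hU
      subst hL
      have h3 : (pos [Step.U, Step.L] 2).1 = -1 := by decide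
      have h4 : (pos [Step.U, Step.L] 2).1 = 0 := by
        have := congrArg Prod.fst hc
        simpa using this
      omega
  have h0 : 0 < w.length := by omega
  obtain ⟨x1, x2, x3, x4⟩ := root_LU hw hlen hU hL
  have hcw := cw_of_tcp hw h0
  have hroot : lev w 0 = 0 ∧ Xw w 0 = 0 := by
    have := lf_X hc 0 (Nat.zero_le _)
    rw [pos_zero] at this
    exact ⟨by simpa using this.2, by simpa using this.1⟩
  obtain ⟨a, l, d, ha, hl1, hd, hm, hup1, hdn1, hup2, hdn2⟩ :=
    anom_struct hcw (fun k hk => nc_of_not_dvd hw h0 k hk) x1 x2 x3 x4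
  -- the four blocks
  obtain ⟨A, hAl, hA⟩ := ups_block hc 0 a (by omega) (by simpa using hup1)
  obtain ⟨B, hBl, hB⟩ := downs_block hc a (a + l) (by omega) hdn1
  obtain ⟨C, hCl, hC⟩ := ups_block hc (2 * a + l) (l + d) (by omega) (by
    have : ((2 * a + l : ℕ) : ℤ) = 2 * (a : ℤ) + l := by push_cast; ring
    rw [this]; exact hup2)
  obtain ⟨D, hDl, hD⟩ := downs_block hc (2 * a + 2 * l + d) d (by omega) (by
    have : ((2 * a + 2 * l + d : ℕ) : ℤ) = 2 * (a : ℤ) + 2 * l + d := by push_cast; ring
    rw [this]; exact hdn2)
  have hwd : w = ne A ++ (sw B ++ (ne C ++ sw D)) := by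
    rw [← hA, ← hB, ← hC, ← hD]
    rw [List.drop_zero]
    have e1 : w = w.take a ++ w.drop a := (List.take_append_drop a w).symm
    have e2 : w.drop a = (w.drop a).take (a + l) ++ w.drop (2 * a + l) := by
      have := (List.take_append_drop (a + l) (w.drop a)).symm
      rw [List.drop_drop] at this
      have e : a + (a + l) = 2 * a + l := by omega
      rw [e] at this
      exact this
    have e3 : w.drop (2 * a + l) = (w.drop (2 * a + l)).take (l + d) ++
        w.drop (2 * a + 2 * l + d) := by
      have := (List.take_append_drop (l + d) (w.drop (2 * a + l))).symm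
      rw [List.drop_drop] at this
      have e : 2 * a + l + (l + d) = 2 * a + 2 * l + d := by omega
      rw [e] at this
      exact this
    have e4 : (w.drop (2 * a + 2 * l + d)).take d = w.drop (2 * a + 2 * l + d) := by
      apply List.take_of_length_le
      rw [List.length_drop]
      omega
    rw [e4, ← e3, ← e2, ← e1]
  obtain ⟨pA, pB, pC, pD⟩ := lf_pos A B C D w hwd
  rw [hAl, hBl] at pB
  rw [hAl, hBl] at pC
  rw [hAl, hBl, hCl, hDl] at pD
  rw [hAl] at pA
  have hclose : cnt A - cnt B + cnt C = cnt D := by
    have h1 := pD 0 (Nat.zero_le _)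
    have h2 : a + (a + l) + (l + d) + (d - 0) = w.length := by omega
    rw [h2, hc] at h1
    have h3 := congrArg Prod.fst h1
    simp only [Prod.fst_zero, List.take_zero, lf_cnt_nil] at h3
    linarith
  have pD' : ∀ k, k ≤ d → pos w (a + (a + l) + (l + d) + (d - k)) =
      (cnt (D.take k), (k : ℤ) - cnt (D.take k)) := by
    intro k hk
    rw [pD k hk]
    push_cast
    ext
    · simp only; linarith
    · simp only; linarith
  obtain ⟨x0, hx0⟩ : ∃ x0 : ℤ, x0 = cnt A - cnt B := ⟨_, rfl⟩
  rw [← hx0] at pB pC hclose
  have sA : ∀ k, cnt (A.take k) ≤ cnt (A.take (k + 1)) ∧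
      cnt (A.take (k + 1)) ≤ cnt (A.take k) + 1 := lf_take_succ A
  have sD : ∀ k, cnt (D.take k) ≤ cnt (D.take (k + 1)) ∧
      cnt (D.take (k + 1)) ≤ cnt (D.take k) + 1 := lf_take_succ D
  have sB : ∀ k, x0 + cnt (B.take k) ≤ x0 + cnt (B.take (k + 1)) ∧
      x0 + cnt (B.take (k + 1)) ≤ x0 + cnt (B.take k) + 1 := by
    intro k
    have := lf_take_succ B k
    omega
  have sC : ∀ k, x0 + cnt (C.take k) ≤ x0 + cnt (C.take (k + 1)) ∧
      x0 + cnt (C.take (k + 1)) ≤ x0 + cnt (C.take k) + 1 := by
    intro k
    have := lf_take_succ C k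
    omega
  -- the first letters
  obtain ⟨u2, rfl⟩ : ∃ u2, A = false :: u2 := by
    cases A with
    | nil => simp at hAl; omega
    | cons b u =>
      rw [hwd] at hU
      simp only [ne, List.map_cons, List.cons_append, List.head?_cons, Option.some.injEq] at hU
      cases b with
      | false => exact ⟨u, rfl⟩
      | true => simp at hU
  obtain ⟨u3, rfl⟩ : ∃ u3, D = true :: u3 := by
    cases D with
    | nil => simp at hDl; omega
    | cons b u =>
      have e1 : sw (b :: u) = sw u ++ [if b then Step.L else Step.D] := by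
        simp [sw]
      rw [hwd, e1] at hL
      rw [← List.append_assoc, ← List.append_assoc, ← List.append_assoc,
        List.getLast?_concat, Option.some.injEq] at hL
      cases b with
      | true => exact ⟨u, rfl⟩
      | false => simp at hL
  -- the strands do not meet
  have nAB : ∀ e, 0 ≤ e → e ≤ a - 1 → x0 + cnt (B.take (e + l)) ≠ cnt ((false :: u2).take e) := by
    intro e _ he h
    have h1 := hw.inj (a + (a + l - (e + l))) e (by omega) (by omega) (by
      rw [pB (e + l) (by omega), pA e (by omega)]
      ext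
      · simp only; omega
      · simp only; push_cast; omega)
    omega
  have nCD : ∀ e, 0 ≤ e → e ≤ d - 1 → cnt ((true :: u3).take e) ≠ x0 + cnt (C.take (e + l)) := by
    intro e _ he h
    rcases Nat.eq_zero_or_pos e with rfl | he0
    · have h1 := hw.inj 0 (a + (a + l) + (0 + l)) (by omega) (by omega) (by
        rw [pC (0 + l) (by omega), pA 0 (by omega)]
        simp only [List.take_zero, lf_cnt_nil] at h ⊢
        ext
        · simp only; omega
        · simp only; push_cast; omega)
      omega
    · have h1 := hw.inj (a + (a + l) + (l + d) + (d - e)) (a + (a + l) + (e + l)) (by omega)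
        (by omega) (by
        rw [pC (e + l) (by omega), pD' e (by omega)]
        ext
        · simp only; omega
        · simp only; push_cast; omega)
      omega
  have nAD : ∀ e, 1 ≤ e → e ≤ min a d →
      cnt ((false :: u2).take e) ≠ cnt ((true :: u3).take e) := by
    intro e he1 he2 h
    have h1 := hw.inj e (a + (a + l) + (l + d) + (d - e)) (by omega)
        (by omega) (by
        rw [pA e (by omega), pD' e (by omega)]
        ext
        · simp only; omega
        · simp only; omega)
    omega
  have nBC : ∀ e, 1 ≤ e → e ≤ l → x0 + cnt (B.take e) ≠ x0 + cnt (C.take e) := by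
    intro e he1 he2 h
    have h1 := hw.inj (a + (a + l - e)) (a + (a + l) + e) (by omega)
        (by omega) (by
        rw [pB e (by omega), pC e (by omega)]
        ext
        · simp only; omega
        · simp only; push_cast; omega)
    omega
  -- the tops
  have tAB : x0 + cnt (B.take (a - 1 + l)) < cnt ((false :: u2).take (a - 1)) := by
    have hn := nc_of_not_dvd hw h0 (a : ℤ) (by
      intro hdvd
      have := Int.le_of_dvd (by omega) hdvd
      omega)
    have q0 := lf_X hc a (by omega)
    have q1 := lf_X hc (a - 1) (by omega)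
    have q2 := lf_X hc (a + 1) (by omega)
    have z1 : ((a - 1 : ℕ) : ℤ) = (a : ℤ) - 1 := by omega
    have z2 : ((a + 1 : ℕ) : ℤ) = (a : ℤ) + 1 := by omega
    have z3 : a + 1 = a + (a + l - (a - 1 + l)) := by omega
    rw [z1, pA (a - 1) (by omega)] at q1
    rw [z2, z3, pB (a - 1 + l) (by omega)] at q2
    rw [pA a le_rfl] at q0
    simp only at q0 q1 q2
    obtain ⟨h1, h2⟩ := hn.1 (by rw [q1.2, q0.2]; omega)
      (by rw [q2.2, q0.2]; push_cast; omega)
    rw [q1.1] at h1
    rw [q2.1] at h2
    omega
  have tCD : cnt ((true :: u3).take (d - 1)) < x0 + cnt (C.take (d - 1 + l)) := by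
    have hn := nc_of_not_dvd hw h0 ((2 * a + 2 * l + d : ℕ) : ℤ) (by
      intro hdvd
      have := Int.le_of_dvd (by omega) hdvd
      omega)
    have q0 := lf_X hc (2 * a + 2 * l + d) (by omega)
    have q1 := lf_X hc (2 * a + 2 * l + d - 1) (by omega)
    have q2 := lf_X hc (2 * a + 2 * l + d + 1) (by omega)
    have z1 : ((2 * a + 2 * l + d - 1 : ℕ) : ℤ) = ((2 * a + 2 * l + d : ℕ) : ℤ) - 1 := by omega
    have z2 : ((2 * a + 2 * l + d + 1 : ℕ) : ℤ) = ((2 * a + 2 * l + d : ℕ) : ℤ) + 1 := by omega
    have z3 : 2 * a + 2 * l + d + 1 = a + (a + l) + (l + d) + (d - (d - 1)) := by omega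
    have z4 : 2 * a + 2 * l + d - 1 = a + (a + l) + (d - 1 + l) := by omega
    have z5 : 2 * a + 2 * l + d = a + (a + l) + (l + d) + (d - d) := by omega
    rw [z1, z4, pC (d - 1 + l) (by omega)] at q1
    rw [z2, z3, pD' (d - 1) (by omega)] at q2
    have p0 := pD' d le_rfl
    rw [← z5] at p0
    rw [p0] at q0
    simp only at q0 q1 q2
    obtain ⟨h1, h2⟩ := hn.1 (by rw [q1.2, q0.2]; push_cast; omega)
      (by rw [q2.2, q0.2]; omega)
    rw [q1.1] at h1
    rw [q2.1] at h2
    omega
  -- the order of the strands
  have oAB := lf_down (fun e => x0 + cnt (B.take (e + l))) (fun e => cnt ((false :: u2).take e))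
    (fun k => by
      have := sB (k + l)
      have e : k + l + 1 = k + 1 + l := by omega
      rw [e] at this
      exact this) sA 0 (a - 1) nAB tAB
  have oDC := lf_down (fun e => cnt ((true :: u3).take e)) (fun e => x0 + cnt (C.take (e + l)))
    sD (fun k => by
      have := sC (k + l)
      have e : k + l + 1 = k + 1 + l := by omega
      rw [e] at this
      exact this) 0 (d - 1) nCD tCD
  have oAD := lf_up (fun e => cnt ((false :: u2).take e)) (fun e => cnt ((true :: u3).take e))
    sA sD 1 (min a d) nAD (by
      simp only [List.take_succ_cons, List.take_zero]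
      simp [cnt, bit])
  have o1 := oAB 0 le_rfl (Nat.zero_le _)
  have o2 := oDC 0 le_rfl (Nat.zero_le _)
  simp only [List.take_zero, lf_cnt_nil, zero_add] at o1 o2
  have oBC := lf_down (fun e => x0 + cnt (B.take e)) (fun e => x0 + cnt (C.take e))
    sB sC 1 l nBC (by omega)
  -- splitting the blocks
  obtain ⟨r2, p, u1, rfl, hr2, hu1⟩ := lf_split B l (a - 1) (by omega)
  obtain ⟨r1, q, u4, rfl, hr1, hu4⟩ := lf_split C l (d - 1) (by omega)
  have t1 : cnt ((r2.reverse ++ p :: u1).take l) = cnt r2 := by
    have := lf_low r2 p u1 0 (Nat.zero_le _)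
    rw [Nat.sub_zero, hr2] at this
    simpa [lf_cnt_nil] using this
  have t2 : cnt ((r1.reverse ++ q :: u4).take l) = cnt r1 := by
    have := lf_low r1 q u4 0 (Nat.zero_le _)
    rw [Nat.sub_zero, hr1] at this
    simpa [lf_cnt_nil] using this
  rw [t1] at o1
  rw [t2] at o2
  have c1 : cnt (false :: u2) = cnt u2 := by simp [lf_cnt_cons, bit]
  have c2 : cnt (true :: u3) = 1 + cnt u3 := by simp [lf_cnt_cons, bit]
  have c3 : cnt (r2.reverse ++ p :: u1) = cnt r2 + bit p + cnt u1 := by
    rw [lf_cnt_append, lf_cnt_reverse, lf_cnt_cons]; ring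
  have c4 : cnt (r1.reverse ++ q :: u4) = cnt r1 + bit q + cnt u4 := by
    rw [lf_cnt_append, lf_cnt_reverse, lf_cnt_cons]; ring
  rw [c3, c1] at hx0
  rw [c4, c2] at hclose
  simp only [List.length_cons] at hAl hDl
  obtain ⟨i, hi⟩ := Int.eq_ofNat_of_zero_le (show 0 ≤ -(x0 + cnt r2) by omega)
  obtain ⟨j, hj⟩ := Int.eq_ofNat_of_zero_le (show 0 ≤ x0 + cnt r1 by omega)
  refine ⟨i, j, r1, r2, p, q, u1, u2, u3, u4, ⟨by omega, by omega, ?_, ?_⟩, by omega, ?_⟩
  · rw [pair_iff]
    refine ⟨by omega, ?_, by omega⟩
    intro k hk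
    have h1 := oBC (l - k) (by omega) (by omega)
    have h2 := lf_low r2 p u1 k (by omega)
    have h3 := lf_low r1 q u4 k (by omega)
    rw [hr2] at h2
    rw [hr1] at h3
    rw [h2, h3] at h1
    omega
  · rw [quad_iff]
    refine ⟨by omega, by omega, ?_, by omega, ?_, by omega, ?_⟩
    · intro k hk
      have h1 := oAB (k + 1) (Nat.zero_le _) (by omega)
      have h2 := lf_high r2 p u1 k
      rw [hr2] at h2
      rw [h2, List.take_succ_cons, lf_cnt_cons] at h1
      have h3 : bit false = 0 := rfl
      omega
    · intro k hk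
      have h1 := oDC (k + 1) (Nat.zero_le _) (by omega)
      have h2 := lf_high r1 q u4 k
      rw [hr1] at h2
      rw [h2, List.take_succ_cons, lf_cnt_cons] at h1
      have h3 : bit true = 1 := rfl
      omega
    · intro k hk
      have h1 := oAD (k + 1) (by omega) (by omega)
      rw [List.take_succ_cons, List.take_succ_cons, lf_cnt_cons, lf_cnt_cons] at h1
      have h3 : bit true = 1 := rfl
      have h4 : bit false = 0 := rfl
      omega
  · rw [hwd]
    simp only [luWord, List.append_assoc]

end Pool.Agent.Helper99.TC
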