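import Pool.Agent.Helper99.TC.ThGs
import Pool.Agent.Helper99.TC.Coefs

/-!
# Arithmetic of coefficient lists
-/

set_option autoImplicit false

open PowerSeries

namespace Pool.Agent.Helper99.TC

namespace LP

/-- sum -/
def ladd : List ℤ → List ℤ → List ℤ
  | [], b => b
  | x :: a, [] => x :: a
  | x :: a, y :: b => (x + y) :: ladd a b

/-- scalar multiple -/
def lsmul (c : ℤ) : List ℤ → List ℤ
  | [] => []
  | x :: a => (c * x) :: lsmul c a

/-- product -/
def lmul : List ℤ → List ℤ → List ℤ
  | [], _ => []
  | x :: a, b => ladd (lsmul x b) (0 :: lmul a b)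

/-- θ plus n -/
def lthA (n : ℤ) : List ℤ → List ℤ
  | [] => []
  | x :: a => (n * x) :: lthA (n + 1) a

/-- θ -/
def lth (l : List ℤ) : List ℤ := lthA 0 l

/-- all zero -/
def lz : List ℤ → Bool
  | [] => true
  | x :: a => (x == 0) && lz a

theorem pl_nil' : pl [] = 0 := rfl

theorem pl_cons' (a : ℤ) (l : List ℤ) : pl (a :: l) = (a : ℚ⟦X⟧) + X * pl l := rfl

theorem pl_ladd (a b : List ℤ) : pl (ladd a b) = pl a + pl b := by
  induction a generalizing b with
  | nil => simp [ladd, pl_nil']
  | cons x a ih =>
    cases b with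
    | nil => simp [ladd, pl_nil']
    | cons y b =>
      simp only [ladd, pl_cons', ih]
      push_cast
      ring

theorem pl_lsmul (c : ℤ) (a : List ℤ) : pl (lsmul c a) = (c : ℚ⟦X⟧) * pl a := by
  induction a with
  | nil => simp [lsmul, pl_nil']
  | cons x a ih =>
    simp only [lsmul, pl_cons', ih]
    push_cast
    ring

theorem pl_lmul (a b : List ℤ) : pl (lmul a b) = pl a * pl b := by
  induction a with
  | nil => simp [lmul, pl_nil']
  | cons x a ih =>
    simp only [lmul, pl_ladd, pl_lsmul, pl_cons', ih]
    push_cast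
    ring

theorem pl_lthA (n : ℤ) (a : List ℤ) : pl (lthA n a) = (n : ℚ⟦X⟧) * pl a + th (pl a) := by
  induction a generalizing n with
  | nil => simp [lthA, pl_nil', th_zero]
  | cons x a ih =>
    simp only [lthA, pl_cons', ih, th_add, th_mul, th_X, th_intCast]
    push_cast
    ring

theorem th_pl (a : List ℤ) : th (pl a) = pl (lth a) := by
  unfold lth
  rw [pl_lthA]
  push_cast
  ring

theorem pl_lz (a : List ℤ) (h : lz a = true) : pl a = 0 := by
  induction a with
  | nil => rfl
  | cons x a ih =>
    simp only [lz, Bool.and_eq_true, beq_iff_eq] at h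
    rw [pl_cons', ih h.2, h.1]
    simp

theorem pl_congr (a b : List ℤ) (h : lz (ladd a (lsmul (-1) b)) = true) : pl a = pl b := by
  have := pl_lz _ h
  rw [pl_ladd, pl_lsmul] at this
  push_cast at this
  linear_combination this

end LP

end Pool.Agent.Helper99.TC
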