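import Pool.Agent.Helper99.TC.AlBe

/-!
# TC-26: `Nser` as a double geometric sum

Proof. Coefficient of `X ^ n` of the right hand side: `gs` may be truncated (`X ∣ al`), only `i, j < n` matter, `al ^ (i + 1) * al ^ (j + 1) = pairS (i + j + 2)` (`pairS_nat`), the coefficient of a product `X^2 * pairS * quadS` is the Cauchy product `∑_{l + k = n - 2}`; compare with the definition of `luN` (indices shifted by one).
-/

set_option autoImplicit false

open PowerSeries

namespace Pool.Agent.Helper99.TC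

/-- the inner sum -/
noncomputable def nq (i j : ℕ) : ℚ⟦X⟧ :=
  ∑ a : Bool, ∑ b : Bool, quadS ((i : ℤ) + 1 - bit a) 1 ((j : ℤ) + bit b)

theorem coeff_nq (i j k : ℕ) : coeff k (nq i j) =
    ((∑ a : Bool, ∑ b : Bool, quadN k ((i : ℤ) + 1 - bit a) 1 ((j : ℤ) + bit b) : ℕ) : ℚ) := by
  simp only [nq, quadS, map_sum, coeff_mk, Nat.cast_sum]

theorem nq_trunc (n : ℕ) : (X : ℚ⟦X⟧) ^ n ∣ gs al (fun i => gs al (fun j => nq i j)) -
    ∑ i ∈ Finset.range n, ∑ j ∈ Finset.range n, al ^ i * al ^ j * nq i j := by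
  have h1 := gs_dvd al X_dvd_al (fun i => gs al (fun j => nq i j)) n
  have h2 : (X : ℚ⟦X⟧) ^ n ∣ ∑ i ∈ Finset.range n, al ^ i * gs al (fun j => nq i j) -
      ∑ i ∈ Finset.range n, ∑ j ∈ Finset.range n, al ^ i * al ^ j * nq i j := by
    rw [← Finset.sum_sub_distrib]
    refine Finset.dvd_sum fun i _ => ?_
    have h3 := gs_dvd al X_dvd_al (fun j => nq i j) n
    have h4 : al ^ i * gs al (fun j => nq i j) -
        ∑ j ∈ Finset.range n, al ^ i * al ^ j * nq i j =
        al ^ i * (gs al (fun j => nq i j) - ∑ j ∈ Finset.range n, al ^ j * nq i j) := by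
      rw [mul_sub, Finset.mul_sum]
      congr 1
      exact Finset.sum_congr rfl fun j _ => by ring
    rw [h4]
    exact h3.mul_left _
  have h5 := dvd_add h1 h2
  rwa [sub_add_sub_cancel] at h5

theorem coeff_rhs (n : ℕ) : coeff n (X ^ 2 * al ^ 2 * gs al (fun i => gs al (fun j => nq i j))) =
    coeff n (X ^ 2 * ∑ i ∈ Finset.range n, ∑ j ∈ Finset.range n,
      pairS ((i + j + 2 : ℕ) : ℤ) * nq i j) := by
  have h : (X : ℚ⟦X⟧) ^ (n + 1) ∣ X ^ 2 * al ^ 2 * gs al (fun i => gs al (fun j => nq i j)) -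
      X ^ 2 * ∑ i ∈ Finset.range n, ∑ j ∈ Finset.range n,
        pairS ((i + j + 2 : ℕ) : ℤ) * nq i j := by
    have h1 : X ^ 2 * al ^ 2 * gs al (fun i => gs al (fun j => nq i j)) -
      X ^ 2 * ∑ i ∈ Finset.range n, ∑ j ∈ Finset.range n,
        pairS ((i + j + 2 : ℕ) : ℤ) * nq i j = X ^ 2 * al ^ 2 *
        (gs al (fun i => gs al (fun j => nq i j)) -
        ∑ i ∈ Finset.range n, ∑ j ∈ Finset.range n, al ^ i * al ^ j * nq i j) := by
      rw [mul_sub, mul_assoc (X ^ 2) (al ^ 2) (∑ i ∈ Finset.range n, _)]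
      congr 2
      rw [Finset.mul_sum]
      refine Finset.sum_congr rfl fun i _ => ?_
      rw [Finset.mul_sum]
      refine Finset.sum_congr rfl fun j _ => ?_
      rw [pairS_nat]
      ring
    rw [h1]
    have h2 : (X : ℚ⟦X⟧) ^ (n + 1) ∣ X ^ (2 + n) := pow_dvd_pow _ (by omega)
    refine h2.trans ?_
    rw [pow_add]
    exact mul_dvd_mul (Dvd.intro _ rfl) (nq_trunc n)
  have h3 := (X_pow_dvd_iff.mp h) n (Nat.lt_succ_self n)
  rw [map_sub, sub_eq_zero] at h3
  exact h3

theorem coeff_Nser (n : ℕ) : coeff n Nser =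
    coeff n (X ^ 2 * ∑ i ∈ Finset.range n, ∑ j ∈ Finset.range n,
      pairS ((i + j + 2 : ℕ) : ℤ) * nq i j) := by
  rw [coeff_X_pow_mul']
  rcases Nat.lt_or_ge n 2 with hn | hn
  · rw [if_neg (by omega)]
    have h0 : n - 1 = 0 := by omega
    simp only [Nser, coeff_mk, luN, h0, Finset.range_zero, Finset.sum_empty, Finset.sum_const_zero,
      Nat.cast_zero]
  · rw [if_pos hn]
    obtain ⟨m, rfl⟩ : ∃ m, n = m + 2 := ⟨n - 2, by omega⟩
    have e1 : m + 2 - 2 = m := by omega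
    have e2 : m + 2 - 1 = m + 1 := by omega
    have hI : Finset.Icc 1 (m + 2) = (Finset.range (m + 2)).map ⟨fun i => i + 1, fun a b h => by simpa using h⟩ := by
      ext k
      simp only [Finset.mem_Icc, Finset.mem_map, Finset.mem_range, Function.Embedding.coeFn_mk]
      constructor
      · rintro ⟨h1, h2⟩
        exact ⟨k - 1, by omega, by omega⟩
      · rintro ⟨j, h1, rfl⟩
        omega
    rw [e1, map_sum]
    simp only [map_sum]
    rw [Nser, coeff_mk, luN, hI, e2]
    simp only [Finset.sum_map, Function.Embedding.coeFn_mk]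
    rw [Nat.cast_sum]
    refine Finset.sum_congr rfl fun i _ => ?_
    rw [Nat.cast_sum]
    refine Finset.sum_congr rfl fun j _ => ?_
    rw [Nat.cast_sum, coeff_mul, Finset.Nat.sum_antidiagonal_eq_sum_range_succ_mk]
    refine Finset.sum_congr rfl fun l _ => ?_
    rw [coeff_nq, Nat.cast_mul, pairS, coeff_mk]
    have e3 : m + 2 - 2 - l = m - l := by omega
    have e4 : (((i + 1 : ℕ) : ℤ) + ((j + 1 : ℕ) : ℤ)) = ((i + j + 2 : ℕ) : ℤ) := by
      push_cast
      ring
    rw [e3, e4]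
    congr 2
    refine Finset.sum_congr rfl fun a _ => Finset.sum_congr rfl fun b _ => ?_
    have e5 : (((i + 1 : ℕ) : ℤ) - bit a) = (i : ℤ) + 1 - bit a := by push_cast; ring
    have e6 : (((j + 1 : ℕ) : ℤ) + bit b - 1) = (j : ℤ) + bit b := by push_cast; ring
    rw [e5, e6]

theorem Nser_eq : Nser = X ^ 2 * al ^ 2 * gs al (fun i => gs al (fun j =>
    ∑ a : Bool, ∑ b : Bool, quadS ((i : ℤ) + 1 - bit a) 1 ((j : ℤ) + bit b))) := by
  ext n
  rw [coeff_Nser, ← coeff_rhs]
  rfl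

end Pool.Agent.Helper99.TC
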