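import Pool.Agent.Helper99.TC.HRec

/-!
# TC-27: the double geometric sum of `H` is the Gram determinant

`Dt_zero`: for `y = ![-(i+1), 0, 1, j+2]` and `s < 0` (rows 1, 2, 3 have zero b-entries and their g-parts are proportional: for `σ ≤ 0`, `g t (σ - 1) = al * g t σ`, `g_left`; take rows 1 and 2) or `s > t + 2` (rows 1 and 2 again: `b` entries vanish and `g t (σ+1) = al * g t σ` for `σ ≥ t`, `g_right`): `Dt t s y = 0`.
So `∑ᶠ s, Dt t s y = ∑ s ∈ Icc 0 (t+2), Dt t s y`.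

`Hsum`: exchange the sums (`gs_comm`, `gs_sum`); for fixed `t, s` the determinant is linear in the rows 0 and 3, so
`al * gs al (fun i => al * gs al (fun j => al * Dt ...))` is the determinant with row 0 replaced by `A = al * gs al (fun i => rho t (s + (i+1)) ·)` and row 3 by `al * (al * gs al (fun j => rho t (s - (j+2)) ·)) = B - al * rho t (s - 1)` with `B = al * gs al (fun i => rho t (s - (i+1)) ·)` (`gs_succ`).
By `rowsum_left`, `rowsum_right` and subtracting multiples of the rows `rho t s`, `rho t (s-1)`: the determinant is `1/4 det [(be + 1 - 2X) Γ0 - 2X Γ1; ρ0; ρ1; (be - 1 + 2X) Γ0 + 2X Γ1] = 1/4 * (4 X be) * det [Γ0; ρ0; ρ1; Γ1] = X be detN` (moving the last row to the second place is an even permutation).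
-/

set_option autoImplicit false

open PowerSeries

namespace Pool.Agent.Helper99.TC

private theorem det_four (M : Matrix (Fin 4) (Fin 4) ℚ⟦X⟧) :
    M.det = M 0 0 * (M 1 1 * (M 2 2 * M 3 3 - M 2 3 * M 3 2)
        - M 1 2 * (M 2 1 * M 3 3 - M 2 3 * M 3 1) + M 1 3 * (M 2 1 * M 3 2 - M 2 2 * M 3 1))
      - M 0 1 * (M 1 0 * (M 2 2 * M 3 3 - M 2 3 * M 3 2)
        - M 1 2 * (M 2 0 * M 3 3 - M 2 3 * M 3 0) + M 1 3 * (M 2 0 * M 3 2 - M 2 2 * M 3 0))
      + M 0 2 * (M 1 0 * (M 2 1 * M 3 3 - M 2 3 * M 3 1)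
        - M 1 1 * (M 2 0 * M 3 3 - M 2 3 * M 3 0) + M 1 3 * (M 2 0 * M 3 1 - M 2 1 * M 3 0))
      - M 0 3 * (M 1 0 * (M 2 1 * M 3 2 - M 2 2 * M 3 1)
        - M 1 1 * (M 2 0 * M 3 2 - M 2 2 * M 3 0) + M 1 2 * (M 2 0 * M 3 1 - M 2 1 * M 3 0)) := by
  rw [Matrix.det_succ_row_zero, Fin.sum_univ_four]
  simp only [Matrix.det_fin_three, Matrix.submatrix_apply]
  simp [Fin.succAbove, Fin.lt_def]
  ring

private theorem cb_neg (t : ℕ) (s : ℤ) (hs : s < 0) : cb t s = 0 := by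
  rw [cb, bz_neg t s hs, map_zero]

private theorem cb_big (t : ℕ) (s : ℤ) (hs : (t : ℤ) < s) : cb t s = 0 := by
  rw [cb, bz_big t s hs, map_zero]

theorem Dt_zero (t : ℕ) (s : ℤ) (i j : ℕ) (hs : s < 0 ∨ (t : ℤ) + 2 < s) :
    Dt t s ![-((i : ℤ) + 1), 0, 1, (j : ℤ) + 2] = 0 := by
  rw [Dt, det_four]
  simp only [Matrix.of_apply, Matrix.cons_val_zero, Matrix.cons_val_one, Matrix.cons_val,
    rho, sub_zero]
  rcases hs with hs | hs
  · rw [cb_neg t s hs, cb_neg t (s - 1) (by omega), cb_neg t (s - 1 - 1) (by omega),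
      g_left t s (by omega), g_left t (s - 1) (by omega), g_left t s (by omega)]
    ring
  · have h1 := g_right t (s - 1) (by omega)
    have h2 := g_right t (s - 1 - 1) (by omega)
    rw [sub_add_cancel] at h1 h2
    rw [cb_big t s (by omega), cb_big t (s - 1) (by omega), cb_big t (s - 1 - 1) (by omega),
      h1, h2]
    ring

private theorem gs_det_zero (r : ℕ → Fin 4 → ℚ⟦X⟧) (r1 r2 r3 : Fin 4 → ℚ⟦X⟧) :
    gs al (fun i => Matrix.det (Matrix.of ![r i, r1, r2, r3])) =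
      Matrix.det (Matrix.of ![fun c => gs al (fun i => r i c), r1, r2, r3]) := by
  have key : ∀ q : Fin 4 → ℚ⟦X⟧, Matrix.det (Matrix.of ![q, r1, r2, r3]) =
      ∑ c : Fin 4, q c * ((-1) ^ (c : ℕ) *
        Matrix.det ((Matrix.of ![0, r1, r2, r3]).submatrix Fin.succ c.succAbove)) := by
    intro q
    rw [Matrix.det_succ_row_zero]
    refine Finset.sum_congr rfl fun c _ => ?_
    have h1 : (Matrix.of ![q, r1, r2, r3]).submatrix Fin.succ c.succAbove =
        (Matrix.of ![0, r1, r2, r3]).submatrix Fin.succ c.succAbove := by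
      ext a b
      simp
    rw [h1]
    simp only [Matrix.of_apply, Matrix.cons_val_zero]
    ring
  simp_rw [key]
  rw [gs_sum]
  refine Finset.sum_congr rfl fun c _ => ?_
  rw [gs_mul_right al X_dvd_al]

private theorem det_cycle (r0 r1 r2 r3 : Fin 4 → ℚ⟦X⟧) :
    Matrix.det (Matrix.of ![r0, r1, r2, r3]) = - Matrix.det (Matrix.of ![r3, r1, r2, r0]) := by
  rw [det_four, det_four]
  simp only [Matrix.of_apply, Matrix.cons_val_zero, Matrix.cons_val_one, Matrix.cons_val]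
  ring

private theorem gs_neg (f : ℕ → ℚ⟦X⟧) : gs al (fun j => - f j) = - gs al f := by
  have := gs_mul_left al X_dvd_al (-1) f
  simpa using this

private theorem gs_det_three (r : ℕ → Fin 4 → ℚ⟦X⟧) (r0 r1 r2 : Fin 4 → ℚ⟦X⟧) :
    gs al (fun i => Matrix.det (Matrix.of ![r0, r1, r2, r i])) =
      Matrix.det (Matrix.of ![r0, r1, r2, fun c => gs al (fun i => r i c)]) := by
  rw [det_cycle, ← gs_det_zero, ← gs_neg]
  congr 1
  funext i
  rw [det_cycle]

private theorem Dt_eq (t : ℕ) (s : ℤ) (i j : ℕ) :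
    Dt t s ![-((i : ℤ) + 1), 0, 1, (j : ℤ) + 2] =
      Matrix.det (Matrix.of ![rho t (s + (i + 1)), rho t s, rho t (s - 1),
        rho t (s - (j + 2))]) := by
  rw [Dt]
  congr 2
  funext l
  fin_cases l
  · have h1 : s - -((i : ℤ) + 1) = s + (i + 1) := by omega
    exact congrArg (rho t) h1
  · simp
  · simp
  · simp

private theorem core (t : ℕ) (s : ℤ) :
    al ^ 3 * gs al (fun i => gs al (fun j => Dt t s ![-((i : ℤ) + 1), 0, 1, (j : ℤ) + 2])) =
      X * be * detN t s := by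
  simp_rw [Dt_eq]
  simp_rw [gs_det_three]
  rw [gs_det_zero]
  obtain ⟨A, hA⟩ : ∃ A : Fin 4 → ℚ⟦X⟧,
      A = fun c => gs al (fun i => rho t (s + (i + 1)) c) := ⟨_, rfl⟩
  obtain ⟨B, hB⟩ : ∃ B : Fin 4 → ℚ⟦X⟧,
      B = fun c => gs al (fun j => rho t (s - (j + 2)) c) := ⟨_, rfl⟩
  rw [← hA, ← hB]
  have h1 : ∀ c, 2 * (al * A c) =
      (be + 1 - 2 * X) * Gam t s c - 2 * X * Gam t (s - 1) c - 2 * rho t s c := by
    intro c
    rw [hA]
    exact rowsum_left t s c
  have h2 : ∀ c, 2 * (al ^ 2 * B c) =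
      (be - 1 + 2 * X) * Gam t s c + 2 * X * Gam t (s - 1) c - 2 * al * rho t (s - 1) c := by
    intro c
    rw [← rowsum_right t s c, gs_succ al X_dvd_al]
    have h3 : B c = gs al (fun j => rho t (s - (((j + 1 : ℕ) : ℤ) + 1)) c) := by
      have h5 : ∀ j : ℕ, s - ((j : ℤ) + 2) = s - (((j + 1 : ℕ) : ℤ) + 1) := by
        intro j
        omega
      rw [hB]
      simp only [h5]
    rw [← h3]
    simp only [Nat.cast_zero, zero_add]
    ring
  have h4 : (4 : ℚ⟦X⟧) ≠ 0 := by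
    rw [← map_ofNat (PowerSeries.C (R := ℚ)) 4]
    exact (map_ne_zero_iff _ PowerSeries.C_injective).2 (by norm_num)
  apply mul_left_cancel₀ h4
  have h5 : 4 * (al ^ 3 * Matrix.det (Matrix.of ![A, rho t s, rho t (s - 1), B])) =
      Matrix.det (Matrix.of ![fun c => 2 * (al * A c), rho t s, rho t (s - 1),
        fun c => 2 * (al ^ 2 * B c)]) := by
    rw [det_four, det_four]
    simp only [Matrix.of_apply, Matrix.cons_val_zero, Matrix.cons_val_one, Matrix.cons_val]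
    ring
  rw [h5]
  simp_rw [h1, h2]
  rw [detN, det_four, det_four]
  simp only [Matrix.of_apply, Matrix.cons_val_zero, Matrix.cons_val_one, Matrix.cons_val]
  ring

theorem Hsum : al ^ 3 * gs al (fun i => gs al (fun j => H ![-((i : ℤ) + 1), 0, 1, (j : ℤ) + 2])) =
    X * be * Dser := by
  have hX : (X : ℚ⟦X⟧) ∣ X ^ 2 := dvd_pow_self _ two_ne_zero
  have h1 : ∀ i j : ℕ, H ![-((i : ℤ) + 1), 0, 1, (j : ℤ) + 2] =
      gs (X ^ 2) (fun t => ∑ s ∈ Finset.Icc (0 : ℤ) (t + 2),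
        Dt t s ![-((i : ℤ) + 1), 0, 1, (j : ℤ) + 2]) := by
    intro i j
    rw [H]
    congr 1
    funext t
    refine finsum_eq_sum_of_support_subset _ fun s hs => ?_
    rw [Function.mem_support] at hs
    rw [Finset.mem_coe, Finset.mem_Icc]
    by_contra h2
    apply hs
    apply Dt_zero
    omega
  simp_rw [h1]
  have h2 : ∀ i : ℕ, gs al (fun j => gs (X ^ 2) (fun t => ∑ s ∈ Finset.Icc (0 : ℤ) (t + 2),
        Dt t s ![-((i : ℤ) + 1), 0, 1, (j : ℤ) + 2])) =
      gs (X ^ 2) (fun t => gs al (fun j => ∑ s ∈ Finset.Icc (0 : ℤ) (t + 2),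
        Dt t s ![-((i : ℤ) + 1), 0, 1, (j : ℤ) + 2])) := fun i =>
    gs_comm al (X ^ 2) X_dvd_al hX _
  simp_rw [h2]
  rw [gs_comm al (X ^ 2) X_dvd_al hX, ← gs_mul_left (X ^ 2) hX, Dser, ← gs_mul_left (X ^ 2) hX]
  congr 1
  funext t
  simp_rw [gs_sum, Finset.mul_sum]
  refine Finset.sum_congr rfl fun s _ => ?_
  exact core t s

end Pool.Agent.Helper99.TC
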