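import Pool.Agent.Helper99.TC.NormalCard
import Pool.Agent.Helper99.TC.LUCard

/-!
# TC-18: the number of three-choice polygons

Proof. Let `w` be a three-choice polygon of length `2 n ≥ 4`, `f` its first and `l` its last step. `pos w 1 = f.vec`, `pos w (2 n - 1) = - l.vec`, so `l` is not the reverse of `f` (injectivity, `1 ≠ 2 n - 1`). So either `Step.Next l f` (counted by `normal_card`) or `(l, f) = (L, U)` (counted by `lu_card`) or
`(l, f) = (R, D)`; the three cases exclude each other. The half turn U ↔ D, L ↔ R of the steps maps three-choice polygons to three-choice polygons (positions are negated, `Step.Next` is invariant) and exchanges the last two cases.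
-/

set_option autoImplicit false

namespace Pool.Agent.Helper99.TC

/-- the half turn -/
private def ht : Step → Step
  | .U => .D
  | .D => .U
  | .L => .R
  | .R => .L

private theorem ht_ht (s : Step) : ht (ht s) = s := by cases s <;> rfl

private theorem ht_vec (s : Step) : (ht s).vec = -s.vec := by
  cases s <;> simp [ht, Step.vec]

private theorem ht_next (a b : Step) : Step.Next (ht a) (ht b) ↔ Step.Next a b := by
  cases a <;> cases b <;> simp [ht, Step.Next]

private theorem ht_pos (w : List Step) (k : ℕ) : pos (w.map ht) k = -pos w k := by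
  have h1 : ∀ l : List Step, ((l.map ht).map Step.vec).sum = -(l.map Step.vec).sum := by
    intro l
    induction l with
    | nil => simp
    | cons a l ih =>
      rw [List.map_cons, List.map_cons, List.sum_cons, ih, ht_vec, List.map_cons, List.sum_cons,
        neg_add]
  unfold pos
  rw [← List.map_take, h1]

private theorem ht_tcp {w : List Step} (h : IsTCP w) : IsTCP (w.map ht) := by
  refine ⟨?_, ?_, ?_⟩
  · rw [List.isChain_map]
    exact h.chain.imp fun a b hab => (ht_next a b).2 hab
  · rw [List.length_map, ht_pos, h.closed, neg_zero]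
  · intro i j hi hj hij
    rw [List.length_map] at hi hj
    rw [ht_pos, ht_pos, neg_inj] at hij
    exact h.inj i j hi hj hij

private theorem not_rev {w : List Step} {n : ℕ} (hn : 2 ≤ n) (hw : IsTCP w)
    (hl : w.length = 2 * n) {f l : Step} (h1 : w.head? = some f) (h2 : w.getLast? = some l) :
    l ≠ ht f := by
  rintro rfl
  have e1 : pos w 1 = f.vec := by
    obtain ⟨t, rfl⟩ : ∃ t, w = f :: t := by
      cases w with
      | nil => simp at h1
      | cons a t =>
        rw [List.head?_cons, Option.some.injEq] at h1
        exact ⟨t, by rw [h1]⟩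
    simp [pos]
  have e2 : pos w (2 * n - 1) = f.vec := by
    obtain ⟨d, rfl⟩ : ∃ d, w = d ++ [ht f] := by
      rw [List.getLast?_eq_some_iff] at h2
      exact h2
    have h3 := hw.closed
    rw [List.length_append, List.length_singleton] at hl
    have h4 : d.length = 2 * n - 1 := by omega
    unfold pos at h3 ⊢
    rw [List.take_length, List.map_append, List.sum_append, List.map_singleton,
      List.sum_singleton, ht_vec] at h3
    rw [← h4, List.take_left' rfl]
    exact (eq_neg_of_add_eq_zero_left h3).trans (neg_neg _)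
  have h5 := hw.inj 1 (2 * n - 1) (by omega) (by omega) (e1.trans e2.symm)
  omega

private theorem finite_step : Finite Step := by
  have h : Function.Surjective (fun i : Fin 4 => ([Step.U, Step.D, Step.L, Step.R].get i)) := by
    intro s
    cases s
    · exact ⟨0, rfl⟩
    · exact ⟨1, rfl⟩
    · exact ⟨2, rfl⟩
    · exact ⟨3, rfl⟩
  exact Finite.of_surjective _ h

theorem tc_eq (n : ℕ) (hn : 2 ≤ n) : tc n = 2 * n * pairN (n - 1) 1 + 2 * luN n := by
  have hfs := finite_step
  have hfin : {w : List Step | w.length = 2 * n}.Finite := List.finite_length_eq Step (2 * n)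
  obtain ⟨T, hT⟩ : ∃ T : Set (List Step), T = {w | w.length = 2 * n ∧ IsTCP w} := ⟨_, rfl⟩
  obtain ⟨A, hA⟩ : ∃ A : Set (List Step), A = {w | w.length = 2 * n ∧ IsTCP w ∧ NRoot w} :=
    ⟨_, rfl⟩
  obtain ⟨B, hB⟩ : ∃ B : Set (List Step), B = {w | w.length = 2 * n ∧ IsTCP w ∧
    w.head? = some Step.U ∧ w.getLast? = some Step.L} := ⟨_, rfl⟩
  obtain ⟨C, hC⟩ : ∃ C : Set (List Step), C = {w | w.length = 2 * n ∧ IsTCP w ∧
    w.head? = some Step.D ∧ w.getLast? = some Step.R} := ⟨_, rfl⟩
  have fA : A.Finite := hfin.subset (by rw [hA]; exact fun w hw => hw.1)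
  have fB : B.Finite := hfin.subset (by rw [hB]; exact fun w hw => hw.1)
  have fC : C.Finite := hfin.subset (by rw [hC]; exact fun w hw => hw.1)
  have cT : tc n = T.ncard := by
    rw [hT]
    rfl
  have cA : A.ncard = 2 * n * pairN (n - 1) 1 := by
    rw [← normal_card n hn, hA]
    rfl
  have cB : B.ncard = luN n := by
    rw [← lu_card n, hB]
    rfl
  have cC : C.ncard = B.ncard := by
    refine Set.ncard_congr (fun w _ => w.map ht) ?_ ?_ ?_
    · intro w hw
      rw [hC] at hw
      obtain ⟨h1, h2, h3, h4⟩ := hw
      rw [hB]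
      refine ⟨by rw [List.length_map, h1], ht_tcp h2, ?_, ?_⟩
      · rw [List.head?_map, h3]; rfl
      · rw [List.getLast?_map, h4]; rfl
    · intro w w' _ _ h
      have hinj : Function.Injective ht := fun a b hab => by rw [← ht_ht a, hab, ht_ht]
      exact List.map_injective_iff.2 hinj h
    · intro w hw
      rw [hB] at hw
      obtain ⟨h1, h2, h3, h4⟩ := hw
      refine ⟨w.map ht, ?_, ?_⟩
      · rw [hC]
        refine ⟨by rw [List.length_map, h1], ht_tcp h2, ?_, ?_⟩
        · rw [List.head?_map, h3]; rfl
        · rw [List.getLast?_map, h4]; rfl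
      · rw [List.map_map]
        have : ht ∘ ht = id := funext ht_ht
        rw [this, List.map_id]
  have hunion : T = A ∪ (B ∪ C) := by
    ext w
    rw [hT, hA, hB, hC]
    constructor
    · rintro ⟨h1, h2⟩
      have hne : w ≠ [] := by
        rintro rfl
        simp only [List.length_nil] at h1
        omega
      obtain ⟨f, hf⟩ : ∃ f, w.head? = some f := ⟨w.head hne, List.head?_eq_some_head hne⟩
      obtain ⟨l, hl⟩ : ∃ l, w.getLast? = some l :=
        ⟨w.getLast hne, List.getLast?_eq_some_getLast hne⟩
      have hr := not_rev hn h2 h1 hf hl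
      by_cases hN : Step.Next l f
      · left
        exact ⟨h1, h2, l, f, hl, hf, hN⟩
      · right
        cases l <;> cases f <;> simp [Step.Next, ht] at hN hr
        · left
          exact ⟨h1, h2, hf, hl⟩
        · right
          exact ⟨h1, h2, hf, hl⟩
    · rintro (⟨h1, h2, -⟩ | ⟨h1, h2, -⟩ | ⟨h1, h2, -⟩) <;> exact ⟨h1, h2⟩
  have dBC : Disjoint B C := by
    rw [Set.disjoint_left]
    intro w hw hw'
    rw [hB] at hw
    rw [hC] at hw'
    have := hw.2.2.1.symm.trans hw'.2.2.1
    simp at this
  have dA : Disjoint A (B ∪ C) := by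
    rw [Set.disjoint_left]
    intro w hw hw'
    rw [hA] at hw
    obtain ⟨-, -, a, b, h1, h2, h3⟩ := hw
    rcases hw' with hw' | hw'
    · rw [hB] at hw'
      have e1 := h1.symm.trans hw'.2.2.2
      have e2 := h2.symm.trans hw'.2.2.1
      rw [Option.some.injEq] at e1 e2
      subst e1
      subst e2
      simp [Step.Next] at h3
    · rw [hC] at hw'
      have e1 := h1.symm.trans hw'.2.2.2
      have e2 := h2.symm.trans hw'.2.2.1
      rw [Option.some.injEq] at e1 e2
      subst e1
      subst e2
      simp [Step.Next] at h3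
  rw [cT, hunion, Set.ncard_union_eq dA fA (fB.union fC), Set.ncard_union_eq dBC fB fC, cC, cA, cB]
  ring

end Pool.Agent.Helper99.TC
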