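import Pool.Agent.Helper99.TC.QuadSer
import Pool.Agent.Helper99.TC.NPre
import Pool.Agent.Helper99.TC.PPart
import Pool.Agent.Helper99.TC.TcEq

/-!
# TC-28: the generating function of three-choice polygons

`Nser_add`: insert `quadS_eq` into `Nser_eq` (`d2 = 1`, `d1 = i + 1 - bit a`, `d3 = j + bit b`, natural numbers). First part: `X^2 α^2 ∑_{i,j} α^(i+j) ∑_{a,b} α^(i + 1 - a + j + b)`; the inner sum is `α^(i+j) (1 + α)^2`, so this is `X^2 α^2 (1+α)^2 / (1 - α^2)^2` (`gs_geom` twice), i.e. it is `E` with `E (1 - α)^2 = X^2 α^2`; and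
`2 (1 - 4X) E = X^2 (1 - 2X - β)` because `(1 - α) = β (1 + α)`, `β^2 = 1 - 4X`: `2 (1-4X) α^2 = 2 β^2 α^2`, `(1 - 2X - β)(1 - α)^2 = 2 X α β^2 (1+α)^2 = 2 β^2 α^2`. Second part: `X^2 α^2 ∑_{i,j} α^(i+j) ∑_{a,b} X^2 β H ![0, i+1-a, i+2-a, i+2-a+j+b]`. With `f d1 d3 = H ![0, d1, d1+1, d1+1+d3] = H ![-d1, 0, 1, 1 + d3]`
(`H_shift`), which vanishes for `d1 = 0` or `d3 = 0`: `∑_{i,a} α^i f (i+1-a) = (1 + α) ∑_i α^i f (i+1)` (for `a = 0` the index is `i + 1`, for `a = 1` it is `i`, drop `i = 0`), and `∑_{j,b} α^j f (j+b) = (1+α) ∑_j α^j f (j+1)`. So it is `X^4 β α^2 (1+α)^2 gs al (gs al (H ![-(i+1), 0, 1, j+2]))`; with `X (1+α)^2 = α` and `Hsum`: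
`= X^3 β α^3 gsgs = X^3 β X β Dser = X^4 (1 - 4X) Dser`.

`Tser_eq`: coefficient of `X^n` from `tc_eq`: `coeff n (th (X * al)) = n * coeff (n-1) al = n * pairN (n-1) 1`; for `n = 0, 1` both sides are 0 (`luN 0 = luN 1 = 0`, `pairN 0 1 = 0`). `be_th`: from `2 X al = 1 - 2X - be` and `th_be`.
-/

set_option autoImplicit false

open PowerSeries

namespace Pool.Agent.Helper99.TC

/-- the four-walker series at distances `d1, 1, d3` -/
private noncomputable def fH (d1 d3 : ℕ) : ℚ⟦X⟧ :=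
  H ![0, (d1 : ℤ), (d1 : ℤ) + 1, (d1 : ℤ) + 1 + d3]

private theorem fH_zero_left (d3 : ℕ) : fH 0 d3 = 0 := by
  unfold fH
  exact H_eq_zero _ 0 1 (by decide) (by simp)

private theorem fH_zero_right (d1 : ℕ) : fH d1 0 = 0 := by
  unfold fH
  exact H_eq_zero _ 2 3 (by decide) (by simp)

private theorem fH_shift (i j : ℕ) :
    fH (i + 1) (j + 1) = H ![-((i : ℤ) + 1), 0, 1, (j : ℤ) + 2] := by
  unfold fH
  rw [← H_shift 0 (((i + 1 : ℕ) : ℤ)) (((i + 1 : ℕ) : ℤ) + 1)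
    (((i + 1 : ℕ) : ℤ) + 1 + ((j + 1 : ℕ) : ℤ)) (-((i : ℤ) + 1))]
  congr 1
  have e0 : (0 : ℤ) + -((i : ℤ) + 1) = -((i : ℤ) + 1) := by ring
  have e1 : (((i + 1 : ℕ) : ℤ)) + -((i : ℤ) + 1) = 0 := by push_cast; ring
  have e2 : (((i + 1 : ℕ) : ℤ) + 1) + -((i : ℤ) + 1) = 1 := by push_cast; ring
  have e3 : (((i + 1 : ℕ) : ℤ) + 1 + ((j + 1 : ℕ) : ℤ)) + -((i : ℤ) + 1) = (j : ℤ) + 2 := by
    push_cast; ring
  rw [e0, e1, e2, e3]

private theorem quad_inner (i j : ℕ) :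
    (∑ a : Bool, ∑ b : Bool, quadS ((i : ℤ) + 1 - bit a) 1 ((j : ℤ) + bit b)) =
      al ^ i * (al ^ j * (1 + al) ^ 2) -
        X ^ 2 * be * ((fH (i + 1) j + fH (i + 1) (j + 1)) + (fH i j + fH i (j + 1))) := by
  have q00 := quadS_eq (i + 1) 1 j le_rfl
  have q01 := quadS_eq (i + 1) 1 (j + 1) le_rfl
  have q10 := quadS_eq i 1 j le_rfl
  have q11 := quadS_eq i 1 (j + 1) le_rfl
  have c1 : ((1 : ℕ) : ℤ) = 1 := by norm_num
  rw [c1] at q00 q01 q10 q11
  have h00 : quadS ((i : ℤ) + 1 - bit false) 1 ((j : ℤ) + bit false) =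
      al ^ (i + 1 + j) - X ^ 2 * be * fH (i + 1) j := by
    have e1 : (i : ℤ) + 1 - bit false = ((i + 1 : ℕ) : ℤ) := by simp [bit]
    have e2 : (j : ℤ) + bit false = (j : ℤ) := by simp [bit]
    rw [e1, e2, q00]; rfl
  have h01 : quadS ((i : ℤ) + 1 - bit false) 1 ((j : ℤ) + bit true) =
      al ^ (i + 1 + (j + 1)) - X ^ 2 * be * fH (i + 1) (j + 1) := by
    have e1 : (i : ℤ) + 1 - bit false = ((i + 1 : ℕ) : ℤ) := by simp [bit]
    have e2 : (j : ℤ) + bit true = ((j + 1 : ℕ) : ℤ) := by simp [bit]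
    rw [e1, e2, q01]; rfl
  have h10 : quadS ((i : ℤ) + 1 - bit true) 1 ((j : ℤ) + bit false) =
      al ^ (i + j) - X ^ 2 * be * fH i j := by
    have e1 : (i : ℤ) + 1 - bit true = (i : ℤ) := by simp [bit]
    have e2 : (j : ℤ) + bit false = (j : ℤ) := by simp [bit]
    rw [e1, e2, q10]; rfl
  have h11 : quadS ((i : ℤ) + 1 - bit true) 1 ((j : ℤ) + bit true) =
      al ^ (i + (j + 1)) - X ^ 2 * be * fH i (j + 1) := by
    have e1 : (i : ℤ) + 1 - bit true = (i : ℤ) := by simp [bit]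
    have e2 : (j : ℤ) + bit true = ((j + 1 : ℕ) : ℤ) := by simp [bit]
    rw [e1, e2, q11]; rfl
  rw [Fintype.sum_bool, Fintype.sum_bool, Fintype.sum_bool, h00, h01, h10, h11]
  ring

/-- the geometric series of `al` with ratio `al` -/
private noncomputable def Kg : ℚ⟦X⟧ := gs al (fun j => al ^ j)

private theorem Kg_mul : Kg * (1 - al * al) = 1 := gs_geom al al X_dvd_al

/-- the sum over `j` of `f d (j + 1)` -/
private noncomputable def rowJ (d : ℕ) : ℚ⟦X⟧ := gs al (fun j => fH d (j + 1))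

private theorem gs_fH (d : ℕ) : gs al (fun j => fH d j) = al * rowJ d := by
  rw [gs_succ al X_dvd_al, fH_zero_right, zero_add]; rfl

private theorem rowJ_zero : rowJ 0 = 0 := by
  unfold rowJ
  have h : (fun j : ℕ => fH 0 (j + 1)) = fun _ : ℕ => (0 : ℚ⟦X⟧) * 0 := by
    funext j; rw [fH_zero_left]; ring
  rw [h, gs_mul_left al X_dvd_al]; ring

private theorem gs_inner (i : ℕ) :
    gs al (fun j => ∑ a : Bool, ∑ b : Bool,
      quadS ((i : ℤ) + 1 - bit a) 1 ((j : ℤ) + bit b)) =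
      al ^ i * (Kg * (1 + al) ^ 2) -
        X ^ 2 * be * ((1 + al) * rowJ (i + 1) + (1 + al) * rowJ i) := by
  have h1 : (fun j : ℕ => ∑ a : Bool, ∑ b : Bool,
      quadS ((i : ℤ) + 1 - bit a) 1 ((j : ℤ) + bit b)) = fun j : ℕ =>
      al ^ i * (al ^ j * (1 + al) ^ 2) -
        X ^ 2 * be * ((fH (i + 1) j + fH (i + 1) (j + 1)) + (fH i j + fH i (j + 1))) := by
    funext j; exact quad_inner i j
  rw [h1, gs_sub, gs_mul_left al X_dvd_al, gs_mul_right al X_dvd_al, gs_mul_left al X_dvd_al,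
    gs_add, gs_add, gs_add, gs_fH, gs_fH]
  have e1 : gs al (fun j => fH (i + 1) (j + 1)) = rowJ (i + 1) := rfl
  have e2 : gs al (fun j => fH i (j + 1)) = rowJ i := rfl
  have e3 : gs al (fun j => al ^ j) = Kg := rfl
  rw [e1, e2, e3]
  ring

private theorem gs_outer :
    gs al (fun i => gs al (fun j => ∑ a : Bool, ∑ b : Bool,
      quadS ((i : ℤ) + 1 - bit a) 1 ((j : ℤ) + bit b))) =
      Kg * (Kg * (1 + al) ^ 2) -
        X ^ 2 * be * ((1 + al) ^ 2 * gs al (fun i => rowJ (i + 1))) := by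
  have h1 : (fun i : ℕ => gs al (fun j => ∑ a : Bool, ∑ b : Bool,
      quadS ((i : ℤ) + 1 - bit a) 1 ((j : ℤ) + bit b))) = fun i : ℕ =>
      al ^ i * (Kg * (1 + al) ^ 2) -
        X ^ 2 * be * ((1 + al) * rowJ (i + 1) + (1 + al) * rowJ i) := by
    funext i; exact gs_inner i
  rw [h1, gs_sub, gs_mul_right al X_dvd_al, gs_mul_left al X_dvd_al, gs_add,
    gs_mul_left al X_dvd_al, gs_mul_left al X_dvd_al]
  have e2 : gs al (fun i => rowJ i) = al * gs al (fun i => rowJ (i + 1)) := by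
    rw [gs_succ al X_dvd_al, rowJ_zero, zero_add]
  have e3 : gs al (fun j => al ^ j) = Kg := rfl
  rw [e3, e2]
  ring

private theorem gs_rowJ :
    al ^ 3 * gs al (fun i => rowJ (i + 1)) = X * be * Dser := by
  have h : (fun i : ℕ => rowJ (i + 1)) =
      fun i : ℕ => gs al (fun j => H ![-((i : ℤ) + 1), 0, 1, (j : ℤ) + 2]) := by
    funext i
    have h1 : (fun j : ℕ => fH (i + 1) (j + 1)) =
        fun j : ℕ => H ![-((i : ℤ) + 1), 0, 1, (j : ℤ) + 2] := by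
      funext j; exact fH_shift i j
    have h2 : rowJ (i + 1) = gs al (fun j => fH (i + 1) (j + 1)) := rfl
    rw [h2, h1]
  rw [h]
  exact Hsum

theorem Nser_add :
    2 * (1 - 4 * X) * (Nser + X ^ 4 * (1 - 4 * X) * Dser) = X ^ 2 * (1 - 2 * X - be) := by
  have hN : Nser + X ^ 4 * (1 - 4 * X) * Dser = X ^ 2 * al ^ 2 * (Kg * (Kg * (1 + al) ^ 2)) := by
    rw [Nser_eq, gs_outer]
    have h2 := gs_rowJ
    have h3 := al_eq
    have h4 := be_sq
    have h5 : X ^ 2 * al ^ 2 * (X ^ 2 * be * ((1 + al) ^ 2 * gs al (fun i => rowJ (i + 1)))) =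
        X ^ 4 * (1 - 4 * X) * Dser := by
      calc X ^ 2 * al ^ 2 * (X ^ 2 * be * ((1 + al) ^ 2 * gs al (fun i => rowJ (i + 1))))
          = X ^ 3 * be * al ^ 2 * (X * (1 + al) ^ 2) * gs al (fun i => rowJ (i + 1)) := by ring
        _ = X ^ 3 * be * al ^ 2 * al * gs al (fun i => rowJ (i + 1)) := by rw [← h3]
        _ = X ^ 3 * be * (al ^ 3 * gs al (fun i => rowJ (i + 1))) := by ring
        _ = X ^ 3 * be * (X * be * Dser) := by rw [h2]
        _ = X ^ 4 * be ^ 2 * Dser := by ring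
        _ = X ^ 4 * (1 - 4 * X) * Dser := by rw [h4]
    rw [← h5]
    ring
  rw [hN]
  have hK := Kg_mul
  have h3 := al_eq
  have h4 := be_sq
  have h6 := be_mul
  have h7 := two_X_al
  have hne : (1 - al * al) ^ 2 ≠ (0 : ℚ⟦X⟧) := by
    intro h0
    have h8 : (Kg * (1 - al * al)) ^ 2 = 1 := by rw [hK]; ring
    rw [mul_pow, h0, mul_zero] at h8
    exact zero_ne_one h8
  apply mul_left_cancel₀ hne
  calc (1 - al * al) ^ 2 * (2 * (1 - 4 * X) * (X ^ 2 * al ^ 2 * (Kg * (Kg * (1 + al) ^ 2))))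
      = 2 * (1 - 4 * X) * X ^ 2 * al ^ 2 * (1 + al) ^ 2 * (Kg * (1 - al * al)) ^ 2 := by ring
    _ = 2 * (1 - 4 * X) * X ^ 2 * al ^ 2 * (1 + al) ^ 2 := by rw [hK]; ring
    _ = 2 * be ^ 2 * X ^ 2 * al ^ 2 * (1 + al) ^ 2 := by rw [h4]
    _ = 2 * X ^ 2 * be ^ 2 * (1 + al) ^ 2 * al * al := by ring
    _ = 2 * X ^ 2 * be ^ 2 * (1 + al) ^ 2 * al * (X * (1 + al) ^ 2) := by rw [← h3]
    _ = (be * (1 + al) * (1 + al)) ^ 2 * (X ^ 2 * (2 * X * al)) := by ring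
    _ = ((1 - al) * (1 + al)) ^ 2 * (X ^ 2 * (1 - 2 * X - be)) := by rw [h6, h7]
    _ = (1 - al * al) ^ 2 * (X ^ 2 * (1 - 2 * X - be)) := by ring

theorem Tser_eq : Tser = 2 * th (X * al) + 2 * Nser := by
  have h2 : (2 : ℚ⟦X⟧) = PowerSeries.C (2 : ℚ) := by rw [map_ofNat]
  ext n
  rw [h2, map_add, PowerSeries.coeff_C_mul, PowerSeries.coeff_C_mul]
  simp only [Tser, th, Nser, PowerSeries.coeff_mk]
  rcases n with _ | n
  · simp [luN]
  · rw [PowerSeries.coeff_succ_X_mul]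
    simp only [al, pairS, PowerSeries.coeff_mk]
    rcases n with _ | n
    · simp [luN, pairN]
    · rw [if_pos (by omega), tc_eq (n + 1 + 1) (by omega)]
      have e : n + 1 + 1 - 1 = n + 1 := by omega
      rw [e]
      push_cast
      ring

theorem be_th : be * th (X * al) = X * (1 - be) := by
  have h7 := two_X_al
  have h8 : th (2 * X * al) = th (1 - 2 * X - be) := by rw [h7]
  have e1 : th (2 * X * al) = 2 * th (X * al) := by
    rw [mul_assoc, th_mul, th_ofNat, zero_mul, zero_add]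
  have e2 : th (1 - 2 * X - be) = - (2 * X) - th be := by
    rw [th_sub, th_sub, th_one, th_mul, th_ofNat, th_X]; ring
  rw [e1, e2] at h8
  have h9 := th_be
  have h4 := be_sq
  have h20 : (2 : ℚ⟦X⟧) ≠ 0 := by
    intro h0
    have h10 := congrArg (PowerSeries.constantCoeff (R := ℚ)) h0
    rw [map_ofNat, map_zero] at h10
    norm_num at h10
  have hne : (2 : ℚ⟦X⟧) * be ≠ 0 := mul_ne_zero h20 be_ne_zero
  apply mul_left_cancel₀ hne
  calc 2 * be * (be * th (X * al)) = be ^ 2 * (2 * th (X * al)) := by ring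
    _ = (1 - 4 * X) * (2 * th (X * al)) := by rw [h4]
    _ = (1 - 4 * X) * (-(2 * X) - th be) := by rw [h8]
    _ = -(2 * X) * (1 - 4 * X) - (1 - 4 * X) * th be := by ring
    _ = -(2 * X) * be ^ 2 - (-2 * X * be) := by rw [h9, h4]
    _ = 2 * be * (X * (1 - be)) := by ring

end Pool.Agent.Helper99.TC
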