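import Pool.Agent.Helper99.TC.Zigzag

/-!
# TC-2: a closed walk with normal corners only is one up run followed by one down run

Proof. Consider maximal runs: pairs `(i, l)`, `l ≥ 1`, with `Ups h i l`, the step before `i` down and the step at `i + l` down, or the
same with up and down exchanged. They exist because `h` is periodic (the walk goes up and down). Take one of minimal length `l`; by `CW.neg`
we may assume it is an up run. All `l` steps before `i` are down steps: otherwise let `q - 1 → q` be the last up step before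
`i` (`i - l < q < i`); then the steps from `q` to `i` form a maximal down run of length `i - q < l`, a contradiction. In the same way the `l` steps
after `i + l` are down steps. If `2 l < m`, `zigzag_up` gives a contradiction. So `m ≤ 2 l`; and `m < 2 l` is impossible: a step
in `[i, i + l)` (up) would be congruent mod `m` to a step in `[i - l, i)` (down). So `m = 2 l`.
-/

set_option autoImplicit false

namespace Pool.Agent.Helper99.TC

/-- maximal up run -/
private def URun (h : ℤ → ℤ) (i : ℤ) (l : ℕ) : Prop :=
  1 ≤ l ∧ Ups h i l ∧ h i = h (i - 1) - 1 ∧ h (i + l + 1) = h (i + l) - 1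

/-- maximal down run -/
private def DRun (h : ℤ → ℤ) (i : ℤ) (l : ℕ) : Prop :=
  1 ≤ l ∧ Downs h i l ∧ h i = h (i - 1) + 1 ∧ h (i + l + 1) = h (i + l) + 1

private theorem stepud {m : ℕ} {X h : ℤ → ℤ} (H : CW m X h) (k : ℤ) :
    h (k + 1) = h k + 1 ∨ h (k + 1) = h k - 1 := by
  rcases H.step k with h1 | h1
  · exact Or.inl h1.1
  · exact Or.inr h1.1

private theorem ups_neg {h : ℤ → ℤ} {i : ℤ} {l : ℕ} : Ups (fun k => -h k) i l ↔ Downs h i l := by
  constructor
  · intro u q hq
    have := u q hq
    simp only at this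
    omega
  · intro u q hq
    have := u q hq
    simp only
    omega

private theorem downs_neg {h : ℤ → ℤ} {i : ℤ} {l : ℕ} :
    Downs (fun k => -h k) i l ↔ Ups h i l := by
  constructor
  · intro u q hq
    have := u q hq
    simp only at this
    omega
  · intro u q hq
    have := u q hq
    simp only
    omega

private theorem urun_neg {h : ℤ → ℤ} {i : ℤ} {l : ℕ} :
    URun (fun k => -h k) i l ↔ DRun h i l := by
  unfold URun DRun
  rw [ups_neg]
  constructor
  · rintro ⟨a, b, c, d⟩
    refine ⟨a, b, ?_, ?_⟩ <;> simp only at c d <;> omega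
  · rintro ⟨a, b, c, d⟩
    refine ⟨a, b, ?_, ?_⟩ <;> simp only <;> omega

private theorem drun_neg {h : ℤ → ℤ} {i : ℤ} {l : ℕ} :
    DRun (fun k => -h k) i l ↔ URun h i l := by
  unfold URun DRun
  rw [downs_neg]
  constructor
  · rintro ⟨a, b, c, d⟩
    refine ⟨a, b, ?_, ?_⟩ <;> simp only at c d <;> omega
  · rintro ⟨a, b, c, d⟩
    refine ⟨a, b, ?_, ?_⟩ <;> simp only <;> omega

/-- the steps before a maximal up run of minimal length -/
private theorem before {m : ℕ} {X h : ℤ → ℤ} (H : CW m X h) {i : ℤ} {l : ℕ} (r : URun h i l)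
    (mn : ∀ j k, DRun h j k → l ≤ k) : Downs h (i - l) l := by
  have key : ∀ q : ℕ, q < l → h (i - q) = h (i - q - 1) - 1 := by
    intro q
    induction q using Nat.strong_induction_on with
    | _ q ih =>
      intro hq
      rcases Nat.eq_zero_or_pos q with h0 | h0
      · subst h0
        simpa using r.2.2.1
      by_contra hne
      have hs := stepud H (i - q - 1)
      rw [show i - (q : ℤ) - 1 + 1 = i - q by ring] at hs
      have hu : h (i - q) = h (i - q - 1) + 1 := by
        rcases hs with hs | hs
        · exact hs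
        · exact absurd hs hne
      have hd : DRun h (i - q) q := by
        refine ⟨h0, ?_, hu, ?_⟩
        · intro p hp
          have h1 := ih (q - 1 - p) (by omega) (by omega)
          rw [show i - (((q - 1 - p : ℕ)) : ℤ) = i - q + p + 1 by omega] at h1
          rw [show i - (q : ℤ) + p + 1 - 1 = i - q + p by ring] at h1
          exact h1
        · have h1 := r.2.1 0 (by have := r.1; omega)
          rw [show i - (q : ℤ) + q = i by ring]
          simpa using h1
      have := mn _ _ hd
      omega
  intro q hq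
  have h1 := key (l - 1 - q) (by omega)
  rw [show i - (((l - 1 - q : ℕ)) : ℤ) = i - l + q + 1 by omega] at h1
  rw [show i - (l : ℤ) + q + 1 - 1 = i - l + q by ring] at h1
  exact h1

/-- the steps after a maximal up run of minimal length -/
private theorem after {m : ℕ} {X h : ℤ → ℤ} (H : CW m X h) {i : ℤ} {l : ℕ} (r : URun h i l)
    (mn : ∀ j k, DRun h j k → l ≤ k) : Downs h (i + l) l := by
  intro q
  induction q using Nat.strong_induction_on with
  | _ q ih =>
    intro hq
    rcases Nat.eq_zero_or_pos q with h0 | h0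
    · subst h0
      simpa using r.2.2.2
    by_contra hne
    have hu : h (i + l + q + 1) = h (i + l + q) + 1 := by
      rcases stepud H (i + l + q) with hs | hs
      · exact hs
      · exact absurd hs hne
    have hd : DRun h (i + l) q := by
      refine ⟨h0, ?_, ?_, hu⟩
      · intro p hp
        exact ih p hp (by omega)
      · have h1 := r.2.1 (l - 1) (by have := r.1; omega)
        have h2 := r.1
        rw [show i + (((l - 1 : ℕ)) : ℤ) = i + l - 1 by omega] at h1
        rw [show i + (l : ℤ) - 1 + 1 = i + l by ring] at h1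
        exact h1
    have := mn _ _ hd
    omega

private theorem core {m : ℕ} {X h : ℤ → ℤ} (H : CW m X h) (c : ∀ k, NC X h k) {i : ℤ} {l : ℕ}
    (r : URun h i l) (mn : ∀ j k, DRun h j k → l ≤ k) :
    m = 2 * l ∧ Ups h i l ∧ Downs h (i + l) l := by
  have hb := before H r mn
  have ha := after H r mn
  have hm := H.mpos
  have hl := r.1
  have h1 : m ≤ 2 * l := by
    by_contra hlt
    exact zigzag_up H i l r.1 (by omega) hb r.2.1 ha (c i) (c (i + l))
  have h2 : ¬ m < 2 * l := by
    intro hlt
    obtain ⟨q, hq1, hq2, hq3⟩ : ∃ q : ℕ, q < l ∧ m ≤ q + l ∧ q < m := by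
      rcases Nat.lt_or_ge l m with h3 | h3
      · exact ⟨m - l, by omega, by omega, by omega⟩
      · exact ⟨0, by omega, by omega, by omega⟩
    have e1 := r.2.1 q hq1
    have e2 := hb (q + l - m) (by omega)
    rw [show i - (l : ℤ) + ((q + l - m : ℕ) : ℤ) = i + q - m by omega] at e2
    have e3 := H.perh (i + q - m)
    have e4 := H.perh (i + q - m + 1)
    rw [show i + (q : ℤ) - m + m = i + q by ring] at e3
    rw [show i + (q : ℤ) - m + 1 + m = i + q + 1 by ring] at e4
    omega
  exact ⟨by omega, r.2.1, ha⟩

/-- periodicity of `h` with integer multiples -/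
private theorem per_nat {m : ℕ} {X h : ℤ → ℤ} (H : CW m X h) (k : ℤ) (n : ℕ) :
    h (k + n * m) = h k := by
  induction n with
  | zero => simp
  | succ n ih =>
    rw [show k + ((n + 1 : ℕ) : ℤ) * m = (k + n * m) + m by push_cast; ring, H.perh, ih]

private theorem exists_up {m : ℕ} {X h : ℤ → ℤ} (H : CW m X h) (k : ℤ) :
    ∃ q : ℕ, h (k + q + 1) = h (k + q) + 1 := by
  by_contra hne
  push Not at hne
  have h1 : ∀ n : ℕ, h (k + n) = h k - n := by
    intro n
    induction n with
    | zero => simp
    | succ n ih =>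
      have h2 := hne n
      rcases stepud H (k + n) with h3 | h3
      · exact absurd h3 h2
      · rw [show k + ((n + 1 : ℕ) : ℤ) = k + n + 1 by push_cast; ring, h3, ih]
        push_cast
        ring
  have h2 := h1 m
  rw [H.perh] at h2
  have := H.mpos
  omega

private theorem exists_down {m : ℕ} {X h : ℤ → ℤ} (H : CW m X h) (k : ℤ) :
    ∃ q : ℕ, h (k + q + 1) = h (k + q) - 1 := by
  obtain ⟨q, hq⟩ := exists_up H.neg k
  exact ⟨q, by omega⟩

private theorem exists_run {m : ℕ} {X h : ℤ → ℤ} (H : CW m X h) :
    ∃ (i : ℤ) (l : ℕ), URun h i l := by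
  classical
  obtain ⟨a, ha⟩ := exists_down H 0
  have hU := exists_up H (0 + a)
  have hb := Nat.find_spec hU
  set b := Nat.find hU with hbdef
  have hb0 : 0 < b := by
    rcases Nat.eq_zero_or_pos b with h0 | h0
    · rw [h0] at hb
      simp only [Nat.cast_zero, add_zero] at hb
      omega
    · exact h0
  have hb1 : h (0 + a + b) = h (0 + a + b - 1) - 1 := by
    have h1 := Nat.find_min hU (m := b - 1) (by omega)
    rw [show (0 : ℤ) + a + ((b - 1 : ℕ) : ℤ) = 0 + a + b - 1 by omega] at h1
    have h2 := stepud H (0 + a + b - 1)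
    rw [show (0 : ℤ) + a + b - 1 + 1 = 0 + a + b by ring] at h1 h2
    rcases h2 with h2 | h2
    · exact absurd h2 h1
    · exact h2
  have hD := exists_down H (0 + a + b)
  have hc := Nat.find_spec hD
  set c := Nat.find hD with hcdef
  have hc0 : 0 < c := by
    rcases Nat.eq_zero_or_pos c with h0 | h0
    · rw [h0] at hc
      simp only [Nat.cast_zero, add_zero] at hc
      omega
    · exact h0
  refine ⟨0 + a + b, c, hc0, ?_, hb1, hc⟩
  intro q hq
  have h1 := Nat.find_min hD (m := q) hq
  rcases stepud H (0 + a + b + q) with h2 | h2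
  · exact h2
  · exact absurd h2 h1

theorem normal_struct {m : ℕ} {X h : ℤ → ℤ} (H : CW m X h) (c : ∀ k, NC X h k) :
    ∃ (i : ℤ) (l : ℕ), m = 2 * l ∧ Ups h i l ∧ Downs h (i + l) l := by
  classical
  have hex : ∃ l : ℕ, ∃ i : ℤ, URun h i l ∨ DRun h i l := by
    obtain ⟨i, l, hr⟩ := exists_run H
    exact ⟨l, i, Or.inl hr⟩
  obtain ⟨i, hi⟩ := Nat.find_spec hex
  have hmin : ∀ k : ℕ, (∃ j : ℤ, URun h j k ∨ DRun h j k) → Nat.find hex ≤ k := by
    intro k hk
    exact Nat.find_min' hex hk
  set l := Nat.find hex with hldef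
  rcases hi with hi | hi
  · have h1 := core H c hi (fun j k hjk => hmin k ⟨j, Or.inr hjk⟩)
    exact ⟨i, l, h1⟩
  · have h1 := core H.neg (fun k => (c k).neg) (urun_neg.2 hi)
      (fun j k hjk => hmin k ⟨j, Or.inl (drun_neg.1 hjk)⟩)
    obtain ⟨e1, e2, e3⟩ := h1
    rw [ups_neg] at e2
    rw [downs_neg] at e3
    refine ⟨i + l, l, e1, e3, ?_⟩
    intro q hq
    have h2 := e2 q hq
    have h3 := H.perh (i + q)
    have h4 := H.perh (i + q + 1)
    rw [show i + (l : ℤ) + l + q = i + q + m by rw [e1]; push_cast; ring]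
    rw [show i + (q : ℤ) + m + 1 = i + q + 1 + m by ring, h3, h4]
    exact h2

end Pool.Agent.Helper99.TC
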