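import Pool.Agent.Helper99.TC.Blocks
import Pool.Agent.Helper99.TC.PQIff
import Pool.Agent.Helper99.TC.NormalStruct

/-!
# TC-16: three-choice polygons with a normal root are the rotations of the words `nWord u v`

`nWord u v`: first the path R u upwards, then back along the path U v. `Pair 1 v u`: after their first steps the two paths are at distance 1 (left walker v) and meet at the end.

* `nword_tcp`: strands `A = true :: u`, `B = false :: v` from the root; at the levels `1 ≤ k ≤ |u|` the first is to the right of the second by `pair_iff`, at level `|u| + 1` they meet. The top corner is U then L, the root corner (last step D, first step R) is normal.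
* `tcp_rotate`: a rotation of a three-choice polygon whose last and first step satisfy the rule. Chain: `List.IsChain` of a rotation; the vertices are translated and cyclically permuted: `pos (w.rotate k) i = pos w (k + i mod length) - pos w k`.
* `normal_forward`: by `normal_struct` (with `nc_of_next`) there are `i, l` with `w.length = 2 l`, up on `[i, i + l)`, down on `[i + l, i + 2 l)`; take `k = i mod 2 l`. The word `w.rotate k` is `ne A ++ sw B` with `|A| = |B| = l` (apply `ups_block`, `downs_block` to `w.rotate k`).
At the root (the lowest vertex) the corner is normal: last step D, first step R, so `A = true :: u`, `B = false :: v`. At the levels `1 ≤ k ≤ l - 1` strands are disjoint, so `cnt (A.take k) > cnt (B.take k)` (1 > 0 at level 1), and they meet at level `l`: `Pair 1 v u` by `pair_iff`.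
-/

set_option autoImplicit false

namespace Pool.Agent.Helper99.TC

/-- the staircase polygon word which starts at the lowest vertex -/
def nWord (u v : List Bool) : List Step := ne (true :: u) ++ sw (false :: v)

/-- last and first step satisfy the three-choice rule -/
def NRoot (w : List Step) : Prop :=
  ∃ a b : Step, w.getLast? = some a ∧ w.head? = some b ∧ Step.Next a b

private theorem cnt_nil : cnt [] = 0 := by simp [cnt]

private theorem cnt_cons (a : Bool) (u : List Bool) : cnt (a :: u) = bit a + cnt u := by
  simp [cnt]

private theorem cnt_append (u v : List Bool) : cnt (u ++ v) = cnt u + cnt v := by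
  simp [cnt]

private theorem bit_true : bit true = 1 := rfl

private theorem bit_false : bit false = 0 := rfl

/-- positions on the first strand -/
private theorem pos_nword_left (A B : List Bool) (k : ℕ) (hk : k ≤ A.length) :
    pos (ne A ++ sw B) k = (cnt (A.take k), k - cnt (A.take k)) := by
  rw [pos_append_left _ _ _ (by rw [ne_length]; exact hk), pos_ne A k hk]

/-- positions on the second strand -/
private theorem pos_nword_right (A B : List Bool) (hl : A.length = B.length) (hc : cnt A = cnt B)
    (j : ℕ) (hj : j ≤ B.length) :
    pos (ne A ++ sw B) (A.length + j) =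
      (cnt (B.take (B.length - j)), (B.length - j : ℕ) - cnt (B.take (B.length - j))) := by
  have h1 := pos_append_right (ne A) (sw B) j
  rw [ne_length] at h1
  rw [h1, pos_ne A A.length le_rfl, pos_sw B j hj, List.take_length]
  ext
  · simp only [Prod.mk_add_mk]
    rw [hc]
    ring
  · simp only [Prod.mk_add_mk]
    rw [hc, hl]
    push_cast [Nat.cast_sub hj]
    ring

private theorem chain_ne (A : List Bool) : (ne A).IsChain Step.Next := by
  induction A with
  | nil => simp [ne]
  | cons a u ih =>
    cases u with
    | nil => simp [ne]
    | cons b t =>
      simp only [ne, List.map_cons] at ih ⊢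
      rw [List.isChain_cons_cons]
      refine ⟨?_, ih⟩
      cases a <;> cases b <;> simp [Step.Next]

private theorem chain_sw_aux (L : List Bool) :
    (L.map (fun b => if b then Step.L else Step.D)).IsChain Step.Next := by
  induction L with
  | nil => simp
  | cons a u ih =>
    cases u with
    | nil => simp
    | cons b t =>
      simp only [List.map_cons] at ih ⊢
      rw [List.isChain_cons_cons]
      refine ⟨?_, ih⟩
      cases a <;> cases b <;> simp [Step.Next]

theorem nword_tcp {u v : List Bool} (h : Pair 1 v u) : IsTCP (nWord u v) ∧ NRoot (nWord u v) ∧
    (nWord u v).length = 2 * (u.length + 1) := by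
  obtain ⟨hl, hk, he⟩ := (pair_iff 1 v u).1 h
  -- the lists are not empty and the last bits are `false` and `true`
  have hlast : ∃ u' v', u = u' ++ [false] ∧ v = v' ++ [true] := by
    rcases List.eq_nil_or_concat u with hu | ⟨u', b, hu⟩
    · subst hu
      have hv : v = [] := List.eq_nil_of_length_eq_zero (by rw [hl]; rfl)
      subst hv
      rw [cnt_nil] at he
      omega
    · rcases List.eq_nil_or_concat v with hv | ⟨v', a, hv⟩
      · subst hv
        subst hu
        simp at hl
      · subst hv
        subst hu
        simp only [List.concat_eq_append] at hl hk he ⊢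
        have hl' : v'.length = u'.length := by simpa using hl
        have h1 := hk v'.length (by simp)
        rw [List.take_left, hl', List.take_left] at h1
        rw [cnt_append, cnt_append, cnt_cons, cnt_cons, cnt_nil] at he
        refine ⟨u', v', ?_, ?_⟩
        · cases b
          · rfl
          · cases a <;> simp only [bit_true, bit_false] at he <;> omega
        · cases a
          · cases b <;> simp only [bit_true, bit_false] at he <;> omega
          · rfl
  obtain ⟨u', v', hu', hv'⟩ := hlast
  have hAB : (true :: u).length = (false :: v).length := by simp [hl]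
  have hcAB : cnt (true :: u) = cnt (false :: v) := by
    rw [cnt_cons, cnt_cons, bit_true, bit_false]
    omega
  have hlen : (nWord u v).length = 2 * (u.length + 1) := by
    rw [nWord, List.length_append, ne_length, sw_length, List.length_cons, List.length_cons, hl]
    ring
  have hBl : (false :: v).length = u.length + 1 := by rw [← hAB]; simp
  have hAl : (true :: u).length = u.length + 1 := by simp
  refine ⟨⟨?_, ?_, ?_⟩, ?_, hlen⟩
  · -- chain
    rw [nWord, List.isChain_append]
    refine ⟨chain_ne _, chain_sw_aux _, ?_⟩
    intro x hx y hy
    have hx' : x = Step.U := by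
      rw [hu'] at hx
      have : ne (true :: (u' ++ [false])) = ne (true :: u') ++ [Step.U] := by
        simp [ne]
      rw [this, List.getLast?_concat] at hx
      simpa using hx.symm
    have hy' : y = Step.L := by
      rw [hv'] at hy
      have : sw (false :: (v' ++ [true])) = Step.L :: sw (false :: v') := by
        simp [sw]
      rw [this, List.head?_cons] at hy
      simpa using hy.symm
    rw [hx', hy']
    simp [Step.Next]
  · -- closed
    have h1 := pos_nword_right (true :: u) (false :: v) hAB hcAB (u.length + 1) (by rw [hBl])
    rw [hAl, hBl, Nat.sub_self] at h1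
    rw [hlen, nWord, two_mul, h1]
    simp [cnt_nil]
  · -- injective
    have key : ∀ i j : ℕ, i < j → j < 2 * (u.length + 1) →
        pos (nWord u v) i ≠ pos (nWord u v) j := by
      intro i j hij hj heq
      by_cases hj1 : j ≤ u.length + 1
      · rw [nWord, pos_nword_left _ _ i (by rw [hAl]; omega),
          pos_nword_left _ _ j (by rw [hAl]; omega)] at heq
        have h1 := congrArg Prod.fst heq
        have h2 := congrArg Prod.snd heq
        simp only at h1 h2
        omega
      · obtain ⟨j', rfl⟩ : ∃ j', j = u.length + 1 + j' := ⟨j - (u.length + 1), by omega⟩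
        have hR : pos (nWord u v) (u.length + 1 + j') =
            (cnt ((false :: v).take (u.length + 1 - j')),
              (u.length + 1 - j' : ℕ) - cnt ((false :: v).take (u.length + 1 - j'))) := by
          have h1 := pos_nword_right (true :: u) (false :: v) hAB hcAB j' (by rw [hBl]; omega)
          rw [hAl, hBl] at h1
          exact h1
        by_cases hi1 : i ≤ u.length + 1
        · rw [hR, nWord, pos_nword_left _ _ i (by rw [hAl]; omega)] at heq
          have h1 := congrArg Prod.fst heq
          have h2 := congrArg Prod.snd heq
          simp only at h1 h2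
          have h3 : i = u.length + 1 - j' := by omega
          rw [← h3] at h1
          obtain ⟨i', rfl⟩ : ∃ i', i = i' + 1 := ⟨i - 1, by omega⟩
          rw [List.take_succ_cons, List.take_succ_cons, cnt_cons, cnt_cons, bit_true,
            bit_false] at h1
          have h4 := hk i' (by rw [hl]; omega)
          omega
        · obtain ⟨i', rfl⟩ : ∃ i', i = u.length + 1 + i' := ⟨i - (u.length + 1), by omega⟩
          have hR' : pos (nWord u v) (u.length + 1 + i') =
              (cnt ((false :: v).take (u.length + 1 - i')),
                (u.length + 1 - i' : ℕ) - cnt ((false :: v).take (u.length + 1 - i'))) := by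
            have h1 := pos_nword_right (true :: u) (false :: v) hAB hcAB i' (by rw [hBl]; omega)
            rw [hAl, hBl] at h1
            exact h1
          rw [hR, hR'] at heq
          have h1 := congrArg Prod.fst heq
          have h2 := congrArg Prod.snd heq
          simp only at h1 h2
          omega
    intro i j hi hj heq
    rw [hlen] at hi hj
    rcases lt_trichotomy i j with h1 | h1 | h1
    · exact absurd heq (key i j h1 hj)
    · exact h1
    · exact absurd heq.symm (key j i h1 hi)
  · -- the root
    refine ⟨Step.D, Step.R, ?_, ?_, ?_⟩
    · have : nWord u v = (ne (true :: u) ++ v.reverse.map (fun b => if b then Step.L else Step.D))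
          ++ [Step.D] := by
        simp [nWord, sw]
      rw [this, List.getLast?_concat]
    · simp [nWord, ne]
    · simp [Step.Next]

private theorem vec_ne (s : Step) : s.vec ≠ 0 := by
  cases s <;> simp [Step.vec]

private theorem pos_cons (a : Step) (t : List Step) (k : ℕ) :
    pos (a :: t) (k + 1) = a.vec + pos t k := by
  simp [pos]

private theorem tcp_rotate_one {w : List Step} (hw : IsTCP w) (hn : NRoot w) :
    IsTCP (w.rotate 1) ∧ NRoot (w.rotate 1) := by
  obtain ⟨b, a, hb, ha, hba⟩ := hn
  cases w with
  | nil => simp at ha
  | cons a' t =>
    have haa : a' = a := by simpa using ha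
    subst haa
    cases t with
    | nil =>
      exfalso
      have h1 := hw.closed
      simp [pos] at h1
      exact vec_ne _ h1
    | cons c s =>
      have hrot : (a' :: c :: s).rotate 1 = (c :: s) ++ [a'] := by
        simp [List.rotate_cons_succ]
      rw [hrot]
      have hb' : (c :: s).getLast? = some b := by
        rw [List.getLast?_cons_cons] at hb
        exact hb
      have hch := List.isChain_cons_cons.1 hw.chain
      have hpos : ∀ i : ℕ, i ≤ (c :: s).length →
          a'.vec + pos ((c :: s) ++ [a']) i = pos (a' :: c :: s) (i + 1) := by
        intro i hi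
        rw [pos_append_left _ _ _ hi, pos_cons]
      refine ⟨⟨?_, ?_, ?_⟩, ?_⟩
      · rw [List.isChain_append]
        refine ⟨hch.2, by simp, ?_⟩
        intro x hx y hy
        rw [hb'] at hx
        have hx' : b = x := by simpa using hx
        have hy' : a' = y := by simpa using hy
        rw [← hx', ← hy']
        exact hba
      · have h1 := hw.closed
        have h2 : (a' :: c :: s).length = (c :: s).length + 1 := rfl
        rw [h2, pos_cons] at h1
        have h3 := pos_append_right (c :: s) [a'] 1
        have h4 : ((c :: s) ++ [a']).length = (c :: s).length + 1 := by simp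
        rw [h4, h3]
        have h5 : pos [a'] 1 = a'.vec := by simp [pos]
        rw [h5, add_comm]
        exact h1
      · intro i j hi hj hij
        have h4 : ((c :: s) ++ [a']).length = (c :: s).length + 1 := by simp
        rw [h4] at hi hj
        have h5 : pos (a' :: c :: s) (i + 1) = pos (a' :: c :: s) (j + 1) := by
          rw [← hpos i (by omega), ← hpos j (by omega), hij]
        have h6 : (a' :: c :: s).length = (c :: s).length + 1 := rfl
        have h0 : pos (a' :: c :: s) 0 = 0 := pos_zero _
        have hcl := hw.closed
        rw [h6] at hcl
        by_cases hi1 : i = (c :: s).length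
        · by_cases hj1 : j = (c :: s).length
          · rw [hi1, hj1]
          · rw [hi1, hcl, ← h0] at h5
            have := hw.inj 0 (j + 1) (by rw [h6]; omega) (by rw [h6]; omega) h5
            omega
        · by_cases hj1 : j = (c :: s).length
          · rw [hj1, hcl, ← h0] at h5
            have := hw.inj (i + 1) 0 (by rw [h6]; omega) (by rw [h6]; omega) h5
            omega
          · have := hw.inj (i + 1) (j + 1) (by rw [h6]; omega) (by rw [h6]; omega) h5
            omega
      · exact ⟨a', c, by rw [List.getLast?_concat], by simp, hch.1⟩

theorem tcp_rotate {w : List Step} (hw : IsTCP w) (hn : NRoot w) (k : ℕ) :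
    IsTCP (w.rotate k) ∧ NRoot (w.rotate k) := by
  induction k with
  | zero => simpa using ⟨hw, hn⟩
  | succ k ih =>
    rw [← List.rotate_rotate]
    exact tcp_rotate_one ih.1 ih.2

/-- the change of the level -/
private def lvl (s : Step) : ℤ := s.vec.1 + s.vec.2

private theorem lev_succ {w : List Step} (hc : pos w w.length = 0) (j : ℤ) (r : ℕ)
    (hr : (r : ℤ) = j % w.length) (hlt : r < w.length) :
    lev w (j + 1) = lev w j + lvl (w[r]) := by
  have h1 : lev w j = (pos w r).1 + (pos w r).2 := by
    unfold lev
    rw [← hr, Int.toNat_natCast]
  have h3 : pos w (r + 1) = pos w r + (w[r]).vec := pos_succ w r hlt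
  have h2 : lev w (j + 1) = (pos w (r + 1)).1 + (pos w (r + 1)).2 := by
    unfold lev
    have h4 : (j + 1) % (w.length : ℤ) = ((r : ℤ) + 1) % w.length := by
      rw [hr, Int.emod_add_emod]
    by_cases h5 : r + 1 < w.length
    · have h6 : ((r : ℤ) + 1) % w.length = ((r + 1 : ℕ) : ℤ) := by
        rw [Int.emod_eq_of_lt (by omega) (by omega)]
        push_cast
        rfl
      rw [h4, h6, Int.toNat_natCast]
    · have h7 : r + 1 = w.length := by omega
      have h6 : ((r : ℤ) + 1) % w.length = 0 := by
        have : ((r : ℤ) + 1) = w.length := by exact_mod_cast h7
        rw [this, Int.emod_self]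
      rw [h4, h6, h7, hc]
      show (pos w (Int.toNat 0)).1 + (pos w (Int.toNat 0)).2 = _
      have : Int.toNat 0 = 0 := rfl
      rw [this, pos_zero]
  rw [h1, h2, h3, lvl]
  simp only [Prod.fst_add, Prod.snd_add]
  ring

theorem normal_forward {w : List Step} (hw : IsTCP w) (hn : NRoot w) :
    ∃ (k : ℕ) (u v : List Bool), k < w.length ∧ Pair 1 v u ∧ w = (nWord u v).rotate k := by
  have h2 : 0 < w.length := by
    rcases Nat.eq_zero_or_pos w.length with h | h
    · have := List.eq_nil_of_length_eq_zero h
      subst this
      obtain ⟨a, b, h1, -, -⟩ := hn
      simp at h1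
    · exact h
  have hn' : Step.Next (w[w.length - 1]) (w[0]) := by
    obtain ⟨a, b, ha, hb, hab⟩ := hn
    have h3 : w[w.length - 1] = a := by
      rw [List.getLast?_eq_getElem?, List.getElem?_eq_getElem (by omega)] at ha
      simpa using ha
    have h4 : w[0] = b := by
      rw [List.head?_eq_getElem?, List.getElem?_eq_getElem (by omega)] at hb
      simpa using hb
    rw [h3, h4]
    exact hab
  obtain ⟨i, l, hml, hup, hdown⟩ := normal_struct (cw_of_tcp hw h2) (nc_of_next hw h2 hn')
  have hl0 : 0 < l := by omega
  set m := w.length with hm
  -- the rotated word
  set k0 : ℕ := (i % m).toNat with hk0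
  have hk0' : (k0 : ℤ) = i % m := by
    rw [hk0, Int.toNat_of_nonneg (Int.emod_nonneg _ (by omega))]
  have hk0m : k0 < m := by
    have : (k0 : ℤ) < m := by
      rw [hk0']
      exact Int.emod_lt_of_pos _ (by omega)
    omega
  obtain ⟨hw', hnr'⟩ := tcp_rotate hw hn k0
  set w' := w.rotate k0 with hw'def
  have hlen' : w'.length = m := by rw [hw'def, List.length_rotate]
  have hget : ∀ q : ℕ, (hq : q < w'.length) →
      lvl (w'[q]) = lev w (i + q + 1) - lev w (i + q) := by
    intro q hq
    have h5 : (q + k0) % m < w.length := Nat.mod_lt _ h2
    have h6 : w'[q] = w[(q + k0) % m] := by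
      simp only [hw'def, List.getElem_rotate, ← hm]
    have h7 : (((q + k0) % m : ℕ) : ℤ) = (i + q) % (w.length : ℤ) := by
      rw [Int.natCast_mod, Nat.cast_add, hk0', ← hm, add_comm (q : ℤ), Int.emod_add_emod]
    have h8 := lev_succ hw.closed (i + q) ((q + k0) % m) h7 h5
    rw [h6, h8]
    ring
  have hup' : Ups (lev w') ((0 : ℕ) : ℤ) l := by
    intro q hq
    have h5 : q < w'.length := by omega
    have h6 : (q : ℤ) = (((0 : ℕ) : ℤ) + q) % (w'.length : ℤ) := by
      rw [Nat.cast_zero, zero_add, Int.emod_eq_of_lt (by omega) (by omega)]
    rw [lev_succ hw'.closed (((0 : ℕ) : ℤ) + q) q h6 h5, hget q h5, hup q hq]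
    ring
  have hdown' : Downs (lev w') ((l : ℕ) : ℤ) l := by
    intro q hq
    have h5 : l + q < w'.length := by omega
    have h6 : ((l + q : ℕ) : ℤ) = (((l : ℕ) : ℤ) + q) % (w'.length : ℤ) := by
      rw [Int.emod_eq_of_lt (by omega) (by omega)]
      push_cast
      rfl
    have h7 := hdown q hq
    rw [lev_succ hw'.closed (((l : ℕ) : ℤ) + q) (l + q) h6 h5, hget (l + q) h5]
    push_cast
    rw [← add_assoc i (l : ℤ) (q : ℤ), h7]
    ring
  obtain ⟨A, hA, hA'⟩ := ups_block hw'.closed 0 l (by omega) hup'
  obtain ⟨B, hB, hB'⟩ := downs_block hw'.closed l l (by omega) hdown'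
  have hwAB : w' = ne A ++ sw B := by
    rw [← hA', ← hB', List.drop_zero]
    have h5 : (w'.drop l).take l = w'.drop l := by
      apply List.take_of_length_le
      rw [List.length_drop]
      omega
    rw [h5, List.take_append_drop]
  -- the first and the last step
  obtain ⟨a, A', rfl⟩ : ∃ a A', A = a :: A' := by
    cases A with
    | nil => simp at hA; omega
    | cons a A' => exact ⟨a, A', rfl⟩
  obtain ⟨b, B', rfl⟩ : ∃ b B', B = b :: B' := by
    cases B with
    | nil => simp at hB; omega
    | cons a A' => exact ⟨a, A', rfl⟩
  have hab : a = true ∧ b = false := by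
    obtain ⟨x, y, hx, hy, hxy⟩ := hnr'
    have h5 : w' = (ne (a :: A') ++ B'.reverse.map (fun b => if b then Step.L else Step.D)) ++
        [if b then Step.L else Step.D] := by
      rw [hwAB]
      simp [sw]
    rw [h5, List.getLast?_concat] at hx
    have h6 : w' = (if a then Step.R else Step.U) :: (ne A' ++ sw (b :: B')) := by
      rw [hwAB]
      simp [ne]
    rw [h6, List.head?_cons] at hy
    have hx' := Option.some.inj hx
    have hy' := Option.some.inj hy
    rw [← hx', ← hy'] at hxy
    cases a <;> cases b <;> simp [Step.Next] at hxy ⊢
  obtain ⟨rfl, rfl⟩ := hab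
  have hAB' : A'.length = B'.length := by
    simp only [List.length_cons] at hA hB
    omega
  have hlAB : (true :: A').length = (false :: B').length := by rw [hA, hB]
  have hcAB : cnt (true :: A') = cnt (false :: B') := by
    have h5 := hw'.closed
    have h6 := pos_append_right (ne (true :: A')) (sw (false :: B')) (false :: B').length
    rw [← hwAB, ne_length, pos_ne _ _ le_rfl, pos_sw _ _ le_rfl, List.take_length,
      Nat.sub_self, List.take_zero, cnt_nil] at h6
    have h7 : (true :: A').length + (false :: B').length = w'.length := by
      rw [hA, hB]
      omega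
    rw [h7, h5] at h6
    have h8 := congrArg Prod.fst h6
    simp only [Prod.mk_add_mk, Prod.fst_zero] at h8
    omega
  have hpair : Pair 1 B' A' := by
    rw [pair_iff]
    refine ⟨hAB'.symm, ?_, ?_⟩
    · intro k
      induction k with
      | zero =>
        intro _
        simp [cnt_nil]
      | succ k ih =>
        intro hk
        have ih' := ih (by omega)
        -- the two strands do not meet at the level `k + 2`
        have hne : cnt ((true :: A').take (k + 2)) ≠ cnt ((false :: B').take (k + 2)) := by
          intro heq
          have hkA : k + 2 ≤ (true :: A').length := by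
            simp only [List.length_cons]
            omega
          have hkB : k + 2 ≤ (false :: B').length := by
            simp only [List.length_cons]
            omega
          have h5 := pos_nword_left (true :: A') (false :: B') (k + 2) hkA
          have h6 := pos_nword_right (true :: A') (false :: B') hlAB hcAB
            ((false :: B').length - (k + 2)) (by omega)
          rw [← hwAB] at h5 h6
          have h7 : (false :: B').length - ((false :: B').length - (k + 2)) = k + 2 := by omega
          rw [h7, ← heq, ← h5] at h6
          have hA2 : (true :: A').length = l := hA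
          have hB2 : (false :: B').length = l := hB
          have hk1 : k + 2 < l := by
            rw [← hB2]
            simp only [List.length_cons]
            omega
          have h8 := hw'.inj _ _ (by rw [hA2, hB2]; omega) (by omega) h6
          rw [hA2, hB2] at h8
          omega
        rw [List.take_succ_cons, List.take_succ_cons, cnt_cons, cnt_cons, bit_true,
          bit_false] at hne
        -- one step changes the difference by at most one
        have hkA : k < A'.length := by omega
        have hkB : k < B'.length := by omega
        have e1 : cnt (A'.take (k + 1)) = cnt (A'.take k) + bit (A'[k]) := by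
          rw [List.take_succ_eq_append_getElem hkA, cnt_append, cnt_cons, cnt_nil, add_zero]
        have e2 : cnt (B'.take (k + 1)) = cnt (B'.take k) + bit (B'[k]) := by
          rw [List.take_succ_eq_append_getElem hkB, cnt_append, cnt_cons, cnt_nil, add_zero]
        have b1 : 0 ≤ bit (A'[k]) := by
          cases A'[k] <;> simp [bit]
        have b2 : bit (B'[k]) ≤ 1 := by
          cases B'[k] <;> simp [bit]
        rw [e1, e2] at hne ⊢
        omega
    · rw [cnt_cons, cnt_cons, bit_true, bit_false] at hcAB
      omega
  have hwn : w' = nWord A' B' := hwAB
  by_cases hk00 : k0 = 0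
  · refine ⟨0, A', B', h2, hpair, ?_⟩
    rw [List.rotate_zero, ← hwn, hw'def, hk00, List.rotate_zero]
  · refine ⟨m - k0, A', B', by omega, hpair, ?_⟩
    rw [← hwn, hw'def, List.rotate_rotate]
    have h5 : k0 + (m - k0) = w.length := by omega
    rw [h5, List.rotate_length]

end Pool.Agent.Helper99.TC
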