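import Pool.Agent.Helper99.TC.NormalA
import Pool.Agent.Helper99.TC.PQCard

/-!
# TC-17: the number of three-choice polygons with a normal root

Proof. The map `((u, v), k) ↦ (nWord u v).rotate k`, `Pair 1 v u`, `|v| = n - 1`, `k < 2 n`, is onto by `normal_forward` and well defined by `nword_tcp`, `tcp_rotate`. It is injective: if
`(nWord u v).rotate k = (nWord u' v').rotate k'` then `nWord u v = (nWord u' v').rotate (k' + 2 n - k)`; a rotation of `nWord u' v'` by `r`, `0 < r < 2 n`, does not have the shape (n steps in {U, R}, then n steps in {L, D}), since exactly one rotation of such a word has this shape; so `k = k'` and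
`ne`, `sw` are injective. Count with `pair_card (n - 1) 1` (swap the two lists).
-/

set_option autoImplicit false

namespace Pool.Agent.Helper99.TC

private def isUp : Step → Bool
  | .U => true
  | .R => true
  | .D => false
  | .L => false

private theorem up_ne (A : List Bool) : (ne A).map isUp = List.replicate A.length true := by
  induction A with
  | nil => rfl
  | cons a t ih =>
    have h1 : ne (a :: t) = (if a then Step.R else Step.U) :: ne t := by simp [ne]
    rw [h1, List.map_cons, ih, List.length_cons, List.replicate_succ]
    cases a <;> rfl

private theorem up_sw (B : List Bool) : (sw B).map isUp = List.replicate B.length false := by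
  rw [List.eq_replicate_iff]
  refine ⟨by simp [sw], ?_⟩
  intro b hb
  rw [List.mem_map] at hb
  obtain ⟨a, ha, rfl⟩ := hb
  rw [sw, List.mem_map] at ha
  obtain ⟨c, -, rfl⟩ := ha
  cases c <;> rfl

private theorem rot_zero (n r : ℕ) (hn : 0 < n) (hr : r < 2 * n)
    (h : List.replicate n true ++ List.replicate n false =
      (List.replicate n true ++ List.replicate n false).rotate r) : r = 0 := by
  have hl : (List.replicate n true ++ List.replicate n false).length = 2 * n := by
    simp
    ring
  have hget : ∀ q : ℕ, (hq : q < (List.replicate n true ++ List.replicate n false).length) →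
      (List.replicate n true ++ List.replicate n false)[q] = decide (q < n) := by
    intro q hq
    rw [List.getElem_append]
    by_cases h1 : q < n
    · simp [h1]
    · simp [h1]
  have key : ∀ q : ℕ, q < 2 * n → decide (q < n) = decide ((q + r) % (2 * n) < n) := by
    intro q hq
    have h2 : q < (List.replicate n true ++ List.replicate n false).length := by rw [hl]; exact hq
    have h3 : q < ((List.replicate n true ++ List.replicate n false).rotate r).length := by
      rw [List.length_rotate]; exact h2
    have h4 : (List.replicate n true ++ List.replicate n false)[q] =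
        ((List.replicate n true ++ List.replicate n false).rotate r)[q] := by
      have h6 : (List.replicate n true ++ List.replicate n false)[q]? =
          ((List.replicate n true ++ List.replicate n false).rotate r)[q]? := by rw [← h]
      rw [List.getElem?_eq_getElem h2, List.getElem?_eq_getElem h3] at h6
      exact Option.some.inj h6
    rw [hget q h2, List.getElem_rotate] at h4
    have h5 : (q + r) % (List.replicate n true ++ List.replicate n false).length <
        (List.replicate n true ++ List.replicate n false).length :=
      Nat.mod_lt _ (by rw [hl]; omega)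
    rw [hget _ h5] at h4
    rw [h4, hl]
  have k1 := key 0 (by omega)
  rw [zero_add, Nat.mod_eq_of_lt hr] at k1
  have k2 : r < n := by
    by_contra hcon
    rw [decide_eq_true hn, decide_eq_false hcon] at k1
    exact absurd k1 (by decide)
  have k3 := key (n - 1) (by omega)
  rw [Nat.mod_eq_of_lt (by omega), decide_eq_true (by omega : n - 1 < n)] at k3
  have k4 : n - 1 + r < n := of_decide_eq_true k3.symm
  omega

private theorem nword_up {u v : List Bool} (h : Pair 1 v u) (n : ℕ) (hu : u.length + 1 = n) :
    (nWord u v).map isUp = List.replicate n true ++ List.replicate n false := by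
  obtain ⟨hl, -, -⟩ := (pair_iff 1 v u).1 h
  rw [nWord, List.map_append, up_ne, up_sw, List.length_cons, List.length_cons, hl, hu]

private theorem ne_inj {A B : List Bool} (h : ne A = ne B) : A = B := by
  have hf : Function.Injective (fun b : Bool => if b then Step.R else Step.U) := by
    intro a b hab
    cases a <;> cases b <;> simp at hab ⊢
  exact List.map_injective_iff.2 hf h

private theorem sw_inj {A B : List Bool} (h : sw A = sw B) : A = B := by
  have hf : Function.Injective (fun b : Bool => if b then Step.L else Step.D) := by
    intro a b hab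
    cases a <;> cases b <;> simp at hab ⊢
  have h1 := List.map_injective_iff.2 hf h
  exact List.reverse_injective h1

private theorem nword_inj {u v u' v' : List Bool} (hu : u.length = u'.length)
    (h : nWord u v = nWord u' v') : u = u' ∧ v = v' := by
  have h1 := List.append_inj h (by rw [ne_length, ne_length, List.length_cons, List.length_cons, hu])
  have h2 := ne_inj h1.1
  have h3 := sw_inj h1.2
  exact ⟨(List.cons.inj h2).2, (List.cons.inj h3).2⟩

theorem normal_card (n : ℕ) (hn : 2 ≤ n) :
    Nat.card {w : List Step // w.length = 2 * n ∧ IsTCP w ∧ NRoot w} = 2 * n * pairN (n - 1) 1 := by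
  have hlen : ∀ {u v : List Bool}, Pair 1 v u → v.length = n - 1 →
      u.length + 1 = n ∧ (nWord u v).length = 2 * n := by
    intro u v h hv
    obtain ⟨hl, -, -⟩ := (pair_iff 1 v u).1 h
    have h1 := (nword_tcp h).2.2
    have h2 : u.length + 1 = n := by omega
    exact ⟨h2, by rw [h1, h2]⟩
  let Φ : {p : List Bool × List Bool // Pair 1 p.1 p.2 ∧ p.1.length = n - 1} × Fin (2 * n) →
      {w : List Step // w.length = 2 * n ∧ IsTCP w ∧ NRoot w} := fun x =>
    ⟨(nWord x.1.1.2 x.1.1.1).rotate x.2.1, by
      have h1 := nword_tcp x.1.2.1
      have h2 := tcp_rotate h1.1 h1.2.1 x.2.1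
      exact ⟨by rw [List.length_rotate]; exact (hlen x.1.2.1 x.1.2.2).2, h2.1, h2.2⟩⟩
  have hbij : Function.Bijective Φ := by
    constructor
    · rintro ⟨⟨⟨v, u⟩, hp, hv⟩, k⟩ ⟨⟨⟨v', u'⟩, hp', hv'⟩, k'⟩ h
      have h0 : (nWord u v).rotate k.1 = (nWord u' v').rotate k'.1 := congrArg Subtype.val h
      simp only at hp hv hp' hv'
      obtain ⟨hu, hL⟩ := hlen hp hv
      obtain ⟨hu', hL'⟩ := hlen hp' hv'
      have hk := k.2
      have hk' := k'.2
      have h1 : nWord u v = (nWord u' v').rotate (k'.1 + (2 * n - k.1)) := by
        rw [← List.rotate_rotate, ← h0, List.rotate_rotate]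
        have h2 : k.1 + (2 * n - k.1) = (nWord u v).length := by omega
        rw [h2, List.rotate_length]
      have h2 : nWord u v = (nWord u' v').rotate ((k'.1 + (2 * n - k.1)) % (2 * n)) := by
        have h8 := List.rotate_mod (nWord u' v') (k'.1 + (2 * n - k.1))
        have h9 : (k'.1 + (2 * n - k.1)) % (nWord u' v').length =
          (k'.1 + (2 * n - k.1)) % (2 * n) := congrArg _ hL'
        rw [h9] at h8
        rw [h8]
        exact h1
      have h3 : List.replicate n true ++ List.replicate n false =
          (List.replicate n true ++ List.replicate n false).rotate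
            ((k'.1 + (2 * n - k.1)) % (2 * n)) := by
        rw [← nword_up hp' n hu', ← List.map_rotate, ← h2, nword_up hp n hu, nword_up hp' n hu']
      have h4 := rot_zero n _ (by omega) (Nat.mod_lt _ (by omega)) h3
      have h5 : k = k' := by
        apply Fin.ext
        rcases Nat.lt_or_ge k'.1 k.1 with h6 | h6
        · have h7 : k'.1 + (2 * n - k.1) < 2 * n := by omega
          rw [Nat.mod_eq_of_lt h7] at h4
          omega
        · have h7 : (k'.1 + (2 * n - k.1)) = (k'.1 - k.1) + 2 * n := by omega
          rw [h7, Nat.add_mod_right, Nat.mod_eq_of_lt (by omega)] at h4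
          omega
      rw [h4, List.rotate_zero] at h2
      obtain ⟨h6, h7⟩ := nword_inj (by omega) h2
      subst h5
      subst h6
      subst h7
      rfl
    · rintro ⟨w, hw1, hw2, hw3⟩
      obtain ⟨k, u, v, hk, hp, hwe⟩ := normal_forward hw2 hw3
      have h1 := (nword_tcp hp).2.2
      obtain ⟨hl, -, -⟩ := (pair_iff 1 v u).1 hp
      have h2 : w.length = 2 * (u.length + 1) := by
        rw [hwe, List.length_rotate, h1]
      refine ⟨(⟨(v, u), hp, by simp only; omega⟩, ⟨k, by omega⟩), ?_⟩
      apply Subtype.ext
      exact hwe.symm
  rw [← Nat.card_congr (Equiv.ofBijective Φ hbij), Nat.card_prod, pair_card, Nat.card_eq_fintype_card,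
    Fintype.card_fin, mul_comm]

end Pool.Agent.Helper99.TC
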