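import Pool.Agent.Helper99.TC.HRec

/-!
# TC-25: the generating function of the quadruples

Proof of `quadS_eq`. Let `R d1 d2 d3 = al ^ (d1 + d3) - X^2 be H ![0, d1, d1 + d2, d1 + d2 + d3]` for `d2 ≥ 1`. If `d1 = 0`: `H = 0` (equal rows) and `quadS 0 d2 d3 = pairS d3 = al ^ d3` (definition of `quadN`, all `n`). If `d3 = 0`, the same. For `d1, d2, d3 ≥ 1` by definition
`quadS d1 d2 d3 = X^2 ∑ quadS (d1 - a + b) (d2 - b + c) (d3 - c + e)` over the bits, where `quadS d1 0 d3 = 0` if `d1, d3 ≥ 1` (note: if `d2 - b + c = 0` then `b = 1`, `c = 0`, so `d1 - a + b ≥ 1`, `d3 - c + e ≥ 1`). And `R` satisfies the same: `∑ al ^ (d1 - a + b + d3 - c + e) * X^2 = al ^ (d1 + d3 - 2) (1 + al)^4 X^2 = al ^ (d1 + d3)` by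
`al_eq`, `W_rec` with `Wt` (and `H_shift` to move the first coordinate back to 0), and on the diagonal `al^(d1' + d3') - al^(d1' + 0 + d3') = 0`. So the difference is a family which satisfies `f = X^2 ∑ f` or `f = 0`: `family_zero`.
-/

set_option autoImplicit false

open PowerSeries

namespace Pool.Agent.Helper99.TC

/-- `bit` takes the values 0 and 1 -/
private theorem bit01 (a : Bool) : bit a = 0 ∨ bit a = 1 := by cases a <;> simp [bit]

private theorem quadS_left (d2 d3 : ℤ) : quadS 0 d2 d3 = pairS d3 := by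
  ext n
  simp only [quadS, pairS, coeff_mk]
  rcases n with _ | _ | n
  · simp [quadN, pairN]
  · simp [quadN]
  · simp [quadN]

private theorem quadS_right (d1 d2 : ℤ) : quadS d1 d2 0 = pairS d1 := by
  ext n
  simp only [quadS, pairS, coeff_mk]
  rcases n with _ | _ | n
  · simp [quadN, pairN]
  · by_cases h : d1 = 0 <;> simp [quadN, h]
  · by_cases h : d1 = 0 <;> simp [quadN, h]

private theorem quadS_mid (d1 d3 : ℤ) (h1 : 0 < d1) (h3 : 0 < d3) : quadS d1 0 d3 = 0 := by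
  ext n
  simp only [quadS, coeff_mk]
  rcases n with _ | _ | n
  · simp [quadN, h1.ne']
  · simp [quadN, h1.ne', h3.ne']
  · simp [quadN, h1.ne', h3.ne']

private theorem quadS_rec (d1 d2 d3 : ℤ) (h1 : 0 < d1) (h2 : 0 < d2) (h3 : 0 < d3) :
    quadS d1 d2 d3 = X ^ 2 * ∑ a : Bool, ∑ b : Bool, ∑ c : Bool, ∑ e : Bool,
      quadS (d1 - bit a + bit b) (d2 - bit b + bit c) (d3 - bit c + bit e) := by
  ext n
  rcases n with _ | _ | n
  · rw [pow_two, mul_assoc, coeff_zero_X_mul]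
    simp [quadS, quadN, h1.ne']
  · rw [pow_two, mul_assoc, coeff_succ_X_mul, coeff_zero_X_mul]
    simp [quadS, quadN, h1.ne', h3.ne']
  · have h := coeff_X_pow_mul (∑ a : Bool, ∑ b : Bool, ∑ c : Bool, ∑ e : Bool,
      quadS (d1 - bit a + bit b) (d2 - bit b + bit c) (d3 - bit c + bit e)) 2 n
    rw [show n + 1 + 1 = n + 2 from rfl, h]
    simp only [quadS, map_sum, coeff_mk, quadN, h1.ne', h3.ne', h1, h2, h3, if_false, if_true,
      and_self, Nat.cast_sum]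

/-- the difference of the two sides, 0 for `d2 = 0` -/
private noncomputable def dif (i : ℕ × ℕ × ℕ) : ℚ⟦X⟧ :=
  if i.2.1 = 0 then 0 else quadS i.1 i.2.1 i.2.2 - (al ^ (i.1 + i.2.2) -
    X ^ 2 * be * H ![0, (i.1 : ℤ), (i.1 : ℤ) + i.2.1, (i.1 : ℤ) + i.2.1 + i.2.2])

private theorem al_pow_rec (d1 d3 : ℕ) (h1 : 1 ≤ d1) (h3 : 1 ≤ d3) :
    al ^ (d1 + d3) = X ^ 2 * ∑ a : Bool, ∑ b : Bool, ∑ c : Bool, ∑ e : Bool,
      al ^ (((d1 : ℤ) - bit a + bit b) + ((d3 : ℤ) - bit c + bit e)).toNat := by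
  obtain ⟨m1, rfl⟩ := Nat.exists_eq_add_of_le' h1
  obtain ⟨m3, rfl⟩ := Nat.exists_eq_add_of_le' h3
  have key : ∀ a b c e : Bool,
      (((m1 + 1 : ℕ) : ℤ) - bit a + bit b + (((m3 + 1 : ℕ) : ℤ) - bit c + bit e)).toNat =
        m1 + m3 + (if a then 0 else 1) + (if b then 1 else 0) + (if c then 0 else 1) +
          (if e then 1 else 0) := by
    intro a b c e
    cases a <;> cases b <;> cases c <;> cases e <;> simp [bit] <;> omega
  simp only [key, Fintype.sum_bool]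
  simp only [if_true, Bool.false_eq_true, if_false, add_zero]
  have e := al_eq
  have h2 : al ^ 2 = X ^ 2 * (1 + al) ^ 4 := by
    calc al ^ 2 = (X * (1 + al) ^ 2) ^ 2 := by rw [← al_eq]
      _ = _ := by ring
  calc al ^ (m1 + 1 + (m3 + 1)) = al ^ (m1 + m3) * al ^ 2 := by rw [← pow_add]; congr 1; ring
    _ = al ^ (m1 + m3) * (X ^ 2 * (1 + al) ^ 4) := by rw [h2]
    _ = _ := by ring

private theorem dif_rec (d1 d2 d3 : ℕ) (h1 : 1 ≤ d1) (h2 : 1 ≤ d2) (h3 : 1 ≤ d3) (N : ℕ)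
    (h : ∀ i, X ^ N ∣ dif i) : X ^ (N + 1) ∣ dif (d1, d2, d3) := by
  have hd : dif (d1, d2, d3) = quadS d1 d2 d3 - (al ^ (d1 + d3) -
      X ^ 2 * be * H ![0, (d1 : ℤ), (d1 : ℤ) + d2, (d1 : ℤ) + d2 + d3]) := by
    rw [dif, if_neg (by simpa using (show d2 ≠ 0 by omega))]
  have hW := W_rec 0 d1 (d1 + d2) (d1 + d2 + d3) (by omega) (by omega) (by omega)
  rw [hd, quadS_rec d1 d2 d3 (by omega) (by omega) (by omega), al_pow_rec d1 d3 h1 h3, hW,
    ← mul_sub, ← mul_sub]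
  simp only [← Finset.sum_sub_distrib]
  rw [pow_succ, mul_comm (X ^ N) X, pow_two, mul_assoc]
  refine mul_dvd_mul_left X (Dvd.dvd.mul_left ?_ X)
  refine Finset.dvd_sum fun a _ => Finset.dvd_sum fun b _ => Finset.dvd_sum fun c _ =>
    Finset.dvd_sum fun e _ => ?_
  have ha := bit01 a
  have hb := bit01 b
  have hc := bit01 c
  have he := bit01 e
  obtain ⟨n1, hn1⟩ : ∃ n1 : ℕ, (n1 : ℤ) = d1 - bit a + bit b :=
    ⟨((d1 : ℤ) - bit a + bit b).toNat, Int.toNat_of_nonneg (by omega)⟩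
  obtain ⟨n2, hn2⟩ : ∃ n2 : ℕ, (n2 : ℤ) = d2 - bit b + bit c :=
    ⟨((d2 : ℤ) - bit b + bit c).toNat, Int.toNat_of_nonneg (by omega)⟩
  obtain ⟨n3, hn3⟩ : ∃ n3 : ℕ, (n3 : ℤ) = d3 - bit c + bit e :=
    ⟨((d3 : ℤ) - bit c + bit e).toNat, Int.toNat_of_nonneg (by omega)⟩
  rw [← hn1, ← hn2, ← hn3]
  have hexp : ((n1 : ℤ) + n3).toNat = n1 + n3 := by omega
  rw [hexp]
  by_cases hz : n2 = 0
  · have e1 : (d1 : ℤ) + bit b = d1 + d2 + bit c := by omega
    have e2 : ((d1 : ℤ) + d2 + d3 + bit e - (0 + bit a)).toNat = n1 + n3 := by omega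
    rw [Wt, if_pos e1, e2, hz]
    have h0 := quadS_mid n1 n3 (by omega) (by omega)
    simp only [Nat.cast_zero]
    rw [h0]
    simp
  · have e1 : ¬ (d1 : ℤ) + bit b = d1 + d2 + bit c := by omega
    rw [Wt, if_neg e1]
    have hs := H_shift 0 n1 (n1 + n2) (n1 + n2 + n3) (bit a)
    have e2 : (n1 : ℤ) + bit a = d1 + bit b := by omega
    have e3 : (n1 : ℤ) + n2 + bit a = d1 + d2 + bit c := by omega
    have e4 : (n1 : ℤ) + n2 + n3 + bit a = d1 + d2 + d3 + bit e := by omega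
    rw [e2, e3, e4] at hs
    rw [hs]
    have := h (n1, n2, n3)
    rw [dif, if_neg (by simpa using hz)] at this
    exact this

private theorem dif_zero (i : ℕ × ℕ × ℕ) : dif i = 0 := by
  refine family_zero dif ?_ i
  intro N h i
  obtain ⟨d1, d2, d3⟩ := i
  by_cases h2 : d2 = 0
  · rw [dif, if_pos (by simpa using h2)]
    exact dvd_zero _
  by_cases h1 : d1 = 0
  · have : dif (d1, d2, d3) = 0 := by
      rw [dif, if_neg (by simpa using h2)]
      subst h1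
      have hH : H ![0, ((0 : ℕ) : ℤ), ((0 : ℕ) : ℤ) + d2, ((0 : ℕ) : ℤ) + d2 + d3] = 0 :=
        H_eq_zero _ 0 1 (by decide) (by simp)
      rw [hH]
      simp only [Nat.cast_zero, quadS_left, pairS_nat, mul_zero, sub_zero, zero_add, sub_self]
    rw [this]; exact dvd_zero _
  by_cases h3 : d3 = 0
  · have : dif (d1, d2, d3) = 0 := by
      rw [dif, if_neg (by simpa using h2)]
      subst h3
      have hH : H ![0, (d1 : ℤ), (d1 : ℤ) + d2, (d1 : ℤ) + d2 + ((0 : ℕ) : ℤ)] = 0 :=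
        H_eq_zero _ 2 3 (by decide) (by simp)
      rw [hH]
      simp only [Nat.cast_zero, quadS_right, pairS_nat, mul_zero, sub_zero, add_zero, sub_self]
    rw [this]; exact dvd_zero _
  exact dif_rec d1 d2 d3 (by omega) (by omega) (by omega) N h

theorem quadS_eq (d1 d2 d3 : ℕ) (h2 : 1 ≤ d2) : quadS d1 d2 d3 =
    al ^ (d1 + d3) - X ^ 2 * be * H ![0, d1, d1 + d2, d1 + d2 + d3] := by
  have h := dif_zero (d1, d2, d3)
  rw [dif, if_neg (by simpa using (show d2 ≠ 0 by omega))] at h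
  exact sub_eq_zero.mp h

end Pool.Agent.Helper99.TC
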