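import Mathlib

/-!
# The relation R3: creative telescoping for the series I (certificate)
-/

set_option autoImplicit false

open PowerSeries

namespace Pool.Agent.Helper99.TC

namespace C3

variable {R : Type*} [CommRing R]

def U00 (x t s : R) : R :=
  ((160 * x + (-1120 * x ^ 2)) * s + ((-40) + (-400 * x) + 2240 * x ^ 2) * s ^ 2 + ((-96 * x) + 672 * x ^ 2) * t + (160 + 760 * x + (-5600 * x ^ 2)) * t * s + ((-84) + (-336 * x) + 2688 * x ^ 2) * t ^ 2)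

def U01 (x t s : R) : R :=
  ((320 * x ^ 2 + (-2240 * x ^ 3)) * s + ((-160 * x ^ 2) + 1120 * x ^ 3) * t + (240 * x + 720 * x ^ 2 + (-6720 * x ^ 3)) * t * s + ((-120 * x) + (-360 * x ^ 2) + 3360 * x ^ 3) * t ^ 2)

def U10 (x t s : R) : R :=
  (((-160 * x) + 1440 * x ^ 2 + (-2240 * x ^ 3)) * s + (40 + 400 * x + (-2240 * x ^ 2)) * s ^ 2 + (80 * x + (-720 * x ^ 2) + 1120 * x ^ 3) * t + ((-160) + (-520 * x) + 6320 * x ^ 2 + (-6720 * x ^ 3)) * t * s + (160 + (-200 * x) + (-2600 * x ^ 2) + 3360 * x ^ 3) * t ^ 2)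

def V00 (x t s : R) : R :=
  (((-140 * x ^ 2) + (-720 * x ^ 3) + 5600 * x ^ 4) + (56 * x ^ 2 + 288 * x ^ 3 + (-2240 * x ^ 4)) * s + ((-280 * x ^ 2) + (-1280 * x ^ 3) + 10080 * x ^ 4) * t + (56 * x ^ 2 + 224 * x ^ 3 + (-1792 * x ^ 4)) * t * s + ((-140 * x ^ 2) + (-560 * x ^ 3) + 4480 * x ^ 4) * t ^ 2)

def V01 (x t s : R) : R :=
  ((1000 * x ^ 2 + (-3280 * x ^ 3) + (-3360 * x ^ 4)) + ((-1360 * x ^ 2) + 5640 * x ^ 3 + (-560 * x ^ 4)) * s + (520 * x ^ 2 + (-2360 * x ^ 3) + 1120 * x ^ 4) * s ^ 2 + (2000 * x ^ 2 + (-6720 * x ^ 3) + (-5600 * x ^ 4)) * t + ((-1360 * x ^ 2) + 5720 * x ^ 3 + (-1120 * x ^ 4)) * t * s + (1000 * x ^ 2 + (-3440 * x ^ 3) + (-2240 * x ^ 4)) * t ^ 2)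

def V10 (x t s : R) : R :=
  ((760 * x ^ 2 + (-4320 * x ^ 3) + 5600 * x ^ 4) + ((-1240 * x ^ 2) + 6160 * x ^ 3 + (-5040 * x ^ 4)) * s + (520 * x ^ 2 + (-2360 * x ^ 3) + 1120 * x ^ 4) * s ^ 2 + (1520 * x ^ 2 + (-8480 * x ^ 3) + 10080 * x ^ 4) * t + ((-1240 * x ^ 2) + 6080 * x ^ 3 + (-4480 * x ^ 4)) * t * s + (760 * x ^ 2 + (-4160 * x ^ 3) + 4480 * x ^ 4) * t ^ 2)

def iI2_ (x : R) : R := ((-40) + 280 * x + (-600 * x ^ 2) + 1600 * x ^ 3 + (-4480 * x ^ 4))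

def iI1_ (x : R) : R := (280 * x + (-1200 * x ^ 2) + 4800 * x ^ 3 + (-17920 * x ^ 4))

def iI0_ (x : R) : R := (120 * x + (-600 * x ^ 2) + 3600 * x ^ 3 + (-16800 * x ^ 4))

def iF2_ (x : R) : R := (21 + (-106 * x) + 312 * x ^ 2 + (-1344 * x ^ 3) + 1792 * x ^ 4)

def iF1_ (x : R) : R := ((-92 * x) + 668 * x ^ 2 + (-3712 * x ^ 3) + 7168 * x ^ 4)

def iF0_ (x : R) : R := ((-40 * x) + 352 * x ^ 2 + (-2544 * x ^ 3) + 6720 * x ^ 4)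

def U3 (x t s g0 g1 b : R) : R :=
  (U10 x t s * g0 + U01 x t s * g1 + U00 x t s * b) * b ^ 3

def V3 (x t s g0 g1 b : R) : R :=
  (V10 x t s * g0 + V01 x t s * g1 + V00 x t s * b) * b ^ 3

def T3 (x t s g0 th0 th00 b0 : R) : R :=
  (iI2_ x * (4 * t ^ 2 * g0 + 4 * t * th0 + th00) + iI1_ x * (2 * t * g0 + th0) + iI0_ x * g0) *
    b0 ^ 3 + (iF2_ x * (4 * t ^ 2) + iF1_ x * (2 * t) + iF0_ x) * b0 ^ 4

theorem cert3 (x t s κ g0 g1 gm g2 th0 th1 th00 b0 b1 : R)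
    (hb0 : b0 = (t + 1 - s) * κ) (hb1 : b1 = s * κ)
    (hg2 : x * g2 = (1 - 2 * x) * g1 - x * g0 - b1)
    (hgm : x * gm = (1 - 2 * x) * g0 - x * g1 - b0)
    (h0 : (1 - 4 * x) * th0 = (x * (t + 2) - s + 2 * x * s) * g0 + x * (2 * s - t) * g1 + s * b0)
    (h1 : (1 - 4 * x) * th1 = x * (t - 2 * s + 2) * g0 +
      (x * (t + 2) - (t - s + 1) * (1 - 2 * x)) * g1 + (t - s + 1) * b1)
    (h00 : (1 - 4 * x) * th00 = (x * (t + 2) + 2 * x * s) * g0 + x * (2 * s - t) * g1 +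
      (x * (t + 2) - s + 2 * x * s + 4 * x) * th0 + x * (2 * s - t) * th1) :
    (1 - 4 * x) ^ 2 * (x * (T3 x t s g0 th0 th00 b0 -
      (x ^ 2 * U3 x (t + 1) s (g0 + g1) (g1 + g2) (b0 + b1) - U3 x t s g0 g1 b0 +
        V3 x t (s + 1) gm g0 b0 - V3 x t s g0 g1 b1))) = 0 := by
  subst hb0 hb1
  unfold T3 U3 V3 U00 U01 U10 V00 V01 V10 iI2_ iI1_ iI0_ iF2_ iF1_ iF0_
  linear_combination
    ((1 - 4 * x) * x * ((-40) + 280 * x + (-600 * x ^ 2) + 1600 * x ^ 3 + (-4480 * x ^ 4)) * ((t + 1 - s) * κ) ^ 3) * h00 +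
    (x * ((t + 1 - s) * κ) ^ 3 * ((1 - 4 * x) * (4 * t * ((-40) + 280 * x + (-600 * x ^ 2) + 1600 * x ^ 3 + (-4480 * x ^ 4)) + (280 * x + (-1200 * x ^ 2) + 4800 * x ^ 3 + (-17920 * x ^ 4))) +
      ((-40) + 280 * x + (-600 * x ^ 2) + 1600 * x ^ 3 + (-4480 * x ^ 4)) * (x * (t + 2) - s + 2 * x * s + 4 * x))) * h0 +
    (x * ((t + 1 - s) * κ) ^ 3 * ((-40) + 280 * x + (-600 * x ^ 2) + 1600 * x ^ 3 + (-4480 * x ^ 4)) * (x * (2 * s - t))) * h1 -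
    ((1 - 4 * x) ^ 2 * x ^ 2 * (((320 * x ^ 2 + (-2240 * x ^ 3)) * s + ((-160 * x ^ 2) + 1120 * x ^ 3) * (t + 1) + (240 * x + 720 * x ^ 2 + (-6720 * x ^ 3)) * (t + 1) * s + ((-120 * x) + (-360 * x ^ 2) + 3360 * x ^ 3) * (t + 1) ^ 2)) * ((t + 1) * κ) ^ 3) * hg2 -
    ((1 - 4 * x) ^ 2 * (((760 * x ^ 2 + (-4320 * x ^ 3) + 5600 * x ^ 4) + ((-1240 * x ^ 2) + 6160 * x ^ 3 + (-5040 * x ^ 4)) * (s + 1) + (520 * x ^ 2 + (-2360 * x ^ 3) + 1120 * x ^ 4) * (s + 1) ^ 2 + (1520 * x ^ 2 + (-8480 * x ^ 3) + 10080 * x ^ 4) * t + ((-1240 * x ^ 2) + 6080 * x ^ 3 + (-4480 * x ^ 4)) * t * (s + 1) + (760 * x ^ 2 + (-4160 * x ^ 3) + 4480 * x ^ 4) * t ^ 2)) * ((t + 1 - s) * κ) ^ 3) * hgm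

end C3

end Pool.Agent.Helper99.TC
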