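import Pool.Agent.Helper99.TC.CertBase
import Pool.Agent.Helper99.TC.R3Cert

/-!
# The relation R3
-/

set_option autoImplicit false

open PowerSeries

namespace Pool.Agent.Helper99.TC

theorem pl_nil : pl [] = 0 := rfl

theorem pl_cons (a : ℤ) (l : List ℤ) : pl (a :: l) = (a : ℚ⟦X⟧) + X * pl l := rfl

namespace C3

/-- the sum of U -/
noncomputable def SU (t : ℕ) : ℚ⟦X⟧ :=
  ∑ s ∈ Finset.Icc (0 : ℤ) t, U3 X (t : ℚ⟦X⟧) (s : ℚ⟦X⟧) (g t s) (g t (s - 1)) (cb t s)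

/-- V as a function of s -/
noncomputable def VV (t : ℕ) (s : ℤ) : ℚ⟦X⟧ :=
  V3 X (t : ℚ⟦X⟧) (s : ℚ⟦X⟧) (g t s) (g t (s - 1)) (cb t (s - 1))

theorem point (t : ℕ) (s : ℤ) :
    T3 X (t : ℚ⟦X⟧) (s : ℚ⟦X⟧) (g t s) (th (g t s)) (th (th (g t s))) (cb t s) =
      X ^ 2 * U3 X ((t + 1 : ℕ) : ℚ⟦X⟧) (s : ℚ⟦X⟧) (g (t + 1) s) (g (t + 1) (s - 1))
        (cb (t + 1) s) -
      U3 X (t : ℚ⟦X⟧) (s : ℚ⟦X⟧) (g t s) (g t (s - 1)) (cb t s) + VV t (s + 1) - VV t s := by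
  obtain ⟨κ, h0, h1, -⟩ := cb_param t s
  have hc := cert3 (X : ℚ⟦X⟧) (t : ℚ⟦X⟧) (s : ℚ⟦X⟧) (((t : ℚ⟦X⟧) + 2 - (s : ℚ⟦X⟧)) * κ)
    (g t s) (g t (s - 1)) (g t (s + 1)) (g t (s - 2)) (th (g t s)) (th (g t (s - 1)))
    (th (th (g t s))) (cb t s) (cb t (s - 1)) (by rw [h0]; ring) (by rw [h1]; ring)
    (X_mul_g2 t s) (X_mul_gm t s) (B_th_g0 t s) (B_th_g1 t s) (B_th_th_g0 t s)
  have hB : (1 - 4 * X : ℚ⟦X⟧) ^ 2 ≠ 0 := by
    apply pow_ne_zero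
    intro h
    have := congrArg (coeff 0) h
    simp at this
  have h2 := (mul_eq_zero.mp ((mul_eq_zero.mp hc).resolve_left hB)).resolve_left X_ne_zero
  have e1 : s + 1 - 1 = s := by ring
  have e2 : s - 1 - 1 = s - 2 := by ring
  unfold VV
  rw [g_succ, g_succ, cb_succ, e1, e2]
  push_cast
  linear_combination h2

theorem U3_b0 (x t s g0 g1 : ℚ⟦X⟧) : U3 x t s g0 g1 0 = 0 := by
  unfold U3; ring

theorem V3_b0 (x t s g0 g1 : ℚ⟦X⟧) : V3 x t s g0 g1 0 = 0 := by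
  unfold V3; ring

theorem T3_b0 (x t s g0 a b : ℚ⟦X⟧) : T3 x t s g0 a b 0 = 0 := by
  unfold T3; ring

theorem sumT (t : ℕ) : ∑ s ∈ Finset.Icc (0 : ℤ) t,
    T3 X (t : ℚ⟦X⟧) (s : ℚ⟦X⟧) (g t s) (th (g t s)) (th (th (g t s))) (cb t s) =
      X ^ 2 * SU (t + 1) - SU t := by
  have h1 : ∑ s ∈ Finset.Icc (0 : ℤ) ((t + 1 : ℕ) : ℤ),
      T3 X (t : ℚ⟦X⟧) (s : ℚ⟦X⟧) (g t s) (th (g t s)) (th (th (g t s))) (cb t s) =
      ∑ s ∈ Finset.Icc (0 : ℤ) ((t + 1 : ℕ) : ℤ),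
      (X ^ 2 * U3 X ((t + 1 : ℕ) : ℚ⟦X⟧) (s : ℚ⟦X⟧) (g (t + 1) s) (g (t + 1) (s - 1))
        (cb (t + 1) s) -
      U3 X (t : ℚ⟦X⟧) (s : ℚ⟦X⟧) (g t s) (g t (s - 1)) (cb t s) + (VV t (s + 1) - VV t s)) := by
    apply Finset.sum_congr rfl
    intro s _
    rw [point t s]
    ring
  rw [sum_Icc_ext t 1 _ (fun s hs => by rw [cb_big t s hs, T3_b0]), Finset.sum_add_distrib,
    Finset.sum_sub_distrib, sum_Icc_tele, ← Finset.mul_sum,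
    sum_Icc_ext t 1 (fun s => U3 X (t : ℚ⟦X⟧) (s : ℚ⟦X⟧) (g t s) (g t (s - 1)) (cb t s))
      (fun s hs => by rw [cb_big t s hs, U3_b0])] at h1
  have v0 : VV t 0 = 0 := by
    unfold VV
    rw [cb_neg t (0 - 1) (by omega), V3_b0]
  have v1 : VV t (((t + 1 : ℕ) : ℤ) + 1) = 0 := by
    unfold VV
    rw [cb_big t _ (by push_cast; omega), V3_b0]
  rw [v0, v1] at h1
  unfold SU
  rw [h1]
  ring

theorem SU_zero : SU 0 = 0 := by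
  unfold SU U3 U00 U01 U10
  simp

end C3

open C3 in
/-- relation R3 -/
theorem R3 : pl iI2 * th (th Iser) + pl iI1 * th Iser + pl iI0 * Iser + pl iF2 * th (th Fser) +
    pl iF1 * th Fser + pl iF0 * Fser = 0 := by
  have hX : (X : ℚ⟦X⟧) ∣ X ^ 2 := dvd_pow_self X two_ne_zero
  have h := gs_telescope SU
  rw [SU_zero, neg_zero] at h
  simp only [← sumT] at h
  rw [← h, th_th_Iser, th_Iser, Iser, th_th_Fser, th_Fser, Fser_eq, ← gs_mul_left _ hX,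
    ← gs_mul_left _ hX, ← gs_mul_left _ hX, ← gs_mul_left _ hX, ← gs_mul_left _ hX,
    ← gs_mul_left _ hX, ← gs_add, ← gs_add, ← gs_add, ← gs_add, ← gs_add]
  congr 1
  funext t
  rw [Finset.mul_sum, Finset.mul_sum, Finset.mul_sum, Finset.mul_sum, Finset.mul_sum,
    Finset.mul_sum, ← Finset.sum_add_distrib, ← Finset.sum_add_distrib,
    ← Finset.sum_add_distrib, ← Finset.sum_add_distrib, ← Finset.sum_add_distrib]
  apply Finset.sum_congr rfl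
  intro s _
  unfold T3 iI2_ iI1_ iI0_ iF2_ iF1_ iF0_
  simp only [iI2, iI1, iI0, iF2, iF1, iF0, pl_cons, pl_nil]
  push_cast
  ring

end Pool.Agent.Helper99.TC
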