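import Pool.Agent.Helper99.TC.R1Pt
import Pool.Agent.Helper99.TC.R3
import Pool.Agent.Helper99.TC.GExp

/-!
# The relation R1
-/

set_option autoImplicit false

open PowerSeries

namespace Pool.Agent.Helper99.TC

namespace C1

theorem U1_b0 (x t s g0 y1 : ℚ⟦X⟧) : U1 x t s g0 y1 0 0 = 0 := by
  unfold U1; ring

theorem V1_b0 (x t s y0 g1 : ℚ⟦X⟧) : V1 x t s y0 g1 0 0 = 0 := by
  unfold V1; ring

/-- the part with binomial coefficients -/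
noncomputable def P1 (t : ℕ) (s : ℤ) : ℚ⟦X⟧ :=
    (pI0_ X * g t s + pI1_ X * (2 * (t : ℚ⟦X⟧) * g t s + th (g t s))) * cb t s ^ 3 +
    (pF0_ X + 2 * (t : ℚ⟦X⟧) * pF1_ X + 4 * (t : ℚ⟦X⟧) ^ 2 * pF2_ X) * cb t s ^ 4

theorem T1_eq (t : ℕ) (s : ℤ) : T1 t s =
    1080 * X ^ 5 * (1 - 4 * X) ^ 3 * ((4 + 2 * (t : ℚ⟦X⟧)) * detN t s + th (detN t s)) +
      P1 t s := by
  unfold T1 P1
  ring

/-- the sum of U -/
noncomputable def SU (t : ℕ) : ℚ⟦X⟧ := ∑ s ∈ Finset.Icc (0 : ℤ) ((t + 1 : ℕ) : ℤ), UU t s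

theorem sumT (t : ℕ) :
    1080 * X ^ 5 * (1 - 4 * X) ^ 3 *
      ((4 + 2 * (t : ℚ⟦X⟧)) * ∑ s ∈ Finset.Icc (0 : ℤ) (t + 2), detN t s +
        th (∑ s ∈ Finset.Icc (0 : ℤ) (t + 2), detN t s)) +
      ∑ s ∈ Finset.Icc (0 : ℤ) t, P1 t s =
      X ^ 2 * SU (t + 1) - SU t := by
  have e : ((t : ℤ) + 2) = ((t + 2 : ℕ) : ℤ) := by push_cast; ring
  have h1 : ∑ s ∈ Finset.Icc (0 : ℤ) ((t + 2 : ℕ) : ℤ), T1 t s =
      ∑ s ∈ Finset.Icc (0 : ℤ) ((t + 2 : ℕ) : ℤ),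
      (X ^ 2 * UU (t + 1) s - UU t s + (VV t (s + 1) - VV t s)) :=
    Finset.sum_congr rfl fun s _ => point t s
  rw [Finset.sum_add_distrib, Finset.sum_sub_distrib, sum_Icc_tele, ← Finset.mul_sum] at h1
  have hU : ∑ s ∈ Finset.Icc (0 : ℤ) ((t + 2 : ℕ) : ℤ), UU t s = SU t := by
    have := sum_Icc_ext (t + 1) 1 (fun s => UU t s) (fun s hs => by
      have hs' : (t : ℤ) + 1 < s := by push_cast at hs; exact hs
      simp only [UU]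
      rw [cb_big t s (by omega), cb_big t (s - 1) (by omega), U1_b0])
    exact this
  have v0 : VV t 0 = 0 := by
    unfold VV
    rw [cb_neg t (0 - 1) (by omega), cb_neg t (0 - 2) (by omega), V1_b0]
  have v1 : VV t (((t + 2 : ℕ) : ℤ) + 1) = 0 := by
    unfold VV
    rw [cb_big t _ (by push_cast; omega), cb_big t _ (by push_cast; omega), V1_b0]
  rw [hU, v0, v1] at h1
  have hT : ∑ s ∈ Finset.Icc (0 : ℤ) ((t + 2 : ℕ) : ℤ), T1 t s =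
      1080 * X ^ 5 * (1 - 4 * X) ^ 3 *
      ((4 + 2 * (t : ℚ⟦X⟧)) * ∑ s ∈ Finset.Icc (0 : ℤ) ((t + 2 : ℕ) : ℤ), detN t s +
        th (∑ s ∈ Finset.Icc (0 : ℤ) ((t + 2 : ℕ) : ℤ), detN t s)) +
      ∑ s ∈ Finset.Icc (0 : ℤ) t, P1 t s := by
    rw [← sum_Icc_ext t 2 (fun s => P1 t s) (fun s hs => by
      simp only [P1]
      rw [cb_big t s hs]
      ring), th_sum, Finset.mul_sum, ← Finset.sum_add_distrib, Finset.mul_sum,
      ← Finset.sum_add_distrib]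
    exact Finset.sum_congr rfl fun s _ => T1_eq t s
  rw [e, ← hT, h1]
  unfold SU
  have e2 : ((t + 1 + 1 : ℕ) : ℤ) = ((t + 2 : ℕ) : ℤ) := by push_cast; ring
  rw [e2]
  ring

theorem SU_zero_pol {R : Type*} [CommRing R] (x p q : R) (h : (1 - 4 * x) * p ^ 2 = 1)
    (hq : 2 * x * q = (1 - 2 * x) * p - 1) :
    8 * x ^ 3 * ((1 - 4 * x) * ((1800 * x ^ 3 - 10800 * x ^ 4 + 11880 * x ^ 5 + 10080 * x ^ 6) * (p * q) + (1080 * x ^ 4 - 10800 * x ^ 5 + 18360 * x ^ 6 + 30240 * x ^ 7) * (p * q ^ 2) + (-180 * x ^ 2 - 2880 * x ^ 3 + 19980 * x ^ 4 - 19800 * x ^ 5 - 10080 * x ^ 6) * (p ^ 2) + (-1800 * x ^ 3 + 10080 * x ^ 4 + 5400 * x ^ 5 - 81360 * x ^ 6 + 54720 * x ^ 7) * (p ^ 2 * q) + (360 * x ^ 2 + 720 * x ^ 3 - 24480 * x ^ 4 + 78480 * x ^ 5 - 66600 * x ^ 6 + 24480 * x ^ 7) * (p ^ 3))) =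
    8 * x ^ 3 * ((1 - 4 * x) * ((1080 * x ^ 2 - 4320 * x ^ 3 - 3240 * x ^ 4 + 4320 * x ^ 5) + (-900 * x ^ 2 + 1800 * x ^ 3 + 1260 * x ^ 4) * ((1 - 4 * x) * p))) := by
  have e : 8 * x ^ 3 * ((1800 * x ^ 3 - 10800 * x ^ 4 + 11880 * x ^ 5 + 10080 * x ^ 6) * (p * q) + (1080 * x ^ 4 - 10800 * x ^ 5 + 18360 * x ^ 6 + 30240 * x ^ 7) * (p * q ^ 2) + (-180 * x ^ 2 - 2880 * x ^ 3 + 19980 * x ^ 4 - 19800 * x ^ 5 - 10080 * x ^ 6) * (p ^ 2) + (-1800 * x ^ 3 + 10080 * x ^ 4 + 5400 * x ^ 5 - 81360 * x ^ 6 + 54720 * x ^ 7) * (p ^ 2 * q) + (360 * x ^ 2 + 720 * x ^ 3 - 24480 * x ^ 4 + 78480 * x ^ 5 - 66600 * x ^ 6 + 24480 * x ^ 7) * (p ^ 3)) =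
      (7200 * x ^ 5 - 43200 * x ^ 6 + 47520 * x ^ 7 + 40320 * x ^ 8) * (p * (2 * x * q)) + (2160 * x ^ 5 - 21600 * x ^ 6 + 36720 * x ^ 7 + 60480 * x ^ 8) * (p * (2 * x * q) ^ 2) + (-1440 * x ^ 5 - 23040 * x ^ 6 + 159840 * x ^ 7 - 158400 * x ^ 8 - 80640 * x ^ 9) * (p ^ 2) + (-7200 * x ^ 5 + 40320 * x ^ 6 + 21600 * x ^ 7 - 325440 * x ^ 8 + 218880 * x ^ 9) * (p ^ 2 * (2 * x * q)) + (2880 * x ^ 5 + 5760 * x ^ 6 - 195840 * x ^ 7 + 627840 * x ^ 8 - 532800 * x ^ 9 + 195840 * x ^ 10) * (p ^ 3) := by ring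
  rw [hq] at e
  linear_combination (1 - 4 * x) * e + ((-2160 * x ^ 5 + 30240 * x ^ 6 - 123120 * x ^ 7 + 86400 * x ^ 8 + 241920 * x ^ 9) * p + (8640 * x ^ 5 - 69120 * x ^ 6 + 112320 * x ^ 7 + 138240 * x ^ 8 - 138240 * x ^ 9)) * h

theorem SU_zero_aux (p q : ℚ⟦X⟧) (h : (1 - 4 * X) * p ^ 2 = 1)
    (hq : 2 * X * q = (1 - 2 * X) * p - 1) :
    (1800 * X ^ 3 - 10800 * X ^ 4 + 11880 * X ^ 5 + 10080 * X ^ 6) * (p * q) + (1080 * X ^ 4 - 10800 * X ^ 5 + 18360 * X ^ 6 + 30240 * X ^ 7) * (p * q ^ 2) + (-180 * X ^ 2 - 2880 * X ^ 3 + 19980 * X ^ 4 - 19800 * X ^ 5 - 10080 * X ^ 6) * (p ^ 2) + (-1800 * X ^ 3 + 10080 * X ^ 4 + 5400 * X ^ 5 - 81360 * X ^ 6 + 54720 * X ^ 7) * (p ^ 2 * q) + (360 * X ^ 2 + 720 * X ^ 3 - 24480 * X ^ 4 + 78480 * X ^ 5 - 66600 * X ^ 6 + 24480 * X ^ 7) * (p ^ 3) =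
    (1080 * X ^ 2 - 4320 * X ^ 3 - 3240 * X ^ 4 + 4320 * X ^ 5) + (-900 * X ^ 2 + 1800 * X ^ 3 + 1260 * X ^ 4) * ((1 - 4 * X) * p) := by
  have hB : (1 - 4 * X : ℚ⟦X⟧) ≠ 0 := by
    intro h
    have := congrArg (coeff 0) h
    simp at this
  have hX : (8 * X ^ 3 : ℚ⟦X⟧) ≠ 0 := by
    have h8 : (8 : ℚ⟦X⟧) ≠ 0 := by
      intro h8
      have := congrArg (coeff 0) h8
      rw [show (8 : ℚ⟦X⟧) = PowerSeries.C (8 : ℚ) from
        (map_ofNat (PowerSeries.C : ℚ →+* ℚ⟦X⟧) 8).symm] at this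
      simp at this
    exact mul_ne_zero h8 (pow_ne_zero 3 X_ne_zero)
  exact mul_left_cancel₀ hB (mul_left_cancel₀ hX (SU_zero_pol X p q h hq))

theorem SU_zero : SU 0 = pl pD + pl pC * be := by
  have h1 : be * g 0 0 = 1 := by
    have := g_zero 0
    simpa using this
  have h2 : be * g 0 1 = al := by
    have := g_zero 1
    simpa using this
  have h3 : be * g 0 (-1) = al := by
    have := g_zero (-1)
    simpa using this
  have hbe := be_ne_zero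
  have h4 : g 0 (-1) = g 0 1 := mul_left_cancel₀ hbe (h3.trans h2.symm)
  have hsq := be_sq
  have h5 : (1 - 4 * X) * g 0 0 ^ 2 = 1 := by
    rw [← hsq]
    linear_combination (be * g 0 0 + 1) * h1
  have h6 : (1 - 4 * X) * g 0 0 = be := by
    rw [← hsq]
    linear_combination be * h1
  have h7 : 2 * X * g 0 1 = (1 - 2 * X) * g 0 0 - 1 := by
    apply mul_left_cancel₀ hbe
    linear_combination 2 * X * h2 - (1 - 2 * X) * h1 + two_X_al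
  have hc0 : cb 0 0 = 1 := by simp [cb, bz]
  have hc1 : cb 0 1 = 0 := cb_big 0 1 (by norm_num)
  have hcm : cb 0 (-1) = 0 := cb_neg 0 (-1) (by norm_num)
  have hE := SU_zero_aux (g 0 0) (g 0 1) h5 h7
  rw [h6] at hE
  have hS : SU 0 = UU 0 0 + UU 0 1 := by
    unfold SU
    rw [sum_Icc_range]
    simp [Finset.sum_range_succ]
  have u0 : UU 0 0 = U1 X 0 0 (g 0 0) (X * g 0 1) 1 0 := by
    unfold UU
    have e1 : (0 : ℤ) - 1 = -1 := by norm_num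
    rw [e1, h4, hc0, hcm]
    simp
  have u1 : UU 0 1 = U1 X 0 1 (g 0 1) (X * g 0 0) 0 1 := by
    unfold UU
    have e1 : (1 : ℤ) - 1 = 0 := by norm_num
    rw [e1, hc0, hc1]
    simp
  have hpD : pl pD = (1080 * X ^ 2 - 4320 * X ^ 3 - 3240 * X ^ 4 + 4320 * X ^ 5) := by
    simp only [pD, pl_cons, pl_nil]
    push_cast
    ring
  have hpC : pl pC = (-900 * X ^ 2 + 1800 * X ^ 3 + 1260 * X ^ 4) := by
    simp only [pC, pl_cons, pl_nil]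
    push_cast
    ring
  rw [hS, u0, u1, hpD, hpC, ← hE]
  unfold U1 U0031 U0121 U0130 U0211 U0220 U0301 U0310 U1021 U1111 U1120 U1201 U1210 U2011 U2020 U2101 U2110 U3001 U3010
  ring

end C1

open C1 in
/-- relation R1 -/
theorem R1 : 1080 * X ^ 5 * (1 - 4 * X) ^ 3 * (4 * Dser + th Dser) + pl pI1 * th Iser +
    pl pI0 * Iser + pl pF2 * th (th Fser) + pl pF1 * th Fser + pl pF0 * Fser +
    pl pC * be + pl pD = 0 := by
  have hX : (X : ℚ⟦X⟧) ∣ X ^ 2 := dvd_pow_self X two_ne_zero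
  have h := gs_telescope SU
  rw [SU_zero] at h
  simp only [← sumT] at h
  rw [gs_add, gs_mul_left _ hX] at h
  have hD : gs (X ^ 2) (fun t => (4 + 2 * (t : ℚ⟦X⟧)) *
      ∑ s ∈ Finset.Icc (0 : ℤ) (t + 2), detN t s +
        th (∑ s ∈ Finset.Icc (0 : ℤ) (t + 2), detN t s)) = 4 * Dser + th Dser := by
    unfold Dser
    rw [th_gs, ← gs_mul_left _ hX, ← gs_add]
    congr 1
    funext t
    ring
  have hP : gs (X ^ 2) (fun t => ∑ s ∈ Finset.Icc (0 : ℤ) t, P1 t s) =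
      pl pI1 * th Iser + pl pI0 * Iser + pl pF2 * th (th Fser) + pl pF1 * th Fser +
        pl pF0 * Fser := by
    rw [th_Iser, Iser, th_th_Fser, th_Fser, Fser_eq, ← gs_mul_left _ hX,
      ← gs_mul_left _ hX, ← gs_mul_left _ hX, ← gs_mul_left _ hX, ← gs_mul_left _ hX,
      ← gs_add, ← gs_add, ← gs_add, ← gs_add]
    congr 1
    funext t
    rw [Finset.mul_sum, Finset.mul_sum, Finset.mul_sum, Finset.mul_sum, Finset.mul_sum,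
      ← Finset.sum_add_distrib, ← Finset.sum_add_distrib,
      ← Finset.sum_add_distrib, ← Finset.sum_add_distrib]
    apply Finset.sum_congr rfl
    intro s _
    unfold P1 pI0_ pI1_ pF0_ pF1_ pF2_
    simp only [pI1, pI0, pF2, pF1, pF0, pl_cons, pl_nil]
    push_cast
    ring
  rw [hD, hP] at h
  linear_combination h

end Pool.Agent.Helper99.TC
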