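import Mathlib

/-!
# The relation R1: expansion in g0, g1 with opaque coefficients
-/

set_option autoImplicit false

namespace Pool.Agent.Helper99.TC

namespace C1

variable {R : Type*} [CommRing R]

/-- the bracket -/
def Brk (x t B ga0 ga1 ga2 d0 d1 d2 g0 g1 y2 w z b0 b1 b2 : R) : R :=
  (((4 + 2 * t) * B + 8 * x) * (x * ga0 * ga2 - x ^ 2 * ga1 ^ 2) +
      x * (d0 * ga2 + ga0 * d2) - 2 * x ^ 2 * ga1 * d1) * (b0 * b2 - b1 ^ 2) -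
    B * (((2 + 2 * t) * B + 4 * x) *
      (x * ga2 * (b2 * g0 ^ 2 - 2 * b1 * g0 * g1 + b0 * g1 ^ 2) -
      2 * x * ga1 * (b2 * x * g0 * g1 - b1 * (g0 * y2 + x * g1 ^ 2) + b0 * g1 * y2) +
      ga0 * (b2 * x ^ 2 * g1 ^ 2 - 2 * b1 * x * g1 * y2 + b0 * y2 ^ 2)) +
      (x * d2 * (b2 * g0 ^ 2 - 2 * b1 * g0 * g1 + b0 * g1 ^ 2) +
      2 * x * ga2 * (b2 * g0 * ga0 - b1 * (ga0 * g1 + g0 * ga1) + b0 * g1 * ga1) -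
      2 * x * d1 * (b2 * x * g0 * g1 - b1 * (g0 * y2 + x * g1 ^ 2) + b0 * g1 * y2) -
      2 * x * ga1 * (b2 * x * (ga0 * g1 + g0 * ga1) -
        b1 * (ga0 * y2 + g0 * ga2 + 2 * x * g1 * ga1) + b0 * (ga1 * y2 + g1 * ga2)) +
      d0 * (b2 * x ^ 2 * g1 ^ 2 - 2 * b1 * x * g1 * y2 + b0 * y2 ^ 2) +
      2 * ga0 * (b2 * x ^ 2 * g1 * ga1 - b1 * x * (g1 * ga2 + ga1 * y2) + b0 * y2 * ga2))) +
    2 * B ^ 2 * w * z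

theorem brk_exp (x t B b0 b1 b2 A0 A1 A2 B0 B1 B2 C0 C1 C2 D0 D1 D2 E0 E1 E2 F0 F1 F2 Z0 Z1 Z2 g0 g1 y2 : R)
    (hy2 : y2 = -x * g0 + (1 - 2 * x) * g1 - b1) :
    Brk x t B (A0 * g0 + A1 * g1 + A2) (B0 * g0 + B1 * g1 + B2) (C0 * g0 + C1 * g1 + C2)
      (D0 * g0 + D1 * g1 + D2) (E0 * g0 + E1 * g1 + E2) (F0 * g0 + F1 * g1 + F2) g0 g1 y2
      (g0 * y2 - x * g1 ^ 2) (Z0 * g0 + Z1 * g1 + Z2) b0 b1 b2 =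
    ((((A2 * C2) * x - ((B2 * B2) * (x ^ 2))) * ((4 + 2 * t) * B + 8 * x) + (D2 * C2 + A2 * F2) * x - ((B2 * E2) * (2 * x ^ 2))) * (b0 * b2 - b1 ^ 2) - (((A2 * (b0 * b1 ^ 2)) * ((2 + 2 * t) * B + 4 * x) + -((B2 * (-((A2 * (-b1)) * b1) + (B2 * (-b1)) * b0)) * (2 * x)) + D2 * (b0 * b1 ^ 2) + (A2 * (-((B2 * (-b1)) * (b1 * x)) + ((-b1) * C2) * b0)) * 2) * B)) +
    ((((A1 * C2 + A2 * C1) * x - ((B1 * B2 + B2 * B1) * (x ^ 2))) * ((4 + 2 * t) * B + 8 * x) + (D1 * C2 + D2 * C1 + A1 * F2 + A2 * F1) * x - ((B1 * E2 + B2 * E1) * (2 * x ^ 2))) * (b0 * b2 - b1 ^ 2) - (((-((B2 * (-(b0 * b1))) * (2 * x)) + A1 * (b0 * b1 ^ 2) + A2 * (2 * x * b1 ^ 2 - 2 * (1 - 2 * x) * b0 * b1)) * ((2 + 2 * t) * B + 4 * x) + (C2 * (-(A2 * b1) + B2 * b0)) * (2 * x) - ((E2 * (-(b0 * b1))) * (2 * x)) - ((B1 * (-((A2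 * (-b1)) * b1) + (B2 * (-b1)) * b0) + B2 * (A2 * (b2 * x) - ((A1 * (-b1) + A2 * (1 - 2 * x) + B2 * (2 * x)) * b1) + (B1 * (-b1) + B2 * (1 - 2 * x) + C2) * b0)) * (2 * x)) + D1 * (b0 * b1 ^ 2) + D2 * (2 * x * b1 ^ 2 - 2 * (1 - 2 * x) * b0 * b1) + (A1 * (-((B2 * (-b1)) * (b1 * x)) + ((-b1) * C2) * b0) + A2 * (B2 * (b2 * x ^ 2) - ((C2 + B1 * (-b1) + B2 * (1 - 2 * x)) * (b1 * x)) + ((1 - 2 * x) * C2 + (-b1) * C1) * b0)) * 2) * B)) * (g1) +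
    ((((A1 * C1) * x - ((B1 * B1) * (x ^ 2))) * ((4 + 2 * t) * B + 8 * x) + (D1 * C1 + A1 * F1) * x - ((B1 * E1) * (2 * x ^ 2))) * (b0 * b2 - b1 ^ 2) - ((((C2 * b0) * x - ((B1 * (-(b0 * b1)) + B2 * ((1 - 2 * x) * b0 - x * b1)) * (2 * x)) + A1 * (2 * x * b1 ^ 2 - 2 * (1 - 2 * x) * b0 * b1) + A2 * (x ^ 2 * b2 - 2 * x * (1 - 2 * x) * b1 + (1 - 2 * x) ^ 2 * b0)) * ((2 + 2 * t) * B + 4 * x) + (F2 * b0) * x + (C1 * (-(A2 * b1) + B2 * b0) + C2 * (-(A1 * b1) + B1 * b0)) * (2 * x) - ((E1 * (-(b0 * b1)) + E2 * ((1 - 2 * x) * b0 - x * b1)) * (2 * x)) - ((B1 * (A2 * (b2 * x) - ((A1 * (-b1) + A2 * (1 - 2 * x) + B2 * (2 * x)) * b1) + (B1 * (-b1) + B2 * (1 - 2 * x) + C2) * b0) + B2 * (A1 * (b2 * x) - ((A1 * (1 - 2 * x) + B1 * (2 * x)) * b1) + (B1 * (1 - 2 * x) + C1) * b0)) * (2 * x)) + D1 * (2 *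 x * b1 ^ 2 - 2 * (1 - 2 * x) * b0 * b1) + D2 * (x ^ 2 * b2 - 2 * x * (1 - 2 * x) * b1 + (1 - 2 * x) ^ 2 * b0) + (A1 * (B2 * (b2 * x ^ 2) - ((C2 + B1 * (-b1) + B2 * (1 - 2 * x)) * (b1 * x)) + ((1 - 2 * x) * C2 + (-b1) * C1) * b0) + A2 * (B1 * (b2 * x ^ 2) - ((C1 + B1 * (1 - 2 * x)) * (b1 * x)) + ((1 - 2 * x) * C1) * b0)) * 2) * B) + ((-x) * Z2) * (2 * B ^ 2)) * (g1 ^ 2) +
    (-((((C1 * b0) * x - ((B1 * ((1 - 2 * x) * b0 - x * b1)) * (2 * x)) + A1 * (x ^ 2 * b2 - 2 * x * (1 - 2 * x) * b1 + (1 - 2 * x) ^ 2 * b0)) * ((2 + 2 * t) * B + 4 * x) + (F1 * b0) * x + (C1 * (-(A1 * b1) + B1 * b0)) * (2 * x) - ((E1 * ((1 - 2 * x) * b0 - x * b1)) * (2 * x)) - ((B1 * (A1 * (b2 * x) - ((A1 * (1 - 2 * x) + B1 * (2 * x)) * b1) + (B1 * (1 - 2 * x) + C1) * b0)) * (2 * x)) + D1 * (x ^ 2 * b2 - 2 * x *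 (1 - 2 * x) * b1 + (1 - 2 * x) ^ 2 * b0) + (A1 * (B1 * (b2 * x ^ 2) - ((C1 + B1 * (1 - 2 * x)) * (b1 * x)) + ((1 - 2 * x) * C1) * b0)) * 2) * B) + ((-x) * Z1) * (2 * B ^ 2)) * (g1 ^ 3) +
    ((((A0 * C2 + A2 * C0) * x - ((B0 * B2 + B2 * B0) * (x ^ 2))) * ((4 + 2 * t) * B + 8 * x) + (D0 * C2 + D2 * C0 + A0 * F2 + A2 * F0) * x - ((B0 * E2 + B2 * E0) * (2 * x ^ 2))) * (b0 * b2 - b1 ^ 2) - (((-((B2 * (b1 ^ 2)) * (2 * x)) + A0 * (b0 * b1 ^ 2) + A2 * (2 * x * b0 * b1)) * ((2 + 2 * t) * B + 4 * x) + (C2 * (A2 * b2 - (B2 * b1))) * (2 * x) - ((E2 * (b1 ^ 2)) * (2 * x)) - ((B0 * (-((A2 * (-b1)) * b1) + (B2 * (-b1)) * b0) + B2 * (B2 * (b2 * x) - ((A0 * (-b1) + A2 * (-x) + C2) * b1) + (B0 * (-b1) + B2 * (-x)) * b0)) * (2 * x)) + D0 * (b0 * b1 ^ 2) + D2 * (2 * x * b0 * b1) + (A0 * (-((B2 * (-b1))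 * (b1 * x)) + ((-b1) * C2) * b0) + A2 * (-((B0 * (-b1) + B2 * (-x)) * (b1 * x)) + ((-x) * C2 + (-b1) * C0) * b0)) * 2) * B) + ((-b1) * Z2) * (2 * B ^ 2)) * (g0) +
    ((((A0 * C1 + A1 * C0) * x - ((B0 * B1 + B1 * B0) * (x ^ 2))) * ((4 + 2 * t) * B + 8 * x) + (D0 * C1 + D1 * C0 + A0 * F1 + A1 * F0) * x - ((B0 * E1 + B1 * E0) * (2 * x ^ 2))) * (b0 * b2 - b1 ^ 2) - ((((C2 * (-(2 * b1))) * x - ((B0 * (-(b0 * b1)) + B1 * (b1 ^ 2) + B2 * (x * b2 - (1 - 2 * x) * b1 - x * b0)) * (2 * x)) + A0 * (2 * x * b1 ^ 2 - 2 * (1 - 2 * x) * b0 * b1) + A1 * (2 * x * b0 * b1) + A2 * (2 * x ^ 2 * b1 - 2 * x * (1 - 2 * x) * b0)) * ((2 + 2 * t) * B + 4 * x) + (F2 * (-(2 * b1))) * x + (C0 * (-(A2 * b1) + B2 * b0) + C1 * (A2 * b2 - (B2 * b1)) + C2 * (A1 * b2 - ((A0 + B1) * b1) + B0 * b0)) * (2 * x) - ((E0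 * (-(b0 * b1)) + E1 * (b1 ^ 2) + E2 * (x * b2 - (1 - 2 * x) * b1 - x * b0)) * (2 * x)) - ((B0 * (A2 * (b2 * x) - ((A1 * (-b1) + A2 * (1 - 2 * x) + B2 * (2 * x)) * b1) + (B1 * (-b1) + B2 * (1 - 2 * x) + C2) * b0) + B1 * (B2 * (b2 * x) - ((A0 * (-b1) + A2 * (-x) + C2) * b1) + (B0 * (-b1) + B2 * (-x)) * b0) + B2 * ((A0 + B1) * (b2 * x) - ((A0 * (1 - 2 * x) + A1 * (-x) + C1 + B0 * (2 * x)) * b1) + (B0 * (1 - 2 * x) + B1 * (-x) + C0) * b0)) * (2 * x)) + D0 * (2 * x * b1 ^ 2 - 2 * (1 - 2 * x) * b0 * b1) + D1 * (2 * x * b0 * b1) + D2 * (2 * x ^ 2 * b1 - 2 * x * (1 - 2 * x) * b0) + (A0 * (B2 * (b2 * x ^ 2) - ((C2 + B1 * (-b1) + B2 * (1 - 2 * x)) * (b1 * x)) + ((1 - 2 * x) * C2 + (-b1) * C1) * b0) + A1 * (-((B0 * (-b1) + B2 * (-x)) * (b1 * x)) + ((-x) * C2 + (-b1) * C0) * b0) + A2 * (B0 *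 (b2 * x ^ 2) - ((C0 + B0 * (1 - 2 * x) + B1 * (-x)) * (b1 * x)) + ((-x) * C1 + (1 - 2 * x) * C0) * b0)) * 2) * B) + ((1 - 2 * x) * Z2 + (-b1) * Z1) * (2 * B ^ 2)) * (g0 * g1) +
    (-((((C0 * b0 + C1 * (-(2 * b1))) * x - ((B0 * ((1 - 2 * x) * b0 - x * b1) + B1 * (x * b2 - (1 - 2 * x) * b1 - x * b0)) * (2 * x)) + A0 * (x ^ 2 * b2 - 2 * x * (1 - 2 * x) * b1 + (1 - 2 * x) ^ 2 * b0) + A1 * (2 * x ^ 2 * b1 - 2 * x * (1 - 2 * x) * b0)) * ((2 + 2 * t) * B + 4 * x) + (F0 * b0 + F1 * (-(2 * b1))) * x + (C0 * (-(A1 * b1) + B1 * b0) + C1 * (A1 * b2 - ((A0 + B1) * b1) + B0 * b0)) * (2 * x) - ((E0 * ((1 - 2 * x) * b0 - x * b1) + E1 * (x * b2 - (1 - 2 * x) * b1 - x * b0)) * (2 * x)) - ((B0 * (A1 * (b2 * x) - ((A1 * (1 - 2 * x) + B1 * (2 * x)) * b1) + (B1 * (1 - 2 * x) + C1) * b0) + B1 * ((A0 +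 B1) * (b2 * x) - ((A0 * (1 - 2 * x) + A1 * (-x) + C1 + B0 * (2 * x)) * b1) + (B0 * (1 - 2 * x) + B1 * (-x) + C0) * b0)) * (2 * x)) + D0 * (x ^ 2 * b2 - 2 * x * (1 - 2 * x) * b1 + (1 - 2 * x) ^ 2 * b0) + D1 * (2 * x ^ 2 * b1 - 2 * x * (1 - 2 * x) * b0) + (A0 * (B1 * (b2 * x ^ 2) - ((C1 + B1 * (1 - 2 * x)) * (b1 * x)) + ((1 - 2 * x) * C1) * b0) + A1 * (B0 * (b2 * x ^ 2) - ((C0 + B0 * (1 - 2 * x) + B1 * (-x)) * (b1 * x)) + ((-x) * C1 + (1 - 2 * x) * C0) * b0)) * 2) * B) + ((1 - 2 * x) * Z1 + (-x) * Z0) * (2 * B ^ 2)) * (g0 * g1 ^ 2) +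
    ((((A0 * C0) * x - ((B0 * B0) * (x ^ 2))) * ((4 + 2 * t) * B + 8 * x) + (D0 * C0 + A0 * F0) * x - ((B0 * E0) * (2 * x ^ 2))) * (b0 * b2 - b1 ^ 2) - ((((C2 * b2) * x - ((B0 * (b1 ^ 2) + B2 * (x * b1)) * (2 * x)) + A0 * (2 * x * b0 * b1) + A2 * (x ^ 2 * b0)) * ((2 + 2 * t) * B + 4 * x) + (F2 * b2) * x + (C0 * (A2 * b2 - (B2 * b1)) + C2 * (A0 * b2 - (B0 * b1))) * (2 * x) - ((E0 * (b1 ^ 2) + E2 * (x * b1)) * (2 * x)) - ((B0 * (B2 * (b2 * x) - ((A0 * (-b1) + A2 * (-x) + C2) * b1) + (B0 * (-b1) + B2 * (-x)) * b0) + B2 * (B0 * (b2 * x) - ((A0 * (-x) + C0) * b1) + (B0 * (-x)) * b0)) * (2 * x)) + D0 * (2 * x * b0 * b1) + D2 * (x ^ 2 * b0) + (A0 * (-((B0 * (-b1) + B2 * (-x)) * (b1 * x)) + ((-x) * C2 + (-b1) * C0) * b0) + A2 * (-((B0 * (-x)) * (b1 * x)) + ((-x) * C0) * b0)) * 2) * B) + ((-x)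 * Z2 + (-b1) * Z0) * (2 * B ^ 2)) * (g0 ^ 2) +
    (-((((C0 * (-(2 * b1)) + C1 * b2) * x - ((B0 * (x * b2 - (1 - 2 * x) * b1 - x * b0) + B1 * (x * b1)) * (2 * x)) + A0 * (2 * x ^ 2 * b1 - 2 * x * (1 - 2 * x) * b0) + A1 * (x ^ 2 * b0)) * ((2 + 2 * t) * B + 4 * x) + (F0 * (-(2 * b1)) + F1 * b2) * x + (C0 * (A1 * b2 - ((A0 + B1) * b1) + B0 * b0) + C1 * (A0 * b2 - (B0 * b1))) * (2 * x) - ((E0 * (x * b2 - (1 - 2 * x) * b1 - x * b0) + E1 * (x * b1)) * (2 * x)) - ((B0 * ((A0 + B1) * (b2 * x) - ((A0 * (1 - 2 * x) + A1 * (-x) + C1 + B0 * (2 * x)) * b1) + (B0 * (1 - 2 * x) + B1 * (-x) + C0) * b0) + B1 * (B0 * (b2 * x) - ((A0 * (-x) + C0) * b1) + (B0 * (-x)) * b0)) * (2 * x)) + D0 * (2 * x ^ 2 * b1 - 2 * x * (1 - 2 * x) * b0) + D1 * (x ^ 2 * b0) + (A0 * (B0 * (b2 * x ^ 2) - ((C0 + B0 * (1 -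 2 * x) + B1 * (-x)) * (b1 * x)) + ((-x) * C1 + (1 - 2 * x) * C0) * b0) + A1 * (-((B0 * (-x)) * (b1 * x)) + ((-x) * C0) * b0)) * 2) * B) + ((-x) * Z1 + (1 - 2 * x) * Z0) * (2 * B ^ 2)) * (g0 ^ 2 * g1) +
    (-((((C0 * b2) * x - ((B0 * (x * b1)) * (2 * x)) + A0 * (x ^ 2 * b0)) * ((2 + 2 * t) * B + 4 * x) + (F0 * b2) * x + (C0 * (A0 * b2 - (B0 * b1))) * (2 * x) - ((E0 * (x * b1)) * (2 * x)) - ((B0 * (B0 * (b2 * x) - ((A0 * (-x) + C0) * b1) + (B0 * (-x)) * b0)) * (2 * x)) + D0 * (x ^ 2 * b0) + (A0 * (-((B0 * (-x)) * (b1 * x)) + ((-x) * C0) * b0)) * 2) * B) + ((-x) * Z0) * (2 * B ^ 2)) * (g0 ^ 3) := by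
  subst hy2
  unfold Brk
  ring

theorem u_exp (x b1 g0 g1 y2 W00 W01 W02 W03 W10 W11 W12 W20 W21 W30 : R)
    (hy2 : y2 = -x * g0 + (1 - 2 * x) * g1 - b1) :
    W00 * (1) + W01 * ((x * g1 + y2)) + W02 * ((x * g1 + y2) ^ 2) + W03 * ((x * g1 + y2) ^ 3) + W10 * ((g0 + g1)) + W11 * ((g0 + g1) * (x * g1 + y2)) + W12 * ((g0 + g1) * (x * g1 + y2) ^ 2) + W20 * ((g0 + g1) ^ 2) + W21 * ((g0 + g1) ^ 2 * (x * g1 + y2)) + W30 * ((g0 + g1) ^ 3) =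
    (W00 * (1)
      + W01 * (-(b1))
      + W02 * (b1 ^ 2)
      + W03 * (-(b1 ^ 3))) +
    (W01 * ((1 - x))
      + W02 * (-(2 * (1 - x) * b1))
      + W03 * (3 * (1 - x) * b1 ^ 2)
      + W10 * (1)
      + W11 * (-(b1))
      + W12 * (b1 ^ 2)) * (g1) +
    (W02 * ((1 - x) ^ 2)
      + W03 * (-(3 * (1 - x) ^ 2 * b1))
      + W11 * ((1 - x))
      + W12 * (-(2 * (1 - x) * b1))
      + W20 * (1)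
      + W21 * (-(b1))) * (g1 ^ 2) +
    (W03 * ((1 - x) ^ 3)
      + W12 * ((1 - x) ^ 2)
      + W21 * ((1 - x))
      + W30 * (1)) * (g1 ^ 3) +
    (W01 * (-(x))
      + W02 * (2 * x * b1)
      + W03 * (-(3 * x * b1 ^ 2))
      + W10 * (1)
      + W11 * (-(b1))
      + W12 * (b1 ^ 2)) * (g0) +
    (W02 * (-(2 * x * (1 - x)))
      + W03 * (6 * x * (1 - x) * b1)
      + W11 * (-(x) + (1 - x))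
      + W12 * (2 * x * b1 - 2 * (1 - x) * b1)
      + W20 * (2)
      + W21 * (-(2 * b1))) * (g0 * g1) +
    (W03 * (-(3 * x * (1 - x) ^ 2))
      + W12 * (-(2 * x * (1 - x)) + (1 - x) ^ 2)
      + W21 * (-(x) + 2 * (1 - x))
      + W30 * (3)) * (g0 * g1 ^ 2) +
    (W02 * (x ^ 2)
      + W03 * (-(3 * x ^ 2 * b1))
      + W11 * (-(x))
      + W12 * (2 * x * b1)
      + W20 * (1)
      + W21 * (-(b1))) * (g0 ^ 2) +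
    (W03 * (3 * x ^ 2 * (1 - x))
      + W12 * (x ^ 2 - 2 * x * (1 - x))
      + W21 * (-(2 * x) + (1 - x))
      + W30 * (3)) * (g0 ^ 2 * g1) +
    (W03 * (-(x ^ 3))
      + W12 * (x ^ 2)
      + W21 * (-(x))
      + W30 * (1)) * (g0 ^ 3) := by
  subst hy2
  ring

theorem v_exp (x b0 g0 g1 ym Y00 Y01 Y02 Y03 Y10 Y11 Y12 Y20 Y21 Y30 : R)
    (hym : ym = (1 - 2 * x) * g0 - x * g1 - b0) :
    Y00 * (1) + Y01 * (g0) + Y02 * (g0 ^ 2) + Y03 * (g0 ^ 3) + Y10 * (ym) + Y11 * (ym * g0) + Y12 * (ym * g0 ^ 2) + Y20 * (ym ^ 2) + Y21 * (ym ^ 2 * g0) + Y30 * (ym ^ 3) =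
    (Y00 * (1)
      + Y10 * (-(b0))
      + Y20 * (b0 ^ 2)
      + Y30 * (-(b0 ^ 3))) +
    (Y10 * (-(x))
      + Y20 * (2 * x * b0)
      + Y30 * (-(3 * x * b0 ^ 2))) * (g1) +
    (Y20 * (x ^ 2)
      + Y30 * (-(3 * x ^ 2 * b0))) * (g1 ^ 2) +
    (Y30 * (-(x ^ 3))) * (g1 ^ 3) +
    (Y01 * (1)
      + Y10 * ((1 - 2 * x))
      + Y11 * (-(b0))
      + Y20 * (-(2 * (1 - 2 * x) * b0))
      + Y21 * (b0 ^ 2)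
      + Y30 * (3 * (1 - 2 * x) * b0 ^ 2)) * (g0) +
    (Y11 * (-(x))
      + Y20 * (-(2 * (1 - 2 * x) * x))
      + Y21 * (2 * x * b0)
      + Y30 * (6 * (1 - 2 * x) * x * b0)) * (g0 * g1) +
    (Y21 * (x ^ 2)
      + Y30 * (3 * (1 - 2 * x) * x ^ 2)) * (g0 * g1 ^ 2) +
    (Y02 * (1)
      + Y11 * ((1 - 2 * x))
      + Y12 * (-(b0))
      + Y20 * ((1 - 2 * x) ^ 2)
      + Y21 * (-(2 * (1 - 2 * x) * b0))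
      + Y30 * (-(3 * (1 - 2 * x) ^ 2 * b0))) * (g0 ^ 2) +
    (Y12 * (-(x))
      + Y21 * (-(2 * (1 - 2 * x) * x))
      + Y30 * (-(3 * (1 - 2 * x) ^ 2 * x))) * (g0 ^ 2 * g1) +
    (Y03 * (1)
      + Y12 * ((1 - 2 * x))
      + Y21 * ((1 - 2 * x) ^ 2)
      + Y30 * ((1 - 2 * x) ^ 3)) * (g0 ^ 3) := by
  subst hym
  ring

end C1

end Pool.Agent.Helper99.TC
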