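import Pool.Agent.Helper99.TC.CertBase
import Pool.Agent.Helper99.TC.R1Exp

/-!
# The relation R1: the Gram determinant and the bracket
-/

set_option autoImplicit false

open PowerSeries

namespace Pool.Agent.Helper99.TC

namespace C1

private theorem det_four' (M : Matrix (Fin 4) (Fin 4) ℚ⟦X⟧) :
    M.det = M 0 0 * (M 1 1 * (M 2 2 * M 3 3 - M 2 3 * M 3 2)
        - M 1 2 * (M 2 1 * M 3 3 - M 2 3 * M 3 1) + M 1 3 * (M 2 1 * M 3 2 - M 2 2 * M 3 1))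
      - M 0 1 * (M 1 0 * (M 2 2 * M 3 3 - M 2 3 * M 3 2)
        - M 1 2 * (M 2 0 * M 3 3 - M 2 3 * M 3 0) + M 1 3 * (M 2 0 * M 3 2 - M 2 2 * M 3 0))
      + M 0 2 * (M 1 0 * (M 2 1 * M 3 3 - M 2 3 * M 3 1)
        - M 1 1 * (M 2 0 * M 3 3 - M 2 3 * M 3 0) + M 1 3 * (M 2 0 * M 3 1 - M 2 1 * M 3 0))
      - M 0 3 * (M 1 0 * (M 2 1 * M 3 2 - M 2 2 * M 3 1)
        - M 1 1 * (M 2 0 * M 3 2 - M 2 2 * M 3 0) + M 1 2 * (M 2 0 * M 3 1 - M 2 1 * M 3 0)) := by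
  rw [Matrix.det_succ_row_zero, Fin.sum_univ_four]
  simp only [Matrix.det_fin_three, Matrix.submatrix_apply]
  simp [Fin.succAbove, Fin.lt_def]
  ring

/-- the Gram determinant, with `b_k`, `g_k`, `G_k` -/
theorem detN_eq (t : ℕ) (s : ℤ) : detN t s =
    (G t s * G t (s - 2) - G t (s - 1) ^ 2) * (cb t s * cb t (s - 2) - cb t (s - 1) ^ 2) -
    (G t (s - 2) * (cb t (s - 2) * g t s ^ 2 - 2 * cb t (s - 1) * g t s * g t (s - 1) +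
        cb t s * g t (s - 1) ^ 2) -
      2 * G t (s - 1) * (cb t (s - 2) * g t s * g t (s - 1) -
        cb t (s - 1) * (g t s * g t (s - 2) + g t (s - 1) ^ 2) +
        cb t s * g t (s - 1) * g t (s - 2)) +
      G t s * (cb t (s - 2) * g t (s - 1) ^ 2 - 2 * cb t (s - 1) * g t (s - 1) * g t (s - 2) +
        cb t s * g t (s - 2) ^ 2)) +
    (g t s * g t (s - 2) - g t (s - 1) ^ 2) ^ 2 := by
  have e2 : s - 1 - 1 = s - 2 := by ring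
  unfold detN
  rw [det_four']
  simp [Gam, rho, e2]
  ring

/-- x² B² detN in terms of B G_k -/
noncomputable def NN (x ga0 ga1 ga2 g0 g1 y2 b0 b1 b2 : ℚ⟦X⟧) : ℚ⟦X⟧ :=
  (x * ga0 * ga2 - x ^ 2 * ga1 ^ 2) * (b0 * b2 - b1 ^ 2) -
    (1 - 4 * x) * (x * ga2 * (b2 * g0 ^ 2 - 2 * b1 * g0 * g1 + b0 * g1 ^ 2) -
      2 * x * ga1 * (b2 * x * g0 * g1 - b1 * (g0 * y2 + x * g1 ^ 2) + b0 * g1 * y2) +
      ga0 * (b2 * x ^ 2 * g1 ^ 2 - 2 * b1 * x * g1 * y2 + b0 * y2 ^ 2)) +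
    (1 - 4 * x) ^ 2 * (g0 * y2 - x * g1 ^ 2) ^ 2

theorem NN_eq (t : ℕ) (s : ℤ) : X ^ 2 * (1 - 4 * X) ^ 2 * detN t s =
    NN X ((1 - 4 * X) * G t s) ((1 - 4 * X) * G t (s - 1)) (X * ((1 - 4 * X) * G t (s - 2)))
      (g t s) (g t (s - 1)) (X * g t (s - 2)) (cb t s) (cb t (s - 1)) (cb t (s - 2)) := by
  rw [detN_eq]
  unfold NN
  ring

/-- the derivative of NN -/
theorem th_NN (ga0 ga1 ga2 g0 g1 y2 b0 b1 b2 d0 d1 d2 : ℚ⟦X⟧) (t : ℚ⟦X⟧)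
    (hb0 : th b0 = 0) (hb1 : th b1 = 0) (hb2 : th b2 = 0)
    (h0 : (1 - 4 * X) * th ga0 = d0) (h1 : (1 - 4 * X) * th ga1 = d1)
    (h2 : (1 - 4 * X) * th ga2 = (1 - 4 * X) * ga2 + d2)
    (k0 : (1 - 4 * X) * th g0 = ga0 - (1 - 4 * X) * g0)
    (k1 : (1 - 4 * X) * th g1 = ga1 - (1 - 4 * X) * g1)
    (k2 : (1 - 4 * X) * th y2 = ga2) :
    (1 - 4 * X) * th (NN X ga0 ga1 ga2 g0 g1 y2 b0 b1 b2) +
      ((2 + 2 * t) * (1 - 4 * X) + 8 * X) * NN X ga0 ga1 ga2 g0 g1 y2 b0 b1 b2 =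
    Brk X t (1 - 4 * X) ga0 ga1 ga2 d0 d1 d2 g0 g1 y2 (g0 * y2 - X * g1 ^ 2)
      (ga0 * y2 + g0 * ga2 - 2 * X * g1 * ga1 + t * (1 - 4 * X) * (g0 * y2 - X * g1 ^ 2))
      b0 b1 b2 := by
  unfold NN Brk
  simp only [th_add, th_sub, th_mul, th_pow, th_X, th_ofNat, th_one, hb0, hb1, hb2]
  push_cast
  linear_combination
    (X * ga2 * (b0 * b2 - b1 ^ 2) - (1 - 4 * X) *
      (b2 * X ^ 2 * g1 ^ 2 - 2 * b1 * X * g1 * y2 + b0 * y2 ^ 2)) * h0 +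
    (-(2 * X ^ 2 * ga1 * (b0 * b2 - b1 ^ 2)) + 2 * X * (1 - 4 * X) *
      (b2 * X * g0 * g1 - b1 * (g0 * y2 + X * g1 ^ 2) + b0 * g1 * y2)) * h1 +
    (X * ga0 * (b0 * b2 - b1 ^ 2) - (1 - 4 * X) * X *
      (b2 * g0 ^ 2 - 2 * b1 * g0 * g1 + b0 * g1 ^ 2)) * h2 +
    (-((1 - 4 * X) * (X * ga2 * (2 * b2 * g0 - 2 * b1 * g1) -
      2 * X * ga1 * (b2 * X * g1 - b1 * y2))) +
      2 * (1 - 4 * X) ^ 2 * (g0 * y2 - X * g1 ^ 2) * y2) * k0 +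
    (-((1 - 4 * X) * (X * ga2 * (-(2 * b1 * g0) + 2 * b0 * g1) -
      2 * X * ga1 * (b2 * X * g0 - 2 * b1 * X * g1 + b0 * y2) +
      ga0 * (2 * b2 * X ^ 2 * g1 - 2 * b1 * X * y2))) -
      4 * (1 - 4 * X) ^ 2 * (g0 * y2 - X * g1 ^ 2) * X * g1) * k1 +
    (-((1 - 4 * X) * (-(2 * X * ga1 * (-(b1 * g0) + b0 * g1)) +
      ga0 * (-(2 * b1 * X * g1) + 2 * b0 * y2))) +
      2 * (1 - 4 * X) ^ 2 * (g0 * y2 - X * g1 ^ 2) * g0) * k2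

end C1

end Pool.Agent.Helper99.TC
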