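import Pool.Agent.Helper99.TC.R1Def

/-!
# The relation R1: coefficient of g0^0 g1^0
-/

set_option autoImplicit false

namespace Pool.Agent.Helper99.TC

namespace C1

variable {R : Type*} [CommRing R]

theorem chk00 (x t s κ B b0 b1 b2 A2 B2 C2 D2 E2 F2 W00 W01 W02 W03 X00 Y00 Y10 Y20 Y30 T00 : R)
    (hB : B = 1 - 4 * x)
    (hb0 : b0 = (t + 1 - s) * (t + 2 - s) * κ)
    (hb1 : b1 = s * (t + 2 - s) * κ)
    (hb2 : b2 = s * (s - 1) * κ)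
    (hA2 : A2 = s * b0)
    (hB2 : B2 = (t - s + 1) * b1)
    (hC2 : C2 = -(1 - 4 * x + x * (t + 2) - (t - s + 2) * (1 - 2 * x)) * b1 + x * (t - s + 2) * b2)
    (hD2 : D2 = (1 - 4 * x + x * (t + 2) - s + 2 * x * s) * A2 + (x * (2 * s - t)) * B2)
    (hE2 : E2 = (x * (t - 2 * s + 2)) * A2 + (1 - 4 * x + x * (t + 2) - (t - s + 1) * (1 - 2 * x)) * B2)
    (hF2 : F2 = x * (x * (t - 2 * s + 4)) * B2 - B * x * (3 * t - 2 * s + 2) * b1 + (1 - 4 * x + x * (t + 2) - (t - s + 2) * (1 - 2 * x)) * (C2 + B * b1))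
    (hW00 : W00 = U0031 x (t + 1) s * ((b0 + b1) ^ 3 * (b1 + b2)))
    (hW01 : W01 = U0121 x (t + 1) s * ((b0 + b1) ^ 2 * (b1 + b2)) + U0130 x (t + 1) s * ((b0 + b1) ^ 3))
    (hW02 : W02 = U0211 x (t + 1) s * ((b0 + b1) * (b1 + b2)) + U0220 x (t + 1) s * ((b0 + b1) ^ 2))
    (hW03 : W03 = U0301 x (t + 1) s * ((b1 + b2)) + U0310 x (t + 1) s * ((b0 + b1)))
    (hX00 : X00 = U0031 x t s * (b0 ^ 3 * b1))
    (hY00 : Y00 = V0040 x t (s + 1) * (b0 ^ 4))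
    (hY10 : Y10 = V1030 x t (s + 1) * (b0 ^ 3))
    (hY20 : Y20 = V2011 x t (s + 1) * (b0 * b1) + V2020 x t (s + 1) * (b0 ^ 2))
    (hY30 : Y30 = V3001 x t (s + 1) * (b1) + V3010 x t (s + 1) * (b0))
    (hT00 : T00 = V0040 x t s * (b1 ^ 4))
    : 1080 * x ^ 3 * ((((A2 * C2) * x - ((B2 * B2) * (x ^ 2))) * ((4 + 2 * t) * B + 8 * x) + (D2 * C2 + A2 * F2) * x - ((B2 * E2) * (2 * x ^ 2))) * (b0 * b2 - b1 ^ 2) - (((A2 * (b0 * b1 ^ 2)) * ((2 + 2 * t) * B + 4 * x) + -((B2 * (-((A2 * (-b1)) * b1) + (B2 * (-b1)) * b0)) * (2 * x)) + D2 * (b0 * b1 ^ 2) + (A2 * (-((B2 * (-b1)) * (b1 * x)) + ((-b1) * C2) * b0)) * 2) * B))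
      + pI1q x * A2 * b0 ^ 3 + (pF0_ x + 2 * t * pF1_ x + 4 * t ^ 2 * pF2_ x) * b0 ^ 4
      - x ^ 2 * W00 * (1)
      + X00
      - x ^ 2 * W01 * (-(b1))
      - x ^ 2 * W02 * (b1 ^ 2)
      - x ^ 2 * W03 * (-(b1 ^ 3))
      - Y00 * (1)
      + T00
      - Y10 * (-(b0))
      - Y20 * (b0 ^ 2)
      - Y30 * (-(b0 ^ 3)) = 0 := by
  subst hB hb0 hb1 hb2 hA2 hB2 hC2 hD2 hE2 hF2 hW00 hW01 hW02 hW03 hX00 hY00 hY10 hY20 hY30 hT00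
  unfold U0031 U0121 U0130 U0211 U0220 U0301 U0310 V0040 V1030 V2011 V2020 V3001 V3010 pI1q pF0_ pF1_ pF2_
  ring

end C1

end Pool.Agent.Helper99.TC
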