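import Pool.Agent.Helper99.TC.R1Def

/-!
# The relation R1: coefficient of g0^0 g1^1
-/

set_option autoImplicit false

namespace Pool.Agent.Helper99.TC

namespace C1

variable {R : Type*} [CommRing R]

theorem chk01 (x t s κ B b0 b1 b2 A1 A2 B1 B2 C1 C2 D1 D2 E1 E2 F1 F2 W01 W02 W03 W10 W11 W12 X01 Y10 Y20 Y30 T01 : R)
    (hB : B = 1 - 4 * x)
    (hb0 : b0 = (t + 1 - s) * (t + 2 - s) * κ)
    (hb1 : b1 = s * (t + 2 - s) * κ)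
    (hb2 : b2 = s * (s - 1) * κ)
    (hA1 : A1 = (x * (2 * s - t)))
    (hA2 : A2 = s * b0)
    (hB1 : B1 = (1 - 4 * x + x * (t + 2) - (t - s + 1) * (1 - 2 * x)))
    (hB2 : B2 = (t - s + 1) * b1)
    (hC1 : C1 = x * (x * (t - 2 * s + 4)) + (1 - 2 * x) * (1 - 4 * x + x * (t + 2) - (t - s + 2) * (1 - 2 * x)))
    (hC2 : C2 = -(1 - 4 * x + x * (t + 2) - (t - s + 2) * (1 - 2 * x)) * b1 + x * (t - s + 2) * b2)
    (hD1 : D1 = (1 - 4 * x + x * (t + 2) - s + 2 * x * s) * A1 + (x * (2 * s - t)) * B1)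
    (hD2 : D2 = (1 - 4 * x + x * (t + 2) - s + 2 * x * s) * A2 + (x * (2 * s - t)) * B2)
    (hE1 : E1 = (x * (t - 2 * s + 2)) * A1 + B * x * (3 * t - 2 * s) + (1 - 4 * x + x * (t + 2) - (t - s + 1) * (1 - 2 * x)) * (B1 - B))
    (hE2 : E2 = (x * (t - 2 * s + 2)) * A2 + (1 - 4 * x + x * (t + 2) - (t - s + 1) * (1 - 2 * x)) * B2)
    (hF1 : F1 = x * (x * (t - 2 * s + 4)) * B1 + B * x * (3 * t - 2 * s + 2) * (1 - 2 * x) + (1 - 4 * x + x * (t + 2) - (t - s + 2) * (1 - 2 * x)) * (C1 - B * (1 - 2 * x)))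
    (hF2 : F2 = x * (x * (t - 2 * s + 4)) * B2 - B * x * (3 * t - 2 * s + 2) * b1 + (1 - 4 * x + x * (t + 2) - (t - s + 2) * (1 - 2 * x)) * (C2 + B * b1))
    (hW01 : W01 = U0121 x (t + 1) s * ((b0 + b1) ^ 2 * (b1 + b2)) + U0130 x (t + 1) s * ((b0 + b1) ^ 3))
    (hW02 : W02 = U0211 x (t + 1) s * ((b0 + b1) * (b1 + b2)) + U0220 x (t + 1) s * ((b0 + b1) ^ 2))
    (hW03 : W03 = U0301 x (t + 1) s * ((b1 + b2)) + U0310 x (t + 1) s * ((b0 + b1)))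
    (hW10 : W10 = U1021 x (t + 1) s * ((b0 + b1) ^ 2 * (b1 + b2)))
    (hW11 : W11 = U1111 x (t + 1) s * ((b0 + b1) * (b1 + b2)) + U1120 x (t + 1) s * ((b0 + b1) ^ 2))
    (hW12 : W12 = U1201 x (t + 1) s * ((b1 + b2)) + U1210 x (t + 1) s * ((b0 + b1)))
    (hX01 : X01 = U0121 x t s * (b0 ^ 2 * b1) + U0130 x t s * (b0 ^ 3))
    (hY10 : Y10 = V1030 x t (s + 1) * (b0 ^ 3))
    (hY20 : Y20 = V2011 x t (s + 1) * (b0 * b1) + V2020 x t (s + 1) * (b0 ^ 2))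
    (hY30 : Y30 = V3001 x t (s + 1) * (b1) + V3010 x t (s + 1) * (b0))
    (hT01 : T01 = V0121 x t s * (b1 ^ 2 * b2) + V0130 x t s * (b1 ^ 3))
    : 1080 * x ^ 3 * ((((A1 * C2 + A2 * C1) * x - ((B1 * B2 + B2 * B1) * (x ^ 2))) * ((4 + 2 * t) * B + 8 * x) + (D1 * C2 + D2 * C1 + A1 * F2 + A2 * F1) * x - ((B1 * E2 + B2 * E1) * (2 * x ^ 2))) * (b0 * b2 - b1 ^ 2) - (((-((B2 * (-(b0 * b1))) * (2 * x)) + A1 * (b0 * b1 ^ 2) + A2 * (2 * x * b1 ^ 2 - 2 * (1 - 2 * x) * b0 * b1)) * ((2 + 2 * t) * B + 4 * x) + (C2 * (-(A2 * b1) + B2 * b0)) * (2 * x) - ((E2 * (-(b0 * b1))) * (2 * x)) - ((B1 * (-((A2 * (-b1)) * b1) + (B2 * (-b1)) * b0) + B2 * (A2 * (b2 * x) - ((A1 * (-b1) + A2 * (1 - 2 * x) + B2 * (2 * x)) * b1) + (B1 * (-b1) + B2 * (1 - 2 * x) + C2) * b0)) * (2 * x)) + D1 * (b0 * b1 ^ 2) + D2 * (2 * x * b1 ^ 2 - 2 * (1 - 2 * x) * b0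 * b1) + (A1 * (-((B2 * (-b1)) * (b1 * x)) + ((-b1) * C2) * b0) + A2 * (B2 * (b2 * x ^ 2) - ((C2 + B1 * (-b1) + B2 * (1 - 2 * x)) * (b1 * x)) + ((1 - 2 * x) * C2 + (-b1) * C1) * b0)) * 2) * B))
      + pI1q x * A1 * b0 ^ 3
      - x ^ 2 * W01 * ((1 - x))
      + X01 * x ^ 1
      - x ^ 2 * W02 * (-(2 * (1 - x) * b1))
      - x ^ 2 * W03 * (3 * (1 - x) * b1 ^ 2)
      - x ^ 2 * W10 * (1)
      - x ^ 2 * W11 * (-(b1))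
      - x ^ 2 * W12 * (b1 ^ 2)
      + T01
      - Y10 * (-(x))
      - Y20 * (2 * x * b0)
      - Y30 * (-(3 * x * b0 ^ 2)) = 0 := by
  subst hB hb0 hb1 hb2 hA1 hA2 hB1 hB2 hC1 hC2 hD1 hD2 hE1 hE2 hF1 hF2 hW01 hW02 hW03 hW10 hW11 hW12 hX01 hY10 hY20 hY30 hT01
  unfold U0121 U0130 U0211 U0220 U0301 U0310 U1021 U1111 U1120 U1201 U1210 V0121 V0130 V1030 V2011 V2020 V3001 V3010 pI1q
  ring

end C1

end Pool.Agent.Helper99.TC
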