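import Pool.Agent.Helper99.TC.R1Def

/-!
# The relation R1: coefficient of g0^0 g1^2
-/

set_option autoImplicit false

namespace Pool.Agent.Helper99.TC

namespace C1

variable {R : Type*} [CommRing R]

theorem chk02 (x t s κ B b0 b1 b2 A1 A2 B1 B2 C1 C2 D1 D2 E1 E2 F1 F2 Z2 W02 W03 W11 W12 W20 W21 X02 Y20 Y30 T02 : R)
    (hB : B = 1 - 4 * x)
    (hb0 : b0 = (t + 1 - s) * (t + 2 - s) * κ)
    (hb1 : b1 = s * (t + 2 - s) * κ)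
    (hb2 : b2 = s * (s - 1) * κ)
    (hA1 : A1 = (x * (2 * s - t)))
    (hA2 : A2 = s * b0)
    (hB1 : B1 = (1 - 4 * x + x * (t + 2) - (t - s + 1) * (1 - 2 * x)))
    (hB2 : B2 = (t - s + 1) * b1)
    (hC1 : C1 = x * (x * (t - 2 * s + 4)) + (1 - 2 * x) * (1 - 4 * x + x * (t + 2) - (t - s + 2) * (1 - 2 * x)))
    (hC2 : C2 = -(1 - 4 * x + x * (t + 2) - (t - s + 2) * (1 - 2 * x)) * b1 + x * (t - s + 2) * b2)
    (hD1 : D1 = (1 - 4 * x + x * (t + 2) - s + 2 * x * s) * A1 + (x * (2 * s - t)) * B1)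
    (hD2 : D2 = (1 - 4 * x + x * (t + 2) - s + 2 * x * s) * A2 + (x * (2 * s - t)) * B2)
    (hE1 : E1 = (x * (t - 2 * s + 2)) * A1 + B * x * (3 * t - 2 * s) + (1 - 4 * x + x * (t + 2) - (t - s + 1) * (1 - 2 * x)) * (B1 - B))
    (hE2 : E2 = (x * (t - 2 * s + 2)) * A2 + (1 - 4 * x + x * (t + 2) - (t - s + 1) * (1 - 2 * x)) * B2)
    (hF1 : F1 = x * (x * (t - 2 * s + 4)) * B1 + B * x * (3 * t - 2 * s + 2) * (1 - 2 * x) + (1 - 4 * x + x * (t + 2) - (t - s + 2) * (1 - 2 * x)) * (C1 - B * (1 - 2 * x)))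
    (hF2 : F2 = x * (x * (t - 2 * s + 4)) * B2 - B * x * (3 * t - 2 * s + 2) * b1 + (1 - 4 * x + x * (t + 2) - (t - s + 2) * (1 - 2 * x)) * (C2 + B * b1))
    (hZ2 : Z2 = A2 * (-b1))
    (hW02 : W02 = U0211 x (t + 1) s * ((b0 + b1) * (b1 + b2)) + U0220 x (t + 1) s * ((b0 + b1) ^ 2))
    (hW03 : W03 = U0301 x (t + 1) s * ((b1 + b2)) + U0310 x (t + 1) s * ((b0 + b1)))
    (hW11 : W11 = U1111 x (t + 1) s * ((b0 + b1) * (b1 + b2)) + U1120 x (t + 1) s * ((b0 + b1) ^ 2))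
    (hW12 : W12 = U1201 x (t + 1) s * ((b1 + b2)) + U1210 x (t + 1) s * ((b0 + b1)))
    (hW20 : W20 = U2011 x (t + 1) s * ((b0 + b1) * (b1 + b2)) + U2020 x (t + 1) s * ((b0 + b1) ^ 2))
    (hW21 : W21 = U2101 x (t + 1) s * ((b1 + b2)) + U2110 x (t + 1) s * ((b0 + b1)))
    (hX02 : X02 = U0211 x t s * (b0 * b1) + U0220 x t s * (b0 ^ 2))
    (hY20 : Y20 = V2011 x t (s + 1) * (b0 * b1) + V2020 x t (s + 1) * (b0 ^ 2))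
    (hY30 : Y30 = V3001 x t (s + 1) * (b1) + V3010 x t (s + 1) * (b0))
    (hT02 : T02 = V0211 x t s * (b1 * b2) + V0220 x t s * (b1 ^ 2))
    : 1080 * x ^ 3 * ((((A1 * C1) * x - ((B1 * B1) * (x ^ 2))) * ((4 + 2 * t) * B + 8 * x) + (D1 * C1 + A1 * F1) * x - ((B1 * E1) * (2 * x ^ 2))) * (b0 * b2 - b1 ^ 2) - ((((C2 * b0) * x - ((B1 * (-(b0 * b1)) + B2 * ((1 - 2 * x) * b0 - x * b1)) * (2 * x)) + A1 * (2 * x * b1 ^ 2 - 2 * (1 - 2 * x) * b0 * b1) + A2 * (x ^ 2 * b2 - 2 * x * (1 - 2 * x) * b1 + (1 - 2 * x) ^ 2 * b0)) * ((2 + 2 * t) * B + 4 * x) + (F2 * b0) * x + (C1 * (-(A2 * b1) + B2 * b0) + C2 * (-(A1 * b1) + B1 * b0)) * (2 * x) - ((E1 * (-(b0 * b1)) + E2 * ((1 - 2 * x) * b0 - x * b1)) * (2 * x)) - ((B1 * (A2 * (b2 * x) - ((A1 * (-b1) + A2 * (1 - 2 * x) + B2 * (2 * x)) * b1) + (B1 * (-b1) + B2 * (1 - 2 * x) + C2) * b0)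 + B2 * (A1 * (b2 * x) - ((A1 * (1 - 2 * x) + B1 * (2 * x)) * b1) + (B1 * (1 - 2 * x) + C1) * b0)) * (2 * x)) + D1 * (2 * x * b1 ^ 2 - 2 * (1 - 2 * x) * b0 * b1) + D2 * (x ^ 2 * b2 - 2 * x * (1 - 2 * x) * b1 + (1 - 2 * x) ^ 2 * b0) + (A1 * (B2 * (b2 * x ^ 2) - ((C2 + B1 * (-b1) + B2 * (1 - 2 * x)) * (b1 * x)) + ((1 - 2 * x) * C2 + (-b1) * C1) * b0) + A2 * (B1 * (b2 * x ^ 2) - ((C1 + B1 * (1 - 2 * x)) * (b1 * x)) + ((1 - 2 * x) * C1) * b0)) * 2) * B) + ((-x) * Z2) * (2 * B ^ 2))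
      - x ^ 2 * W02 * ((1 - x) ^ 2)
      + X02 * x ^ 2
      - x ^ 2 * W03 * (-(3 * (1 - x) ^ 2 * b1))
      - x ^ 2 * W11 * ((1 - x))
      - x ^ 2 * W12 * (-(2 * (1 - x) * b1))
      - x ^ 2 * W20 * (1)
      - x ^ 2 * W21 * (-(b1))
      + T02
      - Y20 * (x ^ 2)
      - Y30 * (-(3 * x ^ 2 * b0)) = 0 := by
  subst hB hb0 hb1 hb2 hA1 hA2 hB1 hB2 hC1 hC2 hD1 hD2 hE1 hE2 hF1 hF2 hZ2 hW02 hW03 hW11 hW12 hW20 hW21 hX02 hY20 hY30 hT02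
  unfold U0211 U0220 U0301 U0310 U1111 U1120 U1201 U1210 U2011 U2020 U2101 U2110 V0211 V0220 V2011 V2020 V3001 V3010
  ring

end C1

end Pool.Agent.Helper99.TC
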