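import Pool.Agent.Helper99.TC.R1Def

/-!
# The relation R1: coefficient of g0^0 g1^3
-/

set_option autoImplicit false

namespace Pool.Agent.Helper99.TC

namespace C1

variable {R : Type*} [CommRing R]

theorem chk03 (x t s κ B b0 b1 b2 A1 A2 B1 B2 C1 D1 E1 F1 Z1 W03 W12 W21 W30 X03 Y30 T03 : R)
    (hB : B = 1 - 4 * x)
    (hb0 : b0 = (t + 1 - s) * (t + 2 - s) * κ)
    (hb1 : b1 = s * (t + 2 - s) * κ)
    (hb2 : b2 = s * (s - 1) * κ)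
    (hA1 : A1 = (x * (2 * s - t)))
    (hA2 : A2 = s * b0)
    (hB1 : B1 = (1 - 4 * x + x * (t + 2) - (t - s + 1) * (1 - 2 * x)))
    (hB2 : B2 = (t - s + 1) * b1)
    (hC1 : C1 = x * (x * (t - 2 * s + 4)) + (1 - 2 * x) * (1 - 4 * x + x * (t + 2) - (t - s + 2) * (1 - 2 * x)))
    (hD1 : D1 = (1 - 4 * x + x * (t + 2) - s + 2 * x * s) * A1 + (x * (2 * s - t)) * B1)
    (hE1 : E1 = (x * (t - 2 * s + 2)) * A1 + B * x * (3 * t - 2 * s) + (1 - 4 * x + x * (t + 2) - (t - s + 1) * (1 - 2 * x)) * (B1 - B))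
    (hF1 : F1 = x * (x * (t - 2 * s + 4)) * B1 + B * x * (3 * t - 2 * s + 2) * (1 - 2 * x) + (1 - 4 * x + x * (t + 2) - (t - s + 2) * (1 - 2 * x)) * (C1 - B * (1 - 2 * x)))
    (hZ1 : Z1 = A1 * (-b1) + A2 * (1 - 2 * x) - (B2 * (2 * x)))
    (hW03 : W03 = U0301 x (t + 1) s * ((b1 + b2)) + U0310 x (t + 1) s * ((b0 + b1)))
    (hW12 : W12 = U1201 x (t + 1) s * ((b1 + b2)) + U1210 x (t + 1) s * ((b0 + b1)))
    (hW21 : W21 = U2101 x (t + 1) s * ((b1 + b2)) + U2110 x (t + 1) s * ((b0 + b1)))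
    (hW30 : W30 = U3001 x (t + 1) s * ((b1 + b2)) + U3010 x (t + 1) s * ((b0 + b1)))
    (hX03 : X03 = U0301 x t s * (b1) + U0310 x t s * (b0))
    (hY30 : Y30 = V3001 x t (s + 1) * (b1) + V3010 x t (s + 1) * (b0))
    (hT03 : T03 = V0301 x t s * (b2) + V0310 x t s * (b1))
    : 1080 * x ^ 3 * (-((((C1 * b0) * x - ((B1 * ((1 - 2 * x) * b0 - x * b1)) * (2 * x)) + A1 * (x ^ 2 * b2 - 2 * x * (1 - 2 * x) * b1 + (1 - 2 * x) ^ 2 * b0)) * ((2 + 2 * t) * B + 4 * x) + (F1 * b0) * x + (C1 * (-(A1 * b1) + B1 * b0)) * (2 * x) - ((E1 * ((1 - 2 * x) * b0 - x * b1)) * (2 * x)) - ((B1 * (A1 * (b2 * x) - ((A1 * (1 - 2 * x) + B1 * (2 * x)) * b1) + (B1 * (1 - 2 * x) + C1) * b0)) * (2 * x)) + D1 * (x ^ 2 * b2 - 2 * x * (1 - 2 * x) * b1 + (1 - 2 * x) ^ 2 * b0) + (A1 * (B1 * (b2 * x ^ 2) - ((C1 + B1 * (1 - 2 * x)) * (b1 * x)) + ((1 - 2 * x) * C1) * b0))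 * 2) * B) + ((-x) * Z1) * (2 * B ^ 2))
      - x ^ 2 * W03 * ((1 - x) ^ 3)
      + X03 * x ^ 3
      - x ^ 2 * W12 * ((1 - x) ^ 2)
      - x ^ 2 * W21 * ((1 - x))
      - x ^ 2 * W30 * (1)
      + T03
      - Y30 * (-(x ^ 3)) = 0 := by
  subst hB hb0 hb1 hb2 hA1 hA2 hB1 hB2 hC1 hD1 hE1 hF1 hZ1 hW03 hW12 hW21 hW30 hX03 hY30 hT03
  unfold U0301 U0310 U1201 U1210 U2101 U2110 U3001 U3010 V0301 V0310 V3001 V3010
  ring

end C1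

end Pool.Agent.Helper99.TC
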