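import Pool.Agent.Helper99.TC.R1Def

/-!
# The relation R1: coefficient of g0^1 g1^0
-/

set_option autoImplicit false

namespace Pool.Agent.Helper99.TC

namespace C1

variable {R : Type*} [CommRing R]

theorem chk10 (x t s κ B b0 b1 b2 A0 A2 B0 B2 C0 C2 D0 D2 E0 E2 F0 F2 Z2 W01 W02 W03 W10 W11 W12 X10 Y01 Y10 Y11 Y20 Y21 Y30 T10 : R)
    (hB : B = 1 - 4 * x)
    (hb0 : b0 = (t + 1 - s) * (t + 2 - s) * κ)
    (hb1 : b1 = s * (t + 2 - s) * κ)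
    (hb2 : b2 = s * (s - 1) * κ)
    (hA0 : A0 = (1 - 4 * x + x * (t + 2) - s + 2 * x * s))
    (hA2 : A2 = s * b0)
    (hB0 : B0 = (x * (t - 2 * s + 2)))
    (hB2 : B2 = (t - s + 1) * b1)
    (hC0 : C0 = -x * (1 - 4 * x + x * (t + 2) - (t - s + 2) * (1 - 2 * x)))
    (hC2 : C2 = -(1 - 4 * x + x * (t + 2) - (t - s + 2) * (1 - 2 * x)) * b1 + x * (t - s + 2) * b2)
    (hD0 : D0 = B * x * (t - 2 + 2 * s) + (1 - 4 * x + x * (t + 2) - s + 2 * x * s) * (A0 - B) + (x * (2 * s - t)) * B0)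
    (hD2 : D2 = (1 - 4 * x + x * (t + 2) - s + 2 * x * s) * A2 + (x * (2 * s - t)) * B2)
    (hE0 : E0 = (x * (t - 2 * s + 2)) * A0 + (1 - 4 * x + x * (t + 2) - (t - s + 1) * (1 - 2 * x)) * B0)
    (hE2 : E2 = (x * (t - 2 * s + 2)) * A2 + (1 - 4 * x + x * (t + 2) - (t - s + 1) * (1 - 2 * x)) * B2)
    (hF0 : F0 = x * (x * (t - 2 * s + 4)) * B0 - B * x * (3 * t - 2 * s + 2) * x + (1 - 4 * x + x * (t + 2) - (t - s + 2) * (1 - 2 * x)) * (C0 + B * x))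
    (hF2 : F2 = x * (x * (t - 2 * s + 4)) * B2 - B * x * (3 * t - 2 * s + 2) * b1 + (1 - 4 * x + x * (t + 2) - (t - s + 2) * (1 - 2 * x)) * (C2 + B * b1))
    (hZ2 : Z2 = A2 * (-b1))
    (hW01 : W01 = U0121 x (t + 1) s * ((b0 + b1) ^ 2 * (b1 + b2)) + U0130 x (t + 1) s * ((b0 + b1) ^ 3))
    (hW02 : W02 = U0211 x (t + 1) s * ((b0 + b1) * (b1 + b2)) + U0220 x (t + 1) s * ((b0 + b1) ^ 2))
    (hW03 : W03 = U0301 x (t + 1) s * ((b1 + b2)) + U0310 x (t + 1) s * ((b0 + b1)))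
    (hW10 : W10 = U1021 x (t + 1) s * ((b0 + b1) ^ 2 * (b1 + b2)))
    (hW11 : W11 = U1111 x (t + 1) s * ((b0 + b1) * (b1 + b2)) + U1120 x (t + 1) s * ((b0 + b1) ^ 2))
    (hW12 : W12 = U1201 x (t + 1) s * ((b1 + b2)) + U1210 x (t + 1) s * ((b0 + b1)))
    (hX10 : X10 = U1021 x t s * (b0 ^ 2 * b1))
    (hY01 : Y01 = V0121 x t (s + 1) * (b0 ^ 2 * b1) + V0130 x t (s + 1) * (b0 ^ 3))
    (hY10 : Y10 = V1030 x t (s + 1) * (b0 ^ 3))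
    (hY11 : Y11 = V1111 x t (s + 1) * (b0 * b1) + V1120 x t (s + 1) * (b0 ^ 2))
    (hY20 : Y20 = V2011 x t (s + 1) * (b0 * b1) + V2020 x t (s + 1) * (b0 ^ 2))
    (hY21 : Y21 = V2101 x t (s + 1) * (b1) + V2110 x t (s + 1) * (b0))
    (hY30 : Y30 = V3001 x t (s + 1) * (b1) + V3010 x t (s + 1) * (b0))
    (hT10 : T10 = V1030 x t s * (b1 ^ 3))
    : 1080 * x ^ 3 * ((((A0 * C2 + A2 * C0) * x - ((B0 * B2 + B2 * B0) * (x ^ 2))) * ((4 + 2 * t) * B + 8 * x) + (D0 * C2 + D2 * C0 + A0 * F2 + A2 * F0) * x - ((B0 * E2 + B2 * E0) * (2 * x ^ 2))) * (b0 * b2 - b1 ^ 2) - (((-((B2 * (b1 ^ 2)) * (2 * x)) + A0 * (b0 * b1 ^ 2) + A2 * (2 * x * b0 * b1)) * ((2 + 2 * t) * B + 4 * x) + (C2 * (A2 * b2 - (B2 * b1))) * (2 * x) - ((E2 * (b1 ^ 2)) * (2 * x)) - ((B0 * (-((A2 * (-b1)) * b1) + (B2 * (-b1)) * b0) + B2 * (B2 * (b2 * x) - ((A0 * (-b1)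 + A2 * (-x) + C2) * b1) + (B0 * (-b1) + B2 * (-x)) * b0)) * (2 * x)) + D0 * (b0 * b1 ^ 2) + D2 * (2 * x * b0 * b1) + (A0 * (-((B2 * (-b1)) * (b1 * x)) + ((-b1) * C2) * b0) + A2 * (-((B0 * (-b1) + B2 * (-x)) * (b1 * x)) + ((-x) * C2 + (-b1) * C0) * b0)) * 2) * B) + ((-b1) * Z2) * (2 * B ^ 2))
      + (pI0_ x + pI1_ x * (2 * t) + pI1q x * (A0 - B)) * b0 ^ 3
      - x ^ 2 * W01 * (-(x))
      - x ^ 2 * W02 * (2 * x * b1)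
      - x ^ 2 * W03 * (-(3 * x * b1 ^ 2))
      - x ^ 2 * W10 * (1)
      + X10
      - x ^ 2 * W11 * (-(b1))
      - x ^ 2 * W12 * (b1 ^ 2)
      - Y01 * (1)
      - Y10 * ((1 - 2 * x))
      + T10 * x ^ 1
      - Y11 * (-(b0))
      - Y20 * (-(2 * (1 - 2 * x) * b0))
      - Y21 * (b0 ^ 2)
      - Y30 * (3 * (1 - 2 * x) * b0 ^ 2) = 0 := by
  subst hB hb0 hb1 hb2 hA0 hA2 hB0 hB2 hC0 hC2 hD0 hD2 hE0 hE2 hF0 hF2 hZ2 hW01 hW02 hW03 hW10 hW11 hW12 hX10 hY01 hY10 hY11 hY20 hY21 hY30 hT10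
  unfold U0121 U0130 U0211 U0220 U0301 U0310 U1021 U1111 U1120 U1201 U1210 V0121 V0130 V1030 V1111 V1120 V2011 V2020 V2101 V2110 V3001 V3010 pI0_ pI1_ pI1q
  ring

end C1

end Pool.Agent.Helper99.TC
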