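import Pool.Agent.Helper99.TC.R1Def

/-!
# The relation R1: coefficient of g0^1 g1^1
-/

set_option autoImplicit false

namespace Pool.Agent.Helper99.TC

namespace C1

variable {R : Type*} [CommRing R]

theorem chk11 (x t s κ B b0 b1 b2 A0 A1 A2 B0 B1 B2 C0 C1 C2 D0 D1 D2 E0 E1 E2 F0 F1 F2 Z1 Z2 W02 W03 W11 W12 W20 W21 X11 Y11 Y20 Y21 Y30 T11 : R)
    (hB : B = 1 - 4 * x)
    (hb0 : b0 = (t + 1 - s) * (t + 2 - s) * κ)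
    (hb1 : b1 = s * (t + 2 - s) * κ)
    (hb2 : b2 = s * (s - 1) * κ)
    (hA0 : A0 = (1 - 4 * x + x * (t + 2) - s + 2 * x * s))
    (hA1 : A1 = (x * (2 * s - t)))
    (hA2 : A2 = s * b0)
    (hB0 : B0 = (x * (t - 2 * s + 2)))
    (hB1 : B1 = (1 - 4 * x + x * (t + 2) - (t - s + 1) * (1 - 2 * x)))
    (hB2 : B2 = (t - s + 1) * b1)
    (hC0 : C0 = -x * (1 - 4 * x + x * (t + 2) - (t - s + 2) * (1 - 2 * x)))
    (hC1 : C1 = x * (x * (t - 2 * s + 4)) + (1 - 2 * x) * (1 - 4 * x + x * (t + 2) - (t - s + 2) * (1 - 2 * x)))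
    (hC2 : C2 = -(1 - 4 * x + x * (t + 2) - (t - s + 2) * (1 - 2 * x)) * b1 + x * (t - s + 2) * b2)
    (hD0 : D0 = B * x * (t - 2 + 2 * s) + (1 - 4 * x + x * (t + 2) - s + 2 * x * s) * (A0 - B) + (x * (2 * s - t)) * B0)
    (hD1 : D1 = (1 - 4 * x + x * (t + 2) - s + 2 * x * s) * A1 + (x * (2 * s - t)) * B1)
    (hD2 : D2 = (1 - 4 * x + x * (t + 2) - s + 2 * x * s) * A2 + (x * (2 * s - t)) * B2)
    (hE0 : E0 = (x * (t - 2 * s + 2)) * A0 + (1 - 4 * x + x * (t + 2) - (t - s + 1) * (1 - 2 * x)) * B0)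
    (hE1 : E1 = (x * (t - 2 * s + 2)) * A1 + B * x * (3 * t - 2 * s) + (1 - 4 * x + x * (t + 2) - (t - s + 1) * (1 - 2 * x)) * (B1 - B))
    (hE2 : E2 = (x * (t - 2 * s + 2)) * A2 + (1 - 4 * x + x * (t + 2) - (t - s + 1) * (1 - 2 * x)) * B2)
    (hF0 : F0 = x * (x * (t - 2 * s + 4)) * B0 - B * x * (3 * t - 2 * s + 2) * x + (1 - 4 * x + x * (t + 2) - (t - s + 2) * (1 - 2 * x)) * (C0 + B * x))
    (hF1 : F1 = x * (x * (t - 2 * s + 4)) * B1 + B * x * (3 * t - 2 * s + 2) * (1 - 2 * x) + (1 - 4 * x + x * (t + 2) - (t - s + 2) * (1 - 2 * x)) * (C1 - B * (1 - 2 * x)))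
    (hF2 : F2 = x * (x * (t - 2 * s + 4)) * B2 - B * x * (3 * t - 2 * s + 2) * b1 + (1 - 4 * x + x * (t + 2) - (t - s + 2) * (1 - 2 * x)) * (C2 + B * b1))
    (hZ1 : Z1 = A1 * (-b1) + A2 * (1 - 2 * x) - (B2 * (2 * x)))
    (hZ2 : Z2 = A2 * (-b1))
    (hW02 : W02 = U0211 x (t + 1) s * ((b0 + b1) * (b1 + b2)) + U0220 x (t + 1) s * ((b0 + b1) ^ 2))
    (hW03 : W03 = U0301 x (t + 1) s * ((b1 + b2)) + U0310 x (t + 1) s * ((b0 + b1)))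
    (hW11 : W11 = U1111 x (t + 1) s * ((b0 + b1) * (b1 + b2)) + U1120 x (t + 1) s * ((b0 + b1) ^ 2))
    (hW12 : W12 = U1201 x (t + 1) s * ((b1 + b2)) + U1210 x (t + 1) s * ((b0 + b1)))
    (hW20 : W20 = U2011 x (t + 1) s * ((b0 + b1) * (b1 + b2)) + U2020 x (t + 1) s * ((b0 + b1) ^ 2))
    (hW21 : W21 = U2101 x (t + 1) s * ((b1 + b2)) + U2110 x (t + 1) s * ((b0 + b1)))
    (hX11 : X11 = U1111 x t s * (b0 * b1) + U1120 x t s * (b0 ^ 2))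
    (hY11 : Y11 = V1111 x t (s + 1) * (b0 * b1) + V1120 x t (s + 1) * (b0 ^ 2))
    (hY20 : Y20 = V2011 x t (s + 1) * (b0 * b1) + V2020 x t (s + 1) * (b0 ^ 2))
    (hY21 : Y21 = V2101 x t (s + 1) * (b1) + V2110 x t (s + 1) * (b0))
    (hY30 : Y30 = V3001 x t (s + 1) * (b1) + V3010 x t (s + 1) * (b0))
    (hT11 : T11 = V1111 x t s * (b1 * b2) + V1120 x t s * (b1 ^ 2))
    : 1080 * x ^ 3 * ((((A0 * C1 + A1 * C0) * x - ((B0 * B1 + B1 * B0) * (x ^ 2))) * ((4 + 2 * t) * B + 8 * x) + (D0 * C1 + D1 * C0 + A0 * F1 + A1 * F0) * x - ((B0 * E1 + B1 * E0) * (2 * x ^ 2))) * (b0 * b2 - b1 ^ 2) - ((((C2 * (-(2 * b1))) * x - ((B0 * (-(b0 * b1)) + B1 * (b1 ^ 2) + B2 * (x * b2 - (1 - 2 * x) * b1 - x * b0)) * (2 * x)) + A0 * (2 * x * b1 ^ 2 - 2 * (1 - 2 * x) * b0 * b1) + A1 * (2 * x * b0 * b1) + A2 * (2 * x ^ 2 * b1 - 2 * x * (1 - 2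 * x) * b0)) * ((2 + 2 * t) * B + 4 * x) + (F2 * (-(2 * b1))) * x + (C0 * (-(A2 * b1) + B2 * b0) + C1 * (A2 * b2 - (B2 * b1)) + C2 * (A1 * b2 - ((A0 + B1) * b1) + B0 * b0)) * (2 * x) - ((E0 * (-(b0 * b1)) + E1 * (b1 ^ 2) + E2 * (x * b2 - (1 - 2 * x) * b1 - x * b0)) * (2 * x)) - ((B0 * (A2 * (b2 * x) - ((A1 * (-b1) + A2 * (1 - 2 * x) + B2 * (2 * x)) * b1) + (B1 * (-b1) + B2 * (1 - 2 * x) + C2) * b0) + B1 * (B2 * (b2 * x) - ((A0 * (-b1) + A2 * (-x) + C2) * b1) + (B0 * (-b1) + B2 * (-x)) * b0) + B2 * ((A0 + B1) * (b2 * x) - ((A0 * (1 - 2 * x) + A1 * (-x) + C1 + B0 * (2 * x)) * b1) + (B0 * (1 - 2 * x) + B1 * (-x) + C0) * b0)) * (2 * x)) + D0 * (2 * x * b1 ^ 2 - 2 * (1 - 2 * x) * b0 * b1) + D1 * (2 * x * b0 * b1) + D2 * (2 * x ^ 2 * b1 - 2 * x * (1 - 2 * x) * b0) + (A0 * (B2 * (b2 * x ^ 2) - ((C2 + B1 * (-b1) + B2 * (1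 - 2 * x)) * (b1 * x)) + ((1 - 2 * x) * C2 + (-b1) * C1) * b0) + A1 * (-((B0 * (-b1) + B2 * (-x)) * (b1 * x)) + ((-x) * C2 + (-b1) * C0) * b0) + A2 * (B0 * (b2 * x ^ 2) - ((C0 + B0 * (1 - 2 * x) + B1 * (-x)) * (b1 * x)) + ((-x) * C1 + (1 - 2 * x) * C0) * b0)) * 2) * B) + ((1 - 2 * x) * Z2 + (-b1) * Z1) * (2 * B ^ 2))
      - x ^ 2 * W02 * (-(2 * x * (1 - x)))
      - x ^ 2 * W03 * (6 * x * (1 - x) * b1)
      - x ^ 2 * W11 * (-(x) + (1 - x))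
      + X11 * x ^ 1
      - x ^ 2 * W12 * (2 * x * b1 - 2 * (1 - x) * b1)
      - x ^ 2 * W20 * (2)
      - x ^ 2 * W21 * (-(2 * b1))
      - Y11 * (-(x))
      + T11 * x ^ 1
      - Y20 * (-(2 * (1 - 2 * x) * x))
      - Y21 * (2 * x * b0)
      - Y30 * (6 * (1 - 2 * x) * x * b0) = 0 := by
  subst hB hb0 hb1 hb2 hA0 hA1 hA2 hB0 hB1 hB2 hC0 hC1 hC2 hD0 hD1 hD2 hE0 hE1 hE2 hF0 hF1 hF2 hZ1 hZ2 hW02 hW03 hW11 hW12 hW20 hW21 hX11 hY11 hY20 hY21 hY30 hT11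
  unfold U0211 U0220 U0301 U0310 U1111 U1120 U1201 U1210 U2011 U2020 U2101 U2110 V1111 V1120 V2011 V2020 V2101 V2110 V3001 V3010
  ring

end C1

end Pool.Agent.Helper99.TC
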