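import Pool.Agent.Helper99.TC.R1Def

/-!
# The relation R1: coefficient of g0^2 g1^0
-/

set_option autoImplicit false

namespace Pool.Agent.Helper99.TC

namespace C1

variable {R : Type*} [CommRing R]

theorem chk20 (x t s κ B b0 b1 b2 A0 A2 B0 B2 C0 C2 D0 D2 E0 E2 F0 F2 Z0 Z2 W02 W03 W11 W12 W20 W21 X20 Y02 Y11 Y12 Y20 Y21 Y30 T20 : R)
    (hB : B = 1 - 4 * x)
    (hb0 : b0 = (t + 1 - s) * (t + 2 - s) * κ)
    (hb1 : b1 = s * (t + 2 - s) * κ)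
    (hb2 : b2 = s * (s - 1) * κ)
    (hA0 : A0 = (1 - 4 * x + x * (t + 2) - s + 2 * x * s))
    (hA2 : A2 = s * b0)
    (hB0 : B0 = (x * (t - 2 * s + 2)))
    (hB2 : B2 = (t - s + 1) * b1)
    (hC0 : C0 = -x * (1 - 4 * x + x * (t + 2) - (t - s + 2) * (1 - 2 * x)))
    (hC2 : C2 = -(1 - 4 * x + x * (t + 2) - (t - s + 2) * (1 - 2 * x)) * b1 + x * (t - s + 2) * b2)
    (hD0 : D0 = B * x * (t - 2 + 2 * s) + (1 - 4 * x + x * (t + 2) - s + 2 * x * s) * (A0 - B) + (x * (2 * s - t)) * B0)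
    (hD2 : D2 = (1 - 4 * x + x * (t + 2) - s + 2 * x * s) * A2 + (x * (2 * s - t)) * B2)
    (hE0 : E0 = (x * (t - 2 * s + 2)) * A0 + (1 - 4 * x + x * (t + 2) - (t - s + 1) * (1 - 2 * x)) * B0)
    (hE2 : E2 = (x * (t - 2 * s + 2)) * A2 + (1 - 4 * x + x * (t + 2) - (t - s + 1) * (1 - 2 * x)) * B2)
    (hF0 : F0 = x * (x * (t - 2 * s + 4)) * B0 - B * x * (3 * t - 2 * s + 2) * x + (1 - 4 * x + x * (t + 2) - (t - s + 2) * (1 - 2 * x)) * (C0 + B * x))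
    (hF2 : F2 = x * (x * (t - 2 * s + 4)) * B2 - B * x * (3 * t - 2 * s + 2) * b1 + (1 - 4 * x + x * (t + 2) - (t - s + 2) * (1 - 2 * x)) * (C2 + B * b1))
    (hZ0 : Z0 = A0 * (-b1) + A2 * (-x) + C2 + (-b1) * (t * B))
    (hZ2 : Z2 = A2 * (-b1))
    (hW02 : W02 = U0211 x (t + 1) s * ((b0 + b1) * (b1 + b2)) + U0220 x (t + 1) s * ((b0 + b1) ^ 2))
    (hW03 : W03 = U0301 x (t + 1) s * ((b1 + b2)) + U0310 x (t + 1) s * ((b0 + b1)))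
    (hW11 : W11 = U1111 x (t + 1) s * ((b0 + b1) * (b1 + b2)) + U1120 x (t + 1) s * ((b0 + b1) ^ 2))
    (hW12 : W12 = U1201 x (t + 1) s * ((b1 + b2)) + U1210 x (t + 1) s * ((b0 + b1)))
    (hW20 : W20 = U2011 x (t + 1) s * ((b0 + b1) * (b1 + b2)) + U2020 x (t + 1) s * ((b0 + b1) ^ 2))
    (hW21 : W21 = U2101 x (t + 1) s * ((b1 + b2)) + U2110 x (t + 1) s * ((b0 + b1)))
    (hX20 : X20 = U2011 x t s * (b0 * b1) + U2020 x t s * (b0 ^ 2))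
    (hY02 : Y02 = V0211 x t (s + 1) * (b0 * b1) + V0220 x t (s + 1) * (b0 ^ 2))
    (hY11 : Y11 = V1111 x t (s + 1) * (b0 * b1) + V1120 x t (s + 1) * (b0 ^ 2))
    (hY12 : Y12 = V1201 x t (s + 1) * (b1) + V1210 x t (s + 1) * (b0))
    (hY20 : Y20 = V2011 x t (s + 1) * (b0 * b1) + V2020 x t (s + 1) * (b0 ^ 2))
    (hY21 : Y21 = V2101 x t (s + 1) * (b1) + V2110 x t (s + 1) * (b0))
    (hY30 : Y30 = V3001 x t (s + 1) * (b1) + V3010 x t (s + 1) * (b0))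
    (hT20 : T20 = V2011 x t s * (b1 * b2) + V2020 x t s * (b1 ^ 2))
    : 1080 * x ^ 3 * ((((A0 * C0) * x - ((B0 * B0) * (x ^ 2))) * ((4 + 2 * t) * B + 8 * x) + (D0 * C0 + A0 * F0) * x - ((B0 * E0) * (2 * x ^ 2))) * (b0 * b2 - b1 ^ 2) - ((((C2 * b2) * x - ((B0 * (b1 ^ 2) + B2 * (x * b1)) * (2 * x)) + A0 * (2 * x * b0 * b1) + A2 * (x ^ 2 * b0)) * ((2 + 2 * t) * B + 4 * x) + (F2 * b2) * x + (C0 * (A2 * b2 - (B2 * b1)) + C2 * (A0 * b2 - (B0 * b1))) * (2 * x) - ((E0 * (b1 ^ 2) + E2 * (x * b1)) * (2 * x)) - ((B0 * (B2 * (b2 * x) - ((A0 * (-b1) + A2 * (-x) + C2) * b1) + (B0 * (-b1) + B2 * (-x)) * b0) + B2 * (B0 * (b2 * x) - ((A0 * (-x) + C0) * b1) + (B0 * (-x)) * b0)) * (2 * x)) + D0 * (2 * x * b0 * b1) + D2 * (x ^ 2 * b0) + (A0 * (-((B0 * (-b1) + B2 * (-x)) * (b1 * x)) + ((-x) * C2 + (-b1) * C0) * b0) + A2 * (-((B0 * (-x)) * (b1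 * x)) + ((-x) * C0) * b0)) * 2) * B) + ((-x) * Z2 + (-b1) * Z0) * (2 * B ^ 2))
      - x ^ 2 * W02 * (x ^ 2)
      - x ^ 2 * W03 * (-(3 * x ^ 2 * b1))
      - x ^ 2 * W11 * (-(x))
      - x ^ 2 * W12 * (2 * x * b1)
      - x ^ 2 * W20 * (1)
      + X20
      - x ^ 2 * W21 * (-(b1))
      - Y02 * (1)
      - Y11 * ((1 - 2 * x))
      - Y12 * (-(b0))
      - Y20 * ((1 - 2 * x) ^ 2)
      + T20 * x ^ 2
      - Y21 * (-(2 * (1 - 2 * x) * b0))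
      - Y30 * (-(3 * (1 - 2 * x) ^ 2 * b0)) = 0 := by
  subst hB hb0 hb1 hb2 hA0 hA2 hB0 hB2 hC0 hC2 hD0 hD2 hE0 hE2 hF0 hF2 hZ0 hZ2 hW02 hW03 hW11 hW12 hW20 hW21 hX20 hY02 hY11 hY12 hY20 hY21 hY30 hT20
  unfold U0211 U0220 U0301 U0310 U1111 U1120 U1201 U1210 U2011 U2020 U2101 U2110 V0211 V0220 V1111 V1120 V1201 V1210 V2011 V2020 V2101 V2110 V3001 V3010
  ring

end C1

end Pool.Agent.Helper99.TC
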