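import Pool.Agent.Helper99.TC.R1Def

/-!
# The relation R1: coefficient of g0^3 g1^0
-/

set_option autoImplicit false

namespace Pool.Agent.Helper99.TC

namespace C1

variable {R : Type*} [CommRing R]

theorem chk30 (x t s κ B b0 b1 b2 A0 A2 B0 C0 C2 D0 E0 F0 Z0 W03 W12 W21 W30 X30 Y03 Y12 Y21 Y30 T30 : R)
    (hB : B = 1 - 4 * x)
    (hb0 : b0 = (t + 1 - s) * (t + 2 - s) * κ)
    (hb1 : b1 = s * (t + 2 - s) * κ)
    (hb2 : b2 = s * (s - 1) * κ)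
    (hA0 : A0 = (1 - 4 * x + x * (t + 2) - s + 2 * x * s))
    (hA2 : A2 = s * b0)
    (hB0 : B0 = (x * (t - 2 * s + 2)))
    (hC0 : C0 = -x * (1 - 4 * x + x * (t + 2) - (t - s + 2) * (1 - 2 * x)))
    (hC2 : C2 = -(1 - 4 * x + x * (t + 2) - (t - s + 2) * (1 - 2 * x)) * b1 + x * (t - s + 2) * b2)
    (hD0 : D0 = B * x * (t - 2 + 2 * s) + (1 - 4 * x + x * (t + 2) - s + 2 * x * s) * (A0 - B) + (x * (2 * s - t)) * B0)
    (hE0 : E0 = (x * (t - 2 * s + 2)) * A0 + (1 - 4 * x + x * (t + 2) - (t - s + 1) * (1 - 2 * x)) * B0)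
    (hF0 : F0 = x * (x * (t - 2 * s + 4)) * B0 - B * x * (3 * t - 2 * s + 2) * x + (1 - 4 * x + x * (t + 2) - (t - s + 2) * (1 - 2 * x)) * (C0 + B * x))
    (hZ0 : Z0 = A0 * (-b1) + A2 * (-x) + C2 + (-b1) * (t * B))
    (hW03 : W03 = U0301 x (t + 1) s * ((b1 + b2)) + U0310 x (t + 1) s * ((b0 + b1)))
    (hW12 : W12 = U1201 x (t + 1) s * ((b1 + b2)) + U1210 x (t + 1) s * ((b0 + b1)))
    (hW21 : W21 = U2101 x (t + 1) s * ((b1 + b2)) + U2110 x (t + 1) s * ((b0 + b1)))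
    (hW30 : W30 = U3001 x (t + 1) s * ((b1 + b2)) + U3010 x (t + 1) s * ((b0 + b1)))
    (hX30 : X30 = U3001 x t s * (b1) + U3010 x t s * (b0))
    (hY03 : Y03 = V0301 x t (s + 1) * (b1) + V0310 x t (s + 1) * (b0))
    (hY12 : Y12 = V1201 x t (s + 1) * (b1) + V1210 x t (s + 1) * (b0))
    (hY21 : Y21 = V2101 x t (s + 1) * (b1) + V2110 x t (s + 1) * (b0))
    (hY30 : Y30 = V3001 x t (s + 1) * (b1) + V3010 x t (s + 1) * (b0))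
    (hT30 : T30 = V3001 x t s * (b2) + V3010 x t s * (b1))
    : 1080 * x ^ 3 * (-((((C0 * b2) * x - ((B0 * (x * b1)) * (2 * x)) + A0 * (x ^ 2 * b0)) * ((2 + 2 * t) * B + 4 * x) + (F0 * b2) * x + (C0 * (A0 * b2 - (B0 * b1))) * (2 * x) - ((E0 * (x * b1)) * (2 * x)) - ((B0 * (B0 * (b2 * x) - ((A0 * (-x) + C0) * b1) + (B0 * (-x)) * b0)) * (2 * x)) + D0 * (x ^ 2 * b0) + (A0 * (-((B0 * (-x)) * (b1 * x)) + ((-x) * C0) * b0)) * 2) * B) + ((-x) * Z0) * (2 * B ^ 2))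
      - x ^ 2 * W03 * (-(x ^ 3))
      - x ^ 2 * W12 * (x ^ 2)
      - x ^ 2 * W21 * (-(x))
      - x ^ 2 * W30 * (1)
      + X30
      - Y03 * (1)
      - Y12 * ((1 - 2 * x))
      - Y21 * ((1 - 2 * x) ^ 2)
      - Y30 * ((1 - 2 * x) ^ 3)
      + T30 * x ^ 3 = 0 := by
  subst hB hb0 hb1 hb2 hA0 hA2 hB0 hC0 hC2 hD0 hE0 hF0 hZ0 hW03 hW12 hW21 hW30 hX30 hY03 hY12 hY21 hY30 hT30
  unfold U0301 U0310 U1201 U1210 U2101 U2110 U3001 U3010 V0301 V0310 V1201 V1210 V2101 V2110 V3001 V3010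
  ring

end C1

end Pool.Agent.Helper99.TC
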