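import Pool.Agent.Helper99.TC.R1Exp
import Pool.Agent.Helper99.TC.R1K00
import Pool.Agent.Helper99.TC.R1K01
import Pool.Agent.Helper99.TC.R1K02
import Pool.Agent.Helper99.TC.R1K03
import Pool.Agent.Helper99.TC.R1K10
import Pool.Agent.Helper99.TC.R1K11
import Pool.Agent.Helper99.TC.R1K12
import Pool.Agent.Helper99.TC.R1K20
import Pool.Agent.Helper99.TC.R1K21
import Pool.Agent.Helper99.TC.R1K30

/-!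
# The relation R1: the pointwise identity
-/

set_option autoImplicit false

namespace Pool.Agent.Helper99.TC

namespace C1

variable {R : Type*} [CommRing R]


theorem cert1 (x t s κ B b0 b1 b2 A0 A1 A2 B0 B1 B2 C0 C1 C2 D0 D1 D2 E0 E1 E2 F0 F1 F2 Z0 Z1 Z2 W00 W01 W02 W03 W10 W11 W12 W20 W21 W30 X00 X01 X02 X03 X10 X11 X12 X20 X21 X30 Y00 Y01 Y02 Y03 Y10 Y11 Y12 Y20 Y21 Y30 T00 T01 T02 T03 T10 T11 T12 T20 T21 T30 g0 g1 y2 ym : R)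
    (hB : B = 1 - 4 * x)
    (hb0 : b0 = (t + 1 - s) * (t + 2 - s) * κ)
    (hb1 : b1 = s * (t + 2 - s) * κ)
    (hb2 : b2 = s * (s - 1) * κ)
    (hA0 : A0 = (1 - 4 * x + x * (t + 2) - s + 2 * x * s))
    (hA1 : A1 = (x * (2 * s - t)))
    (hA2 : A2 = s * b0)
    (hB0 : B0 = (x * (t - 2 * s + 2)))
    (hB1 : B1 = (1 - 4 * x + x * (t + 2) - (t - s + 1) * (1 - 2 * x)))
    (hB2 : B2 = (t - s + 1) * b1)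
    (hC0 : C0 = -x * (1 - 4 * x + x * (t + 2) - (t - s + 2) * (1 - 2 * x)))
    (hC1 : C1 = x * (x * (t - 2 * s + 4)) + (1 - 2 * x) * (1 - 4 * x + x * (t + 2) - (t - s + 2) * (1 - 2 * x)))
    (hC2 : C2 = -(1 - 4 * x + x * (t + 2) - (t - s + 2) * (1 - 2 * x)) * b1 + x * (t - s + 2) * b2)
    (hD0 : D0 = B * x * (t - 2 + 2 * s) + (1 - 4 * x + x * (t + 2) - s + 2 * x * s) * (A0 - B) + (x * (2 * s - t)) * B0)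
    (hD1 : D1 = (1 - 4 * x + x * (t + 2) - s + 2 * x * s) * A1 + (x * (2 * s - t)) * B1)
    (hD2 : D2 = (1 - 4 * x + x * (t + 2) - s + 2 * x * s) * A2 + (x * (2 * s - t)) * B2)
    (hE0 : E0 = (x * (t - 2 * s + 2)) * A0 + (1 - 4 * x + x * (t + 2) - (t - s + 1) * (1 - 2 * x)) * B0)
    (hE1 : E1 = (x * (t - 2 * s + 2)) * A1 + B * x * (3 * t - 2 * s) + (1 - 4 * x + x * (t + 2) - (t - s + 1) * (1 - 2 * x)) * (B1 - B))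
    (hE2 : E2 = (x * (t - 2 * s + 2)) * A2 + (1 - 4 * x + x * (t + 2) - (t - s + 1) * (1 - 2 * x)) * B2)
    (hF0 : F0 = x * (x * (t - 2 * s + 4)) * B0 - B * x * (3 * t - 2 * s + 2) * x + (1 - 4 * x + x * (t + 2) - (t - s + 2) * (1 - 2 * x)) * (C0 + B * x))
    (hF1 : F1 = x * (x * (t - 2 * s + 4)) * B1 + B * x * (3 * t - 2 * s + 2) * (1 - 2 * x) + (1 - 4 * x + x * (t + 2) - (t - s + 2) * (1 - 2 * x)) * (C1 - B * (1 - 2 * x)))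
    (hF2 : F2 = x * (x * (t - 2 * s + 4)) * B2 - B * x * (3 * t - 2 * s + 2) * b1 + (1 - 4 * x + x * (t + 2) - (t - s + 2) * (1 - 2 * x)) * (C2 + B * b1))
    (hZ0 : Z0 = A0 * (-b1) + A2 * (-x) + C2 + (-b1) * (t * B))
    (hZ1 : Z1 = A1 * (-b1) + A2 * (1 - 2 * x) - (B2 * (2 * x)))
    (hZ2 : Z2 = A2 * (-b1))
    (hW00 : W00 = U0031 x (t + 1) s * ((b0 + b1) ^ 3 * (b1 + b2)))
    (hW01 : W01 = U0121 x (t + 1) s * ((b0 + b1) ^ 2 * (b1 + b2)) + U0130 x (t + 1) s * ((b0 + b1) ^ 3))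
    (hW02 : W02 = U0211 x (t + 1) s * ((b0 + b1) * (b1 + b2)) + U0220 x (t + 1) s * ((b0 + b1) ^ 2))
    (hW03 : W03 = U0301 x (t + 1) s * ((b1 + b2)) + U0310 x (t + 1) s * ((b0 + b1)))
    (hW10 : W10 = U1021 x (t + 1) s * ((b0 + b1) ^ 2 * (b1 + b2)))
    (hW11 : W11 = U1111 x (t + 1) s * ((b0 + b1) * (b1 + b2)) + U1120 x (t + 1) s * ((b0 + b1) ^ 2))
    (hW12 : W12 = U1201 x (t + 1) s * ((b1 + b2)) + U1210 x (t + 1) s * ((b0 + b1)))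
    (hW20 : W20 = U2011 x (t + 1) s * ((b0 + b1) * (b1 + b2)) + U2020 x (t + 1) s * ((b0 + b1) ^ 2))
    (hW21 : W21 = U2101 x (t + 1) s * ((b1 + b2)) + U2110 x (t + 1) s * ((b0 + b1)))
    (hW30 : W30 = U3001 x (t + 1) s * ((b1 + b2)) + U3010 x (t + 1) s * ((b0 + b1)))
    (hX00 : X00 = U0031 x t s * (b0 ^ 3 * b1))
    (hX01 : X01 = U0121 x t s * (b0 ^ 2 * b1) + U0130 x t s * (b0 ^ 3))
    (hX02 : X02 = U0211 x t s * (b0 * b1) + U0220 x t s * (b0 ^ 2))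
    (hX03 : X03 = U0301 x t s * (b1) + U0310 x t s * (b0))
    (hX10 : X10 = U1021 x t s * (b0 ^ 2 * b1))
    (hX11 : X11 = U1111 x t s * (b0 * b1) + U1120 x t s * (b0 ^ 2))
    (hX12 : X12 = U1201 x t s * (b1) + U1210 x t s * (b0))
    (hX20 : X20 = U2011 x t s * (b0 * b1) + U2020 x t s * (b0 ^ 2))
    (hX21 : X21 = U2101 x t s * (b1) + U2110 x t s * (b0))
    (hX30 : X30 = U3001 x t s * (b1) + U3010 x t s * (b0))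
    (hY00 : Y00 = V0040 x t (s + 1) * (b0 ^ 4))
    (hY01 : Y01 = V0121 x t (s + 1) * (b0 ^ 2 * b1) + V0130 x t (s + 1) * (b0 ^ 3))
    (hY02 : Y02 = V0211 x t (s + 1) * (b0 * b1) + V0220 x t (s + 1) * (b0 ^ 2))
    (hY03 : Y03 = V0301 x t (s + 1) * (b1) + V0310 x t (s + 1) * (b0))
    (hY10 : Y10 = V1030 x t (s + 1) * (b0 ^ 3))
    (hY11 : Y11 = V1111 x t (s + 1) * (b0 * b1) + V1120 x t (s + 1) * (b0 ^ 2))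
    (hY12 : Y12 = V1201 x t (s + 1) * (b1) + V1210 x t (s + 1) * (b0))
    (hY20 : Y20 = V2011 x t (s + 1) * (b0 * b1) + V2020 x t (s + 1) * (b0 ^ 2))
    (hY21 : Y21 = V2101 x t (s + 1) * (b1) + V2110 x t (s + 1) * (b0))
    (hY30 : Y30 = V3001 x t (s + 1) * (b1) + V3010 x t (s + 1) * (b0))
    (hT00 : T00 = V0040 x t s * (b1 ^ 4))
    (hT01 : T01 = V0121 x t s * (b1 ^ 2 * b2) + V0130 x t s * (b1 ^ 3))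
    (hT02 : T02 = V0211 x t s * (b1 * b2) + V0220 x t s * (b1 ^ 2))
    (hT03 : T03 = V0301 x t s * (b2) + V0310 x t s * (b1))
    (hT10 : T10 = V1030 x t s * (b1 ^ 3))
    (hT11 : T11 = V1111 x t s * (b1 * b2) + V1120 x t s * (b1 ^ 2))
    (hT12 : T12 = V1201 x t s * (b2) + V1210 x t s * (b1))
    (hT20 : T20 = V2011 x t s * (b1 * b2) + V2020 x t s * (b1 ^ 2))
    (hT21 : T21 = V2101 x t s * (b2) + V2110 x t s * (b1))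
    (hT30 : T30 = V3001 x t s * (b2) + V3010 x t s * (b1))
    (hy2 : y2 = -x * g0 + (1 - 2 * x) * g1 - b1)
    (hym : ym = (1 - 2 * x) * g0 - x * g1 - b0) :
    1080 * x ^ 3 * Brk x t B (A0 * g0 + A1 * g1 + A2) (B0 * g0 + B1 * g1 + B2)
      (C0 * g0 + C1 * g1 + C2) (D0 * g0 + D1 * g1 + D2) (E0 * g0 + E1 * g1 + E2)
      (F0 * g0 + F1 * g1 + F2) g0 g1 y2 (g0 * y2 - x * g1 ^ 2) (Z0 * g0 + Z1 * g1 + Z2) b0 b1 b2 +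
      ((pI0_ x + pI1_ x * (2 * t)) * g0 + pI1q x * ((A0 - B) * g0 + A1 * g1 + A2)) * b0 ^ 3 +
      (pF0_ x + 2 * t * pF1_ x + 4 * t ^ 2 * pF2_ x) * b0 ^ 4 =
    x ^ 2 * U1 x (t + 1) s (g0 + g1) (x * g1 + y2) (b0 + b1) (b1 + b2) -
      U1 x t s g0 (x * g1) b0 b1 + V1 x t (s + 1) ym g0 b0 b1 - V1 x t s (x * g0) g1 b1 b2 := by
  have hb := brk_exp x t B b0 b1 b2 A0 A1 A2 B0 B1 B2 C0 C1 C2 D0 D1 D2 E0 E1 E2 F0 F1 F2 Z0 Z1 Z2 g0 g1 y2 hy2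
  have hu := u_exp x b1 g0 g1 y2 W00 W01 W02 W03 W10 W11 W12 W20 W21 W30 hy2
  have hv := v_exp x b0 g0 g1 ym Y00 Y01 Y02 Y03 Y10 Y11 Y12 Y20 Y21 Y30 hym
  have k00 := chk00 x t s κ B b0 b1 b2 A2 B2 C2 D2 E2 F2 W00 W01 W02 W03 X00 Y00 Y10 Y20 Y30 T00 hB hb0 hb1 hb2 hA2 hB2 hC2 hD2 hE2 hF2 hW00 hW01 hW02 hW03 hX00 hY00 hY10 hY20 hY30 hT00
  have k01 := chk01 x t s κ B b0 b1 b2 A1 A2 B1 B2 C1 C2 D1 D2 E1 E2 F1 F2 W01 W02 W03 W10 W11 W12 X01 Y10 Y20 Y30 T01 hB hb0 hb1 hb2 hA1 hA2 hB1 hB2 hC1 hC2 hD1 hD2 hE1 hE2 hF1 hF2 hW01 hW02 hW03 hW10 hW11 hW12 hX01 hY10 hY20 hY30 hT01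
  have k02 := chk02 x t s κ B b0 b1 b2 A1 A2 B1 B2 C1 C2 D1 D2 E1 E2 F1 F2 Z2 W02 W03 W11 W12 W20 W21 X02 Y20 Y30 T02 hB hb0 hb1 hb2 hA1 hA2 hB1 hB2 hC1 hC2 hD1 hD2 hE1 hE2 hF1 hF2 hZ2 hW02 hW03 hW11 hW12 hW20 hW21 hX02 hY20 hY30 hT02
  have k03 := chk03 x t s κ B b0 b1 b2 A1 A2 B1 B2 C1 D1 E1 F1 Z1 W03 W12 W21 W30 X03 Y30 T03 hB hb0 hb1 hb2 hA1 hA2 hB1 hB2 hC1 hD1 hE1 hF1 hZ1 hW03 hW12 hW21 hW30 hX03 hY30 hT03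
  have k10 := chk10 x t s κ B b0 b1 b2 A0 A2 B0 B2 C0 C2 D0 D2 E0 E2 F0 F2 Z2 W01 W02 W03 W10 W11 W12 X10 Y01 Y10 Y11 Y20 Y21 Y30 T10 hB hb0 hb1 hb2 hA0 hA2 hB0 hB2 hC0 hC2 hD0 hD2 hE0 hE2 hF0 hF2 hZ2 hW01 hW02 hW03 hW10 hW11 hW12 hX10 hY01 hY10 hY11 hY20 hY21 hY30 hT10
  have k11 := chk11 x t s κ B b0 b1 b2 A0 A1 A2 B0 B1 B2 C0 C1 C2 D0 D1 D2 E0 E1 E2 F0 F1 F2 Z1 Z2 W02 W03 W11 W12 W20 W21 X11 Y11 Y20 Y21 Y30 T11 hB hb0 hb1 hb2 hA0 hA1 hA2 hB0 hB1 hB2 hC0 hC1 hC2 hD0 hD1 hD2 hE0 hE1 hE2 hF0 hF1 hF2 hZ1 hZ2 hW02 hW03 hW11 hW12 hW20 hW21 hX11 hY11 hY20 hY21 hY30 hT11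
  have k12 := chk12 x t s κ B b0 b1 b2 A0 A1 A2 B0 B1 B2 C0 C1 C2 D0 D1 E0 E1 F0 F1 Z0 Z1 W03 W12 W21 W30 X12 Y21 Y30 T12 hB hb0 hb1 hb2 hA0 hA1 hA2 hB0 hB1 hB2 hC0 hC1 hC2 hD0 hD1 hE0 hE1 hF0 hF1 hZ0 hZ1 hW03 hW12 hW21 hW30 hX12 hY21 hY30 hT12
  have k20 := chk20 x t s κ B b0 b1 b2 A0 A2 B0 B2 C0 C2 D0 D2 E0 E2 F0 F2 Z0 Z2 W02 W03 W11 W12 W20 W21 X20 Y02 Y11 Y12 Y20 Y21 Y30 T20 hB hb0 hb1 hb2 hA0 hA2 hB0 hB2 hC0 hC2 hD0 hD2 hE0 hE2 hF0 hF2 hZ0 hZ2 hW02 hW03 hW11 hW12 hW20 hW21 hX20 hY02 hY11 hY12 hY20 hY21 hY30 hT20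
  have k21 := chk21 x t s κ B b0 b1 b2 A0 A1 A2 B0 B1 B2 C0 C1 C2 D0 D1 E0 E1 F0 F1 Z0 Z1 W03 W12 W21 W30 X21 Y12 Y21 Y30 T21 hB hb0 hb1 hb2 hA0 hA1 hA2 hB0 hB1 hB2 hC0 hC1 hC2 hD0 hD1 hE0 hE1 hF0 hF1 hZ0 hZ1 hW03 hW12 hW21 hW30 hX21 hY12 hY21 hY30 hT21
  have k30 := chk30 x t s κ B b0 b1 b2 A0 A2 B0 C0 C2 D0 E0 F0 Z0 W03 W12 W21 W30 X30 Y03 Y12 Y21 Y30 T30 hB hb0 hb1 hb2 hA0 hA2 hB0 hC0 hC2 hD0 hE0 hF0 hZ0 hW03 hW12 hW21 hW30 hX30 hY03 hY12 hY21 hY30 hT30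
  have eU1 : U1 x (t + 1) s (g0 + g1) (x * g1 + y2) (b0 + b1) (b1 + b2) =
      W00 * (1) + W01 * ((x * g1 + y2)) + W02 * ((x * g1 + y2) ^ 2) + W03 * ((x * g1 + y2) ^ 3) + W10 * ((g0 + g1)) + W11 * ((g0 + g1) * (x * g1 + y2)) + W12 * ((g0 + g1) * (x * g1 + y2) ^ 2) + W20 * ((g0 + g1) ^ 2) + W21 * ((g0 + g1) ^ 2 * (x * g1 + y2)) + W30 * ((g0 + g1) ^ 3) := by
    rw [hW00, hW01, hW02, hW03, hW10, hW11, hW12, hW20, hW21, hW30]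
    unfold U1
    ring
  have eU0 : U1 x t s g0 (x * g1) b0 b1 =
      X00 * (1) + X01 * ((x * g1)) + X02 * ((x * g1) ^ 2) + X03 * ((x * g1) ^ 3) + X10 * (g0) + X11 * (g0 * (x * g1)) + X12 * (g0 * (x * g1) ^ 2) + X20 * (g0 ^ 2) + X21 * (g0 ^ 2 * (x * g1)) + X30 * (g0 ^ 3) := by
    rw [hX00, hX01, hX02, hX03, hX10, hX11, hX12, hX20, hX21, hX30]
    unfold U1
    ring
  have eV1 : V1 x t (s + 1) ym g0 b0 b1 =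
      Y00 * (1) + Y01 * (g0) + Y02 * (g0 ^ 2) + Y03 * (g0 ^ 3) + Y10 * (ym) + Y11 * (ym * g0) + Y12 * (ym * g0 ^ 2) + Y20 * (ym ^ 2) + Y21 * (ym ^ 2 * g0) + Y30 * (ym ^ 3) := by
    rw [hY00, hY01, hY02, hY03, hY10, hY11, hY12, hY20, hY21, hY30]
    unfold V1
    ring
  have eV0 : V1 x t s (x * g0) g1 b1 b2 =
      T00 * (1) + T01 * (g1) + T02 * (g1 ^ 2) + T03 * (g1 ^ 3) + T10 * ((x * g0)) + T11 * ((x * g0) * g1) + T12 * ((x * g0) * g1 ^ 2) + T20 * ((x * g0) ^ 2) + T21 * ((x * g0) ^ 2 * g1) + T30 * ((x * g0) ^ 3) := by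
    rw [hT00, hT01, hT02, hT03, hT10, hT11, hT12, hT20, hT21, hT30]
    unfold V1
    ring
  rw [hb, eU1, hu, eU0, eV1, hv, eV0]
  clear hb eU1 hu eU0 eV1 hv eV0 hB hb0 hb1 hb2 hA0 hA1 hA2 hB0 hB1 hB2 hC0 hC1 hC2 hD0 hD1 hD2 hE0 hE1 hE2 hF0 hF1 hF2 hZ0 hZ1 hZ2 hW00 hW01 hW02 hW03 hW10 hW11 hW12 hW20 hW21 hW30 hX00 hX01 hX02 hX03 hX10 hX11 hX12 hX20 hX21 hX30 hY00 hY01 hY02 hY03 hY10 hY11 hY12 hY20 hY21 hY30 hT00 hT01 hT02 hT03 hT10 hT11 hT12 hT20 hT21 hT30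
  linear_combination k00 + k01 * (g1) + k02 * (g1 ^ 2) + k03 * (g1 ^ 3) + k10 * (g0) + k11 * (g0 * g1) + k12 * (g0 * g1 ^ 2) + k20 * (g0 ^ 2) + k21 * (g0 ^ 2 * g1) + k30 * (g0 ^ 3)

end C1

end Pool.Agent.Helper99.TC
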