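import Pool.Agent.Helper99.TC.R1Cert

/-!
# The relation R1: wrapper
-/

set_option autoImplicit false

namespace Pool.Agent.Helper99.TC

namespace C1

variable {R : Type*} [CommRing R]

theorem cert1w (x t s κ B b0 b1 b2 A0 A1 A2 B0 B1 B2 C0 C1 C2 D0 D1 D2 E0 E1 E2 F0 F1 F2 Z0 Z1 Z2 W00 W01 W02 W03 W10 W11 W12 W20 W21 W30 X00 X01 X02 X03 X10 X11 X12 X20 X21 X30 Y00 Y01 Y02 Y03 Y10 Y11 Y12 Y20 Y21 Y30 T00 T01 T02 T03 T10 T11 T12 T20 T21 T30 g0 g1 y2 ym ga0 ga1 ga2 d0 d1 d2 z : R)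
    (hB : B = 1 - 4 * x)
    (hb0 : b0 = (t + 1 - s) * (t + 2 - s) * κ)
    (hb1 : b1 = s * (t + 2 - s) * κ)
    (hb2 : b2 = s * (s - 1) * κ)
    (hA0 : A0 = (1 - 4 * x + x * (t + 2) - s + 2 * x * s))
    (hA1 : A1 = (x * (2 * s - t)))
    (hA2 : A2 = s * b0)
    (hB0 : B0 = (x * (t - 2 * s + 2)))
    (hB1 : B1 = (1 - 4 * x + x * (t + 2) - (t - s + 1) * (1 - 2 * x)))
    (hB2 : B2 = (t - s + 1) * b1)
    (hC0 : C0 = -x * (1 - 4 * x + x * (t + 2) - (t - s + 2) * (1 - 2 * x)))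
    (hC1 : C1 = x * (x * (t - 2 * s + 4)) + (1 - 2 * x) * (1 - 4 * x + x * (t + 2) - (t - s + 2) * (1 - 2 * x)))
    (hC2 : C2 = -(1 - 4 * x + x * (t + 2) - (t - s + 2) * (1 - 2 * x)) * b1 + x * (t - s + 2) * b2)
    (hD0 : D0 = B * x * (t - 2 + 2 * s) + (1 - 4 * x + x * (t + 2) - s + 2 * x * s) * (A0 - B) + (x * (2 * s - t)) * B0)
    (hD1 : D1 = (1 - 4 * x + x * (t + 2) - s + 2 * x * s) * A1 + (x * (2 * s - t)) * B1)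
    (hD2 : D2 = (1 - 4 * x + x * (t + 2) - s + 2 * x * s) * A2 + (x * (2 * s - t)) * B2)
    (hE0 : E0 = (x * (t - 2 * s + 2)) * A0 + (1 - 4 * x + x * (t + 2) - (t - s + 1) * (1 - 2 * x)) * B0)
    (hE1 : E1 = (x * (t - 2 * s + 2)) * A1 + B * x * (3 * t - 2 * s) + (1 - 4 * x + x * (t + 2) - (t - s + 1) * (1 - 2 * x)) * (B1 - B))
    (hE2 : E2 = (x * (t - 2 * s + 2)) * A2 + (1 - 4 * x + x * (t + 2) - (t - s + 1) * (1 - 2 * x)) * B2)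
    (hF0 : F0 = x * (x * (t - 2 * s + 4)) * B0 - B * x * (3 * t - 2 * s + 2) * x + (1 - 4 * x + x * (t + 2) - (t - s + 2) * (1 - 2 * x)) * (C0 + B * x))
    (hF1 : F1 = x * (x * (t - 2 * s + 4)) * B1 + B * x * (3 * t - 2 * s + 2) * (1 - 2 * x) + (1 - 4 * x + x * (t + 2) - (t - s + 2) * (1 - 2 * x)) * (C1 - B * (1 - 2 * x)))
    (hF2 : F2 = x * (x * (t - 2 * s + 4)) * B2 - B * x * (3 * t - 2 * s + 2) * b1 + (1 - 4 * x + x * (t + 2) - (t - s + 2) * (1 - 2 * x)) * (C2 + B * b1))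
    (hZ0 : Z0 = A0 * (-b1) + A2 * (-x) + C2 + (-b1) * (t * B))
    (hZ1 : Z1 = A1 * (-b1) + A2 * (1 - 2 * x) - (B2 * (2 * x)))
    (hZ2 : Z2 = A2 * (-b1))
    (hW00 : W00 = U0031 x (t + 1) s * ((b0 + b1) ^ 3 * (b1 + b2)))
    (hW01 : W01 = U0121 x (t + 1) s * ((b0 + b1) ^ 2 * (b1 + b2)) + U0130 x (t + 1) s * ((b0 + b1) ^ 3))
    (hW02 : W02 = U0211 x (t + 1) s * ((b0 + b1) * (b1 + b2)) + U0220 x (t + 1) s * ((b0 + b1) ^ 2))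
    (hW03 : W03 = U0301 x (t + 1) s * ((b1 + b2)) + U0310 x (t + 1) s * ((b0 + b1)))
    (hW10 : W10 = U1021 x (t + 1) s * ((b0 + b1) ^ 2 * (b1 + b2)))
    (hW11 : W11 = U1111 x (t + 1) s * ((b0 + b1) * (b1 + b2)) + U1120 x (t + 1) s * ((b0 + b1) ^ 2))
    (hW12 : W12 = U1201 x (t + 1) s * ((b1 + b2)) + U1210 x (t + 1) s * ((b0 + b1)))
    (hW20 : W20 = U2011 x (t + 1) s * ((b0 + b1) * (b1 + b2)) + U2020 x (t + 1) s * ((b0 + b1) ^ 2))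
    (hW21 : W21 = U2101 x (t + 1) s * ((b1 + b2)) + U2110 x (t + 1) s * ((b0 + b1)))
    (hW30 : W30 = U3001 x (t + 1) s * ((b1 + b2)) + U3010 x (t + 1) s * ((b0 + b1)))
    (hX00 : X00 = U0031 x t s * (b0 ^ 3 * b1))
    (hX01 : X01 = U0121 x t s * (b0 ^ 2 * b1) + U0130 x t s * (b0 ^ 3))
    (hX02 : X02 = U0211 x t s * (b0 * b1) + U0220 x t s * (b0 ^ 2))
    (hX03 : X03 = U0301 x t s * (b1) + U0310 x t s * (b0))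
    (hX10 : X10 = U1021 x t s * (b0 ^ 2 * b1))
    (hX11 : X11 = U1111 x t s * (b0 * b1) + U1120 x t s * (b0 ^ 2))
    (hX12 : X12 = U1201 x t s * (b1) + U1210 x t s * (b0))
    (hX20 : X20 = U2011 x t s * (b0 * b1) + U2020 x t s * (b0 ^ 2))
    (hX21 : X21 = U2101 x t s * (b1) + U2110 x t s * (b0))
    (hX30 : X30 = U3001 x t s * (b1) + U3010 x t s * (b0))
    (hY00 : Y00 = V0040 x t (s + 1) * (b0 ^ 4))
    (hY01 : Y01 = V0121 x t (s + 1) * (b0 ^ 2 * b1) + V0130 x t (s + 1) * (b0 ^ 3))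
    (hY02 : Y02 = V0211 x t (s + 1) * (b0 * b1) + V0220 x t (s + 1) * (b0 ^ 2))
    (hY03 : Y03 = V0301 x t (s + 1) * (b1) + V0310 x t (s + 1) * (b0))
    (hY10 : Y10 = V1030 x t (s + 1) * (b0 ^ 3))
    (hY11 : Y11 = V1111 x t (s + 1) * (b0 * b1) + V1120 x t (s + 1) * (b0 ^ 2))
    (hY12 : Y12 = V1201 x t (s + 1) * (b1) + V1210 x t (s + 1) * (b0))
    (hY20 : Y20 = V2011 x t (s + 1) * (b0 * b1) + V2020 x t (s + 1) * (b0 ^ 2))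
    (hY21 : Y21 = V2101 x t (s + 1) * (b1) + V2110 x t (s + 1) * (b0))
    (hY30 : Y30 = V3001 x t (s + 1) * (b1) + V3010 x t (s + 1) * (b0))
    (hT00 : T00 = V0040 x t s * (b1 ^ 4))
    (hT01 : T01 = V0121 x t s * (b1 ^ 2 * b2) + V0130 x t s * (b1 ^ 3))
    (hT02 : T02 = V0211 x t s * (b1 * b2) + V0220 x t s * (b1 ^ 2))
    (hT03 : T03 = V0301 x t s * (b2) + V0310 x t s * (b1))
    (hT10 : T10 = V1030 x t s * (b1 ^ 3))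
    (hT11 : T11 = V1111 x t s * (b1 * b2) + V1120 x t s * (b1 ^ 2))
    (hT12 : T12 = V1201 x t s * (b2) + V1210 x t s * (b1))
    (hT20 : T20 = V2011 x t s * (b1 * b2) + V2020 x t s * (b1 ^ 2))
    (hT21 : T21 = V2101 x t s * (b2) + V2110 x t s * (b1))
    (hT30 : T30 = V3001 x t s * (b2) + V3010 x t s * (b1))
    (hy2 : y2 = -x * g0 + (1 - 2 * x) * g1 - b1)
    (hym : ym = (1 - 2 * x) * g0 - x * g1 - b0)
    (hga0 : ga0 = A0 * g0 + A1 * g1 + A2)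
    (hga1 : ga1 = B0 * g0 + B1 * g1 + B2)
    (hga2 : ga2 = C0 * g0 + C1 * g1 + C2)
    (hd0 : d0 = D0 * g0 + D1 * g1 + D2)
    (hd1 : d1 = E0 * g0 + E1 * g1 + E2)
    (hd2 : d2 = F0 * g0 + F1 * g1 + F2)
    (hz : z = Z0 * g0 + Z1 * g1 + Z2)
    :
    1080 * x ^ 3 * Brk x t B ga0 ga1 ga2 d0 d1 d2 g0 g1 y2 (g0 * y2 - x * g1 ^ 2) z b0 b1 b2 +
      ((pI0_ x + pI1_ x * (2 * t)) * g0 + pI1q x * (ga0 - B * g0)) * b0 ^ 3 +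
      (pF0_ x + 2 * t * pF1_ x + 4 * t ^ 2 * pF2_ x) * b0 ^ 4 =
    x ^ 2 * U1 x (t + 1) s (g0 + g1) (x * g1 + y2) (b0 + b1) (b1 + b2) -
      U1 x t s g0 (x * g1) b0 b1 + V1 x t (s + 1) ym g0 b0 b1 - V1 x t s (x * g0) g1 b1 b2 := by
  have hc := cert1 x t s κ B b0 b1 b2 A0 A1 A2 B0 B1 B2 C0 C1 C2 D0 D1 D2 E0 E1 E2 F0 F1 F2 Z0 Z1 Z2 W00 W01 W02 W03 W10 W11 W12 W20 W21 W30 X00 X01 X02 X03 X10 X11 X12 X20 X21 X30 Y00 Y01 Y02 Y03 Y10 Y11 Y12 Y20 Y21 Y30 T00 T01 T02 T03 T10 T11 T12 T20 T21 T30 g0 g1 y2 ym hB hb0 hb1 hb2 hA0 hA1 hA2 hB0 hB1 hB2 hC0 hC1 hC2 hD0 hD1 hD2 hE0 hE1 hE2 hF0 hF1 hF2 hZ0 hZ1 hZ2 hW00 hW01 hW02 hW03 hW10 hW11 hW12 hW20 hW21 hW30 hX00 hX01 hX02 hX03 hX10 hX11 hX12 hX20 hX21 hX30 hY00 hY01 hY02 hY03 hY10 hY11 hY12 hY20 hY21 hY30 hT00 hT01 hT02 hT03 hT10 hT11 hT12 hT20 hT21 hT30 hy2 hym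
  rw [hga0, hga1, hga2, hd0, hd1, hd2, hz]
  linear_combination hc

end C1

end Pool.Agent.Helper99.TC
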