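import Mathlib

/-!
# The relation R1: certificate (definitions)
-/

set_option autoImplicit false

namespace Pool.Agent.Helper99.TC

namespace C1

variable {R : Type*} [CommRing R]

def U0031 (x t s : R) : R :=
  (4320 * x ^ 3 - 17280 * x ^ 4) * s ^ 2

def U0121 (x t s : R) : R :=
  (1080 * x ^ 2 - 6480 * x ^ 3 + 8640 * x ^ 4) * s

def U0130 (x t s : R) : R :=
  (46 - 332 * x + 3256 * x ^ 2 - 19684 * x ^ 3 + 32048 * x ^ 4 + 16256 * x ^ 5) * s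
    + (-864 * x + 7020 * x ^ 2 - 31752 * x ^ 3 + 86400 * x ^ 4 - 65664 * x ^ 5) * s ^ 2

def U0211 (x t s : R) : R :=
  (-2160 * x ^ 3 + 8640 * x ^ 4)
    + (3240 * x ^ 2 + 4320 * x ^ 3 - 69120 * x ^ 4) * s
    + (-12960 * x ^ 3 + 51840 * x ^ 4) * s ^ 2

def U0220 (x t s : R) : R :=
  (232 - 2864 * x + 19552 * x ^ 2 - 92608 * x ^ 3 + 157376 * x ^ 4 + 96512 * x ^ 5) * s
    + (-12168 * x + 53460 * x ^ 2 - 53784 * x ^ 3 + 149760 * x ^ 4 - 44928 * x ^ 5) * s ^ 2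
    + (-46 + 332 * x - 3256 * x ^ 2 + 19684 * x ^ 3 - 32048 * x ^ 4 - 16256 * x ^ 5) * t
    + (-720 * x + 12960 * x ^ 2 - 95040 * x ^ 3 + 270720 * x ^ 4 - 207360 * x ^ 5) * t * s
    + (864 * x - 7020 * x ^ 2 + 31752 * x ^ 3 - 86400 * x ^ 4 + 65664 * x ^ 5) * t ^ 2

def U0301 (x t s : R) : R :=
  (-15120 * x ^ 3 + 60480 * x ^ 4)
    + (2160 * x ^ 2 + 10800 * x ^ 3 - 77760 * x ^ 4) * s
    + (-8640 * x ^ 3 + 34560 * x ^ 4) * s ^ 2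

def U0310 (x t s : R) : R :=
  (276 - 4152 * x + 23856 * x ^ 2 - 85704 * x ^ 3 + 131808 * x ^ 4 + 97536 * x ^ 5) * s
    + (-7776 * x + 36180 * x ^ 2 - 11448 * x ^ 3 - 51840 * x ^ 4 + 65664 * x ^ 5) * s ^ 2
    + (-44 + 208 * x - 2144 * x ^ 2 + 14696 * x ^ 3 - 26272 * x ^ 4 - 1024 * x ^ 5) * t
    + (-7200 * x + 38880 * x ^ 2 - 118800 * x ^ 3 + 374400 * x ^ 4 - 241920 * x ^ 5) * t * s
    + (576 * x - 5400 * x ^ 2 + 27648 * x ^ 3 - 74880 * x ^ 4 + 55296 * x ^ 5) * t ^ 2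

def U1021 (x t s : R) : R :=
  (1080 * x ^ 3 - 6480 * x ^ 4 + 8640 * x ^ 5) * s

def U1111 (x t s : R) : R :=
  (-4320 * x ^ 4 + 17280 * x ^ 5)
    + (34 - 854 * x + 7504 * x ^ 2 - 21460 * x ^ 3 + 38348 * x ^ 4 - 115216 * x ^ 5 + 34944 * x ^ 6) * s
    + (864 * x - 7236 * x ^ 2 + 17712 * x ^ 3 - 16848 * x ^ 4 + 31104 * x ^ 5 - 20736 * x ^ 6) * s ^ 2

def U1120 (x t s : R) : R :=
  (1800 * x ^ 2 - 10800 * x ^ 3 + 11880 * x ^ 4 + 10080 * x ^ 5)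
    + (-58 + 858 * x - 7572 * x ^ 2 + 48644 * x ^ 3 - 121332 * x ^ 4 + 11568 * x ^ 5 + 79232 * x ^ 6) * s
    + (2592 * x - 18972 * x ^ 2 + 1296 * x ^ 3 + 275184 * x ^ 4 - 724608 * x ^ 5 + 615168 * x ^ 6) * s ^ 2
    + (-22 - 298 * x + 4412 * x ^ 2 - 9884 * x ^ 3 - 33308 * x ^ 4 + 95632 * x ^ 5 + 48768 * x ^ 6) * t
    + (-864 * x - 108 * x ^ 2 + 116208 * x ^ 3 - 633744 * x ^ 4 + 1040256 * x ^ 5 - 546048 * x ^ 6) * t * s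
    + (-1728 * x + 15768 * x ^ 2 - 77544 * x ^ 3 + 236304 * x ^ 4 - 304128 * x ^ 5 + 131328 * x ^ 6) * t ^ 2

def U1201 (x t s : R) : R :=
  (-34 + 854 * x - 8584 * x ^ 2 + 30100 * x ^ 3 - 49148 * x ^ 4 + 89296 * x ^ 5 - 34944 * x ^ 6)
    + (34 - 1718 * x + 13660 * x ^ 2 - 28372 * x ^ 3 + 18476 * x ^ 4 - 103120 * x ^ 5 + 55680 * x ^ 6) * s
    + (864 * x - 7236 * x ^ 2 + 17712 * x ^ 3 - 16848 * x ^ 4 + 31104 * x ^ 5 - 20736 * x ^ 6) * s ^ 2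

def U1210 (x t s : R) : R :=
  (1440 * x ^ 2 - 10800 * x ^ 3 + 15120 * x ^ 4 + 20160 * x ^ 5)
    + (-264 + 2334 * x - 10608 * x ^ 2 + 83664 * x ^ 3 - 301764 * x ^ 4 + 162672 * x ^ 5 + 230016 * x ^ 6) * s
    + (7416 * x - 79272 * x ^ 2 + 172368 * x ^ 3 + 265824 * x ^ 4 - 739584 * x ^ 5 + 373248 * x ^ 6) * s ^ 2
    + (58 - 618 * x + 6732 * x ^ 2 - 30044 * x ^ 3 + 10932 * x ^ 4 + 85392 * x ^ 5 + 78208 * x ^ 6) * t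
    + (-2304 * x + 7740 * x ^ 2 + 146448 * x ^ 3 - 849600 * x ^ 4 + 1253376 * x ^ 5 - 414720 * x ^ 6) * t * s
    + (-1728 * x + 18288 * x ^ 2 - 105624 * x ^ 3 + 342144 * x ^ 4 - 448128 * x ^ 5 + 165888 * x ^ 6) * t ^ 2

def U2011 (x t s : R) : R :=
  (-2160 * x ^ 5 + 8640 * x ^ 6)
    + (94 * x ^ 2 - 2876 * x ^ 3 + 10864 * x ^ 4 - 2020 * x ^ 5 - 36688 * x ^ 6 + 123776 * x ^ 7) * s
    + (1008 * x ^ 3 - 1080 * x ^ 4 - 31536 * x ^ 5 + 97920 * x ^ 6 - 76032 * x ^ 7) * s ^ 2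

def U2020 (x t s : R) : R :=
  (-180 * x ^ 2 - 2880 * x ^ 3 + 19980 * x ^ 4 - 19800 * x ^ 5 - 10080 * x ^ 6)
    + (6 + 138 * x - 5858 * x ^ 2 + 74680 * x ^ 3 - 348956 * x ^ 4 + 678500 * x ^ 5 - 472432 * x ^ 6 - 416128 * x ^ 7) * s
    + (-864 * x + 2772 * x ^ 2 + 88920 * x ^ 3 - 538704 * x ^ 4 + 1045152 * x ^ 5 - 1277568 * x ^ 6 + 801792 * x ^ 7) * s ^ 2
    + (68 - 428 * x + 7100 * x ^ 2 - 85016 * x ^ 3 + 359400 * x ^ 4 - 622448 * x ^ 5 + 422592 * x ^ 6 + 399872 * x ^ 7) * t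
    + (864 * x + 1764 * x ^ 2 - 152964 * x ^ 3 + 778032 * x ^ 4 - 1304784 * x ^ 5 + 1419264 * x ^ 6 - 781056 * x ^ 7) * t * s
    + (864 * x - 11448 * x ^ 2 + 85320 * x ^ 3 - 295164 * x ^ 4 + 432648 * x ^ 5 - 494208 * x ^ 6 + 286848 * x ^ 7) * t ^ 2

def U2101 (x t s : R) : R :=
  (-34 * x + 760 * x ^ 2 - 4988 * x ^ 3 + 11676 * x ^ 4 - 13648 * x ^ 5 + 66944 * x ^ 6 - 158720 * x ^ 7)
    + (34 * x - 1624 * x ^ 2 + 10856 * x ^ 3 - 29388 * x ^ 4 + 60952 * x ^ 5 - 151328 * x ^ 6 + 255488 * x ^ 7) * s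
    + (864 * x ^ 2 - 6228 * x ^ 3 + 17712 * x ^ 4 - 44064 * x ^ 5 + 94464 * x ^ 6 - 96768 * x ^ 7) * s ^ 2

def U2110 (x t s : R) : R :=
  (-1800 * x ^ 2 + 12240 * x ^ 3 - 14040 * x ^ 4 - 33840 * x ^ 5 + 37440 * x ^ 6)
    + (58 - 366 * x - 1832 * x ^ 2 + 58520 * x ^ 3 - 369164 * x ^ 4 + 927032 * x ^ 5 - 812832 * x ^ 6 - 510976 * x ^ 7) * s
    + (-2592 * x + 17964 * x ^ 2 + 70884 * x ^ 3 - 762048 * x ^ 4 + 1844928 * x ^ 5 - 1840896 * x ^ 6 + 691200 * x ^ 7) * s ^ 2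
    + (16 + 150 * x + 860 * x ^ 2 - 56784 * x ^ 3 + 372788 * x ^ 4 - 864608 * x ^ 5 + 556736 * x ^ 6 + 527872 * x ^ 7) * t
    + (1728 * x + 144 * x ^ 2 - 228780 * x ^ 3 + 1365552 * x ^ 4 - 2799504 * x ^ 5 + 2335104 * x ^ 6 - 601344 * x ^ 7) * t * s
    + (1728 * x - 22896 * x ^ 2 + 155592 * x ^ 3 - 567648 * x ^ 4 + 965952 * x ^ 5 - 688896 * x ^ 6 + 165888 * x ^ 7) * t ^ 2

def U3001 (x t s : R) : R :=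
  (-2 * x ^ 3 - 164 * x ^ 4 + 508 * x ^ 5 + 884 * x ^ 6 + 5744 * x ^ 7 - 25600 * x ^ 8)
    + (2 * x ^ 3 + 452 * x ^ 4 - 2128 * x ^ 5 + 3220 * x ^ 6 - 17264 * x ^ 7 + 35968 * x ^ 8) * s
    + (-288 * x ^ 4 + 1620 * x ^ 5 - 4104 * x ^ 6 + 11520 * x ^ 7 - 10368 * x ^ 8) * s ^ 2

def U3010 (x t s : R) : R :=
  (360 * x ^ 2 + 720 * x ^ 3 - 24480 * x ^ 4 + 76320 * x ^ 5 - 53640 * x ^ 6 + 7200 * x ^ 7)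
    + (-6 - 126 * x + 6134 * x ^ 2 - 86210 * x ^ 3 + 490456 * x ^ 4 - 1340676 * x ^ 5 + 1777244 * x ^ 6 - 475408 * x ^ 7 - 675968 * x ^ 8) * s
    + (864 * x - 4500 * x ^ 2 - 65592 * x ^ 3 + 559800 * x ^ 4 - 1554048 * x ^ 5 + 2055600 * x ^ 6 - 1436544 * x ^ 7 + 449280 * x ^ 8) * s ^ 2
    + (-30 + 260 * x - 6076 * x ^ 2 + 87310 * x ^ 3 - 490740 * x ^ 4 + 1281624 * x ^ 5 - 1570156 * x ^ 6 + 311056 * x ^ 7 + 671872 * x ^ 8) * t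
    + (-864 * x - 36 * x ^ 2 + 128412 * x ^ 3 - 867312 * x ^ 4 + 2176128 * x ^ 5 - 2503008 * x ^ 6 + 1511424 * x ^ 7 - 428544 * x ^ 8) * t * s
    + (-576 * x + 10008 * x ^ 2 - 82656 * x ^ 3 + 357336 * x ^ 4 - 764640 * x ^ 5 + 771264 * x ^ 6 - 499968 * x ^ 7 + 202752 * x ^ 8) * t ^ 2

def V0040 (x t s : R) : R :=
  (-92 * x ^ 2 + 1744 * x ^ 3 - 8672 * x ^ 4 + 30728 * x ^ 5 - 64096 * x ^ 6 - 32512 * x ^ 7) * s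
    + (3240 * x ^ 3 - 17280 * x ^ 4 + 17280 * x ^ 5) * s ^ 2

def V0121 (x t s : R) : R :=
  (2160 * x ^ 4 - 6480 * x ^ 5 - 8640 * x ^ 6)

def V0130 (x t s : R) : R :=
  (50 * x ^ 2 - 1660 * x ^ 3 + 13760 * x ^ 4 - 66380 * x ^ 5 + 124600 * x ^ 6 + 56800 * x ^ 7)
    + (160 * x ^ 2 - 20576 * x ^ 3 + 91840 * x ^ 4 - 88648 * x ^ 5 + 162560 * x ^ 6 - 6016 * x ^ 7) * s
    + (-720 * x ^ 3 + 2160 * x ^ 4 + 17280 * x ^ 5 - 57600 * x ^ 6) * s ^ 2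
    + (50 * x ^ 2 - 1660 * x ^ 3 + 11960 * x ^ 4 - 59900 * x ^ 5 + 130000 * x ^ 6 + 46720 * x ^ 7) * t
    + (-16776 * x ^ 3 + 72360 * x ^ 4 - 36288 * x ^ 5 + 74880 * x ^ 6 - 55296 * x ^ 7) * t * s

def V0211 (x t s : R) : R :=
  (34 * x ^ 2 - 854 * x ^ 3 + 6424 * x ^ 4 + 2660 * x ^ 5 - 99892 * x ^ 6 + 123464 * x ^ 7 + 24864 * x ^ 8)
    + (-34 * x ^ 2 + 1718 * x ^ 3 - 15820 * x ^ 4 + 6772 * x ^ 5 + 178084 * x ^ 6 - 199280 * x ^ 7 - 55680 * x ^ 8) * s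
    + (-864 * x ^ 3 + 7236 * x ^ 4 - 4752 * x ^ 5 - 60912 * x ^ 6 + 72576 * x ^ 7 + 20736 * x ^ 8) * s ^ 2

def V0220 (x t s : R) : R :=
  (70 * x ^ 2 + 26900 * x ^ 3 - 176884 * x ^ 4 + 454740 * x ^ 5 - 918020 * x ^ 6 + 824488 * x ^ 7 - 402016 * x ^ 8 + 556032 * x ^ 9)
    + (-214 * x ^ 2 - 6130 * x ^ 3 + 61616 * x ^ 4 - 297932 * x ^ 5 + 832852 * x ^ 6 - 710768 * x ^ 7 - 34944 * x ^ 8) * s
    + (10656 * x ^ 3 - 45144 * x ^ 4 + 51408 * x ^ 5 - 219312 * x ^ 6 + 210816 * x ^ 7 + 20736 * x ^ 8) * s ^ 2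
    + (36 * x ^ 2 + 51874 * x ^ 3 - 330836 * x ^ 4 + 813664 * x ^ 5 - 1663372 * x ^ 6 + 1729616 * x ^ 7 - 1145728 * x ^ 8 + 777216 * x ^ 9) * t
    + (-10368 * x ^ 3 + 87156 * x ^ 4 - 346464 * x ^ 5 + 751248 * x ^ 6 - 390528 * x ^ 7 + 20736 * x ^ 8) * t * s
    + (24120 * x ^ 3 - 146988 * x ^ 4 + 360504 * x ^ 5 - 849024 * x ^ 6 + 1026432 * x ^ 7 - 718848 * x ^ 8 + 221184 * x ^ 9) * t ^ 2

def V0301 (x t s : R) : R :=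
  (-34 * x ^ 2 + 888 * x ^ 3 - 9532 * x ^ 4 + 27252 * x ^ 5 + 6568 * x ^ 6 - 38244 * x ^ 7 - 1928 * x ^ 8 - 121216 * x ^ 9 + 98176 * x ^ 10)
    + (34 * x ^ 2 - 1752 * x ^ 3 + 17632 * x ^ 4 - 40608 * x ^ 5 - 51352 * x ^ 6 + 163848 * x ^ 7 - 146824 * x ^ 8 + 252832 * x ^ 9 - 163840 * x ^ 10) * s
    + (864 * x ^ 3 - 8100 * x ^ 4 + 17316 * x ^ 5 + 25704 * x ^ 6 - 115884 * x ^ 7 + 164232 * x ^ 8 - 141696 * x ^ 9 + 65664 * x ^ 10) * s ^ 2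

def V0310 (x t s : R) : R :=
  (30 * x ^ 2 - 10650 * x ^ 3 + 92604 * x ^ 4 - 326136 * x ^ 5 + 676620 * x ^ 6 - 811812 * x ^ 7 + 530712 * x ^ 8 - 759552 * x ^ 9 + 468864 * x ^ 10)
    + (34 * x ^ 2 - 3610 * x ^ 3 + 2184 * x ^ 4 + 131012 * x ^ 5 - 485076 * x ^ 6 + 599992 * x ^ 7 - 64392 * x ^ 8 + 197536 * x ^ 9 - 163840 * x ^ 10) * s
    + (864 * x ^ 3 - 16092 * x ^ 4 + 59076 * x ^ 5 - 12312 * x ^ 6 - 115884 * x ^ 7 + 145800 * x ^ 8 - 141696 * x ^ 9 + 65664 * x ^ 10) * s ^ 2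
    + (64 * x ^ 2 - 20178 * x ^ 3 + 180544 * x ^ 4 - 624756 * x ^ 5 + 1271252 * x ^ 6 - 1913112 * x ^ 7 + 1761536 * x ^ 8 - 1265024 * x ^ 9 + 518144 * x ^ 10) * t
    + (-2088 * x ^ 3 - 17748 * x ^ 4 + 179460 * x ^ 5 - 402264 * x ^ 6 + 434304 * x ^ 7 - 91008 * x ^ 8 - 55296 * x ^ 9) * t * s
    + (-8640 * x ^ 3 + 78408 * x ^ 4 - 272448 * x ^ 5 + 616320 * x ^ 6 - 1177344 * x ^ 7 + 1207296 * x ^ 8 - 626688 * x ^ 9 + 147456 * x ^ 10) * t ^ 2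

def V1030 (x t s : R) : R :=
  (-360 * x ^ 3 + 3240 * x ^ 5 + 10080 * x ^ 6)
    + (-160 * x + 1640 * x ^ 2 - 2200 * x ^ 3 + 9160 * x ^ 4 - 53120 * x ^ 5 - 49280 * x ^ 6) * s
    + (2520 * x ^ 2 - 23760 * x ^ 3 + 69120 * x ^ 4 - 57600 * x ^ 5) * s ^ 2

def V1111 (x t s : R) : R :=
  (34 * x - 854 * x ^ 2 + 8584 * x ^ 3 - 25060 * x ^ 4 - 7012 * x ^ 5 + 59744 * x ^ 6 + 14784 * x ^ 7)
    + (-34 * x + 1718 * x ^ 2 - 13660 * x ^ 3 + 33772 * x ^ 4 + 18244 * x ^ 5 - 130160 * x ^ 6 - 55680 * x ^ 7) * s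
    + (-864 * x ^ 2 + 7236 * x ^ 3 - 18792 * x ^ 4 - 432 * x ^ 5 + 55296 * x ^ 6 + 20736 * x ^ 7) * s ^ 2

def V1120 (x t s : R) : R :=
  (-34 + 1254 * x - 6832 * x ^ 2 - 37340 * x ^ 3 + 191588 * x ^ 4 - 148640 * x ^ 5 + 543984 * x ^ 6 - 361664 * x ^ 7 + 1112064 * x ^ 8)
    + (34 - 1752 * x + 6810 * x ^ 2 + 49444 * x ^ 3 - 299616 * x ^ 4 + 490692 * x ^ 5 - 413168 * x ^ 6 - 34944 * x ^ 7) * s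
    + (864 * x - 9468 * x ^ 2 + 31428 * x ^ 3 - 58104 * x ^ 4 + 145872 * x ^ 5 - 131328 * x ^ 6 + 20736 * x ^ 7) * s ^ 2
    + (-34 + 1220 * x - 2306 * x ^ 2 - 114612 * x ^ 3 + 509112 * x ^ 4 - 578812 * x ^ 5 + 1230736 * x ^ 6 - 1371776 * x ^ 7 + 1554432 * x ^ 8) * t
    + (-864 * x - 972 * x ^ 2 + 84564 * x ^ 3 - 393336 * x ^ 4 + 521424 * x ^ 5 - 76032 * x ^ 6 + 20736 * x ^ 7) * t * s
    + (3672 * x ^ 2 - 68688 * x ^ 3 + 290304 * x ^ 4 - 428544 * x ^ 5 + 746496 * x ^ 6 - 995328 * x ^ 7 + 442368 * x ^ 8) * t ^ 2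

def V1201 (x t s : R) : R :=
  (-34 * x + 922 * x ^ 2 - 10480 * x ^ 3 + 52576 * x ^ 4 - 103476 * x ^ 5 + 51868 * x ^ 6 + 11592 * x ^ 7 - 274816 * x ^ 8 + 294528 * x ^ 9)
    + (34 * x - 1786 * x ^ 2 + 17284 * x ^ 3 - 71296 * x ^ 4 + 89436 * x ^ 5 + 161864 * x ^ 6 - 373464 * x ^ 7 + 614368 * x ^ 8 - 491520 * x ^ 9) * s
    + (864 * x ^ 2 - 8964 * x ^ 3 + 33120 * x ^ 4 - 19440 * x ^ 5 - 174852 * x ^ 6 + 380952 * x ^ 7 - 369792 * x ^ 8 + 196992 * x ^ 9) * s ^ 2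

def V1210 (x t s : R) : R :=
  (-2330 * x ^ 2 + 58660 * x ^ 3 - 348404 * x ^ 4 + 835916 * x ^ 5 - 968596 * x ^ 6 + 453992 * x ^ 7 - 1501440 * x ^ 8 + 1406592 * x ^ 9)
    + (-166 * x + 1368 * x ^ 2 + 5396 * x ^ 3 + 107704 * x ^ 4 - 879328 * x ^ 5 + 1304152 * x ^ 6 - 237912 * x ^ 7 + 503776 * x ^ 8 - 491520 * x ^ 9) * s
    + (5904 * x ^ 2 - 76140 * x ^ 3 + 262080 * x ^ 4 - 179568 * x ^ 5 - 174852 * x ^ 6 + 325656 * x ^ 7 - 369792 * x ^ 8 + 196992 * x ^ 9) * s ^ 2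
    + (-2398 * x ^ 2 + 88996 * x ^ 3 - 594656 * x ^ 4 + 1588572 * x ^ 5 - 2332936 * x ^ 6 + 2214080 * x ^ 7 - 2664320 * x ^ 8 + 1554432 * x ^ 9) * t
    + (-2520 * x ^ 2 + 26856 * x ^ 3 + 51048 * x ^ 4 - 662112 * x ^ 5 + 745344 * x ^ 6 + 78336 * x ^ 7 - 110592 * x ^ 8) * t * s
    + (29520 * x ^ 3 - 227016 * x ^ 4 + 675648 * x ^ 5 - 1312128 * x ^ 6 + 1741824 * x ^ 7 - 1437696 * x ^ 8 + 442368 * x ^ 9) * t ^ 2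

def V2011 (x t s : R) : R :=
  (-1800 * x ^ 3 + 10800 * x ^ 4 - 11880 * x ^ 5 - 10080 * x ^ 6)

def V2020 (x t s : R) : R :=
  (86 + 132 * x + 2760 * x ^ 2 - 29692 * x ^ 3 + 92052 * x ^ 4 - 236472 * x ^ 5 + 40352 * x ^ 6 + 556032 * x ^ 7)
    + (-86 - 1436 * x + 8704 * x ^ 2 + 860 * x ^ 3 - 29488 * x ^ 4 + 2816 * x ^ 5) * s
    + (864 * x - 540 * x ^ 2 - 47088 * x ^ 3 + 181440 * x ^ 4 - 158976 * x ^ 5) * s ^ 2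
    + (86 - 732 * x + 7620 * x ^ 2 - 19900 * x ^ 3 + 16992 * x ^ 4 - 129984 * x ^ 5 - 226048 * x ^ 6 + 777216 * x ^ 7) * t
    + (-864 * x + 4320 * x ^ 2 + 6912 * x ^ 3 - 51840 * x ^ 4 + 96768 * x ^ 5 - 276480 * x ^ 6 + 221184 * x ^ 7) * t ^ 2

def V2101 (x t s : R) : R :=
  (34 * x - 948 * x ^ 2 + 12456 * x ^ 3 - 57644 * x ^ 4 + 91764 * x ^ 5 - 5976 * x ^ 6 - 185984 * x ^ 7 + 294528 * x ^ 8)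
    + (-34 * x + 1812 * x ^ 2 - 16740 * x ^ 3 + 53324 * x ^ 4 - 11736 * x ^ 5 - 250776 * x ^ 6 + 470240 * x ^ 7 - 491520 * x ^ 8) * s
    + (-864 * x ^ 2 + 8244 * x ^ 3 - 20520 * x ^ 4 - 40068 * x ^ 5 + 248472 * x ^ 6 - 314496 * x ^ 7 + 196992 * x ^ 8) * s ^ 2

def V2110 (x t s : R) : R :=
  (-40 + 814 * x - 3428 * x ^ 2 - 30636 * x ^ 3 + 102212 * x ^ 4 + 133316 * x ^ 5 + 93064 * x ^ 6 - 724224 * x ^ 7 + 1406592 * x ^ 8)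
    + (40 - 408 * x - 5072 * x ^ 2 + 98960 * x ^ 3 - 403016 * x ^ 4 + 544184 * x ^ 5 - 582552 * x ^ 6 + 414944 * x ^ 7 - 491520 * x ^ 8) * s
    + (-2160 * x ^ 2 + 3924 * x ^ 3 + 20952 * x ^ 4 - 40068 * x ^ 5 + 193176 * x ^ 6 - 314496 * x ^ 7 + 196992 * x ^ 8) * s ^ 2
    + (-74 + 1540 * x - 4876 * x ^ 2 - 96864 * x ^ 3 + 459192 * x ^ 4 - 409688 * x ^ 5 + 751616 * x ^ 6 - 1533568 * x ^ 7 + 1554432 * x ^ 8) * t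
    + (-864 * x - 972 * x ^ 2 + 99612 * x ^ 3 - 451656 * x ^ 4 + 494208 * x ^ 5 + 21888 * x ^ 6 - 55296 * x ^ 7) * t * s
    + (3672 * x ^ 2 - 68688 * x ^ 3 + 290304 * x ^ 4 - 428544 * x ^ 5 + 746496 * x ^ 6 - 995328 * x ^ 7 + 442368 * x ^ 8) * t ^ 2

def V3001 (x t s : R) : R :=
  (92 * x ^ 2 - 3760 * x ^ 3 + 18932 * x ^ 4 - 19496 * x ^ 5 - 32384 * x ^ 6 + 98176 * x ^ 7)
    + (-92 * x ^ 2 + 3256 * x ^ 3 - 9752 * x ^ 4 - 24136 * x ^ 5 + 108704 * x ^ 6 - 163840 * x ^ 7) * s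
    + (-1296 * x ^ 3 + 1620 * x ^ 4 + 31752 * x ^ 5 - 86400 * x ^ 6 + 65664 * x ^ 7) * s ^ 2

def V3010 (x t s : R) : R :=
  (46 + 292 * x + 64 * x ^ 2 - 20932 * x ^ 3 + 81716 * x ^ 4 - 151624 * x ^ 5 + 17664 * x ^ 6 + 468864 * x ^ 7)
    + (-46 - 1396 * x + 8892 * x ^ 2 - 1684 * x ^ 3 - 33160 * x ^ 4 - 21960 * x ^ 5 + 108704 * x ^ 6 - 163840 * x ^ 7) * s
    + (864 * x - 3060 * x ^ 2 - 19224 * x ^ 3 + 88020 * x ^ 4 - 52344 * x ^ 5 - 86400 * x ^ 6 + 65664 * x ^ 7) * s ^ 2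
    + (44 - 448 * x + 4440 * x ^ 2 - 11680 * x ^ 3 + 11288 * x ^ 4 - 71616 * x ^ 5 - 134272 * x ^ 6 + 518144 * x ^ 7) * t
    + (-576 * x + 2880 * x ^ 2 + 4608 * x ^ 3 - 34560 * x ^ 4 + 64512 * x ^ 5 - 184320 * x ^ 6 + 147456 * x ^ 7) * t ^ 2

def pI1_ (x : R) : R := -40 + 280 * x - 2400 * x ^ 2 + 12440 * x ^ 3 - 19160 * x ^ 4 + 45600 * x ^ 5 - 131200 * x ^ 6 - 197120 * x ^ 7

def pI0_ (x : R) : R := 120 * x - 1200 * x ^ 2 + 9600 * x ^ 3 - 15480 * x ^ 4 + 12000 * x ^ 5 - 156480 * x ^ 6 - 295680 * x ^ 7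

def pF2_ (x : R) : R := -72 * x + 360 * x ^ 2 + 576 * x ^ 3 - 4320 * x ^ 4 + 8064 * x ^ 5 - 23040 * x ^ 6 + 18432 * x ^ 7

def pF1_ (x : R) : R := 21 - 142 * x + 1590 * x ^ 2 - 4110 * x ^ 3 + 2852 * x ^ 4 - 29184 * x ^ 5 - 45888 * x ^ 6 + 129536 * x ^ 7

def pF0_ (x : R) : R := -40 * x + 776 * x ^ 2 - 2776 * x ^ 3 + 3196 * x ^ 4 - 11216 * x ^ 5 - 24512 * x ^ 6 + 152832 * x ^ 7

def pI1q (x : R) : R := -40 + 120 * x - 1920 * x ^ 2 + 4760 * x ^ 3 - 120 * x ^ 4 + 45120 * x ^ 5 + 49280 * x ^ 6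

/-- U, with y1 = x g1 -/
def U1 (x t s g0 y1 b0 b1 : R) : R :=
  U0031 x t s * (b0 ^ 3 * b1) +
  U0121 x t s * (y1 * b0 ^ 2 * b1) +
  U0130 x t s * (y1 * b0 ^ 3) +
  U0211 x t s * (y1 ^ 2 * b0 * b1) +
  U0220 x t s * (y1 ^ 2 * b0 ^ 2) +
  U0301 x t s * (y1 ^ 3 * b1) +
  U0310 x t s * (y1 ^ 3 * b0) +
  U1021 x t s * (g0 * b0 ^ 2 * b1) +
  U1111 x t s * (g0 * y1 * b0 * b1) +
  U1120 x t s * (g0 * y1 * b0 ^ 2) +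
  U1201 x t s * (g0 * y1 ^ 2 * b1) +
  U1210 x t s * (g0 * y1 ^ 2 * b0) +
  U2011 x t s * (g0 ^ 2 * b0 * b1) +
  U2020 x t s * (g0 ^ 2 * b0 ^ 2) +
  U2101 x t s * (g0 ^ 2 * y1 * b1) +
  U2110 x t s * (g0 ^ 2 * y1 * b0) +
  U3001 x t s * (g0 ^ 3 * b1) +
  U3010 x t s * (g0 ^ 3 * b0)

/-- V, with y0 = x g0 -/
def V1 (x t s y0 g1 b1 b2 : R) : R :=
  V0040 x t s * (b1 ^ 4) +
  V0121 x t s * (g1 * b1 ^ 2 * b2) +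
  V0130 x t s * (g1 * b1 ^ 3) +
  V0211 x t s * (g1 ^ 2 * b1 * b2) +
  V0220 x t s * (g1 ^ 2 * b1 ^ 2) +
  V0301 x t s * (g1 ^ 3 * b2) +
  V0310 x t s * (g1 ^ 3 * b1) +
  V1030 x t s * (y0 * b1 ^ 3) +
  V1111 x t s * (y0 * g1 * b1 * b2) +
  V1120 x t s * (y0 * g1 * b1 ^ 2) +
  V1201 x t s * (y0 * g1 ^ 2 * b2) +
  V1210 x t s * (y0 * g1 ^ 2 * b1) +
  V2011 x t s * (y0 ^ 2 * b1 * b2) +
  V2020 x t s * (y0 ^ 2 * b1 ^ 2) +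
  V2101 x t s * (y0 ^ 2 * g1 * b2) +
  V2110 x t s * (y0 ^ 2 * g1 * b1) +
  V3001 x t s * (y0 ^ 3 * b2) +
  V3010 x t s * (y0 ^ 3 * b1)

/-- x² B² detN -/
def N2 (x ga0 ga1 ga2 g0 g1 y2 b0 b1 b2 : R) : R :=
  (x * ga0 * ga2 - x ^ 2 * ga1 ^ 2) * (b0 * b2 - b1 ^ 2) -
    (1 - 4 * x) * (x * ga2 * (b2 * g0 ^ 2 - 2 * b1 * g0 * g1 + b0 * g1 ^ 2) -
      2 * x * ga1 * (b2 * x * g0 * g1 - b1 * (g0 * y2 + x * g1 ^ 2) + b0 * g1 * y2) +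
      ga0 * (b2 * x ^ 2 * g1 ^ 2 - 2 * b1 * x * g1 * y2 + b0 * y2 ^ 2)) +
    (1 - 4 * x) ^ 2 * (g0 * y2 - x * g1 ^ 2) ^ 2

/-- B θ (x² B² detN) -/
def dN2 (x ga0 ga1 ga2 d0 d1 d2 g0 g1 y2 e0 e1 f2 b0 b1 b2 : R) : R :=
  ((1 - 4 * x) * x * ga0 * ga2 + x * (d0 * ga2 + ga0 * d2) - 2 * (1 - 4 * x) * x ^ 2 * ga1 ^ 2 -
      2 * x ^ 2 * ga1 * d1) * (b0 * b2 - b1 ^ 2) +
    4 * x * (1 - 4 * x) * (x * ga2 * (b2 * g0 ^ 2 - 2 * b1 * g0 * g1 + b0 * g1 ^ 2) -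
      2 * x * ga1 * (b2 * x * g0 * g1 - b1 * (g0 * y2 + x * g1 ^ 2) + b0 * g1 * y2) +
      ga0 * (b2 * x ^ 2 * g1 ^ 2 - 2 * b1 * x * g1 * y2 + b0 * y2 ^ 2)) -
    (1 - 4 * x) * (((1 - 4 * x) * x * ga2 + x * d2) *
        (b2 * g0 ^ 2 - 2 * b1 * g0 * g1 + b0 * g1 ^ 2) +
      x * ga2 * (2 * b2 * g0 * e0 - 2 * b1 * (e0 * g1 + g0 * e1) + 2 * b0 * g1 * e1) -
      2 * ((1 - 4 * x) * x * ga1 + x * d1) *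
        (b2 * x * g0 * g1 - b1 * (g0 * y2 + x * g1 ^ 2) + b0 * g1 * y2) -
      2 * x * ga1 * (b2 * x * ((1 - 4 * x) * g0 * g1 + e0 * g1 + g0 * e1) -
        b1 * (e0 * y2 + g0 * f2 + (1 - 4 * x) * x * g1 ^ 2 + 2 * x * g1 * e1) +
        b0 * (e1 * y2 + g1 * f2)) +
      d0 * (b2 * x ^ 2 * g1 ^ 2 - 2 * b1 * x * g1 * y2 + b0 * y2 ^ 2) +
      ga0 * (b2 * (2 * (1 - 4 * x) * x ^ 2 * g1 ^ 2 + 2 * x ^ 2 * g1 * e1) -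
        2 * b1 * ((1 - 4 * x) * x * g1 * y2 + x * e1 * y2 + x * g1 * f2) + 2 * b0 * y2 * f2)) -
    8 * x * (1 - 4 * x) ^ 2 * (g0 * y2 - x * g1 ^ 2) ^ 2 +
    2 * (1 - 4 * x) ^ 2 * (g0 * y2 - x * g1 ^ 2) *
      (e0 * y2 + g0 * f2 - (1 - 4 * x) * x * g1 ^ 2 - 2 * x * g1 * e1)

end C1

end Pool.Agent.Helper99.TC
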