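import Pool.Agent.Helper99.TC.R1Brk
import Pool.Agent.Helper99.TC.R1CertW

/-!
# The relation R1: the pointwise identity in power series
-/

set_option autoImplicit false

open PowerSeries

namespace Pool.Agent.Helper99.TC

namespace C1

theorem ga0_eq (t : ℕ) (s : ℤ) : (1 - 4 * X) * G t s =
    (1 - 4 * X + X * ((t : ℚ⟦X⟧) + 2) - (s : ℚ⟦X⟧) + 2 * X * (s : ℚ⟦X⟧)) * g t s +
      (X * (2 * (s : ℚ⟦X⟧) - (t : ℚ⟦X⟧))) * g t (s - 1) + (s : ℚ⟦X⟧) * cb t s := by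
  unfold G
  linear_combination B_th_g0 t s

theorem ga1_eq (t : ℕ) (s : ℤ) : (1 - 4 * X) * G t (s - 1) =
    (X * ((t : ℚ⟦X⟧) - 2 * (s : ℚ⟦X⟧) + 2)) * g t s +
      (1 - 4 * X + X * ((t : ℚ⟦X⟧) + 2) - ((t : ℚ⟦X⟧) - (s : ℚ⟦X⟧) + 1) * (1 - 2 * X)) *
        g t (s - 1) + ((t : ℚ⟦X⟧) - (s : ℚ⟦X⟧) + 1) * cb t (s - 1) := by
  unfold G
  linear_combination B_th_g1 t s

theorem ga2_eq (t : ℕ) (s : ℤ) : (1 - 4 * X) * G t (s - 2) =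
    (X * ((t : ℚ⟦X⟧) - 2 * (s : ℚ⟦X⟧) + 4)) * g t (s - 1) +
      (1 - 4 * X + X * ((t : ℚ⟦X⟧) + 2) - ((t : ℚ⟦X⟧) - (s : ℚ⟦X⟧) + 2) * (1 - 2 * X)) *
        g t (s - 2) + ((t : ℚ⟦X⟧) - (s : ℚ⟦X⟧) + 2) * cb t (s - 2) := by
  unfold G
  linear_combination B_th_g2 t s

theorem th_ga0 (t : ℕ) (s : ℤ) : (1 - 4 * X) * th ((1 - 4 * X) * G t s) =
    (1 - 4 * X) * X * ((t : ℚ⟦X⟧) - 2 + 2 * (s : ℚ⟦X⟧)) * g t s +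
    (1 - 4 * X + X * ((t : ℚ⟦X⟧) + 2) - (s : ℚ⟦X⟧) + 2 * X * (s : ℚ⟦X⟧)) *
      ((1 - 4 * X) * G t s - (1 - 4 * X) * g t s) +
    X * (2 * (s : ℚ⟦X⟧) - (t : ℚ⟦X⟧)) * ((1 - 4 * X) * G t (s - 1)) := by
  have h := ga0_eq t s
  have h2 := congrArg th h
  rw [h2]
  simp only [th_add, th_sub, th_mul (1 - 4 * X + X * ((t : ℚ⟦X⟧) + 2) - (s : ℚ⟦X⟧) +
    2 * X * (s : ℚ⟦X⟧)), th_mul, th_X, th_natCast, th_intCast, th_ofNat, th_one, th_cb]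
  unfold G
  ring

theorem th_ga1 (t : ℕ) (s : ℤ) : (1 - 4 * X) * th ((1 - 4 * X) * G t (s - 1)) =
    X * ((t : ℚ⟦X⟧) - 2 * (s : ℚ⟦X⟧) + 2) * ((1 - 4 * X) * G t s) +
    (1 - 4 * X) * X * (3 * (t : ℚ⟦X⟧) - 2 * (s : ℚ⟦X⟧)) * g t (s - 1) +
    (1 - 4 * X + X * ((t : ℚ⟦X⟧) + 2) - ((t : ℚ⟦X⟧) - (s : ℚ⟦X⟧) + 1) * (1 - 2 * X)) *
      ((1 - 4 * X) * G t (s - 1) - (1 - 4 * X) * g t (s - 1)) := by
  have h := ga1_eq t s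
  have h2 := congrArg th h
  rw [h2]
  simp only [th_add, th_sub, th_mul, th_X, th_natCast, th_intCast, th_ofNat, th_one, th_cb]
  unfold G
  ring

theorem th_ga2 (t : ℕ) (s : ℤ) : (1 - 4 * X) * th ((1 - 4 * X) * G t (s - 2)) =
    X * ((t : ℚ⟦X⟧) - 2 * (s : ℚ⟦X⟧) + 4) * ((1 - 4 * X) * G t (s - 1)) +
    (1 - 4 * X) * X * (3 * (t : ℚ⟦X⟧) - 2 * (s : ℚ⟦X⟧) + 2) * g t (s - 2) +
    (1 - 4 * X + X * ((t : ℚ⟦X⟧) + 2) - ((t : ℚ⟦X⟧) - (s : ℚ⟦X⟧) + 2) * (1 - 2 * X)) *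
      ((1 - 4 * X) * G t (s - 2) - (1 - 4 * X) * g t (s - 2)) := by
  have h := ga2_eq t s
  have h2 := congrArg th h
  rw [h2]
  simp only [th_add, th_sub, th_mul, th_X, th_natCast, th_intCast, th_ofNat, th_one, th_cb]
  unfold G
  ring

/-- the summand -/
noncomputable def T1 (t : ℕ) (s : ℤ) : ℚ⟦X⟧ :=
  1080 * X ^ 5 * (1 - 4 * X) ^ 3 * ((4 + 2 * (t : ℚ⟦X⟧)) * detN t s + th (detN t s)) +
    (pI0_ X * g t s + pI1_ X * (2 * (t : ℚ⟦X⟧) * g t s + th (g t s))) * cb t s ^ 3 +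
    (pF0_ X + 2 * (t : ℚ⟦X⟧) * pF1_ X + 4 * (t : ℚ⟦X⟧) ^ 2 * pF2_ X) * cb t s ^ 4

/-- U -/
noncomputable def UU (t : ℕ) (s : ℤ) : ℚ⟦X⟧ :=
  U1 X (t : ℚ⟦X⟧) (s : ℚ⟦X⟧) (g t s) (X * g t (s - 1)) (cb t s) (cb t (s - 1))

/-- V -/
noncomputable def VV (t : ℕ) (s : ℤ) : ℚ⟦X⟧ :=
  V1 X (t : ℚ⟦X⟧) (s : ℚ⟦X⟧) (X * g t s) (g t (s - 1)) (cb t (s - 1)) (cb t (s - 2))

theorem point (t : ℕ) (s : ℤ) :
    T1 t s = X ^ 2 * UU (t + 1) s - UU t s + (VV t (s + 1) - VV t s) := by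
  obtain ⟨κ, h0, h1, h2⟩ := cb_param t s
  have hc := cert1w (X : ℚ⟦X⟧) (t : ℚ⟦X⟧) (s : ℚ⟦X⟧) κ
    _ (cb t s) (cb t (s - 1)) (cb t (s - 2)) _ _ _ _ _ _ _ _ _ _ _ _ _ _ _ _ _ _ _ _ _ _ _ _ _
    _ _ _ _ _ _ _ _ _ _ _ _ _ _ _ _ _ _ _ _ _ _ _ _ _ _ _ _ _ _ _ _ _ _ _ _
    (g t s) (g t (s - 1)) (X * g t (s - 2)) (X * g t (s + 1))
    ((1 - 4 * X) * G t s) ((1 - 4 * X) * G t (s - 1)) (X * ((1 - 4 * X) * G t (s - 2)))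
    ((1 - 4 * X) * th ((1 - 4 * X) * G t s)) ((1 - 4 * X) * th ((1 - 4 * X) * G t (s - 1)))
    (X * ((1 - 4 * X) * th ((1 - 4 * X) * G t (s - 2))))
    ((1 - 4 * X) * G t s * (X * g t (s - 2)) + g t s * (X * ((1 - 4 * X) * G t (s - 2))) -
      2 * X * g t (s - 1) * ((1 - 4 * X) * G t (s - 1)) +
      (t : ℚ⟦X⟧) * (1 - 4 * X) * (g t s * (X * g t (s - 2)) - X * g t (s - 1) ^ 2))
    rfl h0 h1 h2 rfl rfl rfl rfl rfl rfl rfl rfl rfl rfl rfl rfl rfl rfl rfl rfl rfl rfl rfl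
    rfl rfl rfl rfl rfl rfl rfl rfl rfl rfl rfl rfl rfl rfl rfl rfl rfl rfl rfl rfl rfl rfl
    rfl rfl rfl rfl rfl rfl rfl rfl rfl rfl rfl rfl rfl rfl rfl rfl rfl rfl rfl rfl
    (by linear_combination X_mul_g2 t s) (by linear_combination X_mul_gm t s)
    (by linear_combination ga0_eq t s) (by linear_combination ga1_eq t s)
    (by linear_combination X * ga2_eq t s + (1 - 4 * X + X * ((t : ℚ⟦X⟧) + 2) -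
      ((t : ℚ⟦X⟧) - (s : ℚ⟦X⟧) + 2) * (1 - 2 * X)) * X_mul_g2 t s)
    (by
      rw [th_ga0, ga0_eq, ga1_eq]
      ring)
    (by
      rw [th_ga1, ga0_eq, ga1_eq]
      ring)
    (by
      rw [th_ga2, ga1_eq, ga2_eq]
      linear_combination ((1 - 4 * X) * X * (3 * (t : ℚ⟦X⟧) - 2 * (s : ℚ⟦X⟧) + 2) +
        (1 - 4 * X + X * ((t : ℚ⟦X⟧) + 2) -
          ((t : ℚ⟦X⟧) - (s : ℚ⟦X⟧) + 2) * (1 - 2 * X)) * (X * ((t : ℚ⟦X⟧) + 2) -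
          ((t : ℚ⟦X⟧) - (s : ℚ⟦X⟧) + 2) * (1 - 2 * X))) * X_mul_g2 t s)
    (by
      rw [ga0_eq, ga1_eq, ga2_eq]
      linear_combination ((1 - 4 * X + X * ((t : ℚ⟦X⟧) + 2) - (s : ℚ⟦X⟧) +
        2 * X * (s : ℚ⟦X⟧)) * g t s + (X * (2 * (s : ℚ⟦X⟧) - (t : ℚ⟦X⟧))) * g t (s - 1) +
        (s : ℚ⟦X⟧) * cb t s + (1 - 4 * X + X * ((t : ℚ⟦X⟧) + 2) -
        ((t : ℚ⟦X⟧) - (s : ℚ⟦X⟧) + 2) * (1 - 2 * X)) * g t s +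
        (t : ℚ⟦X⟧) * (1 - 4 * X) * g t s) * X_mul_g2 t s)
  have hN := th_NN ((1 - 4 * X) * G t s) ((1 - 4 * X) * G t (s - 1))
    (X * ((1 - 4 * X) * G t (s - 2))) (g t s) (g t (s - 1)) (X * g t (s - 2))
    (cb t s) (cb t (s - 1)) (cb t (s - 2))
    ((1 - 4 * X) * th ((1 - 4 * X) * G t s)) ((1 - 4 * X) * th ((1 - 4 * X) * G t (s - 1)))
    (X * ((1 - 4 * X) * th ((1 - 4 * X) * G t (s - 2)))) (t : ℚ⟦X⟧)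
    (th_cb _ _) (th_cb _ _) (th_cb _ _) rfl rfl
    (by rw [th_mul X, th_X]; ring)
    (by unfold G; ring) (by unfold G; ring)
    (by rw [th_mul X, th_X]; unfold G; ring)
  rw [← NN_eq] at hN
  have hD : th (X ^ 2 * (1 - 4 * X) ^ 2 * detN t s) =
      2 * X ^ 2 * (1 - 4 * X) ^ 2 * detN t s - 8 * X ^ 3 * (1 - 4 * X) * detN t s +
      X ^ 2 * (1 - 4 * X) ^ 2 * th (detN t s) := by
    simp only [th_mul, th_pow, th_sub, th_X, th_ofNat, th_one]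
    push_cast
    ring
  rw [hD] at hN
  have hq : pI1_ (X : ℚ⟦X⟧) = (1 - 4 * X) * pI1q X := by
    unfold pI1_ pI1q
    ring
  have e1 : s + 1 - 1 = s := by ring
  have e2 : s - 1 - 1 = s - 2 := by ring
  have e3 : s + 1 - 2 = s - 1 := by ring
  unfold T1 UU VV
  rw [g_succ, g_succ, cb_succ, cb_succ, e1, e2, e3, mul_add X (g t (s - 1)) (g t (s - 2))]
  push_cast
  rw [← hN] at hc
  have hG : G t s = g t s + th (g t s) := rfl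
  rw [hG] at hc
  rw [hq] at hc ⊢
  linear_combination hc

end C1

end Pool.Agent.Helper99.TC
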