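import Pool.Agent.Helper99.TC.AESym

/-!
# TC-43: solutions of a recurrence of order two with a dominating exponent have an expansion

Let `y n = p1 n y(n-1) + p2 n y(n-2)` for large `n`, where `Lop 3 D q` is `s(n) - p1(n) s(n-1) - p2(n) s(n-2)` for large `n`, `p2 n → P2`, `|P2| < 1`, `p1 n → 1 - P2`, and let `E` be a formal solution (`symb 3 D q 1 E = 0`, `E 0 = 0`, `E 1 = 1`). Then `y` has the expansion `c * E` for some real `c`.

Proof. Fix `N ≥ 4`. Let `ŷ n = (1/√n) ∑_{i<N} E_i / n^i` (for large `n` it is positive, `ŷ n ~ n^(-3/2)`). It has the exact expansion `IsAE ŷ 0 (E truncated at N) 0`, so by `lop0` the function `r = Lop 3 D q ŷ` has an expansion whose coefficients `symb ... (E truncated) i = symb ... E i = 0` for `i < N`: `√n r(n) = O(log n / n^N)`.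
Let `z n = y n / ŷ n`. Then `z n - z(n-1) = -σ_n (z(n-1) - z(n-2)) + η_n z(n-1)` for large `n`, where `σ_n = p2(n) ŷ(n-2)/ŷ(n) → P2` and `η_n = (p1(n) ŷ(n-1) + p2(n) ŷ(n-2))/ŷ(n) - 1 = - r(n)/ŷ(n) = O(log n · n^(1-N))`. With `|σ_n| ≤ θ < 1`: the differences `d n = z n - z (n-1)` satisfy `|d n| ≤ θ |d(n-1)| + |η_n| |z(n-1)|`.
First `z` is bounded (e.g. `M n = max_{k ≤ n} |z k|`, `|d n| ≤ θ^(n - n0) |d n0| + ∑ θ^(n-k) |η_k| M`, the `|η_k|` are summable: a Gronwall argument), then `|d n| ≤ θ |d(n-1)| + C n^(2-N)`, so `d n = O(n^(2-N))`, so `z` converges to some `c_N` with `z n - c_N = O(n^(3-N))`. Therefore `y n = c_N ŷ_N(n) + O(n^(3/2 - N))`; `c_N = lim n^(3/2) y n` does not depend on `N`.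
So `√n y n = c ∑_{i<N} E_i/n^i + O(n^(2-N))` for all `N`, which gives `IsAE y 0 (c E) 0` (for the order `N'` take `N = N' + 2`, the extra terms are `O(n^(-N'))`).
-/

set_option autoImplicit false

open Filter Asymptotics

namespace Pool.Agent.Helper99.TC

private theorem seq_bounded (z : ℕ → ℝ) (θ C : ℝ) (hθ0 : 0 ≤ θ) (hθ : θ < 1) (hC : 0 ≤ C) (L n0 : ℕ)
    (h : ∀ n, n0 ≤ n → |z (n + 2) - z (n + 1)| ≤
      θ * |z (n + 1) - z n| + C / ((n : ℝ) + 2) ^ (L + 2) * |z (n + 1)|) :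
    ∃ M : ℝ, 0 ≤ M ∧ ∀ n, n0 ≤ n → |z n| ≤ M := by
  have h1θ : 0 < 1 - θ := by linarith
  set A : ℝ := 1 / (1 - θ) with hA
  have hA1 : 1 ≤ A := by
    rw [hA, le_div_iff₀ h1θ]
    linarith
  have hAθ : 1 + A * θ = A := by
    rw [hA]
    field_simp
    ring
  set Φ : ℕ → ℝ := fun n => |z n| + A * |z (n + 1) - z n| with hΦ
  have hΦ0 : ∀ n, 0 ≤ Φ n := fun n => by
    have := abs_nonneg (z n)
    have := abs_nonneg (z (n + 1) - z n)
    simp only [hΦ]
    positivity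
  have hstep : ∀ n, n0 ≤ n → Φ (n + 1) ≤ Φ n * (1 + A * C / ((n : ℝ) + 2) ^ 2) := by
    intro n hn
    have h1 := h n hn
    have h2 : |z (n + 1)| ≤ |z n| + |z (n + 1) - z n| := by
      have := abs_add_le (z n) (z (n + 1) - z n)
      rwa [add_sub_cancel] at this
    have h3 : |z (n + 1)| ≤ Φ n := by
      have := abs_nonneg (z (n + 1) - z n)
      simp only [hΦ]
      nlinarith
    have hn2 : (1 : ℝ) ≤ (n : ℝ) + 2 := by
      have : (0 : ℝ) ≤ n := Nat.cast_nonneg n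
      linarith
    have h4 : C / ((n : ℝ) + 2) ^ (L + 2) ≤ C / ((n : ℝ) + 2) ^ 2 := by
      apply div_le_div_of_nonneg_left hC (by positivity)
      exact pow_le_pow_right₀ hn2 (by omega)
    have h5 : C / ((n : ℝ) + 2) ^ (L + 2) * |z (n + 1)| ≤ C / ((n : ℝ) + 2) ^ 2 * Φ n := by
      apply mul_le_mul h4 h3 (abs_nonneg _)
      positivity
    have h6 : |z (n + 1)| + A * (θ * |z (n + 1) - z n|) ≤ Φ n := by
      simp only [hΦ]
      have : A * (θ * |z (n + 1) - z n|) = (A - 1) * |z (n + 1) - z n| := by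
        have : A * θ = A - 1 := by linarith
        rw [← mul_assoc, this]
      rw [this]
      linarith
    have hA0 : 0 ≤ A := by linarith
    calc Φ (n + 1) = |z (n + 1)| + A * |z (n + 2) - z (n + 1)| := rfl
      _ ≤ |z (n + 1)| + A * (θ * |z (n + 1) - z n| + C / ((n : ℝ) + 2) ^ 2 * Φ n) := by
          gcongr
          linarith
      _ = (|z (n + 1)| + A * (θ * |z (n + 1) - z n|)) + A * C / ((n : ℝ) + 2) ^ 2 * Φ n := by ring
      _ ≤ Φ n + A * C / ((n : ℝ) + 2) ^ 2 * Φ n := by linarith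
      _ = Φ n * (1 + A * C / ((n : ℝ) + 2) ^ 2) := by ring
  have hA0 : 0 ≤ A * C := by positivity
  have hmono : ∀ n, n0 ≤ n → Φ n * Real.exp (A * C / ((n : ℝ) + 1)) ≤
      Φ n0 * Real.exp (A * C / ((n0 : ℝ) + 1)) := by
    intro n hn
    induction n, hn using Nat.le_induction with
    | base => exact le_rfl
    | succ n hn ih =>
      refine le_trans ?_ ih
      have hn0 : (0 : ℝ) ≤ n := Nat.cast_nonneg n
      have e1 : (1 + A * C / ((n : ℝ) + 2) ^ 2) ≤ Real.exp (A * C / ((n : ℝ) + 2) ^ 2) := by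
        have := Real.add_one_le_exp (A * C / ((n : ℝ) + 2) ^ 2)
        linarith
      have e2 : A * C / ((n : ℝ) + 2) ^ 2 + A * C / ((n : ℝ) + 2) ≤ A * C / ((n : ℝ) + 1) := by
        have : (1 : ℝ) / ((n : ℝ) + 2) ^ 2 + 1 / ((n : ℝ) + 2) ≤ 1 / ((n : ℝ) + 1) := by
          rw [div_add_div _ _ (by positivity) (by positivity), div_le_div_iff₀ (by positivity) (by positivity)]
          nlinarith [mul_nonneg hn0 hn0, mul_nonneg (mul_nonneg hn0 hn0) hn0]
        calc A * C / ((n : ℝ) + 2) ^ 2 + A * C / ((n : ℝ) + 2)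
            = A * C * (1 / ((n : ℝ) + 2) ^ 2 + 1 / ((n : ℝ) + 2)) := by ring
          _ ≤ A * C * (1 / ((n : ℝ) + 1)) := by gcongr
          _ = _ := by ring
      have e3 : ((n + 1 : ℕ) : ℝ) + 1 = (n : ℝ) + 2 := by push_cast; ring
      rw [e3]
      calc Φ (n + 1) * Real.exp (A * C / ((n : ℝ) + 2))
          ≤ (Φ n * Real.exp (A * C / ((n : ℝ) + 2) ^ 2)) * Real.exp (A * C / ((n : ℝ) + 2)) := by
            gcongr
            refine (hstep n hn).trans ?_
            gcongr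
        _ = Φ n * Real.exp (A * C / ((n : ℝ) + 2) ^ 2 + A * C / ((n : ℝ) + 2)) := by
            rw [Real.exp_add]; ring
        _ ≤ Φ n * Real.exp (A * C / ((n : ℝ) + 1)) := by
            gcongr
  refine ⟨Φ n0 * Real.exp (A * C / ((n0 : ℝ) + 1)), by have := hΦ0 n0; positivity, fun n hn => ?_⟩
  have h1 := hmono n hn
  have h2 : |z n| ≤ Φ n := by
    simp only [hΦ]
    have := abs_nonneg (z (n + 1) - z n)
    nlinarith
  have h3 : (1 : ℝ) ≤ Real.exp (A * C / ((n : ℝ) + 1)) := by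
    apply Real.one_le_exp
    positivity
  have h4 := hΦ0 n
  nlinarith

private theorem seq_decay (u : ℕ → ℝ) (hu : ∀ n, 0 ≤ u n) (θ C : ℝ) (hθ0 : 0 ≤ θ) (hθ : θ < 1)
    (L n0 : ℕ)
    (h : ∀ n, n0 ≤ n → u (n + 1) ≤ θ * u n + C / ((n : ℝ) + 2) ^ (L + 2)) :
    ∃ W : ℝ, 0 ≤ W ∧ ∃ n1 : ℕ, n0 ≤ n1 ∧ ∀ n, n1 ≤ n → u n ≤ W / ((n : ℝ) + 1) ^ (L + 2) := by
  set θ' : ℝ := (1 + θ) / 2 with hθ'
  have hθ'1 : θ' < 1 := by rw [hθ']; linarith
  have hθ'0 : θ < θ' := by rw [hθ']; linarith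
  have hlim : Tendsto (fun n : ℕ => θ * (((n : ℝ) + 2) / ((n : ℝ) + 1)) ^ (L + 2)) atTop
      (nhds (θ * 1 ^ (L + 2))) := by
    refine Tendsto.const_mul θ (Tendsto.pow ?_ (L + 2))
    have e : (fun n : ℕ => ((n : ℝ) + 2) / ((n : ℝ) + 1)) = fun n : ℕ => 1 + 1 / ((n : ℝ) + 1) := by
      funext n
      have : (n : ℝ) + 1 ≠ 0 := by positivity
      field_simp
      ring
    rw [e]
    have := tendsto_one_div_add_atTop_nhds_zero_nat (𝕜 := ℝ)
    simpa using this.const_add 1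
  rw [one_pow, mul_one] at hlim
  obtain ⟨n2, hn2⟩ := eventually_atTop.mp (hlim.eventually (gt_mem_nhds hθ'0))
  set n1 := max n0 n2 with hn1
  set w : ℕ → ℝ := fun n => u n * ((n : ℝ) + 1) ^ (L + 2) with hw
  have hw0 : ∀ n, 0 ≤ w n := fun n => mul_nonneg (hu n) (by positivity)
  have hstep : ∀ n, n1 ≤ n → w (n + 1) ≤ θ' * w n + C := by
    intro n hn
    have h1 := h n (le_trans (le_max_left _ _) hn)
    have h2 := (hn2 n (le_trans (le_max_right _ _) hn)).le
    have hp : (0 : ℝ) < ((n : ℝ) + 2) ^ (L + 2) := by positivity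
    have hp' : (0 : ℝ) < ((n : ℝ) + 1) ^ (L + 2) := by positivity
    have e3 : ((n + 1 : ℕ) : ℝ) + 1 = (n : ℝ) + 2 := by push_cast; ring
    calc w (n + 1) = u (n + 1) * ((n : ℝ) + 2) ^ (L + 2) := by simp only [hw, e3]
      _ ≤ (θ * u n + C / ((n : ℝ) + 2) ^ (L + 2)) * ((n : ℝ) + 2) ^ (L + 2) := by gcongr
      _ = (θ * (((n : ℝ) + 2) / ((n : ℝ) + 1)) ^ (L + 2)) * w n + C := by
          simp only [hw]
          rw [div_pow]
          field_simp
      _ ≤ θ' * w n + C := by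
          have := hw0 n
          gcongr
  set W : ℝ := max (w n1) (C / (1 - θ')) with hW
  have hW1 : 0 < 1 - θ' := by linarith
  have hW2 : C ≤ (1 - θ') * W := by
    have : C / (1 - θ') ≤ W := le_max_right _ _
    rwa [div_le_iff₀ hW1, mul_comm] at this
  have hθ'p : 0 ≤ θ' := by linarith
  have hall : ∀ n, n1 ≤ n → w n ≤ W := by
    intro n hn
    induction n, hn using Nat.le_induction with
    | base => exact le_max_left _ _
    | succ n hn ih =>
      have := hstep n hn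
      nlinarith
  refine ⟨W, le_trans (hw0 n1) (le_max_left _ _), n1, le_max_left _ _, fun n hn => ?_⟩
  rw [le_div_iff₀ (by positivity)]
  exact hall n hn

private theorem seq_cauchy (z : ℕ → ℝ) (W : ℝ) (hW : 0 ≤ W) (L n1 : ℕ)
    (h : ∀ n, n1 ≤ n → |z (n + 1) - z n| ≤ W / ((n : ℝ) + 1) ^ (L + 2)) :
    ∃ c : ℝ, ∀ n, n1 + 1 ≤ n → |z n - c| ≤ W / (n : ℝ) ^ (L + 1) := by
  have hkey : ∀ n, n1 + 1 ≤ n → ∀ m, n ≤ m →
      |z m - z n| ≤ W / (n : ℝ) ^ (L + 1) - W / (m : ℝ) ^ (L + 1) := by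
    intro n hn m hm
    induction m, hm using Nat.le_induction with
    | base => simp
    | succ m hm ih =>
      have h1 := h m (by omega)
      have h2 : |z (m + 1) - z n| ≤ |z (m + 1) - z m| + |z m - z n| := abs_sub_le _ _ _
      have hm0 : (0 : ℝ) < m := by exact_mod_cast (by omega : 0 < m)
      have h3 : (1 : ℝ) / ((m : ℝ) + 1) ^ (L + 2) ≤
          1 / (m : ℝ) ^ (L + 1) - 1 / ((m : ℝ) + 1) ^ (L + 1) := by
        set x : ℝ := 1 / (m : ℝ) with hx
        set y : ℝ := 1 / ((m : ℝ) + 1) with hy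
        have hy0 : 0 < y := by positivity
        have hxy : y ≤ x := by
          rw [hx, hy]
          apply one_div_le_one_div_of_le hm0
          linarith
        have hxy2 : y ^ 2 ≤ x - y := by
          rw [hx, hy, div_pow, one_pow, div_sub_div _ _ (by positivity) (by positivity),
            div_le_div_iff₀ (by positivity) (by positivity)]
          nlinarith
        have e1 : (1 : ℝ) / ((m : ℝ) + 1) ^ (L + 2) = y ^ (L + 2) := by rw [hy, div_pow, one_pow]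
        have e2 : (1 : ℝ) / (m : ℝ) ^ (L + 1) = x ^ (L + 1) := by rw [hx, div_pow, one_pow]
        have e3 : (1 : ℝ) / ((m : ℝ) + 1) ^ (L + 1) = y ^ (L + 1) := by rw [hy, div_pow, one_pow]
        rw [e1, e2, e3]
        have hp : y ^ L ≤ x ^ L := pow_le_pow_left₀ hy0.le hxy L
        have hpy : 0 ≤ y ^ L := by positivity
        calc y ^ (L + 2) = y ^ L * y ^ 2 := by ring
          _ ≤ x ^ L * (x - y) := by
              apply mul_le_mul hp hxy2 (by positivity) (by positivity)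
          _ = x ^ (L + 1) - x ^ L * y := by ring
          _ ≤ x ^ (L + 1) - y ^ L * y := by
              have := mul_le_mul_of_nonneg_right hp hy0.le
              linarith
          _ = x ^ (L + 1) - y ^ (L + 1) := by ring
      have h4 : W / ((m : ℝ) + 1) ^ (L + 2) ≤ W / (m : ℝ) ^ (L + 1) - W / ((m : ℝ) + 1) ^ (L + 1) := by
        have := mul_le_mul_of_nonneg_left h3 hW
        calc W / ((m : ℝ) + 1) ^ (L + 2) = W * (1 / ((m : ℝ) + 1) ^ (L + 2)) := by ring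
          _ ≤ W * (1 / (m : ℝ) ^ (L + 1) - 1 / ((m : ℝ) + 1) ^ (L + 1)) := this
          _ = _ := by ring
      push_cast
      linarith
  have hkey' : ∀ n, n1 + 1 ≤ n → ∀ m, n ≤ m → |z m - z n| ≤ W / (n : ℝ) ^ (L + 1) := by
    intro n hn m hm
    have := hkey n hn m hm
    have h2 : 0 ≤ W / (m : ℝ) ^ (L + 1) := by positivity
    linarith
  have hcau : CauchySeq z := by
    rw [Metric.cauchySeq_iff']
    intro ε hε
    have hlim : Tendsto (fun n : ℕ => W / (n : ℝ) ^ (L + 1)) atTop (nhds 0) := by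
      have := tendsto_pow_atTop (α := ℝ) (n := L + 1) (by omega)
      exact Tendsto.div_atTop tendsto_const_nhds (this.comp tendsto_natCast_atTop_atTop)
    obtain ⟨N, hN⟩ := eventually_atTop.mp (hlim.eventually (gt_mem_nhds hε))
    refine ⟨max N (n1 + 1), fun n hn => ?_⟩
    rw [Real.dist_eq]
    exact lt_of_le_of_lt (hkey' _ (le_max_right _ _) n hn) (hN _ (le_max_left _ _))
  obtain ⟨c, hc⟩ := cauchySeq_tendsto_of_complete hcau
  refine ⟨c, fun n hn => ?_⟩
  have h1 : Tendsto (fun m => |z m - z n|) atTop (nhds |c - z n|) := (hc.sub_const _).abs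
  rw [abs_sub_comm]
  exact le_of_tendsto h1 (eventually_atTop.mpr ⟨n, fun m hm => hkey' n hn m hm⟩)

private theorem seq_core (z : ℕ → ℝ) (θ C : ℝ) (hθ0 : 0 ≤ θ) (hθ : θ < 1) (hC : 0 ≤ C) (L n0 : ℕ)
    (h : ∀ n, n0 ≤ n → |z (n + 2) - z (n + 1)| ≤
      θ * |z (n + 1) - z n| + C / ((n : ℝ) + 2) ^ (L + 2) * |z (n + 1)|) :
    ∃ c B : ℝ, 0 ≤ B ∧ ∀ᶠ n : ℕ in atTop, |z n - c| ≤ B / (n : ℝ) ^ (L + 1) := by
  obtain ⟨M, hM0, hM⟩ := seq_bounded z θ C hθ0 hθ hC L n0 h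
  obtain ⟨W, hW0, n1, hn1, hW⟩ := seq_decay (fun n => |z (n + 1) - z n|) (fun n => abs_nonneg _)
    θ (C * M) hθ0 hθ L n0 (by
      intro n hn
      have h1 := h n hn
      have h2 := hM (n + 1) (by omega)
      have h3 : C / ((n : ℝ) + 2) ^ (L + 2) * |z (n + 1)| ≤ C * M / ((n : ℝ) + 2) ^ (L + 2) := by
        calc C / ((n : ℝ) + 2) ^ (L + 2) * |z (n + 1)| ≤ C / ((n : ℝ) + 2) ^ (L + 2) * M := by gcongr
          _ = _ := by ring
      show |z (n + 2) - z (n + 1)| ≤ θ * |z (n + 1) - z n| + C * M / ((n : ℝ) + 2) ^ (L + 2)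
      linarith)
  obtain ⟨c, hc⟩ := seq_cauchy z W hW0 L n1 hW
  exact ⟨c, W, hW0, eventually_atTop.mpr ⟨n1 + 1, hc⟩⟩

private theorem isBigO_pow_log (a : ℝ) (i M : ℕ) (h : M ≤ i) :
    (fun n : ℕ => a / (n : ℝ) ^ i) =O[atTop] (fun n : ℕ => Real.log n / (n : ℝ) ^ M) := by
  refine IsBigO.of_bound |a| ?_
  filter_upwards [eventually_ge_atTop 3] with n hn
  have hn1 : (3 : ℝ) ≤ n := by exact_mod_cast hn
  have hn0 : (1 : ℝ) ≤ n := by linarith
  have hl : 1 ≤ Real.log n := by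
    rw [Real.le_log_iff_exp_le (by linarith)]
    have := Real.exp_one_lt_d9
    linarith
  have hp : (0 : ℝ) < (n : ℝ) ^ M := by positivity
  rw [Real.norm_eq_abs, Real.norm_eq_abs, abs_div, abs_div, abs_of_pos hp,
    abs_of_pos (by positivity : (0 : ℝ) < (n : ℝ) ^ i), abs_of_pos (by linarith : 0 < Real.log n)]
  rw [div_eq_mul_one_div]
  gcongr

private theorem isBigO_pow_pow (a : ℝ) (i M : ℕ) (h : M ≤ i) :
    (fun n : ℕ => a / (n : ℝ) ^ i) =O[atTop] (fun n : ℕ => 1 / (n : ℝ) ^ M) := by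
  refine IsBigO.of_bound |a| ?_
  filter_upwards [eventually_ge_atTop 1] with n hn
  have hn0 : (1 : ℝ) ≤ n := by exact_mod_cast hn
  have hp : (0 : ℝ) < (n : ℝ) ^ M := by positivity
  rw [Real.norm_eq_abs, Real.norm_eq_abs, abs_div, abs_div, abs_of_pos hp, abs_one,
    abs_of_pos (by positivity : (0 : ℝ) < (n : ℝ) ^ i)]
  rw [div_eq_mul_one_div]
  gcongr

/-- truncated coefficients -/
private def trunc (E : ℕ → ℝ) (N i : ℕ) : ℝ := if i < N then E i else 0

private theorem sum_trunc (E : ℕ → ℝ) (N M : ℕ) (h : N ≤ M) (x : ℝ) :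
    ∑ i ∈ Finset.range M, trunc E N i / x ^ i = ∑ i ∈ Finset.range N, E i / x ^ i := by
  rw [← Finset.sum_range_add_sum_Ico _ h]
  have h1 : ∑ i ∈ Finset.Ico N M, trunc E N i / x ^ i = 0 := by
    apply Finset.sum_eq_zero
    intro i hi
    rw [Finset.mem_Ico] at hi
    simp [trunc, not_lt.mpr hi.1]
  rw [h1, add_zero]
  apply Finset.sum_congr rfl
  intro i hi
  rw [Finset.mem_range] at hi
  simp [trunc, hi]

/-- the approximate solution -/
private noncomputable def yh (E : ℕ → ℝ) (N : ℕ) (n : ℕ) : ℝ :=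
  (∑ i ∈ Finset.range N, E i / (n : ℝ) ^ i) / √(n : ℝ)

private theorem yh_isAE (E : ℕ → ℝ) (N : ℕ) :
    IsAE (yh E N) (fun _ => 0) (trunc E N) (fun _ => 0) := by
  intro M
  have e : ∀ᶠ n : ℕ in atTop, √(n : ℝ) * yh E N n -
      ∑ i ∈ Finset.range M, ((0 : ℝ) * Real.log n + trunc E N i + (-1) ^ n * 0) / (n : ℝ) ^ i =
      ∑ i ∈ Finset.Ico M (N + M), trunc E N i / (n : ℝ) ^ i := by
    filter_upwards [eventually_ge_atTop 1] with n hn
    have hn0 : (0 : ℝ) < √(n : ℝ) := Real.sqrt_pos.mpr (by exact_mod_cast hn)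
    have h1 : √(n : ℝ) * yh E N n = ∑ i ∈ Finset.range (N + M), trunc E N i / (n : ℝ) ^ i := by
      rw [sum_trunc E N (N + M) (by omega), yh]
      field_simp
    rw [h1, ← Finset.sum_range_add_sum_Ico _ (by omega : M ≤ N + M)]
    have h2 : ∑ i ∈ Finset.range M, ((0 : ℝ) * Real.log n + trunc E N i + (-1) ^ n * 0) / (n : ℝ) ^ i
        = ∑ i ∈ Finset.range M, trunc E N i / (n : ℝ) ^ i := by
      apply Finset.sum_congr rfl
      intro i _
      ring
    rw [h2, add_sub_cancel_left]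
  refine IsBigO.congr' ?_ (e.mono fun n hn => hn.symm) EventuallyEq.rfl
  have h3 : (∑ i ∈ Finset.Ico M (N + M), fun n : ℕ => trunc E N i / (n : ℝ) ^ i) =O[atTop]
      (fun n : ℕ => Real.log n / (n : ℝ) ^ M) :=
    IsBigO.sum fun i hi => isBigO_pow_log _ i M (Finset.mem_Ico.mp hi).1
  refine h3.congr_left fun n => ?_
  simp

private theorem symb_trunc (D : ℕ) (q : ℕ → ℕ → ℚ) (E : ℕ → ℝ) (N i : ℕ) (hi : i < N) :
    symb 3 D q 1 (trunc E N) i = symb 3 D q 1 E i := by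
  unfold symb
  apply Finset.sum_congr rfl
  intro j _
  apply Finset.sum_congr rfl
  intro d _
  split_ifs with h
  · congr 1
    unfold Sh
    apply Finset.sum_congr rfl
    intro k hk
    rw [Finset.mem_range] at hk
    have : k < N := by omega
    simp [trunc, this]
  · rfl

private theorem symb_zero (D : ℕ) (q : ℕ → ℕ → ℚ) (e : ℝ) (i : ℕ) :
    symb 3 D q e (fun _ => 0) i = 0 := by
  unfold symb Sh
  simp

private theorem tendsto_nS (E : ℕ → ℝ) (N : ℕ) (hN : 2 ≤ N) (hE0 : E 0 = 0) (hE1 : E 1 = 1) :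
    Tendsto (fun n : ℕ => (n : ℝ) * ∑ i ∈ Finset.range N, E i / (n : ℝ) ^ i) atTop (nhds 1) := by
  obtain ⟨K, rfl⟩ : ∃ K, N = K + 2 := ⟨N - 2, by omega⟩
  have e : ∀ᶠ n : ℕ in atTop, (1 : ℝ) + ∑ i ∈ Finset.range K, E (i + 2) / (n : ℝ) ^ (i + 1) =
      (n : ℝ) * ∑ i ∈ Finset.range (K + 2), E i / (n : ℝ) ^ i := by
    filter_upwards [eventually_ge_atTop 1] with n hn
    have hn0 : (n : ℝ) ≠ 0 := by
      have : 0 < n := hn
      positivity
    rw [Finset.sum_range_succ', Finset.sum_range_succ', hE0, mul_add, mul_add, Finset.mul_sum]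
    simp only [zero_add, hE1, pow_one, pow_zero, zero_div, mul_zero, add_zero]
    rw [mul_one_div_cancel hn0, add_comm]
    congr 1
    apply Finset.sum_congr rfl
    intro i _
    field_simp
    ring
  refine Tendsto.congr' e ?_
  have h0 : nhds (1 : ℝ) = nhds (1 + ∑ i ∈ Finset.range K, (0 : ℝ)) := by simp
  rw [h0]
  refine Tendsto.const_add 1 (tendsto_finsetSum _ fun i _ => ?_)
  exact Tendsto.div_atTop tendsto_const_nhds
    ((tendsto_pow_atTop (α := ℝ) (n := i + 1) (by omega)).comp tendsto_natCast_atTop_atTop)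

private theorem tendsto_ratio :
    Tendsto (fun n : ℕ => (((n : ℝ) + 2) * √((n : ℝ) + 2)) / ((n : ℝ) * √(n : ℝ))) atTop (nhds 1) := by
  have e : ∀ᶠ n : ℕ in atTop, (1 + 2 / (n : ℝ)) * √(1 + 2 / (n : ℝ)) =
      (((n : ℝ) + 2) * √((n : ℝ) + 2)) / ((n : ℝ) * √(n : ℝ)) := by
    filter_upwards [eventually_ge_atTop 1] with n hn
    have hn0 : (0 : ℝ) < n := by exact_mod_cast hn
    have h1 : 1 + 2 / (n : ℝ) = ((n : ℝ) + 2) / n := by field_simp
    rw [h1, Real.sqrt_div (by positivity)]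
    rw [div_mul_div_comm]
  refine Tendsto.congr' e ?_
  have h1 : Tendsto (fun n : ℕ => 1 + 2 / (n : ℝ)) atTop (nhds 1) := by
    have := tendsto_const_div_atTop_nhds_zero_nat (2 : ℝ)
    simpa using this.const_add 1
  have h2 : Tendsto (fun n : ℕ => √(1 + 2 / (n : ℝ))) atTop (nhds 1) := by
    have := (Real.continuous_sqrt.tendsto 1).comp h1
    rw [Real.sqrt_one] at this
    exact this
  simpa using h1.mul h2

private theorem core_step (D : ℕ) (q : ℕ → ℕ → ℚ) (P2 : ℝ) (hP : |P2| < 1)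
    (y p1 p2 : ℕ → ℝ) (h2 : Tendsto p2 atTop (nhds P2))
    (hq : ∀ s : ℕ → ℝ, ∀ᶠ n in atTop, Lop 3 D q s n = s n - p1 n * s (n - 1) - p2 n * s (n - 2))
    (hy : ∀ᶠ n in atTop, y n = p1 n * y (n - 1) + p2 n * y (n - 2))
    (E : ℕ → ℝ) (hE0 : E 0 = 0) (hE1 : E 1 = 1) (hE : ∀ i, symb 3 D q 1 E i = 0) (K : ℕ) :
    ∃ c : ℝ, Tendsto (fun n : ℕ => (n : ℝ) * √(n : ℝ) * y n) atTop (nhds c) ∧
      (fun n : ℕ => √(n : ℝ) * y n - c * ∑ i ∈ Finset.range (K + 4), E i / (n : ℝ) ^ i)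
        =O[atTop] (fun n : ℕ => 1 / (n : ℝ) ^ (K + 2)) := by
  set N := K + 4 with hN
  set w : ℕ → ℝ := yh E N with hw
  set S : ℕ → ℝ := fun n => ∑ i ∈ Finset.range N, E i / (n : ℝ) ^ i with hS
  have hSlim : Tendsto (fun n : ℕ => (n : ℝ) * S n) atTop (nhds 1) :=
    tendsto_nS E N (by omega) hE0 hE1
  have hwS : ∀ n : ℕ, 1 ≤ n → √(n : ℝ) * w n = S n := by
    intro n hn
    have hn0 : (0 : ℝ) < √(n : ℝ) := Real.sqrt_pos.mpr (by exact_mod_cast hn)
    simp only [hw, hS, yh]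
    field_simp
  have hSpos : ∀ᶠ n : ℕ in atTop, 1 / 2 < (n : ℝ) * S n :=
    hSlim.eventually (lt_mem_nhds (by norm_num))
  have hSlt : ∀ᶠ n : ℕ in atTop, (n : ℝ) * S n < 2 :=
    hSlim.eventually (gt_mem_nhds (by norm_num))
  have hwpos : ∀ᶠ n : ℕ in atTop, 0 < w n := by
    filter_upwards [hSpos, eventually_ge_atTop 1] with n h1 hn
    have hn0 : (0 : ℝ) < √(n : ℝ) := Real.sqrt_pos.mpr (by exact_mod_cast hn)
    have hn1 : (0 : ℝ) < (n : ℝ) := by exact_mod_cast hn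
    rw [← hwS n hn] at h1
    by_contra hcon
    push Not at hcon
    have h3 : (n : ℝ) * (√(n : ℝ) * w n) ≤ 0 :=
      mul_nonpos_of_nonneg_of_nonpos hn1.le (mul_nonpos_of_nonneg_of_nonpos hn0.le hcon)
    linarith
  set z : ℕ → ℝ := fun n => y n / w n with hz
  -- the error term
  have hL : (fun n : ℕ => √(n : ℝ) * Lop 3 D q w n) =O[atTop]
      (fun n : ℕ => Real.log n / (n : ℝ) ^ N) := by
    have h1 := ((yh_isAE E N).lop0 3 D q) N
    refine h1.congr_left fun n => ?_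
    have h3 : ∑ i ∈ Finset.range N, ((0 : ℝ) * Real.log n + symb 3 D q 1 (trunc E N) i +
        (-1) ^ n * symb 3 D q (-1) (fun _ => 0) i) / (n : ℝ) ^ i = 0 := by
      apply Finset.sum_eq_zero
      intro i hi
      rw [Finset.mem_range] at hi
      rw [symb_trunc D q E N i hi, hE i, symb_zero]
      simp
    rw [h3, sub_zero]
  obtain ⟨C1, hC1, hLb⟩ := hL.exists_nonneg
  have hη : ∀ᶠ n : ℕ in atTop, |Lop 3 D q w n / w n| ≤ 2 * C1 / (n : ℝ) ^ (K + 2) := by
    filter_upwards [hLb.bound, hSpos, eventually_ge_atTop 1, hwpos] with n h1 h3 hn hw0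
    have hn0 : (0 : ℝ) < √(n : ℝ) := Real.sqrt_pos.mpr (by exact_mod_cast hn)
    have hn1 : (1 : ℝ) ≤ (n : ℝ) := by exact_mod_cast hn
    have hl0 : 0 ≤ Real.log n := Real.log_nonneg hn1
    have hl1 : Real.log n ≤ n := (Real.log_le_sub_one_of_pos (by linarith)).trans (by linarith)
    have e1 : Lop 3 D q w n / w n = (√(n : ℝ) * Lop 3 D q w n) / S n := by
      rw [← hwS n hn]
      field_simp
    have hS0 : 1 / (2 * (n : ℝ)) < S n := by
      rw [div_lt_iff₀ (by positivity)]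
      linarith
    have hS0' : 0 < S n := lt_trans (by positivity) hS0
    rw [e1, abs_div, abs_of_pos hS0', div_le_iff₀ hS0']
    rw [Real.norm_eq_abs, Real.norm_eq_abs, abs_of_nonneg (by positivity : 0 ≤ Real.log n / (n : ℝ) ^ N)] at h1
    have hN' : N = (K + 2) + 2 := by omega
    calc |√(n : ℝ) * Lop 3 D q w n| ≤ C1 * (Real.log n / (n : ℝ) ^ N) := h1
      _ ≤ C1 * ((n : ℝ) / (n : ℝ) ^ N) := by gcongr
      _ = 2 * C1 / (n : ℝ) ^ (K + 2) * (1 / (2 * (n : ℝ))) := by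
          rw [hN', pow_add (n : ℝ) (K + 2) 2]
          field_simp
      _ ≤ 2 * C1 / (n : ℝ) ^ (K + 2) * S n := by gcongr
  -- the ratio
  have hrat : Tendsto (fun n : ℕ => p2 (n + 2) * (w n / w (n + 2))) atTop (nhds P2) := by
    have t1 : Tendsto (fun n : ℕ => p2 (n + 2)) atTop (nhds P2) := h2.comp (tendsto_add_atTop_nat 2)
    have t2 : Tendsto (fun n : ℕ => ((n + 2 : ℕ) : ℝ) * S (n + 2)) atTop (nhds 1) :=
      hSlim.comp (tendsto_add_atTop_nat 2)
    have t3 := (hSlim.div t2 one_ne_zero).mul tendsto_ratio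
    have e : ∀ᶠ n : ℕ in atTop, ((n : ℝ) * S n) / (((n + 2 : ℕ) : ℝ) * S (n + 2)) *
        ((((n : ℝ) + 2) * √((n : ℝ) + 2)) / ((n : ℝ) * √(n : ℝ))) = w n / w (n + 2) := by
      filter_upwards [eventually_ge_atTop 1, hwpos, (tendsto_add_atTop_nat 2).eventually hwpos]
        with n hn hw0 hw2
      have hn0 : (0 : ℝ) < √(n : ℝ) := Real.sqrt_pos.mpr (by exact_mod_cast hn)
      have hn1 : (0 : ℝ) < (n : ℝ) := by exact_mod_cast hn
      have hn2 : (0 : ℝ) < √((n : ℝ) + 2) := Real.sqrt_pos.mpr (by positivity)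
      rw [← hwS n hn, ← hwS (n + 2) (by omega)]
      push_cast
      field_simp
    have t4 : Tendsto (fun n : ℕ => w n / w (n + 2)) atTop (nhds 1) := by
      have := t3.congr' e
      simpa using this
    simpa using t1.mul t4
  obtain ⟨θ, hθ1, hθ2⟩ := exists_between hP
  have hθ0 : 0 ≤ θ := le_trans (abs_nonneg _) hθ1.le
  have hb : ∀ᶠ n : ℕ in atTop, |p2 (n + 2) * (w n / w (n + 2))| < θ :=
    hrat.abs.eventually (gt_mem_nhds hθ1)
  have hmain : ∀ᶠ n : ℕ in atTop, |z (n + 2) - z (n + 1)| ≤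
      θ * |z (n + 1) - z n| + 2 * C1 / ((n : ℝ) + 2) ^ (K + 2) * |z (n + 1)| := by
    filter_upwards [hb, hwpos, (tendsto_add_atTop_nat 1).eventually hwpos,
      (tendsto_add_atTop_nat 2).eventually hwpos, (tendsto_add_atTop_nat 2).eventually hη,
      (tendsto_add_atTop_nat 2).eventually hy, (tendsto_add_atTop_nat 2).eventually (hq w)]
      with n g1 g2 g3 g4 g5 g6 g7
    have e2 : n + 2 - 1 = n + 1 := by omega
    have e3 : n + 2 - 2 = n := by omega
    rw [e2, e3] at g6 g7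
    have e1 : z (n + 2) - z (n + 1) = -(p2 (n + 2) * (w n / w (n + 2))) * (z (n + 1) - z n) -
        Lop 3 D q w (n + 2) / w (n + 2) * z (n + 1) := by
      simp only [hz]
      rw [g6, g7]
      field_simp
      ring
    rw [e1]
    refine (abs_sub _ _).trans ?_
    rw [abs_mul, abs_mul, abs_neg]
    have g5' : |Lop 3 D q w (n + 2) / w (n + 2)| ≤ 2 * C1 / ((n : ℝ) + 2) ^ (K + 2) := by
      have := g5
      push_cast at this
      exact this
    gcongr
  obtain ⟨n0, hn0⟩ := eventually_atTop.mp hmain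
  obtain ⟨c, B, hB, hc⟩ := seq_core z θ (2 * C1) hθ0 hθ2 (by positivity) K n0 hn0
  have hzc : Tendsto z atTop (nhds c) := by
    rw [tendsto_iff_norm_sub_tendsto_zero]
    refine squeeze_zero' (Eventually.of_forall fun n => norm_nonneg _) (g := fun n : ℕ => B / (n : ℝ) ^ (K + 1)) ?_ ?_
    · filter_upwards [hc] with n h
      rw [Real.norm_eq_abs]
      exact h
    · exact Tendsto.div_atTop tendsto_const_nhds
        ((tendsto_pow_atTop (α := ℝ) (n := K + 1) (by omega)).comp tendsto_natCast_atTop_atTop)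
  have hyz : ∀ᶠ n : ℕ in atTop, √(n : ℝ) * y n = S n * z n := by
    filter_upwards [eventually_ge_atTop 1, hwpos] with n hn hw0
    rw [← hwS n hn]
    simp only [hz]
    field_simp
  refine ⟨c, ?_, ?_⟩
  · have h3 : Tendsto (fun n : ℕ => ((n : ℝ) * S n) * z n) atTop (nhds (1 * c)) := hSlim.mul hzc
    rw [one_mul] at h3
    refine h3.congr' ?_
    filter_upwards [hyz] with n h
    rw [mul_assoc, ← h, mul_assoc]
  · refine IsBigO.of_bound (2 * B) ?_
    filter_upwards [hyz, hc, hSpos, hSlt, eventually_ge_atTop 1] with n h1 h3 h4 h5 hn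
    have hn1 : (0 : ℝ) < (n : ℝ) := by exact_mod_cast hn
    have e1 : √(n : ℝ) * y n - c * ∑ i ∈ Finset.range N, E i / (n : ℝ) ^ i = S n * (z n - c) := by
      rw [h1]
      simp only [hS]
      ring
    rw [e1, Real.norm_eq_abs, Real.norm_eq_abs, abs_mul,
      abs_of_pos (by positivity : (0 : ℝ) < 1 / (n : ℝ) ^ (K + 2))]
    have h6 : |S n| ≤ 2 / (n : ℝ) := by
      rw [abs_le]
      constructor
      · rw [neg_le_iff_add_nonneg]
        have : 0 < S n := by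
          by_contra hcon
          push Not at hcon
          have := mul_nonpos_of_nonneg_of_nonpos hn1.le hcon
          linarith
        positivity
      · rw [le_div_iff₀ hn1]
        linarith
    calc |S n| * |z n - c| ≤ (2 / (n : ℝ)) * (B / (n : ℝ) ^ (K + 1)) := by gcongr
      _ = 2 * B * (1 / (n : ℝ) ^ (K + 2)) := by
          field_simp
          ring

theorem rec_exp (D : ℕ) (hD : 2 ≤ D) (q : ℕ → ℕ → ℚ) (P2 : ℝ) (hP : |P2| < 1) (y p1 p2 : ℕ → ℝ)
    (h1 : Tendsto p1 atTop (nhds (1 - P2))) (h2 : Tendsto p2 atTop (nhds P2))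
    (hq : ∀ s : ℕ → ℝ, ∀ᶠ n in atTop, Lop 3 D q s n = s n - p1 n * s (n - 1) - p2 n * s (n - 2))
    (hy : ∀ᶠ n in atTop, y n = p1 n * y (n - 1) + p2 n * y (n - 2))
    (E : ℕ → ℝ) (hE0 : E 0 = 0) (hE1 : E 1 = 1) (hE : ∀ i, symb 3 D q 1 E i = 0) :
    ∃ c : ℝ, IsAE y (fun _ => 0) (fun i => c * E i) (fun _ => 0) ∧
      Tendsto (fun n : ℕ => (n : ℝ) * √(n : ℝ) * y n) atTop (nhds c) := by
  obtain ⟨c, hc1, _⟩ := core_step D q P2 hP y p1 p2 h2 hq hy E hE0 hE1 hE 0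
  refine ⟨c, IsAE.of_pos (fun M _ => ?_), hc1⟩
  obtain ⟨c', hc1', hc2'⟩ := core_step D q P2 hP y p1 p2 h2 hq hy E hE0 hE1 hE M
  have hcc : c' = c := tendsto_nhds_unique hc1' hc1
  rw [hcc] at hc2'
  have g1 : (fun n : ℕ => √(n : ℝ) * y n - c * ∑ i ∈ Finset.range (M + 4), E i / (n : ℝ) ^ i)
      =O[atTop] (fun n : ℕ => Real.log n / (n : ℝ) ^ M) :=
    hc2'.trans (isBigO_pow_log 1 (M + 2) M (by omega))
  have g2 : (∑ i ∈ Finset.Ico M (M + 4), fun n : ℕ => (c * E i) / (n : ℝ) ^ i) =O[atTop]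
      (fun n : ℕ => Real.log n / (n : ℝ) ^ M) :=
    IsBigO.sum fun i hi => isBigO_pow_log _ i M (Finset.mem_Ico.mp hi).1
  refine (g1.add g2).congr_left fun n => ?_
  rw [Finset.sum_apply]
  have g3 : c * ∑ i ∈ Finset.range (M + 4), E i / (n : ℝ) ^ i =
      ∑ i ∈ Finset.range M, (c * E i) / (n : ℝ) ^ i +
        ∑ i ∈ Finset.Ico M (M + 4), (c * E i) / (n : ℝ) ^ i := by
    rw [Finset.sum_range_add_sum_Ico _ (by omega : M ≤ M + 4), Finset.mul_sum]
    exact Finset.sum_congr rfl fun i _ => by ring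
  have g4 : ∑ i ∈ Finset.range M, ((0 : ℝ) * Real.log n + c * E i + (-1) ^ n * 0) / (n : ℝ) ^ i =
      ∑ i ∈ Finset.range M, (c * E i) / (n : ℝ) ^ i :=
    Finset.sum_congr rfl fun i _ => by ring
  rw [g3, g4]
  ring

end Pool.Agent.Helper99.TC
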