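import Pool.Agent.Helper99.TC.Rels
import Pool.Agent.Helper99.TC.AESym

/-!
# TC-50: from the differential equation to the recurrence

`coeff_pl`: coefficients of a product with the polynomial `pl l`. `lop_form`: coefficient of `X^n` of `pl l2 * th (th f) + pl l1 * th f + pl l0 * f`, divided by `4^n n²`, for `n ≥ J`: with `(n - j)² / n² = 1 - 2j/n + j²/n²` etc. it is `Lop J 3 (qq l2 l1 l0)` applied to `coeff n f / 4^n`.
`V_rec` is `V_ode` written in this way (coefficients beyond the degree 13 of `vD` vanish; `vC * be` is `lop_form` with `l2 = l1 = []`).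
-/

set_option autoImplicit false

open PowerSeries Filter

namespace Pool.Agent.Helper99.TC

/-- coefficients of the recurrence of the normalised sequence -/
def qq (l2 l1 l0 : List ℤ) (j d : ℕ) : ℚ :=
  (match d with
    | 0 => (l2.getD j 0 : ℚ)
    | 1 => (l1.getD j 0 : ℚ) - 2 * j * (l2.getD j 0 : ℚ)
    | 2 => (l0.getD j 0 : ℚ) - j * (l1.getD j 0 : ℚ) + (j : ℚ) ^ 2 * (l2.getD j 0 : ℚ)
    | _ => 0) / 4 ^ j

theorem coeff_pl (l : List ℤ) (f : ℚ⟦X⟧) (n : ℕ) (hn : l.length ≤ n) :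
    coeff n (pl l * f) = ∑ j ∈ Finset.range l.length, (l.getD j 0 : ℚ) * coeff (n - j) f := by
  induction l generalizing n with
  | nil => simp [pl]
  | cons a l ih =>
    obtain ⟨m, rfl⟩ : ∃ m, n = m + 1 := ⟨n - 1, by simp at hn; omega⟩
    have hm : l.length ≤ m := by simpa using hn
    have h1 : pl (a :: l) = (C (a : ℚ) : ℚ⟦X⟧) + X * pl l := by
      rw [map_intCast]; rfl
    rw [h1, add_mul, map_add, coeff_C_mul, mul_assoc, coeff_succ_X_mul, ih m hm,
      List.length_cons, Finset.sum_range_succ']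
    simp only [List.getD_cons_succ, List.getD_cons_zero, Nat.add_sub_add_right, Nat.sub_zero]
    ring

private theorem coeff_pl' (J : ℕ) (l : List ℤ) (hl : l.length ≤ J) (f : ℚ⟦X⟧) (n : ℕ)
    (hn : J ≤ n) :
    coeff n (pl l * f) = ∑ j ∈ Finset.range J, (l.getD j 0 : ℚ) * coeff (n - j) f := by
  rw [coeff_pl l f n (hl.trans hn)]
  refine Finset.sum_subset (fun j hj => ?_) (fun j _ hj => ?_)
  · rw [Finset.mem_range] at hj ⊢; omega
  · rw [Finset.mem_range, not_lt] at hj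
    rw [List.getD_eq_default _ _ hj]
    simp

private theorem coeff_th (f : ℚ⟦X⟧) (n : ℕ) : coeff n (th f) = (n : ℚ) * coeff n f := by
  rw [th, coeff_mk]

theorem lop_form (J : ℕ) (l2 l1 l0 : List ℤ) (h2 : l2.length ≤ J) (h1 : l1.length ≤ J)
    (h0 : l0.length ≤ J) (f : ℚ⟦X⟧) (n : ℕ) (hn : J ≤ n) (hn0 : 0 < n) :
    ((coeff n (pl l2 * th (th f) + pl l1 * th f + pl l0 * f) : ℚ) : ℝ) / (4 ^ n * (n : ℝ) ^ 2) =
      Lop J 3 (qq l2 l1 l0) (fun n => ((coeff n f : ℚ) : ℝ) / 4 ^ n) n := by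
  rw [map_add, map_add, coeff_pl' J l2 h2 _ n hn, coeff_pl' J l1 h1 _ n hn,
    coeff_pl' J l0 h0 _ n hn, ← Finset.sum_add_distrib, ← Finset.sum_add_distrib]
  unfold Lop
  push_cast
  rw [Finset.sum_div]
  refine Finset.sum_congr rfl fun j hj => ?_
  have hjn : j ≤ n := by rw [Finset.mem_range] at hj; omega
  obtain ⟨m, rfl⟩ : ∃ m, n = m + j := ⟨n - j, by omega⟩
  rw [Nat.add_sub_cancel]
  simp only [coeff_th, Finset.sum_range_succ, Finset.sum_range_zero, qq]
  have hn1 : ((m + j : ℕ) : ℝ) ≠ 0 := by exact_mod_cast hn0.ne'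
  push_cast at hn1 ⊢
  rw [pow_add (4 : ℝ) m j]
  field_simp
  ring

theorem V_rec : ∀ᶠ n : ℕ in atTop,
    Lop 11 3 (qq vA2 vA1 vA0) (fun n => ((coeff n Vser : ℚ) : ℝ) / 4 ^ n) n +
    Lop 16 3 (qq vB2 vB1 vB0) (fun n => ((coeff n Fser : ℚ) : ℝ) / 4 ^ n) n +
    Lop 11 3 (qq [] [] vC) (fun n => ((coeff n be : ℚ) : ℝ) / 4 ^ n) n = 0 := by
  filter_upwards [eventually_ge_atTop 16] with n hn
  rw [← lop_form 11 vA2 vA1 vA0 (by decide) (by decide) (by decide) Vser n (by omega) (by omega),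
    ← lop_form 16 vB2 vB1 vB0 (by decide) (by decide) (by decide) Fser n (by omega) (by omega),
    ← lop_form 11 [] [] vC (by decide) (by decide) (by decide) be n (by omega) (by omega),
    ← add_div, ← add_div]
  have h0 : pl [] = 0 := rfl
  have hD : coeff n (pl vD) = 0 := by
    have h1 := coeff_pl' 14 vD (by decide) 1 n (by omega)
    rw [mul_one] at h1
    rw [h1]
    refine Finset.sum_eq_zero fun j hj => ?_
    rw [Finset.mem_range] at hj
    rw [coeff_one, if_neg (by omega), mul_zero]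
  have h2 := congrArg (coeff n) V_ode
  simp only [map_add, hD, map_zero, add_zero] at h2
  rw [h0]
  simp only [zero_mul, zero_add, map_add]
  have h3 : ((coeff n (pl vA2 * th (th Vser)) + coeff n (pl vA1 * th Vser) +
      coeff n (pl vA0 * Vser) + (coeff n (pl vB2 * th (th Fser)) + coeff n (pl vB1 * th Fser) +
      coeff n (pl vB0 * Fser)) + coeff n (pl vC * be) : ℚ) : ℝ) = 0 := by
    have h4 : (coeff n (pl vA2 * th (th Vser)) + coeff n (pl vA1 * th Vser) +
      coeff n (pl vA0 * Vser) + (coeff n (pl vB2 * th (th Fser)) + coeff n (pl vB1 * th Fser) +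
      coeff n (pl vB0 * Fser)) + coeff n (pl vC * be) : ℚ) = 0 := by
      linarith
    rw [h4, Rat.cast_zero]
  push_cast at h3 ⊢
  rw [h3, zero_div]

/-- the coefficients of `Vser` in terms of the numbers of three-choice polygons:
`v_n / (4^n n) = (t_n/4^n) - (1 - 2/n) (t_(n-1)/4^(n-1))`, and `t_n/4^n = r_(n-2)/16` -/
theorem V_of_r : ∀ᶠ n : ℕ in atTop, ((coeff n Vser : ℚ) : ℝ) / 4 ^ n / n =
    Lop 4 2 (fun j d => if j = 2 ∧ d = 0 then 1 / 16 else if j = 3 ∧ d = 0 then -1 / 16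
      else if j = 3 ∧ d = 1 then 1 / 8 else 0) (fun n => (tc (n + 2) : ℝ) / 4 ^ n) n := by
  filter_upwards [eventually_ge_atTop 4] with n hn
  obtain ⟨m, rfl⟩ : ∃ m, n = m + 3 := ⟨n - 3, by omega⟩
  have hT : ∀ k, 2 ≤ k → coeff k Tser = (tc k : ℚ) := fun k hk => by
    rw [Tser, coeff_mk, if_pos hk]
  have hV : coeff (m + 3) Vser = ((m : ℚ) + 3) * tc (m + 3) - 4 * (m + 1) * tc (m + 2) := by
    have h1 : Vser = th Tser + C (-4 : ℚ) * (X * th Tser) + C (4 : ℚ) * (X * Tser) := by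
      unfold Vser
      have e1 : (C (-4 : ℚ) : ℚ⟦X⟧) = -4 := by
        rw [map_neg]; rfl
      have e2 : (C (4 : ℚ) : ℚ⟦X⟧) = 4 := rfl
      rw [e1, e2]
      ring
    rw [h1, map_add, map_add, coeff_C_mul, coeff_C_mul, coeff_succ_X_mul, coeff_succ_X_mul,
      coeff_th, coeff_th, hT _ (by omega), hT _ (by omega)]
    push_cast
    ring
  rw [hV]
  simp only [Lop, Finset.sum_range_succ, Finset.sum_range_zero]
  have e1 : m + 3 - 2 = m + 1 := by omega
  have e2 : m + 3 - 3 = m := by omega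
  rw [e1, e2]
  have e3 : m + 1 + 2 = m + 3 := by omega
  rw [e3]
  have hm : ((m : ℝ) + 3) ≠ 0 := by positivity
  norm_num
  rw [pow_add, pow_add]
  field_simp
  ring

end Pool.Agent.Helper99.TC
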