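import Pool.Agent.Helper99.TC.R1
import Pool.Agent.Helper99.TC.NSer
import Pool.Agent.Helper99.TC.ListPoly

/-!
# The linear relations between V, I, F, β (helper99; creative telescoping and elimination)
-/

set_option autoImplicit false

open PowerSeries

namespace Pool.Agent.Helper99.TC

namespace El

open LP

def E0_v0 : List ℤ :=
    [0, 540, -2160]

def E0_i1 : List ℤ :=
    [40, -280, 2400, -12440, 19160, -45600, 131200, 197120]

def E0_i0 : List ℤ :=
    [0, -120, 1200, -9600, 15480, -12000, 156480, 295680]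

def E0_f2 : List ℤ :=
    [0, 72, -360, -576, 4320, -8064, 23040, -18432]

def E0_f1 : List ℤ :=
    [-21, 142, -1590, 4110, -2852, 29184, 45888, -129536]

def E0_f0 : List ℤ :=
    [0, 40, -776, 2776, -3196, 11216, 24512, -152832]

def E0_b : List ℤ :=
    [0, 0, -180, -2880, -2340]

def E0_1 : List ℤ :=
    [0, 0, 0, -1080, 6480, -8640]

def E1_v1 : List ℤ :=
    [0, 540, -2160]

def E1_v0 : List ℤ :=
    [0, 540, -4320]

def E1_i2 : List ℤ :=
    [40, -280, 2400, -12440, 19160, -45600, 131200, 197120]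

def E1_i1 : List ℤ :=
    [0, -400, 6000, -46920, 92120, -240000, 943680, 1675520]

def E1_i0 : List ℤ :=
    [0, -120, 2400, -28800, 61920, -60000, 938880, 2069760]

def E1_f3 : List ℤ :=
    [0, 72, -360, -576, 4320, -8064, 23040, -18432]

def E1_f2 : List ℤ :=
    [-21, 214, -2310, 2382, 14428, -11136, 184128, -258560]

def E1_f1 : List ℤ :=
    [0, 182, -3956, 15106, -14604, 157136, 299840, -1059584]

def E1_f0 : List ℤ :=
    [0, 40, -1552, 8328, -12784, 56080, 147072, -1069824]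

def E1_tb : List ℤ :=
    [0, 0, -180, -2880, -2340]

def E1_b : List ℤ :=
    [0, 0, -360, -8640, -9360]

def E1_1 : List ℤ :=
    [0, 0, 0, -3240, 25920, -43200]

def Fo_f3 : List ℤ :=
    [1, 0, -12, 0, -64]

def Fo_f2 : List ℤ :=
    [0, 0, -36, 0, -384]

def Fo_f1 : List ℤ :=
    [0, 0, -40, 0, -752]

def Fo_f0 : List ℤ :=
    [0, 0, -16, 0, -480]

def Bt_tb : List ℤ :=
    [1, -4]

def Bt_b : List ℤ :=
    [0, 2]

def G1_v2 : List ℤ :=
    [60, -480, 3660, -18960, 22080, 42240]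

def G1_v1 : List ℤ :=
    [60, -1020, 4560, -36240, 95520, 105600]

def G1_v0 : List ℤ :=
    [0, -540, -5520, 61920, 28800, -528000]

def G1_i1 : List ℤ :=
    [0, 160, -1120, -2880, 37600, -126400, 444240, -1482080, 2199680]

def G1_i0 : List ℤ :=
    [0, 160, -2240, -8640, 150400, -632000, 2665440, -10374560, 17597440]

def G1_f3 : List ℤ :=
    [12, -141, -24, 2019, 3936, -9636, -77184, 155904, -443904, 943104, -270336]

def G1_f2 : List ℤ :=
    [3, -240, -216, 9597, 12840, -47232, -549408, 1323168, -4515840, 11116032, -3784704]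

def G1_f1 : List ℤ :=
    [0, -219, 16, 14844, -35148, 78856, -841440, 2600640, -9362048, 25473024, -11827200]

def G1_f0 : List ℤ :=
    [0, -120, 704, 12672, -94128, 370580, -1941696, 6844320, -13161472, 16381440, -10137600]

def G1_tb : List ℤ :=
    [0, -40, -820, 2900, -4460, 7660, 5560]

def G1_b : List ℤ :=
    [0, -40, -1640, 8700, -17840, 38300, 33360]

def G1_1 : List ℤ :=
    [0, 0, -720, 11880, -68160, 337200, -1486080, 2352000, 675840]

def cA : List ℤ :=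
    [0, 3, -111, 396, 792]

def cB : List ℤ :=
    [1, -4, 45, -136, -176]

def cE : List ℤ :=
    [1, -4, 90, -272, 1673, -4140, -13904, -7744]

def cF : List ℤ :=
    [0, -72, 648, -4968, 27144, -49248, -24192, 50688]

def cH : List ℤ :=
    [0, 0, 180, 2880, 10440, 137520, 232020, 102960]

def cN : List ℤ :=
    [0, -9]

def dA : List ℤ :=
    [-2, 12, -54, 116, 3510, -20799, 70539, -314748, 864099, -1287865, 2493366, -4165056,
    -8468768]

def dB : List ℤ :=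
    [0, 8, -48, -408, 3280, -3600, -16056, 139296, -1141344, 5200920, -14014400, 35118498,
    -80095848, 94503752]

def dC : List ℤ :=
    [2, -20, -86, 758, -12078, 89100, -350025, 1545504, -5169918, 8574613, -15700792,
    34511120, 55046992]

def dD : List ℤ :=
    [24, -426, 2580, -9792, -10920, 645036, -3721203, 13511949, -76040031, 331018278,
    -966990561, 3334658097, -10608827265, 20465880726, -35568948048, 70541574336,
    -19876132608, -107202568704, 35772076032]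

def dE : List ℤ :=
    [0, -80, -1480, 7560, -53120, 248480, 2382120, -14019860, 64556000, -290163600,
    863570060, -1836383900, 4139885160, -5038194760, 1162561420, -1305131040, -24950015440,
    -11771587520]

def dN : List ℤ :=
    [3, -12, 270, -816, 5019, -12420, -41712, -23232]

theorem polG (v1 v0 i2 i1 i0 f3 f2 f1 f0 tb b : ℚ⟦X⟧)
    (h0 : pl E0_v0 * v0 + pl E0_i1 * i1 + pl E0_i0 * i0 + pl E0_f2 * f2 + pl E0_f1 * f1 + pl E0_f0 * f0 + pl E0_b * b + pl E0_1 = 0)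
    (h1 : pl E1_v1 * v1 + pl E1_v0 * v0 + pl E1_i2 * i2 + pl E1_i1 * i1 + pl E1_i0 * i0 + pl E1_f3 * f3 + pl E1_f2 * f2 + pl E1_f1 * f1 + pl E1_f0 * f0 + pl E1_tb * tb + pl E1_b * b + pl E1_1 = 0)
    (h2 : pl iI2 * i2 + pl iI1 * i1 + pl iI0 * i0 + pl iF2 * f2 + pl iF1 * f1 + pl iF0 * f0 = 0)
    (h3 : pl Fo_f3 * f3 + pl Fo_f2 * f2 + pl Fo_f1 * f1 + pl Fo_f0 * f0 = 0)
    (h4 : pl Bt_tb * tb + pl Bt_b * b = 0)
    : pl cN * (pl gV1 * v1 + pl gV0 * v0 + pl gI * i0 + pl gF2 * f2 + pl gF1 * f1 + pl gF0 * f0 + pl gC * b + pl gD) = 0 := by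
  have k_v1 : pl cB * pl E1_v1 + pl cN * pl gV1 = 0 := by
    rw [← pl_lmul, ← pl_lmul, ← pl_ladd]
    exact pl_lz _ (by decide +kernel)
  have k_v0 : pl cA * pl E0_v0 + pl cB * pl E1_v0 + pl cN * pl gV0 = 0 := by
    rw [← pl_lmul, ← pl_lmul, ← pl_lmul, ← pl_ladd, ← pl_ladd]
    exact pl_lz _ (by decide +kernel)
  have k_i2 : pl cB * pl E1_i2 + pl cE * pl iI2 = 0 := by
    rw [← pl_lmul, ← pl_lmul, ← pl_ladd]
    exact pl_lz _ (by decide +kernel)
  have k_i1 : pl cA * pl E0_i1 + pl cB * pl E1_i1 + pl cE * pl iI1 = 0 := by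
    rw [← pl_lmul, ← pl_lmul, ← pl_lmul, ← pl_ladd, ← pl_ladd]
    exact pl_lz _ (by decide +kernel)
  have k_i0 : pl cA * pl E0_i0 + pl cB * pl E1_i0 + pl cE * pl iI0 + pl cN * pl gI = 0 := by
    rw [← pl_lmul, ← pl_lmul, ← pl_lmul, ← pl_lmul, ← pl_ladd, ← pl_ladd, ← pl_ladd]
    exact pl_lz _ (by decide +kernel)
  have k_f3 : pl cB * pl E1_f3 + pl cF * pl Fo_f3 = 0 := by
    rw [← pl_lmul, ← pl_lmul, ← pl_ladd]
    exact pl_lz _ (by decide +kernel)
  have k_f2 : pl cA * pl E0_f2 + pl cB * pl E1_f2 + pl cE * pl iF2 + pl cF * pl Fo_f2 + pl cN * pl gF2 = 0 := by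
    rw [← pl_lmul, ← pl_lmul, ← pl_lmul, ← pl_lmul, ← pl_lmul, ← pl_ladd, ← pl_ladd, ← pl_ladd, ← pl_ladd]
    exact pl_lz _ (by decide +kernel)
  have k_f1 : pl cA * pl E0_f1 + pl cB * pl E1_f1 + pl cE * pl iF1 + pl cF * pl Fo_f1 + pl cN * pl gF1 = 0 := by
    rw [← pl_lmul, ← pl_lmul, ← pl_lmul, ← pl_lmul, ← pl_lmul, ← pl_ladd, ← pl_ladd, ← pl_ladd, ← pl_ladd]
    exact pl_lz _ (by decide +kernel)
  have k_f0 : pl cA * pl E0_f0 + pl cB * pl E1_f0 + pl cE * pl iF0 + pl cF * pl Fo_f0 + pl cN * pl gF0 = 0 := by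
    rw [← pl_lmul, ← pl_lmul, ← pl_lmul, ← pl_lmul, ← pl_lmul, ← pl_ladd, ← pl_ladd, ← pl_ladd, ← pl_ladd]
    exact pl_lz _ (by decide +kernel)
  have k_tb : pl cB * pl E1_tb + pl cH * pl Bt_tb = 0 := by
    rw [← pl_lmul, ← pl_lmul, ← pl_ladd]
    exact pl_lz _ (by decide +kernel)
  have k_b : pl cA * pl E0_b + pl cB * pl E1_b + pl cH * pl Bt_b + pl cN * pl gC = 0 := by
    rw [← pl_lmul, ← pl_lmul, ← pl_lmul, ← pl_lmul, ← pl_ladd, ← pl_ladd, ← pl_ladd]
    exact pl_lz _ (by decide +kernel)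
  have k_one : pl cA * pl E0_1 + pl cB * pl E1_1 + pl cN * pl gD = 0 := by
    rw [← pl_lmul, ← pl_lmul, ← pl_lmul, ← pl_ladd, ← pl_ladd]
    exact pl_lz _ (by decide +kernel)
  linear_combination -(pl cA * h0 + pl cB * h1 + pl cE * h2 + pl cF * h3 + pl cH * h4) + (k_v1 * v1 + k_v0 * v0 + k_i2 * i2 + k_i1 * i1 + k_i0 * i0 + k_f3 * f3 + k_f2 * f2 + k_f1 * f1 + k_f0 * f0 + k_tb * tb + k_b * b + k_one)

theorem polV (v2 v1 v0 i1 i0 f3 f2 f1 f0 tb b : ℚ⟦X⟧)
    (h0 : pl G1_v2 * v2 + pl G1_v1 * v1 + pl G1_v0 * v0 + pl G1_i1 * i1 + pl G1_i0 * i0 + pl G1_f3 * f3 + pl G1_f2 * f2 + pl G1_f1 * f1 + pl G1_f0 * f0 + pl G1_tb * tb + pl G1_b * b + pl G1_1 = 0)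
    (h1 : pl E0_v0 * v0 + pl E0_i1 * i1 + pl E0_i0 * i0 + pl E0_f2 * f2 + pl E0_f1 * f1 + pl E0_f0 * f0 + pl E0_b * b + pl E0_1 = 0)
    (h2 : pl gV1 * v1 + pl gV0 * v0 + pl gI * i0 + pl gF2 * f2 + pl gF1 * f1 + pl gF0 * f0 + pl gC * b + pl gD = 0)
    (h3 : pl Fo_f3 * f3 + pl Fo_f2 * f2 + pl Fo_f1 * f1 + pl Fo_f0 * f0 = 0)
    (h4 : pl Bt_tb * tb + pl Bt_b * b = 0)
    : pl dN * (pl vA2 * v2 + pl vA1 * v1 + pl vA0 * v0 + pl vB2 * f2 + pl vB1 * f1 + pl vB0 * f0 + pl vC * b + pl vD) = 0 := by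
  have k_v2 : pl dA * pl G1_v2 + pl dN * pl vA2 = 0 := by
    rw [← pl_lmul, ← pl_lmul, ← pl_ladd]
    exact pl_lz _ (by decide +kernel)
  have k_v1 : pl dA * pl G1_v1 + pl dC * pl gV1 + pl dN * pl vA1 = 0 := by
    rw [← pl_lmul, ← pl_lmul, ← pl_lmul, ← pl_ladd, ← pl_ladd]
    exact pl_lz _ (by decide +kernel)
  have k_v0 : pl dA * pl G1_v0 + pl dB * pl E0_v0 + pl dC * pl gV0 + pl dN * pl vA0 = 0 := by
    rw [← pl_lmul, ← pl_lmul, ← pl_lmul, ← pl_lmul, ← pl_ladd, ← pl_ladd, ← pl_ladd]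
    exact pl_lz _ (by decide +kernel)
  have k_i1 : pl dA * pl G1_i1 + pl dB * pl E0_i1 = 0 := by
    rw [← pl_lmul, ← pl_lmul, ← pl_ladd]
    exact pl_lz _ (by decide +kernel)
  have k_i0 : pl dA * pl G1_i0 + pl dB * pl E0_i0 + pl dC * pl gI = 0 := by
    rw [← pl_lmul, ← pl_lmul, ← pl_lmul, ← pl_ladd, ← pl_ladd]
    exact pl_lz _ (by decide +kernel)
  have k_f3 : pl dA * pl G1_f3 + pl dD * pl Fo_f3 = 0 := by
    rw [← pl_lmul, ← pl_lmul, ← pl_ladd]
    exact pl_lz _ (by decide +kernel)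
  have k_f2 : pl dA * pl G1_f2 + pl dB * pl E0_f2 + pl dC * pl gF2 + pl dD * pl Fo_f2 + pl dN * pl vB2 = 0 := by
    rw [← pl_lmul, ← pl_lmul, ← pl_lmul, ← pl_lmul, ← pl_lmul, ← pl_ladd, ← pl_ladd, ← pl_ladd, ← pl_ladd]
    exact pl_lz _ (by decide +kernel)
  have k_f1 : pl dA * pl G1_f1 + pl dB * pl E0_f1 + pl dC * pl gF1 + pl dD * pl Fo_f1 + pl dN * pl vB1 = 0 := by
    rw [← pl_lmul, ← pl_lmul, ← pl_lmul, ← pl_lmul, ← pl_lmul, ← pl_ladd, ← pl_ladd, ← pl_ladd, ← pl_ladd]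
    exact pl_lz _ (by decide +kernel)
  have k_f0 : pl dA * pl G1_f0 + pl dB * pl E0_f0 + pl dC * pl gF0 + pl dD * pl Fo_f0 + pl dN * pl vB0 = 0 := by
    rw [← pl_lmul, ← pl_lmul, ← pl_lmul, ← pl_lmul, ← pl_lmul, ← pl_ladd, ← pl_ladd, ← pl_ladd, ← pl_ladd]
    exact pl_lz _ (by decide +kernel)
  have k_tb : pl dA * pl G1_tb + pl dE * pl Bt_tb = 0 := by
    rw [← pl_lmul, ← pl_lmul, ← pl_ladd]
    exact pl_lz _ (by decide +kernel)
  have k_b : pl dA * pl G1_b + pl dB * pl E0_b + pl dC * pl gC + pl dE * pl Bt_b + pl dN * pl vC = 0 := by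
    rw [← pl_lmul, ← pl_lmul, ← pl_lmul, ← pl_lmul, ← pl_lmul, ← pl_ladd, ← pl_ladd, ← pl_ladd, ← pl_ladd]
    exact pl_lz _ (by decide +kernel)
  have k_one : pl dA * pl G1_1 + pl dB * pl E0_1 + pl dC * pl gD + pl dN * pl vD = 0 := by
    rw [← pl_lmul, ← pl_lmul, ← pl_lmul, ← pl_lmul, ← pl_ladd, ← pl_ladd, ← pl_ladd]
    exact pl_lz _ (by decide +kernel)
  linear_combination -(pl dA * h0 + pl dB * h1 + pl dC * h2 + pl dD * h3 + pl dE * h4) + (k_v2 * v2 + k_v1 * v1 + k_v0 * v0 + k_i1 * i1 + k_i0 * i0 + k_f3 * f3 + k_f2 * f2 + k_f1 * f1 + k_f0 * f0 + k_tb * tb + k_b * b + k_one)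

/-- V in terms of D -/
theorem V_rel : X * (1 - 4 * X) * Vser = be * (2 * X ^ 2 + 2 * X ^ 3 + 2 * X ^ 4) +
    (-(2 * X ^ 2) + 10 * X ^ 3 - 6 * X ^ 4 + 8 * X ^ 5) -
    2 * X ^ 5 * (1 - 4 * X) ^ 3 * (4 * Dser + th Dser) := by
  have hA : (1 - 4 * X) * th (X * al) = X * be - X * (1 - 4 * X) := by
    have h := be_th
    have hs := be_sq
    linear_combination be * h - (th (X * al) + X) * hs
  have hT : (1 - 4 * X) * Tser = 2 * X * be - 2 * X * (1 - 4 * X) + X ^ 2 * (1 - 2 * X - be) -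
      2 * X ^ 4 * (1 - 4 * X) ^ 2 * Dser := by
    have h1 := Tser_eq
    have h2 := Nser_add
    linear_combination (1 - 4 * X) * h1 + 2 * hA + h2
  have hB := th_be
  have hT2 := congrArg th hT
  simp only [th_add, th_sub, th_mul, th_pow, th_X, th_ofNat, th_one] at hT2
  push_cast at hT2
  unfold Vser
  linear_combination X * (1 - 4 * X) * hT2 + 8 * X ^ 2 * hT + (2 * X ^ 2 - X ^ 3) * hB

/-- relation E0 -/
theorem E0 : pl E0_v0 * Vser + pl E0_i1 * th Iser + pl E0_i0 * Iser + pl E0_f2 * th (th Fser) + pl E0_f1 * th Fser + pl E0_f0 * Fser + pl E0_b * be + pl E0_1 = 0 := by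
  have h1 := R1
  have h2 := V_rel
  have q_i1 : pl E0_i1 = -pl pI1 := by
    have : pl E0_i1 = pl (lsmul (-1) pI1) := pl_congr _ _ (by decide +kernel)
    rw [this, pl_lsmul]
    push_cast
    ring
  have q_i0 : pl E0_i0 = -pl pI0 := by
    have : pl E0_i0 = pl (lsmul (-1) pI0) := pl_congr _ _ (by decide +kernel)
    rw [this, pl_lsmul]
    push_cast
    ring
  have q_f2 : pl E0_f2 = -pl pF2 := by
    have : pl E0_f2 = pl (lsmul (-1) pF2) := pl_congr _ _ (by decide +kernel)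
    rw [this, pl_lsmul]
    push_cast
    ring
  have q_f1 : pl E0_f1 = -pl pF1 := by
    have : pl E0_f1 = pl (lsmul (-1) pF1) := pl_congr _ _ (by decide +kernel)
    rw [this, pl_lsmul]
    push_cast
    ring
  have q_f0 : pl E0_f0 = -pl pF0 := by
    have : pl E0_f0 = pl (lsmul (-1) pF0) := pl_congr _ _ (by decide +kernel)
    rw [this, pl_lsmul]
    push_cast
    ring
  have q_v0 : pl E0_v0 = 540 * X * (1 - 4 * X) := by
    simp only [E0_v0, pl_cons, pl_nil]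
    push_cast
    ring
  have q_b : pl E0_b = -(pl pC + 540 * (2 * X ^ 2 + 2 * X ^ 3 + 2 * X ^ 4)) := by
    simp only [E0_b, pC, pl_cons, pl_nil]
    push_cast
    ring
  have q_one : pl E0_1 = -(pl pD + 540 * (-(2 * X ^ 2) + 10 * X ^ 3 - 6 * X ^ 4 + 8 * X ^ 5)) := by
    simp only [E0_1, pD, pl_cons, pl_nil]
    push_cast
    ring
  rw [q_v0, q_i1, q_i0, q_f2, q_f1, q_f0, q_b, q_one]
  linear_combination 540 * h2 - h1

theorem E1 : pl E1_v1 * th Vser + pl E1_v0 * Vser + pl E1_i2 * th (th Iser) + pl E1_i1 * th Iser + pl E1_i0 * Iser + pl E1_f3 * th (th (th Fser)) + pl E1_f2 * th (th Fser) + pl E1_f1 * th Fser + pl E1_f0 * Fser + pl E1_tb * th be + pl E1_b * be + pl E1_1 = 0 := by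
  have h := congrArg th E0
  simp only [th_add, th_mul, th_pl, th_zero] at h
  have q_v1 : pl E1_v1 = pl (E0_v0) := by exact pl_congr _ _ (by decide +kernel)
  have q_v0 : pl E1_v0 = pl (lth E0_v0) := by exact pl_congr _ _ (by decide +kernel)
  have q_i2 : pl E1_i2 = pl (E0_i1) := by exact pl_congr _ _ (by decide +kernel)
  have q_i1 : pl E1_i1 = pl (lth E0_i1) + pl E0_i0 := by rw [← pl_ladd]; exact pl_congr _ _ (by decide +kernel)
  have q_i0 : pl E1_i0 = pl (lth E0_i0) := by exact pl_congr _ _ (by decide +kernel)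
  have q_f3 : pl E1_f3 = pl (E0_f2) := by exact pl_congr _ _ (by decide +kernel)
  have q_f2 : pl E1_f2 = pl (lth E0_f2) + pl E0_f1 := by rw [← pl_ladd]; exact pl_congr _ _ (by decide +kernel)
  have q_f1 : pl E1_f1 = pl (lth E0_f1) + pl E0_f0 := by rw [← pl_ladd]; exact pl_congr _ _ (by decide +kernel)
  have q_f0 : pl E1_f0 = pl (lth E0_f0) := by exact pl_congr _ _ (by decide +kernel)
  have q_tb : pl E1_tb = pl (E0_b) := by exact pl_congr _ _ (by decide +kernel)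
  have q_b : pl E1_b = pl (lth E0_b) := by exact pl_congr _ _ (by decide +kernel)
  have q_one : pl E1_1 = pl (lth E0_1) := by exact pl_congr _ _ (by decide +kernel)
  rw [q_v1, q_v0, q_i2, q_i1, q_i0, q_f3, q_f2, q_f1, q_f0, q_tb, q_b, q_one]
  linear_combination h

theorem Fo' : pl Fo_f3 * th (th (th Fser)) + pl Fo_f2 * th (th Fser) + pl Fo_f1 * th Fser + pl Fo_f0 * Fser = 0 := by
  have h := Fser_ode
  simp only [Fo_f3, Fo_f2, Fo_f1, Fo_f0, pl_cons, pl_nil]
  push_cast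
  linear_combination h

theorem Bt' : pl Bt_tb * th be + pl Bt_b * be = 0 := by
  have h := th_be
  simp only [Bt_tb, Bt_b, pl_cons, pl_nil]
  push_cast
  linear_combination h

theorem cN_ne : pl cN ≠ 0 := by
  intro h0
  have := congrArg (coeff 1) h0
  simp only [cN, pl_cons, pl_nil] at this
  simp at this
  rw [map_ofNat (constantCoeff (R := ℚ)) 9] at this
  norm_num at this

theorem dN_ne : pl dN ≠ 0 := by
  intro h0
  have := congrArg (constantCoeff (R := ℚ)) h0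
  simp only [dN, pl_cons, pl_nil] at this
  simp at this
  rw [map_ofNat (constantCoeff (R := ℚ)) 3] at this
  norm_num at this

theorem G' : pl gV1 * th Vser + pl gV0 * Vser + pl gI * Iser + pl gF2 * th (th Fser) + pl gF1 * th Fser + pl gF0 * Fser + pl gC * be + pl gD = 0 := by
  have h := polG (th Vser) (Vser) (th (th Iser)) (th Iser) (Iser) (th (th (th Fser))) (th (th Fser)) (th Fser) (Fser) (th be) (be) E0 E1 R3 Fo' Bt'
  exact (mul_eq_zero.mp h).resolve_left cN_ne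

theorem G1' : pl G1_v2 * th (th Vser) + pl G1_v1 * th Vser + pl G1_v0 * Vser + pl G1_i1 * th Iser + pl G1_i0 * Iser + pl G1_f3 * th (th (th Fser)) + pl G1_f2 * th (th Fser) + pl G1_f1 * th Fser + pl G1_f0 * Fser + pl G1_tb * th be + pl G1_b * be + pl G1_1 = 0 := by
  have h := congrArg th G'
  simp only [th_add, th_mul, th_pl, th_zero] at h
  have q_v2 : pl G1_v2 = pl (gV1) := by exact pl_congr _ _ (by decide +kernel)
  have q_v1 : pl G1_v1 = pl (lth gV1) + pl gV0 := by rw [← pl_ladd]; exact pl_congr _ _ (by decide +kernel)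
  have q_v0 : pl G1_v0 = pl (lth gV0) := by exact pl_congr _ _ (by decide +kernel)
  have q_i1 : pl G1_i1 = pl (gI) := by exact pl_congr _ _ (by decide +kernel)
  have q_i0 : pl G1_i0 = pl (lth gI) := by exact pl_congr _ _ (by decide +kernel)
  have q_f3 : pl G1_f3 = pl (gF2) := by exact pl_congr _ _ (by decide +kernel)
  have q_f2 : pl G1_f2 = pl (lth gF2) + pl gF1 := by rw [← pl_ladd]; exact pl_congr _ _ (by decide +kernel)
  have q_f1 : pl G1_f1 = pl (lth gF1) + pl gF0 := by rw [← pl_ladd]; exact pl_congr _ _ (by decide +kernel)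
  have q_f0 : pl G1_f0 = pl (lth gF0) := by exact pl_congr _ _ (by decide +kernel)
  have q_tb : pl G1_tb = pl (gC) := by exact pl_congr _ _ (by decide +kernel)
  have q_b : pl G1_b = pl (lth gC) := by exact pl_congr _ _ (by decide +kernel)
  have q_one : pl G1_1 = pl (lth gD) := by exact pl_congr _ _ (by decide +kernel)
  rw [q_v2, q_v1, q_v0, q_i1, q_i0, q_f3, q_f2, q_f1, q_f0, q_tb, q_b, q_one]
  linear_combination h

theorem V' : pl vA2 * th (th Vser) + pl vA1 * th Vser + pl vA0 * Vser + pl vB2 * th (th Fser) + pl vB1 * th Fser + pl vB0 * Fser + pl vC * be + pl vD = 0 := by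
  have h := polV (th (th Vser)) (th Vser) (Vser) (th Iser) (Iser) (th (th (th Fser))) (th (th Fser)) (th Fser) (Fser) (th be) (be) G1' E0 G' Fo' Bt'
  exact (mul_eq_zero.mp h).resolve_left dN_ne

end El

/-- relation of first order -/
theorem G_rel : pl gV1 * th Vser + pl gV0 * Vser + pl gI * Iser + pl gF2 * th (th Fser) +
    pl gF1 * th Fser + pl gF0 * Fser + pl gC * be + pl gD = 0 := El.G'

/-- differential equation of `Vser` -/
theorem V_ode : pl vA2 * th (th Vser) + pl vA1 * th Vser + pl vA0 * Vser +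
    pl vB2 * th (th Fser) + pl vB1 * th Fser + pl vB0 * Fser + pl vC * be + pl vD = 0 := El.V'

end Pool.Agent.Helper99.TC
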