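import Pool.Agent.Helper99.TC.Words

/-!
# TC-8: the periodic functions of a three-choice polygon

The proof is direct: `pos w (k + 1) = pos w k + (w[k]).vec`, `pos w w.length = 0 = pos w 0`, so `k ↦ pos w (k mod length)` satisfies the step rule on ℤ; injectivity mod the length from
`IsTCP.inj`. At an inner vertex the rule `Step.Next` between the two steps gives `NC`: a local maximum of the level is (U or R) followed by (D or L), and the rule leaves only U, L; a local minimum is
(D or L) followed by (U or R) and the rule leaves only D, R.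
-/

set_option autoImplicit false

namespace Pool.Agent.Helper99.TC

theorem pos_zero (w : List Step) : pos w 0 = 0 := by
  simp [pos]

theorem pos_succ (w : List Step) (k : ℕ) (hk : k < w.length) :
    pos w (k + 1) = pos w k + (w[k]).vec := by
  unfold pos
  rw [List.take_add_one, List.getElem?_eq_getElem hk, Option.toList_some, List.map_append,
    List.sum_append, List.map_cons, List.map_nil, List.sum_singleton]

/-- the step after time `k` -/
private theorem step_data {w : List Step} (hw : IsTCP w) (h2 : 0 < w.length) (k : ℤ) :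
    ∃ (r : ℕ) (hr : r < w.length), (r : ℤ) = k % w.length ∧
      pos w (k % w.length).toNat = pos w r ∧
      pos w ((k + 1) % w.length).toNat = pos w r + (w[r]).vec := by
  have hm : (0 : ℤ) < w.length := by exact_mod_cast h2
  have h0 := Int.emod_nonneg k hm.ne'
  have h1 := Int.emod_lt_of_pos k hm
  obtain ⟨r, hr⟩ := Int.eq_ofNat_of_zero_le h0
  have hrl : r < w.length := by
    rw [hr] at h1
    exact_mod_cast h1
  refine ⟨r, hrl, hr.symm, by rw [hr]; rfl, ?_⟩
  rw [← pos_succ w r hrl]
  by_cases hlast : r + 1 < w.length
  · have e : (k + 1) % (w.length : ℤ) = ((r + 1 : ℕ) : ℤ) := by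
      rw [← Int.emod_add_emod, hr]
      push_cast
      exact Int.emod_eq_of_lt (by positivity) (by exact_mod_cast hlast)
    rw [e]
    rfl
  · have e1 : r + 1 = w.length := by omega
    have e : (k + 1) % (w.length : ℤ) = 0 := by
      rw [← Int.emod_add_emod, hr]
      have e2 : (r : ℤ) + 1 = w.length := by exact_mod_cast e1
      show ((r : ℤ) + 1) % (w.length : ℤ) = 0
      rw [e2, Int.emod_self]
    rw [e, e1, hw.closed]
    exact pos_zero w

/-- the step before time `k` -/
private theorem prev_data {w : List Step} (hw : IsTCP w) (h2 : 0 < w.length) (k : ℤ) :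
    ∃ (r : ℕ) (hr : r < w.length), (r : ℤ) = (k - 1) % w.length ∧
      pos w ((k - 1) % w.length).toNat = pos w r ∧
      pos w (k % w.length).toNat = pos w r + (w[r]).vec := by
  have h := step_data hw h2 (k - 1)
  rw [sub_add_cancel] at h
  exact h

/-- two steps which may follow each other give a normal corner -/
private theorem nc_of_steps {w : List Step} {k : ℤ} {s s' : Step} (hn : Step.Next s s')
    (h1 : pos w (k % w.length).toNat = pos w ((k - 1) % w.length).toNat + s.vec)
    (h2 : pos w ((k + 1) % w.length).toNat = pos w (k % w.length).toNat + s'.vec) :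
    NC (Xw w) (lev w) k := by
  have a1 := congrArg Prod.fst h1
  have a2 := congrArg Prod.snd h1
  have b1 := congrArg Prod.fst h2
  have b2 := congrArg Prod.snd h2
  rw [Prod.fst_add] at a1 b1
  rw [Prod.snd_add] at a2 b2
  unfold NC Xw lev
  cases s <;> cases s' <;> simp only [Step.vec, Step.Next] at a1 a2 b1 b2 hn <;>
    first
      | (refine ⟨fun c1 c2 => ⟨?_, ?_⟩, fun c1 c2 => ⟨?_, ?_⟩⟩ <;> omega)
      | exact absurd rfl hn
      | (exfalso; rcases hn with hn | hn <;> cases hn)

theorem cw_of_tcp {w : List Step} (hw : IsTCP w) (h2 : 0 < w.length) :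
    CW w.length (Xw w) (lev w) where
  mpos := h2
  perX k := by
    unfold Xw
    rw [Int.add_emod_right]
  perh k := by
    unfold lev
    rw [Int.add_emod_right]
  step k := by
    obtain ⟨r, hr, -, e1, e2⟩ := step_data hw h2 k
    rw [← e1] at e2
    have a1 := congrArg Prod.fst e2
    have a2 := congrArg Prod.snd e2
    rw [Prod.fst_add] at a1
    rw [Prod.snd_add] at a2
    unfold Xw lev
    generalize w[r] = s at a1 a2
    cases s <;> simp only [Step.vec] at a1 a2
    · left; constructor
      · omega
      · left; omega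
    · right; constructor
      · omega
      · left; omega
    · right; constructor
      · omega
      · right; omega
    · left; constructor
      · omega
      · right; omega
  inj j k h3 h4 := by
    obtain ⟨r, hr, er, e1, -⟩ := step_data hw h2 j
    obtain ⟨r', hr', er', e1', -⟩ := step_data hw h2 k
    unfold Xw at h3
    unfold lev at h4
    rw [e1, e1'] at h3 h4
    have h5 : pos w r = pos w r' := Prod.ext h3 (by omega)
    have h6 := hw.inj r r' hr hr' h5
    have h7 : k ≡ j [ZMOD (w.length : ℤ)] := by
      show k % (w.length : ℤ) = j % w.length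
      rw [← er, ← er', h6]
    exact h7.dvd

theorem nc_of_not_dvd {w : List Step} (hw : IsTCP w) (h2 : 0 < w.length) (k : ℤ)
    (hk : ¬ (w.length : ℤ) ∣ k) : NC (Xw w) (lev w) k := by
  obtain ⟨r, hr, er, e1, e2⟩ := prev_data hw h2 k
  obtain ⟨r', hr', er', e1', e2'⟩ := step_data hw h2 k
  have hm : (0 : ℤ) < w.length := by exact_mod_cast h2
  have hr0 : r' = r + 1 := by
    have h3 : k % (w.length : ℤ) ≠ 0 := fun h => hk (Int.dvd_of_emod_eq_zero h)
    have h4 : (k - 1) % (w.length : ℤ) = k % w.length - 1 := by
      have h5 := Int.emod_lt_of_pos k hm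
      have h6 := Int.emod_nonneg k hm.ne'
      have h7 : k - 1 = (k % (w.length : ℤ) - 1) + w.length * (k / w.length) := by
        have h8 := Int.emod_add_mul_ediv k (w.length : ℤ)
        linarith
      conv_lhs => rw [h7]
      rw [Int.add_mul_emod_self_left]
      exact Int.emod_eq_of_lt (by omega) (by omega)
    omega
  subst hr0
  have hn : Step.Next (w[r]) (w[r + 1]) := List.isChain_iff_getElem.1 hw.chain r hr'
  exact nc_of_steps hn (by rw [e1]; exact e2) (by rw [e1']; exact e2')

theorem nc_of_next {w : List Step} (hw : IsTCP w) (h2 : 0 < w.length)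
    (hn : Step.Next (w[w.length - 1]) (w[0])) (k : ℤ) : NC (Xw w) (lev w) k := by
  by_cases hk : (w.length : ℤ) ∣ k
  · obtain ⟨r, hr, er, e1, e2⟩ := prev_data hw h2 k
    obtain ⟨r', hr', er', e1', e2'⟩ := step_data hw h2 k
    have hm : (0 : ℤ) < w.length := by exact_mod_cast h2
    have h3 : k % (w.length : ℤ) = 0 := Int.emod_eq_zero_of_dvd hk
    have h4 : (k - 1) % (w.length : ℤ) = w.length - 1 := by
      obtain ⟨c, rfl⟩ := hk
      have h5 : (w.length : ℤ) * c - 1 = (w.length - 1) + w.length * (c - 1) := by ring
      rw [h5, Int.add_mul_emod_self_left]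
      exact Int.emod_eq_of_lt (by omega) (by omega)
    have hr1 : r = w.length - 1 := by omega
    have hr2 : r' = 0 := by omega
    subst hr1 hr2
    exact nc_of_steps hn (by rw [e1]; exact e2) (by rw [e1']; exact e2')
  · exact nc_of_not_dvd hw h2 k hk

/-- the first step is U and the last step is L: the root is an anomalous corner -/
theorem root_LU {w : List Step} (hw : IsTCP w) (h2 : 2 < w.length)
    (hU : w.head? = some Step.U) (hL : w.getLast? = some Step.L) :
    lev w (-1) = lev w 0 + 1 ∧ Xw w (-1) = Xw w 0 + 1 ∧ lev w 1 = lev w 0 + 1 ∧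
      Xw w 1 = Xw w 0 := by
  have h0 : 0 < w.length := by omega
  obtain ⟨r, hr, er, e1, e2⟩ := prev_data hw h0 0
  obtain ⟨r', hr', er', e1', e2'⟩ := step_data hw h0 0
  have hr2 : r' = 0 := by
    rw [Int.zero_emod] at er'
    exact_mod_cast er'
  have hr1 : r = w.length - 1 := by
    have h5 : (0 - 1 : ℤ) = (w.length - 1) + w.length * (-1) := by ring
    rw [h5, Int.add_mul_emod_self_left, Int.emod_eq_of_lt (by omega) (by omega)] at er
    omega
  subst hr1 hr2
  have s0 : w[0] = Step.U := by
    rw [List.head?_eq_getElem?, List.getElem?_eq_getElem h0] at hU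
    exact Option.some.inj hU
  have s1 : w[w.length - 1] = Step.L := by
    rw [List.getLast?_eq_getElem?, List.getElem?_eq_getElem (by omega)] at hL
    exact Option.some.inj hL
  rw [s1, ← e1] at e2
  rw [s0, ← e1'] at e2'
  have a1 := congrArg Prod.fst e2
  have a2 := congrArg Prod.snd e2
  have b1 := congrArg Prod.fst e2'
  have b2 := congrArg Prod.snd e2'
  rw [Prod.fst_add] at a1 b1
  rw [Prod.snd_add] at a2 b2
  simp only [Step.vec, zero_sub, zero_add] at a1 a2 b1 b2
  unfold lev Xw
  refine ⟨?_, ?_, ?_, ?_⟩ <;> omega

end Pool.Agent.Helper99.TC
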