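import Pool.Agent.Helper99.TC.Geo

/-!
# TC-1: the zigzag lemma

`zigzag_up`: a down run, an up run and a down run of (at least) the same length `l` with normal corners in between are
impossible if `2 * l < m`.

Proof. Put `P q = X (i - q)`, `M q = X (i + q)`, `N q = X (i + 2 l - q)` for `0 ≤ q ≤ l` (all at level `h i + q`).
By `c1`: `P 1 = X i`, `M 1 = X i + 1`. By `c2`: `M (l-1) = X (i+l)`, `N (l-1) = X (i+l) - 1`. If `l = 1` these two
give `M 1 = X i + 1` and `M 1 = X (i + l) = M (l - 1) = X i`, a contradiction. Let `l ≥ 2`. Going up one level each of `P, M, N` changes by 0 or 1 and the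
three are pairwise distinct (`CW.inj`; the times differ by `2 q`, `2 l - 2 q`, `2 l`, which lie in `(0, m)`), so strict
inequalities between two of them propagate from level to level, up and down. Hence `P q < M q` for `1 ≤ q ≤ l`, and `N q < M q` for
`0 ≤ q ≤ l - 1`. At `q = 1`: `N 1 < M 1 = P 1 + 1` so `N 1 < P 1` (distinct), hence `N q < P q` for all `q ≥ 1`;
at `q = l - 1`: `P < M = N + 1` so `P < N`: contradiction.

`zigzag_down` follows by `CW.neg`, `NC.neg`.
-/

set_option autoImplicit false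

namespace Pool.Agent.Helper99.TC

private theorem zz_lvlP {h : ℤ → ℤ} {i : ℤ} {l : ℕ} (d1 : Downs h (i - l) l) :
    ∀ q : ℕ, q ≤ l → h (i - q) = h i + q := by
  intro q
  induction q with
  | zero => intro _; simp
  | succ q ih =>
    intro hq
    have h1 := ih (by omega)
    have h2 := d1 (l - (q + 1)) (by omega)
    have e1 : i - (l : ℤ) + ((l - (q + 1) : ℕ) : ℤ) = i - ((q + 1 : ℕ) : ℤ) := by omega
    have e2 : i - (l : ℤ) + ((l - (q + 1) : ℕ) : ℤ) + 1 = i - (q : ℤ) := by omega
    rw [e2, e1, h1] at h2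
    push_cast at h2 ⊢
    omega

private theorem zz_lvlM {h : ℤ → ℤ} {i : ℤ} {l : ℕ} (u : Ups h i l) :
    ∀ q : ℕ, q ≤ l → h (i + q) = h i + q := by
  intro q
  induction q with
  | zero => intro _; simp
  | succ q ih =>
    intro hq
    have h1 := ih (by omega)
    have h2 := u q (by omega)
    have e2 : i + (q : ℤ) + 1 = i + ((q + 1 : ℕ) : ℤ) := by push_cast; ring
    rw [e2, h1] at h2
    push_cast at h2 ⊢
    omega

private theorem zz_lvlN {h : ℤ → ℤ} {j : ℤ} {l : ℕ} (d2 : Downs h j l) :
    ∀ q : ℕ, q ≤ l → h (j + q) = h j - q := by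
  intro q
  induction q with
  | zero => intro _; simp
  | succ q ih =>
    intro hq
    have h1 := ih (by omega)
    have h2 := d2 q (by omega)
    have e2 : j + (q : ℤ) + 1 = j + ((q + 1 : ℕ) : ℤ) := by push_cast; ring
    rw [e2, h1] at h2
    push_cast at h2 ⊢
    omega

private theorem zz_ne {m : ℕ} {X h : ℤ → ℤ} (H : CW m X h) {a b : ℤ} (hab : h a = h b)
    (h0 : 0 < b - a) (h1 : b - a < m) : X a ≠ X b := by
  intro e
  obtain ⟨c, hc⟩ := H.inj b a e.symm hab.symm
  have hm : (0 : ℤ) < m := by exact_mod_cast H.mpos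
  rcases le_or_gt c 0 with hc0 | hc0
  · have : (m : ℤ) * c ≤ 0 := mul_nonpos_of_nonneg_of_nonpos hm.le hc0
    omega
  · have : (m : ℤ) * 1 ≤ m * c := mul_le_mul_of_nonneg_left (by omega) hm.le
    omega

theorem zigzag_up {m : ℕ} {X h : ℤ → ℤ} (H : CW m X h) (i : ℤ) (l : ℕ) (hl : 1 ≤ l)
    (h2 : 2 * l < m) (d1 : Downs h (i - l) l) (u : Ups h i l) (d2 : Downs h (i + l) l)
    (c1 : NC X h i) (c2 : NC X h (i + l)) : False := by
  have lP := zz_lvlP d1
  have lM := zz_lvlM u
  have lN0 := zz_lvlN d2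
  have hl' := lM l le_rfl
  have lN : ∀ q : ℕ, q ≤ l → h (i + 2 * l - q) = h i + q := by
    intro q hq
    have h1 := lN0 (l - q) (by omega)
    have e : i + (l : ℤ) + ((l - q : ℕ) : ℤ) = i + 2 * l - q := by omega
    rw [e, hl'] at h1
    omega
  have hPM : ∀ q : ℕ, 1 ≤ q → q ≤ l → X (i - q) ≠ X (i + q) := by
    intro q h1 hq
    exact zz_ne H (by rw [lP q hq, lM q hq]) (by omega) (by omega)
  have hMN : ∀ q : ℕ, q < l → X (i + q) ≠ X (i + 2 * l - q) := by
    intro q hq
    exact zz_ne H (by rw [lM q hq.le, lN q hq.le]) (by omega) (by omega)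
  have hPN : ∀ q : ℕ, q ≤ l → X (i - q) ≠ X (i + 2 * l - q) := by
    intro q hq
    exact zz_ne H (by rw [lP q hq, lN q hq]) (by omega) (by omega)
  -- steps
  have sP : ∀ q : ℕ, q + 1 ≤ l → X (i - (q + 1 : ℕ)) = X (i - q) ∨
      X (i - (q + 1 : ℕ)) = X (i - q) + 1 := by
    intro q hq
    have e : i - ((q + 1 : ℕ) : ℤ) + 1 = i - (q : ℤ) := by push_cast; ring
    have hs := H.step (i - (q + 1 : ℕ))
    rw [e, lP q (by omega), lP (q + 1) hq] at hs
    push_cast at hs ⊢
    omega
  have sM : ∀ q : ℕ, q + 1 ≤ l → X (i + (q + 1 : ℕ)) = X (i + q) ∨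
      X (i + (q + 1 : ℕ)) = X (i + q) + 1 := by
    intro q hq
    have e : i + (q : ℤ) + 1 = i + ((q + 1 : ℕ) : ℤ) := by push_cast; ring
    have hs := H.step (i + q)
    rw [e, lM q (by omega), lM (q + 1) hq] at hs
    push_cast at hs ⊢
    omega
  have sN : ∀ q : ℕ, q + 1 ≤ l → X (i + 2 * l - (q + 1 : ℕ)) = X (i + 2 * l - q) ∨
      X (i + 2 * l - (q + 1 : ℕ)) = X (i + 2 * l - q) + 1 := by
    intro q hq
    have e : i + 2 * (l : ℤ) - ((q + 1 : ℕ) : ℤ) + 1 = i + 2 * l - (q : ℤ) := by push_cast; ring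
    have hs := H.step (i + 2 * l - (q + 1 : ℕ))
    rw [e, lN q (by omega), lN (q + 1) hq] at hs
    push_cast at hs ⊢
    omega
  -- corners
  have hi1 : X (i - 1) = X i ∧ X (i + 1) = X i + 1 := by
    refine c1.2 ?_ ?_
    · have := lP 1 hl
      push_cast at this
      exact this
    · have := lM 1 hl
      push_cast at this
      exact this
  have hi2 : X (i + l - 1) = X (i + l) ∧ X (i + l + 1) = X (i + l) - 1 := by
    refine c2.1 ?_ ?_
    · have h1 := lM (l - 1) (by omega)
      have e : i + ((l - 1 : ℕ) : ℤ) = i + l - 1 := by omega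
      rw [e] at h1
      omega
    · have h1 := lN0 1 hl
      push_cast at h1
      exact h1
  rcases Nat.lt_or_ge l 2 with hl2 | hl2
  · have hl1 : l = 1 := by omega
    subst hl1
    have e : i + ((1 : ℕ) : ℤ) - 1 = i := by push_cast; ring
    have h1 := hi2.1
    rw [e] at h1
    have h2 := hi1.2
    push_cast at h1
    omega
  · -- P q < M q
    have hlt1 : ∀ r : ℕ, r + 1 ≤ l → X (i - (r + 1 : ℕ)) < X (i + (r + 1 : ℕ)) := by
      intro r
      induction r with
      | zero =>
        intro _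
        push_cast
        rw [hi1.1, hi1.2]
        omega
      | succ r ih =>
        intro hr
        have h1 := ih (by omega)
        have h2 := sP (r + 1) hr
        have h3 := sM (r + 1) hr
        have h4 := hPM (r + 1 + 1) (by omega) hr
        omega
    -- N q < M q, downwards
    have hlt2 : ∀ r : ℕ, r + 1 ≤ l → X (i + 2 * l - (l - 1 - r : ℕ)) < X (i + (l - 1 - r : ℕ)) := by
      intro r
      induction r with
      | zero =>
        intro _
        have e1 : i + 2 * (l : ℤ) - ((l - 1 - 0 : ℕ) : ℤ) = i + l + 1 := by omega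
        have e2 : i + ((l - 1 - 0 : ℕ) : ℤ) = i + l - 1 := by omega
        rw [e1, e2, hi2.1, hi2.2]
        omega
      | succ r ih =>
        intro hr
        have h1 := ih (by omega)
        have e : l - 1 - r = (l - 1 - (r + 1)) + 1 := by omega
        have h2 := sN (l - 1 - (r + 1)) (by omega)
        have h3 := sM (l - 1 - (r + 1)) (by omega)
        have h4 := hMN (l - 1 - (r + 1)) (by omega)
        rw [e] at h1
        omega
    have hN1 : X (i + 2 * l - (1 : ℕ)) < X (i - (1 : ℕ)) := by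
      have h1 := hlt2 (l - 2) (by omega)
      have e : l - 1 - (l - 2) = 1 := by omega
      rw [e] at h1
      have h2 := hPN 1 hl
      have h3 := hi1.1
      have h4 := hi1.2
      push_cast at h1 h2 ⊢
      omega
    have hlt3 : ∀ r : ℕ, r + 1 ≤ l → X (i + 2 * l - (r + 1 : ℕ)) < X (i - (r + 1 : ℕ)) := by
      intro r
      induction r with
      | zero =>
        intro _
        rw [zero_add]
        exact hN1
      | succ r ih =>
        intro hr
        have h1 := ih (by omega)
        have h2 := sP (r + 1) hr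
        have h3 := sN (r + 1) hr
        have h4 := hPN (r + 1 + 1) hr
        omega
    have a1 := hlt3 (l - 2) (by omega)
    have a2 := hlt1 (l - 2) (by omega)
    have e : l - 2 + 1 = l - 1 := by omega
    rw [e] at a1 a2
    have e1 : i + 2 * (l : ℤ) - ((l - 1 : ℕ) : ℤ) = i + l + 1 := by omega
    have e2 : i + ((l - 1 : ℕ) : ℤ) = i + l - 1 := by omega
    rw [e1] at a1
    rw [e2] at a2
    rw [hi2.2] at a1
    rw [hi2.1] at a2
    omega

theorem zigzag_down {m : ℕ} {X h : ℤ → ℤ} (H : CW m X h) (i : ℤ) (l : ℕ) (hl : 1 ≤ l)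
    (h2 : 2 * l < m) (u1 : Ups h (i - l) l) (d : Downs h i l) (u2 : Ups h (i + l) l)
    (c1 : NC X h i) (c2 : NC X h (i + l)) : False := by
  have flip1 : ∀ {j : ℤ}, Ups h j l → Downs (fun k => -h k) j l := by
    intro j hu q hq
    have := hu q hq
    simp only
    omega
  have flip2 : ∀ {j : ℤ}, Downs h j l → Ups (fun k => -h k) j l := by
    intro j hu q hq
    have := hu q hq
    simp only
    omega
  exact zigzag_up H.neg i l hl h2 (flip1 u1) (flip2 d) (flip1 u2) c1.neg c2.neg

end Pool.Agent.Helper99.TC
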